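import Pool.Agent.Lib.MP_6e94a1_ag.CovDefs

/-!
# Zariski topology: irreducibility in terms of polynomials, double covers
-/

open MvPolynomial Set Topology

namespace Pool.Agent.Lib.MP_6e94a1_ag

variable {σ τ : Type}

lemma isBasis_zariski (σ : Type) : @TopologicalSpace.IsTopologicalBasis _ (zariski σ)
    {U | ∃ f : MvPolynomial σ ℂ, U = {v | eval v f ≠ 0}} := by
  let _ := zariski σ
  refine ⟨?_, ?_, rfl⟩
  · rintro _ ⟨f, rfl⟩ _ ⟨g, rfl⟩ x ⟨hx1, hx2⟩
    refine ⟨_, ⟨f * g, rfl⟩, ?_, ?_⟩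
    · simp only [Set.mem_ofPred_eq, map_mul] at *
      exact mul_ne_zero hx1 hx2
    · intro y hy
      simp only [Set.mem_ofPred_eq, map_mul, mem_inter_iff] at *
      exact ⟨left_ne_zero_of_mul hy, right_ne_zero_of_mul hy⟩
  · rw [sUnion_eq_univ_iff]
    intro x
    exact ⟨_, ⟨1, rfl⟩, by simp⟩

lemma irr_iff {S : Set (σ → ℂ)} : @IsIrreducible _ (zariski σ) S ↔
    S.Nonempty ∧ ∀ f g : MvPolynomial σ ℂ, (∀ v ∈ S, eval v f * eval v g = 0) →
      (∀ v ∈ S, eval v f = 0) ∨ (∀ v ∈ S, eval v g = 0) := by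
  let _ := zariski σ
  constructor
  · rintro ⟨h1, h2⟩
    refine ⟨h1, ?_⟩
    intro f g hfg
    by_contra hcon
    push Not at hcon
    obtain ⟨⟨x, hx, hxf⟩, ⟨y, hy, hyg⟩⟩ := hcon
    have o1 : IsOpen {v : σ → ℂ | eval v f ≠ 0} := (isBasis_zariski σ).isOpen ⟨f, rfl⟩
    have o2 : IsOpen {v : σ → ℂ | eval v g ≠ 0} := (isBasis_zariski σ).isOpen ⟨g, rfl⟩
    obtain ⟨z, hz, hz1, hz2⟩ := h2 _ _ o1 o2 ⟨x, hx, hxf⟩ ⟨y, hy, hyg⟩
    exact mul_ne_zero hz1 hz2 (hfg z hz)
  · rintro ⟨h1, h2⟩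
    refine ⟨h1, ?_⟩
    rintro u v hu hv ⟨x, hxS, hxu⟩ ⟨y, hyS, hyv⟩
    obtain ⟨_, ⟨f, rfl⟩, hxf, hfu⟩ := (isBasis_zariski σ).exists_subset_of_mem_open hxu hu
    obtain ⟨_, ⟨g, rfl⟩, hyg, hgv⟩ := (isBasis_zariski σ).exists_subset_of_mem_open hyv hv
    by_contra hcon
    have := h2 f g (by
      intro z hz
      by_contra hne
      apply hcon
      exact ⟨z, hz, hfu (left_ne_zero_of_mul hne), hgv (right_ne_zero_of_mul hne)⟩)
    rcases this with h | h
    · exact hxf (h x hxS)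
    · exact hyg (h y hyS)

/-- polynomial functions -/
def IsPoly (F : (σ → ℂ) → ℂ) : Prop := ∃ f : MvPolynomial σ ℂ, ∀ x, eval x f = F x

lemma IsPoly.const (c : ℂ) : IsPoly (fun _ : σ → ℂ => c) := ⟨C c, fun x => by simp⟩

lemma IsPoly.coord (i : σ) : IsPoly (fun x : σ → ℂ => x i) := ⟨X i, fun x => by simp⟩

lemma IsPoly.add {F G : (σ → ℂ) → ℂ} (hF : IsPoly F) (hG : IsPoly G) :
    IsPoly (fun x => F x + G x) := by
  obtain ⟨f, hf⟩ := hF
  obtain ⟨g, hg⟩ := hG
  exact ⟨f + g, fun x => by rw [map_add, hf, hg]⟩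

lemma IsPoly.sub {F G : (σ → ℂ) → ℂ} (hF : IsPoly F) (hG : IsPoly G) :
    IsPoly (fun x => F x - G x) := by
  obtain ⟨f, hf⟩ := hF
  obtain ⟨g, hg⟩ := hG
  exact ⟨f - g, fun x => by rw [map_sub, hf, hg]⟩

lemma IsPoly.mul {F G : (σ → ℂ) → ℂ} (hF : IsPoly F) (hG : IsPoly G) :
    IsPoly (fun x => F x * G x) := by
  obtain ⟨f, hf⟩ := hF
  obtain ⟨g, hg⟩ := hG
  exact ⟨f * g, fun x => by rw [map_mul, hf, hg]⟩

lemma IsPoly.neg {F : (σ → ℂ) → ℂ} (hF : IsPoly F) : IsPoly (fun x => - F x) := by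
  obtain ⟨f, hf⟩ := hF
  exact ⟨-f, fun x => by rw [map_neg, hf]⟩

lemma IsPoly.pow {F : (σ → ℂ) → ℂ} (hF : IsPoly F) (n : ℕ) : IsPoly (fun x => F x ^ n) := by
  obtain ⟨f, hf⟩ := hF
  exact ⟨f ^ n, fun x => by rw [map_pow, hf]⟩

lemma IsPoly.sum {ι : Type*} (s : Finset ι) {F : ι → (σ → ℂ) → ℂ} (hF : ∀ i, IsPoly (F i)) :
    IsPoly (fun x => ∑ i ∈ s, F i x) := by
  choose f hf using hF
  exact ⟨∑ i ∈ s, f i, fun x => by
    rw [map_sum]
    exact Finset.sum_congr rfl fun i _ => hf i x⟩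

lemma IsPoly.prod {ι : Type*} (s : Finset ι) {F : ι → (σ → ℂ) → ℂ} (hF : ∀ i, IsPoly (F i)) :
    IsPoly (fun x => ∏ i ∈ s, F i x) := by
  choose f hf using hF
  exact ⟨∏ i ∈ s, f i, fun x => by
    rw [map_prod]
    exact Finset.prod_congr rfl fun i _ => hf i x⟩

lemma IsPoly.det {n : Type*} [Fintype n] [DecidableEq n] {A : (σ → ℂ) → Matrix n n ℂ}
    (hA : ∀ i j, IsPoly (fun x => A x i j)) : IsPoly (fun x => (A x).det) := by
  have h : IsPoly (fun x => ∑ p : Equiv.Perm n, (((Equiv.Perm.sign p : ℤˣ) : ℤ) : ℂ) *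
      ∏ i, A x (p i) i) := by
    apply IsPoly.sum
    intro p
    exact (IsPoly.const _).mul (IsPoly.prod _ fun i => hA _ _)
  obtain ⟨f, hf⟩ := h
  refine ⟨f, fun x => ?_⟩
  have h2 := hf x
  have h3 := Matrix.det_apply' (A x)
  exact h2.trans h3.symm

/-- substitution of polynomial functions in a polynomial -/
lemma IsPoly.comp {G : (σ → ℂ) → (τ → ℂ)} (hG : ∀ j, IsPoly (fun x => G x j))
    (f : MvPolynomial τ ℂ) : IsPoly (fun x => eval (G x) f) := by
  induction f using MvPolynomial.induction_on with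
  | C a =>
    simp only [eval_C]
    exact IsPoly.const a
  | add p q hp hq =>
    simp only [map_add]
    exact hp.add hq
  | mul_X p i hp =>
    simp only [map_mul, eval_X]
    exact hp.mul (hG i)

/-- a polynomial vanishing at all points is zero; product version -/
lemma poly_mul_cancel [Finite σ] {f g : MvPolynomial σ ℂ} (hg : g ≠ 0)
    (h : ∀ x, eval x f * eval x g = 0) : f = 0 := by
  have h1 : f * g = 0 := by
    apply MvPolynomial.funext
    intro x
    rw [map_mul, h, map_zero]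
  rcases mul_eq_zero.1 h1 with h2 | h2
  · exact h2
  · exact absurd h2 hg

/-- If `F` is not a square, then `α² = β² F` forces `α = β = 0`. -/
lemma norm_zero {F α β : MvPolynomial σ ℂ} (hF : ∀ G, F ≠ G ^ 2) (h : α ^ 2 = β ^ 2 * F) :
    α = 0 ∧ β = 0 := by
  by_cases hβ : β = 0
  · subst hβ
    refine ⟨?_, rfl⟩
    have : α ^ 2 = 0 := by rw [h]; ring
    exact pow_eq_zero_iff (two_ne_zero) |>.1 this
  · exfalso
    have hd : β ^ 2 ∣ α ^ 2 := ⟨F, h⟩
    have hd2 : β ∣ α := by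
      rwa [IsIntegrallyClosed.pow_dvd_pow_iff (two_ne_zero)] at hd
    obtain ⟨γ, rfl⟩ := hd2
    apply hF γ
    have h2 : β ^ 2 * (F - γ ^ 2) = 0 := by
      rw [mul_sub, ← h]
      ring
    rcases mul_eq_zero.1 h2 with h3 | h3
    · exact absurd h3 (pow_ne_zero 2 hβ)
    · exact sub_eq_zero.1 h3

/-- functions on the double cover `w² = F(x)` -/
def IsPoly2 (F : (σ → ℂ) → ℂ) (P : (σ → ℂ) → ℂ → ℂ) : Prop :=
  ∃ α β : MvPolynomial σ ℂ, ∀ x w, w ^ 2 = F x → P x w = eval x α + eval x β * w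

lemma IsPoly2.of_poly {F : (σ → ℂ) → ℂ} {G : (σ → ℂ) → ℂ} (hG : IsPoly G) :
    IsPoly2 F (fun x _ => G x) := by
  obtain ⟨g, hg⟩ := hG
  exact ⟨g, 0, fun x w _ => by simp [hg]⟩

lemma IsPoly2.snd {F : (σ → ℂ) → ℂ} : IsPoly2 F (fun _ w => w) :=
  ⟨0, 1, fun x w _ => by simp⟩

lemma IsPoly2.add {F : (σ → ℂ) → ℂ} {P Q : (σ → ℂ) → ℂ → ℂ} (hP : IsPoly2 F P)
    (hQ : IsPoly2 F Q) : IsPoly2 F (fun x w => P x w + Q x w) := by
  obtain ⟨a, b, h⟩ := hP
  obtain ⟨c, d, h'⟩ := hQ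
  exact ⟨a + c, b + d, fun x w hw => by
    show P x w + Q x w = _
    rw [h x w hw, h' x w hw, map_add, map_add]
    ring⟩

lemma IsPoly2.sub {F : (σ → ℂ) → ℂ} {P Q : (σ → ℂ) → ℂ → ℂ} (hP : IsPoly2 F P)
    (hQ : IsPoly2 F Q) : IsPoly2 F (fun x w => P x w - Q x w) := by
  obtain ⟨a, b, h⟩ := hP
  obtain ⟨c, d, h'⟩ := hQ
  exact ⟨a - c, b - d, fun x w hw => by
    show P x w - Q x w = _
    rw [h x w hw, h' x w hw, map_sub, map_sub]
    ring⟩

lemma IsPoly2.mul {F : (σ → ℂ) → ℂ} (hF : IsPoly F) {P Q : (σ → ℂ) → ℂ → ℂ}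
    (hP : IsPoly2 F P) (hQ : IsPoly2 F Q) : IsPoly2 F (fun x w => P x w * Q x w) := by
  obtain ⟨f, hf⟩ := hF
  obtain ⟨a, b, h⟩ := hP
  obtain ⟨c, d, h'⟩ := hQ
  refine ⟨a * c + b * d * f, a * d + b * c, fun x w hw => ?_⟩
  show P x w * Q x w = _
  rw [h x w hw, h' x w hw]
  simp only [map_add, map_mul, hf]
  linear_combination (eval x b) * (eval x d) * hw

lemma IsPoly2.const {F : (σ → ℂ) → ℂ} (c : ℂ) : IsPoly2 F (fun _ _ => c) :=
  IsPoly2.of_poly (IsPoly.const c)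

/-- substitution -/
lemma IsPoly2.comp {F : (σ → ℂ) → ℂ} (hF : IsPoly F) {G : (σ → ℂ) → ℂ → (τ → ℂ)}
    (hG : ∀ j, IsPoly2 F (fun x w => G x w j)) (f : MvPolynomial τ ℂ) :
    IsPoly2 F (fun x w => eval (G x w) f) := by
  induction f using MvPolynomial.induction_on with
  | C a =>
    simp only [eval_C]
    exact IsPoly2.const a
  | add p q hp hq =>
    simp only [map_add]
    exact hp.add hq
  | mul_X p i hp =>
    simp only [map_mul, eval_X]
    exact hp.mul hF (hG i)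

/-- The image of an open part of a double cover `w² = F(x)`, `F` not a square, is irreducible. -/
lemma irr_image [Finite σ] {F h : MvPolynomial σ ℂ} (hF : ∀ G, F ≠ G ^ 2) (hh : h ≠ 0)
    {Ψ : (σ → ℂ) → ℂ → (τ → ℂ)} (hΨ : ∀ j, IsPoly2 (fun x => eval x F) (fun x w => Ψ x w j)) :
    @IsIrreducible _ (zariski τ)
      {y | ∃ x w, w ^ 2 = eval x F ∧ eval x h ≠ 0 ∧ Ψ x w = y} := by
  rw [irr_iff]
  have hFp : IsPoly (fun x => eval x F) := ⟨F, fun _ => rfl⟩
  constructor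
  · have : ∃ x, eval x h ≠ 0 := by
      by_contra hcon
      push Not at hcon
      exact hh (MvPolynomial.funext fun x => by rw [hcon x, map_zero])
    obtain ⟨x, hx⟩ := this
    obtain ⟨w, hw⟩ := IsAlgClosed.exists_pow_nat_eq (eval x F) (n := 2) (by norm_num)
    exact ⟨_, x, w, hw, hx, rfl⟩
  · intro f g hfg
    obtain ⟨a, b, hab⟩ := IsPoly2.comp hFp hΨ f
    obtain ⟨c, d, hcd⟩ := IsPoly2.comp hFp hΨ g
    simp only at hab hcd
    have key : (a ^ 2 - b ^ 2 * F) * (c ^ 2 - d ^ 2 * F) = 0 := by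
      apply poly_mul_cancel hh
      intro x
      by_cases hx : eval x h = 0
      · rw [hx, mul_zero]
      · obtain ⟨w, hw⟩ := IsAlgClosed.exists_pow_nat_eq (eval x F) (n := 2) (by norm_num)
        have hw' : (-w) ^ 2 = eval x F := by rw [← hw]; ring
        have e1 := hfg _ ⟨x, w, hw, hx, rfl⟩
        have e2 := hfg _ ⟨x, -w, hw', hx, rfl⟩
        rw [hab x w hw, hcd x w hw] at e1
        rw [hab x (-w) hw', hcd x (-w) hw'] at e2
        simp only [map_mul, map_sub, map_pow]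
        rw [← hw]
        -- (a+bw)(c+dw) = 0 and (a-bw)(c-dw) = 0
        linear_combination (eval x h) * (eval x a + eval x b * -w) *
          (eval x c + eval x d * -w) * e1
    rcases mul_eq_zero.1 key with h1 | h1
    · left
      obtain ⟨ha, hb⟩ := norm_zero hF (sub_eq_zero.1 h1)
      rintro _ ⟨x, w, hw, _, rfl⟩
      rw [hab x w hw, ha, hb]
      simp
    · right
      obtain ⟨hc, hd⟩ := norm_zero hF (sub_eq_zero.1 h1)
      rintro _ ⟨x, w, hw, _, rfl⟩
      rw [hcd x w hw, hc, hd]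
      simp

/-- a quadratic polynomial with non-zero discriminant is not a square -/
lemma not_sq {A B C : ℂ} (h : B ^ 2 ≠ 4 * A * C) (p : Polynomial ℂ) :
    ¬ ∀ x, p.eval x ^ 2 = A + B * x + C * x ^ 2 := by
  intro hp
  have hpoly : p ^ 2 = Polynomial.C A + Polynomial.C B * Polynomial.X +
      Polynomial.C C * Polynomial.X ^ 2 := by
    apply Polynomial.funext
    intro x
    simp only [Polynomial.eval_pow, Polynomial.eval_add, Polynomial.eval_mul,
      Polynomial.eval_C, Polynomial.eval_X]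
    exact hp x
  have hder : 2 * p * Polynomial.derivative p = Polynomial.C B +
      Polynomial.C (2 * C) * Polynomial.X := by
    have := congrArg Polynomial.derivative hpoly
    simp only [Polynomial.derivative_pow, Polynomial.derivative_add, Polynomial.derivative_mul,
      Polynomial.derivative_C, Polynomial.derivative_X, zero_mul, mul_one, zero_add] at this
    rw [Polynomial.C_mul]
    norm_num at this
    have e : (Polynomial.C (2 : ℂ)) = 2 := rfl
    rw [e] at this ⊢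
    rw [this]
    ring
  have hroot : ∀ r, A + B * r + C * r ^ 2 = 0 → B + 2 * C * r = 0 := by
    intro r hr
    have h1 : p.eval r = 0 := by
      have := hp r
      rw [hr] at this
      exact pow_eq_zero_iff (two_ne_zero) |>.1 this
    have h2 := congrArg (Polynomial.eval r) hder
    simp only [Polynomial.eval_mul, Polynomial.eval_add, Polynomial.eval_C,
      Polynomial.eval_X, h1] at h2
    linear_combination -h2
  by_cases hC : C = 0
  · by_cases hB : B = 0
    · apply h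
      rw [hC, hB]
      ring
    · have := hroot (-A / B) (by rw [hC]; field_simp; ring)
      rw [hC] at this
      apply hB
      linear_combination this
  · obtain ⟨δ, hδ⟩ := IsAlgClosed.exists_pow_nat_eq (B ^ 2 - 4 * A * C) (n := 2) (by norm_num)
    have e := hroot ((-B + δ) / (2 * C)) (by
      field_simp
      linear_combination hδ)
    have hδ0 : δ = 0 := by
      field_simp at e
      linear_combination e
    rw [hδ0] at hδ
    apply h
    linear_combination -hδ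

end Pool.Agent.Lib.MP_6e94a1_ag
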