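import Pool.Agent.Lib.MP_6e94a1_ag.Global1
import Pool.Agent.Lib.MP_6e94a1_ag.CovZar

/-!
# Basic facts on the quintic del Pezzo threefold and its double covers
-/

open scoped LinearAlgebra.Projectivization Topology
open MvPolynomial Set

set_option linter.all false

namespace Pool.Agent.Lib.MP_6e94a1_ag

/-- the quadratic form of the matrix `Q` -/
def quad (Q : Matrix (Fin 7) (Fin 7) ℂ) (a : Fin 7 → ℂ) : ℂ :=
  ∑ i : Fin 7, ∑ j : Fin 7, Q i j * a i * a j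

/-- twice the polar form of `quad Q` -/
def bil (Q : Matrix (Fin 7) (Fin 7) ℂ) (a b : Fin 7 → ℂ) : ℂ :=
  ∑ i : Fin 7, ∑ j : Fin 7, Q i j * (a i * b j + a j * b i)

lemma quad_comb (Q : Matrix (Fin 7) (Fin 7) ℂ) (x y : ℂ) (a b : Fin 7 → ℂ) :
    quad Q (x • a + y • b) = x ^ 2 * quad Q a + x * y * bil Q a b + y ^ 2 * quad Q b := by
  simp only [quad, bil, Finset.mul_sum, ← Finset.sum_add_distrib]
  refine Finset.sum_congr rfl fun i _ => Finset.sum_congr rfl fun j _ => ?_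
  simp only [Pi.add_apply, Pi.smul_apply, smul_eq_mul]
  ring

lemma quad_smul (Q : Matrix (Fin 7) (Fin 7) ℂ) (x : ℂ) (a : Fin 7 → ℂ) :
    quad Q (x • a) = x ^ 2 * quad Q a := by
  simp only [quad, Finset.mul_sum]
  refine Finset.sum_congr rfl fun i _ => Finset.sum_congr rfl fun j _ => ?_
  simp only [Pi.smul_apply, smul_eq_mul]
  ring

lemma bil_add_left (Q : Matrix (Fin 7) (Fin 7) ℂ) (a b c : Fin 7 → ℂ) :
    bil Q (a + b) c = bil Q a c + bil Q b c := by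
  simp only [bil, ← Finset.sum_add_distrib]
  refine Finset.sum_congr rfl fun i _ => Finset.sum_congr rfl fun j _ => ?_
  simp only [Pi.add_apply]
  ring

lemma bil_smul_left (Q : Matrix (Fin 7) (Fin 7) ℂ) (x : ℂ) (a c : Fin 7 → ℂ) :
    bil Q (x • a) c = x * bil Q a c := by
  simp only [bil, Finset.mul_sum]
  refine Finset.sum_congr rfl fun i _ => Finset.sum_congr rfl fun j _ => ?_
  simp only [Pi.smul_apply, smul_eq_mul]
  ring

lemma bil_comm (Q : Matrix (Fin 7) (Fin 7) ℂ) (a b : Fin 7 → ℂ) : bil Q a b = bil Q b a := by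
  simp only [bil]
  refine Finset.sum_congr rfl fun i _ => Finset.sum_congr rfl fun j _ => ?_
  ring

lemma bil_self (Q : Matrix (Fin 7) (Fin 7) ℂ) (a : Fin 7 → ℂ) : bil Q a a = 2 * quad Q a := by
  simp only [bil, quad, Finset.mul_sum]
  refine Finset.sum_congr rfl fun i _ => Finset.sum_congr rfl fun j _ => ?_
  ring

lemma bil_add_right (Q : Matrix (Fin 7) (Fin 7) ℂ) (a b c : Fin 7 → ℂ) :
    bil Q c (a + b) = bil Q c a + bil Q c b := by
  rw [bil_comm, bil_add_left, bil_comm Q a, bil_comm Q b]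

lemma bil_smul_right (Q : Matrix (Fin 7) (Fin 7) ℂ) (x : ℂ) (a c : Fin 7 → ℂ) :
    bil Q c (x • a) = x * bil Q c a := by
  rw [bil_comm, bil_smul_left, bil_comm Q a]

/-- the first seven coordinates -/
def low (v : Fin 8 → ℂ) : Fin 7 → ℂ := fun i => v i.castSucc

/-- add an eighth coordinate -/
def up (a : Fin 7 → ℂ) (w : ℂ) : Fin 8 → ℂ := Fin.snoc (α := fun _ => ℂ) a w

@[simp] lemma low_up (a : Fin 7 → ℂ) (w : ℂ) : low (up a w) = a := by
  ext i
  simp only [low, up, Fin.snoc_castSucc]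

@[simp] lemma up_seven (a : Fin 7 → ℂ) (w : ℂ) : up a w 7 = w := by
  have : (7 : Fin 8) = Fin.last 7 := rfl
  rw [this]
  simp only [up, Fin.snoc_last]

lemma up_low (v : Fin 8 → ℂ) : up (low v) (v 7) = v := by
  have h : (7 : Fin 8) = Fin.last 7 := rfl
  ext i
  refine Fin.lastCases ?_ (fun j => ?_) i
  · rw [← h, up_seven]
  · simp only [up, Fin.snoc_castSucc, low]

lemma up_ext {v w : Fin 8 → ℂ} (h : low v = low w) (h7 : v 7 = w 7) : v = w := by
  rw [← up_low v, ← up_low w, h, h7]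

@[simp] lemma low_smul (c : ℂ) (v : Fin 8 → ℂ) : low (c • v) = c • low v := rfl

@[simp] lemma low_add (v w : Fin 8 → ℂ) : low (v + w) = low v + low w := rfl

lemma smul_up (c : ℂ) (a : Fin 7 → ℂ) (w : ℂ) : c • up a w = up (c • a) (c * w) := by
  apply up_ext
  · simp
  · simp

lemma up_zero_zero : up 0 0 = 0 := by
  apply up_ext
  · rw [low_up]
    rfl
  · rw [up_seven]
    rfl

lemma quad_zero (Q : Matrix (Fin 7) (Fin 7) ℂ) : quad Q 0 = 0 := by
  simp [quad]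

/-- the equations of the double cover -/
lemma eqX_iff (Q : Matrix (Fin 7) (Fin 7) ℂ) (v : Fin 8 → ℂ) :
    (∀ i, eval v (eqX Q i) = 0) ↔ Cone (low v) ∧ v 7 ^ 2 = quad Q (low v) := by
  have e0 : low v 0 = v 0 := rfl
  have e1 : low v 1 = v 1 := rfl
  have e2 : low v 2 = v 2 := rfl
  have e3 : low v 3 = v 3 := rfl
  have e4 : low v 4 = v 4 := rfl
  have e5 : low v 5 = v 5 := rfl
  have e6 : low v 6 = v 6 := rfl
  have eq : (∑ i : Fin 7, ∑ j : Fin 7, Q i j * v i.castSucc * v j.castSucc) =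
      quad Q (low v) := rfl
  rw [Fin.forall_fin_succ, Fin.forall_fin_succ, Fin.forall_fin_succ, Fin.forall_fin_succ,
    Fin.forall_fin_succ, Fin.forall_fin_one]
  simp only [eqX, Cone, e0, e1, e2, e3, e4, e5, e6]
  simp [eq, sub_eq_zero]
  tauto

lemma mem_cone_eqX (Q : Matrix (Fin 7) (Fin 7) ℂ) (v : Fin 8 → ℂ) :
    v ∈ cone (eqX Q) ↔ v ≠ 0 ∧ Cone (low v) ∧ v 7 ^ 2 = quad Q (low v) := by
  rw [← eqX_iff]
  rfl

lemma low_ne_zero {Q : Matrix (Fin 7) (Fin 7) ℂ} {v : Fin 8 → ℂ} (h : v ∈ cone (eqX Q)) :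
    low v ≠ 0 := by
  obtain ⟨h0, h1, h2⟩ := (mem_cone_eqX Q v).1 h
  intro h3
  apply h0
  rw [h3, quad_zero] at h2
  have h4 : v 7 = 0 := pow_eq_zero_iff (two_ne_zero) |>.1 h2
  rw [← up_low v, h3, h4, up_zero_zero]

lemma up_mem_cone {Q : Matrix (Fin 7) (Fin 7) ℂ} {a : Fin 7 → ℂ} {w : ℂ} (ha : a ≠ 0)
    (hc : Cone a) (hw : w ^ 2 = quad Q a) : up a w ∈ cone (eqX Q) := by
  rw [mem_cone_eqX]
  refine ⟨?_, ?_, ?_⟩
  · intro h
    apply ha
    rw [← low_up a w, h]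
    rfl
  · rwa [low_up]
  · rwa [up_seven, low_up]

lemma smul_mem_cone {Q : Matrix (Fin 7) (Fin 7) ℂ} {v : Fin 8 → ℂ} {c : ℂ} (hc : c ≠ 0)
    (h : v ∈ cone (eqX Q)) : c • v ∈ cone (eqX Q) := by
  rw [mem_cone_eqX] at *
  obtain ⟨h0, h1, h2⟩ := h
  refine ⟨smul_ne_zero hc h0, ?_, ?_⟩
  · rw [low_smul]
    exact h1.smul c
  · rw [low_smul, quad_smul, ← h2]
    simp only [Pi.smul_apply, smul_eq_mul]
    ring

/-- membership in the projective variety -/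
lemma mem_zeros_eqX {Q : Matrix (Fin 7) (Fin 7) ℂ} {v : Fin 8 → ℂ} (hv : v ≠ 0) :
    Projectivization.mk ℂ v hv ∈ zeros (eqX Q) ↔ v ∈ cone (eqX Q) := by
  obtain ⟨a, ha⟩ := Projectivization.exists_smul_eq_mk_rep ℂ v hv
  have h1 : (Projectivization.mk ℂ v hv).rep ∈ cone (eqX Q) ↔ v ∈ cone (eqX Q) := by
    rw [← ha]
    constructor
    · intro h
      have := smul_mem_cone (Units.ne_zero a⁻¹) h
      rw [Units.smul_def, smul_smul, ← Units.val_mul] at this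
      simpa using this
    · intro h
      exact smul_mem_cone (Units.ne_zero a) h
  exact h1

/-! ### the five quadrics and their polar forms -/

/-- the five quadrics -/
def qv (a : Fin 7 → ℂ) : Fin 5 → ℂ :=
  ![a 0 * a 4 - 4 * a 1 * a 3 + 3 * a 2 ^ 2,
    a 0 * a 5 - 3 * a 1 * a 4 + 2 * a 2 * a 3,
    a 0 * a 6 - 9 * a 2 * a 4 + 8 * a 3 ^ 2,
    a 1 * a 6 - 3 * a 2 * a 5 + 2 * a 3 * a 4,
    a 2 * a 6 - 4 * a 3 * a 5 + 3 * a 4 ^ 2]

lemma cone_iff (a : Fin 7 → ℂ) : Cone a ↔ qv a = 0 := by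
  constructor
  · rintro ⟨h0, h1, h2, h3, h4⟩
    ext i
    fin_cases i
    · exact h0
    · exact h1
    · exact h2
    · exact h3
    · exact h4
  · intro h
    exact ⟨congrFun h 0, congrFun h 1, congrFun h 2, congrFun h 3, congrFun h 4⟩

/-- polar forms -/
def pv (a b : Fin 7 → ℂ) : Fin 5 → ℂ :=
  ![a 0 * b 4 + b 0 * a 4 - 4 * (a 1 * b 3 + b 1 * a 3) + 6 * (a 2 * b 2),
    a 0 * b 5 + b 0 * a 5 - 3 * (a 1 * b 4 + b 1 * a 4) + 2 * (a 2 * b 3 + b 2 * a 3),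
    a 0 * b 6 + b 0 * a 6 - 9 * (a 2 * b 4 + b 2 * a 4) + 16 * (a 3 * b 3),
    a 1 * b 6 + b 1 * a 6 - 3 * (a 2 * b 5 + b 2 * a 5) + 2 * (a 3 * b 4 + b 3 * a 4),
    a 2 * b 6 + b 2 * a 6 - 4 * (a 3 * b 5 + b 3 * a 5) + 6 * (a 4 * b 4)]

lemma qv_add (a b : Fin 7 → ℂ) : qv (a + b) = qv a + pv a b + qv b := by
  ext i
  fin_cases i <;> simp [qv, pv] <;> ring

lemma qv_comb (x y : ℂ) (a b : Fin 7 → ℂ) :
    qv (x • a + y • b) = x ^ 2 • qv a + (x * y) • pv a b + y ^ 2 • qv b := by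
  ext i
  fin_cases i <;> simp [qv, pv] <;> ring

lemma qv_rho (g : M2) : ∃ A : Matrix (Fin 5) (Fin 5) ℂ, ∀ v, qv (rho g v) = A.mulVec (qv v) := by
  apply Matrix.diagonal_transvection_induction
    (P := fun g => ∃ A : Matrix (Fin 5) (Fin 5) ℂ, ∀ v, qv (rho g v) = A.mulVec (qv v)) g
  · intro D _
    refine ⟨Matrix.diagonal ![(D 0) ^ 8 * (D 1) ^ 4, (D 0) ^ 7 * (D 1) ^ 5,
      (D 0) ^ 6 * (D 1) ^ 6, (D 0) ^ 5 * (D 1) ^ 7, (D 0) ^ 4 * (D 1) ^ 8], ?_⟩
    intro v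
    ext i
    rw [Matrix.mulVec_diagonal]
    fin_cases i <;>
    · simp only [qv, MP_6e94a1_ag.rho, LinearMap.coe_mk, AddHom.coe_mk, rhoAux, Matrix.cons_val,
        Matrix.diagonal_apply_eq, Matrix.diagonal_apply_ne _ (zero_ne_one' (Fin 2)),
        Matrix.diagonal_apply_ne _ (one_ne_zero' (Fin 2)), Fin.zero_eta, Fin.mk_one,
        Fin.reduceFinMk]
      ring
  · rintro ⟨i, j, hij, c⟩
    fin_cases i <;> fin_cases j
    · exact absurd rfl hij
    · refine ⟨!![1, 2 * c, c ^ 2, 2 * c ^ 3, c ^ 4; 0, 1, c, 3 * c ^ 2, 2 * c ^ 3;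
        0, 0, 1, 6 * c, 6 * c ^ 2; 0, 0, 0, 1, 2 * c; 0, 0, 0, 0, 1], ?_⟩
      intro v
      ext i
      fin_cases i <;>
      · simp only [qv, MP_6e94a1_ag.rho, LinearMap.coe_mk, AddHom.coe_mk, rhoAux,
          Matrix.cons_val, Matrix.TransvectionStruct.toMatrix, Matrix.transvection,
          Matrix.add_apply, Matrix.one_apply, Matrix.single_apply, Matrix.mulVec, dotProduct,
          Fin.sum_univ_five, Matrix.of_apply, Fin.zero_eta, Fin.mk_one, Fin.reduceFinMk]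
        norm_num
        ring
    · refine ⟨!![1, 0, 0, 0, 0; 2 * c, 1, 0, 0, 0; 6 * c ^ 2, 6 * c, 1, 0, 0;
        2 * c ^ 3, 3 * c ^ 2, c, 1, 0; c ^ 4, 2 * c ^ 3, c ^ 2, 2 * c, 1], ?_⟩
      intro v
      ext i
      fin_cases i <;>
      · simp only [qv, MP_6e94a1_ag.rho, LinearMap.coe_mk, AddHom.coe_mk, rhoAux,
          Matrix.cons_val, Matrix.TransvectionStruct.toMatrix, Matrix.transvection,
          Matrix.add_apply, Matrix.one_apply, Matrix.single_apply, Matrix.mulVec, dotProduct,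
          Fin.sum_univ_five, Matrix.of_apply, Fin.zero_eta, Fin.mk_one, Fin.reduceFinMk]
        norm_num
        try ring
    · exact absurd rfl hij
  · rintro A B ⟨A', hA⟩ ⟨B', hB⟩
    refine ⟨A' * B', fun v => ?_⟩
    rw [rho_mul, hA, hB, Matrix.mulVec_mulVec]

lemma pv_rho (g : M2) {a b : Fin 7 → ℂ} (h : pv a b = 0) : pv (rho g a) (rho g b) = 0 := by
  obtain ⟨A, hA⟩ := qv_rho g
  have h1 : pv (rho g a) (rho g b) = qv (rho g a + rho g b) - qv (rho g a) - qv (rho g b) := by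
    rw [qv_add]
    abel
  rw [h1, ← map_add, hA, hA, hA, qv_add, h]
  simp only [Matrix.mulVec_add, Matrix.mulVec_zero]
  abel

end Pool.Agent.Lib.MP_6e94a1_ag
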