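import Pool.Agent.Lib.MP_6e94a1_ag.CovDefs

/-!
# The degree of the canonical bundle (definition)
-/

open MvPolynomial

namespace Pool.Agent.Lib.MP_6e94a1_ag

/-- Let `X ⊂ ℙ^{n-1}` be smooth of codimension `k`, defined by the `F i`. This says that the
determinant of the normal bundle of `X` is `O_X(k + m)`, and hence (adjunction formula) that the
canonical bundle of `X` is `O_X(k + m - n)`: there are homogeneous polynomials `η J` of degree `m`
without common zero on `X` such that at each zero `v`, for each choice `e` of `k` of the equations,
the vector of the maximal minors of the differentials of the `F (e a)` at `v` is a multiple of the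
vector `η(v)`; here `J` runs through the sets of `k` of the `n` coordinates. (In other words, the
Gauss map of `X` is given by polynomials of degree `m` without common zero.) -/
def HasGaussDegree {ι : Type} {n : ℕ} (F : ι → MvPolynomial (Fin n) ℂ) (k m : ℕ) : Prop :=
  ∃ η : (Fin k → Fin n) → MvPolynomial (Fin n) ℂ, (∀ J, (η J).IsHomogeneous m) ∧
    ∀ v ∈ cone F, (∃ J, StrictMono J ∧ eval v (η J) ≠ 0) ∧
      ∀ e : Fin k → ι, ∃ r : ℂ, ∀ J, StrictMono J →
        (Matrix.of fun a b => eval v (pderiv (J b) (F (e a)))).det = r * eval v (η J)

end Pool.Agent.Lib.MP_6e94a1_ag
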