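import Pool.Agent.Lib.MP_6e94a1_ag.CovMinor
import Pool.Agent.Lib.MP_6e94a1_ag.CovDefs2

/-!
# The canonical bundle of the double cover
-/

open scoped LinearAlgebra.Projectivization
open MvPolynomial Set

set_option linter.all false

namespace Pool.Agent.Lib.MP_6e94a1_ag

lemma dd_single {m : ℕ} (v : Fin m → ℂ) (j : Fin m) (F : MvPolynomial (Fin m) ℂ) :
    dd v (Pi.single j 1) F = eval v (pderiv j F) := by
  simp [dd, Pi.single_apply]

lemma grad_low (Q : Matrix (Fin 7) (Fin 7) ℂ) (v : Fin 8 → ℂ) (i : Fin 5) (j : Fin 8) :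
    eval v (pderiv j (eqX Q i.castSucc)) = gr v i j := by
  rw [← dd_single, dd_eqX_low]
  fin_cases i <;> fin_cases j <;> simp [pv, low, gr, Pi.single_apply]

/-- there is a non-vanishing maximal minor -/
lemma exists_minor {k n : ℕ} (R : Fin k → Fin n → ℂ) (h : LinearIndependent ℂ R) :
    ∃ J : Fin k → Fin n, StrictMono J ∧ (Matrix.of fun a b => R a (J b)).det ≠ 0 := by
  classical
  let A : Matrix (Fin k) (Fin n) ℂ := Matrix.of R
  have hr : A.rank = k := by
    have := LinearIndependent.rank_matrix (M := A) h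
    simpa using this
  obtain ⟨κ, a, ha, hspan, hli⟩ := exists_linearIndependent' ℂ A.col
  have hfin : Finite κ := Finite.of_injective a ha
  haveI := Fintype.ofFinite κ
  have hcard : Fintype.card κ = k := by
    have h1 := finrank_span_eq_card hli
    rw [hspan, ← Matrix.rank_eq_finrank_span_cols, hr] at h1
    exact h1.symm
  let S : Finset (Fin n) := Finset.univ.image a
  have hS : S.card = k := by
    rw [Finset.card_image_of_injective _ ha, Finset.card_univ, hcard]
  let J : Fin k ↪o Fin n := S.orderEmbOfFin hS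
  refine ⟨J, J.strictMono, ?_⟩
  have hJ : ∀ b, ∃ x, a x = J b := by
    intro b
    have := S.orderEmbOfFin_mem hS b
    obtain ⟨x, _, hx⟩ := Finset.mem_image.1 this
    exact ⟨x, hx⟩
  choose g hg using hJ
  have hginj : Function.Injective g := by
    intro x y hxy
    apply J.injective
    rw [← hg x, ← hg y, hxy]
  have hli2 : LinearIndependent ℂ (fun b => A.col (J b)) := by
    have h1 := hli.comp g hginj
    have h2 : (A.col ∘ a) ∘ g = fun b => A.col (J b) := by
      funext b
      simp only [Function.comp_apply, hg]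
    rwa [h2] at h1
  have hli3 : LinearIndependent ℂ (Matrix.of fun a b => R a (J b)).col := hli2
  rw [Matrix.linearIndependent_cols_iff_isUnit, Matrix.isUnit_iff_isUnit_det] at hli3
  exact hli3.ne_zero

/-- the conormal form of the double cover -/
noncomputable def etaX (Q : Matrix (Fin 7) (Fin 7) ℂ) (J : Fin 4 → Fin 8) :
    MvPolynomial (Fin 8) ℂ :=
  ∑ b : Fin 4, (C ((-1) ^ (3 + (b : ℕ))) * pderiv (J b) (eqX Q 5)) *
    etaP (J (b.succAbove 0)) (J (b.succAbove 1)) (J (b.succAbove 2))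

lemma etaP_hom (i j k : ℕ) : (etaP i j k).IsHomogeneous 2 := by
  unfold etaP
  split <;>
  with_reducible first
  | exact isHomogeneous_zero _ _ _
  | exact qm_hom _ _ _
  | exact (qm_hom _ _ _).add (qm_hom _ _ _)
  | exact ((qm_hom _ _ _).add (qm_hom _ _ _)).add (qm_hom _ _ _)

lemma eqX5_hom (Q : Matrix (Fin 7) (Fin 7) ℂ) : (eqX Q 5).IsHomogeneous 2 := by
  have h : eqX Q 5 = X 7 ^ 2 -
    ∑ i : Fin 7, ∑ j : Fin 7, C (Q i j) * X i.castSucc * X j.castSucc := rfl
  rw [h]
  apply IsHomogeneous.sub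
  · simpa using (isHomogeneous_X ℂ (7 : Fin 8)).pow 2
  · apply IsHomogeneous.sum
    intro i _
    apply IsHomogeneous.sum
    intro j _
    exact qm_hom _ _ _

lemma etaX_hom (Q : Matrix (Fin 7) (Fin 7) ℂ) (J : Fin 4 → Fin 8) :
    (etaX Q J).IsHomogeneous 3 := by
  unfold etaX
  apply IsHomogeneous.sum
  intro b _
  have h1 := (isHomogeneous_C (Fin 8) ((-1 : ℂ) ^ (3 + (b : ℕ)))).mul
    ((eqX5_hom Q).pderiv (i := J b))
  have h2 := h1.mul (etaP_hom (J (b.succAbove 0)) (J (b.succAbove 1)) (J (b.succAbove 2)))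
  simpa using h2

lemma det4 (Q : Matrix (Fin 7) (Fin 7) ℂ) (v : Fin 8 → ℂ) (e : Fin 3 → Fin 5)
    (J : Fin 4 → Fin 8) :
    (Matrix.of fun (a b : Fin 4) => eval v (pderiv (J b)
      (eqX Q ((Fin.snoc (α := fun _ => Fin 6) (fun a => (e a).castSucc) 5 :
        Fin 4 → Fin 6) a)))).det =
    ∑ b : Fin 4, ((-1) ^ (3 + (b : ℕ)) * eval v (pderiv (J b) (eqX Q 5))) *
      D3 v (e 0) (e 1) (e 2) (J (b.succAbove 0)) (J (b.succAbove 1)) (J (b.succAbove 2)) := by
  rw [Matrix.det_succ_row _ (Fin.last 3)]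
  refine Finset.sum_congr rfl fun b _ => ?_
  have h4 : ∀ a : Fin 3, (Fin.snoc (α := fun _ => Fin 6) (fun a => (e a).castSucc) 5 :
      Fin 4 → Fin 6) a.castSucc = (e a).castSucc := fun a => by simp only [Fin.snoc_castSucc]
  have h5 : (Fin.snoc (α := fun _ => Fin 6) (fun a => (e a).castSucc) 5 :
      Fin 4 → Fin 6) (Fin.last 3) = 5 := by simp only [Fin.snoc_last]
  have h6 : (Matrix.of fun (a b : Fin 4) => eval v (pderiv (J b)
      (eqX Q ((Fin.snoc (α := fun _ => Fin 6) (fun a => (e a).castSucc) 5 :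
        Fin 4 → Fin 6) a)))).submatrix (Fin.last 3).succAbove b.succAbove =
      Matrix.of fun (a c : Fin 3) => gr v (e a) (J (b.succAbove c)) := by
    ext a c
    simp only [Matrix.submatrix_apply, Matrix.of_apply, Fin.succAbove_last, h4, grad_low]
  rw [h6, Matrix.det_fin_three]
  simp only [Matrix.of_apply, h5, Fin.val_last, D3]
  ring

lemma minor4 (Q : Matrix (Fin 7) (Fin 7) ℂ) (v : Fin 8 → ℂ) (e : Fin 3 → Fin 5)
    (h : ∃ r : ℂ, ∀ i j k : Fin 8, i < j → j < k →
        D3 v (e 0) (e 1) (e 2) i j k = r * eval v (etaP i j k)) :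
    ∃ r : ℂ, ∀ J : Fin 4 → Fin 8, StrictMono J →
    (Matrix.of fun (a b : Fin 4) => eval v (pderiv (J b)
      (eqX Q ((Fin.snoc (α := fun _ => Fin 6) (fun a => (e a).castSucc) 5 :
        Fin 4 → Fin 6) a)))).det = r * eval v (etaX Q J) := by
  obtain ⟨r, hr⟩ := h
  refine ⟨r, fun J hJ => ?_⟩
  rw [det4, etaX, map_sum, Finset.mul_sum]
  refine Finset.sum_congr rfl fun b _ => ?_
  have hm : StrictMono (fun c : Fin 3 => J (b.succAbove c)) :=
    hJ.comp (Fin.strictMono_succAbove b)
  have h01 : J (b.succAbove 0) < J (b.succAbove 1) := hm (by decide)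
  have h12 : J (b.succAbove 1) < J (b.succAbove 2) := hm (by decide)
  rw [hr _ _ _ h01 h12]
  simp only [map_mul, eval_C]
  ring

/-- Charts of the double cover. -/
theorem chart_of_good {Q : Matrix (Fin 7) (Fin 7) ℂ} (hQ : GoodQ Q) :
    ∀ v ∈ cone (eqX Q), ∃ e : Fin 4 → Fin 6,
        LinearIndependent ℂ (fun (a : Fin 4) (j : Fin 8) => eval v (pderiv j (eqX Q (e a)))) ∧
        (∃ g : MvPolynomial (Fin 8) ℂ, eval v g ≠ 0 ∧
          ∀ i, g * eqX Q i ∈ Ideal.span (range fun a => eqX Q (e a))) ∧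
        ∃ r : ℂ, ∀ J : Fin 4 → Fin 8, StrictMono J →
          (Matrix.of fun a b => eval v (pderiv (J b) (eqX Q (e a)))).det =
            r * eval v (etaX Q J) := by
  intro v hv
  obtain ⟨h0, ⟨c0, c1, c2, c3, c4⟩, h2⟩ := (mem_cone_eqX Q v).1 hv
  have hl := low_ne_zero hv
  have key : ∀ (e : Fin 3 → Fin 5) (k : Fin 7), low v k ≠ 0 →
      (∀ c : Fin 3 → ℂ, (∀ n : Fin 7 → ℂ, ∑ a, c a * pv (low v) n (e a) = 0) → c = 0) →
      (∀ i : Fin 6, (X k.castSucc : MvPolynomial (Fin 8) ℂ) * eqX Q i ∈ Ideal.span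
        (range fun a => eqX Q ((Fin.snoc (α := fun _ => Fin 6) (fun a => (e a).castSucc) 5 :
        Fin 4 → Fin 6) a))) →
      (∃ r : ℂ, ∀ i j k : Fin 8, i < j → j < k →
        D3 v (e 0) (e 1) (e 2) i j k = r * eval v (etaP i j k)) →
      ∃ e : Fin 4 → Fin 6,
        LinearIndependent ℂ (fun (a : Fin 4) (j : Fin 8) => eval v (pderiv j (eqX Q (e a)))) ∧
        (∃ g : MvPolynomial (Fin 8) ℂ, eval v g ≠ 0 ∧
          ∀ i, g * eqX Q i ∈ Ideal.span (range fun a => eqX Q (e a))) ∧
        ∃ r : ℂ, ∀ J : Fin 4 → Fin 8, StrictMono J →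
          (Matrix.of fun a b => eval v (pderiv (J b) (eqX Q (e a)))).det =
            r * eval v (etaX Q J) := by
    intro e k hk h1 h2 h3
    exact ⟨_, linInd_of_dd hQ hv e h1, ⟨X k.castSucc, by rw [eval_X]; exact hk, h2⟩,
      minor4 Q v e h3⟩
  have mm := minors_all v c0 c1 c2 c3 c4
  have span5 : ∀ (e : Fin 3 → Fin 5) (g : MvPolynomial (Fin 8) ℂ), g * eqX Q 5 ∈ Ideal.span
        (range fun a => eqX Q ((Fin.snoc (α := fun _ => Fin 6) (fun a => (e a).castSucc) 5 :
        Fin 4 → Fin 6) a)) := by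
    intro e g
    exact mem_of_mem_span (eqX Q) (Fin.snoc (α := fun _ => Fin 6) (fun a => (e a).castSucc) 5 :
        Fin 4 → Fin 6) 3 g
  have spanl : ∀ (e : Fin 3 → Fin 5) (a : Fin 3) (g : MvPolynomial (Fin 8) ℂ),
      g * eqX Q (e a).castSucc ∈ Ideal.span
        (range fun a => eqX Q ((Fin.snoc (α := fun _ => Fin 6) (fun a => (e a).castSucc) 5 :
        Fin 4 → Fin 6) a)) := by
    intro e a g
    have := mem_of_mem_span (eqX Q) (Fin.snoc (α := fun _ => Fin 6) (fun a => (e a).castSucc) 5 :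
        Fin 4 → Fin 6) a.castSucc g
    have h4 : (Fin.snoc (α := fun _ => Fin 6) (fun a => (e a).castSucc) 5 :
        Fin 4 → Fin 6) a.castSucc = (e a).castSucc := by simp only [Fin.snoc_castSucc]
    rwa [h4] at this
  by_cases a0 : low v 0 = 0
  · by_cases a6 : low v 6 = 0
    · by_cases a1 : low v 1 = 0
      · have k2 : low v 2 = 0 := by
          rw [a0, a1] at c0
          have : low v 2 ^ 2 = 0 := by linear_combination (1 / 3 : ℂ) * c0
          exact pow_eq_zero_iff (two_ne_zero) |>.1 this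
        have k3 : low v 3 = 0 := by
          rw [a0, k2] at c2
          have : low v 3 ^ 2 = 0 := by linear_combination (1 / 8 : ℂ) * c2
          exact pow_eq_zero_iff (two_ne_zero) |>.1 this
        have k4 : low v 4 = 0 := by
          rw [a6, k3] at c4
          have : low v 4 ^ 2 = 0 := by linear_combination (1 / 3 : ℂ) * c4
          exact pow_eq_zero_iff (two_ne_zero) |>.1 this
        have a5 : low v 5 ≠ 0 := by
          intro a5
          apply hl
          ext i
          fin_cases i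
          · exact a0
          · exact a1
          · exact k2
          · exact k3
          · exact k4
          · exact a5
          · exact a6
        apply key ![4, 3, 1] 5 a5
        · intro c hc
          have t3 := hc (Pi.single 3 1)
          have t2 := hc (Pi.single 2 1)
          have t0 := hc (Pi.single 0 1)
          simp [Fin.sum_univ_three, pv, a5, a6, a0, a1, k2, k3, k4] at t3 t2 t0
          ext i
          fin_cases i
          · exact t3
          · exact t2
          · exact t0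
        · have e2 : (X 5 : MvPolynomial (Fin 8) ℂ) * eqX Q 2 =
              X 6 * eqX Q 1 + (3 * X 4) * eqX Q 3 + (-2 * X 3) * eqX Q 4 := by
            simp [eqX]
            ring
          have e0 : (X 5 : MvPolynomial (Fin 8) ℂ) * eqX Q 0 =
              X 4 * eqX Q 1 + (-X 2) * eqX Q 3 + X 1 * eqX Q 4 := by
            simp [eqX]
            ring
          intro i
          fin_cases i
          · show (X 5 : MvPolynomial (Fin 8) ℂ) * eqX Q 0 ∈ _
            rw [e0]
            exact Ideal.add_mem _ (Ideal.add_mem _ (spanl ![4, 3, 1] 2 _) (spanl ![4, 3, 1] 1 _))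
              (spanl ![4, 3, 1] 0 _)
          · exact spanl ![4, 3, 1] 2 _
          · show (X 5 : MvPolynomial (Fin 8) ℂ) * eqX Q 2 ∈ _
            rw [e2]
            exact Ideal.add_mem _ (Ideal.add_mem _ (spanl ![4, 3, 1] 2 _) (spanl ![4, 3, 1] 1 _))
              (spanl ![4, 3, 1] 0 _)
          · exact spanl ![4, 3, 1] 1 _
          · exact spanl ![4, 3, 1] 0 _
          · exact span5 _ _
        · exact ⟨-v 5, fun i j k hij hjk => (mm i j k hij hjk).2.2.2⟩
      · apply key ![0, 1, 3] 1 a1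
        · intro c hc
          have t3 := hc (Pi.single 3 1)
          have t4 := hc (Pi.single 4 1)
          have t6 := hc (Pi.single 6 1)
          simp [Fin.sum_univ_three, pv, a6, a0, a1] at t3 t4 t6
          rw [t6] at t3 t4
          have e1 : c 1 = 0 := by
            simpa [a1] using t4
          rw [e1] at t3
          ext i
          fin_cases i
          · simpa [a1] using t3
          · exact e1
          · exact t6
        · have e2 : (X 1 : MvPolynomial (Fin 8) ℂ) * eqX Q 2 =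
              X 0 * eqX Q 3 + (3 * X 2) * eqX Q 1 + (-2 * X 3) * eqX Q 0 := by
            simp [eqX]
            ring
          have e4 : (X 1 : MvPolynomial (Fin 8) ℂ) * eqX Q 4 =
              X 2 * eqX Q 3 + (-X 4) * eqX Q 1 + X 5 * eqX Q 0 := by
            simp [eqX]
            ring
          intro i
          fin_cases i
          · exact spanl ![0, 1, 3] 0 _
          · exact spanl ![0, 1, 3] 1 _
          · show (X 1 : MvPolynomial (Fin 8) ℂ) * eqX Q 2 ∈ _
            rw [e2]
            exact Ideal.add_mem _ (Ideal.add_mem _ (spanl ![0, 1, 3] 2 _) (spanl ![0, 1, 3] 1 _))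
              (spanl ![0, 1, 3] 0 _)
          · exact spanl ![0, 1, 3] 2 _
          · show (X 1 : MvPolynomial (Fin 8) ℂ) * eqX Q 4 ∈ _
            rw [e4]
            exact Ideal.add_mem _ (Ideal.add_mem _ (spanl ![0, 1, 3] 2 _) (spanl ![0, 1, 3] 1 _))
              (spanl ![0, 1, 3] 0 _)
          · exact span5 _ _
        · exact ⟨v 1, fun i j k hij hjk => (mm i j k hij hjk).2.2.1⟩
    · apply key ![4, 3, 2] 6 a6
      · intro c hc
        have t2 := hc (Pi.single 2 1)
        have t1 := hc (Pi.single 1 1)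
        have t0 := hc (Pi.single 0 1)
        simp [Fin.sum_univ_three, pv, a6] at t0 t1 t2
        rw [t0, t1] at t2
        ext i
        fin_cases i
        · simpa [a6] using t2
        · exact t1
        · exact t0
      · have e1 : (X 6 : MvPolynomial (Fin 8) ℂ) * eqX Q 1 =
            X 5 * eqX Q 2 + (-3 * X 4) * eqX Q 3 + (2 * X 3) * eqX Q 4 := by
          simp [eqX]
          ring
        have e0 : (X 6 : MvPolynomial (Fin 8) ℂ) * eqX Q 0 =
            X 4 * eqX Q 2 + (-4 * X 3) * eqX Q 3 + (3 * X 2) * eqX Q 4 := by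
          simp [eqX]
          ring
        intro i
        fin_cases i
        · show (X 6 : MvPolynomial (Fin 8) ℂ) * eqX Q 0 ∈ _
          rw [e0]
          exact Ideal.add_mem _ (Ideal.add_mem _ (spanl ![4, 3, 2] 2 _) (spanl ![4, 3, 2] 1 _))
            (spanl ![4, 3, 2] 0 _)
        · show (X 6 : MvPolynomial (Fin 8) ℂ) * eqX Q 1 ∈ _
          rw [e1]
          exact Ideal.add_mem _ (Ideal.add_mem _ (spanl ![4, 3, 2] 2 _) (spanl ![4, 3, 2] 1 _))
            (spanl ![4, 3, 2] 0 _)
        · exact spanl ![4, 3, 2] 2 _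
        · exact spanl ![4, 3, 2] 1 _
        · exact spanl ![4, 3, 2] 0 _
        · exact span5 _ _
      · exact ⟨-v 6, fun i j k hij hjk => (mm i j k hij hjk).2.1⟩
  · apply key ![0, 1, 2] 0 a0
    · intro c hc
      have t6 := hc (Pi.single 6 1)
      have t5 := hc (Pi.single 5 1)
      have t4 := hc (Pi.single 4 1)
      simp [Fin.sum_univ_three, pv, a0] at t4 t5 t6
      rw [t5, t6] at t4
      ext i
      fin_cases i
      · simpa [a0] using t4
      · exact t5
      · exact t6
    · have e3 : (X 0 : MvPolynomial (Fin 8) ℂ) * eqX Q 3 =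
          X 1 * eqX Q 2 + (-3 * X 2) * eqX Q 1 + (2 * X 3) * eqX Q 0 := by
        simp [eqX]
        ring
      have e4 : (X 0 : MvPolynomial (Fin 8) ℂ) * eqX Q 4 =
          X 2 * eqX Q 2 + (-4 * X 3) * eqX Q 1 + (3 * X 4) * eqX Q 0 := by
        simp [eqX]
        ring
      intro i
      fin_cases i
      · exact spanl ![0, 1, 2] 0 _
      · exact spanl ![0, 1, 2] 1 _
      · exact spanl ![0, 1, 2] 2 _
      · show (X 0 : MvPolynomial (Fin 8) ℂ) * eqX Q 3 ∈ _
        rw [e3]
        exact Ideal.add_mem _ (Ideal.add_mem _ (spanl ![0, 1, 2] 2 _) (spanl ![0, 1, 2] 1 _))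
          (spanl ![0, 1, 2] 0 _)
      · show (X 0 : MvPolynomial (Fin 8) ℂ) * eqX Q 4 ∈ _
        rw [e4]
        exact Ideal.add_mem _ (Ideal.add_mem _ (spanl ![0, 1, 2] 2 _) (spanl ![0, 1, 2] 1 _))
          (spanl ![0, 1, 2] 0 _)
      · exact span5 _ _
    · exact ⟨v 0, fun i j k hij hjk => (mm i j k hij hjk).1⟩

/-- differentials of elements of the ideal -/
lemma diff_span {m : ℕ} {ι κ : Type} [Fintype κ] (F : ι → MvPolynomial (Fin m) ℂ) (e : κ → ι)
    {v : Fin m → ℂ} (hv : ∀ i, eval v (F i) = 0) {g : MvPolynomial (Fin m) ℂ}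
    (hg : eval v g ≠ 0) (i : ι) (h : g * F i ∈ Ideal.span (range fun a => F (e a))) :
    ∃ c : κ → ℂ, ∀ j, eval v (pderiv j (F i)) = ∑ a, c a * eval v (pderiv j (F (e a))) := by
  obtain ⟨c, hc⟩ := Ideal.mem_span_range_iff_exists_fun.1 h
  refine ⟨fun a => (eval v g)⁻¹ * eval v (c a), fun j => ?_⟩
  have h1 := congrArg (fun f => eval v (pderiv j f)) hc
  simp only [map_sum, Derivation.leibniz, smul_eq_mul, map_add, map_mul, hv, zero_mul,
    add_zero] at h1
  have h2 : eval v (pderiv j (F i)) = (eval v g)⁻¹ * (eval v g * eval v (pderiv j (F i))) := by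
    rw [← mul_assoc, inv_mul_cancel₀ hg, one_mul]
  rw [h2, ← h1, Finset.mul_sum]
  exact Finset.sum_congr rfl fun a _ => by ring

/-- The canonical bundle of the double cover is `O(-1)`. -/
theorem canon_of_good {Q : Matrix (Fin 7) (Fin 7) ℂ} (hQ : GoodQ Q) :
    HasGaussDegree (eqX Q) 4 3 := by
  refine ⟨etaX Q, etaX_hom Q, fun v hv => ?_⟩
  obtain ⟨e₀, hli, ⟨g, hg, hspan⟩, r₀, hr₀⟩ := chart_of_good hQ v hv
  obtain ⟨J₀, hJ₀, hdet⟩ := exists_minor _ hli
  refine ⟨⟨J₀, hJ₀, ?_⟩, fun e => ?_⟩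
  · intro h0
    apply hdet
    rw [hr₀ J₀ hJ₀, h0, mul_zero]
  · have h1 : ∀ a : Fin 4, ∃ c : Fin 4 → ℂ, ∀ j, eval v (pderiv j (eqX Q (e a))) =
        ∑ b, c b * eval v (pderiv j (eqX Q (e₀ b))) :=
      fun a => diff_span (eqX Q) e₀ hv.2 hg (e a) (hspan (e a))
    choose c hc using h1
    refine ⟨(Matrix.of c).det * r₀, fun J hJ => ?_⟩
    have h2 : (Matrix.of fun a b => eval v (pderiv (J b) (eqX Q (e a)))) =
        Matrix.of c * (Matrix.of fun a b => eval v (pderiv (J b) (eqX Q (e₀ a)))) := by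
      ext a b
      simp only [Matrix.of_apply, Matrix.mul_apply, hc]
    rw [h2, Matrix.det_mul, hr₀ J hJ, mul_assoc]

end Pool.Agent.Lib.MP_6e94a1_ag
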