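import Pool.Agent.Lib.MP_6e94a1_ag.CovM

/-!
# The family of conics is an irreducible component
-/

open scoped LinearAlgebra.Projectivization Topology
open MvPolynomial Set

set_option linter.all false

namespace Pool.Agent.Lib.MP_6e94a1_ag

/-! ### bilinearity -/

lemma pv_add_left (a b c : Fin 7 → ℂ) : pv (a + b) c = pv a c + pv b c := by
  ext i
  fin_cases i <;> simp [pv] <;> ring

lemma pv_smul_left (x : ℂ) (a c : Fin 7 → ℂ) : pv (x • a) c = x • pv a c := by
  ext i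
  fin_cases i <;> simp [pv] <;> ring

lemma pv_comm (a b : Fin 7 → ℂ) : pv a b = pv b a := by
  ext i
  fin_cases i <;> simp [pv] <;> ring

lemma pv_add_right (a b c : Fin 7 → ℂ) : pv c (a + b) = pv c a + pv c b := by
  rw [pv_comm, pv_add_left, pv_comm a, pv_comm b]

lemma pv_smul_right (x : ℂ) (a c : Fin 7 → ℂ) : pv c (x • a) = x • pv c a := by
  rw [pv_comm, pv_smul_left, pv_comm a]

lemma pv_self (a : Fin 7 → ℂ) : pv a a = (2 : ℂ) • qv a := by
  ext i
  fin_cases i <;> simp [pv, qv] <;> ring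

/-- lower part of a column -/
def hc (c : Fin 8 × Fin 3 → ℂ) (j : Fin 3) : Fin 7 → ℂ := fun i => c (i.castSucc, j)

lemma low_conicPt (c : Fin 8 × Fin 3 → ℂ) (s t : ℂ) :
    low (conicPt c s t) = s ^ 2 • hc c 0 + (s * t) • hc c 1 + t ^ 2 • hc c 2 := by
  ext i
  simp only [low, conicPt, hc, Pi.add_apply, Pi.smul_apply, smul_eq_mul]
  ring

lemma eq_mkc {c : Fin 8 × Fin 3 → ℂ} {g : M2} {X Y : Fin 3 → ℂ}
    (h : ∀ j, hc c j = rho g (EE (X j) (Y j))) : c = mkc g X Y (fun j => c (7, j)) := by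
  ext ⟨i, j⟩
  have h1 := h j
  refine Fin.lastCases ?_ (fun i' => ?_) i
  · have : (Fin.last 7 : Fin 8) = 7 := rfl
    simp only [mkc, this, up_seven]
  · simp only [mkc, up, Fin.snoc_castSucc]
    exact congrFun h1 i'

/-- the equations satisfied by the columns of a conic on the threefold -/
lemma conic_eqs {Q : Matrix (Fin 7) (Fin 7) ℂ} {c : Fin 8 × Fin 3 → ℂ}
    (hc' : c ∈ conics (zeros (eqX Q))) : qv (hc c 0) = 0 ∧ pv (hc c 0) (hc c 1) = 0 ∧
      pv (hc c 0) (hc c 2) + qv (hc c 1) = 0 ∧ pv (hc c 1) (hc c 2) = 0 ∧ qv (hc c 2) = 0 := by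
  have h := (mem_conics.1 hc').2
  have key : ∀ k : Fin 5, (qv (hc c 0)) k = 0 ∧ (pv (hc c 0) (hc c 1)) k = 0 ∧
      (pv (hc c 0) (hc c 2) + qv (hc c 1)) k = 0 ∧ (pv (hc c 1) (hc c 2)) k = 0 ∧
      (qv (hc c 2)) k = 0 := by
    intro k
    apply coef4
    intro s t
    have h1 := (cone_iff _).1 (h s t).1
    rw [low_conicPt, qv_add, pv_add_left, qv_comb, pv_smul_left, pv_smul_right, pv_smul_left,
      pv_smul_right] at h1
    have h2 := congrFun h1 k
    have h3 : qv (t ^ 2 • hc c 2) = (t ^ 2) ^ 2 • qv (hc c 2) := by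
      have := qv_comb (t ^ 2) 0 (hc c 2) (hc c 2)
      simpa using this
    rw [h3] at h2
    simp only [Pi.add_apply, Pi.smul_apply, smul_eq_mul, Pi.zero_apply] at h2 ⊢
    linear_combination h2
  refine ⟨?_, ?_, ?_, ?_, ?_⟩ <;> ext k
  · exact (key k).1
  · exact (key k).2.1
  · exact (key k).2.2.1
  · exact (key k).2.2.2.1
  · exact (key k).2.2.2.2

/-- coefficient matrix -/
def D5 (y z : Fin 7 → ℂ) : Matrix (Fin 5) (Fin 5) ℂ :=
  !![y 4, 6 * y 2, -4 * y 1, y 0, 0;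
    y 5, 2 * y 3, 2 * y 2, -3 * y 1, 0;
    0, -3 * y 5, 2 * y 4, 2 * y 3, y 1;
    z 5, 2 * z 3, 2 * z 2, -3 * z 1, 0;
    0, -3 * z 5, 2 * z 4, 2 * z 3, z 1]

lemma eq_zero_of_D5 {y z n : Fin 7 → ℂ} (h : (D5 y z).det ≠ 0) (h1 : n 1 = 0) (h5 : n 5 = 0)
    (hy : pv y n = 0) (hz : pv z n = 0) : n = 0 := by
  have hm : (D5 y z).mulVec ![n 0, n 2, n 3, n 4, n 6] = 0 := by
    have y0 := congrFun hy 0
    have y1 := congrFun hy 1
    have y3 := congrFun hy 3
    have z1 := congrFun hz 1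
    have z3 := congrFun hz 3
    simp only [pv, Matrix.cons_val, Pi.zero_apply, h1, h5] at y0 y1 y3 z1 z3
    ext i
    fin_cases i <;> simp [D5, Matrix.mulVec, dotProduct, Fin.sum_univ_five]
    · linear_combination y0
    · linear_combination y1
    · linear_combination y3
    · linear_combination z1
    · linear_combination z3
  have h0 := Matrix.eq_zero_of_mulVec_eq_zero h hm
  have a0 := congrFun h0 0
  have a1 := congrFun h0 1
  have a2 := congrFun h0 2
  have a3 := congrFun h0 3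
  have a4 := congrFun h0 4
  simp only [Matrix.cons_val, Pi.zero_apply] at a0 a1 a2 a3 a4
  ext i
  fin_cases i
  · exact a0
  · exact h1
  · exact a1
  · exact a2
  · exact a3
  · exact h5
  · exact a4

/-! ### the open condition -/

def oΔ (c : Fin 8 × Fin 3 → ℂ) : ℂ := hc c 0 1 * hc c 2 5 - hc c 0 5 * hc c 2 1

def oa (c : Fin 8 × Fin 3 → ℂ) : ℂ := hc c 1 1 * hc c 2 5 - hc c 1 5 * hc c 2 1

def ob (c : Fin 8 × Fin 3 → ℂ) : ℂ := hc c 0 1 * hc c 1 5 - hc c 0 5 * hc c 1 1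

def oE (c : Fin 8 × Fin 3 → ℂ) : ℂ := oa c * ob c - oΔ c ^ 2

def on (c : Fin 8 × Fin 3 → ℂ) : Fin 7 → ℂ :=
  fun i => oΔ c * hc c 1 i - oa c * hc c 0 i - ob c * hc c 2 i

def oy (c : Fin 8 × Fin 3 → ℂ) : Fin 7 → ℂ := fun i => 2 * oE c * hc c 0 i + ob c * on c i

def oz (c : Fin 8 × Fin 3 → ℂ) : Fin 7 → ℂ := fun i => 2 * oE c * hc c 2 i + oa c * on c i

def oo (c : Fin 8 × Fin 3 → ℂ) : ℂ :=
  oΔ c * oE c * (D5 (oy c) (oz c)).det * inv6 (hc c 0)

lemma oo_poly : IsPoly oo := by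
  have hh : ∀ j i, IsPoly (fun c : Fin 8 × Fin 3 → ℂ => hc c j i) := fun j i => IsPoly.coord _
  have hΔ : IsPoly oΔ := ((hh 0 1).mul (hh 2 5)).sub ((hh 0 5).mul (hh 2 1))
  have ha : IsPoly oa := ((hh 1 1).mul (hh 2 5)).sub ((hh 1 5).mul (hh 2 1))
  have hb : IsPoly ob := ((hh 0 1).mul (hh 1 5)).sub ((hh 0 5).mul (hh 1 1))
  have hE : IsPoly oE := (ha.mul hb).sub (hΔ.pow 2)
  have hn : ∀ i, IsPoly (fun c => on c i) := fun i =>
    ((hΔ.mul (hh 1 i)).sub (ha.mul (hh 0 i))).sub (hb.mul (hh 2 i))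
  have hy : ∀ i, IsPoly (fun c => oy c i) := fun i =>
    (((IsPoly.const 2).mul hE).mul (hh 0 i)).add (hb.mul (hn i))
  have hz : ∀ i, IsPoly (fun c => oz c i) := fun i =>
    (((IsPoly.const 2).mul hE).mul (hh 2 i)).add (ha.mul (hn i))
  have hD : IsPoly (fun c => (D5 (oy c) (oz c)).det) := by
    apply IsPoly.det
    intro i j
    fin_cases i <;> fin_cases j <;>
      first
      | exact hy _
      | exact hz _
      | exact (IsPoly.const _).mul (hy _)
      | exact (IsPoly.const _).mul (hz _)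
      | exact IsPoly.const _
  have hI : IsPoly (fun c : Fin 8 × Fin 3 → ℂ => inv6 (hc c 0)) :=
    ((((hh 0 0).mul (hh 0 6)).sub (((IsPoly.const 6).mul (hh 0 1)).mul (hh 0 5))).add
      (((IsPoly.const 15).mul (hh 0 2)).mul (hh 0 4))).sub ((IsPoly.const 10).mul ((hh 0 3).pow 2))
  exact ((hΔ.mul hE).mul hD).mul hI

/-- On the open set given by `oo` all conics lie over lines in the orbit. -/
theorem mem_Zgen_of_oo {Q : Matrix (Fin 7) (Fin 7) ℂ} {c : Fin 8 × Fin 3 → ℂ}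
    (h : c ∈ conics (zeros (eqX Q))) (ho : oo c ≠ 0) : c ∈ Zgen Q := by
  obtain ⟨q0, p01, p02, p12, q2⟩ := conic_eqs h
  have hI : inv6 (hc c 0) ≠ 0 := right_ne_zero_of_mul ho
  have hD : (D5 (oy c) (oz c)).det ≠ 0 := right_ne_zero_of_mul (left_ne_zero_of_mul ho)
  have hE : oE c ≠ 0 := right_ne_zero_of_mul (left_ne_zero_of_mul (left_ne_zero_of_mul ho))
  have hΔ : oΔ c ≠ 0 := left_ne_zero_of_mul (left_ne_zero_of_mul (left_ne_zero_of_mul ho))
  have en : on c = oΔ c • hc c 1 + ((-oa c) • hc c 0 + (-ob c) • hc c 2) := by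
    ext i
    simp only [on, Pi.add_apply, Pi.smul_apply, smul_eq_mul]
    ring
  have ey : oy c = (2 * oE c) • hc c 0 + ob c • on c := by
    ext i
    simp only [oy, Pi.add_apply, Pi.smul_apply, smul_eq_mul]
  have ez : oz c = (2 * oE c) • hc c 2 + oa c • on c := by
    ext i
    simp only [oz, Pi.add_apply, Pi.smul_apply, smul_eq_mul]
  set p := pv (hc c 0) (hc c 2) with hp
  have q1 : qv (hc c 1) = -p := by
    rw [eq_neg_iff_add_eq_zero, add_comm]
    exact p02
  have hqn : qv (on c) = oE c • p := by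
    rw [en, qv_add, pv_smul_left, pv_add_right, pv_smul_right, pv_smul_right, pv_comm (hc c 1)
      (hc c 0), p01, p12, qv_comb, q0, q2, ← hp]
    have h3 : qv (oΔ c • hc c 1) = (oΔ c) ^ 2 • qv (hc c 1) := by
      have := qv_comb (oΔ c) 0 (hc c 1) (hc c 1)
      simpa using this
    rw [h3, q1]
    ext k
    simp only [Pi.add_apply, Pi.smul_apply, smul_eq_mul, Pi.zero_apply, Pi.neg_apply, oE]
    ring
  have h0n : pv (hc c 0) (on c) = (-ob c) • p := by
    rw [en, pv_add_right, pv_smul_right, p01, pv_add_right, pv_smul_right, pv_smul_right, pv_self,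
      q0, ← hp]
    simp
  have h2n : pv (hc c 2) (on c) = (-oa c) • p := by
    rw [en, pv_add_right, pv_smul_right, pv_comm (hc c 2) (hc c 1), p12, pv_add_right,
      pv_smul_right, pv_smul_right, pv_self, q2, pv_comm (hc c 2) (hc c 0), ← hp]
    simp
  have hyn : pv (oy c) (on c) = 0 := by
    rw [ey, pv_add_left, pv_smul_left, pv_smul_left, h0n, pv_self, hqn]
    ext k
    simp only [Pi.add_apply, Pi.smul_apply, smul_eq_mul, Pi.zero_apply]
    ring
  have hzn : pv (oz c) (on c) = 0 := by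
    rw [ez, pv_add_left, pv_smul_left, pv_smul_left, h2n, pv_self, hqn]
    ext k
    simp only [Pi.add_apply, Pi.smul_apply, smul_eq_mul, Pi.zero_apply]
    ring
  have hn0 : on c = 0 := by
    apply eq_zero_of_D5 hD _ _ hyn hzn
    · simp only [on, oΔ, oa, ob]
      ring
    · simp only [on, oΔ, oa, ob]
      ring
  have hp0 : p = 0 := by
    rw [hn0] at hqn
    have : qv (0 : Fin 7 → ℂ) = 0 := by
      ext i
      fin_cases i <;> simp [qv]
    rw [this] at hqn
    rcases smul_eq_zero.1 hqn.symm with h | h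
    · exact absurd h hE
    · exact h
  -- the line
  have hcone : ∀ w ∈ Submodule.span ℂ {hc c 0, hc c 2}, Cone w := by
    intro w hw
    obtain ⟨x, y, rfl⟩ := Submodule.mem_span_pair.1 hw
    rw [cone_iff, qv_comb, q0, q2, ← hp, hp0]
    simp
  have hm0 : hc c 0 ∈ Submodule.span ℂ {hc c 0, hc c 2} := Submodule.subset_span (by simp)
  have hm2 : hc c 2 ∈ Submodule.span ℂ {hc c 0, hc c 2} := Submodule.subset_span (by simp)
  obtain ⟨g, hg, hall⟩ := line_through _ hcone hm0 hI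
  have hm1 : hc c 1 ∈ Submodule.span ℂ {hc c 0, hc c 2} := by
    have e : hc c 1 = (oΔ c)⁻¹ • (oa c • hc c 0 + ob c • hc c 2) := by
      rw [hn0] at en
      have e2 : oΔ c • hc c 1 = oa c • hc c 0 + ob c • hc c 2 := by
        rw [← sub_eq_zero, en]
        simp only [neg_smul]
        abel
      rw [← e2, smul_smul, inv_mul_cancel₀ hΔ, one_smul]
    rw [e]
    exact Submodule.smul_mem _ _ (Submodule.add_mem _ (Submodule.smul_mem _ _ hm0)
      (Submodule.smul_mem _ _ hm2))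
  have hj : ∀ j, ∃ x y, hc c j = rho g (EE x y) := by
    intro j
    fin_cases j
    · exact hall _ hm0
    · exact hall _ hm1
    · exact hall _ hm2
  choose X Y hXY using hj
  exact ⟨h, g, hg, X, Y, _, eq_mkc hXY⟩

/-- existence of a conic satisfying the open condition -/
theorem exists_oo {Q : Matrix (Fin 7) (Fin 7) ℂ} (hA : qA Q 1 ≠ 0) (hC : qC Q 1 ≠ 0)
    (hD : qD Q 1 ≠ 0) : ∃ c ∈ Zgen Q, oo c ≠ 0 := by
  obtain ⟨δ, hδ⟩ := IsAlgClosed.exists_pow_nat_eq (qD Q 1) (n := 2) (by norm_num)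
  have hδ0 : δ ≠ 0 := by
    rintro rfl
    apply hD
    rw [← hδ]
    ring
  obtain ⟨ω, hω⟩ := IsAlgClosed.exists_pow_nat_eq (-qD Q 1 / qA Q 1) (n := 2) (by norm_num)
  have hω0 : ω ≠ 0 := by
    rintro rfl
    have : -qD Q 1 / qA Q 1 = 0 := by rw [← hω]; ring
    rcases div_eq_zero_iff.1 this with h | h
    · exact hD (neg_eq_zero.1 h)
    · exact hA h
  obtain ⟨x1, hx1⟩ : ∃ x1, x1 = (-qB Q 1 + δ) / (2 * qA Q 1) := ⟨_, rfl⟩
  obtain ⟨x2, hx2⟩ : ∃ x2, x2 = (-qB Q 1 - δ) / (2 * qA Q 1) := ⟨_, rfl⟩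
  have r1 : qA Q 1 * x1 ^ 2 + qB Q 1 * x1 + qC Q 1 = 0 := by
    rw [hx1]
    field_simp
    rw [qD] at hδ
    linear_combination hδ
  have r2 : qA Q 1 * x2 ^ 2 + qB Q 1 * x2 + qC Q 1 = 0 := by
    rw [hx2]
    field_simp
    rw [qD] at hδ
    linear_combination hδ
  have rw' : 2 * qA Q 1 * x1 * x2 + qB Q 1 * (x1 + x2) + 2 * qC Q 1 = ω ^ 2 := by
    rw [hx1, hx2, hω, qD]
    field_simp
    rw [qD] at hδ
    linear_combination -hδ
  have hx12 : x1 - x2 ≠ 0 := by
    rw [hx1, hx2]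
    intro h
    apply hδ0
    field_simp at h
    linear_combination (1 / 2 : ℂ) * h
  have hx10 : x1 ≠ 0 := by
    rintro rfl
    apply hC
    linear_combination r1
  have hg1 : (1 : M2).det ≠ 0 := by simp
  let c : Fin 8 × Fin 3 → ℂ := mkc 1 ![x1, 0, x2] ![1, 0, 1] ![0, ω, 0]
  have hcm : c ∈ conics (zeros (eqX Q)) := by
    rw [mkc_mem hg1]
    constructor
    · simp only [det3, Matrix.cons_val]
      intro h
      have : (x1 - x2) * ω = 0 := by linear_combination -h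
      rcases mul_eq_zero.1 this with h | h
      · exact hx12 h
      · exact hω0 h
    · intro s t
      simp only [qf, Matrix.cons_val]
      linear_combination (-s ^ 4) * r1 + (-t ^ 4) * r2 + (-s ^ 2 * t ^ 2) * rw'
  refine ⟨c, ⟨hcm, 1, hg1, _, _, _, rfl⟩, ?_⟩
  have h0 : hc c 0 = EE x1 1 := by
    have : hc c 0 = low (up (rho 1 (EE x1 1)) 0) := rfl
    rw [this, low_up, rho_one]
  have h1 : hc c 1 = EE 0 0 := by
    have : hc c 1 = low (up (rho 1 (EE 0 0)) ω) := rfl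
    rw [this, low_up, rho_one]
  have h2 : hc c 2 = EE x2 1 := by
    have : hc c 2 = low (up (rho 1 (EE x2 1)) 0) := rfl
    rw [this, low_up, rho_one]
  have hΔ : oΔ c = x1 - x2 := by
    simp only [oΔ, h0, h2]
    simp [EE]
  have ha : oa c = 0 := by
    simp only [oa, h1, h2]
    simp [EE]
  have hb : ob c = 0 := by
    simp only [ob, h0, h1]
    simp [EE]
  have hE : oE c = -(x1 - x2) ^ 2 := by
    rw [oE, ha, hb, hΔ]
    ring
  have hE0 : oE c ≠ 0 := by
    rw [hE]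
    exact neg_ne_zero.2 (pow_ne_zero 2 hx12)
  have hy : oy c = fun i => 2 * oE c * EE x1 1 i := by
    ext i
    simp only [oy, hb, h0]
    ring
  have hz : oz c = fun i => 2 * oE c * EE x2 1 i := by
    ext i
    simp only [oz, ha, h2]
    ring
  have hD5 : (D5 (oy c) (oz c)).det ≠ 0 := by
    intro hdet
    obtain ⟨v, hv0, hv⟩ := Matrix.exists_mulVec_eq_zero_iff.2 hdet
    apply hv0
    have b0 := congrFun hv 0
    have b1 := congrFun hv 1
    have b2 := congrFun hv 2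
    have b3 := congrFun hv 3
    have b4 := congrFun hv 4
    rw [hy, hz] at b0 b1 b2 b3 b4
    simp [D5, Matrix.mulVec, dotProduct, Fin.sum_univ_five, EE, hE0, hx10] at b0 b1 b2 b3 b4
    have v3 : v 3 = 0 := by
      have : (x1 - x2) * (oE c * v 3) = 0 := by
        linear_combination (1 / 6 : ℂ) * b3 - (1 / 6 : ℂ) * b1
      rcases mul_eq_zero.1 this with h | h
      · exact absurd h hx12
      · exact (mul_eq_zero.1 h).resolve_left hE0
    have v0 : v 0 = 0 := by
      rw [v3] at b1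
      have : oE c * v 0 = 0 := by linear_combination (1 / 2 : ℂ) * b1
      exact (mul_eq_zero.1 this).resolve_left hE0
    have v4 : v 4 = 0 := by
      have : (x1 - x2) * (oE c * v 4) = 0 := by
        linear_combination (1 / 2 : ℂ) * b2 - (1 / 2 : ℂ) * b4
      rcases mul_eq_zero.1 this with h | h
      · exact absurd h hx12
      · exact (mul_eq_zero.1 h).resolve_left hE0
    have v1 : v 1 = 0 := by
      rw [v4] at b2
      have : oE c * v 1 = 0 := by linear_combination (-1 / 6 : ℂ) * b2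
      exact (mul_eq_zero.1 this).resolve_left hE0
    ext i
    fin_cases i
    · exact v0
    · exact v1
    · exact b0
    · exact v3
    · exact v4
  rw [oo]
  apply mul_ne_zero (mul_ne_zero (mul_ne_zero _ hE0) hD5)
  · rw [h0, inv6_EE]
    simpa using hx10
  · rw [hΔ]
    exact hx12

/-- the irreducible component -/
def MM (Q : Matrix (Fin 7) (Fin 7) ℂ) : Set (Fin 8 × Fin 3 → ℂ) :=
  {c | c ∈ conics (zeros (eqX Q)) ∧
    ∀ f : MvPolynomial (Fin 8 × Fin 3) ℂ, (∀ z ∈ Zgen Q, eval z f = 0) → eval c f = 0}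

lemma Zgen_sub_MM (Q : Matrix (Fin 7) (Fin 7) ℂ) : Zgen Q ⊆ MM Q :=
  fun c hc => ⟨hc.1, fun f hf => hf c hc⟩

theorem MM_component {Q : Matrix (Fin 7) (Fin 7) ℂ}
    (hQ : bil Q e0 e1 ^ 2 ≠ 4 * quad Q e0 * quad Q e1) (hA : qA Q 1 ≠ 0) (hC : qC Q 1 ≠ 0)
    (hD : qD Q 1 ≠ 0) : IsComponent (conics (zeros (eqX Q))) (MM Q) := by
  have hirr := irr_iff.1 (Zgen_irr hQ hD)
  obtain ⟨c0, hc0, ho0⟩ := exists_oo hA hC hD
  obtain ⟨o, ho⟩ := oo_poly
  constructor
  · refine ⟨fun c hc => hc.1, ?_⟩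
    rw [irr_iff]
    refine ⟨hirr.1.mono (Zgen_sub_MM Q), ?_⟩
    intro f g hfg
    rcases hirr.2 f g (fun v hv => hfg v (Zgen_sub_MM Q hv)) with h | h
    · left
      exact fun v hv => hv.2 f h
    · right
      exact fun v hv => hv.2 g h
  · rintro T ⟨hT1, hT2⟩ hMT c hcT
    refine ⟨hT1 hcT, fun f hf => ?_⟩
    have := (irr_iff.1 hT2).2 f o (by
      intro v hv
      by_cases h : oo v = 0
      · rw [ho, h, mul_zero]
      · rw [hf v (mem_Zgen_of_oo (hT1 hv) h), zero_mul])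
    rcases this with h | h
    · exact h c hcT
    · exfalso
      apply ho0
      rw [← ho]
      exact h c0 (hMT (Zgen_sub_MM Q hc0))

/-- all combinations of the columns of a member lie on the cone -/
lemma MM_cone {Q : Matrix (Fin 7) (Fin 7) ℂ} {c : Fin 8 × Fin 3 → ℂ} (h : c ∈ MM Q)
    (x : Fin 3 → ℂ) : Cone (x 0 • hc c 0 + x 1 • hc c 1 + x 2 • hc c 2) := by
  have hh : ∀ j i, IsPoly (fun c : Fin 8 × Fin 3 → ℂ => hc c j i) := fun j i => IsPoly.coord _
  have hl : ∀ i, IsPoly (fun c : Fin 8 × Fin 3 → ℂ =>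
      (x 0 • hc c 0 + x 1 • hc c 1 + x 2 • hc c 2) i) := fun i =>
    (((IsPoly.const _).mul (hh 0 i)).add ((IsPoly.const _).mul (hh 1 i))).add
      ((IsPoly.const _).mul (hh 2 i))
  have hq : ∀ k, IsPoly (fun c : Fin 8 × Fin 3 → ℂ =>
      qv (x 0 • hc c 0 + x 1 • hc c 1 + x 2 • hc c 2) k) := by
    intro k
    fin_cases k
    · exact (((hl 0).mul (hl 4)).sub (((IsPoly.const 4).mul (hl 1)).mul (hl 3))).add
        ((IsPoly.const 3).mul ((hl 2).pow 2))
    · exact (((hl 0).mul (hl 5)).sub (((IsPoly.const 3).mul (hl 1)).mul (hl 4))).add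
        (((IsPoly.const 2).mul (hl 2)).mul (hl 3))
    · exact (((hl 0).mul (hl 6)).sub (((IsPoly.const 9).mul (hl 2)).mul (hl 4))).add
        ((IsPoly.const 8).mul ((hl 3).pow 2))
    · exact (((hl 1).mul (hl 6)).sub (((IsPoly.const 3).mul (hl 2)).mul (hl 5))).add
        (((IsPoly.const 2).mul (hl 3)).mul (hl 4))
    · exact (((hl 2).mul (hl 6)).sub (((IsPoly.const 4).mul (hl 3)).mul (hl 5))).add
        ((IsPoly.const 3).mul ((hl 4).pow 2))
  rw [cone_iff]
  ext k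
  obtain ⟨f, hf⟩ := hq k
  have := h.2 f (by
    rintro z ⟨hz, g, hg, X, Y, W, rfl⟩
    rw [hf]
    have e : ∀ j, hc (mkc g X Y W) j = rho g (EE (X j) (Y j)) := by
      intro j
      have : hc (mkc g X Y W) j = low (up (rho g (EE (X j) (Y j))) (W j)) := rfl
      rw [this, low_up]
    have hcn : Cone (x 0 • hc (mkc g X Y W) 0 + x 1 • hc (mkc g X Y W) 1 +
        x 2 • hc (mkc g X Y W) 2) := by
      rw [e, e, e, ← map_smul, ← map_smul, ← map_smul, ← map_add, ← map_add, EE_smul, EE_smul,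
        EE_smul, EE_add, EE_add]
      exact (cone_EE _ _).rho g
    have := (cone_iff _).1 hcn
    exact congrFun this k)
  rw [hf] at this
  exact this

/-- members through points of the open orbit lie over lines of the orbit -/
theorem MM_orbit {Q : Matrix (Fin 7) (Fin 7) ℂ} {c : Fin 8 × Fin 3 → ℂ} (h : c ∈ MM Q)
    {s t : ℂ} (hst : inv6 (low (conicPt c s t)) ≠ 0) : c ∈ Zgen Q := by
  let W : Submodule ℂ (Fin 7 → ℂ) := Submodule.span ℂ (range (hc c))
  have hW : ∀ w ∈ W, Cone w := by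
    intro w hw
    obtain ⟨x, rfl⟩ := (Submodule.mem_span_range_iff_exists_fun ℂ).1 hw
    have := MM_cone h x
    rwa [Fin.sum_univ_three]
  have hj : ∀ j, hc c j ∈ W := fun j => Submodule.subset_span ⟨j, rfl⟩
  have ha : low (conicPt c s t) ∈ W := by
    rw [low_conicPt]
    exact W.add_mem (W.add_mem (W.smul_mem _ (hj 0)) (W.smul_mem _ (hj 1)))
      (W.smul_mem _ (hj 2))
  obtain ⟨g, hg, hall⟩ := line_through W hW ha hst
  have hj' : ∀ j, ∃ x y, hc c j = rho g (EE x y) := fun j => hall _ (hj j)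
  choose X Y hXY using hj'
  exact ⟨h.1, g, hg, X, Y, _, eq_mkc hXY⟩

/-! ### the curves of the family -/

/-- the points of the curve over the line of `g` -/
lemma mem_curve_rr {Q : Matrix (Fin 7) (Fin 7) ℂ} {g : M2} (hD : qD Q g ≠ 0) {w0 : ℂ}
    (hw : w0 ^ 2 = qA Q g) {x y w : ℂ} (hne : x ≠ 0 ∨ y ≠ 0)
    (h : w ^ 2 = qA Q g * x ^ 2 + qB Q g * (x * y) + qC Q g * y ^ 2) :
    ∃ S T μ : ℂ, μ ≠ 0 ∧ conicPt (rr Q g w0) S T = μ • up (rho g (EE x y)) w := by
  have key : ∀ S T μ : ℂ, qC Q g * S ^ 2 - T ^ 2 = μ * x → S * (2 * w0 * T - qB Q g * S) = μ * y →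
      w0 * qC Q g * S ^ 2 - qB Q g * S * T + w0 * T ^ 2 = μ * w →
      conicPt (rr Q g w0) S T = μ • up (rho g (EE x y)) w := by
    intro S T μ h1 h2 h3
    rw [rr, conicPt_mkc, smul_up, ← map_smul, EE_smul, ← h1, ← h2, ← h3]
    congr 3
    · simp only [qf, Matrix.cons_val]
      ring
    · simp only [qf, Matrix.cons_val]
      ring
    · simp only [qf, Matrix.cons_val]
      ring
  by_cases hN : 2 * w0 * (w - w0 * x) - qB Q g * y = 0
  · -- the base point
    have hy : y = 0 := by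
      have e : qD Q g * y ^ 2 = 0 := by
        rw [qD, ← hw]
        rw [← hw] at h
        have e1 : qB Q g * y = 2 * w0 * (w - w0 * x) := by linear_combination -hN
        have e2 : (w - w0 * x) * (w + w0 * x) = y * (qB Q g * x + qC Q g * y) := by
          linear_combination h
        linear_combination (qB Q g * y + 2 * w0 * (w - w0 * x) + 4 * w0 ^ 2 * x) * e1 +
          4 * w0 ^ 2 * h
      exact pow_eq_zero_iff (two_ne_zero) |>.1 ((mul_eq_zero.1 e).resolve_left hD)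
    subst hy
    have hx : x ≠ 0 := hne.resolve_right (fun h => h rfl)
    have hwx : w = w0 * x := by
      by_cases hw0 : w0 = 0
      · rw [hw0] at hw
        rw [← hw] at h
        have : w ^ 2 = 0 := by linear_combination h
        rw [pow_eq_zero_iff (two_ne_zero) |>.1 this, hw0]
        ring
      · have : 2 * w0 * (w - w0 * x) = 0 := by linear_combination hN
        rcases mul_eq_zero.1 this with h | h
        · exact absurd (mul_eq_zero.1 h) (by simp [hw0])
        · linear_combination h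
    refine ⟨2 * w0, qB Q g, -qD Q g / x, div_ne_zero (neg_ne_zero.2 hD) hx, ?_⟩
    apply key
    · rw [qD, ← hw]
      field_simp
      ring
    · ring
    · rw [hwx, qD, ← hw]
      field_simp
      ring
  · refine ⟨y, w - w0 * x, 2 * w0 * (w - w0 * x) - qB Q g * y, hN, ?_⟩
    rw [← hw] at h
    apply key
    · linear_combination -h
    · ring
    · linear_combination (-w0) * h

theorem curve_mkc {Q : Matrix (Fin 7) (Fin 7) ℂ} {g : M2} (hg : g.det ≠ 0) {X Y W : Fin 3 → ℂ}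
    (h : mkc g X Y W ∈ conics (zeros (eqX Q))) {v : Fin 8 → ℂ} (hv : v ≠ 0) :
    Projectivization.mk ℂ v hv ∈ curve (mkc g X Y W) ↔
      v ∈ cone (eqX Q) ∧ ∃ x y, low v = rho g (EE x y) := by
  constructor
  · intro hp
    have h1 := h.2 hp
    rw [mem_zeros_eqX] at h1
    refine ⟨h1, ?_⟩
    obtain ⟨s, t, hne, he⟩ := hp
    rw [Projectivization.mk_eq_mk_iff'] at he
    obtain ⟨a, rfl⟩ := he
    rw [conicPt_mkc, low_smul, low_up, ← map_smul, EE_smul]
    exact ⟨_, _, rfl⟩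
  · rintro ⟨h1, x, y, hxy⟩
    obtain ⟨w0, κ, hw, hκ, hD, he⟩ := exists_param hg h
    have h2 := (mem_cone_eqX Q v).1 h1
    have hne : x ≠ 0 ∨ y ≠ 0 := by
      by_contra hcon
      push Not at hcon
      apply low_ne_zero h1
      rw [hxy, hcon.1, hcon.2]
      have : EE 0 0 = 0 := by
        ext i
        fin_cases i <;> simp [EE]
      rw [this, map_zero]
    have h3 : v 7 ^ 2 = qA Q g * x ^ 2 + qB Q g * (x * y) + qC Q g * y ^ 2 := by
      rw [h2.2.2, hxy, quad_EE]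
    obtain ⟨S, T, μ, hμ, hST⟩ := mem_curve_rr hD hw hne h3
    have hv' : up (rho g (EE x y)) (v 7) = v := by rw [← hxy, up_low]
    rw [hv'] at hST
    have hpt : conicPt (sub (rr Q g w0) κ) (κ⁻¹ 0 0 * S + κ⁻¹ 0 1 * T)
        (κ⁻¹ 1 0 * S + κ⁻¹ 1 1 * T) = μ • v := by
      rw [← conicPt_sub, sub_sub, Matrix.mul_nonsing_inv _ (isUnit_iff_ne_zero.2 hκ), sub_one, hST]
    rw [he]
    refine ⟨κ⁻¹ 0 0 * S + κ⁻¹ 0 1 * T, κ⁻¹ 1 0 * S + κ⁻¹ 1 1 * T, ?_, ?_⟩
    · rw [hpt]
      exact smul_ne_zero hμ hv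
    · rw [Projectivization.mk_eq_mk_iff']
      refine ⟨μ⁻¹, ?_⟩
      rw [hpt, smul_smul, inv_mul_cancel₀ hμ, one_smul]

/-- every line of the orbit which is not tangent to the branch divisor gives a member -/
theorem exists_member {Q : Matrix (Fin 7) (Fin 7) ℂ} {g : M2} (hg : g.det ≠ 0)
    (hD : qD Q g ≠ 0) : ∃ X Y W, mkc g X Y W ∈ Zgen Q := by
  obtain ⟨w0, hw⟩ := IsAlgClosed.exists_pow_nat_eq (qA Q g) (n := 2) (by norm_num)
  exact ⟨_, _, _, rr_mem hg hD hw, g, hg, _, _, _, rfl⟩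

end Pool.Agent.Lib.MP_6e94a1_ag
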