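import Pool.Agent.Lib.MP_6e94a1_ag.CovBase

/-!
# Lines on `V₅`
-/

open scoped LinearAlgebra.Projectivization Topology
open MvPolynomial Set

set_option linter.all false

namespace Pool.Agent.Lib.MP_6e94a1_ag

/-- the quadratic invariant of a binary sextic -/
def inv6 (a : Fin 7 → ℂ) : ℂ := a 0 * a 6 - 6 * a 1 * a 5 + 15 * a 2 * a 4 - 10 * a 3 ^ 2

lemma inv6_rho (g : M2) (a : Fin 7 → ℂ) : inv6 (rho g a) = g.det ^ 6 * inv6 a := by
  revert a
  apply Matrix.diagonal_transvection_induction
    (P := fun g => ∀ a : Fin 7 → ℂ, inv6 (rho g a) = g.det ^ 6 * inv6 a) g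
  · intro D _ a
    simp only [inv6, MP_6e94a1_ag.rho, LinearMap.coe_mk, AddHom.coe_mk, rhoAux, Matrix.cons_val,
      Matrix.diagonal_apply_eq, Matrix.diagonal_apply_ne _ (zero_ne_one' (Fin 2)),
      Matrix.diagonal_apply_ne _ (one_ne_zero' (Fin 2)), Matrix.det_diagonal, Fin.prod_univ_two]
    ring
  · rintro ⟨i, j, hij, c⟩ a
    rw [Matrix.TransvectionStruct.det]
    fin_cases i <;> fin_cases j
    · exact absurd rfl hij
    · simp only [inv6, MP_6e94a1_ag.rho, LinearMap.coe_mk, AddHom.coe_mk, rhoAux,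
        Matrix.cons_val, Matrix.TransvectionStruct.toMatrix, Matrix.transvection,
        Matrix.add_apply, Matrix.one_apply, Matrix.single_apply]
      norm_num
      ring
    · simp only [inv6, MP_6e94a1_ag.rho, LinearMap.coe_mk, AddHom.coe_mk, rhoAux,
        Matrix.cons_val, Matrix.TransvectionStruct.toMatrix, Matrix.transvection,
        Matrix.add_apply, Matrix.one_apply, Matrix.single_apply]
      norm_num
      ring
    · exact absurd rfl hij
  · intro A B hA hB a
    rw [rho_mul, hA, hB, Matrix.det_mul]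
    ring

/-- The open orbit is the locus where the invariant does not vanish. -/
lemma mem_orbit_inv {v : Fin 7 → ℂ} (hv : Cone v) (hd : inv6 v ≠ 0) :
    ∃ g : M2, g.det ≠ 0 ∧ P g = v := by
  -- first the case of a root at (1,0)
  have case1 : ∀ u : Fin 7 → ℂ, Cone u → inv6 u ≠ 0 → u 0 = 0 →
      ∃ g : M2, g.det ≠ 0 ∧ P g = u := by
    intro u hcu hdu hu0
    by_cases hu1 : u 1 = 0
    · exfalso
      apply hdu
      rw [form_two hcu hu0 hu1]
      simp [inv6]
    · apply mem_orbit_one hcu hu0 hu1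
      intro k c hk
      apply hdu
      rw [hk, inv6_rho]
      simp [inv6]
  by_cases h0 : v 0 = 0
  · exact case1 v hv hd h0
  · obtain ⟨r, hr⟩ := exists_root_ev h0
    have hgd : (!![r, 1; -1, 0] : M2).det ≠ 0 := by
      rw [Matrix.det_fin_two_of]
      norm_num
    obtain ⟨m, hm, hPm⟩ := case1 (rho !![r, 1; -1, 0] v) (hv.rho _)
      (by rw [inv6_rho]; exact mul_ne_zero (pow_ne_zero 6 hgd) hd)
      (by rw [rho_zero]; simpa using hr)
    refine ⟨(!![r, 1; -1, 0] : M2)⁻¹ * m, ?_, ?_⟩
    · rw [Matrix.det_mul]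
      exact mul_ne_zero (det_inv_ne hgd) hm
    · rw [P_mul, hPm, rho_inv_rho hgd]

/-- the standard line -/
def EE (x y : ℂ) : Fin 7 → ℂ := ![0, x, 0, 0, 0, y, 0]

lemma EE_comb (a b x y x' y' : ℂ) :
    a • EE x y + b • EE x' y' = EE (a * x + b * x') (a * y + b * y') := by
  ext i
  fin_cases i <;> simp [EE]

lemma EE_smul (a x y : ℂ) : a • EE x y = EE (a * x) (a * y) := by
  ext i
  fin_cases i <;> simp [EE]

lemma EE_add (x y x' y' : ℂ) : EE x y + EE x' y' = EE (x + x') (y + y') := by
  ext i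
  fin_cases i <;> simp [EE]

lemma EE_eq (x y : ℂ) : EE x y = x • EE 1 0 + y • EE 0 1 := by
  rw [EE_comb]
  simp

lemma EE_inj {x y x' y' : ℂ} (h : EE x y = EE x' y') : x = x' ∧ y = y' := by
  have h1 := congrFun h 1
  have h5 := congrFun h 5
  simp [EE] at h1 h5
  exact ⟨h1, h5⟩

lemma cone_EE (x y : ℂ) : Cone (EE x y) := by
  simp [Cone, EE]

lemma inv6_EE (x y : ℂ) : inv6 (EE x y) = -6 * x * y := by
  simp [inv6, EE]

lemma f0_eq : f0 = EE 1 (-1) := rfl

lemma tau_K0 : tau (K 0) = EE 4 4 := by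
  ext i
  fin_cases i <;> simp [tau, K, EE] <;> norm_num

/-- the three lines through the octahedral point are translates of the standard line -/
lemma line_translate (i : Fin 3) : ∃ g : M2, g.det ≠ 0 ∧ (∃ x y, f0 = rho g (EE x y)) ∧
    (∃ x y, tau (K i) = rho g (EE x y)) := by
  have hI2 : Complex.I ^ 2 = -1 := Complex.I_sq
  have hI3 : Complex.I ^ 3 = -Complex.I := by
    rw [pow_succ, hI2]; ring
  have hI4 : Complex.I ^ 4 = 1 := Complex.I_pow_four
  have hI5 : Complex.I ^ 5 = Complex.I := by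
    rw [pow_succ, hI4]; ring
  have hI6 : Complex.I ^ 6 = -1 := by
    rw [pow_succ, hI5]
    have := hI2
    linear_combination this
  fin_cases i
  · exact ⟨1, by simp, ⟨1, -1, by rw [rho_one]; rfl⟩, ⟨4, 4, by rw [rho_one]; exact tau_K0⟩⟩
  · refine ⟨!![1, 1; 1, -1], ?_, ⟨1 / 8, -1 / 8, ?_⟩, ⟨1 / 2, 1 / 2, ?_⟩⟩
    · rw [Matrix.det_fin_two_of]
      norm_num
    · ext i
      fin_cases i <;> simp [f0, rho, rhoAux, EE] <;> norm_num
    · ext i
      fin_cases i <;> simp [tau, K, rho, rhoAux, EE] <;> norm_num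
  · refine ⟨!![1, 1; Complex.I, -Complex.I], ?_, ⟨-Complex.I / 8, Complex.I / 8, ?_⟩,
      ⟨Complex.I / 2, Complex.I / 2, ?_⟩⟩
    · rw [Matrix.det_fin_two_of]
      intro h
      have h2 : Complex.I = 0 := by linear_combination (-1 / 2 : ℂ) * h
      exact Complex.I_ne_zero h2
    · ext i
      fin_cases i <;> simp [f0, rho, rhoAux, EE] <;> ring_nf <;>
        simp [hI2, hI3, hI4, hI5, hI6] <;> try ring
    · ext i
      fin_cases i <;> simp [tau, K, rho, rhoAux, EE] <;> ring_nf <;>
        simp [hI2, hI3, hI4, hI5, hI6] <;> try ring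

lemma K_comb {x : ℂ} {γ : Fin 3 → ℂ} (h : x • (1 : M2) + ∑ i, γ i • K i = 0) : γ = 0 := by
  have h00 := congrFun (congrFun h 0) 0
  have h01 := congrFun (congrFun h 0) 1
  have h10 := congrFun (congrFun h 1) 0
  have h11 := congrFun (congrFun h 1) 1
  simp [Fin.sum_univ_three, K] at h00 h01 h10 h11
  have hI := Complex.I_ne_zero
  ext i
  fin_cases i
  · simp
    linear_combination (1 / 2 : ℂ) * h00 - (1 / 2 : ℂ) * h11
  · simp
    linear_combination (1 / 2 : ℂ) * h01 + (1 / 2 : ℂ) * h10
  · simp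
    have : γ 2 * Complex.I = 0 := by
      linear_combination (1 / 2 : ℂ) * h01 - (1 / 2 : ℂ) * h10
    rcases mul_eq_zero.1 this with h | h
    · exact h
    · exact absurd h hI

/-- A linear space on the cone through a point of the open orbit lies on a line. -/
theorem line_through (W : Submodule ℂ (Fin 7 → ℂ)) (hW : ∀ w ∈ W, Cone w) {a : Fin 7 → ℂ}
    (ha : a ∈ W) (hinv : inv6 a ≠ 0) :
    ∃ g : M2, g.det ≠ 0 ∧ ∀ w ∈ W, ∃ x y, w = rho g (EE x y) := by
  obtain ⟨k, hk, hPk⟩ := mem_orbit_inv (hW a ha) hinv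
  have key : ∀ w ∈ W, ∃ (i : Fin 3) (α γ : ℂ), w = rho k (α • f0 + γ • tau (K i)) := by
    intro w hw
    have h1 : ∀ t : ℂ, Cone (f0 + t • rho k⁻¹ w) := by
      intro t
      have h2 : Cone (a + t • w) := hW _ (W.add_mem ha (W.smul_mem t hw))
      have h3 := h2.rho k⁻¹
      rw [map_add, map_smul, ← hPk, P, rho_inv_rho hk] at h3
      exact h3
    obtain ⟨i, α, γ, h4⟩ := lines_at_f0 h1
    exact ⟨i, α, γ, by rw [← h4, rho_rho_inv hk]⟩
  by_cases hall : ∀ w ∈ W, ∃ α : ℂ, w = rho k (α • f0)
  · refine ⟨k, hk, fun w hw => ?_⟩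
    obtain ⟨α, rfl⟩ := hall w hw
    exact ⟨α * 1, α * (-1), by rw [f0_eq, EE_smul]⟩
  · push Not at hall
    obtain ⟨b, hb, hbne⟩ := hall
    obtain ⟨i, α, γ, hbe⟩ := key b hb
    have hγ : γ ≠ 0 := by
      rintro rfl
      apply hbne α
      rw [hbe, zero_smul, add_zero]
    obtain ⟨g, hg, ⟨x1, y1, hf⟩, ⟨x2, y2, ht⟩⟩ := line_translate i
    have fin : ∀ (α γ : ℂ), ∃ x y, rho k (α • f0 + γ • tau (K i)) = rho (k * g) (EE x y) := by
      intro α γ
      refine ⟨α * x1 + γ * x2, α * y1 + γ * y2, ?_⟩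
      have h : rho g (EE (α * x1 + γ * x2) (α * y1 + γ * y2)) = α • f0 + γ • tau (K i) := by
        rw [← EE_comb, map_add, map_smul, map_smul, ← hf, ← ht]
      rw [rho_mul, h]
    refine ⟨k * g, ?_, fun w hw => ?_⟩
    · rw [Matrix.det_mul]
      exact mul_ne_zero hk hg
    · obtain ⟨i', α', γ', hwe⟩ := key w hw
      by_cases hγ' : γ' = 0
      · obtain ⟨x, y, h⟩ := fin α' 0
        refine ⟨x, y, ?_⟩
        rw [hwe, hγ', ← h, zero_smul, zero_smul]
      · by_cases hii : i' = i
        · subst hii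
          rw [hwe]
          exact fin α' γ'
        · exfalso
          obtain ⟨i'', α'', γ'', h3⟩ := key (b + w) (W.add_mem hb hw)
          rw [hbe, hwe, ← map_add] at h3
          have h4 := rho_injective hk h3
          have h5 : tau (((α + α' - α'') / 6) • (1 : M2) + ∑ j, (Pi.single i γ + Pi.single i' γ' -
              Pi.single i'' γ'' : Fin 3 → ℂ) j • K j) = 0 := by
            have h6 : ∀ (i : Fin 3) (γ : ℂ), ∑ j, (Pi.single i γ : Fin 3 → ℂ) j • K j = γ • K i := by
              intro i γ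
              rw [Finset.sum_eq_single i]
              · rw [Pi.single_eq_same]
              · intro b _ hb
                rw [Pi.single_eq_of_ne hb, zero_smul]
              · simp
            have h7 : ∑ j, (Pi.single i γ + Pi.single i' γ' -
              Pi.single i'' γ'' : Fin 3 → ℂ) j • K j = γ • K i + γ' • K i' - γ'' • K i'' := by
              simp only [Pi.add_apply, Pi.sub_apply, add_smul, sub_smul, Finset.sum_add_distrib,
                Finset.sum_sub_distrib, h6]
            rw [h7, map_add, map_smul, tau_one, map_sub, map_add, map_smul, map_smul, map_smul]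
            have h8 : ((α + α' - α'') / 6) • (6 : ℂ) • f0 = (α + α' - α'') • f0 := by
              rw [smul_smul]
              congr 1
              ring
            rw [h8, sub_smul, add_smul]
            have h9 : α • f0 + γ • tau (K i) + (α' • f0 + γ' • tau (K i')) -
              (α'' • f0 + γ'' • tau (K i'')) = 0 := by rw [h4, sub_self]
            rw [← h9]
            abel
          have h6 := K_comb (tau_injective (h5.trans (map_zero tau).symm))
          have e1 := congrFun h6 i
          have e2 := congrFun h6 i'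
          simp only [Pi.sub_apply, Pi.add_apply, Pi.single_eq_same, Pi.zero_apply,
            Pi.single_eq_of_ne hii, Pi.single_eq_of_ne (Ne.symm hii), add_zero, zero_add] at e1 e2
          by_cases hi2 : i = i''
          · subst hi2
            rw [Pi.single_eq_of_ne hii, sub_zero] at e2
            exact hγ' e2
          · rw [Pi.single_eq_of_ne hi2, sub_zero] at e1
            exact hγ e1

end Pool.Agent.Lib.MP_6e94a1_ag
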