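import Pool.Agent.Lib.MP_6e94a1_ag.CovIrr
import Pool.Agent.Lib.MP_6e94a1_ag.CovLine

/-!
# Conics over the lines of `V₅`
-/

open scoped LinearAlgebra.Projectivization Topology
open MvPolynomial Set

set_option linter.all false

namespace Pool.Agent.Lib.MP_6e94a1_ag

variable {n : ℕ}

/-- substitution of linear forms in a parametrised conic -/
def sub (c : Fin n × Fin 3 → ℂ) (κ : M2) : Fin n × Fin 3 → ℂ := fun p =>
  ![c (p.1, 0) * κ 0 0 ^ 2 + c (p.1, 1) * (κ 0 0 * κ 1 0) + c (p.1, 2) * κ 1 0 ^ 2,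
    2 * c (p.1, 0) * (κ 0 0 * κ 0 1) + c (p.1, 1) * (κ 0 0 * κ 1 1 + κ 0 1 * κ 1 0) +
      2 * c (p.1, 2) * (κ 1 0 * κ 1 1),
    c (p.1, 0) * κ 0 1 ^ 2 + c (p.1, 1) * (κ 0 1 * κ 1 1) + c (p.1, 2) * κ 1 1 ^ 2] p.2

lemma conicPt_sub (c : Fin n × Fin 3 → ℂ) (κ : M2) (s t : ℂ) :
    conicPt (sub c κ) s t = conicPt c (κ 0 0 * s + κ 0 1 * t) (κ 1 0 * s + κ 1 1 * t) := by
  ext i
  simp only [conicPt, sub, Matrix.cons_val]
  ring

lemma conicPt_inj {c c' : Fin n × Fin 3 → ℂ} (h : ∀ s t, conicPt c s t = conicPt c' s t) :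
    c = c' := by
  ext ⟨i, j⟩
  have h1 := congrFun (h 1 0) i
  have h2 := congrFun (h 0 1) i
  have h3 := congrFun (h 1 1) i
  simp only [conicPt] at h1 h2 h3
  fin_cases j
  · simp
    linear_combination h1
  · simp
    linear_combination h3 - h1 - h2
  · simp
    linear_combination h2

lemma sub_sub (c : Fin n × Fin 3 → ℂ) (κ κ' : M2) : sub (sub c κ) κ' = sub c (κ * κ') := by
  apply conicPt_inj
  intro s t
  rw [conicPt_sub, conicPt_sub, conicPt_sub]
  congr 1 <;> simp only [Matrix.mul_apply, Fin.sum_univ_two] <;> ring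

lemma sub_one (c : Fin n × Fin 3 → ℂ) : sub c 1 = c := by
  apply conicPt_inj
  intro s t
  rw [conicPt_sub]
  simp

/-- linear independence of the columns -/
def LI (c : Fin n × Fin 3 → ℂ) : Prop :=
  ∀ y : Fin 3 → ℂ, (∀ i, y 0 * c (i, 0) + y 1 * c (i, 1) + y 2 * c (i, 2) = 0) → y = 0

lemma LI_iff (c : Fin n × Fin 3 → ℂ) :
    LinearIndependent ℂ (fun (j : Fin 3) (i : Fin n) => c (i, j)) ↔ LI c := by
  rw [Fintype.linearIndependent_iff]
  constructor
  · intro h y hy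
    ext j
    apply h y
    ext i
    simp only [Fin.sum_univ_three, Pi.add_apply, Pi.smul_apply, smul_eq_mul, Pi.zero_apply]
    exact hy i
  · intro h y hy j
    have := h y (by
      intro i
      have := congrFun hy i
      simpa only [Fin.sum_univ_three, Pi.add_apply, Pi.smul_apply, smul_eq_mul,
        Pi.zero_apply] using this)
    exact congrFun this j

lemma LI.sub {c : Fin n × Fin 3 → ℂ} (hc : LI c) {κ : M2} (hκ : κ.det ≠ 0) :
    LI (MP_6e94a1_ag.sub c κ) := by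
  intro y hy
  have h1 := hc ![y 0 * κ 0 0 ^ 2 + 2 * y 1 * (κ 0 0 * κ 0 1) + y 2 * κ 0 1 ^ 2,
    y 0 * (κ 0 0 * κ 1 0) + y 1 * (κ 0 0 * κ 1 1 + κ 0 1 * κ 1 0) + y 2 * (κ 0 1 * κ 1 1),
    y 0 * κ 1 0 ^ 2 + 2 * y 1 * (κ 1 0 * κ 1 1) + y 2 * κ 1 1 ^ 2] (by
      intro i
      have := hy i
      simp only [MP_6e94a1_ag.sub, Matrix.cons_val] at this ⊢
      linear_combination this)
  have a0 := congrFun h1 0
  have a1 := congrFun h1 1
  have a2 := congrFun h1 2
  simp only [Matrix.cons_val, Pi.zero_apply] at a0 a1 a2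
  rw [Matrix.det_fin_two] at hκ
  have hκ2 := pow_ne_zero 2 hκ
  ext j
  fin_cases j
  · apply mul_left_cancel₀ hκ2
    show _ * y 0 = _ * 0
    linear_combination (κ 1 1 ^ 2) * a0 - (2 * κ 0 1 * κ 1 1) * a1 + (κ 0 1 ^ 2) * a2
  · apply mul_left_cancel₀ hκ2
    show _ * y 1 = _ * 0
    linear_combination (-κ 1 0 * κ 1 1) * a0 + (κ 0 0 * κ 1 1 + κ 0 1 * κ 1 0) * a1 -
      (κ 0 0 * κ 0 1) * a2
  · apply mul_left_cancel₀ hκ2
    show _ * y 2 = _ * 0
    linear_combination (κ 1 0 ^ 2) * a0 - (2 * κ 0 0 * κ 1 0) * a1 + (κ 0 0 ^ 2) * a2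

lemma conics_sub {X : Set (ℙ ℂ (Fin n → ℂ))} {c : Fin n × Fin 3 → ℂ} (hc : c ∈ conics X) {κ : M2}
    (hκ : κ.det ≠ 0) : sub c κ ∈ conics X := by
  obtain ⟨h1, h2⟩ := hc
  refine ⟨(LI_iff _).2 (((LI_iff _).1 h1).sub hκ), ?_⟩
  rintro p ⟨s, t, h, rfl⟩
  apply h2
  refine ⟨κ 0 0 * s + κ 0 1 * t, κ 1 0 * s + κ 1 1 * t, ?_, ?_⟩
  · rwa [← conicPt_sub]
  · congr 1
    exact conicPt_sub c κ s t

lemma LI.conicPt_ne {c : Fin n × Fin 3 → ℂ} (hc : LI c) {s t : ℂ} (h : s ≠ 0 ∨ t ≠ 0) :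
    conicPt c s t ≠ 0 := by
  intro h0
  have h1 := hc ![s ^ 2, s * t, t ^ 2] (by
    intro i
    have := congrFun h0 i
    simp only [conicPt, Matrix.cons_val, Pi.zero_apply] at this ⊢
    linear_combination this)
  have a0 := congrFun h1 0
  have a2 := congrFun h1 2
  simp only [Matrix.cons_val, Pi.zero_apply] at a0 a2
  rcases h with h | h
  · exact h (pow_eq_zero_iff (two_ne_zero) |>.1 a0)
  · exact h (pow_eq_zero_iff (two_ne_zero) |>.1 a2)

/-- value of a binary quadratic form -/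
def qf (X : Fin 3 → ℂ) (s t : ℂ) : ℂ := X 0 * s ^ 2 + X 1 * (s * t) + X 2 * t ^ 2

/-- conics lying over the line attached to `g` -/
def mkc (g : M2) (X Y W : Fin 3 → ℂ) : Fin 8 × Fin 3 → ℂ :=
  fun p => up (rho g (EE (X p.2) (Y p.2))) (W p.2) p.1

lemma conicPt_mkc (g : M2) (X Y W : Fin 3 → ℂ) (s t : ℂ) :
    conicPt (mkc g X Y W) s t = up (rho g (EE (qf X s t) (qf Y s t))) (qf W s t) := by
  have e : conicPt (mkc g X Y W) s t =
      (s ^ 2) • up (rho g (EE (X 0) (Y 0))) (W 0) + (s * t) • up (rho g (EE (X 1) (Y 1))) (W 1) +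
      (t ^ 2) • up (rho g (EE (X 2) (Y 2))) (W 2) := by
    ext i
    simp only [conicPt, mkc, Pi.add_apply, Pi.smul_apply, smul_eq_mul]
    ring
  rw [e]
  apply up_ext
  · simp only [low_add, low_smul, low_up, ← map_smul, ← map_add, EE_smul, EE_add]
    congr 2 <;> simp only [qf] <;> ring
  · simp only [Pi.add_apply, Pi.smul_apply, smul_eq_mul, up_seven, qf]
    ring

/-- the 3x3 determinant of three binary quadratic forms -/
def det3 (X Y W : Fin 3 → ℂ) : ℂ :=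
  X 0 * (Y 1 * W 2 - Y 2 * W 1) - X 1 * (Y 0 * W 2 - Y 2 * W 0) + X 2 * (Y 0 * W 1 - Y 1 * W 0)

lemma LI_mkc {g : M2} (hg : g.det ≠ 0) {X Y W : Fin 3 → ℂ} :
    LI (mkc g X Y W) ↔ det3 X Y W ≠ 0 := by
  have key : ∀ y : Fin 3 → ℂ, (∀ i, y 0 * mkc g X Y W (i, 0) + y 1 * mkc g X Y W (i, 1) +
      y 2 * mkc g X Y W (i, 2) = 0) ↔ (y 0 * X 0 + y 1 * X 1 + y 2 * X 2 = 0 ∧
      y 0 * Y 0 + y 1 * Y 1 + y 2 * Y 2 = 0 ∧ y 0 * W 0 + y 1 * W 1 + y 2 * W 2 = 0) := by
    intro y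
    have e : (fun i => y 0 * mkc g X Y W (i, 0) + y 1 * mkc g X Y W (i, 1) +
      y 2 * mkc g X Y W (i, 2)) = up (rho g (EE (y 0 * X 0 + y 1 * X 1 + y 2 * X 2)
        (y 0 * Y 0 + y 1 * Y 1 + y 2 * Y 2))) (y 0 * W 0 + y 1 * W 1 + y 2 * W 2) := by
      have e : (fun i => y 0 * mkc g X Y W (i, 0) + y 1 * mkc g X Y W (i, 1) +
        y 2 * mkc g X Y W (i, 2)) = (y 0) • up (rho g (EE (X 0) (Y 0))) (W 0) +
        (y 1) • up (rho g (EE (X 1) (Y 1))) (W 1) + (y 2) • up (rho g (EE (X 2) (Y 2))) (W 2) := by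
        ext i
        simp only [mkc, Pi.add_apply, Pi.smul_apply, smul_eq_mul]
      rw [e]
      apply up_ext
      · simp only [low_add, low_smul, low_up, ← map_smul, ← map_add, EE_smul, EE_add]
      · simp only [Pi.add_apply, Pi.smul_apply, smul_eq_mul, up_seven]
    constructor
    · intro h
      have h0 : up (rho g (EE (y 0 * X 0 + y 1 * X 1 + y 2 * X 2)
        (y 0 * Y 0 + y 1 * Y 1 + y 2 * Y 2))) (y 0 * W 0 + y 1 * W 1 + y 2 * W 2) = 0 := by
        rw [← e]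
        ext i
        exact h i
      have hl := congrArg low h0
      rw [low_up] at hl
      have hl' : EE (y 0 * X 0 + y 1 * X 1 + y 2 * X 2) (y 0 * Y 0 + y 1 * Y 1 + y 2 * Y 2) =
          EE 0 0 := by
        apply rho_injective hg
        rw [hl]
        have : EE 0 0 = 0 := by
          ext i
          fin_cases i <;> simp [EE]
        rw [this, map_zero]
        rfl
      have h7 := congrFun h0 7
      rw [up_seven] at h7
      exact ⟨(EE_inj hl').1, (EE_inj hl').2, h7⟩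
    · rintro ⟨h1, h2, h3⟩ i
      have := congrFun e i
      rw [this, h1, h2, h3]
      have : EE 0 0 = 0 := by
        ext i
        fin_cases i <;> simp [EE]
      rw [this, map_zero, up_zero_zero]
      rfl
  constructor
  · intro h hdet
    -- the adjugate gives relations
    have r : ∀ y : Fin 3 → ℂ, (y 0 * X 0 + y 1 * X 1 + y 2 * X 2 = 0 ∧
      y 0 * Y 0 + y 1 * Y 1 + y 2 * Y 2 = 0 ∧ y 0 * W 0 + y 1 * W 1 + y 2 * W 2 = 0) → y = 0 :=
      fun y hy => h y ((key y).2 hy)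
    let A : Matrix (Fin 3) (Fin 3) ℂ := Matrix.of ![X, Y, W]
    have hA : A.det = 0 := by
      rw [Matrix.det_fin_three]
      simp only [A, Matrix.of_apply, Matrix.cons_val]
      simp only [det3] at hdet
      linear_combination hdet
    obtain ⟨y, hy0, hy⟩ := Matrix.exists_mulVec_eq_zero_iff.2 hA
    apply hy0
    apply r
    have b0 := congrFun hy 0
    have b1 := congrFun hy 1
    have b2 := congrFun hy 2
    simp only [A, Matrix.mulVec, dotProduct, Fin.sum_univ_three, Matrix.of_apply,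
      Matrix.cons_val, Pi.zero_apply] at b0 b1 b2
    exact ⟨by linear_combination b0, by linear_combination b1, by linear_combination b2⟩
  · intro h y hy
    obtain ⟨h1, h2, h3⟩ := (key y).1 hy
    simp only [det3] at h
    ext j
    fin_cases j
    · apply mul_left_cancel₀ h
      show _ * y 0 = _ * 0
      linear_combination (Y 1 * W 2 - Y 2 * W 1) * h1 - (X 1 * W 2 - X 2 * W 1) * h2 +
        (X 1 * Y 2 - X 2 * Y 1) * h3
    · apply mul_left_cancel₀ h
      show _ * y 1 = _ * 0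
      linear_combination -(Y 0 * W 2 - Y 2 * W 0) * h1 + (X 0 * W 2 - X 2 * W 0) * h2 -
        (X 0 * Y 2 - X 2 * Y 0) * h3
    · apply mul_left_cancel₀ h
      show _ * y 2 = _ * 0
      linear_combination (Y 0 * W 1 - Y 1 * W 0) * h1 - (X 0 * W 1 - X 1 * W 0) * h2 +
        (X 0 * Y 1 - X 1 * Y 0) * h3

end Pool.Agent.Lib.MP_6e94a1_ag
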