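import Pool.Agent.Lib.MP_6e94a1_ag.CovComp

/-!
# The family covers the threefold
-/

open scoped LinearAlgebra.Projectivization Topology
open MvPolynomial Set Filter

set_option linter.all false

namespace Pool.Agent.Lib.MP_6e94a1_ag

/-- infinitesimal action of matrices on sextics -/
def dr (ξ : M2) (a : Fin 7 → ℂ) : Fin 7 → ℂ :=
  ![ξ 0 0 * (6 * a 0) + ξ 0 1 * (6 * a 1),
    ξ 0 0 * (5 * a 1) + ξ 1 1 * a 1 + ξ 1 0 * a 0 + ξ 0 1 * (5 * a 2),
    ξ 0 0 * (4 * a 2) + ξ 1 1 * (2 * a 2) + ξ 1 0 * (2 * a 1) + ξ 0 1 * (4 * a 3),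
    ξ 0 0 * (3 * a 3) + ξ 1 1 * (3 * a 3) + ξ 1 0 * (3 * a 2) + ξ 0 1 * (3 * a 4),
    ξ 0 0 * (2 * a 4) + ξ 1 1 * (4 * a 4) + ξ 1 0 * (4 * a 3) + ξ 0 1 * (2 * a 5),
    ξ 0 0 * a 5 + ξ 1 1 * (5 * a 5) + ξ 1 0 * (5 * a 4) + ξ 0 1 * a 6,
    ξ 1 1 * (6 * a 6) + ξ 1 0 * (6 * a 5)]

def evx (a : Fin 7 → ℂ) (x y : ℂ) : ℂ :=
  6 * a 0 * x ^ 5 + 30 * a 1 * x ^ 4 * y + 60 * a 2 * x ^ 3 * y ^ 2 +
    60 * a 3 * x ^ 2 * y ^ 3 + 30 * a 4 * x * y ^ 4 + 6 * a 5 * y ^ 5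

def evy (a : Fin 7 → ℂ) (x y : ℂ) : ℂ :=
  6 * a 1 * x ^ 5 + 30 * a 2 * x ^ 4 * y + 60 * a 3 * x ^ 3 * y ^ 2 +
    60 * a 4 * x ^ 2 * y ^ 3 + 30 * a 5 * x * y ^ 4 + 6 * a 6 * y ^ 5

lemma ev_dr (ξ : M2) (a : Fin 7 → ℂ) (x y : ℂ) :
    ev (dr ξ a) x y = (ξ 0 0 * x + ξ 1 0 * y) * evx a x y + (ξ 0 1 * x + ξ 1 1 * y) * evy a x y := by
  simp only [ev, dr, evx, evy, Matrix.cons_val]
  ring

lemma evx_rho (g : M2) (a : Fin 7 → ℂ) (x y : ℂ) :
    evx (rho g a) x y = g 0 0 * evx a (g 0 0 * x + g 1 0 * y) (g 0 1 * x + g 1 1 * y) +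
      g 0 1 * evy a (g 0 0 * x + g 1 0 * y) (g 0 1 * x + g 1 1 * y) := by
  simp only [evx, evy, rho, LinearMap.coe_mk, AddHom.coe_mk, rhoAux, Matrix.cons_val]
  ring

lemma evy_rho (g : M2) (a : Fin 7 → ℂ) (x y : ℂ) :
    evy (rho g a) x y = g 1 0 * evx a (g 0 0 * x + g 1 0 * y) (g 0 1 * x + g 1 1 * y) +
      g 1 1 * evy a (g 0 0 * x + g 1 0 * y) (g 0 1 * x + g 1 1 * y) := by
  simp only [evx, evy, rho, LinearMap.coe_mk, AddHom.coe_mk, rhoAux, Matrix.cons_val]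
  ring

lemma rho_dr {g ξ ζ : M2} (h : ζ * g = g * ξ) (a : Fin 7 → ℂ) :
    rho g (dr ξ a) = dr ζ (rho g a) := by
  apply ev_injective
  intro x y
  rw [ev_rho, ev_dr, ev_dr, evx_rho, evy_rho]
  have h00 := congrFun (congrFun h 0) 0
  have h01 := congrFun (congrFun h 0) 1
  have h10 := congrFun (congrFun h 1) 0
  have h11 := congrFun (congrFun h 1) 1
  simp only [Matrix.mul_apply, Fin.sum_univ_two] at h00 h01 h10 h11
  generalize evx a (g 0 0 * x + g 1 0 * y) (g 0 1 * x + g 1 1 * y) = A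
  generalize evy a (g 0 0 * x + g 1 0 * y) (g 0 1 * x + g 1 1 * y) = B
  linear_combination (-A * x) * h00 - (B * x) * h01 - (A * y) * h10 - (B * y) * h11

lemma dr_f0 (ξ : M2) : dr ξ f0 = tau ξ := by
  ext i
  fin_cases i <;> simp [dr, f0, tau] <;> ring

/-- discriminant of the quadratic form on the span of two vectors -/
def DD (Q : Matrix (Fin 7) (Fin 7) ℂ) (a n : Fin 7 → ℂ) : ℂ :=
  bil Q a n ^ 2 - 4 * quad Q a * quad Q n

lemma bil_comb (Q : Matrix (Fin 7) (Fin 7) ℂ) (x y x' y' : ℂ) (a b : Fin 7 → ℂ) :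
    bil Q (x • a + y • b) (x' • a + y' • b) =
      2 * (x * x') * quad Q a + (x * y' + y * x') * bil Q a b + 2 * (y * y') * quad Q b := by
  rw [bil_add_left, bil_smul_left, bil_smul_left, bil_add_right, bil_add_right, bil_smul_right,
    bil_smul_right, bil_smul_right, bil_smul_right, bil_self, bil_self, bil_comm Q b a]
  ring

lemma DD_comb (Q : Matrix (Fin 7) (Fin 7) ℂ) (x y x' y' : ℂ) (a b : Fin 7 → ℂ) :
    DD Q (x • a + y • b) (x' • a + y' • b) = (x * y' - y * x') ^ 2 * DD Q a b := by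
  rw [DD, bil_comb, quad_comb, quad_comb, DD]
  ring

lemma DD_EE (Q : Matrix (Fin 7) (Fin 7) ℂ) (g : M2) (x y x' y' : ℂ) :
    DD Q (rho g (EE x y)) (rho g (EE x' y')) = (x * y' - y * x') ^ 2 * qD Q g := by
  rw [EE_eq x y, EE_eq x' y', map_add, map_smul, map_smul, map_add, map_smul, map_smul, DD_comb]
  rfl

/-- `h`, `e`, `f` directions -/
def dH (a : Fin 7 → ℂ) : Fin 7 → ℂ := dr !![1, 0; 0, -1] a

def dE (a : Fin 7 → ℂ) : Fin 7 → ℂ := dr !![0, 1; 0, 0] a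

def dF (a : Fin 7 → ℂ) : Fin 7 → ℂ := dr !![0, 0; 1, 0] a

lemma dr_traceless (h e f : ℂ) (a : Fin 7 → ℂ) :
    dr !![h, e; f, -h] a = h • dH a + e • dE a + f • dF a := by
  ext i
  fin_cases i <;> simp [dr, dH, dE, dF] <;> ring

/-- the trace of the discriminant form -/
def trD (Q : Matrix (Fin 7) (Fin 7) ℂ) (a : Fin 7 → ℂ) : ℂ :=
  bil Q a (dH a) ^ 2 - 4 * quad Q a * quad Q (dH a) +
    2 * (2 * bil Q a (dE a) * bil Q a (dF a) - 4 * quad Q a * bil Q (dE a) (dF a))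

lemma DD_three (Q : Matrix (Fin 7) (Fin 7) ℂ) (a H E F : Fin 7 → ℂ) (h e f : ℂ) :
    DD Q a (h • H + e • E + f • F) =
      h ^ 2 * (bil Q a H ^ 2 - 4 * quad Q a * quad Q H) +
      e ^ 2 * (bil Q a E ^ 2 - 4 * quad Q a * quad Q E) +
      f ^ 2 * (bil Q a F ^ 2 - 4 * quad Q a * quad Q F) +
      h * e * (2 * bil Q a H * bil Q a E - 4 * quad Q a * bil Q H E) +
      h * f * (2 * bil Q a H * bil Q a F - 4 * quad Q a * bil Q H F) +
      e * f * (2 * bil Q a E * bil Q a F - 4 * quad Q a * bil Q E F) := by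
  have hq : quad Q (h • H + e • E + f • F) = h ^ 2 * quad Q H + e ^ 2 * quad Q E +
      f ^ 2 * quad Q F + h * e * bil Q H E + h * f * bil Q H F + e * f * bil Q E F := by
    have h1 := quad_comb Q 1 f (h • H + e • E) F
    rw [one_smul] at h1
    rw [h1, quad_comb, bil_add_left, bil_smul_left, bil_smul_left]
    ring
  rw [DD, hq, bil_add_right, bil_add_right, bil_smul_right, bil_smul_right, bil_smul_right]
  ring

/-- the three lines through an orbit point: sum of the discriminants -/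
lemma sum_DD (Q : Matrix (Fin 7) (Fin 7) ℂ) {g : M2} (hg : g.det ≠ 0) :
    ∑ i, DD Q (P g) (rho g (tau (K i))) = trD Q (P g) := by
  rw [Matrix.det_fin_two] at hg
  obtain ⟨δ, hδ⟩ : ∃ δ, δ * (g 0 0 * g 1 1 - g 0 1 * g 1 0) = 1 :=
    ⟨(g 0 0 * g 1 1 - g 0 1 * g 1 0)⁻¹, inv_mul_cancel₀ hg⟩
  have hI := Complex.I_mul_I
  generalize hp : g 0 0 = p at *
  generalize hq : g 0 1 = q at *
  generalize hr : g 1 0 = r at *
  generalize hs : g 1 1 = s at *
  have hgm : g = !![p, q; r, s] := by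
    ext i j
    fin_cases i <;> fin_cases j <;> simp [hp, hq, hr, hs]
  have t0 : rho g (tau (K 0)) = dr !![δ * (p * s + q * r), δ * (-2 * p * q);
      δ * (2 * r * s), -(δ * (p * s + q * r))] (P g) := by
    rw [← dr_f0, P]
    apply rho_dr
    rw [hgm]
    ext i j
    fin_cases i <;> fin_cases j <;> simp [K, Matrix.mul_apply, Fin.sum_univ_two]
    · linear_combination p * hδ
    · linear_combination (-q) * hδ
    · linear_combination r * hδ
    · linear_combination (-s) * hδ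
  have t1 : rho g (tau (K 1)) = dr !![δ * (q * s - p * r), δ * (p ^ 2 - q ^ 2);
      δ * (s ^ 2 - r ^ 2), -(δ * (q * s - p * r))] (P g) := by
    rw [← dr_f0, P]
    apply rho_dr
    rw [hgm]
    ext i j
    fin_cases i <;> fin_cases j <;> simp [K, Matrix.mul_apply, Fin.sum_univ_two]
    · linear_combination q * hδ
    · linear_combination p * hδ
    · linear_combination s * hδ
    · linear_combination r * hδ
  have t2 : rho g (tau (K 2)) = dr !![-(Complex.I * δ * (q * s + p * r)),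
      Complex.I * δ * (p ^ 2 + q ^ 2); -(Complex.I * δ * (s ^ 2 + r ^ 2)),
      - -(Complex.I * δ * (q * s + p * r))] (P g) := by
    rw [← dr_f0, P]
    apply rho_dr
    rw [hgm]
    ext i j
    fin_cases i <;> fin_cases j <;> simp [K, Matrix.mul_apply, Fin.sum_univ_two]
    · linear_combination (-q * Complex.I) * hδ
    · linear_combination (p * Complex.I) * hδ
    · linear_combination (-s * Complex.I) * hδ
    · linear_combination (r * Complex.I) * hδ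
  rw [Fin.sum_univ_three, t0, t1, t2, dr_traceless, dr_traceless, dr_traceless, DD_three,
    DD_three, DD_three, trD]
  generalize bil Q (P g) (dH (P g)) = bH
  generalize bil Q (P g) (dE (P g)) = bE
  generalize bil Q (P g) (dF (P g)) = bF
  generalize quad Q (P g) = qa
  generalize quad Q (dH (P g)) = qH
  generalize quad Q (dE (P g)) = qE
  generalize quad Q (dF (P g)) = qF
  generalize bil Q (dH (P g)) (dE (P g)) = bHE
  generalize bil Q (dH (P g)) (dF (P g)) = bHF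
  generalize bil Q (dE (P g)) (dF (P g)) = bEF
  have i2 : Complex.I ^ 2 = -1 := Complex.I_sq
  have hδ2 : δ ^ 2 * (p * s - q * r) ^ 2 = 1 := by
    rw [← mul_pow, hδ, one_pow]
  have c1 : (δ * (p * s + q * r)) ^ 2 + (δ * (q * s - p * r)) ^ 2 +
      (-(Complex.I * δ * (q * s + p * r))) ^ 2 = 1 := by
    linear_combination hδ2 + (δ ^ 2 * (q * s + p * r) ^ 2) * i2
  have c2 : (δ * (-2 * p * q)) ^ 2 + (δ * (p ^ 2 - q ^ 2)) ^ 2 +
      (Complex.I * δ * (p ^ 2 + q ^ 2)) ^ 2 = 0 := by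
    linear_combination (δ ^ 2 * (p ^ 2 + q ^ 2) ^ 2) * i2
  have c3 : (δ * (2 * r * s)) ^ 2 + (δ * (s ^ 2 - r ^ 2)) ^ 2 +
      (-(Complex.I * δ * (s ^ 2 + r ^ 2))) ^ 2 = 0 := by
    linear_combination (δ ^ 2 * (s ^ 2 + r ^ 2) ^ 2) * i2
  have c4 : (δ * (p * s + q * r)) * (δ * (-2 * p * q)) + (δ * (q * s - p * r)) *
      (δ * (p ^ 2 - q ^ 2)) + (-(Complex.I * δ * (q * s + p * r))) *
      (Complex.I * δ * (p ^ 2 + q ^ 2)) = 0 := by
    linear_combination (-δ ^ 2 * (q * s + p * r) * (p ^ 2 + q ^ 2)) * i2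
  have c5 : (δ * (p * s + q * r)) * (δ * (2 * r * s)) + (δ * (q * s - p * r)) *
      (δ * (s ^ 2 - r ^ 2)) + (-(Complex.I * δ * (q * s + p * r))) *
      (-(Complex.I * δ * (s ^ 2 + r ^ 2))) = 0 := by
    linear_combination (δ ^ 2 * (q * s + p * r) * (s ^ 2 + r ^ 2)) * i2
  have c6 : (δ * (-2 * p * q)) * (δ * (2 * r * s)) + (δ * (p ^ 2 - q ^ 2)) *
      (δ * (s ^ 2 - r ^ 2)) + (Complex.I * δ * (p ^ 2 + q ^ 2)) *
      (-(Complex.I * δ * (s ^ 2 + r ^ 2))) = 2 := by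
    linear_combination 2 * hδ2 - (δ ^ 2 * (p ^ 2 + q ^ 2) * (s ^ 2 + r ^ 2)) * i2
  linear_combination (bH ^ 2 - 4 * qa * qH) * c1 + (bE ^ 2 - 4 * qa * qE) * c2 +
    (bF ^ 2 - 4 * qa * qF) * c3 + (2 * bH * bE - 4 * qa * bHE) * c4 +
    (2 * bH * bF - 4 * qa * bHF) * c5 + (2 * bE * bF - 4 * qa * bEF) * c6

/-- through a point of the orbit where the trace does not vanish there is a good line -/
lemma exists_good_line {Q : Matrix (Fin 7) (Fin 7) ℂ} {a : Fin 7 → ℂ} (ha : Cone a)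
    (hI : inv6 a ≠ 0) (ht : trD Q a ≠ 0) :
    ∃ g : M2, g.det ≠ 0 ∧ qD Q g ≠ 0 ∧ ∃ x y, a = rho g (EE x y) := by
  obtain ⟨k, hk, rfl⟩ := mem_orbit_inv ha hI
  rw [← sum_DD Q hk] at ht
  obtain ⟨i, -, hi⟩ := Finset.exists_ne_zero_of_sum_ne_zero ht
  obtain ⟨g, hg, ⟨x1, y1, hf⟩, ⟨x2, y2, hτ⟩⟩ := line_translate i
  have h1 : P k = rho (k * g) (EE x1 y1) := by
    rw [rho_mul, ← hf]
    rfl
  have h2 : rho k (tau (K i)) = rho (k * g) (EE x2 y2) := by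
    rw [rho_mul, ← hτ]
  refine ⟨k * g, ?_, ?_, x1, y1, h1⟩
  · rw [Matrix.det_mul]
    exact mul_ne_zero hk hg
  · rw [h1, h2, DD_EE] at hi
    exact right_ne_zero_of_mul hi

lemma IsPoly.dr {σ : Type} {G : (σ → ℂ) → (Fin 7 → ℂ)} (hG : ∀ j, IsPoly (fun x => G x j))
    (ξ : M2) (i : Fin 7) : IsPoly (fun x => MP_6e94a1_ag.dr ξ (G x) i) := by
  fin_cases i <;>
  · simp only [MP_6e94a1_ag.dr, Fin.zero_eta, Fin.mk_one, Fin.reduceFinMk, Matrix.cons_val]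
    repeat' first
      | exact hG _
      | exact IsPoly.const _
      | apply IsPoly.add
      | apply IsPoly.mul

theorem covers {Q : Matrix (Fin 7) (Fin 7) ℂ} {a : Fin 7 → ℂ} (ha : Cone a) (hI : inv6 a ≠ 0)
    (ht : trD Q a ≠ 0) : Covers (eqX Q) (MM Q) := by
  have hl : ∀ j, IsPoly (fun v : Fin 8 → ℂ => low v j) := fun j => IsPoly.coord j.castSucc
  have hH : ∀ j, IsPoly (fun v : Fin 8 → ℂ => dH (low v) j) := fun j => IsPoly.dr hl _ j
  have hE : ∀ j, IsPoly (fun v : Fin 8 → ℂ => dE (low v) j) := fun j => IsPoly.dr hl _ j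
  have hF : ∀ j, IsPoly (fun v : Fin 8 → ℂ => dF (low v) j) := fun j => IsPoly.dr hl _ j
  have hinv : IsPoly (fun v : Fin 8 → ℂ => inv6 (low v)) :=
    ((((hl 0).mul (hl 6)).sub (((IsPoly.const 6).mul (hl 1)).mul (hl 5))).add
      (((IsPoly.const 15).mul (hl 2)).mul (hl 4))).sub ((IsPoly.const 10).mul ((hl 3).pow 2))
  have htr : IsPoly (fun v : Fin 8 → ℂ => trD Q (low v)) :=
    (((IsPoly.bil hl hH Q).pow 2).sub (((IsPoly.const 4).mul (IsPoly.quad hl Q)).mul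
      (IsPoly.quad hH Q))).add ((IsPoly.const 2).mul ((((IsPoly.const 2).mul
      (IsPoly.bil hl hE Q)).mul (IsPoly.bil hl hF Q)).sub (((IsPoly.const 4).mul
      (IsPoly.quad hl Q)).mul (IsPoly.bil hE hF Q))))
  obtain ⟨f, hf⟩ := hinv.mul htr
  simp only at hf
  refine ⟨f, ?_, ?_⟩
  · obtain ⟨w, hw⟩ := IsAlgClosed.exists_pow_nat_eq (quad Q a) (n := 2) (by norm_num)
    refine ⟨up a w, up_mem_cone ?_ ha hw, ?_⟩
    · rintro rfl
      apply hI
      simp [inv6]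
    · rw [hf, low_up]
      exact mul_ne_zero hI ht
  · intro v hv hfv
    rw [hf] at hfv
    have h1 := ((mem_cone_eqX Q v).1 hv).2.1
    obtain ⟨g, hg, hD, x, y, hxy⟩ := exists_good_line h1 (left_ne_zero_of_mul hfv)
      (right_ne_zero_of_mul hfv)
    obtain ⟨X, Y, W, hc⟩ := exists_member hg hD
    refine ⟨_, Zgen_sub_MM Q hc, fun hv0 => ?_⟩
    rw [curve_mkc hg hc.1 hv0]
    exact ⟨hv, x, y, hxy⟩

end Pool.Agent.Lib.MP_6e94a1_ag
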