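import Pool.Agent.Lib.MP_6e94a1_ag.Defs

/-!
# Projective varieties, conics, double covers of the quintic del Pezzo threefold (definitions)
-/

open scoped LinearAlgebra.Projectivization Topology
open MvPolynomial Set

namespace Pool.Agent.Lib.MP_6e94a1_ag

/-- The Zariski topology of the affine space `ℂ^σ`: the basic open sets are the non-vanishing
loci of polynomials. -/
@[reducible] def zariski (σ : Type) : TopologicalSpace (σ → ℂ) :=
  TopologicalSpace.generateFrom {U | ∃ f : MvPolynomial σ ℂ, U = {v | eval v f ≠ 0}}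

/-- `M` is an irreducible component of `S`: a maximal irreducible subset (Zariski topology). -/
def IsComponent {σ : Type} (S M : Set (σ → ℂ)) : Prop :=
  Maximal (fun T => T ⊆ S ∧ @IsIrreducible _ (zariski σ) T) M

/-- The affine cone, without its vertex, over the projective zero locus of the `F i`. -/
def cone {ι : Type} {n : ℕ} (F : ι → MvPolynomial (Fin n) ℂ) : Set (Fin n → ℂ) :=
  {v | v ≠ 0 ∧ ∀ i, eval v (F i) = 0}

/-- The projective zero locus of the (homogeneous) polynomials `F i`. -/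
def zeros {ι : Type} {n : ℕ} (F : ι → MvPolynomial (Fin n) ℂ) : Set (ℙ ℂ (Fin n → ℂ)) :=
  {p | p.rep ∈ cone F}

/-- The projective scheme defined by the `F i` is smooth of pure codimension `k`: at every zero
`v` there are `k` of the `F i` with linearly independent differentials at `v` which, after
inverting one polynomial `g` with `g(v) ≠ 0`, generate the ideal of all the `F i`. -/
def IsSmoothOfCodim {ι : Type} {n : ℕ} (F : ι → MvPolynomial (Fin n) ℂ) (k : ℕ) : Prop :=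
  ∀ v ∈ cone F, ∃ e : Fin k → ι,
    LinearIndependent ℂ (fun (a : Fin k) (j : Fin n) => eval v (pderiv j (F (e a)))) ∧
    ∃ g : MvPolynomial (Fin n) ℂ, eval v g ≠ 0 ∧
      ∀ i, g * F i ∈ Ideal.span (range fun a => F (e a))

/-- The point `c(s^2, st, t^2)`. -/
def conicPt {n : ℕ} (c : Fin n × Fin 3 → ℂ) (s t : ℂ) : Fin n → ℂ :=
  fun i => c (i, 0) * s ^ 2 + c (i, 1) * (s * t) + c (i, 2) * t ^ 2

/-- The image of `ℙ^1 → ℙ^{n-1}`, `(s : t) ↦ c(s^2, st, t^2)`. -/
def curve {n : ℕ} (c : Fin n × Fin 3 → ℂ) : Set (ℙ ℂ (Fin n → ℂ)) :=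
  {p | ∃ (s t : ℂ) (h : conicPt c s t ≠ 0), p = Projectivization.mk ℂ (conicPt c s t) h}

/-- The space of parametrised smooth conics contained in `X`: matrices `c` of rank three such
that the plane conic `curve c` lies in `X`. -/
def conics {n : ℕ} (X : Set (ℙ ℂ (Fin n → ℂ))) : Set (Fin n × Fin 3 → ℂ) :=
  {c | LinearIndependent ℂ (fun (j : Fin 3) (i : Fin n) => c (i, j)) ∧ curve c ⊆ X}

/-- The curves of the family `M` pass through all points of a non-empty Zariski open subset of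
the projective zero locus of the `F i`. -/
def Covers {ι : Type} {n : ℕ} (F : ι → MvPolynomial (Fin n) ℂ) (M : Set (Fin n × Fin 3 → ℂ)) :
    Prop :=
  ∃ f : MvPolynomial (Fin n) ℂ, (∃ v ∈ cone F, eval v f ≠ 0) ∧
    ∀ v ∈ cone F, eval v f ≠ 0 → ∃ c ∈ M, ∀ hv : v ≠ 0, Projectivization.mk ℂ v hv ∈ curve c

/-- `Φ` is a regular map on `X`: near every point of `X` it is given by homogeneous polynomials
of the same degree. -/
def IsRegularOn {n m : ℕ} (Φ : ℙ ℂ (Fin n → ℂ) → ℙ ℂ (Fin m → ℂ))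
    (X : Set (ℙ ℂ (Fin n → ℂ))) : Prop :=
  ∀ (v : Fin n → ℂ) (hv : v ≠ 0), Projectivization.mk ℂ v hv ∈ X →
    ∃ (d : ℕ) (G : Fin m → MvPolynomial (Fin n) ℂ), (∀ i, (G i).IsHomogeneous d) ∧
      (fun i => eval v (G i)) ≠ 0 ∧
      ∀ (w : Fin n → ℂ) (hw : w ≠ 0), Projectivization.mk ℂ w hw ∈ X →
        ∀ h : (fun i => eval w (G i)) ≠ 0,
          Φ (Projectivization.mk ℂ w hw) = Projectivization.mk ℂ (fun i => eval w (G i)) h

/-- `Φ` restricts to a biregular automorphism of `X`. -/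
def IsBiregularAut {n : ℕ} (X : Set (ℙ ℂ (Fin n → ℂ)))
    (Φ : ℙ ℂ (Fin n → ℂ) → ℙ ℂ (Fin n → ℂ)) : Prop :=
  MapsTo Φ X X ∧ IsRegularOn Φ X ∧
    ∃ Ψ : ℙ ℂ (Fin n → ℂ) → ℙ ℂ (Fin n → ℂ), MapsTo Ψ X X ∧ IsRegularOn Ψ X ∧
      (∀ p ∈ X, Ψ (Φ p) = p) ∧ ∀ p ∈ X, Φ (Ψ p) = p

/-- The six quadrics in `ℙ^7` defining the double cover of the quintic del Pezzo threefold
`V₅ ⊂ ℙ^6` (first five quadrics, in the coordinates `0, ..., 6`) branched along the intersection
of `V₅` with the quadric of the matrix `Q`. -/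
noncomputable def eqX (Q : Matrix (Fin 7) (Fin 7) ℂ) : Fin 6 → MvPolynomial (Fin 8) ℂ :=
  ![X 0 * X 4 - 4 * X 1 * X 3 + 3 * X 2 ^ 2,
    X 0 * X 5 - 3 * X 1 * X 4 + 2 * X 2 * X 3,
    X 0 * X 6 - 9 * X 2 * X 4 + 8 * X 3 ^ 2,
    X 1 * X 6 - 3 * X 2 * X 5 + 2 * X 3 * X 4,
    X 2 * X 6 - 4 * X 3 * X 5 + 3 * X 4 ^ 2,
    X 7 ^ 2 - ∑ i : Fin 7, ∑ j : Fin 7, C (Q i j) * X i.castSucc * X j.castSucc]

end Pool.Agent.Lib.MP_6e94a1_ag
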