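import Pool.Agent.Lib.MP_6e94a1_ag.CovSmooth

/-!
# The conormal form of the quintic del Pezzo threefold
-/

open MvPolynomial Set

set_option linter.all false

namespace Pool.Agent.Lib.MP_6e94a1_ag

/-- a multiple of a quadratic monomial -/
noncomputable def qm (c : ℂ) (p q : Fin 8) : MvPolynomial (Fin 8) ℂ := C c * X p * X q

lemma qm_hom (c : ℂ) (p q : Fin 8) : (qm c p q).IsHomogeneous 2 := by
  unfold qm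
  have h1 := (isHomogeneous_C (Fin 8) c).mul (isHomogeneous_X ℂ p)
  have h2 := h1.mul (isHomogeneous_X ℂ q)
  simpa using h2

lemma eval_qm (v : Fin 8 → ℂ) (c : ℂ) (p q : Fin 8) : eval v (qm c p q) = c * v p * v q := by
  simp [qm]

/-- the gradients of the five quadrics -/
def gr (v : Fin 8 → ℂ) : Fin 5 → Fin 8 → ℂ :=
  ![![v 4, -4 * v 3, 6 * v 2, -4 * v 1, v 0, 0, 0, 0],
    ![v 5, -3 * v 4, 2 * v 3, 2 * v 2, -3 * v 1, v 0, 0, 0],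
    ![v 6, 0, -9 * v 4, 16 * v 3, -9 * v 2, 0, v 0, 0],
    ![0, v 6, -3 * v 5, 2 * v 4, 2 * v 3, -3 * v 2, v 1, 0],
    ![0, 0, v 6, -4 * v 5, 6 * v 4, -4 * v 3, v 2, 0]]

/-- the quadratic polynomials of the conormal form, for increasing indices -/
noncomputable def etaP : ℕ → ℕ → ℕ → MvPolynomial (Fin 8) ℂ
  | 0, 1, 2 => qm 1 6 6
  | 0, 1, 3 => qm (-4) 5 6
  | 0, 1, 4 => qm 6 4 6
  | 0, 1, 5 => qm (-4) 3 6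
  | 0, 1, 6 => qm 4 3 5 + qm (-3) 4 4
  | 0, 2, 3 => qm (-2) 4 6 + qm 12 5 5
  | 0, 2, 4 => qm (-2) 3 6 + qm (-18) 4 5
  | 0, 2, 5 => qm 6 2 6 + qm 9 4 4
  | 0, 2, 6 => qm (-6) 2 5 + qm 2 3 4
  | 0, 3, 4 => qm (-2) 2 6 + qm 16 3 5 + qm 6 4 4
  | 0, 3, 5 => qm (-4) 1 6 + qm (-16) 3 4
  | 0, 3, 6 => qm 4 1 5 + qm 2 2 4
  | 0, 4, 5 => qm 1 0 6 + qm 9 2 4
  | 0, 4, 6 => qm (-1) 0 5 + qm (-3) 1 4
  | 0, 5, 6 => qm 1 0 4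
  | 1, 2, 3 => qm 16 3 6 + qm (-36) 4 5
  | 1, 2, 4 => qm (-36) 3 5 + qm 81 4 4
  | 1, 2, 5 => qm (-36) 3 4
  | 1, 2, 6 => qm 18 2 4 + qm (-8) 3 3
  | 1, 3, 4 => qm 36 2 5 + qm (-96) 3 4
  | 1, 3, 5 => qm 64 3 3
  | 1, 3, 6 => qm (-12) 1 4 + qm (-8) 2 3
  | 1, 4, 5 => qm (-36) 2 3
  | 1, 4, 6 => qm 3 0 4 + qm 12 1 3
  | 1, 5, 6 => qm (-4) 0 3
  | 2, 3, 4 => qm (-36) 1 5 + qm 54 2 4 + qm 32 3 3
  | 2, 3, 5 => qm 36 1 4 + qm (-96) 2 3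
  | 2, 3, 6 => qm 8 1 3 + qm 12 2 2
  | 2, 4, 5 => qm (-9) 0 4 + qm 54 2 2
  | 2, 4, 6 => qm (-2) 0 3 + qm (-18) 1 2
  | 2, 5, 6 => qm 6 0 2
  | 3, 4, 5 => qm 16 0 3 + qm (-36) 1 2
  | 3, 4, 6 => qm (-2) 0 2 + qm 12 1 1
  | 3, 5, 6 => qm (-4) 0 1
  | 4, 5, 6 => qm 1 0 0
  | _, _, _ => 0

/-- the 3 x 3 minors of the gradients -/
def D3 (v : Fin 8 → ℂ) (a b c : Fin 5) (i j k : Fin 8) : ℂ :=
  gr v a i * (gr v b j * gr v c k - gr v b k * gr v c j) -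
    gr v a j * (gr v b i * gr v c k - gr v b k * gr v c i) +
    gr v a k * (gr v b i * gr v c j - gr v b j * gr v c i)

lemma mi_012 (v : Fin 8 → ℂ)
    (h0 : v 0 * v 4 - 4 * v 1 * v 3 + 3 * v 2 ^ 2 = 0)
    (h1 : v 0 * v 5 - 3 * v 1 * v 4 + 2 * v 2 * v 3 = 0)
    (h2 : v 0 * v 6 - 9 * v 2 * v 4 + 8 * v 3 ^ 2 = 0)
    (h3 : v 1 * v 6 - 3 * v 2 * v 5 + 2 * v 3 * v 4 = 0)
    (h4 : v 2 * v 6 - 4 * v 3 * v 5 + 3 * v 4 ^ 2 = 0) :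
    D3 v 0 1 2 0 1 2 = (v 0) * eval v (etaP 0 1 2) ∧
    D3 v 4 3 2 0 1 2 = (-v 6) * eval v (etaP 0 1 2) ∧
    D3 v 0 1 3 0 1 2 = (v 1) * eval v (etaP 0 1 2) ∧
    D3 v 4 3 1 0 1 2 = (-v 5) * eval v (etaP 0 1 2) := by
  have he : eval v (etaP 0 1 2) = 1 * v 6 * v 6 := by
    show eval v (qm 1 6 6) = _
    simp only [map_add, eval_qm]
  rw [he]
  refine ⟨?_, ?_, ?_, ?_⟩
  · show (v 4) * ((-3 * v 4) * (-9 * v 4) - (2 * v 3) * (0)) -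
      (-4 * v 3) * ((v 5) * (-9 * v 4) - (2 * v 3) * (v 6)) +
      (6 * v 2) * ((v 5) * (0) - (-3 * v 4) * (v 6)) = (v 0) * (1 * v 6 * v 6)
    linear_combination (-1) * v 6 * h2 + 9 * v 4 * h4
  · show (0) * ((v 6) * (-9 * v 4) - (-3 * v 5) * (0)) -
      (0) * ((0) * (-9 * v 4) - (-3 * v 5) * (v 6)) +
      (v 6) * ((0) * (0) - (v 6) * (v 6)) = (-v 6) * (1 * v 6 * v 6)
    ring
  · show (v 4) * ((-3 * v 4) * (-3 * v 5) - (2 * v 3) * (v 6)) -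
      (-4 * v 3) * ((v 5) * (-3 * v 5) - (2 * v 3) * (0)) +
      (6 * v 2) * ((v 5) * (v 6) - (-3 * v 4) * (0)) = (v 1) * (1 * v 6 * v 6)
    linear_combination (-1) * v 6 * h3 + 3 * v 5 * h4
  · show (0) * ((v 6) * (2 * v 3) - (-3 * v 5) * (-3 * v 4)) -
      (0) * ((0) * (2 * v 3) - (-3 * v 5) * (v 5)) +
      (v 6) * ((0) * (-3 * v 4) - (v 6) * (v 5)) = (-v 5) * (1 * v 6 * v 6)
    ring

lemma mi_013 (v : Fin 8 → ℂ)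
    (h0 : v 0 * v 4 - 4 * v 1 * v 3 + 3 * v 2 ^ 2 = 0)
    (h1 : v 0 * v 5 - 3 * v 1 * v 4 + 2 * v 2 * v 3 = 0)
    (h2 : v 0 * v 6 - 9 * v 2 * v 4 + 8 * v 3 ^ 2 = 0)
    (h3 : v 1 * v 6 - 3 * v 2 * v 5 + 2 * v 3 * v 4 = 0)
    (h4 : v 2 * v 6 - 4 * v 3 * v 5 + 3 * v 4 ^ 2 = 0) :
    D3 v 0 1 2 0 1 3 = (v 0) * eval v (etaP 0 1 3) ∧
    D3 v 4 3 2 0 1 3 = (-v 6) * eval v (etaP 0 1 3) ∧
    D3 v 0 1 3 0 1 3 = (v 1) * eval v (etaP 0 1 3) ∧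
    D3 v 4 3 1 0 1 3 = (-v 5) * eval v (etaP 0 1 3) := by
  have he : eval v (etaP 0 1 3) = (-4) * v 5 * v 6 := by
    show eval v (qm (-4) 5 6) = _
    simp only [map_add, eval_qm]
  rw [he]
  refine ⟨?_, ?_, ?_, ?_⟩
  · show (v 4) * ((-3 * v 4) * (16 * v 3) - (2 * v 2) * (0)) -
      (-4 * v 3) * ((v 5) * (16 * v 3) - (2 * v 2) * (v 6)) +
      (-4 * v 1) * ((v 5) * (0) - (-3 * v 4) * (v 6)) = (v 0) * ((-4) * v 5 * v 6)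
    linear_combination (-4) * v 6 * h1 + 8 * v 5 * h2 + (-24) * v 4 * h3
  · show (0) * ((v 6) * (16 * v 3) - (2 * v 4) * (0)) -
      (0) * ((0) * (16 * v 3) - (2 * v 4) * (v 6)) +
      (-4 * v 5) * ((0) * (0) - (v 6) * (v 6)) = (-v 6) * ((-4) * v 5 * v 6)
    ring
  · show (v 4) * ((-3 * v 4) * (2 * v 4) - (2 * v 2) * (v 6)) -
      (-4 * v 3) * ((v 5) * (2 * v 4) - (2 * v 2) * (0)) +
      (-4 * v 1) * ((v 5) * (v 6) - (-3 * v 4) * (0)) = (v 1) * ((-4) * v 5 * v 6)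
    linear_combination (-2) * v 4 * h4
  · show (0) * ((v 6) * (2 * v 2) - (2 * v 4) * (-3 * v 4)) -
      (0) * ((0) * (2 * v 2) - (2 * v 4) * (v 5)) +
      (-4 * v 5) * ((0) * (-3 * v 4) - (v 6) * (v 5)) = (-v 5) * ((-4) * v 5 * v 6)
    ring

lemma mi_014 (v : Fin 8 → ℂ)
    (h0 : v 0 * v 4 - 4 * v 1 * v 3 + 3 * v 2 ^ 2 = 0)
    (h1 : v 0 * v 5 - 3 * v 1 * v 4 + 2 * v 2 * v 3 = 0)
    (h2 : v 0 * v 6 - 9 * v 2 * v 4 + 8 * v 3 ^ 2 = 0)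
    (h3 : v 1 * v 6 - 3 * v 2 * v 5 + 2 * v 3 * v 4 = 0)
    (h4 : v 2 * v 6 - 4 * v 3 * v 5 + 3 * v 4 ^ 2 = 0) :
    D3 v 0 1 2 0 1 4 = (v 0) * eval v (etaP 0 1 4) ∧
    D3 v 4 3 2 0 1 4 = (-v 6) * eval v (etaP 0 1 4) ∧
    D3 v 0 1 3 0 1 4 = (v 1) * eval v (etaP 0 1 4) ∧
    D3 v 4 3 1 0 1 4 = (-v 5) * eval v (etaP 0 1 4) := by
  have he : eval v (etaP 0 1 4) = 6 * v 4 * v 6 := by
    show eval v (qm 6 4 6) = _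
    simp only [map_add, eval_qm]
  rw [he]
  refine ⟨?_, ?_, ?_, ?_⟩
  · show (v 4) * ((-3 * v 4) * (-9 * v 2) - (-3 * v 1) * (0)) -
      (-4 * v 3) * ((v 5) * (-9 * v 2) - (-3 * v 1) * (v 6)) +
      (v 0) * ((v 5) * (0) - (-3 * v 4) * (v 6)) = (v 0) * (6 * v 4 * v 6)
    linear_combination (-3) * v 4 * h2 + 12 * v 3 * h3
  · show (0) * ((v 6) * (-9 * v 2) - (2 * v 3) * (0)) -
      (0) * ((0) * (-9 * v 2) - (2 * v 3) * (v 6)) +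
      (6 * v 4) * ((0) * (0) - (v 6) * (v 6)) = (-v 6) * (6 * v 4 * v 6)
    ring
  · show (v 4) * ((-3 * v 4) * (2 * v 3) - (-3 * v 1) * (v 6)) -
      (-4 * v 3) * ((v 5) * (2 * v 3) - (-3 * v 1) * (0)) +
      (v 0) * ((v 5) * (v 6) - (-3 * v 4) * (0)) = (v 1) * (6 * v 4 * v 6)
    linear_combination 1 * v 5 * h2 + (-3) * v 4 * h3
  · show (0) * ((v 6) * (-3 * v 1) - (2 * v 3) * (-3 * v 4)) -
      (0) * ((0) * (-3 * v 1) - (2 * v 3) * (v 5)) +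
      (6 * v 4) * ((0) * (-3 * v 4) - (v 6) * (v 5)) = (-v 5) * (6 * v 4 * v 6)
    ring

lemma mi_015 (v : Fin 8 → ℂ)
    (h0 : v 0 * v 4 - 4 * v 1 * v 3 + 3 * v 2 ^ 2 = 0)
    (h1 : v 0 * v 5 - 3 * v 1 * v 4 + 2 * v 2 * v 3 = 0)
    (h2 : v 0 * v 6 - 9 * v 2 * v 4 + 8 * v 3 ^ 2 = 0)
    (h3 : v 1 * v 6 - 3 * v 2 * v 5 + 2 * v 3 * v 4 = 0)
    (h4 : v 2 * v 6 - 4 * v 3 * v 5 + 3 * v 4 ^ 2 = 0) :
    D3 v 0 1 2 0 1 5 = (v 0) * eval v (etaP 0 1 5) ∧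
    D3 v 4 3 2 0 1 5 = (-v 6) * eval v (etaP 0 1 5) ∧
    D3 v 0 1 3 0 1 5 = (v 1) * eval v (etaP 0 1 5) ∧
    D3 v 4 3 1 0 1 5 = (-v 5) * eval v (etaP 0 1 5) := by
  have he : eval v (etaP 0 1 5) = (-4) * v 3 * v 6 := by
    show eval v (qm (-4) 3 6) = _
    simp only [map_add, eval_qm]
  rw [he]
  refine ⟨?_, ?_, ?_, ?_⟩
  · show (v 4) * ((-3 * v 4) * (0) - (v 0) * (0)) -
      (-4 * v 3) * ((v 5) * (0) - (v 0) * (v 6)) +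
      (0) * ((v 5) * (0) - (-3 * v 4) * (v 6)) = (v 0) * ((-4) * v 3 * v 6)
    ring
  · show (0) * ((v 6) * (0) - (-3 * v 2) * (0)) -
      (0) * ((0) * (0) - (-3 * v 2) * (v 6)) +
      (-4 * v 3) * ((0) * (0) - (v 6) * (v 6)) = (-v 6) * ((-4) * v 3 * v 6)
    ring
  · show (v 4) * ((-3 * v 4) * (-3 * v 2) - (v 0) * (v 6)) -
      (-4 * v 3) * ((v 5) * (-3 * v 2) - (v 0) * (0)) +
      (0) * ((v 5) * (v 6) - (-3 * v 4) * (0)) = (v 1) * ((-4) * v 3 * v 6)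
    linear_combination (-1) * v 4 * h2 + 4 * v 3 * h3
  · show (0) * ((v 6) * (v 0) - (-3 * v 2) * (-3 * v 4)) -
      (0) * ((0) * (v 0) - (-3 * v 2) * (v 5)) +
      (-4 * v 3) * ((0) * (-3 * v 4) - (v 6) * (v 5)) = (-v 5) * ((-4) * v 3 * v 6)
    ring

lemma mi_016 (v : Fin 8 → ℂ)
    (h0 : v 0 * v 4 - 4 * v 1 * v 3 + 3 * v 2 ^ 2 = 0)
    (h1 : v 0 * v 5 - 3 * v 1 * v 4 + 2 * v 2 * v 3 = 0)
    (h2 : v 0 * v 6 - 9 * v 2 * v 4 + 8 * v 3 ^ 2 = 0)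
    (h3 : v 1 * v 6 - 3 * v 2 * v 5 + 2 * v 3 * v 4 = 0)
    (h4 : v 2 * v 6 - 4 * v 3 * v 5 + 3 * v 4 ^ 2 = 0) :
    D3 v 0 1 2 0 1 6 = (v 0) * eval v (etaP 0 1 6) ∧
    D3 v 4 3 2 0 1 6 = (-v 6) * eval v (etaP 0 1 6) ∧
    D3 v 0 1 3 0 1 6 = (v 1) * eval v (etaP 0 1 6) ∧
    D3 v 4 3 1 0 1 6 = (-v 5) * eval v (etaP 0 1 6) := by
  have he : eval v (etaP 0 1 6) = 4 * v 3 * v 5 + (-3) * v 4 * v 4 := by
    show eval v (qm 4 3 5 + qm (-3) 4 4) = _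
    simp only [map_add, eval_qm]
  rw [he]
  refine ⟨?_, ?_, ?_, ?_⟩
  · show (v 4) * ((-3 * v 4) * (v 0) - (0) * (0)) -
      (-4 * v 3) * ((v 5) * (v 0) - (0) * (v 6)) +
      (0) * ((v 5) * (0) - (-3 * v 4) * (v 6)) = (v 0) * (4 * v 3 * v 5 + (-3) * v 4 * v 4)
    ring
  · show (0) * ((v 6) * (v 0) - (v 1) * (0)) -
      (0) * ((0) * (v 0) - (v 1) * (v 6)) +
      (v 2) * ((0) * (0) - (v 6) * (v 6)) = (-v 6) * (4 * v 3 * v 5 + (-3) * v 4 * v 4)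
    linear_combination (-1) * v 6 * h4
  · show (v 4) * ((-3 * v 4) * (v 1) - (0) * (v 6)) -
      (-4 * v 3) * ((v 5) * (v 1) - (0) * (0)) +
      (0) * ((v 5) * (v 6) - (-3 * v 4) * (0)) = (v 1) * (4 * v 3 * v 5 + (-3) * v 4 * v 4)
    ring
  · show (0) * ((v 6) * (0) - (v 1) * (-3 * v 4)) -
      (0) * ((0) * (0) - (v 1) * (v 5)) +
      (v 2) * ((0) * (-3 * v 4) - (v 6) * (v 5)) = (-v 5) * (4 * v 3 * v 5 + (-3) * v 4 * v 4)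
    linear_combination (-1) * v 5 * h4

lemma mi_023 (v : Fin 8 → ℂ)
    (h0 : v 0 * v 4 - 4 * v 1 * v 3 + 3 * v 2 ^ 2 = 0)
    (h1 : v 0 * v 5 - 3 * v 1 * v 4 + 2 * v 2 * v 3 = 0)
    (h2 : v 0 * v 6 - 9 * v 2 * v 4 + 8 * v 3 ^ 2 = 0)
    (h3 : v 1 * v 6 - 3 * v 2 * v 5 + 2 * v 3 * v 4 = 0)
    (h4 : v 2 * v 6 - 4 * v 3 * v 5 + 3 * v 4 ^ 2 = 0) :
    D3 v 0 1 2 0 2 3 = (v 0) * eval v (etaP 0 2 3) ∧
    D3 v 4 3 2 0 2 3 = (-v 6) * eval v (etaP 0 2 3) ∧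
    D3 v 0 1 3 0 2 3 = (v 1) * eval v (etaP 0 2 3) ∧
    D3 v 4 3 1 0 2 3 = (-v 5) * eval v (etaP 0 2 3) := by
  have he : eval v (etaP 0 2 3) = (-2) * v 4 * v 6 + 12 * v 5 * v 5 := by
    show eval v (qm (-2) 4 6 + qm 12 5 5) = _
    simp only [map_add, eval_qm]
  rw [he]
  refine ⟨?_, ?_, ?_, ?_⟩
  · show (v 4) * ((2 * v 3) * (16 * v 3) - (2 * v 2) * (-9 * v 4)) -
      (6 * v 2) * ((v 5) * (16 * v 3) - (2 * v 2) * (v 6)) +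
      (-4 * v 1) * ((v 5) * (-9 * v 4) - (2 * v 3) * (v 6)) = (v 0) * ((-2) * v 4 * v 6 + 12 * v 5 * v 5)
    linear_combination 4 * v 6 * h0 + (-12) * v 5 * h1 + (-2) * v 4 * h2 + 24 * v 3 * h3
  · show (0) * ((-3 * v 5) * (16 * v 3) - (2 * v 4) * (-9 * v 4)) -
      (v 6) * ((0) * (16 * v 3) - (2 * v 4) * (v 6)) +
      (-4 * v 5) * ((0) * (-9 * v 4) - (-3 * v 5) * (v 6)) = (-v 6) * ((-2) * v 4 * v 6 + 12 * v 5 * v 5)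
    ring
  · show (v 4) * ((2 * v 3) * (2 * v 4) - (2 * v 2) * (-3 * v 5)) -
      (6 * v 2) * ((v 5) * (2 * v 4) - (2 * v 2) * (0)) +
      (-4 * v 1) * ((v 5) * (-3 * v 5) - (2 * v 3) * (0)) = (v 1) * ((-2) * v 4 * v 6 + 12 * v 5 * v 5)
    linear_combination 2 * v 4 * h3
  · show (0) * ((-3 * v 5) * (2 * v 2) - (2 * v 4) * (2 * v 3)) -
      (v 6) * ((0) * (2 * v 2) - (2 * v 4) * (v 5)) +
      (-4 * v 5) * ((0) * (2 * v 3) - (-3 * v 5) * (v 5)) = (-v 5) * ((-2) * v 4 * v 6 + 12 * v 5 * v 5)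
    ring

lemma mi_024 (v : Fin 8 → ℂ)
    (h0 : v 0 * v 4 - 4 * v 1 * v 3 + 3 * v 2 ^ 2 = 0)
    (h1 : v 0 * v 5 - 3 * v 1 * v 4 + 2 * v 2 * v 3 = 0)
    (h2 : v 0 * v 6 - 9 * v 2 * v 4 + 8 * v 3 ^ 2 = 0)
    (h3 : v 1 * v 6 - 3 * v 2 * v 5 + 2 * v 3 * v 4 = 0)
    (h4 : v 2 * v 6 - 4 * v 3 * v 5 + 3 * v 4 ^ 2 = 0) :
    D3 v 0 1 2 0 2 4 = (v 0) * eval v (etaP 0 2 4) ∧
    D3 v 4 3 2 0 2 4 = (-v 6) * eval v (etaP 0 2 4) ∧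
    D3 v 0 1 3 0 2 4 = (v 1) * eval v (etaP 0 2 4) ∧
    D3 v 4 3 1 0 2 4 = (-v 5) * eval v (etaP 0 2 4) := by
  have he : eval v (etaP 0 2 4) = (-2) * v 3 * v 6 + (-18) * v 4 * v 5 := by
    show eval v (qm (-2) 3 6 + qm (-18) 4 5) = _
    simp only [map_add, eval_qm]
  rw [he]
  refine ⟨?_, ?_, ?_, ?_⟩
  · show (v 4) * ((2 * v 3) * (-9 * v 2) - (-3 * v 1) * (-9 * v 4)) -
      (6 * v 2) * ((v 5) * (-9 * v 2) - (-3 * v 1) * (v 6)) +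
      (v 0) * ((v 5) * (-9 * v 4) - (2 * v 3) * (v 6)) = (v 0) * ((-2) * v 3 * v 6 + (-18) * v 4 * v 5)
    linear_combination 9 * v 4 * h1 + (-18) * v 2 * h3
  · show (0) * ((-3 * v 5) * (-9 * v 2) - (2 * v 3) * (-9 * v 4)) -
      (v 6) * ((0) * (-9 * v 2) - (2 * v 3) * (v 6)) +
      (6 * v 4) * ((0) * (-9 * v 4) - (-3 * v 5) * (v 6)) = (-v 6) * ((-2) * v 3 * v 6 + (-18) * v 4 * v 5)
    ring
  · show (v 4) * ((2 * v 3) * (2 * v 3) - (-3 * v 1) * (-3 * v 5)) -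
      (6 * v 2) * ((v 5) * (2 * v 3) - (-3 * v 1) * (0)) +
      (v 0) * ((v 5) * (-3 * v 5) - (2 * v 3) * (0)) = (v 1) * ((-2) * v 3 * v 6 + (-18) * v 4 * v 5)
    linear_combination (-3) * v 5 * h1 + 2 * v 3 * h3
  · show (0) * ((-3 * v 5) * (-3 * v 1) - (2 * v 3) * (2 * v 3)) -
      (v 6) * ((0) * (-3 * v 1) - (2 * v 3) * (v 5)) +
      (6 * v 4) * ((0) * (2 * v 3) - (-3 * v 5) * (v 5)) = (-v 5) * ((-2) * v 3 * v 6 + (-18) * v 4 * v 5)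
    ring

lemma mi_025 (v : Fin 8 → ℂ)
    (h0 : v 0 * v 4 - 4 * v 1 * v 3 + 3 * v 2 ^ 2 = 0)
    (h1 : v 0 * v 5 - 3 * v 1 * v 4 + 2 * v 2 * v 3 = 0)
    (h2 : v 0 * v 6 - 9 * v 2 * v 4 + 8 * v 3 ^ 2 = 0)
    (h3 : v 1 * v 6 - 3 * v 2 * v 5 + 2 * v 3 * v 4 = 0)
    (h4 : v 2 * v 6 - 4 * v 3 * v 5 + 3 * v 4 ^ 2 = 0) :
    D3 v 0 1 2 0 2 5 = (v 0) * eval v (etaP 0 2 5) ∧
    D3 v 4 3 2 0 2 5 = (-v 6) * eval v (etaP 0 2 5) ∧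
    D3 v 0 1 3 0 2 5 = (v 1) * eval v (etaP 0 2 5) ∧
    D3 v 4 3 1 0 2 5 = (-v 5) * eval v (etaP 0 2 5) := by
  have he : eval v (etaP 0 2 5) = 6 * v 2 * v 6 + 9 * v 4 * v 4 := by
    show eval v (qm 6 2 6 + qm 9 4 4) = _
    simp only [map_add, eval_qm]
  rw [he]
  refine ⟨?_, ?_, ?_, ?_⟩
  · show (v 4) * ((2 * v 3) * (0) - (v 0) * (-9 * v 4)) -
      (6 * v 2) * ((v 5) * (0) - (v 0) * (v 6)) +
      (0) * ((v 5) * (-9 * v 4) - (2 * v 3) * (v 6)) = (v 0) * (6 * v 2 * v 6 + 9 * v 4 * v 4)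
    ring
  · show (0) * ((-3 * v 5) * (0) - (-3 * v 2) * (-9 * v 4)) -
      (v 6) * ((0) * (0) - (-3 * v 2) * (v 6)) +
      (-4 * v 3) * ((0) * (-9 * v 4) - (-3 * v 5) * (v 6)) = (-v 6) * (6 * v 2 * v 6 + 9 * v 4 * v 4)
    linear_combination 3 * v 6 * h4
  · show (v 4) * ((2 * v 3) * (-3 * v 2) - (v 0) * (-3 * v 5)) -
      (6 * v 2) * ((v 5) * (-3 * v 2) - (v 0) * (0)) +
      (0) * ((v 5) * (-3 * v 5) - (2 * v 3) * (0)) = (v 1) * (6 * v 2 * v 6 + 9 * v 4 * v 4)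
    linear_combination 3 * v 4 * h1 + (-6) * v 2 * h3
  · show (0) * ((-3 * v 5) * (v 0) - (-3 * v 2) * (2 * v 3)) -
      (v 6) * ((0) * (v 0) - (-3 * v 2) * (v 5)) +
      (-4 * v 3) * ((0) * (2 * v 3) - (-3 * v 5) * (v 5)) = (-v 5) * (6 * v 2 * v 6 + 9 * v 4 * v 4)
    linear_combination 3 * v 5 * h4

lemma mi_026 (v : Fin 8 → ℂ)
    (h0 : v 0 * v 4 - 4 * v 1 * v 3 + 3 * v 2 ^ 2 = 0)
    (h1 : v 0 * v 5 - 3 * v 1 * v 4 + 2 * v 2 * v 3 = 0)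
    (h2 : v 0 * v 6 - 9 * v 2 * v 4 + 8 * v 3 ^ 2 = 0)
    (h3 : v 1 * v 6 - 3 * v 2 * v 5 + 2 * v 3 * v 4 = 0)
    (h4 : v 2 * v 6 - 4 * v 3 * v 5 + 3 * v 4 ^ 2 = 0) :
    D3 v 0 1 2 0 2 6 = (v 0) * eval v (etaP 0 2 6) ∧
    D3 v 4 3 2 0 2 6 = (-v 6) * eval v (etaP 0 2 6) ∧
    D3 v 0 1 3 0 2 6 = (v 1) * eval v (etaP 0 2 6) ∧
    D3 v 4 3 1 0 2 6 = (-v 5) * eval v (etaP 0 2 6) := by
  have he : eval v (etaP 0 2 6) = (-6) * v 2 * v 5 + 2 * v 3 * v 4 := by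
    show eval v (qm (-6) 2 5 + qm 2 3 4) = _
    simp only [map_add, eval_qm]
  rw [he]
  refine ⟨?_, ?_, ?_, ?_⟩
  · show (v 4) * ((2 * v 3) * (v 0) - (0) * (-9 * v 4)) -
      (6 * v 2) * ((v 5) * (v 0) - (0) * (v 6)) +
      (0) * ((v 5) * (-9 * v 4) - (2 * v 3) * (v 6)) = (v 0) * ((-6) * v 2 * v 5 + 2 * v 3 * v 4)
    ring
  · show (0) * ((-3 * v 5) * (v 0) - (v 1) * (-9 * v 4)) -
      (v 6) * ((0) * (v 0) - (v 1) * (v 6)) +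
      (v 2) * ((0) * (-9 * v 4) - (-3 * v 5) * (v 6)) = (-v 6) * ((-6) * v 2 * v 5 + 2 * v 3 * v 4)
    linear_combination 1 * v 6 * h3
  · show (v 4) * ((2 * v 3) * (v 1) - (0) * (-3 * v 5)) -
      (6 * v 2) * ((v 5) * (v 1) - (0) * (0)) +
      (0) * ((v 5) * (-3 * v 5) - (2 * v 3) * (0)) = (v 1) * ((-6) * v 2 * v 5 + 2 * v 3 * v 4)
    ring
  · show (0) * ((-3 * v 5) * (0) - (v 1) * (2 * v 3)) -
      (v 6) * ((0) * (0) - (v 1) * (v 5)) +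
      (v 2) * ((0) * (2 * v 3) - (-3 * v 5) * (v 5)) = (-v 5) * ((-6) * v 2 * v 5 + 2 * v 3 * v 4)
    linear_combination 1 * v 5 * h3

lemma mi_034 (v : Fin 8 → ℂ)
    (h0 : v 0 * v 4 - 4 * v 1 * v 3 + 3 * v 2 ^ 2 = 0)
    (h1 : v 0 * v 5 - 3 * v 1 * v 4 + 2 * v 2 * v 3 = 0)
    (h2 : v 0 * v 6 - 9 * v 2 * v 4 + 8 * v 3 ^ 2 = 0)
    (h3 : v 1 * v 6 - 3 * v 2 * v 5 + 2 * v 3 * v 4 = 0)
    (h4 : v 2 * v 6 - 4 * v 3 * v 5 + 3 * v 4 ^ 2 = 0) :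
    D3 v 0 1 2 0 3 4 = (v 0) * eval v (etaP 0 3 4) ∧
    D3 v 4 3 2 0 3 4 = (-v 6) * eval v (etaP 0 3 4) ∧
    D3 v 0 1 3 0 3 4 = (v 1) * eval v (etaP 0 3 4) ∧
    D3 v 4 3 1 0 3 4 = (-v 5) * eval v (etaP 0 3 4) := by
  have he : eval v (etaP 0 3 4) = (-2) * v 2 * v 6 + 16 * v 3 * v 5 + 6 * v 4 * v 4 := by
    show eval v (qm (-2) 2 6 + qm 16 3 5 + qm 6 4 4) = _
    simp only [map_add, eval_qm]
  rw [he]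
  refine ⟨?_, ?_, ?_, ?_⟩
  · show (v 4) * ((2 * v 2) * (-9 * v 2) - (-3 * v 1) * (16 * v 3)) -
      (-4 * v 1) * ((v 5) * (-9 * v 2) - (-3 * v 1) * (v 6)) +
      (v 0) * ((v 5) * (16 * v 3) - (2 * v 2) * (v 6)) = (v 0) * ((-2) * v 2 * v 6 + 16 * v 3 * v 5 + 6 * v 4 * v 4)
    linear_combination (-6) * v 4 * h0 + 12 * v 1 * h3
  · show (0) * ((2 * v 4) * (-9 * v 2) - (2 * v 3) * (16 * v 3)) -
      (-4 * v 5) * ((0) * (-9 * v 2) - (2 * v 3) * (v 6)) +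
      (6 * v 4) * ((0) * (16 * v 3) - (2 * v 4) * (v 6)) = (-v 6) * ((-2) * v 2 * v 6 + 16 * v 3 * v 5 + 6 * v 4 * v 4)
    linear_combination (-2) * v 6 * h4
  · show (v 4) * ((2 * v 2) * (2 * v 3) - (-3 * v 1) * (2 * v 4)) -
      (-4 * v 1) * ((v 5) * (2 * v 3) - (-3 * v 1) * (0)) +
      (v 0) * ((v 5) * (2 * v 4) - (2 * v 2) * (0)) = (v 1) * ((-2) * v 2 * v 6 + 16 * v 3 * v 5 + 6 * v 4 * v 4)
    linear_combination 2 * v 5 * h0 + 2 * v 2 * h3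
  · show (0) * ((2 * v 4) * (-3 * v 1) - (2 * v 3) * (2 * v 2)) -
      (-4 * v 5) * ((0) * (-3 * v 1) - (2 * v 3) * (v 5)) +
      (6 * v 4) * ((0) * (2 * v 2) - (2 * v 4) * (v 5)) = (-v 5) * ((-2) * v 2 * v 6 + 16 * v 3 * v 5 + 6 * v 4 * v 4)
    linear_combination (-2) * v 5 * h4

lemma mi_035 (v : Fin 8 → ℂ)
    (h0 : v 0 * v 4 - 4 * v 1 * v 3 + 3 * v 2 ^ 2 = 0)
    (h1 : v 0 * v 5 - 3 * v 1 * v 4 + 2 * v 2 * v 3 = 0)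
    (h2 : v 0 * v 6 - 9 * v 2 * v 4 + 8 * v 3 ^ 2 = 0)
    (h3 : v 1 * v 6 - 3 * v 2 * v 5 + 2 * v 3 * v 4 = 0)
    (h4 : v 2 * v 6 - 4 * v 3 * v 5 + 3 * v 4 ^ 2 = 0) :
    D3 v 0 1 2 0 3 5 = (v 0) * eval v (etaP 0 3 5) ∧
    D3 v 4 3 2 0 3 5 = (-v 6) * eval v (etaP 0 3 5) ∧
    D3 v 0 1 3 0 3 5 = (v 1) * eval v (etaP 0 3 5) ∧
    D3 v 4 3 1 0 3 5 = (-v 5) * eval v (etaP 0 3 5) := by
  have he : eval v (etaP 0 3 5) = (-4) * v 1 * v 6 + (-16) * v 3 * v 4 := by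
    show eval v (qm (-4) 1 6 + qm (-16) 3 4) = _
    simp only [map_add, eval_qm]
  rw [he]
  refine ⟨?_, ?_, ?_, ?_⟩
  · show (v 4) * ((2 * v 2) * (0) - (v 0) * (16 * v 3)) -
      (-4 * v 1) * ((v 5) * (0) - (v 0) * (v 6)) +
      (0) * ((v 5) * (16 * v 3) - (2 * v 2) * (v 6)) = (v 0) * ((-4) * v 1 * v 6 + (-16) * v 3 * v 4)
    ring
  · show (0) * ((2 * v 4) * (0) - (-3 * v 2) * (16 * v 3)) -
      (-4 * v 5) * ((0) * (0) - (-3 * v 2) * (v 6)) +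
      (-4 * v 3) * ((0) * (16 * v 3) - (2 * v 4) * (v 6)) = (-v 6) * ((-4) * v 1 * v 6 + (-16) * v 3 * v 4)
    linear_combination (-4) * v 6 * h3
  · show (v 4) * ((2 * v 2) * (-3 * v 2) - (v 0) * (2 * v 4)) -
      (-4 * v 1) * ((v 5) * (-3 * v 2) - (v 0) * (0)) +
      (0) * ((v 5) * (2 * v 4) - (2 * v 2) * (0)) = (v 1) * ((-4) * v 1 * v 6 + (-16) * v 3 * v 4)
    linear_combination (-2) * v 4 * h0 + 4 * v 1 * h3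
  · show (0) * ((2 * v 4) * (v 0) - (-3 * v 2) * (2 * v 2)) -
      (-4 * v 5) * ((0) * (v 0) - (-3 * v 2) * (v 5)) +
      (-4 * v 3) * ((0) * (2 * v 2) - (2 * v 4) * (v 5)) = (-v 5) * ((-4) * v 1 * v 6 + (-16) * v 3 * v 4)
    linear_combination (-4) * v 5 * h3

lemma mi_036 (v : Fin 8 → ℂ)
    (h0 : v 0 * v 4 - 4 * v 1 * v 3 + 3 * v 2 ^ 2 = 0)
    (h1 : v 0 * v 5 - 3 * v 1 * v 4 + 2 * v 2 * v 3 = 0)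
    (h2 : v 0 * v 6 - 9 * v 2 * v 4 + 8 * v 3 ^ 2 = 0)
    (h3 : v 1 * v 6 - 3 * v 2 * v 5 + 2 * v 3 * v 4 = 0)
    (h4 : v 2 * v 6 - 4 * v 3 * v 5 + 3 * v 4 ^ 2 = 0) :
    D3 v 0 1 2 0 3 6 = (v 0) * eval v (etaP 0 3 6) ∧
    D3 v 4 3 2 0 3 6 = (-v 6) * eval v (etaP 0 3 6) ∧
    D3 v 0 1 3 0 3 6 = (v 1) * eval v (etaP 0 3 6) ∧
    D3 v 4 3 1 0 3 6 = (-v 5) * eval v (etaP 0 3 6) := by
  have he : eval v (etaP 0 3 6) = 4 * v 1 * v 5 + 2 * v 2 * v 4 := by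
    show eval v (qm 4 1 5 + qm 2 2 4) = _
    simp only [map_add, eval_qm]
  rw [he]
  refine ⟨?_, ?_, ?_, ?_⟩
  · show (v 4) * ((2 * v 2) * (v 0) - (0) * (16 * v 3)) -
      (-4 * v 1) * ((v 5) * (v 0) - (0) * (v 6)) +
      (0) * ((v 5) * (16 * v 3) - (2 * v 2) * (v 6)) = (v 0) * (4 * v 1 * v 5 + 2 * v 2 * v 4)
    ring
  · show (0) * ((2 * v 4) * (v 0) - (v 1) * (16 * v 3)) -
      (-4 * v 5) * ((0) * (v 0) - (v 1) * (v 6)) +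
      (v 2) * ((0) * (16 * v 3) - (2 * v 4) * (v 6)) = (-v 6) * (4 * v 1 * v 5 + 2 * v 2 * v 4)
    ring
  · show (v 4) * ((2 * v 2) * (v 1) - (0) * (2 * v 4)) -
      (-4 * v 1) * ((v 5) * (v 1) - (0) * (0)) +
      (0) * ((v 5) * (2 * v 4) - (2 * v 2) * (0)) = (v 1) * (4 * v 1 * v 5 + 2 * v 2 * v 4)
    ring
  · show (0) * ((2 * v 4) * (0) - (v 1) * (2 * v 2)) -
      (-4 * v 5) * ((0) * (0) - (v 1) * (v 5)) +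
      (v 2) * ((0) * (2 * v 2) - (2 * v 4) * (v 5)) = (-v 5) * (4 * v 1 * v 5 + 2 * v 2 * v 4)
    ring

lemma mi_045 (v : Fin 8 → ℂ)
    (h0 : v 0 * v 4 - 4 * v 1 * v 3 + 3 * v 2 ^ 2 = 0)
    (h1 : v 0 * v 5 - 3 * v 1 * v 4 + 2 * v 2 * v 3 = 0)
    (h2 : v 0 * v 6 - 9 * v 2 * v 4 + 8 * v 3 ^ 2 = 0)
    (h3 : v 1 * v 6 - 3 * v 2 * v 5 + 2 * v 3 * v 4 = 0)
    (h4 : v 2 * v 6 - 4 * v 3 * v 5 + 3 * v 4 ^ 2 = 0) :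
    D3 v 0 1 2 0 4 5 = (v 0) * eval v (etaP 0 4 5) ∧
    D3 v 4 3 2 0 4 5 = (-v 6) * eval v (etaP 0 4 5) ∧
    D3 v 0 1 3 0 4 5 = (v 1) * eval v (etaP 0 4 5) ∧
    D3 v 4 3 1 0 4 5 = (-v 5) * eval v (etaP 0 4 5) := by
  have he : eval v (etaP 0 4 5) = 1 * v 0 * v 6 + 9 * v 2 * v 4 := by
    show eval v (qm 1 0 6 + qm 9 2 4) = _
    simp only [map_add, eval_qm]
  rw [he]
  refine ⟨?_, ?_, ?_, ?_⟩
  · show (v 4) * ((-3 * v 1) * (0) - (v 0) * (-9 * v 2)) -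
      (v 0) * ((v 5) * (0) - (v 0) * (v 6)) +
      (0) * ((v 5) * (-9 * v 2) - (-3 * v 1) * (v 6)) = (v 0) * (1 * v 0 * v 6 + 9 * v 2 * v 4)
    ring
  · show (0) * ((2 * v 3) * (0) - (-3 * v 2) * (-9 * v 2)) -
      (6 * v 4) * ((0) * (0) - (-3 * v 2) * (v 6)) +
      (-4 * v 3) * ((0) * (-9 * v 2) - (2 * v 3) * (v 6)) = (-v 6) * (1 * v 0 * v 6 + 9 * v 2 * v 4)
    linear_combination 1 * v 6 * h2
  · show (v 4) * ((-3 * v 1) * (-3 * v 2) - (v 0) * (2 * v 3)) -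
      (v 0) * ((v 5) * (-3 * v 2) - (v 0) * (0)) +
      (0) * ((v 5) * (2 * v 3) - (-3 * v 1) * (0)) = (v 1) * (1 * v 0 * v 6 + 9 * v 2 * v 4)
    linear_combination (-2) * v 3 * h0 + 3 * v 2 * h1 + (-1) * v 1 * h2
  · show (0) * ((2 * v 3) * (v 0) - (-3 * v 2) * (-3 * v 1)) -
      (6 * v 4) * ((0) * (v 0) - (-3 * v 2) * (v 5)) +
      (-4 * v 3) * ((0) * (-3 * v 1) - (2 * v 3) * (v 5)) = (-v 5) * (1 * v 0 * v 6 + 9 * v 2 * v 4)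
    linear_combination 1 * v 5 * h2

lemma mi_046 (v : Fin 8 → ℂ)
    (h0 : v 0 * v 4 - 4 * v 1 * v 3 + 3 * v 2 ^ 2 = 0)
    (h1 : v 0 * v 5 - 3 * v 1 * v 4 + 2 * v 2 * v 3 = 0)
    (h2 : v 0 * v 6 - 9 * v 2 * v 4 + 8 * v 3 ^ 2 = 0)
    (h3 : v 1 * v 6 - 3 * v 2 * v 5 + 2 * v 3 * v 4 = 0)
    (h4 : v 2 * v 6 - 4 * v 3 * v 5 + 3 * v 4 ^ 2 = 0) :
    D3 v 0 1 2 0 4 6 = (v 0) * eval v (etaP 0 4 6) ∧
    D3 v 4 3 2 0 4 6 = (-v 6) * eval v (etaP 0 4 6) ∧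
    D3 v 0 1 3 0 4 6 = (v 1) * eval v (etaP 0 4 6) ∧
    D3 v 4 3 1 0 4 6 = (-v 5) * eval v (etaP 0 4 6) := by
  have he : eval v (etaP 0 4 6) = (-1) * v 0 * v 5 + (-3) * v 1 * v 4 := by
    show eval v (qm (-1) 0 5 + qm (-3) 1 4) = _
    simp only [map_add, eval_qm]
  rw [he]
  refine ⟨?_, ?_, ?_, ?_⟩
  · show (v 4) * ((-3 * v 1) * (v 0) - (0) * (-9 * v 2)) -
      (v 0) * ((v 5) * (v 0) - (0) * (v 6)) +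
      (0) * ((v 5) * (-9 * v 2) - (-3 * v 1) * (v 6)) = (v 0) * ((-1) * v 0 * v 5 + (-3) * v 1 * v 4)
    ring
  · show (0) * ((2 * v 3) * (v 0) - (v 1) * (-9 * v 2)) -
      (6 * v 4) * ((0) * (v 0) - (v 1) * (v 6)) +
      (v 2) * ((0) * (-9 * v 2) - (2 * v 3) * (v 6)) = (-v 6) * ((-1) * v 0 * v 5 + (-3) * v 1 * v 4)
    linear_combination (-1) * v 6 * h1
  · show (v 4) * ((-3 * v 1) * (v 1) - (0) * (2 * v 3)) -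
      (v 0) * ((v 5) * (v 1) - (0) * (0)) +
      (0) * ((v 5) * (2 * v 3) - (-3 * v 1) * (0)) = (v 1) * ((-1) * v 0 * v 5 + (-3) * v 1 * v 4)
    ring
  · show (0) * ((2 * v 3) * (0) - (v 1) * (-3 * v 1)) -
      (6 * v 4) * ((0) * (0) - (v 1) * (v 5)) +
      (v 2) * ((0) * (-3 * v 1) - (2 * v 3) * (v 5)) = (-v 5) * ((-1) * v 0 * v 5 + (-3) * v 1 * v 4)
    linear_combination (-1) * v 5 * h1

lemma mi_056 (v : Fin 8 → ℂ)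
    (h0 : v 0 * v 4 - 4 * v 1 * v 3 + 3 * v 2 ^ 2 = 0)
    (h1 : v 0 * v 5 - 3 * v 1 * v 4 + 2 * v 2 * v 3 = 0)
    (h2 : v 0 * v 6 - 9 * v 2 * v 4 + 8 * v 3 ^ 2 = 0)
    (h3 : v 1 * v 6 - 3 * v 2 * v 5 + 2 * v 3 * v 4 = 0)
    (h4 : v 2 * v 6 - 4 * v 3 * v 5 + 3 * v 4 ^ 2 = 0) :
    D3 v 0 1 2 0 5 6 = (v 0) * eval v (etaP 0 5 6) ∧
    D3 v 4 3 2 0 5 6 = (-v 6) * eval v (etaP 0 5 6) ∧
    D3 v 0 1 3 0 5 6 = (v 1) * eval v (etaP 0 5 6) ∧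
    D3 v 4 3 1 0 5 6 = (-v 5) * eval v (etaP 0 5 6) := by
  have he : eval v (etaP 0 5 6) = 1 * v 0 * v 4 := by
    show eval v (qm 1 0 4) = _
    simp only [map_add, eval_qm]
  rw [he]
  refine ⟨?_, ?_, ?_, ?_⟩
  · show (v 4) * ((v 0) * (v 0) - (0) * (0)) -
      (0) * ((v 5) * (v 0) - (0) * (v 6)) +
      (0) * ((v 5) * (0) - (v 0) * (v 6)) = (v 0) * (1 * v 0 * v 4)
    ring
  · show (0) * ((-3 * v 2) * (v 0) - (v 1) * (0)) -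
      (-4 * v 3) * ((0) * (v 0) - (v 1) * (v 6)) +
      (v 2) * ((0) * (0) - (-3 * v 2) * (v 6)) = (-v 6) * (1 * v 0 * v 4)
    linear_combination 1 * v 6 * h0
  · show (v 4) * ((v 0) * (v 1) - (0) * (-3 * v 2)) -
      (0) * ((v 5) * (v 1) - (0) * (0)) +
      (0) * ((v 5) * (-3 * v 2) - (v 0) * (0)) = (v 1) * (1 * v 0 * v 4)
    ring
  · show (0) * ((-3 * v 2) * (0) - (v 1) * (v 0)) -
      (-4 * v 3) * ((0) * (0) - (v 1) * (v 5)) +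
      (v 2) * ((0) * (v 0) - (-3 * v 2) * (v 5)) = (-v 5) * (1 * v 0 * v 4)
    linear_combination 1 * v 5 * h0

lemma mi_123 (v : Fin 8 → ℂ)
    (h0 : v 0 * v 4 - 4 * v 1 * v 3 + 3 * v 2 ^ 2 = 0)
    (h1 : v 0 * v 5 - 3 * v 1 * v 4 + 2 * v 2 * v 3 = 0)
    (h2 : v 0 * v 6 - 9 * v 2 * v 4 + 8 * v 3 ^ 2 = 0)
    (h3 : v 1 * v 6 - 3 * v 2 * v 5 + 2 * v 3 * v 4 = 0)
    (h4 : v 2 * v 6 - 4 * v 3 * v 5 + 3 * v 4 ^ 2 = 0) :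
    D3 v 0 1 2 1 2 3 = (v 0) * eval v (etaP 1 2 3) ∧
    D3 v 4 3 2 1 2 3 = (-v 6) * eval v (etaP 1 2 3) ∧
    D3 v 0 1 3 1 2 3 = (v 1) * eval v (etaP 1 2 3) ∧
    D3 v 4 3 1 1 2 3 = (-v 5) * eval v (etaP 1 2 3) := by
  have he : eval v (etaP 1 2 3) = 16 * v 3 * v 6 + (-36) * v 4 * v 5 := by
    show eval v (qm 16 3 6 + qm (-36) 4 5) = _
    simp only [map_add, eval_qm]
  rw [he]
  refine ⟨?_, ?_, ?_, ?_⟩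
  · show (-4 * v 3) * ((2 * v 3) * (16 * v 3) - (2 * v 2) * (-9 * v 4)) -
      (6 * v 2) * ((-3 * v 4) * (16 * v 3) - (2 * v 2) * (0)) +
      (-4 * v 1) * ((-3 * v 4) * (-9 * v 4) - (2 * v 3) * (0)) = (v 0) * (16 * v 3 * v 6 + (-36) * v 4 * v 5)
    linear_combination 36 * v 4 * h1 + (-16) * v 3 * h2
  · show (0) * ((-3 * v 5) * (16 * v 3) - (2 * v 4) * (-9 * v 4)) -
      (v 6) * ((v 6) * (16 * v 3) - (2 * v 4) * (0)) +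
      (-4 * v 5) * ((v 6) * (-9 * v 4) - (-3 * v 5) * (0)) = (-v 6) * (16 * v 3 * v 6 + (-36) * v 4 * v 5)
    ring
  · show (-4 * v 3) * ((2 * v 3) * (2 * v 4) - (2 * v 2) * (-3 * v 5)) -
      (6 * v 2) * ((-3 * v 4) * (2 * v 4) - (2 * v 2) * (v 6)) +
      (-4 * v 1) * ((-3 * v 4) * (-3 * v 5) - (2 * v 3) * (v 6)) = (v 1) * (16 * v 3 * v 6 + (-36) * v 4 * v 5)
    linear_combination 4 * v 6 * h0 + (-4) * v 4 * h2 + 8 * v 3 * h3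
  · show (0) * ((-3 * v 5) * (2 * v 2) - (2 * v 4) * (2 * v 3)) -
      (v 6) * ((v 6) * (2 * v 2) - (2 * v 4) * (-3 * v 4)) +
      (-4 * v 5) * ((v 6) * (2 * v 3) - (-3 * v 5) * (-3 * v 4)) = (-v 5) * (16 * v 3 * v 6 + (-36) * v 4 * v 5)
    linear_combination (-2) * v 6 * h4

lemma mi_124 (v : Fin 8 → ℂ)
    (h0 : v 0 * v 4 - 4 * v 1 * v 3 + 3 * v 2 ^ 2 = 0)
    (h1 : v 0 * v 5 - 3 * v 1 * v 4 + 2 * v 2 * v 3 = 0)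
    (h2 : v 0 * v 6 - 9 * v 2 * v 4 + 8 * v 3 ^ 2 = 0)
    (h3 : v 1 * v 6 - 3 * v 2 * v 5 + 2 * v 3 * v 4 = 0)
    (h4 : v 2 * v 6 - 4 * v 3 * v 5 + 3 * v 4 ^ 2 = 0) :
    D3 v 0 1 2 1 2 4 = (v 0) * eval v (etaP 1 2 4) ∧
    D3 v 4 3 2 1 2 4 = (-v 6) * eval v (etaP 1 2 4) ∧
    D3 v 0 1 3 1 2 4 = (v 1) * eval v (etaP 1 2 4) ∧
    D3 v 4 3 1 1 2 4 = (-v 5) * eval v (etaP 1 2 4) := by
  have he : eval v (etaP 1 2 4) = (-36) * v 3 * v 5 + 81 * v 4 * v 4 := by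
    show eval v (qm (-36) 3 5 + qm 81 4 4) = _
    simp only [map_add, eval_qm]
  rw [he]
  refine ⟨?_, ?_, ?_, ?_⟩
  · show (-4 * v 3) * ((2 * v 3) * (-9 * v 2) - (-3 * v 1) * (-9 * v 4)) -
      (6 * v 2) * ((-3 * v 4) * (-9 * v 2) - (-3 * v 1) * (0)) +
      (v 0) * ((-3 * v 4) * (-9 * v 4) - (2 * v 3) * (0)) = (v 0) * ((-36) * v 3 * v 5 + 81 * v 4 * v 4)
    linear_combination (-54) * v 4 * h0 + 36 * v 3 * h1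
  · show (0) * ((-3 * v 5) * (-9 * v 2) - (2 * v 3) * (-9 * v 4)) -
      (v 6) * ((v 6) * (-9 * v 2) - (2 * v 3) * (0)) +
      (6 * v 4) * ((v 6) * (-9 * v 4) - (-3 * v 5) * (0)) = (-v 6) * ((-36) * v 3 * v 5 + 81 * v 4 * v 4)
    linear_combination 9 * v 6 * h4
  · show (-4 * v 3) * ((2 * v 3) * (2 * v 3) - (-3 * v 1) * (-3 * v 5)) -
      (6 * v 2) * ((-3 * v 4) * (2 * v 3) - (-3 * v 1) * (v 6)) +
      (v 0) * ((-3 * v 4) * (-3 * v 5) - (2 * v 3) * (v 6)) = (v 1) * ((-36) * v 3 * v 5 + 81 * v 4 * v 4)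
    linear_combination (-18) * v 5 * h0 + 27 * v 4 * h1 + (-2) * v 3 * h2 + (-18) * v 2 * h3
  · show (0) * ((-3 * v 5) * (-3 * v 1) - (2 * v 3) * (2 * v 3)) -
      (v 6) * ((v 6) * (-3 * v 1) - (2 * v 3) * (-3 * v 4)) +
      (6 * v 4) * ((v 6) * (2 * v 3) - (-3 * v 5) * (-3 * v 4)) = (-v 5) * ((-36) * v 3 * v 5 + 81 * v 4 * v 4)
    linear_combination 3 * v 6 * h3 + 9 * v 5 * h4

lemma mi_125 (v : Fin 8 → ℂ)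
    (h0 : v 0 * v 4 - 4 * v 1 * v 3 + 3 * v 2 ^ 2 = 0)
    (h1 : v 0 * v 5 - 3 * v 1 * v 4 + 2 * v 2 * v 3 = 0)
    (h2 : v 0 * v 6 - 9 * v 2 * v 4 + 8 * v 3 ^ 2 = 0)
    (h3 : v 1 * v 6 - 3 * v 2 * v 5 + 2 * v 3 * v 4 = 0)
    (h4 : v 2 * v 6 - 4 * v 3 * v 5 + 3 * v 4 ^ 2 = 0) :
    D3 v 0 1 2 1 2 5 = (v 0) * eval v (etaP 1 2 5) ∧
    D3 v 4 3 2 1 2 5 = (-v 6) * eval v (etaP 1 2 5) ∧
    D3 v 0 1 3 1 2 5 = (v 1) * eval v (etaP 1 2 5) ∧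
    D3 v 4 3 1 1 2 5 = (-v 5) * eval v (etaP 1 2 5) := by
  have he : eval v (etaP 1 2 5) = (-36) * v 3 * v 4 := by
    show eval v (qm (-36) 3 4) = _
    simp only [map_add, eval_qm]
  rw [he]
  refine ⟨?_, ?_, ?_, ?_⟩
  · show (-4 * v 3) * ((2 * v 3) * (0) - (v 0) * (-9 * v 4)) -
      (6 * v 2) * ((-3 * v 4) * (0) - (v 0) * (0)) +
      (0) * ((-3 * v 4) * (-9 * v 4) - (2 * v 3) * (0)) = (v 0) * ((-36) * v 3 * v 4)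
    ring
  · show (0) * ((-3 * v 5) * (0) - (-3 * v 2) * (-9 * v 4)) -
      (v 6) * ((v 6) * (0) - (-3 * v 2) * (0)) +
      (-4 * v 3) * ((v 6) * (-9 * v 4) - (-3 * v 5) * (0)) = (-v 6) * ((-36) * v 3 * v 4)
    ring
  · show (-4 * v 3) * ((2 * v 3) * (-3 * v 2) - (v 0) * (-3 * v 5)) -
      (6 * v 2) * ((-3 * v 4) * (-3 * v 2) - (v 0) * (v 6)) +
      (0) * ((-3 * v 4) * (-3 * v 5) - (2 * v 3) * (v 6)) = (v 1) * ((-36) * v 3 * v 4)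
    linear_combination (-12) * v 3 * h1 + 6 * v 2 * h2
  · show (0) * ((-3 * v 5) * (v 0) - (-3 * v 2) * (2 * v 3)) -
      (v 6) * ((v 6) * (v 0) - (-3 * v 2) * (-3 * v 4)) +
      (-4 * v 3) * ((v 6) * (2 * v 3) - (-3 * v 5) * (-3 * v 4)) = (-v 5) * ((-36) * v 3 * v 4)
    linear_combination (-1) * v 6 * h2

lemma mi_126 (v : Fin 8 → ℂ)
    (h0 : v 0 * v 4 - 4 * v 1 * v 3 + 3 * v 2 ^ 2 = 0)
    (h1 : v 0 * v 5 - 3 * v 1 * v 4 + 2 * v 2 * v 3 = 0)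
    (h2 : v 0 * v 6 - 9 * v 2 * v 4 + 8 * v 3 ^ 2 = 0)
    (h3 : v 1 * v 6 - 3 * v 2 * v 5 + 2 * v 3 * v 4 = 0)
    (h4 : v 2 * v 6 - 4 * v 3 * v 5 + 3 * v 4 ^ 2 = 0) :
    D3 v 0 1 2 1 2 6 = (v 0) * eval v (etaP 1 2 6) ∧
    D3 v 4 3 2 1 2 6 = (-v 6) * eval v (etaP 1 2 6) ∧
    D3 v 0 1 3 1 2 6 = (v 1) * eval v (etaP 1 2 6) ∧
    D3 v 4 3 1 1 2 6 = (-v 5) * eval v (etaP 1 2 6) := by
  have he : eval v (etaP 1 2 6) = 18 * v 2 * v 4 + (-8) * v 3 * v 3 := by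
    show eval v (qm 18 2 4 + qm (-8) 3 3) = _
    simp only [map_add, eval_qm]
  rw [he]
  refine ⟨?_, ?_, ?_, ?_⟩
  · show (-4 * v 3) * ((2 * v 3) * (v 0) - (0) * (-9 * v 4)) -
      (6 * v 2) * ((-3 * v 4) * (v 0) - (0) * (0)) +
      (0) * ((-3 * v 4) * (-9 * v 4) - (2 * v 3) * (0)) = (v 0) * (18 * v 2 * v 4 + (-8) * v 3 * v 3)
    ring
  · show (0) * ((-3 * v 5) * (v 0) - (v 1) * (-9 * v 4)) -
      (v 6) * ((v 6) * (v 0) - (v 1) * (0)) +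
      (v 2) * ((v 6) * (-9 * v 4) - (-3 * v 5) * (0)) = (-v 6) * (18 * v 2 * v 4 + (-8) * v 3 * v 3)
    linear_combination (-1) * v 6 * h2
  · show (-4 * v 3) * ((2 * v 3) * (v 1) - (0) * (-3 * v 5)) -
      (6 * v 2) * ((-3 * v 4) * (v 1) - (0) * (v 6)) +
      (0) * ((-3 * v 4) * (-3 * v 5) - (2 * v 3) * (v 6)) = (v 1) * (18 * v 2 * v 4 + (-8) * v 3 * v 3)
    ring
  · show (0) * ((-3 * v 5) * (0) - (v 1) * (2 * v 3)) -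
      (v 6) * ((v 6) * (0) - (v 1) * (-3 * v 4)) +
      (v 2) * ((v 6) * (2 * v 3) - (-3 * v 5) * (-3 * v 4)) = (-v 5) * (18 * v 2 * v 4 + (-8) * v 3 * v 3)
    linear_combination 1 * v 6 * h1 + (-1) * v 5 * h2

lemma mi_134 (v : Fin 8 → ℂ)
    (h0 : v 0 * v 4 - 4 * v 1 * v 3 + 3 * v 2 ^ 2 = 0)
    (h1 : v 0 * v 5 - 3 * v 1 * v 4 + 2 * v 2 * v 3 = 0)
    (h2 : v 0 * v 6 - 9 * v 2 * v 4 + 8 * v 3 ^ 2 = 0)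
    (h3 : v 1 * v 6 - 3 * v 2 * v 5 + 2 * v 3 * v 4 = 0)
    (h4 : v 2 * v 6 - 4 * v 3 * v 5 + 3 * v 4 ^ 2 = 0) :
    D3 v 0 1 2 1 3 4 = (v 0) * eval v (etaP 1 3 4) ∧
    D3 v 4 3 2 1 3 4 = (-v 6) * eval v (etaP 1 3 4) ∧
    D3 v 0 1 3 1 3 4 = (v 1) * eval v (etaP 1 3 4) ∧
    D3 v 4 3 1 1 3 4 = (-v 5) * eval v (etaP 1 3 4) := by
  have he : eval v (etaP 1 3 4) = 36 * v 2 * v 5 + (-96) * v 3 * v 4 := by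
    show eval v (qm 36 2 5 + qm (-96) 3 4) = _
    simp only [map_add, eval_qm]
  rw [he]
  refine ⟨?_, ?_, ?_, ?_⟩
  · show (-4 * v 3) * ((2 * v 2) * (-9 * v 2) - (-3 * v 1) * (16 * v 3)) -
      (-4 * v 1) * ((-3 * v 4) * (-9 * v 2) - (-3 * v 1) * (0)) +
      (v 0) * ((-3 * v 4) * (16 * v 3) - (2 * v 2) * (0)) = (v 0) * (36 * v 2 * v 5 + (-96) * v 3 * v 4)
    linear_combination 48 * v 3 * h0 + (-36) * v 2 * h1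
  · show (0) * ((2 * v 4) * (-9 * v 2) - (2 * v 3) * (16 * v 3)) -
      (-4 * v 5) * ((v 6) * (-9 * v 2) - (2 * v 3) * (0)) +
      (6 * v 4) * ((v 6) * (16 * v 3) - (2 * v 4) * (0)) = (-v 6) * (36 * v 2 * v 5 + (-96) * v 3 * v 4)
    ring
  · show (-4 * v 3) * ((2 * v 2) * (2 * v 3) - (-3 * v 1) * (2 * v 4)) -
      (-4 * v 1) * ((-3 * v 4) * (2 * v 3) - (-3 * v 1) * (v 6)) +
      (v 0) * ((-3 * v 4) * (2 * v 4) - (2 * v 2) * (v 6)) = (v 1) * (36 * v 2 * v 5 + (-96) * v 3 * v 4)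
    linear_combination (-6) * v 4 * h0 + (-2) * v 2 * h2 + 12 * v 1 * h3
  · show (0) * ((2 * v 4) * (-3 * v 1) - (2 * v 3) * (2 * v 2)) -
      (-4 * v 5) * ((v 6) * (-3 * v 1) - (2 * v 3) * (-3 * v 4)) +
      (6 * v 4) * ((v 6) * (2 * v 2) - (2 * v 4) * (-3 * v 4)) = (-v 5) * (36 * v 2 * v 5 + (-96) * v 3 * v 4)
    linear_combination (-12) * v 5 * h3 + 12 * v 4 * h4

lemma mi_135 (v : Fin 8 → ℂ)
    (h0 : v 0 * v 4 - 4 * v 1 * v 3 + 3 * v 2 ^ 2 = 0)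
    (h1 : v 0 * v 5 - 3 * v 1 * v 4 + 2 * v 2 * v 3 = 0)
    (h2 : v 0 * v 6 - 9 * v 2 * v 4 + 8 * v 3 ^ 2 = 0)
    (h3 : v 1 * v 6 - 3 * v 2 * v 5 + 2 * v 3 * v 4 = 0)
    (h4 : v 2 * v 6 - 4 * v 3 * v 5 + 3 * v 4 ^ 2 = 0) :
    D3 v 0 1 2 1 3 5 = (v 0) * eval v (etaP 1 3 5) ∧
    D3 v 4 3 2 1 3 5 = (-v 6) * eval v (etaP 1 3 5) ∧
    D3 v 0 1 3 1 3 5 = (v 1) * eval v (etaP 1 3 5) ∧
    D3 v 4 3 1 1 3 5 = (-v 5) * eval v (etaP 1 3 5) := by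
  have he : eval v (etaP 1 3 5) = 64 * v 3 * v 3 := by
    show eval v (qm 64 3 3) = _
    simp only [map_add, eval_qm]
  rw [he]
  refine ⟨?_, ?_, ?_, ?_⟩
  · show (-4 * v 3) * ((2 * v 2) * (0) - (v 0) * (16 * v 3)) -
      (-4 * v 1) * ((-3 * v 4) * (0) - (v 0) * (0)) +
      (0) * ((-3 * v 4) * (16 * v 3) - (2 * v 2) * (0)) = (v 0) * (64 * v 3 * v 3)
    ring
  · show (0) * ((2 * v 4) * (0) - (-3 * v 2) * (16 * v 3)) -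
      (-4 * v 5) * ((v 6) * (0) - (-3 * v 2) * (0)) +
      (-4 * v 3) * ((v 6) * (16 * v 3) - (2 * v 4) * (0)) = (-v 6) * (64 * v 3 * v 3)
    ring
  · show (-4 * v 3) * ((2 * v 2) * (-3 * v 2) - (v 0) * (2 * v 4)) -
      (-4 * v 1) * ((-3 * v 4) * (-3 * v 2) - (v 0) * (v 6)) +
      (0) * ((-3 * v 4) * (2 * v 4) - (2 * v 2) * (v 6)) = (v 1) * (64 * v 3 * v 3)
    linear_combination 8 * v 3 * h0 + (-4) * v 1 * h2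
  · show (0) * ((2 * v 4) * (v 0) - (-3 * v 2) * (2 * v 2)) -
      (-4 * v 5) * ((v 6) * (v 0) - (-3 * v 2) * (-3 * v 4)) +
      (-4 * v 3) * ((v 6) * (2 * v 2) - (2 * v 4) * (-3 * v 4)) = (-v 5) * (64 * v 3 * v 3)
    linear_combination (-4) * v 6 * h1 + 8 * v 5 * h2 + (-12) * v 4 * h3

lemma mi_136 (v : Fin 8 → ℂ)
    (h0 : v 0 * v 4 - 4 * v 1 * v 3 + 3 * v 2 ^ 2 = 0)
    (h1 : v 0 * v 5 - 3 * v 1 * v 4 + 2 * v 2 * v 3 = 0)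
    (h2 : v 0 * v 6 - 9 * v 2 * v 4 + 8 * v 3 ^ 2 = 0)
    (h3 : v 1 * v 6 - 3 * v 2 * v 5 + 2 * v 3 * v 4 = 0)
    (h4 : v 2 * v 6 - 4 * v 3 * v 5 + 3 * v 4 ^ 2 = 0) :
    D3 v 0 1 2 1 3 6 = (v 0) * eval v (etaP 1 3 6) ∧
    D3 v 4 3 2 1 3 6 = (-v 6) * eval v (etaP 1 3 6) ∧
    D3 v 0 1 3 1 3 6 = (v 1) * eval v (etaP 1 3 6) ∧
    D3 v 4 3 1 1 3 6 = (-v 5) * eval v (etaP 1 3 6) := by
  have he : eval v (etaP 1 3 6) = (-12) * v 1 * v 4 + (-8) * v 2 * v 3 := by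
    show eval v (qm (-12) 1 4 + qm (-8) 2 3) = _
    simp only [map_add, eval_qm]
  rw [he]
  refine ⟨?_, ?_, ?_, ?_⟩
  · show (-4 * v 3) * ((2 * v 2) * (v 0) - (0) * (16 * v 3)) -
      (-4 * v 1) * ((-3 * v 4) * (v 0) - (0) * (0)) +
      (0) * ((-3 * v 4) * (16 * v 3) - (2 * v 2) * (0)) = (v 0) * ((-12) * v 1 * v 4 + (-8) * v 2 * v 3)
    ring
  · show (0) * ((2 * v 4) * (v 0) - (v 1) * (16 * v 3)) -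
      (-4 * v 5) * ((v 6) * (v 0) - (v 1) * (0)) +
      (v 2) * ((v 6) * (16 * v 3) - (2 * v 4) * (0)) = (-v 6) * ((-12) * v 1 * v 4 + (-8) * v 2 * v 3)
    linear_combination 4 * v 6 * h1
  · show (-4 * v 3) * ((2 * v 2) * (v 1) - (0) * (2 * v 4)) -
      (-4 * v 1) * ((-3 * v 4) * (v 1) - (0) * (v 6)) +
      (0) * ((-3 * v 4) * (2 * v 4) - (2 * v 2) * (v 6)) = (v 1) * ((-12) * v 1 * v 4 + (-8) * v 2 * v 3)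
    ring
  · show (0) * ((2 * v 4) * (0) - (v 1) * (2 * v 2)) -
      (-4 * v 5) * ((v 6) * (0) - (v 1) * (-3 * v 4)) +
      (v 2) * ((v 6) * (2 * v 2) - (2 * v 4) * (-3 * v 4)) = (-v 5) * ((-12) * v 1 * v 4 + (-8) * v 2 * v 3)
    linear_combination (2 / 3) * v 6 * h0 + (-2 / 3) * v 4 * h2 + (8 / 3) * v 3 * h3

lemma mi_145 (v : Fin 8 → ℂ)
    (h0 : v 0 * v 4 - 4 * v 1 * v 3 + 3 * v 2 ^ 2 = 0)
    (h1 : v 0 * v 5 - 3 * v 1 * v 4 + 2 * v 2 * v 3 = 0)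
    (h2 : v 0 * v 6 - 9 * v 2 * v 4 + 8 * v 3 ^ 2 = 0)
    (h3 : v 1 * v 6 - 3 * v 2 * v 5 + 2 * v 3 * v 4 = 0)
    (h4 : v 2 * v 6 - 4 * v 3 * v 5 + 3 * v 4 ^ 2 = 0) :
    D3 v 0 1 2 1 4 5 = (v 0) * eval v (etaP 1 4 5) ∧
    D3 v 4 3 2 1 4 5 = (-v 6) * eval v (etaP 1 4 5) ∧
    D3 v 0 1 3 1 4 5 = (v 1) * eval v (etaP 1 4 5) ∧
    D3 v 4 3 1 1 4 5 = (-v 5) * eval v (etaP 1 4 5) := by
  have he : eval v (etaP 1 4 5) = (-36) * v 2 * v 3 := by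
    show eval v (qm (-36) 2 3) = _
    simp only [map_add, eval_qm]
  rw [he]
  refine ⟨?_, ?_, ?_, ?_⟩
  · show (-4 * v 3) * ((-3 * v 1) * (0) - (v 0) * (-9 * v 2)) -
      (v 0) * ((-3 * v 4) * (0) - (v 0) * (0)) +
      (0) * ((-3 * v 4) * (-9 * v 2) - (-3 * v 1) * (0)) = (v 0) * ((-36) * v 2 * v 3)
    ring
  · show (0) * ((2 * v 3) * (0) - (-3 * v 2) * (-9 * v 2)) -
      (6 * v 4) * ((v 6) * (0) - (-3 * v 2) * (0)) +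
      (-4 * v 3) * ((v 6) * (-9 * v 2) - (2 * v 3) * (0)) = (-v 6) * ((-36) * v 2 * v 3)
    ring
  · show (-4 * v 3) * ((-3 * v 1) * (-3 * v 2) - (v 0) * (2 * v 3)) -
      (v 0) * ((-3 * v 4) * (-3 * v 2) - (v 0) * (v 6)) +
      (0) * ((-3 * v 4) * (2 * v 3) - (-3 * v 1) * (v 6)) = (v 1) * ((-36) * v 2 * v 3)
    linear_combination 1 * v 0 * h2
  · show (0) * ((2 * v 3) * (v 0) - (-3 * v 2) * (-3 * v 1)) -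
      (6 * v 4) * ((v 6) * (v 0) - (-3 * v 2) * (-3 * v 4)) +
      (-4 * v 3) * ((v 6) * (-3 * v 1) - (2 * v 3) * (-3 * v 4)) = (-v 5) * ((-36) * v 2 * v 3)
    linear_combination (-6) * v 4 * h2 + 12 * v 3 * h3

lemma mi_146 (v : Fin 8 → ℂ)
    (h0 : v 0 * v 4 - 4 * v 1 * v 3 + 3 * v 2 ^ 2 = 0)
    (h1 : v 0 * v 5 - 3 * v 1 * v 4 + 2 * v 2 * v 3 = 0)
    (h2 : v 0 * v 6 - 9 * v 2 * v 4 + 8 * v 3 ^ 2 = 0)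
    (h3 : v 1 * v 6 - 3 * v 2 * v 5 + 2 * v 3 * v 4 = 0)
    (h4 : v 2 * v 6 - 4 * v 3 * v 5 + 3 * v 4 ^ 2 = 0) :
    D3 v 0 1 2 1 4 6 = (v 0) * eval v (etaP 1 4 6) ∧
    D3 v 4 3 2 1 4 6 = (-v 6) * eval v (etaP 1 4 6) ∧
    D3 v 0 1 3 1 4 6 = (v 1) * eval v (etaP 1 4 6) ∧
    D3 v 4 3 1 1 4 6 = (-v 5) * eval v (etaP 1 4 6) := by
  have he : eval v (etaP 1 4 6) = 3 * v 0 * v 4 + 12 * v 1 * v 3 := by
    show eval v (qm 3 0 4 + qm 12 1 3) = _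
    simp only [map_add, eval_qm]
  rw [he]
  refine ⟨?_, ?_, ?_, ?_⟩
  · show (-4 * v 3) * ((-3 * v 1) * (v 0) - (0) * (-9 * v 2)) -
      (v 0) * ((-3 * v 4) * (v 0) - (0) * (0)) +
      (0) * ((-3 * v 4) * (-9 * v 2) - (-3 * v 1) * (0)) = (v 0) * (3 * v 0 * v 4 + 12 * v 1 * v 3)
    ring
  · show (0) * ((2 * v 3) * (v 0) - (v 1) * (-9 * v 2)) -
      (6 * v 4) * ((v 6) * (v 0) - (v 1) * (0)) +
      (v 2) * ((v 6) * (-9 * v 2) - (2 * v 3) * (0)) = (-v 6) * (3 * v 0 * v 4 + 12 * v 1 * v 3)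
    linear_combination (-3) * v 6 * h0
  · show (-4 * v 3) * ((-3 * v 1) * (v 1) - (0) * (2 * v 3)) -
      (v 0) * ((-3 * v 4) * (v 1) - (0) * (v 6)) +
      (0) * ((-3 * v 4) * (2 * v 3) - (-3 * v 1) * (v 6)) = (v 1) * (3 * v 0 * v 4 + 12 * v 1 * v 3)
    ring
  · show (0) * ((2 * v 3) * (0) - (v 1) * (-3 * v 1)) -
      (6 * v 4) * ((v 6) * (0) - (v 1) * (-3 * v 4)) +
      (v 2) * ((v 6) * (-3 * v 1) - (2 * v 3) * (-3 * v 4)) = (-v 5) * (3 * v 0 * v 4 + 12 * v 1 * v 3)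
    linear_combination (-3) * v 5 * h0 + 6 * v 4 * h1 + (-3) * v 2 * h3

lemma mi_156 (v : Fin 8 → ℂ)
    (h0 : v 0 * v 4 - 4 * v 1 * v 3 + 3 * v 2 ^ 2 = 0)
    (h1 : v 0 * v 5 - 3 * v 1 * v 4 + 2 * v 2 * v 3 = 0)
    (h2 : v 0 * v 6 - 9 * v 2 * v 4 + 8 * v 3 ^ 2 = 0)
    (h3 : v 1 * v 6 - 3 * v 2 * v 5 + 2 * v 3 * v 4 = 0)
    (h4 : v 2 * v 6 - 4 * v 3 * v 5 + 3 * v 4 ^ 2 = 0) :
    D3 v 0 1 2 1 5 6 = (v 0) * eval v (etaP 1 5 6) ∧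
    D3 v 4 3 2 1 5 6 = (-v 6) * eval v (etaP 1 5 6) ∧
    D3 v 0 1 3 1 5 6 = (v 1) * eval v (etaP 1 5 6) ∧
    D3 v 4 3 1 1 5 6 = (-v 5) * eval v (etaP 1 5 6) := by
  have he : eval v (etaP 1 5 6) = (-4) * v 0 * v 3 := by
    show eval v (qm (-4) 0 3) = _
    simp only [map_add, eval_qm]
  rw [he]
  refine ⟨?_, ?_, ?_, ?_⟩
  · show (-4 * v 3) * ((v 0) * (v 0) - (0) * (0)) -
      (0) * ((-3 * v 4) * (v 0) - (0) * (0)) +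
      (0) * ((-3 * v 4) * (0) - (v 0) * (0)) = (v 0) * ((-4) * v 0 * v 3)
    ring
  · show (0) * ((-3 * v 2) * (v 0) - (v 1) * (0)) -
      (-4 * v 3) * ((v 6) * (v 0) - (v 1) * (0)) +
      (v 2) * ((v 6) * (0) - (-3 * v 2) * (0)) = (-v 6) * ((-4) * v 0 * v 3)
    ring
  · show (-4 * v 3) * ((v 0) * (v 1) - (0) * (-3 * v 2)) -
      (0) * ((-3 * v 4) * (v 1) - (0) * (v 6)) +
      (0) * ((-3 * v 4) * (-3 * v 2) - (v 0) * (v 6)) = (v 1) * ((-4) * v 0 * v 3)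
    ring
  · show (0) * ((-3 * v 2) * (0) - (v 1) * (v 0)) -
      (-4 * v 3) * ((v 6) * (0) - (v 1) * (-3 * v 4)) +
      (v 2) * ((v 6) * (v 0) - (-3 * v 2) * (-3 * v 4)) = (-v 5) * ((-4) * v 0 * v 3)
    linear_combination (-4) * v 3 * h1 + 1 * v 2 * h2

lemma mi_234 (v : Fin 8 → ℂ)
    (h0 : v 0 * v 4 - 4 * v 1 * v 3 + 3 * v 2 ^ 2 = 0)
    (h1 : v 0 * v 5 - 3 * v 1 * v 4 + 2 * v 2 * v 3 = 0)
    (h2 : v 0 * v 6 - 9 * v 2 * v 4 + 8 * v 3 ^ 2 = 0)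
    (h3 : v 1 * v 6 - 3 * v 2 * v 5 + 2 * v 3 * v 4 = 0)
    (h4 : v 2 * v 6 - 4 * v 3 * v 5 + 3 * v 4 ^ 2 = 0) :
    D3 v 0 1 2 2 3 4 = (v 0) * eval v (etaP 2 3 4) ∧
    D3 v 4 3 2 2 3 4 = (-v 6) * eval v (etaP 2 3 4) ∧
    D3 v 0 1 3 2 3 4 = (v 1) * eval v (etaP 2 3 4) ∧
    D3 v 4 3 1 2 3 4 = (-v 5) * eval v (etaP 2 3 4) := by
  have he : eval v (etaP 2 3 4) = (-36) * v 1 * v 5 + 54 * v 2 * v 4 + 32 * v 3 * v 3 := by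
    show eval v (qm (-36) 1 5 + qm 54 2 4 + qm 32 3 3) = _
    simp only [map_add, eval_qm]
  rw [he]
  refine ⟨?_, ?_, ?_, ?_⟩
  · show (6 * v 2) * ((2 * v 2) * (-9 * v 2) - (-3 * v 1) * (16 * v 3)) -
      (-4 * v 1) * ((2 * v 3) * (-9 * v 2) - (-3 * v 1) * (-9 * v 4)) +
      (v 0) * ((2 * v 3) * (16 * v 3) - (2 * v 2) * (-9 * v 4)) = (v 0) * ((-36) * v 1 * v 5 + 54 * v 2 * v 4 + 32 * v 3 * v 3)
    linear_combination (-36) * v 2 * h0 + 36 * v 1 * h1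
  · show (v 6) * ((2 * v 4) * (-9 * v 2) - (2 * v 3) * (16 * v 3)) -
      (-4 * v 5) * ((-3 * v 5) * (-9 * v 2) - (2 * v 3) * (-9 * v 4)) +
      (6 * v 4) * ((-3 * v 5) * (16 * v 3) - (2 * v 4) * (-9 * v 4)) = (-v 6) * ((-36) * v 1 * v 5 + 54 * v 2 * v 4 + 32 * v 3 * v 3)
    linear_combination (-36) * v 5 * h3 + 36 * v 4 * h4
  · show (6 * v 2) * ((2 * v 2) * (2 * v 3) - (-3 * v 1) * (2 * v 4)) -
      (-4 * v 1) * ((2 * v 3) * (2 * v 3) - (-3 * v 1) * (-3 * v 5)) +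
      (v 0) * ((2 * v 3) * (2 * v 4) - (2 * v 2) * (-3 * v 5)) = (v 1) * ((-36) * v 1 * v 5 + 54 * v 2 * v 4 + 32 * v 3 * v 3)
    linear_combination 4 * v 3 * h0 + 6 * v 2 * h1
  · show (v 6) * ((2 * v 4) * (-3 * v 1) - (2 * v 3) * (2 * v 2)) -
      (-4 * v 5) * ((-3 * v 5) * (-3 * v 1) - (2 * v 3) * (2 * v 3)) +
      (6 * v 4) * ((-3 * v 5) * (2 * v 2) - (2 * v 4) * (2 * v 3)) = (-v 5) * ((-36) * v 1 * v 5 + 54 * v 2 * v 4 + 32 * v 3 * v 3)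
    linear_combination (-2) * v 6 * h1 + 2 * v 5 * h2 + (-12) * v 4 * h3

lemma mi_235 (v : Fin 8 → ℂ)
    (h0 : v 0 * v 4 - 4 * v 1 * v 3 + 3 * v 2 ^ 2 = 0)
    (h1 : v 0 * v 5 - 3 * v 1 * v 4 + 2 * v 2 * v 3 = 0)
    (h2 : v 0 * v 6 - 9 * v 2 * v 4 + 8 * v 3 ^ 2 = 0)
    (h3 : v 1 * v 6 - 3 * v 2 * v 5 + 2 * v 3 * v 4 = 0)
    (h4 : v 2 * v 6 - 4 * v 3 * v 5 + 3 * v 4 ^ 2 = 0) :
    D3 v 0 1 2 2 3 5 = (v 0) * eval v (etaP 2 3 5) ∧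
    D3 v 4 3 2 2 3 5 = (-v 6) * eval v (etaP 2 3 5) ∧
    D3 v 0 1 3 2 3 5 = (v 1) * eval v (etaP 2 3 5) ∧
    D3 v 4 3 1 2 3 5 = (-v 5) * eval v (etaP 2 3 5) := by
  have he : eval v (etaP 2 3 5) = 36 * v 1 * v 4 + (-96) * v 2 * v 3 := by
    show eval v (qm 36 1 4 + qm (-96) 2 3) = _
    simp only [map_add, eval_qm]
  rw [he]
  refine ⟨?_, ?_, ?_, ?_⟩
  · show (6 * v 2) * ((2 * v 2) * (0) - (v 0) * (16 * v 3)) -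
      (-4 * v 1) * ((2 * v 3) * (0) - (v 0) * (-9 * v 4)) +
      (0) * ((2 * v 3) * (16 * v 3) - (2 * v 2) * (-9 * v 4)) = (v 0) * (36 * v 1 * v 4 + (-96) * v 2 * v 3)
    ring
  · show (v 6) * ((2 * v 4) * (0) - (-3 * v 2) * (16 * v 3)) -
      (-4 * v 5) * ((-3 * v 5) * (0) - (-3 * v 2) * (-9 * v 4)) +
      (-4 * v 3) * ((-3 * v 5) * (16 * v 3) - (2 * v 4) * (-9 * v 4)) = (-v 6) * (36 * v 1 * v 4 + (-96) * v 2 * v 3)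
    linear_combination (-24) * v 6 * h1 + 24 * v 5 * h2 + (-36) * v 4 * h3
  · show (6 * v 2) * ((2 * v 2) * (-3 * v 2) - (v 0) * (2 * v 4)) -
      (-4 * v 1) * ((2 * v 3) * (-3 * v 2) - (v 0) * (-3 * v 5)) +
      (0) * ((2 * v 3) * (2 * v 4) - (2 * v 2) * (-3 * v 5)) = (v 1) * (36 * v 1 * v 4 + (-96) * v 2 * v 3)
    linear_combination (-12) * v 2 * h0 + 12 * v 1 * h1
  · show (v 6) * ((2 * v 4) * (v 0) - (-3 * v 2) * (2 * v 2)) -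
      (-4 * v 5) * ((-3 * v 5) * (v 0) - (-3 * v 2) * (2 * v 3)) +
      (-4 * v 3) * ((-3 * v 5) * (2 * v 2) - (2 * v 4) * (2 * v 3)) = (-v 5) * (36 * v 1 * v 4 + (-96) * v 2 * v 3)
    linear_combination 2 * v 6 * h0 + (-12) * v 5 * h1 + 8 * v 3 * h3

lemma mi_236 (v : Fin 8 → ℂ)
    (h0 : v 0 * v 4 - 4 * v 1 * v 3 + 3 * v 2 ^ 2 = 0)
    (h1 : v 0 * v 5 - 3 * v 1 * v 4 + 2 * v 2 * v 3 = 0)
    (h2 : v 0 * v 6 - 9 * v 2 * v 4 + 8 * v 3 ^ 2 = 0)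
    (h3 : v 1 * v 6 - 3 * v 2 * v 5 + 2 * v 3 * v 4 = 0)
    (h4 : v 2 * v 6 - 4 * v 3 * v 5 + 3 * v 4 ^ 2 = 0) :
    D3 v 0 1 2 2 3 6 = (v 0) * eval v (etaP 2 3 6) ∧
    D3 v 4 3 2 2 3 6 = (-v 6) * eval v (etaP 2 3 6) ∧
    D3 v 0 1 3 2 3 6 = (v 1) * eval v (etaP 2 3 6) ∧
    D3 v 4 3 1 2 3 6 = (-v 5) * eval v (etaP 2 3 6) := by
  have he : eval v (etaP 2 3 6) = 8 * v 1 * v 3 + 12 * v 2 * v 2 := by
    show eval v (qm 8 1 3 + qm 12 2 2) = _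
    simp only [map_add, eval_qm]
  rw [he]
  refine ⟨?_, ?_, ?_, ?_⟩
  · show (6 * v 2) * ((2 * v 2) * (v 0) - (0) * (16 * v 3)) -
      (-4 * v 1) * ((2 * v 3) * (v 0) - (0) * (-9 * v 4)) +
      (0) * ((2 * v 3) * (16 * v 3) - (2 * v 2) * (-9 * v 4)) = (v 0) * (8 * v 1 * v 3 + 12 * v 2 * v 2)
    ring
  · show (v 6) * ((2 * v 4) * (v 0) - (v 1) * (16 * v 3)) -
      (-4 * v 5) * ((-3 * v 5) * (v 0) - (v 1) * (-9 * v 4)) +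
      (v 2) * ((-3 * v 5) * (16 * v 3) - (2 * v 4) * (-9 * v 4)) = (-v 6) * (8 * v 1 * v 3 + 12 * v 2 * v 2)
    linear_combination 4 * v 6 * h0 + (-12) * v 5 * h1 + (-2) * v 4 * h2 + 8 * v 3 * h3
  · show (6 * v 2) * ((2 * v 2) * (v 1) - (0) * (2 * v 4)) -
      (-4 * v 1) * ((2 * v 3) * (v 1) - (0) * (-3 * v 5)) +
      (0) * ((2 * v 3) * (2 * v 4) - (2 * v 2) * (-3 * v 5)) = (v 1) * (8 * v 1 * v 3 + 12 * v 2 * v 2)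
    ring
  · show (v 6) * ((2 * v 4) * (0) - (v 1) * (2 * v 2)) -
      (-4 * v 5) * ((-3 * v 5) * (0) - (v 1) * (2 * v 3)) +
      (v 2) * ((-3 * v 5) * (2 * v 2) - (2 * v 4) * (2 * v 3)) = (-v 5) * (8 * v 1 * v 3 + 12 * v 2 * v 2)
    linear_combination (-2) * v 2 * h3

lemma mi_245 (v : Fin 8 → ℂ)
    (h0 : v 0 * v 4 - 4 * v 1 * v 3 + 3 * v 2 ^ 2 = 0)
    (h1 : v 0 * v 5 - 3 * v 1 * v 4 + 2 * v 2 * v 3 = 0)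
    (h2 : v 0 * v 6 - 9 * v 2 * v 4 + 8 * v 3 ^ 2 = 0)
    (h3 : v 1 * v 6 - 3 * v 2 * v 5 + 2 * v 3 * v 4 = 0)
    (h4 : v 2 * v 6 - 4 * v 3 * v 5 + 3 * v 4 ^ 2 = 0) :
    D3 v 0 1 2 2 4 5 = (v 0) * eval v (etaP 2 4 5) ∧
    D3 v 4 3 2 2 4 5 = (-v 6) * eval v (etaP 2 4 5) ∧
    D3 v 0 1 3 2 4 5 = (v 1) * eval v (etaP 2 4 5) ∧
    D3 v 4 3 1 2 4 5 = (-v 5) * eval v (etaP 2 4 5) := by
  have he : eval v (etaP 2 4 5) = (-9) * v 0 * v 4 + 54 * v 2 * v 2 := by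
    show eval v (qm (-9) 0 4 + qm 54 2 2) = _
    simp only [map_add, eval_qm]
  rw [he]
  refine ⟨?_, ?_, ?_, ?_⟩
  · show (6 * v 2) * ((-3 * v 1) * (0) - (v 0) * (-9 * v 2)) -
      (v 0) * ((2 * v 3) * (0) - (v 0) * (-9 * v 4)) +
      (0) * ((2 * v 3) * (-9 * v 2) - (-3 * v 1) * (-9 * v 4)) = (v 0) * ((-9) * v 0 * v 4 + 54 * v 2 * v 2)
    ring
  · show (v 6) * ((2 * v 3) * (0) - (-3 * v 2) * (-9 * v 2)) -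
      (6 * v 4) * ((-3 * v 5) * (0) - (-3 * v 2) * (-9 * v 4)) +
      (-4 * v 3) * ((-3 * v 5) * (-9 * v 2) - (2 * v 3) * (-9 * v 4)) = (-v 6) * ((-9) * v 0 * v 4 + 54 * v 2 * v 2)
    linear_combination 9 * v 6 * h0 + (-18) * v 4 * h2 + 36 * v 3 * h3
  · show (6 * v 2) * ((-3 * v 1) * (-3 * v 2) - (v 0) * (2 * v 3)) -
      (v 0) * ((2 * v 3) * (-3 * v 2) - (v 0) * (-3 * v 5)) +
      (0) * ((2 * v 3) * (2 * v 3) - (-3 * v 1) * (-3 * v 5)) = (v 1) * ((-9) * v 0 * v 4 + 54 * v 2 * v 2)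
    linear_combination (-3) * v 0 * h1
  · show (v 6) * ((2 * v 3) * (v 0) - (-3 * v 2) * (-3 * v 1)) -
      (6 * v 4) * ((-3 * v 5) * (v 0) - (-3 * v 2) * (2 * v 3)) +
      (-4 * v 3) * ((-3 * v 5) * (-3 * v 1) - (2 * v 3) * (2 * v 3)) = (-v 5) * ((-9) * v 0 * v 4 + 54 * v 2 * v 2)
    linear_combination 9 * v 5 * h0 + 2 * v 3 * h2 + (-9) * v 2 * h3

lemma mi_246 (v : Fin 8 → ℂ)
    (h0 : v 0 * v 4 - 4 * v 1 * v 3 + 3 * v 2 ^ 2 = 0)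
    (h1 : v 0 * v 5 - 3 * v 1 * v 4 + 2 * v 2 * v 3 = 0)
    (h2 : v 0 * v 6 - 9 * v 2 * v 4 + 8 * v 3 ^ 2 = 0)
    (h3 : v 1 * v 6 - 3 * v 2 * v 5 + 2 * v 3 * v 4 = 0)
    (h4 : v 2 * v 6 - 4 * v 3 * v 5 + 3 * v 4 ^ 2 = 0) :
    D3 v 0 1 2 2 4 6 = (v 0) * eval v (etaP 2 4 6) ∧
    D3 v 4 3 2 2 4 6 = (-v 6) * eval v (etaP 2 4 6) ∧
    D3 v 0 1 3 2 4 6 = (v 1) * eval v (etaP 2 4 6) ∧
    D3 v 4 3 1 2 4 6 = (-v 5) * eval v (etaP 2 4 6) := by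
  have he : eval v (etaP 2 4 6) = (-2) * v 0 * v 3 + (-18) * v 1 * v 2 := by
    show eval v (qm (-2) 0 3 + qm (-18) 1 2) = _
    simp only [map_add, eval_qm]
  rw [he]
  refine ⟨?_, ?_, ?_, ?_⟩
  · show (6 * v 2) * ((-3 * v 1) * (v 0) - (0) * (-9 * v 2)) -
      (v 0) * ((2 * v 3) * (v 0) - (0) * (-9 * v 4)) +
      (0) * ((2 * v 3) * (-9 * v 2) - (-3 * v 1) * (-9 * v 4)) = (v 0) * ((-2) * v 0 * v 3 + (-18) * v 1 * v 2)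
    ring
  · show (v 6) * ((2 * v 3) * (v 0) - (v 1) * (-9 * v 2)) -
      (6 * v 4) * ((-3 * v 5) * (v 0) - (v 1) * (-9 * v 4)) +
      (v 2) * ((-3 * v 5) * (-9 * v 2) - (2 * v 3) * (-9 * v 4)) = (-v 6) * ((-2) * v 0 * v 3 + (-18) * v 1 * v 2)
    linear_combination 18 * v 4 * h1 + (-9) * v 2 * h3
  · show (6 * v 2) * ((-3 * v 1) * (v 1) - (0) * (2 * v 3)) -
      (v 0) * ((2 * v 3) * (v 1) - (0) * (-3 * v 5)) +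
      (0) * ((2 * v 3) * (2 * v 3) - (-3 * v 1) * (-3 * v 5)) = (v 1) * ((-2) * v 0 * v 3 + (-18) * v 1 * v 2)
    ring
  · show (v 6) * ((2 * v 3) * (0) - (v 1) * (-3 * v 1)) -
      (6 * v 4) * ((-3 * v 5) * (0) - (v 1) * (2 * v 3)) +
      (v 2) * ((-3 * v 5) * (-3 * v 1) - (2 * v 3) * (2 * v 3)) = (-v 5) * ((-2) * v 0 * v 3 + (-18) * v 1 * v 2)
    linear_combination (-2) * v 3 * h1 + 3 * v 1 * h3

lemma mi_256 (v : Fin 8 → ℂ)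
    (h0 : v 0 * v 4 - 4 * v 1 * v 3 + 3 * v 2 ^ 2 = 0)
    (h1 : v 0 * v 5 - 3 * v 1 * v 4 + 2 * v 2 * v 3 = 0)
    (h2 : v 0 * v 6 - 9 * v 2 * v 4 + 8 * v 3 ^ 2 = 0)
    (h3 : v 1 * v 6 - 3 * v 2 * v 5 + 2 * v 3 * v 4 = 0)
    (h4 : v 2 * v 6 - 4 * v 3 * v 5 + 3 * v 4 ^ 2 = 0) :
    D3 v 0 1 2 2 5 6 = (v 0) * eval v (etaP 2 5 6) ∧
    D3 v 4 3 2 2 5 6 = (-v 6) * eval v (etaP 2 5 6) ∧
    D3 v 0 1 3 2 5 6 = (v 1) * eval v (etaP 2 5 6) ∧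
    D3 v 4 3 1 2 5 6 = (-v 5) * eval v (etaP 2 5 6) := by
  have he : eval v (etaP 2 5 6) = 6 * v 0 * v 2 := by
    show eval v (qm 6 0 2) = _
    simp only [map_add, eval_qm]
  rw [he]
  refine ⟨?_, ?_, ?_, ?_⟩
  · show (6 * v 2) * ((v 0) * (v 0) - (0) * (0)) -
      (0) * ((2 * v 3) * (v 0) - (0) * (-9 * v 4)) +
      (0) * ((2 * v 3) * (0) - (v 0) * (-9 * v 4)) = (v 0) * (6 * v 0 * v 2)
    ring
  · show (v 6) * ((-3 * v 2) * (v 0) - (v 1) * (0)) -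
      (-4 * v 3) * ((-3 * v 5) * (v 0) - (v 1) * (-9 * v 4)) +
      (v 2) * ((-3 * v 5) * (0) - (-3 * v 2) * (-9 * v 4)) = (-v 6) * (6 * v 0 * v 2)
    linear_combination (-12) * v 3 * h1 + 3 * v 2 * h2
  · show (6 * v 2) * ((v 0) * (v 1) - (0) * (-3 * v 2)) -
      (0) * ((2 * v 3) * (v 1) - (0) * (-3 * v 5)) +
      (0) * ((2 * v 3) * (-3 * v 2) - (v 0) * (-3 * v 5)) = (v 1) * (6 * v 0 * v 2)
    ring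
  · show (v 6) * ((-3 * v 2) * (0) - (v 1) * (v 0)) -
      (-4 * v 3) * ((-3 * v 5) * (0) - (v 1) * (2 * v 3)) +
      (v 2) * ((-3 * v 5) * (v 0) - (-3 * v 2) * (2 * v 3)) = (-v 5) * (6 * v 0 * v 2)
    linear_combination 3 * v 2 * h1 + (-1) * v 1 * h2

lemma mi_345 (v : Fin 8 → ℂ)
    (h0 : v 0 * v 4 - 4 * v 1 * v 3 + 3 * v 2 ^ 2 = 0)
    (h1 : v 0 * v 5 - 3 * v 1 * v 4 + 2 * v 2 * v 3 = 0)
    (h2 : v 0 * v 6 - 9 * v 2 * v 4 + 8 * v 3 ^ 2 = 0)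
    (h3 : v 1 * v 6 - 3 * v 2 * v 5 + 2 * v 3 * v 4 = 0)
    (h4 : v 2 * v 6 - 4 * v 3 * v 5 + 3 * v 4 ^ 2 = 0) :
    D3 v 0 1 2 3 4 5 = (v 0) * eval v (etaP 3 4 5) ∧
    D3 v 4 3 2 3 4 5 = (-v 6) * eval v (etaP 3 4 5) ∧
    D3 v 0 1 3 3 4 5 = (v 1) * eval v (etaP 3 4 5) ∧
    D3 v 4 3 1 3 4 5 = (-v 5) * eval v (etaP 3 4 5) := by
  have he : eval v (etaP 3 4 5) = 16 * v 0 * v 3 + (-36) * v 1 * v 2 := by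
    show eval v (qm 16 0 3 + qm (-36) 1 2) = _
    simp only [map_add, eval_qm]
  rw [he]
  refine ⟨?_, ?_, ?_, ?_⟩
  · show (-4 * v 1) * ((-3 * v 1) * (0) - (v 0) * (-9 * v 2)) -
      (v 0) * ((2 * v 2) * (0) - (v 0) * (16 * v 3)) +
      (0) * ((2 * v 2) * (-9 * v 2) - (-3 * v 1) * (16 * v 3)) = (v 0) * (16 * v 0 * v 3 + (-36) * v 1 * v 2)
    ring
  · show (-4 * v 5) * ((2 * v 3) * (0) - (-3 * v 2) * (-9 * v 2)) -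
      (6 * v 4) * ((2 * v 4) * (0) - (-3 * v 2) * (16 * v 3)) +
      (-4 * v 3) * ((2 * v 4) * (-9 * v 2) - (2 * v 3) * (16 * v 3)) = (-v 6) * (16 * v 0 * v 3 + (-36) * v 1 * v 2)
    linear_combination 16 * v 3 * h2 + (-36) * v 2 * h3
  · show (-4 * v 1) * ((-3 * v 1) * (-3 * v 2) - (v 0) * (2 * v 3)) -
      (v 0) * ((2 * v 2) * (-3 * v 2) - (v 0) * (2 * v 4)) +
      (0) * ((2 * v 2) * (2 * v 3) - (-3 * v 1) * (2 * v 4)) = (v 1) * (16 * v 0 * v 3 + (-36) * v 1 * v 2)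
    linear_combination 2 * v 0 * h0
  · show (-4 * v 5) * ((2 * v 3) * (v 0) - (-3 * v 2) * (-3 * v 1)) -
      (6 * v 4) * ((2 * v 4) * (v 0) - (-3 * v 2) * (2 * v 2)) +
      (-4 * v 3) * ((2 * v 4) * (-3 * v 1) - (2 * v 3) * (2 * v 2)) = (-v 5) * (16 * v 0 * v 3 + (-36) * v 1 * v 2)
    linear_combination (-12) * v 4 * h0 + 8 * v 3 * h1

lemma mi_346 (v : Fin 8 → ℂ)
    (h0 : v 0 * v 4 - 4 * v 1 * v 3 + 3 * v 2 ^ 2 = 0)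
    (h1 : v 0 * v 5 - 3 * v 1 * v 4 + 2 * v 2 * v 3 = 0)
    (h2 : v 0 * v 6 - 9 * v 2 * v 4 + 8 * v 3 ^ 2 = 0)
    (h3 : v 1 * v 6 - 3 * v 2 * v 5 + 2 * v 3 * v 4 = 0)
    (h4 : v 2 * v 6 - 4 * v 3 * v 5 + 3 * v 4 ^ 2 = 0) :
    D3 v 0 1 2 3 4 6 = (v 0) * eval v (etaP 3 4 6) ∧
    D3 v 4 3 2 3 4 6 = (-v 6) * eval v (etaP 3 4 6) ∧
    D3 v 0 1 3 3 4 6 = (v 1) * eval v (etaP 3 4 6) ∧
    D3 v 4 3 1 3 4 6 = (-v 5) * eval v (etaP 3 4 6) := by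
  have he : eval v (etaP 3 4 6) = (-2) * v 0 * v 2 + 12 * v 1 * v 1 := by
    show eval v (qm (-2) 0 2 + qm 12 1 1) = _
    simp only [map_add, eval_qm]
  rw [he]
  refine ⟨?_, ?_, ?_, ?_⟩
  · show (-4 * v 1) * ((-3 * v 1) * (v 0) - (0) * (-9 * v 2)) -
      (v 0) * ((2 * v 2) * (v 0) - (0) * (16 * v 3)) +
      (0) * ((2 * v 2) * (-9 * v 2) - (-3 * v 1) * (16 * v 3)) = (v 0) * ((-2) * v 0 * v 2 + 12 * v 1 * v 1)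
    ring
  · show (-4 * v 5) * ((2 * v 3) * (v 0) - (v 1) * (-9 * v 2)) -
      (6 * v 4) * ((2 * v 4) * (v 0) - (v 1) * (16 * v 3)) +
      (v 2) * ((2 * v 4) * (-9 * v 2) - (2 * v 3) * (16 * v 3)) = (-v 6) * ((-2) * v 0 * v 2 + 12 * v 1 * v 1)
    linear_combination (-12) * v 4 * h0 + (-8) * v 3 * h1 + (-2) * v 2 * h2 + 12 * v 1 * h3
  · show (-4 * v 1) * ((-3 * v 1) * (v 1) - (0) * (2 * v 3)) -
      (v 0) * ((2 * v 2) * (v 1) - (0) * (2 * v 4)) +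
      (0) * ((2 * v 2) * (2 * v 3) - (-3 * v 1) * (2 * v 4)) = (v 1) * ((-2) * v 0 * v 2 + 12 * v 1 * v 1)
    ring
  · show (-4 * v 5) * ((2 * v 3) * (0) - (v 1) * (-3 * v 1)) -
      (6 * v 4) * ((2 * v 4) * (0) - (v 1) * (2 * v 2)) +
      (v 2) * ((2 * v 4) * (-3 * v 1) - (2 * v 3) * (2 * v 2)) = (-v 5) * ((-2) * v 0 * v 2 + 12 * v 1 * v 1)
    linear_combination (-2) * v 2 * h1

lemma mi_356 (v : Fin 8 → ℂ)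
    (h0 : v 0 * v 4 - 4 * v 1 * v 3 + 3 * v 2 ^ 2 = 0)
    (h1 : v 0 * v 5 - 3 * v 1 * v 4 + 2 * v 2 * v 3 = 0)
    (h2 : v 0 * v 6 - 9 * v 2 * v 4 + 8 * v 3 ^ 2 = 0)
    (h3 : v 1 * v 6 - 3 * v 2 * v 5 + 2 * v 3 * v 4 = 0)
    (h4 : v 2 * v 6 - 4 * v 3 * v 5 + 3 * v 4 ^ 2 = 0) :
    D3 v 0 1 2 3 5 6 = (v 0) * eval v (etaP 3 5 6) ∧
    D3 v 4 3 2 3 5 6 = (-v 6) * eval v (etaP 3 5 6) ∧
    D3 v 0 1 3 3 5 6 = (v 1) * eval v (etaP 3 5 6) ∧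
    D3 v 4 3 1 3 5 6 = (-v 5) * eval v (etaP 3 5 6) := by
  have he : eval v (etaP 3 5 6) = (-4) * v 0 * v 1 := by
    show eval v (qm (-4) 0 1) = _
    simp only [map_add, eval_qm]
  rw [he]
  refine ⟨?_, ?_, ?_, ?_⟩
  · show (-4 * v 1) * ((v 0) * (v 0) - (0) * (0)) -
      (0) * ((2 * v 2) * (v 0) - (0) * (16 * v 3)) +
      (0) * ((2 * v 2) * (0) - (v 0) * (16 * v 3)) = (v 0) * ((-4) * v 0 * v 1)
    ring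
  · show (-4 * v 5) * ((-3 * v 2) * (v 0) - (v 1) * (0)) -
      (-4 * v 3) * ((2 * v 4) * (v 0) - (v 1) * (16 * v 3)) +
      (v 2) * ((2 * v 4) * (0) - (-3 * v 2) * (16 * v 3)) = (-v 6) * ((-4) * v 0 * v 1)
    linear_combination 8 * v 3 * h0 + 12 * v 2 * h1 + (-4) * v 1 * h2
  · show (-4 * v 1) * ((v 0) * (v 1) - (0) * (-3 * v 2)) -
      (0) * ((2 * v 2) * (v 1) - (0) * (2 * v 4)) +
      (0) * ((2 * v 2) * (-3 * v 2) - (v 0) * (2 * v 4)) = (v 1) * ((-4) * v 0 * v 1)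
    ring
  · show (-4 * v 5) * ((-3 * v 2) * (0) - (v 1) * (v 0)) -
      (-4 * v 3) * ((2 * v 4) * (0) - (v 1) * (2 * v 2)) +
      (v 2) * ((2 * v 4) * (v 0) - (-3 * v 2) * (2 * v 2)) = (-v 5) * ((-4) * v 0 * v 1)
    linear_combination 2 * v 2 * h0

lemma mi_456 (v : Fin 8 → ℂ)
    (h0 : v 0 * v 4 - 4 * v 1 * v 3 + 3 * v 2 ^ 2 = 0)
    (h1 : v 0 * v 5 - 3 * v 1 * v 4 + 2 * v 2 * v 3 = 0)
    (h2 : v 0 * v 6 - 9 * v 2 * v 4 + 8 * v 3 ^ 2 = 0)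
    (h3 : v 1 * v 6 - 3 * v 2 * v 5 + 2 * v 3 * v 4 = 0)
    (h4 : v 2 * v 6 - 4 * v 3 * v 5 + 3 * v 4 ^ 2 = 0) :
    D3 v 0 1 2 4 5 6 = (v 0) * eval v (etaP 4 5 6) ∧
    D3 v 4 3 2 4 5 6 = (-v 6) * eval v (etaP 4 5 6) ∧
    D3 v 0 1 3 4 5 6 = (v 1) * eval v (etaP 4 5 6) ∧
    D3 v 4 3 1 4 5 6 = (-v 5) * eval v (etaP 4 5 6) := by
  have he : eval v (etaP 4 5 6) = 1 * v 0 * v 0 := by
    show eval v (qm 1 0 0) = _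
    simp only [map_add, eval_qm]
  rw [he]
  refine ⟨?_, ?_, ?_, ?_⟩
  · show (v 0) * ((v 0) * (v 0) - (0) * (0)) -
      (0) * ((-3 * v 1) * (v 0) - (0) * (-9 * v 2)) +
      (0) * ((-3 * v 1) * (0) - (v 0) * (-9 * v 2)) = (v 0) * (1 * v 0 * v 0)
    ring
  · show (6 * v 4) * ((-3 * v 2) * (v 0) - (v 1) * (0)) -
      (-4 * v 3) * ((2 * v 3) * (v 0) - (v 1) * (-9 * v 2)) +
      (v 2) * ((2 * v 3) * (0) - (-3 * v 2) * (-9 * v 2)) = (-v 6) * (1 * v 0 * v 0)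
    linear_combination (-9) * v 2 * h0 + 1 * v 0 * h2
  · show (v 0) * ((v 0) * (v 1) - (0) * (-3 * v 2)) -
      (0) * ((-3 * v 1) * (v 1) - (0) * (2 * v 3)) +
      (0) * ((-3 * v 1) * (-3 * v 2) - (v 0) * (2 * v 3)) = (v 1) * (1 * v 0 * v 0)
    ring
  · show (6 * v 4) * ((-3 * v 2) * (0) - (v 1) * (v 0)) -
      (-4 * v 3) * ((2 * v 3) * (0) - (v 1) * (-3 * v 1)) +
      (v 2) * ((2 * v 3) * (v 0) - (-3 * v 2) * (-3 * v 1)) = (-v 5) * (1 * v 0 * v 0)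
    linear_combination (-3) * v 1 * h0 + 1 * v 0 * h1

end Pool.Agent.Lib.MP_6e94a1_ag
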