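import Pool.Agent.Lib.MP_6e94a1_ag.CovConic

/-!
# The family of conics over the lines of `V₅` is irreducible
-/

open scoped LinearAlgebra.Projectivization Topology
open MvPolynomial Set

set_option linter.all false

namespace Pool.Agent.Lib.MP_6e94a1_ag

def qA (Q : Matrix (Fin 7) (Fin 7) ℂ) (g : M2) : ℂ := quad Q (rho g (EE 1 0))

def qB (Q : Matrix (Fin 7) (Fin 7) ℂ) (g : M2) : ℂ := bil Q (rho g (EE 1 0)) (rho g (EE 0 1))

def qC (Q : Matrix (Fin 7) (Fin 7) ℂ) (g : M2) : ℂ := quad Q (rho g (EE 0 1))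

/-- discriminant of the quadratic form on the line attached to `g` -/
def qD (Q : Matrix (Fin 7) (Fin 7) ℂ) (g : M2) : ℂ := qB Q g ^ 2 - 4 * qA Q g * qC Q g

lemma quad_EE (Q : Matrix (Fin 7) (Fin 7) ℂ) (g : M2) (x y : ℂ) :
    quad Q (rho g (EE x y)) = qA Q g * x ^ 2 + qB Q g * (x * y) + qC Q g * y ^ 2 := by
  rw [EE_eq, map_add, map_smul, map_smul, quad_comb, qA, qB, qC]
  ring

lemma coef4 {a0 a1 a2 a3 a4 : ℂ}
    (h : ∀ s t : ℂ, a0 * s ^ 4 + a1 * (s ^ 3 * t) + a2 * (s ^ 2 * t ^ 2) + a3 * (s * t ^ 3) +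
      a4 * t ^ 4 = 0) : a0 = 0 ∧ a1 = 0 ∧ a2 = 0 ∧ a3 = 0 ∧ a4 = 0 := by
  have h1 := h 1 0
  have h2 := h 0 1
  have h3 := h 1 1
  have h4 := h 1 (-1)
  have h5 := h 1 2
  norm_num at h1 h2 h3 h4 h5
  subst h1 h2
  have e2 : a2 = 0 := by linear_combination (1 / 2 : ℂ) * h3 + (1 / 2 : ℂ) * h4
  subst e2
  have e3 : a3 = 0 := by linear_combination (1 / 6 : ℂ) * h5 - (1 / 3 : ℂ) * h3
  subst e3
  have e1 : a1 = 0 := by linear_combination h3
  exact ⟨rfl, e1, rfl, rfl, rfl⟩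

lemma qf_mul_eq_zero {U V : Fin 3 → ℂ} (h : ∀ s t, qf U s t * qf V s t = 0) :
    U = 0 ∨ V = 0 := by
  obtain ⟨c0, c1, c2, c3, c4⟩ := coef4 (a0 := U 0 * V 0) (a1 := U 0 * V 1 + U 1 * V 0)
    (a2 := U 0 * V 2 + U 1 * V 1 + U 2 * V 0) (a3 := U 1 * V 2 + U 2 * V 1) (a4 := U 2 * V 2) (by
      intro s t
      have := h s t
      simp only [qf] at this
      linear_combination this)
  by_cases h0 : U 0 = 0
  · rw [h0] at c1 c2
    simp only [zero_mul, zero_add] at c1 c2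
    by_cases h1 : U 1 = 0
    · rw [h1] at c2 c3
      simp only [zero_mul, zero_add] at c2 c3
      by_cases h2 : U 2 = 0
      · left
        ext i
        fin_cases i
        · exact h0
        · exact h1
        · exact h2
      · right
        ext i
        fin_cases i
        · exact (mul_eq_zero.1 c2).resolve_left h2
        · exact (mul_eq_zero.1 c3).resolve_left h2
        · exact (mul_eq_zero.1 c4).resolve_left h2
    · right
      have v0 : V 0 = 0 := (mul_eq_zero.1 c1).resolve_left h1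
      rw [v0, mul_zero, add_zero] at c2
      have v1 : V 1 = 0 := (mul_eq_zero.1 c2).resolve_left h1
      rw [v1, mul_zero, add_zero] at c3
      have v2 : V 2 = 0 := (mul_eq_zero.1 c3).resolve_left h1
      ext i
      fin_cases i
      · exact v0
      · exact v1
      · exact v2
  · right
    have v0 : V 0 = 0 := (mul_eq_zero.1 c0).resolve_left h0
    rw [v0, mul_zero, add_zero] at c1
    have v1 : V 1 = 0 := (mul_eq_zero.1 c1).resolve_left h0
    rw [v0, v1, mul_zero, mul_zero, add_zero, add_zero] at c2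
    have v2 : V 2 = 0 := (mul_eq_zero.1 c2).resolve_left h0
    ext i
    fin_cases i
    · exact v0
    · exact v1
    · exact v2

/-- substitution in a binary quadratic form -/
def subq (X : Fin 3 → ℂ) (κ : M2) : Fin 3 → ℂ :=
  ![X 0 * κ 0 0 ^ 2 + X 1 * (κ 0 0 * κ 1 0) + X 2 * κ 1 0 ^ 2,
    2 * X 0 * (κ 0 0 * κ 0 1) + X 1 * (κ 0 0 * κ 1 1 + κ 0 1 * κ 1 0) +
      2 * X 2 * (κ 1 0 * κ 1 1),
    X 0 * κ 0 1 ^ 2 + X 1 * (κ 0 1 * κ 1 1) + X 2 * κ 1 1 ^ 2]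

lemma qf_subq (X : Fin 3 → ℂ) (κ : M2) (s t : ℂ) :
    qf (subq X κ) s t = qf X (κ 0 0 * s + κ 0 1 * t) (κ 1 0 * s + κ 1 1 * t) := by
  simp only [qf, subq, Matrix.cons_val]
  ring

lemma sub_mkc (g : M2) (X Y W : Fin 3 → ℂ) (κ : M2) :
    sub (mkc g X Y W) κ = mkc g (subq X κ) (subq Y κ) (subq W κ) := by
  apply conicPt_inj
  intro s t
  rw [conicPt_sub, conicPt_mkc, conicPt_mkc, qf_subq, qf_subq, qf_subq]

/-- membership in the space of conics -/
lemma mem_conics {Q : Matrix (Fin 7) (Fin 7) ℂ} {c : Fin 8 × Fin 3 → ℂ} :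
    c ∈ conics (zeros (eqX Q)) ↔ LI c ∧ ∀ s t, Cone (low (conicPt c s t)) ∧
      (conicPt c s t) 7 ^ 2 = quad Q (low (conicPt c s t)) := by
  constructor
  · rintro ⟨h1, h2⟩
    refine ⟨(LI_iff _).1 h1, fun s t => ?_⟩
    by_cases h0 : conicPt c s t = 0
    · rw [h0]
      have : low (0 : Fin 8 → ℂ) = 0 := rfl
      rw [this, quad_zero]
      exact ⟨by simp [Cone], by simp⟩
    · have h3 := h2 ⟨s, t, h0, rfl⟩
      rw [mem_zeros_eqX, mem_cone_eqX] at h3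
      exact h3.2
  · rintro ⟨h1, h2⟩
    refine ⟨(LI_iff _).2 h1, ?_⟩
    rintro p ⟨s, t, h, rfl⟩
    rw [mem_zeros_eqX, mem_cone_eqX]
    exact ⟨h, h2 s t⟩

lemma mkc_mem {Q : Matrix (Fin 7) (Fin 7) ℂ} {g : M2} (hg : g.det ≠ 0) {X Y W : Fin 3 → ℂ} :
    mkc g X Y W ∈ conics (zeros (eqX Q)) ↔ det3 X Y W ≠ 0 ∧ ∀ s t, qf W s t ^ 2 =
      qA Q g * qf X s t ^ 2 + qB Q g * (qf X s t * qf Y s t) + qC Q g * qf Y s t ^ 2 := by
  rw [mem_conics, LI_mkc hg]
  refine and_congr_right fun _ => ?_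
  refine forall_congr' fun s => forall_congr' fun t => ?_
  rw [conicPt_mkc, low_up, up_seven, quad_EE]
  exact and_iff_right ((cone_EE _ _).rho g)

lemma qD_ne {Q : Matrix (Fin 7) (Fin 7) ℂ} {g : M2} {X Y W : Fin 3 → ℂ} (h : det3 X Y W ≠ 0)
    (h' : ∀ s t, qf W s t ^ 2 =
      qA Q g * qf X s t ^ 2 + qB Q g * (qf X s t * qf Y s t) + qC Q g * qf Y s t ^ 2) :
    qD Q g ≠ 0 := by
  intro hD
  rw [qD] at hD
  obtain ⟨p, q, hp, hpq, hq⟩ : ∃ p q : ℂ, p ^ 2 = qA Q g ∧ 2 * p * q = qB Q g ∧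
      q ^ 2 = qC Q g := by
    by_cases hA : qA Q g = 0
    · have hB : qB Q g = 0 := by
        rw [hA] at hD
        have : qB Q g ^ 2 = 0 := by linear_combination hD
        exact pow_eq_zero_iff (two_ne_zero) |>.1 this
      obtain ⟨q, hq⟩ := IsAlgClosed.exists_pow_nat_eq (qC Q g) (n := 2) (by norm_num)
      exact ⟨0, q, by rw [hA]; ring, by rw [hB]; ring, hq⟩
    · obtain ⟨p, hp⟩ := IsAlgClosed.exists_pow_nat_eq (qA Q g) (n := 2) (by norm_num)
      have hp0 : p ≠ 0 := by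
        rintro rfl
        apply hA
        rw [← hp]
        ring
      refine ⟨p, qB Q g / (2 * p), hp, by field_simp, ?_⟩
      field_simp
      rw [hp]
      linear_combination hD
  have key : ∀ s t, qf (fun i => W i - p * X i - q * Y i) s t *
      qf (fun i => W i + p * X i + q * Y i) s t = 0 := by
    intro s t
    have h1 := h' s t
    rw [← hp, ← hpq, ← hq] at h1
    have e1 : qf (fun i => W i - p * X i - q * Y i) s t = qf W s t - p * qf X s t -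
        q * qf Y s t := by
      simp only [qf]
      ring
    have e2 : qf (fun i => W i + p * X i + q * Y i) s t = qf W s t + p * qf X s t +
        q * qf Y s t := by
      simp only [qf]
      ring
    rw [e1, e2]
    linear_combination h1
  apply h
  rcases qf_mul_eq_zero key with h2 | h2
  · have a0 := congrFun h2 0
    have a1 := congrFun h2 1
    have a2 := congrFun h2 2
    simp only [Pi.zero_apply] at a0 a1 a2
    simp only [det3]
    linear_combination (X 1 * Y 2 - X 2 * Y 1) * a0 - (X 0 * Y 2 - X 2 * Y 0) * a1 +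
      (X 0 * Y 1 - X 1 * Y 0) * a2
  · have a0 := congrFun h2 0
    have a1 := congrFun h2 1
    have a2 := congrFun h2 2
    simp only [Pi.zero_apply] at a0 a1 a2
    simp only [det3]
    linear_combination (X 1 * Y 2 - X 2 * Y 1) * a0 - (X 0 * Y 2 - X 2 * Y 0) * a1 +
      (X 0 * Y 1 - X 1 * Y 0) * a2

/-- the standard parametrisation of the conic over the line of `g`, from the point `w0` -/
def rr (Q : Matrix (Fin 7) (Fin 7) ℂ) (g : M2) (w0 : ℂ) : Fin 8 × Fin 3 → ℂ :=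
  mkc g ![qC Q g, 0, -1] ![-qB Q g, 2 * w0, 0] ![w0 * qC Q g, -qB Q g, w0]

lemma rr_mem {Q : Matrix (Fin 7) (Fin 7) ℂ} {g : M2} (hg : g.det ≠ 0) (hD : qD Q g ≠ 0) {w0 : ℂ}
    (hw : w0 ^ 2 = qA Q g) : rr Q g w0 ∈ conics (zeros (eqX Q)) := by
  rw [rr, mkc_mem hg]
  constructor
  · simp only [det3, Matrix.cons_val]
    rw [qD, ← hw] at hD
    intro h
    apply hD
    linear_combination -h
  · intro s t
    simp only [qf, Matrix.cons_val]
    rw [← hw]
    ring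

lemma det3_subq (X Y W : Fin 3 → ℂ) (κ : M2) :
    det3 (subq X κ) (subq Y κ) (subq W κ) = κ.det ^ 3 * det3 X Y W := by
  simp only [det3, subq, Matrix.cons_val, Matrix.det_fin_two]
  ring

/-- normal form when `Y` vanishes at `(1,0)` -/
lemma conic_normal_form {Q : Matrix (Fin 7) (Fin 7) ℂ} {g : M2} {X Y W : Fin 3 → ℂ}
    (h : det3 X Y W ≠ 0) (h' : ∀ s t, qf W s t ^ 2 =
      qA Q g * qf X s t ^ 2 + qB Q g * (qf X s t * qf Y s t) + qC Q g * qf Y s t ^ 2)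
    (hY : Y 0 = 0) : ∃ (w0 : ℂ) (κ : M2), w0 ^ 2 = qA Q g ∧ κ.det ≠ 0 ∧
      mkc g X Y W = sub (rr Q g w0) κ := by
  have hD := qD_ne h h'
  have hX0 : X 0 ≠ 0 := by
    intro hX
    have h1 := h' 1 0
    simp only [qf] at h1
    rw [hX, hY] at h1
    have hW : W 0 = 0 := by
      have : W 0 ^ 2 = 0 := by linear_combination h1
      exact pow_eq_zero_iff (two_ne_zero) |>.1 this
    apply h
    simp only [det3]
    rw [hX, hY, hW]
    ring
  -- the point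
  obtain ⟨w0, hw0⟩ : ∃ w0, w0 * X 0 = W 0 := ⟨W 0 / X 0, by field_simp⟩
  have hw : w0 ^ 2 = qA Q g := by
    have h1 := h' 1 0
    simp only [qf] at h1
    rw [hY] at h1
    apply mul_right_cancel₀ (pow_ne_zero 2 hX0)
    rw [← hw0] at h1
    linear_combination h1
  obtain ⟨z1, hz1⟩ : ∃ z1, z1 = W 1 - w0 * X 1 := ⟨_, rfl⟩
  obtain ⟨z2, hz2⟩ : ∃ z2, z2 = W 2 - w0 * X 2 := ⟨_, rfl⟩
  have e1 : W 1 = w0 * X 1 + z1 := by rw [hz1]; ring
  have e2 : W 2 = w0 * X 2 + z2 := by rw [hz2]; ring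
  obtain ⟨c0, c1, c2, c3, c4⟩ := coef4
    (a0 := 0)
    (a1 := X 0 * (2 * w0 * z1 - qB Q g * Y 1))
    (a2 := X 0 * (2 * w0 * z2 - qB Q g * Y 2) + X 1 * (2 * w0 * z1 - qB Q g * Y 1) +
      z1 ^ 2 - qC Q g * Y 1 ^ 2)
    (a3 := X 1 * (2 * w0 * z2 - qB Q g * Y 2) + X 2 * (2 * w0 * z1 - qB Q g * Y 1) +
      2 * z1 * z2 - 2 * qC Q g * Y 1 * Y 2)
    (a4 := X 2 * (2 * w0 * z2 - qB Q g * Y 2) + z2 ^ 2 - qC Q g * Y 2 ^ 2) (by
      intro s t
      have h1 := h' s t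
      simp only [qf] at h1
      rw [hY, ← hw0, e1, e2, ← hw] at h1
      linear_combination h1)
  have d1 : 2 * w0 * z1 - qB Q g * Y 1 = 0 := (mul_eq_zero.1 c1).resolve_left hX0
  rw [d1] at c2 c3
  obtain ⟨ν, hν⟩ : ∃ ν, ν = 2 * w0 * z2 - qB Q g * Y 2 := ⟨_, rfl⟩
  rw [← hν] at c2 c3 c4
  have hdet : det3 X Y W = X 0 * (Y 1 * z2 - Y 2 * z1) := by
    simp only [det3]
    rw [hY, e1, e2, ← hw0]
    ring
  have hyz : Y 1 * z2 - Y 2 * z1 ≠ 0 := by
    intro h0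
    rw [hdet, h0, mul_zero] at h
    exact h rfl
  have hν0 : ν ≠ 0 := by
    intro h0
    rw [h0] at c2 c3 c4 hν
    have f1 : qD Q g * Y 1 ^ 2 = 0 := by
      rw [qD, ← hw]
      linear_combination (-(qB Q g * Y 1 + 2 * w0 * z1)) * d1 + (4 * w0 ^ 2) * c2
    have f2 : qD Q g * Y 2 ^ 2 = 0 := by
      rw [qD, ← hw]
      linear_combination (qB Q g * Y 2 + 2 * w0 * z2) * hν + (4 * w0 ^ 2) * c4
    have g1 : Y 1 = 0 := pow_eq_zero_iff (two_ne_zero) |>.1 ((mul_eq_zero.1 f1).resolve_left hD)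
    have g2 : Y 2 = 0 := pow_eq_zero_iff (two_ne_zero) |>.1 ((mul_eq_zero.1 f2).resolve_left hD)
    apply hyz
    rw [g1, g2]
    ring
  obtain ⟨r, hr⟩ := IsAlgClosed.exists_pow_nat_eq (1 / ν) (n := 2) (by norm_num)
  have hrν : r ^ 2 * ν = 1 := by
    rw [hr]
    field_simp
  have hr0 : r ≠ 0 := by
    rintro rfl
    simp at hrν
  refine ⟨w0, !![r * Y 1, r * Y 2; r * z1, r * z2], hw, ?_, ?_⟩
  · rw [Matrix.det_fin_two_of]
    intro h0
    apply hyz
    have : r ^ 2 * (Y 1 * z2 - Y 2 * z1) = 0 := by linear_combination h0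
    exact (mul_eq_zero.1 this).resolve_left (pow_ne_zero 2 hr0)
  · apply conicPt_inj
    intro s t
    rw [conicPt_sub, conicPt_mkc, rr, conicPt_mkc]
    have x0 : X 0 = r ^ 2 * (qC Q g * Y 1 ^ 2 - z1 ^ 2) := by
      linear_combination r ^ 2 * c2 - (X 0) * hrν
    have x1 : X 1 = r ^ 2 * (2 * qC Q g * Y 1 * Y 2 - 2 * z1 * z2) := by
      linear_combination r ^ 2 * c3 - (X 1) * hrν
    have x2 : X 2 = r ^ 2 * (qC Q g * Y 2 ^ 2 - z2 ^ 2) := by
      linear_combination r ^ 2 * c4 - (X 2) * hrν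
    have fX : qf X s t = qf ![qC Q g, 0, -1]
        ((!![r * Y 1, r * Y 2; r * z1, r * z2] : M2) 0 0 * s +
          (!![r * Y 1, r * Y 2; r * z1, r * z2] : M2) 0 1 * t)
        ((!![r * Y 1, r * Y 2; r * z1, r * z2] : M2) 1 0 * s +
          (!![r * Y 1, r * Y 2; r * z1, r * z2] : M2) 1 1 * t) := by
      simp only [qf, Matrix.cons_val, Matrix.of_apply, Matrix.cons_val_zero, Matrix.cons_val_one]
      linear_combination (s ^ 2) * x0 + (s * t) * x1 + (t ^ 2) * x2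
    have fY : qf Y s t = qf ![-qB Q g, 2 * w0, 0]
        ((!![r * Y 1, r * Y 2; r * z1, r * z2] : M2) 0 0 * s +
          (!![r * Y 1, r * Y 2; r * z1, r * z2] : M2) 0 1 * t)
        ((!![r * Y 1, r * Y 2; r * z1, r * z2] : M2) 1 0 * s +
          (!![r * Y 1, r * Y 2; r * z1, r * z2] : M2) 1 1 * t) := by
      simp only [qf, Matrix.cons_val, Matrix.of_apply, Matrix.cons_val_zero, Matrix.cons_val_one]
      rw [hY]
      linear_combination (-(Y 1 * s + Y 2 * t) * t) * hrν +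
        (-r ^ 2 * (Y 1 * s + Y 2 * t) * s) * d1 + (r ^ 2 * (Y 1 * s + Y 2 * t) * t) * hν
    have fW : qf W s t = qf ![w0 * qC Q g, -qB Q g, w0]
        ((!![r * Y 1, r * Y 2; r * z1, r * z2] : M2) 0 0 * s +
          (!![r * Y 1, r * Y 2; r * z1, r * z2] : M2) 0 1 * t)
        ((!![r * Y 1, r * Y 2; r * z1, r * z2] : M2) 1 0 * s +
          (!![r * Y 1, r * Y 2; r * z1, r * z2] : M2) 1 1 * t) := by
      simp only [qf, Matrix.cons_val, Matrix.of_apply, Matrix.cons_val_zero, Matrix.cons_val_one]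
      rw [← hw0, e1, e2]
      linear_combination (w0 * s ^ 2) * x0 + (w0 * s * t) * x1 + (w0 * t ^ 2) * x2 +
        (-(z1 * s + z2 * t) * t) * hrν +
        (-r ^ 2 * (z1 * s + z2 * t) * s) * d1 + (r ^ 2 * (z1 * s + z2 * t) * t) * hν
    rw [fX, fY, fW]

lemma exists_root_qf (Y : Fin 3 → ℂ) : ∃ s t : ℂ, (s ≠ 0 ∨ t ≠ 0) ∧ qf Y s t = 0 := by
  by_cases h : Y 0 = 0
  · exact ⟨1, 0, Or.inl one_ne_zero, by simp [qf, h]⟩
  · obtain ⟨δ, hδ⟩ := IsAlgClosed.exists_pow_nat_eq (Y 1 ^ 2 - 4 * Y 0 * Y 2) (n := 2)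
      (by norm_num)
    refine ⟨(-Y 1 + δ) / (2 * Y 0), 1, Or.inr one_ne_zero, ?_⟩
    simp only [qf]
    field_simp
    linear_combination hδ

/-- all conics over the line of `g` are obtained from the standard one -/
theorem exists_param {Q : Matrix (Fin 7) (Fin 7) ℂ} {g : M2} (hg : g.det ≠ 0)
    {X Y W : Fin 3 → ℂ} (h : mkc g X Y W ∈ conics (zeros (eqX Q))) :
    ∃ (w0 : ℂ) (κ : M2), w0 ^ 2 = qA Q g ∧ κ.det ≠ 0 ∧ qD Q g ≠ 0 ∧
      mkc g X Y W = sub (rr Q g w0) κ := by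
  have h1 := (mkc_mem hg).1 h
  have hD := qD_ne h1.1 h1.2
  obtain ⟨s, t, hst, hY⟩ := exists_root_qf Y
  obtain ⟨κ, hκ, hκ0, hκ1⟩ : ∃ κ : M2, κ.det ≠ 0 ∧ κ 0 0 = s ∧ κ 1 0 = t := by
    rcases hst with h | h
    · exact ⟨!![s, 0; t, 1], by rw [Matrix.det_fin_two_of]; simpa using h, rfl, rfl⟩
    · refine ⟨!![s, 1; t, 0], ?_, rfl, rfl⟩
      rw [Matrix.det_fin_two_of]
      simpa using h
  have h2 := conics_sub h hκ
  rw [sub_mkc, mkc_mem hg] at h2
  obtain ⟨w0, κ', hw, hκ', he⟩ := conic_normal_form h2.1 h2.2 (by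
    simp only [subq, Matrix.cons_val]
    rw [hκ0, hκ1]
    simp only [qf] at hY
    exact hY)
  refine ⟨w0, κ' * κ⁻¹, hw, ?_, hD, ?_⟩
  · rw [Matrix.det_mul]
    exact mul_ne_zero hκ' (det_inv_ne hκ)
  · rw [← sub_sub, ← he, ← sub_mkc, sub_sub, Matrix.mul_nonsing_inv _ (isUnit_iff_ne_zero.2 hκ),
      sub_one]

end Pool.Agent.Lib.MP_6e94a1_ag
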