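import Pool.Agent.Lib.MP_6e94a1_ag.CovMain

/-!
# The counterexample: final assembly
-/

open scoped LinearAlgebra.Projectivization Topology
open MvPolynomial Set Filter

set_option linter.all false

namespace Pool.Agent.Lib.MP_6e94a1_ag

variable {Q : Matrix (Fin 7) (Fin 7) ℂ}

lemma continuous_rho_ch (g : M2) : Continuous (fun z : Fin 3 → ℂ => rho g (ch z)) := by
  apply (rho_continuous g).comp
  rw [continuous_pi_iff]
  intro i
  fin_cases i <;> simp only [ch, Fin.zero_eta, Fin.mk_one, Fin.reduceFinMk, Matrix.cons_val] <;>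
    fun_prop

lemma continuous_quad' (Q : Matrix (Fin 7) (Fin 7) ℂ) : Continuous (quad Q) := by
  have : quad Q = fun a => ∑ i : Fin 7, ∑ j : Fin 7, Q i j * a i * a j := rfl
  rw [this]
  fun_prop

/-- near the base point all lines are good -/
lemma eventually_not_bad (hQ : GenQ Q) : ∀ᶠ z in 𝓝 zb, ∀ n ∈ Metric.sphere (0 : Fin 7 → ℂ) 1,
    ¬ Bad Q (rho (tt * uu (-2)) (ch z)) n := by
  have hcomp : IsCompact (Metric.sphere (0 : Fin 7 → ℂ) 1) := isCompact_sphere _ _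
  apply hcomp.eventually_forall_of_forall_eventually
  intro n hn
  have hn1 : ‖n‖ = 1 := by simpa using hn
  have hnb := not_bad_zb hQ hn1
  -- the bad set is closed
  have ha : Continuous (fun p : (Fin 3 → ℂ) × (Fin 7 → ℂ) => rho (tt * uu (-2)) (ch p.1)) :=
    (continuous_rho_ch _).comp continuous_fst
  have hn' : Continuous (fun p : (Fin 3 → ℂ) × (Fin 7 → ℂ) => p.2) := continuous_snd
  have hai : ∀ i, Continuous (fun p : (Fin 3 → ℂ) × (Fin 7 → ℂ) =>
      rho (tt * uu (-2)) (ch p.1) i) := fun i => (continuous_apply i).comp ha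
  have hni : ∀ i, Continuous (fun p : (Fin 3 → ℂ) × (Fin 7 → ℂ) => p.2 i) := fun i =>
    (continuous_apply i).comp hn'
  have hclosed : IsClosed {p : (Fin 3 → ℂ) × (Fin 7 → ℂ) |
      Bad Q (rho (tt * uu (-2)) (ch p.1)) p.2} := by
    have s1 : IsClosed {p : (Fin 3 → ℂ) × (Fin 7 → ℂ) |
        pv (rho (tt * uu (-2)) (ch p.1)) p.2 = 0} := by
      apply isClosed_eq _ continuous_const
      apply continuous_pi
      intro i
      fin_cases i <;> simp only [pv, Fin.zero_eta, Fin.mk_one, Fin.reduceFinMk,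
        Matrix.cons_val] <;> fun_prop
    have s2 : IsClosed {p : (Fin 3 → ℂ) × (Fin 7 → ℂ) | qv p.2 = 0} := by
      apply isClosed_eq _ continuous_const
      apply continuous_pi
      intro i
      fin_cases i <;> simp only [qv, Fin.zero_eta, Fin.mk_one, Fin.reduceFinMk,
        Matrix.cons_val] <;> fun_prop
    have s3 : IsClosed {p : (Fin 3 → ℂ) × (Fin 7 → ℂ) |
        DD Q (rho (tt * uu (-2)) (ch p.1)) p.2 = 0} := by
      apply isClosed_eq _ continuous_const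
      simp only [DD, quad, bil]
      fun_prop
    have s4 : IsClosed {p : (Fin 3 → ℂ) × (Fin 7 → ℂ) |
        ∑ i, (starRingEnd ℂ) (rho (tt * uu (-2)) (ch p.1) i) * p.2 i = 0} := by
      apply isClosed_eq _ continuous_const
      have hc : ∀ i, Continuous (fun p : (Fin 3 → ℂ) × (Fin 7 → ℂ) =>
          (starRingEnd ℂ) (rho (tt * uu (-2)) (ch p.1) i)) := fun i =>
        Complex.continuous_conj.comp (hai i)
      exact continuous_finset_sum _ fun i _ => (hc i).mul (hni i)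
    exact s1.inter (s2.inter (s3.inter s4))
  exact hclosed.isOpen_compl.mem_nhds hnb

/-- a unit vector orthogonal to `a` in the span -/
lemma exists_orth {a n : Fin 7 → ℂ} (ha : a ≠ 0) (hn : ∀ c : ℂ, n ≠ c • a) :
    ∃ α β : ℂ, β ≠ 0 ∧ ‖α • a + β • n‖ = 1 ∧
      ∑ i, (starRingEnd ℂ) (a i) * (α • a + β • n) i = 0 := by
  have hs : ∑ i, (starRingEnd ℂ) (a i) * a i ≠ 0 := by
    intro h
    apply ha
    have h1 : ∑ i, ‖a i‖ ^ 2 = 0 := by
      have h2 : ((∑ i, ‖a i‖ ^ 2 : ℝ) : ℂ) = 0 := by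
        rw [← h]
        push_cast
        refine Finset.sum_congr rfl fun i _ => ?_
        rw [← Complex.mul_conj', mul_comm]
      exact_mod_cast h2
    ext i
    have h3 := (Finset.sum_eq_zero_iff_of_nonneg (fun i _ => by positivity)).1 h1 i
      (Finset.mem_univ i)
    simpa using h3
  set S := ∑ i, (starRingEnd ℂ) (a i) * a i with hS
  set T := ∑ i, (starRingEnd ℂ) (a i) * n i with hT
  set m : Fin 7 → ℂ := (-T / S) • a + n with hm
  have hm0 : m ≠ 0 := by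
    intro h
    apply hn (T / S)
    have : n = -((-T / S) • a) := by
      rw [eq_neg_iff_add_eq_zero, add_comm]
      exact h
    rw [this, ← neg_smul]
    congr 1
    ring
  have hN : (‖m‖ : ℂ) ≠ 0 := by
    rw [Complex.ofReal_ne_zero]
    exact norm_ne_zero_iff.2 hm0
  refine ⟨(‖m‖ : ℂ)⁻¹ * (-T / S), (‖m‖ : ℂ)⁻¹, inv_ne_zero hN, ?_, ?_⟩
  · have e : ((‖m‖ : ℂ)⁻¹ * (-T / S)) • a + (‖m‖ : ℂ)⁻¹ • n = (‖m‖ : ℂ)⁻¹ • m := by
      rw [hm, smul_add, smul_smul]
    rw [e, norm_smul, norm_inv, Complex.norm_real, norm_norm]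
    exact inv_mul_cancel₀ (norm_ne_zero_iff.2 hm0)
  · have e : ∑ i, (starRingEnd ℂ) (a i) * (((‖m‖ : ℂ)⁻¹ * (-T / S)) • a + (‖m‖ : ℂ)⁻¹ • n) i =
        (‖m‖ : ℂ)⁻¹ * ((-T / S) * S + T) := by
      rw [hS, hT, Finset.mul_sum, ← Finset.sum_add_distrib, Finset.mul_sum]
      refine Finset.sum_congr rfl fun i _ => ?_
      simp only [Pi.add_apply, Pi.smul_apply, smul_eq_mul]
      ring
    rw [e]
    field_simp
    ring

/-- good lines from non-badness -/
lemma qD_of_not_bad {g : M2} (hg : g.det ≠ 0) {x y : ℂ} (hxy : rho g (EE x y) ≠ 0)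
    (h : ∀ n ∈ Metric.sphere (0 : Fin 7 → ℂ) 1, ¬ Bad Q (rho g (EE x y)) n) : qD Q g ≠ 0 := by
  intro hD
  have hne : x ≠ 0 ∨ y ≠ 0 := by
    by_contra hcon
    push Not at hcon
    apply hxy
    rw [hcon.1, hcon.2]
    have : EE 0 0 = 0 := by
      ext i
      fin_cases i <;> simp [EE]
    rw [this, map_zero]
  obtain ⟨x', y', hdet⟩ : ∃ x' y' : ℂ, x * y' - y * x' ≠ 0 := by
    rcases hne with h | h
    · exact ⟨0, 1, by simpa using h⟩
    · exact ⟨1, 0, by simpa using h⟩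
  have hind : ∀ c : ℂ, rho g (EE x' y') ≠ c • rho g (EE x y) := by
    intro c hc
    rw [← map_smul, EE_smul] at hc
    obtain ⟨h1, h2⟩ := EE_inj (rho_injective hg hc)
    apply hdet
    rw [h1, h2]
    ring
  obtain ⟨α, β, hβ, hnorm, horth⟩ := exists_orth hxy hind
  have hn : α • rho g (EE x y) + β • rho g (EE x' y') =
      rho g (EE (α * x + β * x') (α * y + β * y')) := by
    rw [← map_smul, ← map_smul, ← map_add, EE_comb]
  rw [hn] at hnorm horth
  apply h _ (by simpa using hnorm)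
  refine ⟨?_, ?_, ?_, horth⟩
  · have h1 : qv (rho g (EE x y) + rho g (EE (α * x + β * x') (α * y + β * y'))) = 0 := by
      rw [← map_add, EE_add]
      exact (cone_iff _).1 ((cone_EE _ _).rho g)
    rw [qv_add, (cone_iff _).1 ((cone_EE x y).rho g),
      (cone_iff _).1 ((cone_EE (α * x + β * x') (α * y + β * y')).rho g)] at h1
    simpa using h1
  · exact (cone_iff _).1 ((cone_EE _ _).rho g)
  · rw [DD_EE, hD, mul_zero]

/-- the image of the base point is not on the line of `gs` -/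
lemma not_on_gs : ∀ x y, rho (tt * uu (-2)) (ch zb) ≠ rho gs (EE x y) := by
  intro x y h
  rw [h2_zb, rho_tt] at h
  have h0 := congrFun h 0
  have h1 := congrFun h 1
  have h2 := congrFun h 2
  have h3 := congrFun h 3
  have h5 := congrFun h 5
  simp [f0, gs, rho, rhoAux, EE] at h0 h1 h2 h3 h5
  norm_num at h0 h1 h2 h3 h5
  have e1 : x = -y := by linear_combination (-1 / 6 : ℂ) * h0
  rw [e1] at h1 h5
  have : (1 : ℂ) = 0 := by linear_combination (-6) * h1 - 6 * h5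
  exact one_ne_zero this

/-- the points on the line of `gs` form a closed set -/
lemma eventually_not_on_gs : ∀ᶠ z in 𝓝 zb, ∀ x y, rho (tt * uu (-2)) (ch z) ≠ rho gs (EE x y) := by
  have hc : Continuous (fun z : Fin 3 → ℂ => rho gs⁻¹ (rho (tt * uu (-2)) (ch z))) :=
    (rho_continuous _).comp (continuous_rho_ch _)
  have hci : ∀ i, Continuous (fun z : Fin 3 → ℂ => rho gs⁻¹ (rho (tt * uu (-2)) (ch z)) i) :=
    fun i => (continuous_apply i).comp hc
  have key : ∀ z : Fin 3 → ℂ, (∃ x y, rho (tt * uu (-2)) (ch z) = rho gs (EE x y)) ↔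
      (rho gs⁻¹ (rho (tt * uu (-2)) (ch z)) 0 = 0 ∧ rho gs⁻¹ (rho (tt * uu (-2)) (ch z)) 2 = 0 ∧
       rho gs⁻¹ (rho (tt * uu (-2)) (ch z)) 3 = 0 ∧ rho gs⁻¹ (rho (tt * uu (-2)) (ch z)) 4 = 0 ∧
       rho gs⁻¹ (rho (tt * uu (-2)) (ch z)) 6 = 0) := by
    intro z
    constructor
    · rintro ⟨x, y, h⟩
      rw [h, rho_inv_rho gs_det]
      simp [EE]
    · rintro ⟨h0, h2, h3, h4, h6⟩
      refine ⟨rho gs⁻¹ (rho (tt * uu (-2)) (ch z)) 1, rho gs⁻¹ (rho (tt * uu (-2)) (ch z)) 5, ?_⟩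
      have e : rho gs⁻¹ (rho (tt * uu (-2)) (ch z)) =
          EE (rho gs⁻¹ (rho (tt * uu (-2)) (ch z)) 1)
            (rho gs⁻¹ (rho (tt * uu (-2)) (ch z)) 5) := by
        ext i
        fin_cases i
        · exact h0
        · rfl
        · exact h2
        · exact h3
        · exact h4
        · rfl
        · exact h6
      rw [← e, rho_rho_inv gs_det]
  have hclosed : IsClosed {z : Fin 3 → ℂ | ∃ x y, rho (tt * uu (-2)) (ch z) = rho gs (EE x y)} := by
    have : {z : Fin 3 → ℂ | ∃ x y, rho (tt * uu (-2)) (ch z) = rho gs (EE x y)} =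
      {z | rho gs⁻¹ (rho (tt * uu (-2)) (ch z)) 0 = 0 ∧
        rho gs⁻¹ (rho (tt * uu (-2)) (ch z)) 2 = 0 ∧
       rho gs⁻¹ (rho (tt * uu (-2)) (ch z)) 3 = 0 ∧ rho gs⁻¹ (rho (tt * uu (-2)) (ch z)) 4 = 0 ∧
       rho gs⁻¹ (rho (tt * uu (-2)) (ch z)) 6 = 0} := by
      ext z
      exact key z
    rw [this]
    exact (isClosed_eq (hci 0) continuous_const).inter ((isClosed_eq (hci 2) continuous_const).inter
      ((isClosed_eq (hci 3) continuous_const).inter ((isClosed_eq (hci 4) continuous_const).inter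
      (isClosed_eq (hci 6) continuous_const))))
  have hmem : zb ∈ {z : Fin 3 → ℂ | ∃ x y, rho (tt * uu (-2)) (ch z) = rho gs (EE x y)}ᶜ := by
    rintro ⟨x, y, h⟩
    exact not_on_gs x y h
  filter_upwards [hclosed.isOpen_compl.mem_nhds hmem] with z hz x y h
  exact hz ⟨x, y, h⟩

/-- positivity near the base point -/
lemma eventually_pos {g : M2} (h : quad Q (rho g (ch zb)) ≠ 0) :
    ∃ κ : ℂ, κ ≠ 0 ∧ ∀ᶠ z in 𝓝 zb, 0 < (quad Q (rho g (ch z)) / κ ^ 2).re := by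
  obtain ⟨κ, hκ⟩ := IsAlgClosed.exists_pow_nat_eq (quad Q (rho g (ch zb))) (n := 2) (by norm_num)
  have hκ0 : κ ≠ 0 := by
    rintro rfl
    apply h
    rw [← hκ]
    ring
  refine ⟨κ, hκ0, ?_⟩
  have hc : Continuous (fun z : Fin 3 → ℂ => (quad Q (rho g (ch z)) / κ ^ 2).re) :=
    Complex.continuous_re.comp
      (((continuous_quad' Q).comp (continuous_rho_ch g)).div_const _)
  apply hc.continuousAt.eventually (Ioi_mem_nhds _)
  simp only
  rw [← hκ, div_self (pow_ne_zero 2 hκ0)]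
  simp

lemma continuous_inv6 : Continuous inv6 := by
  have : inv6 = fun a : Fin 7 → ℂ =>
    a 0 * a 6 - 6 * a 1 * a 5 + 15 * a 2 * a 4 - 10 * a 3 ^ 2 := rfl
  rw [this]
  fun_prop

lemma inv6_smul (c : ℂ) (a : Fin 7 → ℂ) : inv6 (c • a) = c ^ 2 * inv6 a := by
  simp only [inv6, Pi.smul_apply, smul_eq_mul]
  ring

/-- Main theorem on the double cover attached to a general quadric. -/
theorem cover_main (hQ : GenQ Q) : ∃ (U₁ U₂ : Set (ℙ ℂ (Fin 8 → ℂ)))
    (φ : ℙ ℂ (Fin 8 → ℂ) → ℙ ℂ (Fin 8 → ℂ)),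
    IsOpenIn (zeros (eqX Q)) U₁ ∧ IsOpenIn (zeros (eqX Q)) U₂ ∧ IsConn U₁ ∧ IsConn U₂ ∧
    IsBiholomorphic φ U₁ U₂ ∧
    (∀ c ∈ MM Q, ∃ c' ∈ MM Q, φ '' (curve c ∩ U₁) = curve c' ∩ U₂) ∧
    ¬ ∃ Φ : ℙ ℂ (Fin 8 → ℂ) → ℙ ℂ (Fin 8 → ℂ), IsBiregularAut (zeros (eqX Q)) Φ ∧
      ∀ p ∈ U₁, Φ p = φ p := by
  have hh1 : (uu (-2)).det ≠ 0 := uu_det _
  have hh2 := h2_det
  obtain ⟨κ₁, hκ₁, hp1⟩ := eventually_pos (Q := Q) (g := uu (-2)) (by
    rw [h1_zb, quad_smul]
    exact mul_ne_zero (by norm_num) hQ.h1)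
  obtain ⟨κ₂, hκ₂, hp2⟩ := eventually_pos (Q := Q) (g := tt * uu (-2)) (by
    rw [h2_zb, quad_smul]
    exact mul_ne_zero (by norm_num) hQ.h2)
  have hinv : ∀ᶠ z in 𝓝 zb, inv6 (rho (uu (-2)) (ch z)) ≠ 0 := by
    apply (continuous_inv6.comp (continuous_rho_ch (uu (-2)))).continuousAt.eventually_ne
    simp only [Function.comp_apply]
    rw [h1_zb, inv6_smul]
    simp [inv6, f0]
  obtain ⟨ε, hε, hball⟩ := Metric.eventually_nhds_iff_ball.1
    (hp1.and (hp2.and (hinv.and ((eventually_not_bad hQ).and eventually_not_on_gs))))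
  have hpos1 : Pos Q (uu (-2)) κ₁ zb ε := fun z hz => (hball z hz).1
  have hpos2 : Pos Q (tt * uu (-2)) κ₂ zb ε := fun z hz => (hball z hz).2.1
  refine ⟨UU Q (uu (-2)) κ₁ zb ε, UU Q (tt * uu (-2)) κ₂ zb ε,
    phi Q (uu (-2)) (tt * uu (-2)) hh2 κ₂, UU_open Q _ hκ₁, UU_open Q _ hκ₂,
    UU_conn hh1 hκ₁ hpos1 hε, UU_conn hh2 hκ₂ hpos2 hε,
    phi_biholo hh1 hh2 hκ₁ hκ₂ hpos1 hpos2, ?_, ?_⟩
  · intro c hc
    by_cases hempty : curve c ∩ UU Q (uu (-2)) κ₁ zb ε = ∅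
    · obtain ⟨X, Y, W, hc'⟩ := exists_member gs_det hQ.h4
      refine ⟨_, Zgen_sub_MM Q hc', ?_⟩
      rw [hempty, image_empty]
      symm
      rw [eq_empty_iff_forall_notMem]
      rintro p ⟨hp1, hp2⟩
      rw [UU_eq_image hh2 hκ₂ hpos2] at hp2
      obtain ⟨z, hz, rfl⟩ := hp2
      simp only at hp1
      rw [curve_mkc gs_det hc'.1 (psi_ne hh2 z)] at hp1
      obtain ⟨-, x, y, hxy⟩ := hp1
      rw [psi, low_up] at hxy
      exact (hball z hz).2.2.2.2 x y hxy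
    · rw [← ne_eq, ← nonempty_iff_ne_empty] at hempty
      obtain ⟨p, hpc, hpU⟩ := hempty
      rw [UU_eq_image hh1 hκ₁ hpos1] at hpU
      obtain ⟨z, hz, rfl⟩ := hpU
      simp only at hpc
      -- the member lies over a line of the orbit
      obtain ⟨s, t, hst, hmk⟩ := hpc
      obtain ⟨e, he, hce⟩ := mk_eq_low hst _ hmk.symm
      have hI : inv6 (low (conicPt c s t)) ≠ 0 := by
        rw [hce, low_smul, inv6_smul, psi, low_up]
        exact mul_ne_zero (pow_ne_zero 2 he) (hball z hz).2.2.1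
      obtain ⟨hcc, g, hg, X, Y, W, rfl⟩ := MM_orbit hc hI
      have hline : ∃ x y, rho (uu (-2)) (ch z) = rho g (EE x y) := by
        have h1 := (curve_mkc hg hcc (psi_ne hh1 z)).1 ⟨s, t, hst, hmk⟩
        obtain ⟨-, x, y, hxy⟩ := h1
        rw [psi, low_up] at hxy
        exact ⟨x, y, hxy⟩
      have htg : (tt * g).det ≠ 0 := by
        rw [Matrix.det_mul]
        exact mul_ne_zero tt_det hg
      obtain ⟨x, y, hxy⟩ := hline
      have hxy' : rho (tt * uu (-2)) (ch z) = rho (tt * g) (EE x y) := by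
        rw [rho_mul, hxy, rho_mul]
      have hD : qD Q (tt * g) ≠ 0 := by
        apply qD_of_not_bad htg (x := x) (y := y)
        · rw [← hxy']
          exact rho_ch_ne hh2 z
        · rw [← hxy']
          exact (hball z hz).2.2.2.1
      obtain ⟨X', Y', W', hc'⟩ := exists_member htg hD
      refine ⟨_, Zgen_sub_MM Q hc', ?_⟩
      ext p
      constructor
      · rintro ⟨q, ⟨hq1, hq2⟩, rfl⟩
        rw [UU_eq_image hh1 hκ₁ hpos1] at hq2
        obtain ⟨w, hw, rfl⟩ := hq2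
        simp only at hq1 ⊢
        rw [phi_psi hh1 hh2]
        refine ⟨?_, psi_mem_UU hh2 hκ₂ hpos2 hw⟩
        rw [curve_mkc htg hc'.1 (psi_ne hh2 w)]
        rw [curve_mkc hg hcc (psi_ne hh1 w)] at hq1
        obtain ⟨-, x, y, hxy⟩ := hq1
        rw [psi, low_up] at hxy
        refine ⟨psi_mem hh2 hκ₂ (hpos2 w hw), x, y, ?_⟩
        rw [psi, low_up, rho_mul, hxy, rho_mul]
      · rintro ⟨hq1, hq2⟩
        rw [UU_eq_image hh2 hκ₂ hpos2] at hq2
        obtain ⟨w, hw, rfl⟩ := hq2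
        simp only at hq1 ⊢
        refine ⟨Projectivization.mk ℂ (psi Q (uu (-2)) κ₁ w) (psi_ne hh1 w), ⟨?_, ?_⟩, ?_⟩
        · rw [curve_mkc hg hcc (psi_ne hh1 w)]
          rw [curve_mkc htg hc'.1 (psi_ne hh2 w)] at hq1
          obtain ⟨-, x, y, hxy⟩ := hq1
          rw [psi, low_up, rho_mul, rho_mul] at hxy
          refine ⟨psi_mem hh1 hκ₁ (hpos1 w hw), x, y, ?_⟩
          rw [psi, low_up]
          exact rho_injective tt_det hxy
        · exact psi_mem_UU hh1 hκ₁ hpos1 hw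
        · rw [phi_psi hh1 hh2]
  · obtain ⟨b, hb0, hb, hqb, hqtb⟩ := exists_b hQ
    exact no_extension hQ.hQ 2 hκ₁ hε hpos1 tt tt_det hh2 κ₂ hb0 hb hqb hqtb

end Pool.Agent.Lib.MP_6e94a1_ag
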