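import Pool.Agent.Lib.MP_6e94a1_ag.CovBase

/-!
# Smoothness of the double cover
-/

open scoped LinearAlgebra.Projectivization Topology
open MvPolynomial Set

set_option linter.all false

namespace Pool.Agent.Lib.MP_6e94a1_ag

/-- directional derivative -/
noncomputable def dd {m : ℕ} (v n : Fin m → ℂ) (F : MvPolynomial (Fin m) ℂ) : ℂ :=
  ∑ j, n j * eval v (pderiv j F)

lemma dd_add {m : ℕ} (v n : Fin m → ℂ) (F G : MvPolynomial (Fin m) ℂ) :
    dd v n (F + G) = dd v n F + dd v n G := by
  simp only [dd, map_add, mul_add, Finset.sum_add_distrib]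

lemma dd_sub {m : ℕ} (v n : Fin m → ℂ) (F G : MvPolynomial (Fin m) ℂ) :
    dd v n (F - G) = dd v n F - dd v n G := by
  simp only [dd, map_sub, mul_sub, Finset.sum_sub_distrib]

lemma dd_mul {m : ℕ} (v n : Fin m → ℂ) (F G : MvPolynomial (Fin m) ℂ) :
    dd v n (F * G) = dd v n F * eval v G + eval v F * dd v n G := by
  simp only [dd, Derivation.leibniz, smul_eq_mul, map_add, map_mul, Finset.sum_mul,
    Finset.mul_sum, ← Finset.sum_add_distrib]
  refine Finset.sum_congr rfl fun j _ => ?_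
  ring

lemma dd_X {m : ℕ} (v n : Fin m → ℂ) (k : Fin m) : dd v n (X k) = n k := by
  simp only [dd]
  rw [Finset.sum_eq_single k]
  · simp
  · intro b _ hb
    rw [pderiv_X_of_ne (Ne.symm hb)]
    simp
  · simp

lemma dd_C {m : ℕ} (v n : Fin m → ℂ) (c : ℂ) : dd v n (C c) = 0 := by
  simp [dd]

lemma dd_sq {m : ℕ} (v n : Fin m → ℂ) (F : MvPolynomial (Fin m) ℂ) :
    dd v n (F ^ 2) = 2 * eval v F * dd v n F := by
  rw [pow_two, dd_mul]
  ring

lemma dd_sum {m : ℕ} {ι : Type*} (s : Finset ι) (v n : Fin m → ℂ)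
    (F : ι → MvPolynomial (Fin m) ℂ) : dd v n (∑ i ∈ s, F i) = ∑ i ∈ s, dd v n (F i) := by
  classical
  induction s using Finset.induction_on with
  | empty => simp [dd]
  | insert a s ha ih => rw [Finset.sum_insert ha, Finset.sum_insert ha, dd_add, ih]

lemma dd_two {m : ℕ} (v n : Fin m → ℂ) : dd v n 2 = 0 := by
  have : (2 : MvPolynomial (Fin m) ℂ) = C 2 := by rw [map_ofNat]
  rw [this, dd_C]

lemma dd_three {m : ℕ} (v n : Fin m → ℂ) : dd v n 3 = 0 := by
  have : (3 : MvPolynomial (Fin m) ℂ) = C 3 := by rw [map_ofNat]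
  rw [this, dd_C]

lemma dd_four {m : ℕ} (v n : Fin m → ℂ) : dd v n 4 = 0 := by
  have : (4 : MvPolynomial (Fin m) ℂ) = C 4 := by rw [map_ofNat]
  rw [this, dd_C]

lemma dd_eight {m : ℕ} (v n : Fin m → ℂ) : dd v n 8 = 0 := by
  have : (8 : MvPolynomial (Fin m) ℂ) = C 8 := by rw [map_ofNat]
  rw [this, dd_C]

lemma dd_nine {m : ℕ} (v n : Fin m → ℂ) : dd v n 9 = 0 := by
  have : (9 : MvPolynomial (Fin m) ℂ) = C 9 := by rw [map_ofNat]
  rw [this, dd_C]

/-- the differentials of the six equations -/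
lemma dd_eqX_low (Q : Matrix (Fin 7) (Fin 7) ℂ) (v n : Fin 8 → ℂ) (i : Fin 5) :
    dd v n (eqX Q i.castSucc) = pv (low v) (low n) i := by
  have e0 : low v 0 = v 0 := rfl
  have e1 : low v 1 = v 1 := rfl
  have e2 : low v 2 = v 2 := rfl
  have e3 : low v 3 = v 3 := rfl
  have e4 : low v 4 = v 4 := rfl
  have e5 : low v 5 = v 5 := rfl
  have e6 : low v 6 = v 6 := rfl
  have f0 : low n 0 = n 0 := rfl
  have f1 : low n 1 = n 1 := rfl
  have f2 : low n 2 = n 2 := rfl
  have f3 : low n 3 = n 3 := rfl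
  have f4 : low n 4 = n 4 := rfl
  have f5 : low n 5 = n 5 := rfl
  have f6 : low n 6 = n 6 := rfl
  fin_cases i <;>
  · simp [eqX, pv, dd_add, dd_sub, dd_mul, dd_X, dd_two, dd_three, dd_four, dd_eight, dd_nine,
      dd_sq, e0, e1, e2, e3, e4, e5, e6,
      f0, f1, f2, f3, f4, f5, f6]
    try ring

lemma dd_eqX_last (Q : Matrix (Fin 7) (Fin 7) ℂ) (v n : Fin 8 → ℂ) :
    dd v n (eqX Q 5) = 2 * v 7 * n 7 - bil Q (low v) (low n) := by
  have h : eqX Q 5 = X 7 ^ 2 -
    ∑ i : Fin 7, ∑ j : Fin 7, C (Q i j) * X i.castSucc * X j.castSucc := rfl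
  rw [h, dd_sub, dd_sq, dd_X, eval_X, dd_sum]
  congr 1
  simp only [bil]
  refine Finset.sum_congr rfl fun i _ => ?_
  rw [dd_sum]
  refine Finset.sum_congr rfl fun j _ => ?_
  simp only [dd_mul, dd_X, dd_C, eval_X, eval_C, map_mul, low]
  ring

/-- The branch divisor is smooth. -/
def GoodQ (Q : Matrix (Fin 7) (Fin 7) ℂ) : Prop :=
  ∀ a, a ≠ 0 → Cone a → quad Q a = 0 → ∃ τ, pv a τ = 0 ∧ bil Q a τ ≠ 0

lemma exists_dir {Q : Matrix (Fin 7) (Fin 7) ℂ} (hQ : GoodQ Q) {v : Fin 8 → ℂ}
    (hv : v ∈ cone (eqX Q)) :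
    ∃ n : Fin 8 → ℂ, pv (low v) (low n) = 0 ∧ 2 * v 7 * n 7 - bil Q (low v) (low n) ≠ 0 := by
  by_cases h7 : v 7 = 0
  · obtain ⟨h0, h1, h2⟩ := (mem_cone_eqX Q v).1 hv
    rw [h7] at h2
    obtain ⟨τ, h3, h4⟩ := hQ (low v) (low_ne_zero hv) h1 (by rw [← h2]; ring)
    refine ⟨up τ 0, ?_, ?_⟩
    · rwa [low_up]
    · rw [low_up, h7]
      simpa using h4
  · refine ⟨up 0 1, ?_, ?_⟩
    · rw [low_up]
      ext i
      fin_cases i <;> simp [pv]
    · rw [low_up, up_seven]
      have : bil Q (low v) 0 = 0 := by simp [bil]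
      rw [this]
      simpa using h7

/-- linear independence from test vectors -/
lemma linInd_of_dd {Q : Matrix (Fin 7) (Fin 7) ℂ} (hQ : GoodQ Q) {v : Fin 8 → ℂ}
    (hv : v ∈ cone (eqX Q)) (e : Fin 3 → Fin 5)
    (h : ∀ c : Fin 3 → ℂ, (∀ n : Fin 7 → ℂ, ∑ a, c a * pv (low v) n (e a) = 0) → c = 0) :
    LinearIndependent ℂ (fun (a : Fin 4) (j : Fin 8) =>
      eval v (pderiv j (eqX Q ((Fin.snoc (α := fun _ => Fin 6) (fun a => (e a).castSucc) 5 :
        Fin 4 → Fin 6) a)))) := by
  rw [Fintype.linearIndependent_iff]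
  intro c hc
  have key : ∀ n : Fin 8 → ℂ, ∑ a : Fin 3, c a.castSucc * pv (low v) (low n) (e a) +
      c 3 * (2 * v 7 * n 7 - bil Q (low v) (low n)) = 0 := by
    intro n
    have h1 : ∑ a : Fin 4, c a * dd v n (eqX Q ((Fin.snoc (α := fun _ => Fin 6)
        (fun a => (e a).castSucc) 5 : Fin 4 → Fin 6) a)) = 0 := by
      have h2 : ∀ j, ∑ a : Fin 4, c a * eval v (pderiv j (eqX Q ((Fin.snoc (α := fun _ => Fin 6)
        (fun a => (e a).castSucc) 5 : Fin 4 → Fin 6) a))) = 0 := by
        intro j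
        have := congrFun hc j
        simpa using this
      simp only [dd, Finset.mul_sum]
      rw [Finset.sum_comm]
      apply Finset.sum_eq_zero
      intro j _
      have h3 := h2 j
      calc ∑ a : Fin 4, c a * (n j * eval v (pderiv j (eqX Q ((Fin.snoc (α := fun _ => Fin 6)
            (fun a => (e a).castSucc) 5 : Fin 4 → Fin 6) a))))
          = n j * ∑ a : Fin 4, c a * eval v (pderiv j (eqX Q ((Fin.snoc (α := fun _ => Fin 6)
            (fun a => (e a).castSucc) 5 : Fin 4 → Fin 6) a))) := by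
            rw [Finset.mul_sum]
            refine Finset.sum_congr rfl fun a _ => ?_
            ring
        _ = 0 := by rw [h3, mul_zero]
    rw [Fin.sum_univ_castSucc] at h1
    have h4 : ∀ a : Fin 3, (Fin.snoc (α := fun _ => Fin 6) (fun a => (e a).castSucc) 5 :
        Fin 4 → Fin 6) a.castSucc = (e a).castSucc := fun a => by simp only [Fin.snoc_castSucc]
    have h5 : (Fin.snoc (α := fun _ => Fin 6) (fun a => (e a).castSucc) 5 :
        Fin 4 → Fin 6) (Fin.last 3) = 5 := by simp only [Fin.snoc_last]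
    simp only [h4, h5, dd_eqX_low, dd_eqX_last] at h1
    exact h1
  obtain ⟨n, hn1, hn2⟩ := exists_dir hQ hv
  have hc3 : c 3 = 0 := by
    have := key n
    rw [hn1] at this
    simp only [Pi.zero_apply, mul_zero, Finset.sum_const_zero, zero_add] at this
    rcases mul_eq_zero.1 this with h | h
    · exact h
    · exact absurd h hn2
  have hc' : (fun a : Fin 3 => c a.castSucc) = 0 := by
    apply h
    intro n
    have := key (up n 0)
    rw [hc3, zero_mul, add_zero, low_up] at this
    exact this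
  intro i
  refine Fin.lastCases ?_ (fun j => ?_) i
  · exact hc3
  · exact congrFun hc' j

lemma mem_of_mem_span {m : ℕ} {ι κ : Type} (F : ι → MvPolynomial (Fin m) ℂ) (e : κ → ι) (a : κ)
    (g : MvPolynomial (Fin m) ℂ) : g * F (e a) ∈ Ideal.span (range fun a => F (e a)) :=
  Ideal.mul_mem_left _ _ (Ideal.subset_span ⟨a, rfl⟩)

/-- The double cover is a smooth threefold. -/
theorem smooth_of_good {Q : Matrix (Fin 7) (Fin 7) ℂ} (hQ : GoodQ Q) :
    IsSmoothOfCodim (eqX Q) 4 := by
  intro v hv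
  obtain ⟨h0, ⟨c0, c1, c2, c3, c4⟩, h2⟩ := (mem_cone_eqX Q v).1 hv
  have hl := low_ne_zero hv
  have key : ∀ (e : Fin 3 → Fin 5) (k : Fin 7), low v k ≠ 0 →
      (∀ c : Fin 3 → ℂ, (∀ n : Fin 7 → ℂ, ∑ a, c a * pv (low v) n (e a) = 0) → c = 0) →
      (∀ i : Fin 6, (X k.castSucc : MvPolynomial (Fin 8) ℂ) * eqX Q i ∈ Ideal.span
        (range fun a => eqX Q ((Fin.snoc (α := fun _ => Fin 6) (fun a => (e a).castSucc) 5 :
        Fin 4 → Fin 6) a))) →
      ∃ e : Fin 4 → Fin 6,
        LinearIndependent ℂ (fun (a : Fin 4) (j : Fin 8) => eval v (pderiv j (eqX Q (e a)))) ∧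
        ∃ g : MvPolynomial (Fin 8) ℂ, eval v g ≠ 0 ∧
          ∀ i, g * eqX Q i ∈ Ideal.span (range fun a => eqX Q (e a)) := by
    intro e k hk h1 h2
    exact ⟨_, linInd_of_dd hQ hv e h1, X k.castSucc, by rw [eval_X]; exact hk, h2⟩
  have span5 : ∀ (e : Fin 3 → Fin 5) (g : MvPolynomial (Fin 8) ℂ), g * eqX Q 5 ∈ Ideal.span
        (range fun a => eqX Q ((Fin.snoc (α := fun _ => Fin 6) (fun a => (e a).castSucc) 5 :
        Fin 4 → Fin 6) a)) := by
    intro e g
    exact mem_of_mem_span (eqX Q) (Fin.snoc (α := fun _ => Fin 6) (fun a => (e a).castSucc) 5 :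
        Fin 4 → Fin 6) 3 g
  have spanl : ∀ (e : Fin 3 → Fin 5) (a : Fin 3) (g : MvPolynomial (Fin 8) ℂ),
      g * eqX Q (e a).castSucc ∈ Ideal.span
        (range fun a => eqX Q ((Fin.snoc (α := fun _ => Fin 6) (fun a => (e a).castSucc) 5 :
        Fin 4 → Fin 6) a)) := by
    intro e a g
    have := mem_of_mem_span (eqX Q) (Fin.snoc (α := fun _ => Fin 6) (fun a => (e a).castSucc) 5 :
        Fin 4 → Fin 6) a.castSucc g
    have h4 : (Fin.snoc (α := fun _ => Fin 6) (fun a => (e a).castSucc) 5 :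
        Fin 4 → Fin 6) a.castSucc = (e a).castSucc := by simp only [Fin.snoc_castSucc]
    rwa [h4] at this
  by_cases a0 : low v 0 = 0
  · by_cases a6 : low v 6 = 0
    · by_cases a1 : low v 1 = 0
      · have k2 : low v 2 = 0 := by
          rw [a0, a1] at c0
          have : low v 2 ^ 2 = 0 := by linear_combination (1 / 3 : ℂ) * c0
          exact pow_eq_zero_iff (two_ne_zero) |>.1 this
        have k3 : low v 3 = 0 := by
          rw [a0, k2] at c2
          have : low v 3 ^ 2 = 0 := by linear_combination (1 / 8 : ℂ) * c2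
          exact pow_eq_zero_iff (two_ne_zero) |>.1 this
        have k4 : low v 4 = 0 := by
          rw [a6, k3] at c4
          have : low v 4 ^ 2 = 0 := by linear_combination (1 / 3 : ℂ) * c4
          exact pow_eq_zero_iff (two_ne_zero) |>.1 this
        have a5 : low v 5 ≠ 0 := by
          intro a5
          apply hl
          ext i
          fin_cases i
          · exact a0
          · exact a1
          · exact k2
          · exact k3
          · exact k4
          · exact a5
          · exact a6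
        apply key ![4, 3, 1] 5 a5
        · intro c hc
          have t3 := hc (Pi.single 3 1)
          have t2 := hc (Pi.single 2 1)
          have t0 := hc (Pi.single 0 1)
          simp [Fin.sum_univ_three, pv, a5, a6, a0, a1, k2, k3, k4] at t3 t2 t0
          ext i
          fin_cases i
          · exact t3
          · exact t2
          · exact t0
        · have e2 : (X 5 : MvPolynomial (Fin 8) ℂ) * eqX Q 2 =
              X 6 * eqX Q 1 + (3 * X 4) * eqX Q 3 + (-2 * X 3) * eqX Q 4 := by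
            simp [eqX]
            ring
          have e0 : (X 5 : MvPolynomial (Fin 8) ℂ) * eqX Q 0 =
              X 4 * eqX Q 1 + (-X 2) * eqX Q 3 + X 1 * eqX Q 4 := by
            simp [eqX]
            ring
          intro i
          fin_cases i
          · show (X 5 : MvPolynomial (Fin 8) ℂ) * eqX Q 0 ∈ _
            rw [e0]
            exact Ideal.add_mem _ (Ideal.add_mem _ (spanl ![4, 3, 1] 2 _) (spanl ![4, 3, 1] 1 _))
              (spanl ![4, 3, 1] 0 _)
          · exact spanl ![4, 3, 1] 2 _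
          · show (X 5 : MvPolynomial (Fin 8) ℂ) * eqX Q 2 ∈ _
            rw [e2]
            exact Ideal.add_mem _ (Ideal.add_mem _ (spanl ![4, 3, 1] 2 _) (spanl ![4, 3, 1] 1 _))
              (spanl ![4, 3, 1] 0 _)
          · exact spanl ![4, 3, 1] 1 _
          · exact spanl ![4, 3, 1] 0 _
          · exact span5 _ _
      · apply key ![0, 1, 3] 1 a1
        · intro c hc
          have t3 := hc (Pi.single 3 1)
          have t4 := hc (Pi.single 4 1)
          have t6 := hc (Pi.single 6 1)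
          simp [Fin.sum_univ_three, pv, a6, a0, a1] at t3 t4 t6
          rw [t6] at t3 t4
          have e1 : c 1 = 0 := by
            simpa [a1] using t4
          rw [e1] at t3
          ext i
          fin_cases i
          · simpa [a1] using t3
          · exact e1
          · exact t6
        · have e2 : (X 1 : MvPolynomial (Fin 8) ℂ) * eqX Q 2 =
              X 0 * eqX Q 3 + (3 * X 2) * eqX Q 1 + (-2 * X 3) * eqX Q 0 := by
            simp [eqX]
            ring
          have e4 : (X 1 : MvPolynomial (Fin 8) ℂ) * eqX Q 4 =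
              X 2 * eqX Q 3 + (-X 4) * eqX Q 1 + X 5 * eqX Q 0 := by
            simp [eqX]
            ring
          intro i
          fin_cases i
          · exact spanl ![0, 1, 3] 0 _
          · exact spanl ![0, 1, 3] 1 _
          · show (X 1 : MvPolynomial (Fin 8) ℂ) * eqX Q 2 ∈ _
            rw [e2]
            exact Ideal.add_mem _ (Ideal.add_mem _ (spanl ![0, 1, 3] 2 _) (spanl ![0, 1, 3] 1 _))
              (spanl ![0, 1, 3] 0 _)
          · exact spanl ![0, 1, 3] 2 _
          · show (X 1 : MvPolynomial (Fin 8) ℂ) * eqX Q 4 ∈ _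
            rw [e4]
            exact Ideal.add_mem _ (Ideal.add_mem _ (spanl ![0, 1, 3] 2 _) (spanl ![0, 1, 3] 1 _))
              (spanl ![0, 1, 3] 0 _)
          · exact span5 _ _
    · apply key ![4, 3, 2] 6 a6
      · intro c hc
        have t2 := hc (Pi.single 2 1)
        have t1 := hc (Pi.single 1 1)
        have t0 := hc (Pi.single 0 1)
        simp [Fin.sum_univ_three, pv, a6] at t0 t1 t2
        rw [t0, t1] at t2
        ext i
        fin_cases i
        · simpa [a6] using t2
        · exact t1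
        · exact t0
      · have e1 : (X 6 : MvPolynomial (Fin 8) ℂ) * eqX Q 1 =
            X 5 * eqX Q 2 + (-3 * X 4) * eqX Q 3 + (2 * X 3) * eqX Q 4 := by
          simp [eqX]
          ring
        have e0 : (X 6 : MvPolynomial (Fin 8) ℂ) * eqX Q 0 =
            X 4 * eqX Q 2 + (-4 * X 3) * eqX Q 3 + (3 * X 2) * eqX Q 4 := by
          simp [eqX]
          ring
        intro i
        fin_cases i
        · show (X 6 : MvPolynomial (Fin 8) ℂ) * eqX Q 0 ∈ _
          rw [e0]
          exact Ideal.add_mem _ (Ideal.add_mem _ (spanl ![4, 3, 2] 2 _) (spanl ![4, 3, 2] 1 _))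
            (spanl ![4, 3, 2] 0 _)
        · show (X 6 : MvPolynomial (Fin 8) ℂ) * eqX Q 1 ∈ _
          rw [e1]
          exact Ideal.add_mem _ (Ideal.add_mem _ (spanl ![4, 3, 2] 2 _) (spanl ![4, 3, 2] 1 _))
            (spanl ![4, 3, 2] 0 _)
        · exact spanl ![4, 3, 2] 2 _
        · exact spanl ![4, 3, 2] 1 _
        · exact spanl ![4, 3, 2] 0 _
        · exact span5 _ _
  · apply key ![0, 1, 2] 0 a0
    · intro c hc
      have t6 := hc (Pi.single 6 1)
      have t5 := hc (Pi.single 5 1)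
      have t4 := hc (Pi.single 4 1)
      simp [Fin.sum_univ_three, pv, a0] at t4 t5 t6
      rw [t5, t6] at t4
      ext i
      fin_cases i
      · simpa [a0] using t4
      · exact t5
      · exact t6
    · have e3 : (X 0 : MvPolynomial (Fin 8) ℂ) * eqX Q 3 =
          X 1 * eqX Q 2 + (-3 * X 2) * eqX Q 1 + (2 * X 3) * eqX Q 0 := by
        simp [eqX]
        ring
      have e4 : (X 0 : MvPolynomial (Fin 8) ℂ) * eqX Q 4 =
          X 2 * eqX Q 2 + (-4 * X 3) * eqX Q 1 + (3 * X 4) * eqX Q 0 := by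
        simp [eqX]
        ring
      intro i
      fin_cases i
      · exact spanl ![0, 1, 2] 0 _
      · exact spanl ![0, 1, 2] 1 _
      · exact spanl ![0, 1, 2] 2 _
      · show (X 0 : MvPolynomial (Fin 8) ℂ) * eqX Q 3 ∈ _
        rw [e3]
        exact Ideal.add_mem _ (Ideal.add_mem _ (spanl ![0, 1, 2] 2 _) (spanl ![0, 1, 2] 1 _))
          (spanl ![0, 1, 2] 0 _)
      · show (X 0 : MvPolynomial (Fin 8) ℂ) * eqX Q 4 ∈ _
        rw [e4]
        exact Ideal.add_mem _ (Ideal.add_mem _ (spanl ![0, 1, 2] 2 _) (spanl ![0, 1, 2] 1 _))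
          (spanl ![0, 1, 2] 0 _)
      · exact span5 _ _

end Pool.Agent.Lib.MP_6e94a1_ag
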