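import Pool.Agent.Lib.MP_6e94a1_ag.CovIrr
import Pool.Agent.Lib.MP_6e94a1_ag.CovSmooth

/-!
# A general quadric section of `V₅` is smooth
-/

open scoped LinearAlgebra.Projectivization Topology
open MvPolynomial Set

set_option linter.all false

namespace Pool.Agent.Lib.MP_6e94a1_ag

/-- tangent vectors to the standard chart -/
def tv (z : Fin 3 → ℂ) : Fin 3 → (Fin 7 → ℂ) :=
  ![![0, 1, 0, 0, 4 * z 2, 3 * (4 * z 0 * z 2 - 3 * z 1 ^ 2) + 12 * z 0 * z 2,
      36 * z 1 * z 2],
    ![0, 0, 1, 0, -6 * z 1, -18 * z 0 * z 1 - 2 * z 2,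
      9 * (4 * z 0 * z 2 - 3 * z 1 ^ 2) - 54 * z 1 ^ 2],
    ![0, 0, 0, 1, 4 * z 0, 12 * z 0 ^ 2 - 2 * z 1, 36 * z 0 * z 1 - 16 * z 2]]

lemma pv_ch_tv (z : Fin 3 → ℂ) (k : Fin 3) : pv (ch z) (tv z k) = 0 := by
  ext i
  fin_cases k <;> fin_cases i <;> simp [pv, ch, tv] <;> ring

lemma quad_add_mat (Q Q' : Matrix (Fin 7) (Fin 7) ℂ) (a : Fin 7 → ℂ) :
    quad (Q + Q') a = quad Q a + quad Q' a := by
  simp only [quad, ← Finset.sum_add_distrib]
  refine Finset.sum_congr rfl fun i _ => Finset.sum_congr rfl fun j _ => ?_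
  rw [Matrix.add_apply]
  ring

lemma bil_add_mat (Q Q' : Matrix (Fin 7) (Fin 7) ℂ) (a b : Fin 7 → ℂ) :
    bil (Q + Q') a b = bil Q a b + bil Q' a b := by
  simp only [bil, ← Finset.sum_add_distrib]
  refine Finset.sum_congr rfl fun i _ => Finset.sum_congr rfl fun j _ => ?_
  rw [Matrix.add_apply]
  ring

/-- matrix with four entries in the first row -/
def topM (y : Fin 4 → ℂ) : Matrix (Fin 7) (Fin 7) ℂ := fun i j =>
  if i = 0 then (if h : j.val < 4 then y ⟨j.val, h⟩ else 0) else 0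

lemma quad_topM (y : Fin 4 → ℂ) (a : Fin 7 → ℂ) :
    quad (topM y) a = a 0 * (y 0 * a 0 + y 1 * a 1 + y 2 * a 2 + y 3 * a 3) := by
  rw [quad, Finset.sum_eq_single 0]
  · simp [topM, Fin.sum_univ_succ]
    ring
  · intro b _ hb
    simp [topM, hb]
  · simp

lemma bil_topM (y : Fin 4 → ℂ) (a b : Fin 7 → ℂ) :
    bil (topM y) a b = y 0 * (2 * a 0 * b 0) + y 1 * (a 0 * b 1 + a 1 * b 0) +
      y 2 * (a 0 * b 2 + a 2 * b 0) + y 3 * (a 0 * b 3 + a 3 * b 0) := by
  rw [bil, Finset.sum_eq_single 0]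
  · simp [topM, Fin.sum_univ_succ]
    ring
  · intro b _ hb
    simp [topM, hb]
  · simp

/-- the remaining index set -/
abbrev TT := {p : Fin 7 × Fin 7 // ¬ (p.1 = 0 ∧ p.2.val < 4)}

/-- matrix with the remaining entries -/
def restM (r : TT → ℂ) : Matrix (Fin 7) (Fin 7) ℂ := fun i j =>
  if h : ¬ ((i, j).1 = 0 ∧ (i, j).2.val < 4) then r ⟨(i, j), h⟩ else 0

lemma decomp (Q : Matrix (Fin 7) (Fin 7) ℂ) :
    Q = restM (fun p => Q p.1.1 p.1.2) + topM (fun j => Q 0 ⟨j.val, by omega⟩) := by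
  ext i j
  rw [Matrix.add_apply]
  by_cases h : (i = 0 ∧ j.val < 4)
  · obtain ⟨rfl, h2⟩ := h
    simp [restM, topM, h2]
  · by_cases hi : i = 0
    · have hj : ¬ j.val < 4 := fun hj => h ⟨hi, hj⟩
      simp [restM, topM, hj]
    · simp [restM, topM, hi]

/-- the solution of the four linear equations -/
def yy (z : Fin 3 → ℂ) (r : TT → ℂ) : Fin 4 → ℂ :=
  ![-quad (restM r) (ch z) + bil (restM r) (ch z) (tv z 0) * z 0 +
      bil (restM r) (ch z) (tv z 1) * z 1 + bil (restM r) (ch z) (tv z 2) * z 2,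
    -bil (restM r) (ch z) (tv z 0), -bil (restM r) (ch z) (tv z 1),
    -bil (restM r) (ch z) (tv z 2)]

/-- parametrisation of the quadrics which are singular along the chart -/
def Theta (x : (Fin 3 → ℂ) × (TT → ℂ)) : Fin 7 × Fin 7 → ℂ :=
  fun p => (restM x.2 + topM (yy x.1 x.2)) p.1 p.2

lemma mem_range_Theta {Q : Matrix (Fin 7) (Fin 7) ℂ} {z : Fin 3 → ℂ} (h : quad Q (ch z) = 0)
    (h' : ∀ k, bil Q (ch z) (tv z k) = 0) : (fun p : Fin 7 × Fin 7 => Q p.1 p.2) ∈ range Theta := by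
  refine ⟨(z, fun p => Q p.1.1 p.1.2), ?_⟩
  have hd := decomp Q
  set r : TT → ℂ := fun p => Q p.1.1 p.1.2 with hr
  set y : Fin 4 → ℂ := fun j => Q 0 ⟨j.val, by omega⟩ with hy
  have h0 := h' 0
  have h1 := h' 1
  have h2 := h' 2
  rw [hd, quad_add_mat, quad_topM] at h
  rw [hd, bil_add_mat, bil_topM] at h0 h1 h2
  simp [ch, tv] at h h0 h1 h2
  have hyy : yy z r = y := by
    ext i
    fin_cases i
    · simp [yy, ch, tv]
      linear_combination -h + z 0 * h0 + z 1 * h1 + z 2 * h2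
    · simp [yy, ch, tv]
      linear_combination -h0
    · simp [yy, ch, tv]
      linear_combination -h1
    · simp [yy, ch, tv]
      linear_combination -h2
  ext p
  simp only [Theta]
  rw [hyy, ← hd]

lemma contDiff_Theta : ContDiff ℝ 1 Theta := by
  have hz : ∀ i : Fin 3, ContDiff ℝ 1 (fun x : (Fin 3 → ℂ) × (TT → ℂ) => x.1 i) := by
    intro i
    fun_prop
  have hch : ∀ i : Fin 7, ContDiff ℝ 1 (fun x : (Fin 3 → ℂ) × (TT → ℂ) => ch x.1 i) := by
    intro i
    fin_cases i <;> simp only [ch, Fin.zero_eta, Fin.mk_one, Fin.reduceFinMk, Matrix.cons_val] <;>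
      fun_prop
  have htv : ∀ (k : Fin 3) (i : Fin 7),
      ContDiff ℝ 1 (fun x : (Fin 3 → ℂ) × (TT → ℂ) => tv x.1 k i) := by
    intro k i
    fin_cases k <;> fin_cases i <;>
      simp only [tv, Fin.zero_eta, Fin.mk_one, Fin.reduceFinMk, Matrix.cons_val] <;>
      fun_prop
  have hr : ∀ i j, ContDiff ℝ 1 (fun x : (Fin 3 → ℂ) × (TT → ℂ) => restM x.2 i j) := by
    intro i j
    by_cases h : ¬ ((i, j).1 = 0 ∧ (i, j).2.val < 4)
    · have : (fun x : (Fin 3 → ℂ) × (TT → ℂ) => restM x.2 i j) =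
          fun x => x.2 ⟨(i, j), h⟩ := by
        ext x
        simp only [restM, dif_pos h]
      rw [this]
      fun_prop
    · have : (fun x : (Fin 3 → ℂ) × (TT → ℂ) => restM x.2 i j) = fun x => 0 := by
        ext x
        simp only [restM, dif_neg h]
      rw [this]
      fun_prop
  have hq : ContDiff ℝ 1 (fun x : (Fin 3 → ℂ) × (TT → ℂ) => quad (restM x.2) (ch x.1)) := by
    simp only [quad]
    exact ContDiff.sum fun i _ => ContDiff.sum fun j _ => ((hr i j).mul (hch i)).mul (hch j)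
  have hb : ∀ k, ContDiff ℝ 1
      (fun x : (Fin 3 → ℂ) × (TT → ℂ) => bil (restM x.2) (ch x.1) (tv x.1 k)) := by
    intro k
    simp only [bil]
    exact ContDiff.sum fun i _ => ContDiff.sum fun j _ => (hr i j).mul
      (((hch i).mul (htv k j)).add ((hch j).mul (htv k i)))
  have hy : ∀ j, ContDiff ℝ 1 (fun x : (Fin 3 → ℂ) × (TT → ℂ) => yy x.1 x.2 j) := by
    intro j
    fin_cases j
    · exact ((hq.neg.add ((hb 0).mul (hz 0))).add ((hb 1).mul (hz 1))).add ((hb 2).mul (hz 2))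
    · exact (hb 0).neg
    · exact (hb 1).neg
    · exact (hb 2).neg
  rw [contDiff_pi]
  rintro ⟨i, j⟩
  simp only [Theta, Matrix.add_apply]
  apply (hr i j).add
  simp only [topM]
  by_cases hi : i = 0
  · by_cases hj : j.val < 4
    · simp only [hi, hj, if_true, dif_pos]
      exact hy _
    · simp only [hi, hj, if_true, dif_neg, not_false_eq_true]
      exact contDiff_const
  · simp only [hi, if_false]
    exact contDiff_const

/-! ### change of coordinates -/

/-- the quadratic form pulled back by `rho g` -/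
noncomputable def pull (g : M2) (Q : Matrix (Fin 7) (Fin 7) ℂ) : Matrix (Fin 7) (Fin 7) ℂ :=
  (LinearMap.toMatrix' (rho g)).transpose * Q * LinearMap.toMatrix' (rho g)

lemma bil_eq_dot (Q : Matrix (Fin 7) (Fin 7) ℂ) (a b : Fin 7 → ℂ) :
    bil Q a b = dotProduct a (Q.mulVec b) + dotProduct b (Q.mulVec a) := by
  simp only [bil, dotProduct, Matrix.mulVec, Finset.mul_sum]
  rw [← Finset.sum_add_distrib]
  refine Finset.sum_congr rfl fun i _ => ?_
  rw [← Finset.sum_add_distrib]
  refine Finset.sum_congr rfl fun j _ => ?_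
  ring

lemma dot_pull (g : M2) (Q : Matrix (Fin 7) (Fin 7) ℂ) (a b : Fin 7 → ℂ) :
    dotProduct a ((pull g Q).mulVec b) = dotProduct (rho g a) (Q.mulVec (rho g b)) := by
  rw [pull, ← LinearMap.toMatrix'_mulVec (rho g) a, ← LinearMap.toMatrix'_mulVec (rho g) b,
    Matrix.mul_assoc, ← Matrix.mulVec_mulVec, ← Matrix.mulVec_mulVec, Matrix.dotProduct_mulVec,
    Matrix.vecMul_transpose]

lemma bil_pull (g : M2) (Q : Matrix (Fin 7) (Fin 7) ℂ) (a b : Fin 7 → ℂ) :
    bil (pull g Q) a b = bil Q (rho g a) (rho g b) := by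
  rw [bil_eq_dot, bil_eq_dot, dot_pull, dot_pull]

lemma quad_pull (g : M2) (Q : Matrix (Fin 7) (Fin 7) ℂ) (a : Fin 7 → ℂ) :
    quad (pull g Q) a = quad Q (rho g a) := by
  have h := bil_pull g Q a a
  rw [bil_self, bil_self] at h
  linear_combination (1 / 2 : ℂ) * h

lemma toMatrix_uu (k : ℂ) : LinearMap.toMatrix' (rho (uu k)) * LinearMap.toMatrix' (rho (uu (-k)))
    = 1 := by
  rw [← LinearMap.toMatrix'_comp]
  have : rho (uu k) ∘ₗ rho (uu (-k)) = LinearMap.id := by
    apply LinearMap.ext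
    intro a
    simp only [LinearMap.comp_apply, LinearMap.id_apply]
    exact uu_inv' k a
  rw [this, LinearMap.toMatrix'_id]

lemma pull_pull (k : ℂ) (Q : Matrix (Fin 7) (Fin 7) ℂ) :
    pull (uu k) (pull (uu (-k)) Q) = Q := by
  have h1 := toMatrix_uu (-k)
  rw [neg_neg] at h1
  have h2 : (LinearMap.toMatrix' (rho (uu k))).transpose *
      (LinearMap.toMatrix' (rho (uu (-k)))).transpose = 1 := by
    rw [← Matrix.transpose_mul, h1, Matrix.transpose_one]
  simp only [pull]
  calc (LinearMap.toMatrix' (rho (uu k))).transpose *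
        ((LinearMap.toMatrix' (rho (uu (-k)))).transpose * Q *
          LinearMap.toMatrix' (rho (uu (-k)))) * LinearMap.toMatrix' (rho (uu k))
      = ((LinearMap.toMatrix' (rho (uu k))).transpose *
        (LinearMap.toMatrix' (rho (uu (-k)))).transpose) * Q *
          (LinearMap.toMatrix' (rho (uu (-k))) * LinearMap.toMatrix' (rho (uu k))) := by
        simp only [Matrix.mul_assoc]
    _ = Q := by rw [h1, h2, Matrix.one_mul, Matrix.mul_one]

/-- matrix attached to a family of entries -/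
def mt (e : Fin 7 × Fin 7 → ℂ) : Matrix (Fin 7) (Fin 7) ℂ := fun i j => e (i, j)

/-- pull back on the level of entries -/
noncomputable def pullE (k : ℂ) (e : Fin 7 × Fin 7 → ℂ) : Fin 7 × Fin 7 → ℂ :=
  fun p => pull (uu k) (mt e) p.1 p.2

lemma contDiff_pullE (k : ℂ) : ContDiff ℝ 1 (pullE k) := by
  rw [contDiff_pi]
  rintro ⟨i, j⟩
  simp only [pullE, pull, Matrix.mul_apply, mt]
  fun_prop

/-- A general quadric section of `V₅` is smooth. -/
theorem dense_good : Dense {e : Fin 7 × Fin 7 → ℂ | GoodQ (mt e)} := by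
  have hsub : (⋃ k : ℕ, range (fun x => pullE k (Theta x)))ᶜ ⊆
      {e : Fin 7 × Fin 7 → ℂ | GoodQ (mt e)} := by
    intro e he
    by_contra hbad
    apply he
    simp only [Set.mem_ofPred_eq, GoodQ] at hbad
    push Not at hbad
    obtain ⟨a, ha, hca, hqa, hτ⟩ := hbad
    obtain ⟨k, hk⟩ := exists_nat_rho_ne ha
    rw [mem_iUnion]
    refine ⟨k, ?_⟩
    have hch := eq_smul_ch (hca.rho (uu k)) hk
    set c := rho (uu k) a 0 with hc
    set z := kz (rho (uu k) a) with hz
    have ha' : a = c • rho (uu (-k)) (ch z) := by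
      rw [← map_smul, ← hch, uu_inv]
    have h1 : quad (pull (uu (-k)) (mt e)) (ch z) = 0 := by
      rw [quad_pull]
      have : quad (mt e) a = c ^ 2 * quad (mt e) (rho (uu (-k)) (ch z)) := by
        conv_lhs => rw [ha']
        rw [quad_smul]
      rw [this] at hqa
      rcases mul_eq_zero.1 hqa with h | h
      · exact absurd h (pow_ne_zero 2 hk)
      · exact h
    have h2 : ∀ j, bil (pull (uu (-k)) (mt e)) (ch z) (tv z j) = 0 := by
      intro j
      rw [bil_pull]
      have h3 : pv a (rho (uu (-k)) (tv z j)) = 0 := by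
        have h4 := pv_rho (uu (-k)) (pv_ch_tv z j)
        rw [ha']
        have h5 : ∀ x y : Fin 7 → ℂ, pv (c • x) y = c • pv x y := by
          intro x y
          ext i
          fin_cases i <;> simp [pv] <;> ring
        rw [h5, h4, smul_zero]
      have h4 := hτ _ h3
      have h5 : bil (mt e) a (rho (uu (-k)) (tv z j)) =
          c * bil (mt e) (rho (uu (-k)) (ch z)) (rho (uu (-k)) (tv z j)) := by
        conv_lhs => rw [ha']
        rw [bil_smul_left]
      rw [h5] at h4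
      rcases mul_eq_zero.1 h4 with h | h
      · exact absurd h hk
      · exact h
    obtain ⟨x, hx⟩ := mem_range_Theta h1 h2
    refine ⟨x, ?_⟩
    simp only
    rw [hx]
    ext p
    have h6 : mt (fun p : Fin 7 × Fin 7 => pull (uu (-k)) (mt e) p.1 p.2) =
        pull (uu (-k)) (mt e) := rfl
    simp only [pullE]
    rw [h6, pull_pull]
    rfl
  apply Dense.mono hsub
  apply dense_compl_of_dimH_lt_finrank
  rw [dimH_iUnion]
  have hle : (⨆ k : ℕ, dimH (range (fun x => pullE k (Theta x)))) ≤ ((96 : ℕ) : ENNReal) := by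
    apply iSup_le
    intro k
    have hcd : ContDiff ℝ 1 (fun x => pullE k (Theta x)) := (contDiff_pullE k).comp contDiff_Theta
    refine hcd.dimH_range_le.trans ?_
    have hfr : Module.finrank ℝ ((Fin 3 → ℂ) × (TT → ℂ)) = 96 := by
      have hc : Fintype.card TT = 45 := by decide
      rw [Module.finrank_prod, Module.finrank_pi_fintype, Module.finrank_pi_fintype]
      simp [Complex.finrank_real_complex, hc]
    rw [hfr]
  refine lt_of_le_of_lt hle ?_
  have hfr : Module.finrank ℝ (Fin 7 × Fin 7 → ℂ) = 98 := by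
    rw [Module.finrank_pi_fintype]
    simp [Complex.finrank_real_complex]
  rw [hfr]
  norm_num

end Pool.Agent.Lib.MP_6e94a1_ag
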