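import Pool.Agent.Lib.MP_6e94a1_ag.CovLocal

/-!
# Identity theorem and non-extension
-/

open scoped LinearAlgebra.Projectivization Topology
open MvPolynomial Set Filter

set_option linter.all false

namespace Pool.Agent.Lib.MP_6e94a1_ag

variable {Q : Matrix (Fin 7) (Fin 7) ℂ} {h : M2} {κ : ℂ} {z₀ : Fin 3 → ℂ} {ε : ℝ}

/-- a polynomial vanishing near a point is zero -/
lemma poly_zero_of_ball {p : MvPolynomial (Fin 4) ℂ} (hε : 0 < ε)
    (hp : ∀ x : Fin 4 → ℂ, x 0 ≠ 0 → ![x 1, x 2, x 3] ∈ Metric.ball z₀ ε → eval x p = 0) :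
    p = 0 := by
  have hinf : ∀ c : ℂ, (Metric.ball c ε).Infinite := by
    intro c
    have h1 : (Metric.ball c ε) ∈ 𝓝 c := Metric.ball_mem_nhds c hε
    exact infinite_of_mem_nhds c h1
  apply MvPolynomial.funext_set
    (s := ![{x | x ≠ 0}, Metric.ball (z₀ 0) ε, Metric.ball (z₀ 1) ε, Metric.ball (z₀ 2) ε])
  · intro i
    fin_cases i
    · have : ({x : ℂ | x ≠ 0}) ∈ 𝓝 (1 : ℂ) := isOpen_ne.mem_nhds one_ne_zero
      exact infinite_of_mem_nhds 1 this
    · exact hinf _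
    · exact hinf _
    · exact hinf _
  · intro x hx
    rw [map_zero]
    have h0 := hx 0 (mem_univ _)
    have h1 := hx 1 (mem_univ _)
    have h2 := hx 2 (mem_univ _)
    have h3 := hx 3 (mem_univ _)
    apply hp x h0
    rw [mem_ball_iff_norm, pi_norm_lt_iff hε]
    intro i
    fin_cases i
    · exact mem_ball_iff_norm.1 h1
    · exact mem_ball_iff_norm.1 h2
    · exact mem_ball_iff_norm.1 h3

/-- The local domain is Zariski dense. -/
theorem dense_UU (hQ : bil Q e0 e1 ^ 2 ≠ 4 * quad Q e0 * quad Q e1) (k : ℂ) (hκ : κ ≠ 0)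
    (hε : 0 < ε) (hpos : Pos Q (uu (-k)) κ z₀ ε) {f : MvPolynomial (Fin 8) ℂ}
    (hf : ∀ (v : Fin 8 → ℂ) (hv : v ≠ 0),
      Projectivization.mk ℂ v hv ∈ UU Q (uu (-k)) κ z₀ ε → eval v f = 0) :
    ∀ v ∈ cone (eqX Q), eval v f = 0 := by
  obtain ⟨F, hF⟩ := exists_poly_chart Q (uu (-k))
  have hFp : IsPoly (fun x : Fin 4 → ℂ => eval x F) := ⟨F, fun _ => rfl⟩
  have hch : ∀ i, IsPoly (fun x : Fin 4 → ℂ => rho (uu (-k)) (ch ![x 1, x 2, x 3]) i) := by
    intro i
    apply IsPoly.lin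
    intro i
    apply IsPoly.ch
    intro l
    fin_cases l
    · exact IsPoly.coord 1
    · exact IsPoly.coord 2
    · exact IsPoly.coord 3
  have hΨ : ∀ j, IsPoly2 (fun x : Fin 4 → ℂ => eval x F)
      (fun (x : Fin 4 → ℂ) (w : ℂ) => (x 0 • up (rho (uu (-k)) (ch ![x 1, x 2, x 3])) w) j) := by
    intro j
    refine Fin.lastCases ?_ (fun i => ?_) j
    · have : (fun (x : Fin 4 → ℂ) (w : ℂ) => (x 0 • up (rho (uu (-k)) (ch ![x 1, x 2, x 3])) w)
          (Fin.last 7)) = fun (x : Fin 4 → ℂ) w => x 0 * w := by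
        ext x w
        have : (Fin.last 7 : Fin 8) = 7 := rfl
        rw [this, Pi.smul_apply, up_seven, smul_eq_mul]
      rw [this]
      exact IsPoly2.mul hFp (IsPoly2.of_poly (IsPoly.coord 0)) IsPoly2.snd
    · have : (fun (x : Fin 4 → ℂ) (w : ℂ) => (x 0 • up (rho (uu (-k)) (ch ![x 1, x 2, x 3])) w)
          i.castSucc) = fun (x : Fin 4 → ℂ) _ => x 0 * rho (uu (-k)) (ch ![x 1, x 2, x 3]) i := by
        ext x w
        rw [Pi.smul_apply, smul_eq_mul]
        congr 1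
        simp only [up, Fin.snoc_castSucc]
      rw [this]
      exact IsPoly2.of_poly ((IsPoly.coord 0).mul (hch i))
  obtain ⟨a, b, hab⟩ := IsPoly2.comp hFp hΨ f
  simp only at hab
  have key : a ^ 2 - b ^ 2 * F = 0 := by
    apply poly_zero_of_ball hε (z₀ := z₀)
    intro x hx0 hxb
    set z : Fin 3 → ℂ := ![x 1, x 2, x 3] with hz
    have hp := hpos z hxb
    set w := κ * sq (quad Q (rho (uu (-k)) (ch z)) / κ ^ 2) with hw
    have h1 : quad Q (rho (uu (-k)) (ch z)) / κ ^ 2 ≠ 0 := by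
      intro h0
      rw [h0] at hp
      simp at hp
    have hw2 : w ^ 2 = eval x F := by
      rw [hF, hw, mul_pow, sq_sq h1]
      field_simp
      rfl
    have h2 := hab x w hw2
    have h3 : x 0 • up (rho (uu (-k)) (ch z)) w = x 0 • psi Q (uu (-k)) κ z := rfl
    have hne : x 0 • psi Q (uu (-k)) κ z ≠ 0 := smul_ne_zero hx0 (psi_ne (uu_det _) z)
    have hmem : Projectivization.mk ℂ _ hne ∈ UU Q (uu (-k)) κ z₀ ε := by
      rw [mem_UU, GG_smul hx0]
      exact ⟨GG_psi (uu_det _) hκ hpos hxb, smul_mem_cone hx0 (psi_mem (uu_det _) hκ hp)⟩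
    rw [h3, hf _ hne hmem] at h2
    rw [map_sub, map_mul, map_pow, map_pow, ← hw2]
    linear_combination (-(eval x a - eval x b * w)) * h2
  obtain ⟨ha, hb⟩ := norm_zero (chart_not_square hQ (-k) hF) (sub_eq_zero.1 key)
  apply vanish_of_SK hQ k
  intro v hv
  rw [SK_eq Q k hF] at hv
  obtain ⟨x, w, hw, _, rfl⟩ := hv
  rw [hab x w hw, ha, hb]
  simp

lemma mk_eq_low {u v : Fin 8 → ℂ} (hu : u ≠ 0) (hv : v ≠ 0)
    (h : Projectivization.mk ℂ u hu = Projectivization.mk ℂ v hv) :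
    ∃ c : ℂ, c ≠ 0 ∧ u = c • v := by
  rw [Projectivization.mk_eq_mk_iff'] at h
  obtain ⟨c, hc⟩ := h
  refine ⟨c, ?_, hc.symm⟩
  rintro rfl
  rw [zero_smul] at hc
  exact hu hc.symm

/-- Any biregular extension of the local map lies over the automorphism `t` of `V₅`. -/
theorem over_t (hQ : bil Q e0 e1 ^ 2 ≠ 4 * quad Q e0 * quad Q e1) (k : ℂ) (hκ : κ ≠ 0)
    (hε : 0 < ε) (hpos : Pos Q (uu (-k)) κ z₀ ε) (t : M2) (ht : (t * uu (-k)).det ≠ 0) (κ' : ℂ)
    {Φ : ℙ ℂ (Fin 8 → ℂ) → ℙ ℂ (Fin 8 → ℂ)} (hΦ : IsRegularOn Φ (zeros (eqX Q)))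
    (hext : ∀ p ∈ UU Q (uu (-k)) κ z₀ ε, Φ p = phi Q (uu (-k)) (t * uu (-k)) ht κ' p)
    {v : Fin 8 → ℂ} (hv : v ∈ cone (eqX Q)) {u : Fin 8 → ℂ} (hu : u ≠ 0)
    (huv : Φ (Projectivization.mk ℂ v hv.1) = Projectivization.mk ℂ u hu) (i j : Fin 7) :
    low u i * rho t (low v) j - low u j * rho t (low v) i = 0 := by
  obtain ⟨d, G, _, hG0, hG⟩ := hΦ v hv.1 ((mem_zeros_eqX hv.1).2 hv)
  -- the minors as polynomials
  have hlin : ∀ i, IsPoly (fun w : Fin 8 → ℂ => rho t (low w) i) := by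
    intro i
    apply IsPoly.lin (n := 7)
    intro j
    exact IsPoly.coord j.castSucc
  have hGp : ∀ i : Fin 8, IsPoly (fun w : Fin 8 → ℂ => eval w (G i)) := fun i =>
    ⟨G i, fun _ => rfl⟩
  obtain ⟨m, hm⟩ : IsPoly (fun w : Fin 8 → ℂ => eval w (G i.castSucc) * rho t (low w) j -
      eval w (G j.castSucc) * rho t (low w) i) :=
    ((hGp _).mul (hlin j)).sub ((hGp _).mul (hlin i))
  simp only at hm
  have hvan := dense_UU hQ k hκ hε hpos (f := m) (by
    intro w hw hwU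
    rw [hm]
    by_cases hGw : (fun i => eval w (G i)) = 0
    · have h1 := congrFun hGw i.castSucc
      have h2 := congrFun hGw j.castSucc
      simp only [Pi.zero_apply] at h1 h2
      rw [h1, h2]
      ring
    · have h1 := hG w hw ((mem_zeros_eqX hw).2 ((mem_UU hw).1 hwU).2) hGw
      rw [hext _ hwU, phi_mk ht hw] at h1
      obtain ⟨c, hc, he⟩ := mk_eq_low hGw _ h1.symm
      -- w in terms of psi
      have h2 := eq_psi (uu_det _) hκ hpos ((mem_UU hw).1 hwU).1 ((mem_UU hw).1 hwU).2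
      set lam := rho (uu (-k))⁻¹ (low w) 0 with hlam
      set z := kz (rho (uu (-k))⁻¹ (low w)) with hz
      have h3 : low w = lam • rho (uu (-k)) (ch z) := by
        have := congrArg low h2
        rw [low_smul, psi, low_up] at this
        exact this
      have h4 : ∀ l : Fin 7, eval w (G l.castSucc) = c * rho (t * uu (-k)) (ch z) l := by
        intro l
        have h5 := congrFun he l.castSucc
        simp only [Pi.smul_apply, smul_eq_mul] at h5
        rw [h5, psi]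
        simp only [up, Fin.snoc_castSucc]
      have h6 : ∀ l : Fin 7, rho t (low w) l = lam * rho (t * uu (-k)) (ch z) l := by
        intro l
        rw [h3, map_smul, rho_mul]
        rfl
      rw [h4, h4, h6, h6]
      ring)
  have h7 := hvan v hv
  rw [hm] at h7
  have h8 := hG v hv.1 ((mem_zeros_eqX hv.1).2 hv) hG0
  rw [huv] at h8
  obtain ⟨c, hc, he⟩ := mk_eq_low hu _ h8
  have h9 : ∀ l : Fin 7, low u l = c * eval v (G l.castSucc) := by
    intro l
    exact congrFun he l.castSucc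
  rw [h9, h9]
  linear_combination c * h7

lemma prop_of_minors {a b : Fin 7 → ℂ} (ha : a ≠ 0) (hb : b ≠ 0)
    (h : ∀ i j, a i * b j - a j * b i = 0) : ∃ c : ℂ, c ≠ 0 ∧ a = c • b := by
  obtain ⟨j, hj⟩ := Function.ne_iff.1 hb
  simp only [Pi.zero_apply] at hj
  have e : a = (a j / b j) • b := by
    ext i
    simp only [Pi.smul_apply, smul_eq_mul]
    have := h i j
    field_simp
    linear_combination this
  refine ⟨a j / b j, ?_, e⟩
  intro h0
  apply ha
  rw [e, h0, zero_smul]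

/-- The local map has no biregular extension. -/
theorem no_extension (hQ : bil Q e0 e1 ^ 2 ≠ 4 * quad Q e0 * quad Q e1) (k : ℂ) (hκ : κ ≠ 0)
    (hε : 0 < ε) (hpos : Pos Q (uu (-k)) κ z₀ ε) (t : M2) (htd : t.det ≠ 0)
    (ht : (t * uu (-k)).det ≠ 0) (κ' : ℂ)
    {b : Fin 7 → ℂ} (hb0 : b ≠ 0) (hb : Cone b) (hqb : quad Q b = 0)
    (hqtb : quad Q (rho t b) ≠ 0) :
    ¬ ∃ Φ : ℙ ℂ (Fin 8 → ℂ) → ℙ ℂ (Fin 8 → ℂ), IsBiregularAut (zeros (eqX Q)) Φ ∧
      ∀ p ∈ UU Q (uu (-k)) κ z₀ ε, Φ p = phi Q (uu (-k)) (t * uu (-k)) ht κ' p := by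
  rintro ⟨Φ, ⟨hmap, hreg, Ψ, hmap', _, _, hinv⟩, hext⟩
  have key := fun {v : Fin 8 → ℂ} (hv : v ∈ cone (eqX Q)) {u : Fin 8 → ℂ} (hu : u ≠ 0)
    (huv : Φ (Projectivization.mk ℂ v hv.1) = Projectivization.mk ℂ u hu) =>
    over_t hQ k hκ hε hpos t ht κ' hreg hext hv hu huv
  -- the point over b
  have hx : up b 0 ∈ cone (eqX Q) := up_mem_cone hb0 hb (by rw [hqb]; ring)
  have hxm := (mem_zeros_eqX hx.1).2 hx
  have htb : rho t b ≠ 0 := by
    intro h0
    exact hb0 (rho_injective htd (by rw [h0, map_zero]))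
  obtain ⟨u, hu, hΦu⟩ : ∃ (u : Fin 8 → ℂ) (hu : u ≠ 0),
      Φ (Projectivization.mk ℂ (up b 0) hx.1) = Projectivization.mk ℂ u hu :=
    ⟨_, Projectivization.rep_nonzero _, (Projectivization.mk_rep _).symm⟩
  have hum : u ∈ cone (eqX Q) := by
    have := hmap hxm
    rw [hΦu, mem_zeros_eqX] at this
    exact this
  obtain ⟨c, hc, hcu⟩ := prop_of_minors (low_ne_zero hum) htb (fun i j => by
    have := key hx hu hΦu i j
    rwa [low_up] at this)
  have hu2 := ((mem_cone_eqX Q u).1 hum).2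
  have hu7 : u 7 ≠ 0 := by
    intro h0
    have h1 := hu2.2
    rw [h0, hcu, quad_smul] at h1
    have : c ^ 2 * quad Q (rho t b) = 0 := by rw [← h1]; ring
    rcases mul_eq_zero.1 this with h | h
    · exact hc (pow_eq_zero_iff (two_ne_zero) |>.1 h)
    · exact hqtb h
  -- the other point
  have hu' : up (low u) (-u 7) ∈ cone (eqX Q) :=
    up_mem_cone (low_ne_zero hum) hu2.1 (by rw [← hu2.2]; ring)
  have hpm := (mem_zeros_eqX hu'.1).2 hu'
  obtain ⟨v, hv, hΨv⟩ : ∃ (v : Fin 8 → ℂ) (hv : v ≠ 0),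
      Ψ (Projectivization.mk ℂ _ hu'.1) = Projectivization.mk ℂ v hv :=
    ⟨_, Projectivization.rep_nonzero _, (Projectivization.mk_rep _).symm⟩
  have hvm : v ∈ cone (eqX Q) := by
    have := hmap' hpm
    rw [hΨv, mem_zeros_eqX] at this
    exact this
  have hΦv : Φ (Projectivization.mk ℂ v hvm.1) = Projectivization.mk ℂ _ hu'.1 := by
    rw [← hΨv]
    exact hinv _ hpm
  have htv : rho t (low v) ≠ 0 := by
    intro h0
    exact low_ne_zero hvm (rho_injective htd (by rw [h0, map_zero]))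
  obtain ⟨c', hc', hcv⟩ := prop_of_minors (low_ne_zero hum) htv (fun i j => by
    have := key hvm hu'.1 hΦv i j
    rwa [low_up] at this)
  -- low v is proportional to b
  have hvb : low v = (c'⁻¹ * c) • b := by
    apply rho_injective htd
    rw [map_smul]
    have : c' • rho t (low v) = c • rho t b := by rw [← hcv, hcu]
    rw [mul_smul, ← this, smul_smul, inv_mul_cancel₀ hc', one_smul]
  have hv7 : v 7 = 0 := by
    have h1 := ((mem_cone_eqX Q v).1 hvm).2.2
    rw [hvb, quad_smul, hqb, mul_zero] at h1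
    exact pow_eq_zero_iff (two_ne_zero) |>.1 h1
  have hveq : v = (c'⁻¹ * c) • up b 0 := by
    apply up_ext
    · rw [low_smul, low_up, hvb]
    · rw [Pi.smul_apply, up_seven, hv7, smul_zero]
  have hmk : Projectivization.mk ℂ v hvm.1 = Projectivization.mk ℂ (up b 0) hx.1 := by
    rw [Projectivization.mk_eq_mk_iff']
    exact ⟨_, hveq.symm⟩
  rw [hmk, hΦu] at hΦv
  obtain ⟨e, he, hue⟩ := mk_eq_low hu _ hΦv
  have h1 := congrArg low hue
  rw [low_smul, low_up] at h1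
  have h2 := congrFun hue 7
  rw [Pi.smul_apply, up_seven, smul_eq_mul] at h2
  have he1 : e = 1 := by
    obtain ⟨j, hj⟩ := Function.ne_iff.1 (low_ne_zero hum)
    simp only [Pi.zero_apply] at hj
    have h3 := congrFun h1 j
    simp only [Pi.smul_apply, smul_eq_mul] at h3
    apply mul_right_cancel₀ hj
    linear_combination -h3
  rw [he1] at h2
  apply hu7
  linear_combination (1 / 2 : ℂ) * h2

end Pool.Agent.Lib.MP_6e94a1_ag
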