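import Pool.Agent.Lib.MP_6e94a1_ag.CovBase

/-!
# Irreducibility of the double cover
-/

open scoped LinearAlgebra.Projectivization Topology
open MvPolynomial Set

set_option linter.all false

namespace Pool.Agent.Lib.MP_6e94a1_ag

variable {σ : Type}

/-- standard chart of `V₅` -/
def ch (z : Fin 3 → ℂ) : Fin 7 → ℂ :=
  ![1, z 0, z 1, z 2, 4 * z 0 * z 2 - 3 * z 1 ^ 2,
    3 * z 0 * (4 * z 0 * z 2 - 3 * z 1 ^ 2) - 2 * z 1 * z 2,
    9 * z 1 * (4 * z 0 * z 2 - 3 * z 1 ^ 2) - 8 * z 2 ^ 2]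

/-- chart coordinates -/
noncomputable def kz (a : Fin 7 → ℂ) : Fin 3 → ℂ := ![a 1 / a 0, a 2 / a 0, a 3 / a 0]

lemma cone_ch (z : Fin 3 → ℂ) : Cone (ch z) := by
  simp only [Cone, ch, Matrix.cons_val]
  refine ⟨?_, ?_, ?_, ?_, ?_⟩ <;> ring

lemma ch_zero (z : Fin 3 → ℂ) : ch z 0 = 1 := rfl

lemma ch_ne_zero (z : Fin 3 → ℂ) : ch z ≠ 0 := by
  intro h
  have := congrFun h 0
  rw [ch_zero] at this
  exact one_ne_zero this

lemma kz_ch (z : Fin 3 → ℂ) : kz (ch z) = z := by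
  ext i
  fin_cases i <;> simp [kz, ch]

lemma kz_smul {c : ℂ} (hc : c ≠ 0) (a : Fin 7 → ℂ) : kz (c • a) = kz a := by
  ext i
  fin_cases i <;> simp [kz] <;> exact mul_div_mul_left _ _ hc

lemma eq_smul_ch {a : Fin 7 → ℂ} (h : Cone a) (h0 : a 0 ≠ 0) : a = a 0 • ch (kz a) := by
  obtain ⟨h1, h2, h3, h4, h5⟩ := h
  have e4 : a 4 = (4 * a 1 * a 3 - 3 * a 2 ^ 2) / a 0 := by
    field_simp
    linear_combination h1
  have e5 : a 5 = (3 * a 1 * a 4 - 2 * a 2 * a 3) / a 0 := by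
    field_simp
    linear_combination h2
  have e6 : a 6 = (9 * a 2 * a 4 - 8 * a 3 ^ 2) / a 0 := by
    field_simp
    linear_combination h3
  rw [e4] at e5 e6
  ext i
  fin_cases i
  · simp [ch]
  · simp [ch, kz]
    field_simp
  · simp [ch, kz]
    field_simp
  · simp [ch, kz]
    field_simp
  · simp [ch, kz]
    rw [e4]
    field_simp
  · simp [ch, kz]
    rw [e5]
    field_simp
  · simp [ch, kz]
    rw [e6]
    field_simp

/-! ### polynomiality -/

lemma IsPoly.congr {F G : (σ → ℂ) → ℂ} (hF : IsPoly F) (h : ∀ x, F x = G x) : IsPoly G := by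
  obtain ⟨f, hf⟩ := hF
  exact ⟨f, fun x => by rw [hf, h]⟩

lemma IsPoly.lin {n m : ℕ} {G : (σ → ℂ) → (Fin n → ℂ)} (hG : ∀ j, IsPoly (fun x => G x j))
    (L : (Fin n → ℂ) →ₗ[ℂ] (Fin m → ℂ)) (i : Fin m) : IsPoly (fun x => L (G x) i) := by
  have h : IsPoly (fun x => ∑ j, G x j * L (fun k => if j = k then 1 else 0) i) :=
    IsPoly.sum _ fun j => (hG j).mul (IsPoly.const _)
  refine h.congr fun x => ?_
  conv_rhs => rw [LinearMap.pi_apply_eq_sum_univ L (G x)]
  simp only [Finset.sum_apply, Pi.smul_apply, smul_eq_mul]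

lemma IsPoly.quad {G : (σ → ℂ) → (Fin 7 → ℂ)} (hG : ∀ j, IsPoly (fun x => G x j))
    (Q : Matrix (Fin 7) (Fin 7) ℂ) : IsPoly (fun x => MP_6e94a1_ag.quad Q (G x)) :=
  IsPoly.sum _ fun i => IsPoly.sum _ fun j => ((IsPoly.const _).mul (hG i)).mul (hG j)

lemma IsPoly.bil {G H : (σ → ℂ) → (Fin 7 → ℂ)} (hG : ∀ j, IsPoly (fun x => G x j))
    (hH : ∀ j, IsPoly (fun x => H x j))
    (Q : Matrix (Fin 7) (Fin 7) ℂ) : IsPoly (fun x => MP_6e94a1_ag.bil Q (G x) (H x)) :=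
  IsPoly.sum _ fun i => IsPoly.sum _ fun j =>
    (IsPoly.const _).mul (((hG i).mul (hH j)).add ((hG j).mul (hH i)))

lemma IsPoly.ch {Z : (σ → ℂ) → (Fin 3 → ℂ)} (hZ : ∀ j, IsPoly (fun x => Z x j)) (j : Fin 7) :
    IsPoly (fun x => MP_6e94a1_ag.ch (Z x) j) := by
  have h4 : IsPoly (fun x => 4 * Z x 0 * Z x 2 - 3 * Z x 1 ^ 2) :=
    (((IsPoly.const 4).mul (hZ 0)).mul (hZ 2)).sub ((IsPoly.const 3).mul ((hZ 1).pow 2))
  fin_cases j
  · exact IsPoly.const 1
  · exact hZ 0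
  · exact hZ 1
  · exact hZ 2
  · exact h4
  · exact (((IsPoly.const 3).mul (hZ 0)).mul h4).sub (((IsPoly.const 2).mul (hZ 1)).mul (hZ 2))
  · exact (((IsPoly.const 9).mul (hZ 1)).mul h4).sub ((IsPoly.const 8).mul ((hZ 2).pow 2))

/-- restriction to a polynomial curve -/
lemma restrict (γ : σ → Polynomial ℂ) (G : MvPolynomial σ ℂ) :
    ∃ p : Polynomial ℂ, ∀ s, p.eval s = eval (fun i => (γ i).eval s) G := by
  induction G using MvPolynomial.induction_on with
  | C a => exact ⟨Polynomial.C a, fun s => by simp⟩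
  | add p q hp hq =>
    obtain ⟨p', hp'⟩ := hp
    obtain ⟨q', hq'⟩ := hq
    exact ⟨p' + q', fun s => by rw [Polynomial.eval_add, hp', hq', map_add]⟩
  | mul_X p i hp =>
    obtain ⟨p', hp'⟩ := hp
    exact ⟨p' * γ i, fun s => by rw [Polynomial.eval_mul, hp', map_mul, eval_X]⟩

/-- a function which restricts on a line to a quadratic polynomial with non-zero discriminant
is not a square -/
lemma not_square_of_line {F : MvPolynomial σ ℂ} (γ : σ → Polynomial ℂ) {A B C : ℂ}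
    (h : B ^ 2 ≠ 4 * A * C)
    (hF : ∀ s, eval (fun i => (γ i).eval s) F = A + B * s + C * s ^ 2) (G : MvPolynomial σ ℂ) :
    F ≠ G ^ 2 := by
  rintro rfl
  obtain ⟨p, hp⟩ := restrict γ G
  apply not_sq h p
  intro s
  rw [hp, ← hF, map_pow]

/-- coordinate vectors -/
def e0 : Fin 7 → ℂ := ![1, 0, 0, 0, 0, 0, 0]

def e1 : Fin 7 → ℂ := ![0, 1, 0, 0, 0, 0, 0]

/-- upper unipotent matrix -/
def uu (k : ℂ) : M2 := !![1, k; 0, 1]

lemma uu_det (k : ℂ) : (uu k).det ≠ 0 := by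
  rw [uu, Matrix.det_fin_two_of]
  norm_num

lemma uu_inv (k : ℂ) (a : Fin 7 → ℂ) : rho (uu (-k)) (rho (uu k) a) = a := by
  rw [← rho_mul]
  have : uu (-k) * uu k = 1 := by
    ext i j
    fin_cases i <;> fin_cases j <;> simp [uu, Matrix.mul_apply, Fin.sum_univ_two]
  rw [this, rho_one]

lemma uu_inv' (k : ℂ) (a : Fin 7 → ℂ) : rho (uu k) (rho (uu (-k)) a) = a := by
  have := uu_inv (-k) a
  rwa [neg_neg] at this

lemma rho_uu_e0 (k : ℂ) : rho (uu k) e0 = e0 := by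
  ext i
  fin_cases i <;> simp [rho, rhoAux, uu, e0]

lemma rho_uu_e1 (k : ℂ) : rho (uu k) e1 = e1 + (6 * k) • e0 := by
  ext i
  fin_cases i <;> simp [rho, rhoAux, uu, e0, e1]

/-- the discriminant is unchanged -/
lemma disc_uu {Q : Matrix (Fin 7) (Fin 7) ℂ} (hQ : bil Q e0 e1 ^ 2 ≠ 4 * quad Q e0 * quad Q e1)
    (k : ℂ) : bil Q (rho (uu k) e0) (rho (uu k) e1) ^ 2 ≠
      4 * quad Q (rho (uu k) e0) * quad Q (rho (uu k) e1) := by
  rw [rho_uu_e0, rho_uu_e1]
  intro h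
  apply hQ
  have h1 : quad Q (e1 + (6 * k) • e0) = quad Q ((1 : ℂ) • e1 + (6 * k) • e0) := by
    rw [one_smul]
  rw [h1, quad_comb, bil_add_right, bil_smul_right, bil_self, bil_comm Q e1 e0] at h
  linear_combination h

lemma ch_line (s : ℂ) : ch ![s, 0, 0] = e0 + s • e1 := by
  ext i
  fin_cases i <;> simp [ch, e0, e1]

/-- The part of the cone lying over the translated chart. -/
def SK (Q : Matrix (Fin 7) (Fin 7) ℂ) (g : M2) : Set (Fin 8 → ℂ) :=
  {v | v ∈ cone (eqX Q) ∧ rho g (low v) 0 ≠ 0}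

lemma exists_poly_chart (Q : Matrix (Fin 7) (Fin 7) ℂ) (g : M2) :
    ∃ F : MvPolynomial (Fin 4) ℂ, ∀ x : Fin 4 → ℂ,
      eval x F = quad Q (rho g (ch ![x 1, x 2, x 3])) := by
  apply IsPoly.quad
  intro j
  apply IsPoly.lin
  intro i
  apply IsPoly.ch
  intro l
  fin_cases l
  · exact IsPoly.coord 1
  · exact IsPoly.coord 2
  · exact IsPoly.coord 3

lemma chart_not_square {Q : Matrix (Fin 7) (Fin 7) ℂ}
    (hQ : bil Q e0 e1 ^ 2 ≠ 4 * quad Q e0 * quad Q e1) (k : ℂ) {F : MvPolynomial (Fin 4) ℂ}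
    (hF : ∀ x : Fin 4 → ℂ, eval x F = quad Q (rho (uu k) (ch ![x 1, x 2, x 3])))
    (G : MvPolynomial (Fin 4) ℂ) : F ≠ G ^ 2 := by
  apply not_square_of_line (γ := ![0, Polynomial.X, 0, 0]) (disc_uu hQ k)
  intro s
  rw [hF]
  simp only [Matrix.cons_val, Polynomial.eval_X, Polynomial.eval_zero]
  rw [ch_line, map_add, map_smul]
  have := quad_comb Q 1 s (rho (uu k) e0) (rho (uu k) e1)
  rw [one_smul] at this
  rw [this]
  ring

lemma SK_eq (Q : Matrix (Fin 7) (Fin 7) ℂ) (k : ℂ) {F : MvPolynomial (Fin 4) ℂ}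
    (hF : ∀ x : Fin 4 → ℂ, eval x F = quad Q (rho (uu (-k)) (ch ![x 1, x 2, x 3]))) :
    SK Q (uu k) = {y | ∃ (x : Fin 4 → ℂ) (w : ℂ), w ^ 2 = eval x F ∧
      eval x (X 0 : MvPolynomial (Fin 4) ℂ) ≠ 0 ∧
      x 0 • up (rho (uu (-k)) (ch ![x 1, x 2, x 3])) w = y} := by
  ext v
  constructor
  · rintro ⟨hv, h0⟩
    have hc := ((mem_cone_eqX Q v).1 hv).2
    have hch := eq_smul_ch (hc.1.rho (uu k)) h0
    set c := rho (uu k) (low v) 0 with hcdef
    set z := kz (rho (uu k) (low v)) with hz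
    have hlow : low v = c • rho (uu (-k)) (ch z) := by
      rw [← map_smul, ← hch, uu_inv]
    refine ⟨![c, z 0, z 1, z 2], c⁻¹ * v 7, ?_, ?_, ?_⟩
    · rw [hF]
      simp only [Matrix.cons_val]
      have hz' : ![z 0, z 1, z 2] = z := by
        ext i
        fin_cases i <;> rfl
      rw [hz', mul_pow, hc.2, hlow, quad_smul]
      field_simp
    · simpa using h0
    · simp only [Matrix.cons_val]
      have hz' : ![z 0, z 1, z 2] = z := by
        ext i
        fin_cases i <;> rfl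
      rw [hz', smul_up]
      apply up_ext
      · rw [low_up, ← hlow]
      · rw [up_seven]
        field_simp
  · rintro ⟨x, w, hw, hx, rfl⟩
    rw [eval_X] at hx
    rw [hF] at hw
    refine ⟨?_, ?_⟩
    · apply smul_mem_cone hx
      apply up_mem_cone
      · intro h
        have h2 := uu_inv' k (ch ![x 1, x 2, x 3])
        rw [h, map_zero] at h2
        exact ch_ne_zero _ h2.symm
      · exact (cone_ch _).rho _
      · exact hw
    · rw [low_smul, low_up, map_smul, uu_inv']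
      simpa [ch] using hx

lemma SK_irr {Q : Matrix (Fin 7) (Fin 7) ℂ}
    (hQ : bil Q e0 e1 ^ 2 ≠ 4 * quad Q e0 * quad Q e1) (k : ℂ) :
    @IsIrreducible _ (zariski (Fin 8)) (SK Q (uu k)) := by
  obtain ⟨F, hF⟩ := exists_poly_chart Q (uu (-k))
  rw [SK_eq Q k hF]
  apply irr_image (chart_not_square hQ (-k) hF) (X_ne_zero 0)
  intro j
  have hch : ∀ i, IsPoly (fun x : Fin 4 → ℂ => rho (uu (-k)) (ch ![x 1, x 2, x 3]) i) := by
    intro i
    apply IsPoly.lin
    intro i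
    apply IsPoly.ch
    intro l
    fin_cases l
    · exact IsPoly.coord 1
    · exact IsPoly.coord 2
    · exact IsPoly.coord 3
  have hFp : IsPoly (fun x : Fin 4 → ℂ => eval x F) := ⟨F, fun _ => rfl⟩
  refine Fin.lastCases ?_ (fun i => ?_) j
  · have : (fun (x : Fin 4 → ℂ) (w : ℂ) => (x 0 • up (rho (uu (-k)) (ch ![x 1, x 2, x 3])) w)
        (Fin.last 7)) = fun (x : Fin 4 → ℂ) w => x 0 * w := by
      ext x w
      have : (Fin.last 7 : Fin 8) = 7 := rfl
      rw [this, Pi.smul_apply, up_seven, smul_eq_mul]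
    rw [this]
    exact IsPoly2.mul hFp (IsPoly2.of_poly (IsPoly.coord 0)) IsPoly2.snd
  · have : (fun (x : Fin 4 → ℂ) (w : ℂ) => (x 0 • up (rho (uu (-k)) (ch ![x 1, x 2, x 3])) w)
        i.castSucc) = fun (x : Fin 4 → ℂ) _ => x 0 * rho (uu (-k)) (ch ![x 1, x 2, x 3]) i := by
      ext x w
      rw [Pi.smul_apply, smul_eq_mul]
      congr 1
      simp only [up, Fin.snoc_castSucc]
    rw [this]
    exact IsPoly2.of_poly ((IsPoly.coord 0).mul (hch i))

lemma exists_nat_rho_ne {a : Fin 7 → ℂ} (ha : a ≠ 0) : ∃ k : ℕ, rho (uu k) a 0 ≠ 0 := by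
  by_contra hcon
  push Not at hcon
  let f : Polynomial ℂ := Polynomial.C (a 0) * Polynomial.X ^ 0 +
      Polynomial.C (6 * a 1) * Polynomial.X ^ 1 + Polynomial.C (15 * a 2) * Polynomial.X ^ 2 +
      Polynomial.C (20 * a 3) * Polynomial.X ^ 3 + Polynomial.C (15 * a 4) * Polynomial.X ^ 4 +
      Polynomial.C (6 * a 5) * Polynomial.X ^ 5 + Polynomial.C (a 6) * Polynomial.X ^ 6
  have hf : f ≠ 0 := by
    intro h
    apply ha
    ext i
    have c := congrArg (fun P => P.coeff i) h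
    simp only [f, Polynomial.coeff_add, Polynomial.coeff_C_mul_X_pow, Polynomial.coeff_zero] at c
    fin_cases i <;> simpa using c
  have hroot : ∀ k : ℕ, f.IsRoot (k : ℂ) := by
    intro k
    have e : rho (uu k) a 0 = f.eval (k : ℂ) := by
      simp only [f, Polynomial.eval_add, Polynomial.eval_mul, Polynomial.eval_C,
        Polynomial.eval_pow, Polynomial.eval_X]
      simp [rho, rhoAux, uu]
      ring
    rw [Polynomial.IsRoot, ← e, hcon]
  apply hf
  apply Polynomial.eq_zero_of_infinite_isRoot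
  apply Set.Infinite.mono (s := range (fun k : ℕ => (k : ℂ)))
  · rintro _ ⟨k, rfl⟩
    exact hroot k
  · exact Set.infinite_range_of_injective Nat.cast_injective

/-- A polynomial vanishing on the standard chart vanishes on the whole cone. -/
lemma vanish_of_SK {Q : Matrix (Fin 7) (Fin 7) ℂ}
    (hQ : bil Q e0 e1 ^ 2 ≠ 4 * quad Q e0 * quad Q e1) (k : ℂ) {f : MvPolynomial (Fin 8) ℂ}
    (hf : ∀ v ∈ SK Q (uu k), eval v f = 0) : ∀ v ∈ cone (eqX Q), eval v f = 0 := by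
  intro v hv
  obtain ⟨l, hl⟩ := exists_nat_rho_ne (low_ne_zero hv)
  have hirr := (irr_iff.1 (SK_irr hQ l)).2
  -- the linear form
  have hlin : IsPoly (fun v : Fin 8 → ℂ => rho (uu k) (low v) 0) := by
    apply IsPoly.lin (n := 7)
    intro j
    exact IsPoly.coord j.castSucc
  obtain ⟨L, hL⟩ := hlin
  simp only at hL
  have := hirr f L (by
    intro w hw
    by_cases h : rho (uu k) (low w) 0 = 0
    · rw [hL, h, mul_zero]
    · rw [hf w ⟨hw.1, h⟩, zero_mul])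
  rcases this with h | h
  · exact h v ⟨hv, hl⟩
  · exfalso
    obtain ⟨w, hw⟩ := IsAlgClosed.exists_pow_nat_eq (quad Q e0) (n := 2) (by norm_num)
    have hmem : up e0 w ∈ cone (eqX Q) := by
      apply up_mem_cone _ _ hw
      · intro h
        have := congrFun h 0
        simp [e0] at this
      · simp [Cone, e0]
    have h1 := h (up e0 w) ⟨hmem, by rw [low_up, rho_uu_e0]; simp [e0]⟩
    rw [hL, low_up, rho_uu_e0] at h1
    simp [e0] at h1

lemma uu_zero : uu 0 = 1 := by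
  ext i j
  fin_cases i <;> fin_cases j <;> simp [uu]

theorem irr_cone {Q : Matrix (Fin 7) (Fin 7) ℂ}
    (hQ : bil Q e0 e1 ^ 2 ≠ 4 * quad Q e0 * quad Q e1) :
    @IsIrreducible _ (zariski (Fin 8)) (cone (eqX Q)) := by
  have h0 := SK_irr hQ 0
  rw [irr_iff] at h0 ⊢
  refine ⟨h0.1.mono fun v hv => hv.1, ?_⟩
  intro f g hfg
  rcases h0.2 f g (fun v hv => hfg v hv.1) with h | h
  · left
    exact vanish_of_SK hQ 0 h
  · right
    exact vanish_of_SK hQ 0 h

end Pool.Agent.Lib.MP_6e94a1_ag
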