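import Pool.Agent.Lib.MP_6e94a1_ag.CovIrr

/-!
# Local maps of the double cover
-/

open scoped LinearAlgebra.Projectivization Topology
open MvPolynomial Set Filter

set_option linter.all false

namespace Pool.Agent.Lib.MP_6e94a1_ag

/-- principal square root -/
noncomputable def sq (x : ℂ) : ℂ := Complex.exp (Complex.log x / 2)

lemma sq_sq {x : ℂ} (hx : x ≠ 0) : sq x ^ 2 = x := by
  rw [sq, ← Complex.exp_nat_mul]
  have : ((2 : ℕ) : ℂ) * (Complex.log x / 2) = Complex.log x := by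
    push_cast
    ring
  rw [this, Complex.exp_log hx]

lemma sq_re {x : ℂ} (hx : 0 < x.re) : 0 < (sq x).re := by
  rw [sq, Complex.exp_re]
  apply mul_pos (Real.exp_pos _)
  have him : (Complex.log x / 2).im = x.arg / 2 := by
    have : Complex.log x / 2 = Complex.log x * ((1 / 2 : ℝ) : ℂ) := by
      push_cast
      ring
    rw [this, Complex.im_mul_ofReal, Complex.log_im]
    ring
  rw [him]
  have h := Complex.abs_arg_lt_pi_div_two_iff.2 (Or.inl hx)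
  rw [abs_lt] at h
  apply Real.cos_pos_of_mem_Ioo
  constructor <;> linarith [Real.pi_pos]

lemma eq_sq {x y : ℂ} (hx : 0 < x.re) (hy : 0 < y.re) (h : y ^ 2 = x) : y = sq x := by
  have hx0 : x ≠ 0 := by
    rintro rfl
    simp at hx
  have h2 : (y - sq x) * (y + sq x) = 0 := by
    have := sq_sq hx0
    linear_combination h - this
  rcases mul_eq_zero.1 h2 with h3 | h3
  · exact sub_eq_zero.1 h3
  · exfalso
    have h4 := congrArg Complex.re h3
    simp only [Complex.add_re, Complex.zero_re] at h4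
    have := sq_re hx
    linarith

lemma analyticAt_sq {x : ℂ} (hx : 0 < x.re) : AnalyticAt ℂ sq x := by
  have h1 : AnalyticAt ℂ Complex.log x := analyticAt_clog (Or.inl hx)
  exact (h1.div analyticAt_const (by norm_num)).cexp

/-- the lift of the chart -/
noncomputable def psi (Q : Matrix (Fin 7) (Fin 7) ℂ) (h : M2) (κ : ℂ) (z : Fin 3 → ℂ) :
    Fin 8 → ℂ :=
  up (rho h (ch z)) (κ * sq (quad Q (rho h (ch z)) / κ ^ 2))

variable {Q : Matrix (Fin 7) (Fin 7) ℂ} {h : M2} {κ : ℂ}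

lemma rho_ch_ne (hh : h.det ≠ 0) (z : Fin 3 → ℂ) : rho h (ch z) ≠ 0 := by
  intro h0
  apply ch_ne_zero z
  apply rho_injective hh
  rw [h0, map_zero]

lemma psi_ne (hh : h.det ≠ 0) (z : Fin 3 → ℂ) : psi Q h κ z ≠ 0 := by
  intro h0
  have := congrArg low h0
  rw [psi, low_up] at this
  exact rho_ch_ne hh z this

lemma psi_mem (hh : h.det ≠ 0) (hκ : κ ≠ 0) {z : Fin 3 → ℂ}
    (hz : 0 < (quad Q (rho h (ch z)) / κ ^ 2).re) : psi Q h κ z ∈ cone (eqX Q) := by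
  apply up_mem_cone (rho_ch_ne hh z) ((cone_ch z).rho h)
  have h1 : quad Q (rho h (ch z)) / κ ^ 2 ≠ 0 := by
    intro h0
    rw [h0] at hz
    simp at hz
  rw [mul_pow, sq_sq h1]
  field_simp

/-- the defining condition of the local domain -/
def GG (h : M2) (κ : ℂ) (z₀ : Fin 3 → ℂ) (ε : ℝ) (v : Fin 8 → ℂ) : Prop :=
  rho h⁻¹ (low v) 0 ≠ 0 ∧ kz (rho h⁻¹ (low v)) ∈ Metric.ball z₀ ε ∧
    0 < (v 7 / (κ * rho h⁻¹ (low v) 0)).re

variable {z₀ : Fin 3 → ℂ} {ε : ℝ}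

lemma GG_smul {c : ℂ} (hc : c ≠ 0) {v : Fin 8 → ℂ} : GG h κ z₀ ε (c • v) ↔ GG h κ z₀ ε v := by
  simp only [GG, low_smul, map_smul, Pi.smul_apply, smul_eq_mul]
  rw [kz_smul hc]
  have e : c * v 7 / (κ * (c * rho h⁻¹ (low v) 0)) = v 7 / (κ * rho h⁻¹ (low v) 0) := by
    rw [show κ * (c * rho h⁻¹ (low v) 0) = c * (κ * rho h⁻¹ (low v) 0) by ring]
    exact mul_div_mul_left _ _ hc
  rw [e]
  have e2 : c * rho h⁻¹ (low v) 0 ≠ 0 ↔ rho h⁻¹ (low v) 0 ≠ 0 := by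
    simp [hc]
  rw [e2]

/-- the local domain in the threefold -/
def UU (Q : Matrix (Fin 7) (Fin 7) ℂ) (h : M2) (κ : ℂ) (z₀ : Fin 3 → ℂ) (ε : ℝ) :
    Set (ℙ ℂ (Fin 8 → ℂ)) := {p | GG h κ z₀ ε p.rep} ∩ zeros (eqX Q)

lemma rep_cond {v : Fin 8 → ℂ} (hv : v ≠ 0) :
    GG h κ z₀ ε (Projectivization.mk ℂ v hv).rep ↔ GG h κ z₀ ε v := by
  obtain ⟨a, ha⟩ := Projectivization.exists_smul_eq_mk_rep ℂ v hv
  rw [← ha]
  exact GG_smul (Units.ne_zero a)

lemma mem_UU {v : Fin 8 → ℂ} (hv : v ≠ 0) :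
    Projectivization.mk ℂ v hv ∈ UU Q h κ z₀ ε ↔ GG h κ z₀ ε v ∧ v ∈ cone (eqX Q) := by
  rw [UU, mem_inter_iff, mem_zeros_eqX]
  exact and_congr_left fun _ => rep_cond hv

lemma low_continuous : Continuous low := by
  apply continuous_pi
  intro i
  exact continuous_apply _

lemma rho_continuous (g : M2) : Continuous (rho g) := (rho g).continuous_of_finiteDimensional

lemma lowr_continuous (g : M2) : Continuous (fun v : Fin 8 → ℂ => rho g (low v)) :=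
  (rho_continuous g).comp low_continuous

lemma kz_analyticAt {a : Fin 7 → ℂ} (ha : a 0 ≠ 0) : AnalyticAt ℂ kz a := by
  have hp : ∀ i, AnalyticAt ℂ (fun z : Fin 7 → ℂ => z i) a := fun i =>
    (ContinuousLinearMap.proj (R := ℂ) (φ := fun _ : Fin 7 => ℂ) i).analyticAt a
  rw [analyticAt_pi_iff]
  intro i
  fin_cases i
  · exact (hp 1).div (hp 0) ha
  · exact (hp 2).div (hp 0) ha
  · exact (hp 3).div (hp 0) ha

lemma low_analyticAt (v : Fin 8 → ℂ) : AnalyticAt ℂ low v := by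
  rw [analyticAt_pi_iff]
  intro i
  exact (ContinuousLinearMap.proj (R := ℂ) (φ := fun _ : Fin 8 => ℂ) i.castSucc).analyticAt v

lemma kzr_analyticAt {g : M2} {v : Fin 8 → ℂ} (hv : rho g (low v) 0 ≠ 0) :
    AnalyticAt ℂ (fun v : Fin 8 → ℂ => kz (rho g (low v))) v := by
  have h1 : AnalyticAt ℂ (fun v : Fin 8 → ℂ => rho g (low v)) v :=
    AnalyticAt.fun_comp ((rho g).toContinuousLinearMap.analyticAt _) (low_analyticAt v)
  exact AnalyticAt.fun_comp (kz_analyticAt hv) h1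

lemma ch_analyticAt (z : Fin 3 → ℂ) : AnalyticAt ℂ ch z := by
  have hp : ∀ i, AnalyticAt ℂ (fun z : Fin 3 → ℂ => z i) z := fun i =>
    (ContinuousLinearMap.proj (R := ℂ) (φ := fun _ : Fin 3 => ℂ) i).analyticAt z
  have h0 := hp 0
  have h1 := hp 1
  have h2 := hp 2
  have h4 : AnalyticAt ℂ (fun z : Fin 3 → ℂ => 4 * z 0 * z 2 - 3 * z 1 ^ 2) z :=
    ((analyticAt_const.mul h0).mul h2).sub (analyticAt_const.mul (h1.pow 2))
  rw [analyticAt_pi_iff]
  intro i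
  fin_cases i
  · exact analyticAt_const
  · exact h0
  · exact h1
  · exact h2
  · exact h4
  · exact ((analyticAt_const.mul h0).mul h4).sub ((analyticAt_const.mul h1).mul h2)
  · exact ((analyticAt_const.mul h1).mul h4).sub (analyticAt_const.mul (h2.pow 2))

lemma rho_ch_analyticAt (g : M2) (z : Fin 3 → ℂ) (i : Fin 7) :
    AnalyticAt ℂ (fun z => rho g (ch z) i) z := by
  have h1 : AnalyticAt ℂ (fun z : Fin 3 → ℂ => rho g (ch z)) z :=
    AnalyticAt.fun_comp ((rho g).toContinuousLinearMap.analyticAt _) (ch_analyticAt z)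
  exact (ContinuousLinearMap.proj (R := ℂ) (φ := fun _ : Fin 7 => ℂ) i).analyticAt _
    |>.fun_comp h1

lemma quad_ch_analyticAt (Q : Matrix (Fin 7) (Fin 7) ℂ) (g : M2) (z : Fin 3 → ℂ) :
    AnalyticAt ℂ (fun z => quad Q (rho g (ch z))) z := by
  have h := rho_ch_analyticAt g z
  have h1 : ∀ i j : Fin 7, AnalyticAt ℂ
      (fun z => Q i j * rho g (ch z) i * rho g (ch z) j) z := fun i j =>
    (analyticAt_const.mul (h i)).mul (h j)
  have h2 : ∀ i : Fin 7, AnalyticAt ℂ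
      (fun z => ∑ j, Q i j * rho g (ch z) i * rho g (ch z) j) z := fun i =>
    Finset.analyticAt_fun_sum _ fun j _ => h1 i j
  exact Finset.analyticAt_fun_sum _ fun i _ => h2 i

lemma psi_analyticAt {z : Fin 3 → ℂ} (hz : 0 < (quad Q (rho h (ch z)) / κ ^ 2).re) :
    AnalyticAt ℂ (psi Q h κ) z := by
  rw [analyticAt_pi_iff]
  intro i
  refine Fin.lastCases ?_ (fun i' => ?_) i
  · have e : (fun z => psi Q h κ z (Fin.last 7)) =
        fun z => κ * sq (quad Q (rho h (ch z)) / κ ^ 2) := by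
      ext z
      have : (Fin.last 7 : Fin 8) = 7 := rfl
      rw [psi, this, up_seven]
    rw [e]
    have h1 : AnalyticAt ℂ (fun z => quad Q (rho h (ch z)) / κ ^ 2) z := by
      have := (quad_ch_analyticAt Q h z).mul (analyticAt_const (v := (κ ^ 2)⁻¹))
      exact this
    exact analyticAt_const.mul (AnalyticAt.fun_comp (analyticAt_sq hz) h1)
  · have e : (fun z => psi Q h κ z i'.castSucc) = fun z => rho h (ch z) i' := by
      ext z
      simp only [psi, up, Fin.snoc_castSucc]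
    rw [e]
    exact rho_ch_analyticAt h z i'

lemma UU_open (Q : Matrix (Fin 7) (Fin 7) ℂ) (h : M2) (hκ : κ ≠ 0) :
    IsOpenIn (zeros (eqX Q)) (UU Q h κ z₀ ε) := by
  refine ⟨{p | GG h κ z₀ ε p.rep}, ?_, rfl⟩
  rw [isOpen_proj_iff]
  intro v hv hvO
  have hG : GG h κ z₀ ε v := (rep_cond hv).1 hvO
  obtain ⟨h1, h2, h3⟩ := hG
  have c1 : ContinuousAt (fun v : Fin 8 → ℂ => rho h⁻¹ (low v) 0) v :=
    ((continuous_apply 0).comp (lowr_continuous h⁻¹)).continuousAt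
  have ev1 : ∀ᶠ w in 𝓝 v, rho h⁻¹ (low w) 0 ≠ 0 := c1.eventually_ne h1
  have ev2 : ∀ᶠ w in 𝓝 v, kz (rho h⁻¹ (low w)) ∈ Metric.ball z₀ ε :=
    (kzr_analyticAt h1).continuousAt.eventually (Metric.isOpen_ball.mem_nhds h2)
  have c3 : ContinuousAt (fun v : Fin 8 → ℂ => (v 7 / (κ * rho h⁻¹ (low v) 0)).re) v := by
    apply Complex.continuous_re.continuousAt.comp
    apply ContinuousAt.div
    · exact (continuous_apply 7).continuousAt
    · exact continuousAt_const.mul c1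
    · exact mul_ne_zero hκ h1
  have ev3 : ∀ᶠ w in 𝓝 v, 0 < (w 7 / (κ * rho h⁻¹ (low w) 0)).re := c3.eventually (Ioi_mem_nhds h3)
  filter_upwards [ev1, ev2, ev3] with w w1 w2 w3 hw
  exact (rep_cond hw).2 ⟨w1, w2, w3⟩

/-- The positivity condition on the ball. -/
def Pos (Q : Matrix (Fin 7) (Fin 7) ℂ) (h : M2) (κ : ℂ) (z₀ : Fin 3 → ℂ) (ε : ℝ) : Prop :=
  ∀ z ∈ Metric.ball z₀ ε, 0 < (quad Q (rho h (ch z)) / κ ^ 2).re

lemma GG_psi (hh : h.det ≠ 0) (hκ : κ ≠ 0) (hpos : Pos Q h κ z₀ ε) {z : Fin 3 → ℂ}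
    (hz : z ∈ Metric.ball z₀ ε) : GG h κ z₀ ε (psi Q h κ z) := by
  have e : rho h⁻¹ (low (psi Q h κ z)) = ch z := by
    rw [psi, low_up, rho_inv_rho hh]
  rw [GG, e, kz_ch, ch_zero]
  refine ⟨one_ne_zero, hz, ?_⟩
  have : psi Q h κ z 7 / (κ * 1) = sq (quad Q (rho h (ch z)) / κ ^ 2) := by
    rw [psi, up_seven]
    field_simp
  rw [this]
  exact sq_re (hpos z hz)

lemma psi_mem_UU (hh : h.det ≠ 0) (hκ : κ ≠ 0) (hpos : Pos Q h κ z₀ ε) {z : Fin 3 → ℂ}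
    (hz : z ∈ Metric.ball z₀ ε) :
    Projectivization.mk ℂ (psi Q h κ z) (psi_ne hh z) ∈ UU Q h κ z₀ ε := by
  rw [mem_UU]
  exact ⟨GG_psi hh hκ hpos hz, psi_mem hh hκ (hpos z hz)⟩

lemma eq_psi (hh : h.det ≠ 0) (hκ : κ ≠ 0) (hpos : Pos Q h κ z₀ ε) {v : Fin 8 → ℂ}
    (hG : GG h κ z₀ ε v) (hv : v ∈ cone (eqX Q)) :
    v = rho h⁻¹ (low v) 0 • psi Q h κ (kz (rho h⁻¹ (low v))) := by
  obtain ⟨h1, h2, h3⟩ := hG
  obtain ⟨hv0, hv1, hv2⟩ := (mem_cone_eqX Q v).1 hv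
  have hch := eq_smul_ch (hv1.rho h⁻¹) h1
  set lam := rho h⁻¹ (low v) 0 with hlam
  set z := kz (rho h⁻¹ (low v)) with hz
  have hlow : low v = lam • rho h (ch z) := by
    rw [← map_smul, ← hch, rho_rho_inv hh]
  have hq : quad Q (rho h (ch z)) / κ ^ 2 = (v 7 / (κ * lam)) ^ 2 := by
    rw [div_pow, hv2, hlow, quad_smul]
    field_simp
  have h4 := eq_sq (hpos z h2) h3 hq.symm
  apply up_ext
  · rw [low_smul, psi, low_up, ← hlow]
  · rw [Pi.smul_apply, psi, up_seven, ← h4, smul_eq_mul]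
    field_simp

lemma UU_eq_image (hh : h.det ≠ 0) (hκ : κ ≠ 0) (hpos : Pos Q h κ z₀ ε) :
    UU Q h κ z₀ ε = (fun z => Projectivization.mk ℂ (psi Q h κ z) (psi_ne hh z)) ''
      Metric.ball z₀ ε := by
  ext p
  constructor
  · induction p using Projectivization.ind with
    | h v hv =>
      intro hp
      rw [mem_UU] at hp
      refine ⟨kz (rho h⁻¹ (low v)), hp.1.2.1, ?_⟩
      have := eq_psi hh hκ hpos hp.1 hp.2
      simp only
      rw [Projectivization.mk_eq_mk_iff']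
      refine ⟨(rho h⁻¹ (low v) 0)⁻¹, ?_⟩
      have key : ∀ (lam : ℂ) (P : Fin 8 → ℂ), lam ≠ 0 → v = lam • P → lam⁻¹ • v = P := by
        rintro lam P hl rfl
        rw [smul_smul, inv_mul_cancel₀ hl, one_smul]
      exact key _ _ hp.1.1 this
  · rintro ⟨z, hz, rfl⟩
    exact psi_mem_UU hh hκ hpos hz

lemma UU_conn (hh : h.det ≠ 0) (hκ : κ ≠ 0) (hpos : Pos Q h κ z₀ ε) (hε : 0 < ε) :
    IsConn (UU Q h κ z₀ ε) := by
  rw [UU_eq_image hh hκ hpos, IsConn]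
  let _ := projTopology 8
  have hball : IsConnected (Metric.ball z₀ ε) :=
    ⟨⟨z₀, Metric.mem_ball_self hε⟩, (convex_ball z₀ ε).isPreconnected⟩
  apply hball.image
  have hc : ContinuousOn (psi Q h κ) (Metric.ball z₀ ε) := fun z hz =>
    (psi_analyticAt (hpos z hz)).continuousAt.continuousWithinAt
  rw [continuousOn_iff_continuous_restrict] at hc ⊢
  have hc2 : Continuous (fun z : Metric.ball z₀ ε =>
      (⟨psi Q h κ z.1, psi_ne hh z.1⟩ : {v : Fin 8 → ℂ // v ≠ 0})) :=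
    Continuous.subtype_mk hc _
  have hc3 : Continuous (fun v : {v : Fin 8 → ℂ // v ≠ 0} => Projectivization.mk ℂ v.1 v.2) :=
    continuous_coinduced_rng
  exact hc3.comp hc2

/-- the local map -/
noncomputable def phi (Q : Matrix (Fin 7) (Fin 7) ℂ) (h h' : M2) (hh' : h'.det ≠ 0) (κ' : ℂ) :
    ℙ ℂ (Fin 8 → ℂ) → ℙ ℂ (Fin 8 → ℂ) := fun p =>
  Projectivization.mk ℂ (psi Q h' κ' (kz (rho h⁻¹ (low p.rep)))) (psi_ne hh' _)

lemma phi_mk {h' : M2} (hh' : h'.det ≠ 0) {κ' : ℂ} {v : Fin 8 → ℂ} (hv : v ≠ 0) :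
    phi Q h h' hh' κ' (Projectivization.mk ℂ v hv) =
      Projectivization.mk ℂ (psi Q h' κ' (kz (rho h⁻¹ (low v)))) (psi_ne hh' _) := by
  obtain ⟨a, ha⟩ := Projectivization.exists_smul_eq_mk_rep ℂ v hv
  simp only [phi]
  congr 2
  rw [← ha, Units.smul_def, low_smul, map_smul, kz_smul (Units.ne_zero a)]

lemma phi_psi {h' : M2} (hh : h.det ≠ 0) (hh' : h'.det ≠ 0) {κ' : ℂ} (z : Fin 3 → ℂ) :
    phi Q h h' hh' κ' (Projectivization.mk ℂ (psi Q h κ z) (psi_ne hh z)) =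
      Projectivization.mk ℂ (psi Q h' κ' z) (psi_ne hh' z) := by
  rw [phi_mk]
  congr 2
  rw [psi, low_up, rho_inv_rho hh, kz_ch]

lemma phi_holo {h' : M2} (hh' : h'.det ≠ 0) {κ' : ℂ} (hpos' : Pos Q h' κ' z₀ ε) :
    IsHolomorphicOn (phi Q h h' hh' κ') (UU Q h κ z₀ ε) := by
  intro v hv hvU
  rw [mem_UU] at hvU
  refine ⟨fun w => psi Q h' κ' (kz (rho h⁻¹ (low w))), ?_, ?_⟩
  · exact AnalyticAt.fun_comp (psi_analyticAt (hpos' _ hvU.1.2.1)) (kzr_analyticAt hvU.1.1)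
  · refine Eventually.of_forall ?_
    intro w hw _
    exact ⟨psi_ne hh' _, phi_mk hh' hw⟩

theorem phi_biholo {h' : M2} (hh : h.det ≠ 0) (hh' : h'.det ≠ 0) (hκ : κ ≠ 0) {κ' : ℂ}
    (hκ' : κ' ≠ 0) (hpos : Pos Q h κ z₀ ε) (hpos' : Pos Q h' κ' z₀ ε) :
    IsBiholomorphic (phi Q h h' hh' κ') (UU Q h κ z₀ ε) (UU Q h' κ' z₀ ε) := by
  refine ⟨?_, phi_holo hh' hpos', phi Q h' h hh κ, ?_, phi_holo hh hpos, ?_, ?_⟩
  · intro p hp
    rw [UU_eq_image hh hκ hpos] at hp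
    obtain ⟨z, hz, rfl⟩ := hp
    rw [phi_psi hh hh']
    exact psi_mem_UU hh' hκ' hpos' hz
  · intro p hp
    rw [UU_eq_image hh' hκ' hpos'] at hp
    obtain ⟨z, hz, rfl⟩ := hp
    rw [phi_psi hh' hh]
    exact psi_mem_UU hh hκ hpos hz
  · intro p hp
    rw [UU_eq_image hh hκ hpos] at hp
    obtain ⟨z, hz, rfl⟩ := hp
    rw [phi_psi hh hh', phi_psi hh' hh]
  · intro p hp
    rw [UU_eq_image hh' hκ' hpos'] at hp
    obtain ⟨z, hz, rfl⟩ := hp
    rw [phi_psi hh' hh, phi_psi hh hh']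

end Pool.Agent.Lib.MP_6e94a1_ag
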