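import Pool.Agent.Lib.MP_6e94a1_ag.CovFam

/-!
# The irreducible family of conics
-/

open scoped LinearAlgebra.Projectivization Topology
open MvPolynomial Set

set_option linter.all false

namespace Pool.Agent.Lib.MP_6e94a1_ag

variable {σ : Type}

lemma IsPoly.rho_entries {p q r s : (σ → ℂ) → ℂ} (hp : IsPoly p) (hq : IsPoly q) (hr : IsPoly r)
    (hs : IsPoly s) (a : Fin 7 → ℂ) (i : Fin 7) :
    IsPoly (fun x => rho !![p x, q x; r x, s x] a i) := by
  have e : ∀ x, rho !![p x, q x; r x, s x] a i = rhoAux (p x) (q x) (r x) (s x) a i :=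
    fun x => rfl
  simp only [e]
  fin_cases i <;>
  · simp only [rhoAux, Fin.zero_eta, Fin.mk_one, Fin.reduceFinMk, Matrix.cons_val]
    repeat' first
      | exact hp
      | exact hq
      | exact hr
      | exact hs
      | exact IsPoly.const _
      | apply IsPoly.add
      | apply IsPoly.mul
      | apply IsPoly.pow

/-- matrices from a vector of parameters -/
def gm (x : Fin 8 → ℂ) : M2 := !![x 0, x 1; x 2, x 3]

def km (x : Fin 8 → ℂ) : M2 := !![x 4, x 5; x 6, x 7]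

lemma gm_poly (a : Fin 7 → ℂ) (i : Fin 7) : IsPoly (fun x : Fin 8 → ℂ => rho (gm x) a i) :=
  IsPoly.rho_entries (IsPoly.coord 0) (IsPoly.coord 1) (IsPoly.coord 2) (IsPoly.coord 3) a i

lemma qA_poly (Q : Matrix (Fin 7) (Fin 7) ℂ) : IsPoly (fun x : Fin 8 → ℂ => qA Q (gm x)) :=
  IsPoly.quad (fun j => gm_poly _ j) Q

lemma qC_poly (Q : Matrix (Fin 7) (Fin 7) ℂ) : IsPoly (fun x : Fin 8 → ℂ => qC Q (gm x)) :=
  IsPoly.quad (fun j => gm_poly _ j) Q

lemma qB_poly (Q : Matrix (Fin 7) (Fin 7) ℂ) : IsPoly (fun x : Fin 8 → ℂ => qB Q (gm x)) :=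
  IsPoly.bil (fun j => gm_poly _ j) (fun j => gm_poly _ j) Q

lemma qD_poly (Q : Matrix (Fin 7) (Fin 7) ℂ) : IsPoly (fun x : Fin 8 → ℂ => qD Q (gm x)) :=
  ((qB_poly Q).pow 2).sub (((IsPoly.const 4).mul (qA_poly Q)).mul (qC_poly Q))

lemma det_entries_poly {p q r s : (σ → ℂ) → ℂ} (hp : IsPoly p) (hq : IsPoly q) (hr : IsPoly r)
    (hs : IsPoly s) : IsPoly (fun x => (!![p x, q x; r x, s x] : M2).det) := by
  have : (fun x => (!![p x, q x; r x, s x] : M2).det) = fun x => p x * s x - q x * r x := by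
    ext x
    rw [Matrix.det_fin_two_of]
  rw [this]
  exact (hp.mul hs).sub (hq.mul hr)

/-- the parametrisation -/
def Psi (Q : Matrix (Fin 7) (Fin 7) ℂ) (x : Fin 8 → ℂ) (w : ℂ) : Fin 8 × Fin 3 → ℂ :=
  sub (rr Q (gm x) w) (km x)

lemma EE_lin (g : M2) (x y : ℂ) (i : Fin 7) :
    rho g (EE x y) i = x * rho g (EE 1 0) i + y * rho g (EE 0 1) i := by
  rw [EE_eq, map_add, map_smul, map_smul]
  rfl

lemma rr_poly2 (Q : Matrix (Fin 7) (Fin 7) ℂ) {F : (Fin 8 → ℂ) → ℂ} (hF : IsPoly F) (i : Fin 8)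
    (k : Fin 3) : IsPoly2 F (fun x w => rr Q (gm x) w (i, k)) := by
  have hX : IsPoly2 F (fun (x : Fin 8 → ℂ) w => (![qC Q (gm x), 0, -1] : Fin 3 → ℂ) k) := by
    fin_cases k
    · exact IsPoly2.of_poly (qC_poly Q)
    · exact IsPoly2.const 0
    · exact IsPoly2.const (-1)
  have hY : IsPoly2 F (fun (x : Fin 8 → ℂ) w => (![-qB Q (gm x), 2 * w, 0] : Fin 3 → ℂ) k) := by
    fin_cases k
    · exact IsPoly2.of_poly (qB_poly Q).neg
    · exact IsPoly2.mul hF (IsPoly2.const 2) IsPoly2.snd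
    · exact IsPoly2.const 0
  have hW : IsPoly2 F
      (fun (x : Fin 8 → ℂ) w => (![w * qC Q (gm x), -qB Q (gm x), w] : Fin 3 → ℂ) k) := by
    fin_cases k
    · exact IsPoly2.mul hF IsPoly2.snd (IsPoly2.of_poly (qC_poly Q))
    · exact IsPoly2.of_poly (qB_poly Q).neg
    · exact IsPoly2.snd
  refine Fin.lastCases ?_ (fun i' => ?_) i
  · have e : (fun (x : Fin 8 → ℂ) w => rr Q (gm x) w (Fin.last 7, k)) =
        fun (x : Fin 8 → ℂ) w => (![w * qC Q (gm x), -qB Q (gm x), w] : Fin 3 → ℂ) k := by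
      ext x w
      have : (Fin.last 7 : Fin 8) = 7 := rfl
      simp only [rr, mkc, this, up_seven]
    rw [e]
    exact hW
  · have e : (fun (x : Fin 8 → ℂ) w => rr Q (gm x) w (i'.castSucc, k)) =
        fun (x : Fin 8 → ℂ) w => (![qC Q (gm x), 0, -1] : Fin 3 → ℂ) k *
          rho (gm x) (EE 1 0) i' + (![-qB Q (gm x), 2 * w, 0] : Fin 3 → ℂ) k *
          rho (gm x) (EE 0 1) i' := by
      ext x w
      simp only [rr, mkc, up, Fin.snoc_castSucc]
      rw [EE_lin]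
    rw [e]
    exact (IsPoly2.mul hF hX (IsPoly2.of_poly (gm_poly _ _))).add
      (IsPoly2.mul hF hY (IsPoly2.of_poly (gm_poly _ _)))

lemma Psi_poly2 (Q : Matrix (Fin 7) (Fin 7) ℂ) {F : (Fin 8 → ℂ) → ℂ} (hF : IsPoly F)
    (j : Fin 8 × Fin 3) : IsPoly2 F (fun x w => Psi Q x w j) := by
  obtain ⟨i, k⟩ := j
  have h0 := rr_poly2 Q hF i 0
  have h1 := rr_poly2 Q hF i 1
  have h2 := rr_poly2 Q hF i 2
  have k4 : IsPoly2 F (fun (x : Fin 8 → ℂ) w => x 4) := IsPoly2.of_poly (IsPoly.coord 4)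
  have k5 : IsPoly2 F (fun (x : Fin 8 → ℂ) w => x 5) := IsPoly2.of_poly (IsPoly.coord 5)
  have k6 : IsPoly2 F (fun (x : Fin 8 → ℂ) w => x 6) := IsPoly2.of_poly (IsPoly.coord 6)
  have k7 : IsPoly2 F (fun (x : Fin 8 → ℂ) w => x 7) := IsPoly2.of_poly (IsPoly.coord 7)
  fin_cases k
  · have e : (fun (x : Fin 8 → ℂ) w => Psi Q x w (i, 0)) = fun x w =>
        rr Q (gm x) w (i, 0) * (x 4 * x 4) + rr Q (gm x) w (i, 1) * (x 4 * x 6) +
        rr Q (gm x) w (i, 2) * (x 6 * x 6) := by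
      ext x w
      simp [Psi, sub, km]
      ring
    show IsPoly2 F (fun (x : Fin 8 → ℂ) w => Psi Q x w (i, 0))
    rw [e]
    exact ((IsPoly2.mul hF h0 (IsPoly2.mul hF k4 k4)).add
      (IsPoly2.mul hF h1 (IsPoly2.mul hF k4 k6))).add (IsPoly2.mul hF h2 (IsPoly2.mul hF k6 k6))
  · have e : (fun (x : Fin 8 → ℂ) w => Psi Q x w (i, 1)) = fun x w =>
        2 * rr Q (gm x) w (i, 0) * (x 4 * x 5) + rr Q (gm x) w (i, 1) * (x 4 * x 7 + x 5 * x 6) +
        2 * rr Q (gm x) w (i, 2) * (x 6 * x 7) := by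
      ext x w
      simp [Psi, sub, km]
    show IsPoly2 F (fun (x : Fin 8 → ℂ) w => Psi Q x w (i, 1))
    rw [e]
    exact ((IsPoly2.mul hF (IsPoly2.mul hF (IsPoly2.const 2) h0) (IsPoly2.mul hF k4 k5)).add
      (IsPoly2.mul hF h1 ((IsPoly2.mul hF k4 k7).add (IsPoly2.mul hF k5 k6)))).add
      (IsPoly2.mul hF (IsPoly2.mul hF (IsPoly2.const 2) h2) (IsPoly2.mul hF k6 k7))
  · have e : (fun (x : Fin 8 → ℂ) w => Psi Q x w (i, 2)) = fun x w =>
        rr Q (gm x) w (i, 0) * (x 5 * x 5) + rr Q (gm x) w (i, 1) * (x 5 * x 7) +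
        rr Q (gm x) w (i, 2) * (x 7 * x 7) := by
      ext x w
      simp [Psi, sub, km]
      ring
    show IsPoly2 F (fun (x : Fin 8 → ℂ) w => Psi Q x w (i, 2))
    rw [e]
    exact ((IsPoly2.mul hF h0 (IsPoly2.mul hF k5 k5)).add
      (IsPoly2.mul hF h1 (IsPoly2.mul hF k5 k7))).add (IsPoly2.mul hF h2 (IsPoly2.mul hF k7 k7))

/-- conics lying over the lines in the orbit of the standard line -/
def Zgen (Q : Matrix (Fin 7) (Fin 7) ℂ) : Set (Fin 8 × Fin 3 → ℂ) :=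
  {c | c ∈ conics (zeros (eqX Q)) ∧ ∃ g : M2, g.det ≠ 0 ∧ ∃ X Y W, c = mkc g X Y W}

lemma gm_eq (g κ : M2) : gm ![g 0 0, g 0 1, g 1 0, g 1 1, κ 0 0, κ 0 1, κ 1 0, κ 1 1] = g := by
  ext i j
  fin_cases i <;> fin_cases j <;> simp [gm]

lemma km_eq (g κ : M2) : km ![g 0 0, g 0 1, g 1 0, g 1 1, κ 0 0, κ 0 1, κ 1 0, κ 1 1] = κ := by
  ext i j
  fin_cases i <;> fin_cases j <;> simp [km]

/-- The family is irreducible. -/
theorem Zgen_irr {Q : Matrix (Fin 7) (Fin 7) ℂ}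
    (hQ : bil Q e0 e1 ^ 2 ≠ 4 * quad Q e0 * quad Q e1) (hD : qD Q 1 ≠ 0) :
    @IsIrreducible _ (zariski (Fin 8 × Fin 3)) (Zgen Q) := by
  obtain ⟨F, hF⟩ := qA_poly Q
  have hdet : IsPoly (fun x : Fin 8 → ℂ => (gm x).det * (km x).det * qD Q (gm x)) :=
    ((det_entries_poly (IsPoly.coord 0) (IsPoly.coord 1) (IsPoly.coord 2) (IsPoly.coord 3)).mul
    (det_entries_poly (IsPoly.coord 4) (IsPoly.coord 5) (IsPoly.coord 6) (IsPoly.coord 7))).mul
    (qD_poly Q)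
  obtain ⟨h, hh⟩ := hdet
  simp only at hF hh
  have hset : Zgen Q = {y | ∃ x w, w ^ 2 = eval x F ∧ eval x h ≠ 0 ∧ Psi Q x w = y} := by
    ext c
    constructor
    · rintro ⟨hc, g, hg, X, Y, W, rfl⟩
      obtain ⟨w0, κ, hw, hκ, hD, he⟩ := exists_param hg hc
      refine ⟨![g 0 0, g 0 1, g 1 0, g 1 1, κ 0 0, κ 0 1, κ 1 0, κ 1 1], w0, ?_, ?_, ?_⟩
      · rw [hF, gm_eq, hw]
      · rw [hh, gm_eq, km_eq]
        exact mul_ne_zero (mul_ne_zero hg hκ) hD
      · rw [Psi, gm_eq, km_eq, ← he]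
    · rintro ⟨x, w, hw, hx, rfl⟩
      rw [hh] at hx
      rw [hF] at hw
      have h1 : (gm x).det ≠ 0 := left_ne_zero_of_mul (left_ne_zero_of_mul hx)
      have h2 : (km x).det ≠ 0 := right_ne_zero_of_mul (left_ne_zero_of_mul hx)
      have h3 : qD Q (gm x) ≠ 0 := right_ne_zero_of_mul hx
      refine ⟨conics_sub (rr_mem h1 h3 hw) h2, gm x, h1, ?_⟩
      rw [Psi, rr, sub_mkc]
      exact ⟨_, _, _, rfl⟩
  rw [hset]
  apply irr_image _ _ (fun j => Psi_poly2 Q ⟨F, fun _ => rfl⟩ j)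
  · apply not_square_of_line (γ := ![1, Polynomial.X, 0, 1, 0, 0, 0, 0])
      (A := quad Q e1) (B := 6 * bil Q e0 e1) (C := 36 * quad Q e0)
    · intro h
      apply hQ
      linear_combination (1 / 36 : ℂ) * h
    · intro s
      rw [hF]
      have e : gm (fun i => Polynomial.eval s
          ((![1, Polynomial.X, 0, 1, 0, 0, 0, 0] : Fin 8 → Polynomial ℂ) i)) = uu s := by
        ext i j
        fin_cases i <;> fin_cases j <;> simp [gm, uu]
      rw [e, qA]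
      have e' : EE 1 0 = e1 := rfl
      rw [e', rho_uu_e1]
      have := quad_comb Q 1 (6 * s) e1 e0
      rw [one_smul] at this
      rw [this, bil_comm Q e1 e0]
      ring
  · intro h0
    have := hh ![1, 0, 0, 1, 1, 0, 0, 1]
    rw [h0, map_zero] at this
    have e1 : gm ![1, 0, 0, 1, 1, 0, 0, 1] = 1 := by
      ext i j
      fin_cases i <;> fin_cases j <;> simp [gm]
    have e2 : km ![1, 0, 0, 1, 1, 0, 0, 1] = 1 := by
      ext i j
      fin_cases i <;> fin_cases j <;> simp [km]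
    rw [e1, e2, Matrix.det_one, one_mul, one_mul] at this
    exact hD this.symm

end Pool.Agent.Lib.MP_6e94a1_ag
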