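import Pool.Agent.Lib.MP_6e94a1_ag.CovCover
import Pool.Agent.Lib.MP_6e94a1_ag.CovIdent
import Pool.Agent.Lib.MP_6e94a1_ag.CovGen

/-!
# The counterexample
-/

open scoped LinearAlgebra.Projectivization Topology
open MvPolynomial Set Filter

set_option linter.all false

namespace Pool.Agent.Lib.MP_6e94a1_ag

/-- the automorphism of `V₅` -/
def tt : M2 := !![2, 0; 0, 1]

lemma tt_det : tt.det ≠ 0 := by
  rw [tt, Matrix.det_fin_two_of]
  norm_num

lemma rho_tt (a : Fin 7 → ℂ) : rho tt a = ![64 * a 0, 32 * a 1, 16 * a 2, 8 * a 3, 4 * a 4,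
    2 * a 5, a 6] := by
  ext i
  fin_cases i <;> simp [rho, rhoAux, tt] <;> norm_num

/-- another line -/
def gs : M2 := !![1, 1; 1, -1]

lemma gs_det : gs.det ≠ 0 := by
  rw [gs, Matrix.det_fin_two_of]
  norm_num

/-- All the genericity conditions on the branch divisor. -/
structure GenQ (Q : Matrix (Fin 7) (Fin 7) ℂ) : Prop where
  smooth : GoodQ Q
  hQ : bil Q e0 e1 ^ 2 ≠ 4 * quad Q e0 * quad Q e1
  hA : qA Q 1 ≠ 0
  hC : qC Q 1 ≠ 0
  hD : qD Q 1 ≠ 0
  h1 : quad Q f0 ≠ 0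
  h2 : quad Q (rho tt f0) ≠ 0
  h3 : ∀ i, DD Q (rho tt f0) (rho tt (tau (K i))) ≠ 0
  h4 : qD Q gs ≠ 0
  h5 : trD Q f0 ≠ 0

/-! ### existence -/

lemma continuous_quad (a : Fin 7 → ℂ) :
    Continuous (fun e : Fin 7 × Fin 7 → ℂ => quad (mt e) a) := by
  simp only [quad, mt]
  fun_prop

lemma continuous_bil (a b : Fin 7 → ℂ) :
    Continuous (fun e : Fin 7 × Fin 7 → ℂ => bil (mt e) a b) := by
  simp only [bil, mt]
  fun_prop

lemma continuous_DD (a b : Fin 7 → ℂ) :
    Continuous (fun e : Fin 7 × Fin 7 → ℂ => DD (mt e) a b) :=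
  ((continuous_bil a b).pow 2).sub ((continuous_const.mul (continuous_quad a)).mul
    (continuous_quad b))

lemma continuous_trD (a : Fin 7 → ℂ) :
    Continuous (fun e : Fin 7 × Fin 7 → ℂ => trD (mt e) a) :=
  (((continuous_bil _ _).pow 2).sub ((continuous_const.mul (continuous_quad _)).mul
    (continuous_quad _))).add (continuous_const.mul (((continuous_const.mul
    (continuous_bil _ _)).mul (continuous_bil _ _)).sub ((continuous_const.mul
    (continuous_quad _)).mul (continuous_bil _ _))))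

/-- the entries of the identity matrix -/
def eI : Fin 7 × Fin 7 → ℂ := fun p => if p.1 = p.2 then 1 else 0

lemma quad_eI (a : Fin 7 → ℂ) : quad (mt eI) a = ∑ i, a i ^ 2 := by
  simp only [quad, mt, eI]
  refine Finset.sum_congr rfl fun i _ => ?_
  rw [Finset.sum_eq_single i]
  · simp
    ring
  · intro j _ hj
    simp [Ne.symm hj]
  · simp

lemma bil_eI (a b : Fin 7 → ℂ) : bil (mt eI) a b = 2 * ∑ i, a i * b i := by
  simp only [bil, mt, eI]
  rw [Finset.mul_sum]
  refine Finset.sum_congr rfl fun i _ => ?_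
  rw [Finset.sum_eq_single i]
  · simp
    ring
  · intro j _ hj
    simp [Ne.symm hj]
  · simp

theorem exists_genQ : ∃ Q, GenQ Q := by
  have ev : ∀ {f : (Fin 7 × Fin 7 → ℂ) → ℂ}, Continuous f → f eI ≠ 0 → ∀ᶠ e in 𝓝 eI, f e ≠ 0 :=
    fun hf h => hf.continuousAt.eventually_ne h
  have c1 := ev (continuous_DD e0 e1) (by
    rw [DD, bil_eI, quad_eI, quad_eI]
    simp [e0, e1, Fin.sum_univ_succ])
  have c2 := ev (continuous_quad (rho 1 (EE 1 0))) (by
    rw [quad_eI, rho_one]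
    simp [EE, Fin.sum_univ_succ])
  have c3 := ev (continuous_quad (rho 1 (EE 0 1))) (by
    rw [quad_eI, rho_one]
    simp [EE, Fin.sum_univ_succ])
  have c4 := ev (continuous_DD (rho 1 (EE 1 0)) (rho 1 (EE 0 1))) (by
    rw [DD, bil_eI, quad_eI, quad_eI, rho_one, rho_one]
    simp [EE, Fin.sum_univ_succ])
  have c5 := ev (continuous_quad f0) (by
    rw [quad_eI]
    simp [f0, Fin.sum_univ_succ])
  have c6 := ev (continuous_quad (rho tt f0)) (by
    rw [quad_eI, rho_tt]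
    simp [f0, Fin.sum_univ_succ]
    norm_num)
  have c7 : ∀ i, ∀ᶠ e in 𝓝 eI, DD (mt e) (rho tt f0) (rho tt (tau (K i))) ≠ 0 := by
    intro i
    apply ev (continuous_DD _ _)
    rw [DD, bil_eI, quad_eI, quad_eI, rho_tt, rho_tt]
    have hI := Complex.I_sq
    fin_cases i
    · simp [f0, tau, K, Fin.sum_univ_succ]
      norm_num
    · simp [f0, tau, K, Fin.sum_univ_succ]
      norm_num
    · simp [f0, tau, K, Fin.sum_univ_succ]
      ring_nf
      rw [hI]
      norm_num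
  have c8 := ev (continuous_DD (rho gs (EE 1 0)) (rho gs (EE 0 1))) (by
    rw [DD, bil_eI, quad_eI, quad_eI]
    simp [EE, gs, rho, rhoAux, Fin.sum_univ_succ]
    norm_num)
  have c9 := ev (continuous_trD f0) (by
    rw [trD, bil_eI, bil_eI, bil_eI, bil_eI, quad_eI, quad_eI]
    simp [f0, dH, dE, dF, dr, Fin.sum_univ_succ]
    norm_num)
  have hall := c1.and (c2.and (c3.and (c4.and (c5.and (c6.and ((eventually_all.2 c7).and
    (c8.and c9)))))))
  obtain ⟨O, hO1, hO2, hO3⟩ := eventually_nhds_iff.1 hall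
  obtain ⟨e, heO, he⟩ := dense_good.inter_open_nonempty O hO2 ⟨eI, hO3⟩
  obtain ⟨d1, d2, d3, d4, d5, d6, d7, d8, d9⟩ := hO1 e heO
  exact ⟨mt e, he, fun h => d1 (by rw [DD, h]; ring), d2, d3, d4, d5, d6, d7, d8, d9⟩

/-! ### the base point -/

/-- base point in the chart -/
noncomputable def zb : Fin 3 → ℂ := kz (rho (uu 2) f0)

lemma rho_uu2_f0_zero : rho (uu 2) f0 0 = -180 := by
  simp [rho, rhoAux, uu, f0]
  norm_num

lemma ch_zb : ch zb = (-1 / 180 : ℂ) • rho (uu 2) f0 := by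
  have h := eq_smul_ch (cone_f0.rho (uu 2)) (by rw [rho_uu2_f0_zero]; norm_num)
  rw [rho_uu2_f0_zero] at h
  rw [h, smul_smul, zb]
  norm_num

lemma h1_zb : rho (uu (-2)) (ch zb) = (-1 / 180 : ℂ) • f0 := by
  rw [ch_zb, map_smul, uu_inv]

lemma h2_zb : rho (tt * uu (-2)) (ch zb) = (-1 / 180 : ℂ) • rho tt f0 := by
  rw [rho_mul, h1_zb, map_smul]

lemma h2_det : (tt * uu (-2)).det ≠ 0 := by
  rw [Matrix.det_mul]
  exact mul_ne_zero tt_det (uu_det _)

/-- a root on the standard line which is moved off the branch divisor -/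
lemma exists_b {Q : Matrix (Fin 7) (Fin 7) ℂ} (hQ : GenQ Q) :
    ∃ b : Fin 7 → ℂ, b ≠ 0 ∧ Cone b ∧ quad Q b = 0 ∧ quad Q (rho tt b) ≠ 0 := by
  have hA := hQ.hA
  have hC := hQ.hC
  have e1' : ∀ x y, quad Q (EE x y) = qA Q 1 * x ^ 2 + qB Q 1 * (x * y) + qC Q 1 * y ^ 2 := by
    intro x y
    have := quad_EE Q 1 x y
    rwa [rho_one] at this
  have e2 : ∀ x, rho tt (EE x 1) = EE (32 * x) 2 := by
    intro x
    rw [rho_tt]
    ext i
    fin_cases i <;> simp [EE]
  obtain ⟨δ, hδ⟩ := IsAlgClosed.exists_pow_nat_eq (qB Q 1 ^ 2 - 4 * qA Q 1 * qC Q 1) (n := 2)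
    (by norm_num)
  by_contra hcon
  push Not at hcon
  have key : ∀ x, qA Q 1 * x ^ 2 + qB Q 1 * x + qC Q 1 = 0 → 17 * qA Q 1 * x + qB Q 1 = 0 := by
    intro x hx
    have h1 := hcon (EE x 1) (by
      intro h
      have := congrFun h 5
      simp [EE] at this) (cone_EE _ _) (by rw [e1']; linear_combination hx)
    rw [e2, e1'] at h1
    have h2 : x * (17 * qA Q 1 * x + qB Q 1) = 0 := by
      linear_combination (1 / 60 : ℂ) * h1 - (1 / 15 : ℂ) * hx
    rcases mul_eq_zero.1 h2 with h | h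
    · exfalso
      apply hC
      rw [h] at hx
      linear_combination hx
    · exact h
  have k1 := key ((-qB Q 1 + δ) / (2 * qA Q 1)) (by
    field_simp
    linear_combination hδ)
  have k2 := key ((-qB Q 1 - δ) / (2 * qA Q 1)) (by
    field_simp
    linear_combination hδ)
  field_simp at k1 k2
  have hδ0 : δ = 0 := by linear_combination (1 / 34 : ℂ) * k1 - (1 / 34 : ℂ) * k2
  have hB0 : qB Q 1 = 0 := by
    linear_combination (-1 / 30 : ℂ) * k1 - (1 / 30 : ℂ) * k2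
  rw [hδ0, hB0] at hδ
  have : qA Q 1 * qC Q 1 = 0 := by linear_combination (1 / 4 : ℂ) * hδ
  rcases mul_eq_zero.1 this with h | h
  · exact hA h
  · exact hC h

/-! ### openness of the good lines -/

/-- the bad pairs -/
def Bad (Q : Matrix (Fin 7) (Fin 7) ℂ) (a n : Fin 7 → ℂ) : Prop :=
  pv a n = 0 ∧ qv n = 0 ∧ DD Q a n = 0 ∧ ∑ i, (starRingEnd ℂ) (a i) * n i = 0

lemma not_bad_zb {Q : Matrix (Fin 7) (Fin 7) ℂ} (hQ : GenQ Q) {n : Fin 7 → ℂ}
    (hn : ‖n‖ = 1) : ¬ Bad Q (rho (tt * uu (-2)) (ch zb)) n := by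
  rintro ⟨h1, h2, h3, h4⟩
  rw [h2_zb] at h1 h3 h4
  set c : ℂ := -1 / 180 with hc
  have hc0 : c ≠ 0 := by rw [hc]; norm_num
  have h1' : pv (rho tt f0) n = 0 := by
    rw [pv_smul_left] at h1
    exact (smul_eq_zero.1 h1).resolve_left hc0
  have hcone : ∀ s : ℂ, Cone (f0 + s • rho tt⁻¹ n) := by
    intro s
    have h5 : Cone (rho tt f0 + s • n) := by
      rw [cone_iff]
      have := qv_comb 1 s (rho tt f0) n
      rw [one_smul] at this
      rw [this, h1', h2, (cone_iff _).1 (cone_f0.rho tt)]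
      simp
    have h6 := h5.rho tt⁻¹
    rw [map_add, map_smul, rho_inv_rho tt_det] at h6
    exact h6
  obtain ⟨i, α, γ, he⟩ := lines_at_f0 hcone
  have hn' : n = α • rho tt f0 + γ • rho tt (tau (K i)) := by
    rw [← map_smul, ← map_smul, ← map_add, ← he, rho_rho_inv tt_det]
  have h5 : DD Q (c • rho tt f0) n = (c * γ) ^ 2 * DD Q (rho tt f0) (rho tt (tau (K i))) := by
    have := DD_comb Q c 0 α γ (rho tt f0) (rho tt (tau (K i)))
    rw [zero_smul, add_zero, ← hn'] at this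
    rw [this]
    ring
  rw [h5] at h3
  have hγ : γ = 0 := by
    rcases mul_eq_zero.1 h3 with h | h
    · exact (mul_eq_zero.1 (pow_eq_zero_iff (two_ne_zero) |>.1 h)).resolve_left hc0
    · exact absurd h (hQ.h3 i)
  rw [hγ, zero_smul, add_zero] at hn'
  rw [hn', rho_tt] at h4
  simp [f0, Fin.sum_univ_succ] at h4
  have hα : α = 0 := by
    have h6 : (starRingEnd ℂ) c = c := by
      rw [hc, map_div₀, map_neg, map_one, map_ofNat]
    rw [h6, map_ofNat, map_ofNat] at h4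
    have h7 : c * α = 0 := by linear_combination (1 / 1028 : ℂ) * h4
    exact (mul_eq_zero.1 h7).resolve_left hc0
  rw [hn', hα, zero_smul] at hn
  simp at hn

end Pool.Agent.Lib.MP_6e94a1_ag
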