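import Pool.Agent.Lib.MP_6e94a1_ag.CovEta

/-!
# The canonical bundle of the double cover
-/

open scoped LinearAlgebra.Projectivization
open MvPolynomial Set

set_option linter.all false

namespace Pool.Agent.Lib.MP_6e94a1_ag

lemma minors_all (v : Fin 8 → ℂ)
    (h0 : v 0 * v 4 - 4 * v 1 * v 3 + 3 * v 2 ^ 2 = 0)
    (h1 : v 0 * v 5 - 3 * v 1 * v 4 + 2 * v 2 * v 3 = 0)
    (h2 : v 0 * v 6 - 9 * v 2 * v 4 + 8 * v 3 ^ 2 = 0)
    (h3 : v 1 * v 6 - 3 * v 2 * v 5 + 2 * v 3 * v 4 = 0)
    (h4 : v 2 * v 6 - 4 * v 3 * v 5 + 3 * v 4 ^ 2 = 0) :
    ∀ i j k : Fin 8, i < j → j < k →
    D3 v 0 1 2 i j k = (v 0) * eval v (etaP i j k) ∧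
    D3 v 4 3 2 i j k = (-v 6) * eval v (etaP i j k) ∧
    D3 v 0 1 3 i j k = (v 1) * eval v (etaP i j k) ∧
    D3 v 4 3 1 i j k = (-v 5) * eval v (etaP i j k) := by
  have z : ∀ i j : Fin 8,
      D3 v 0 1 2 i j 7 = (v 0) * 0 ∧ D3 v 4 3 2 i j 7 = (-v 6) * 0 ∧
      D3 v 0 1 3 i j 7 = (v 1) * 0 ∧ D3 v 4 3 1 i j 7 = (-v 5) * 0 := by
    intro i j
    have g : ∀ a : Fin 5, gr v a 7 = 0 := by
      intro a
      fin_cases a <;> rfl
    simp only [D3, g]
    refine ⟨?_, ?_, ?_, ?_⟩ <;> ring
  intro i j k hij hjk
  fin_cases i
  · fin_cases j
    · exact absurd hij (by decide)
    · fin_cases k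
      · exact absurd hjk (by decide)
      · exact absurd hjk (by decide)
      · exact mi_012 v h0 h1 h2 h3 h4
      · exact mi_013 v h0 h1 h2 h3 h4
      · exact mi_014 v h0 h1 h2 h3 h4
      · exact mi_015 v h0 h1 h2 h3 h4
      · exact mi_016 v h0 h1 h2 h3 h4
      · have hz := z 0 1
        rw [show (0 : ℂ) = eval v (etaP 0 1 7) from (map_zero (eval v)).symm] at hz
        exact hz
    · fin_cases k
      · exact absurd hjk (by decide)
      · exact absurd hjk (by decide)
      · exact absurd hjk (by decide)
      · exact mi_023 v h0 h1 h2 h3 h4
      · exact mi_024 v h0 h1 h2 h3 h4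
      · exact mi_025 v h0 h1 h2 h3 h4
      · exact mi_026 v h0 h1 h2 h3 h4
      · have hz := z 0 2
        rw [show (0 : ℂ) = eval v (etaP 0 2 7) from (map_zero (eval v)).symm] at hz
        exact hz
    · fin_cases k
      · exact absurd hjk (by decide)
      · exact absurd hjk (by decide)
      · exact absurd hjk (by decide)
      · exact absurd hjk (by decide)
      · exact mi_034 v h0 h1 h2 h3 h4
      · exact mi_035 v h0 h1 h2 h3 h4
      · exact mi_036 v h0 h1 h2 h3 h4
      · have hz := z 0 3
        rw [show (0 : ℂ) = eval v (etaP 0 3 7) from (map_zero (eval v)).symm] at hz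
        exact hz
    · fin_cases k
      · exact absurd hjk (by decide)
      · exact absurd hjk (by decide)
      · exact absurd hjk (by decide)
      · exact absurd hjk (by decide)
      · exact absurd hjk (by decide)
      · exact mi_045 v h0 h1 h2 h3 h4
      · exact mi_046 v h0 h1 h2 h3 h4
      · have hz := z 0 4
        rw [show (0 : ℂ) = eval v (etaP 0 4 7) from (map_zero (eval v)).symm] at hz
        exact hz
    · fin_cases k
      · exact absurd hjk (by decide)
      · exact absurd hjk (by decide)
      · exact absurd hjk (by decide)
      · exact absurd hjk (by decide)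
      · exact absurd hjk (by decide)
      · exact absurd hjk (by decide)
      · exact mi_056 v h0 h1 h2 h3 h4
      · have hz := z 0 5
        rw [show (0 : ℂ) = eval v (etaP 0 5 7) from (map_zero (eval v)).symm] at hz
        exact hz
    · fin_cases k
      · exact absurd hjk (by decide)
      · exact absurd hjk (by decide)
      · exact absurd hjk (by decide)
      · exact absurd hjk (by decide)
      · exact absurd hjk (by decide)
      · exact absurd hjk (by decide)
      · exact absurd hjk (by decide)
      · have hz := z 0 6
        rw [show (0 : ℂ) = eval v (etaP 0 6 7) from (map_zero (eval v)).symm] at hz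
        exact hz
    · exact absurd hjk (by fin_cases k <;> decide)
  · fin_cases j
    · exact absurd hij (by decide)
    · exact absurd hij (by decide)
    · fin_cases k
      · exact absurd hjk (by decide)
      · exact absurd hjk (by decide)
      · exact absurd hjk (by decide)
      · exact mi_123 v h0 h1 h2 h3 h4
      · exact mi_124 v h0 h1 h2 h3 h4
      · exact mi_125 v h0 h1 h2 h3 h4
      · exact mi_126 v h0 h1 h2 h3 h4
      · have hz := z 1 2
        rw [show (0 : ℂ) = eval v (etaP 1 2 7) from (map_zero (eval v)).symm] at hz
        exact hz
    · fin_cases k
      · exact absurd hjk (by decide)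
      · exact absurd hjk (by decide)
      · exact absurd hjk (by decide)
      · exact absurd hjk (by decide)
      · exact mi_134 v h0 h1 h2 h3 h4
      · exact mi_135 v h0 h1 h2 h3 h4
      · exact mi_136 v h0 h1 h2 h3 h4
      · have hz := z 1 3
        rw [show (0 : ℂ) = eval v (etaP 1 3 7) from (map_zero (eval v)).symm] at hz
        exact hz
    · fin_cases k
      · exact absurd hjk (by decide)
      · exact absurd hjk (by decide)
      · exact absurd hjk (by decide)
      · exact absurd hjk (by decide)
      · exact absurd hjk (by decide)
      · exact mi_145 v h0 h1 h2 h3 h4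
      · exact mi_146 v h0 h1 h2 h3 h4
      · have hz := z 1 4
        rw [show (0 : ℂ) = eval v (etaP 1 4 7) from (map_zero (eval v)).symm] at hz
        exact hz
    · fin_cases k
      · exact absurd hjk (by decide)
      · exact absurd hjk (by decide)
      · exact absurd hjk (by decide)
      · exact absurd hjk (by decide)
      · exact absurd hjk (by decide)
      · exact absurd hjk (by decide)
      · exact mi_156 v h0 h1 h2 h3 h4
      · have hz := z 1 5
        rw [show (0 : ℂ) = eval v (etaP 1 5 7) from (map_zero (eval v)).symm] at hz
        exact hz
    · fin_cases k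
      · exact absurd hjk (by decide)
      · exact absurd hjk (by decide)
      · exact absurd hjk (by decide)
      · exact absurd hjk (by decide)
      · exact absurd hjk (by decide)
      · exact absurd hjk (by decide)
      · exact absurd hjk (by decide)
      · have hz := z 1 6
        rw [show (0 : ℂ) = eval v (etaP 1 6 7) from (map_zero (eval v)).symm] at hz
        exact hz
    · exact absurd hjk (by fin_cases k <;> decide)
  · fin_cases j
    · exact absurd hij (by decide)
    · exact absurd hij (by decide)
    · exact absurd hij (by decide)
    · fin_cases k
      · exact absurd hjk (by decide)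
      · exact absurd hjk (by decide)
      · exact absurd hjk (by decide)
      · exact absurd hjk (by decide)
      · exact mi_234 v h0 h1 h2 h3 h4
      · exact mi_235 v h0 h1 h2 h3 h4
      · exact mi_236 v h0 h1 h2 h3 h4
      · have hz := z 2 3
        rw [show (0 : ℂ) = eval v (etaP 2 3 7) from (map_zero (eval v)).symm] at hz
        exact hz
    · fin_cases k
      · exact absurd hjk (by decide)
      · exact absurd hjk (by decide)
      · exact absurd hjk (by decide)
      · exact absurd hjk (by decide)
      · exact absurd hjk (by decide)
      · exact mi_245 v h0 h1 h2 h3 h4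
      · exact mi_246 v h0 h1 h2 h3 h4
      · have hz := z 2 4
        rw [show (0 : ℂ) = eval v (etaP 2 4 7) from (map_zero (eval v)).symm] at hz
        exact hz
    · fin_cases k
      · exact absurd hjk (by decide)
      · exact absurd hjk (by decide)
      · exact absurd hjk (by decide)
      · exact absurd hjk (by decide)
      · exact absurd hjk (by decide)
      · exact absurd hjk (by decide)
      · exact mi_256 v h0 h1 h2 h3 h4
      · have hz := z 2 5
        rw [show (0 : ℂ) = eval v (etaP 2 5 7) from (map_zero (eval v)).symm] at hz
        exact hz
    · fin_cases k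
      · exact absurd hjk (by decide)
      · exact absurd hjk (by decide)
      · exact absurd hjk (by decide)
      · exact absurd hjk (by decide)
      · exact absurd hjk (by decide)
      · exact absurd hjk (by decide)
      · exact absurd hjk (by decide)
      · have hz := z 2 6
        rw [show (0 : ℂ) = eval v (etaP 2 6 7) from (map_zero (eval v)).symm] at hz
        exact hz
    · exact absurd hjk (by fin_cases k <;> decide)
  · fin_cases j
    · exact absurd hij (by decide)
    · exact absurd hij (by decide)
    · exact absurd hij (by decide)
    · exact absurd hij (by decide)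
    · fin_cases k
      · exact absurd hjk (by decide)
      · exact absurd hjk (by decide)
      · exact absurd hjk (by decide)
      · exact absurd hjk (by decide)
      · exact absurd hjk (by decide)
      · exact mi_345 v h0 h1 h2 h3 h4
      · exact mi_346 v h0 h1 h2 h3 h4
      · have hz := z 3 4
        rw [show (0 : ℂ) = eval v (etaP 3 4 7) from (map_zero (eval v)).symm] at hz
        exact hz
    · fin_cases k
      · exact absurd hjk (by decide)
      · exact absurd hjk (by decide)
      · exact absurd hjk (by decide)
      · exact absurd hjk (by decide)
      · exact absurd hjk (by decide)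
      · exact absurd hjk (by decide)
      · exact mi_356 v h0 h1 h2 h3 h4
      · have hz := z 3 5
        rw [show (0 : ℂ) = eval v (etaP 3 5 7) from (map_zero (eval v)).symm] at hz
        exact hz
    · fin_cases k
      · exact absurd hjk (by decide)
      · exact absurd hjk (by decide)
      · exact absurd hjk (by decide)
      · exact absurd hjk (by decide)
      · exact absurd hjk (by decide)
      · exact absurd hjk (by decide)
      · exact absurd hjk (by decide)
      · have hz := z 3 6
        rw [show (0 : ℂ) = eval v (etaP 3 6 7) from (map_zero (eval v)).symm] at hz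
        exact hz
    · exact absurd hjk (by fin_cases k <;> decide)
  · fin_cases j
    · exact absurd hij (by decide)
    · exact absurd hij (by decide)
    · exact absurd hij (by decide)
    · exact absurd hij (by decide)
    · exact absurd hij (by decide)
    · fin_cases k
      · exact absurd hjk (by decide)
      · exact absurd hjk (by decide)
      · exact absurd hjk (by decide)
      · exact absurd hjk (by decide)
      · exact absurd hjk (by decide)
      · exact absurd hjk (by decide)
      · exact mi_456 v h0 h1 h2 h3 h4
      · have hz := z 4 5
        rw [show (0 : ℂ) = eval v (etaP 4 5 7) from (map_zero (eval v)).symm] at hz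
        exact hz
    · fin_cases k
      · exact absurd hjk (by decide)
      · exact absurd hjk (by decide)
      · exact absurd hjk (by decide)
      · exact absurd hjk (by decide)
      · exact absurd hjk (by decide)
      · exact absurd hjk (by decide)
      · exact absurd hjk (by decide)
      · have hz := z 4 6
        rw [show (0 : ℂ) = eval v (etaP 4 6 7) from (map_zero (eval v)).symm] at hz
        exact hz
    · exact absurd hjk (by fin_cases k <;> decide)
  · fin_cases j
    · exact absurd hij (by decide)
    · exact absurd hij (by decide)
    · exact absurd hij (by decide)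
    · exact absurd hij (by decide)
    · exact absurd hij (by decide)
    · exact absurd hij (by decide)
    · fin_cases k
      · exact absurd hjk (by decide)
      · exact absurd hjk (by decide)
      · exact absurd hjk (by decide)
      · exact absurd hjk (by decide)
      · exact absurd hjk (by decide)
      · exact absurd hjk (by decide)
      · exact absurd hjk (by decide)
      · have hz := z 5 6
        rw [show (0 : ℂ) = eval v (etaP 5 6 7) from (map_zero (eval v)).symm] at hz
        exact hz
    · exact absurd hjk (by fin_cases k <;> decide)
  · exact absurd (lt_trans hij hjk) (by revert hij hjk; fin_cases j <;> fin_cases k <;> decide)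
  · exact absurd hij (by fin_cases j <;> decide)

end Pool.Agent.Lib.MP_6e94a1_ag
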