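import Mathlib

/-!
# Complex projective space: topology, holomorphic maps, lines (definitions)
-/

open scoped LinearAlgebra.Projectivization Topology
open Projectivization Filter Set

namespace Pool.Agent.Lib.MP_6e94a1_ag

/-- The classical (Euclidean) topology of the complex projective space of lines in `ℂ^n`:
the quotient topology from `ℂ^n` minus the origin. -/
@[reducible] noncomputable def projTopology (n : ℕ) : TopologicalSpace (ℙ ℂ (Fin n → ℂ)) :=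
  TopologicalSpace.coinduced
    (fun v : {v : Fin n → ℂ // v ≠ 0} => Projectivization.mk ℂ v.1 v.2) inferInstance

/-- `U` is an open subset of the subspace `X` of projective space (classical topology). -/
def IsOpenIn {n : ℕ} (X U : Set (ℙ ℂ (Fin n → ℂ))) : Prop :=
  ∃ O : Set (ℙ ℂ (Fin n → ℂ)), IsOpen[projTopology n] O ∧ U = O ∩ X

/-- Connectedness (including non-emptiness) in the classical topology. -/
def IsConn {n : ℕ} (U : Set (ℙ ℂ (Fin n → ℂ))) : Prop :=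
  @IsConnected _ (projTopology n) U

/-- `φ` is holomorphic on the subset `U` of projective space: near every point of `U` it is
given in homogeneous coordinates by a tuple `F` of analytic functions. -/
def IsHolomorphicOn {n m : ℕ} (φ : ℙ ℂ (Fin n → ℂ) → ℙ ℂ (Fin m → ℂ))
    (U : Set (ℙ ℂ (Fin n → ℂ))) : Prop :=
  ∀ (v : Fin n → ℂ) (hv : v ≠ 0), Projectivization.mk ℂ v hv ∈ U →
    ∃ F : (Fin n → ℂ) → (Fin m → ℂ), AnalyticAt ℂ F v ∧
      ∀ᶠ w in 𝓝 v, ∀ hw : w ≠ 0, Projectivization.mk ℂ w hw ∈ U →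
        ∃ hF : F w ≠ 0, φ (Projectivization.mk ℂ w hw) = Projectivization.mk ℂ (F w) hF

/-- `C` is a (projective) line. -/
def IsLine {n : ℕ} (C : Set (ℙ ℂ (Fin n → ℂ))) : Prop :=
  ∃ W : Submodule ℂ (Fin n → ℂ), Module.finrank ℂ W = 2 ∧
    C = {p | p.submodule ≤ W}

/-- `φ` maps `U₁` biholomorphically onto `U₂`. -/
def IsBiholomorphic {n m : ℕ} (φ : ℙ ℂ (Fin n → ℂ) → ℙ ℂ (Fin m → ℂ))
    (U₁ : Set (ℙ ℂ (Fin n → ℂ))) (U₂ : Set (ℙ ℂ (Fin m → ℂ))) : Prop :=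
  MapsTo φ U₁ U₂ ∧ IsHolomorphicOn φ U₁ ∧
    ∃ ψ : ℙ ℂ (Fin m → ℂ) → ℙ ℂ (Fin n → ℂ), MapsTo ψ U₂ U₁ ∧ IsHolomorphicOn ψ U₂ ∧
      (∀ p ∈ U₁, ψ (φ p) = p) ∧ ∀ p ∈ U₂, φ (ψ p) = p

end Pool.Agent.Lib.MP_6e94a1_ag
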