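import Mathlib

/-!
# Smooth complete intersections of two quadrics in five-space (definitions)
-/

open scoped LinearAlgebra.Projectivization
open Matrix

namespace Pool.Agent.Lib.MP_6e94a1_ag

/-- The intersection of the two quadrics `vᵀ A v = 0` and `vᵀ B v = 0` in `ℙ^5`. -/
def TwoQuadrics (A B : Matrix (Fin 6) (Fin 6) ℂ) : Set (ℙ ℂ (Fin 6 → ℂ)) :=
  {p | p.rep ⬝ᵥ (A *ᵥ p.rep) = 0 ∧ p.rep ⬝ᵥ (B *ᵥ p.rep) = 0}

/-- Jacobian criterion: at every common zero `v ≠ 0` of the two quadratic forms (given by the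
symmetric matrices `A`, `B`) their gradients `2 A v` and `2 B v` are linearly independent, so
that the two quadrics form a smooth complete intersection. -/
def SmoothPencil (A B : Matrix (Fin 6) (Fin 6) ℂ) : Prop :=
  ∀ v : Fin 6 → ℂ, v ≠ 0 → v ⬝ᵥ (A *ᵥ v) = 0 → v ⬝ᵥ (B *ᵥ v) = 0 →
    LinearIndependent ℂ ![A *ᵥ v, B *ᵥ v]

end Pool.Agent.Lib.MP_6e94a1_ag
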