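import Mathlib

/-!
# The quintic del Pezzo threefold (definitions)
-/

open scoped LinearAlgebra.Projectivization

namespace Pool.Agent.Lib.MP_6e94a1_ag

/-- The five quadrics cutting out the quintic del Pezzo threefold in `ℙ^6`; a vector `a`
stands for the binary sextic `∑ i, (6 choose i) a_i x^(6-i) y^i` and the five equations
say that its fourth transvectant with itself vanishes. -/
def Cone (a : Fin 7 → ℂ) : Prop :=
  a 0 * a 4 - 4 * a 1 * a 3 + 3 * a 2 ^ 2 = 0 ∧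
  a 0 * a 5 - 3 * a 1 * a 4 + 2 * a 2 * a 3 = 0 ∧
  a 0 * a 6 - 9 * a 2 * a 4 + 8 * a 3 ^ 2 = 0 ∧
  a 1 * a 6 - 3 * a 2 * a 5 + 2 * a 3 * a 4 = 0 ∧
  a 2 * a 6 - 4 * a 3 * a 5 + 3 * a 4 ^ 2 = 0

/-- The quintic del Pezzo threefold `V₅ ⊂ ℙ^6`. -/
def V5 : Set (ℙ ℂ (Fin 7 → ℂ)) := {p | Cone p.rep}

end Pool.Agent.Lib.MP_6e94a1_ag
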