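import Pool.Agent.Lib.MP_6e94a1_ag.DefsQuad

/-!
# Simultaneous diagonalisation of a smooth pencil of quadrics
-/

open Polynomial Matrix

set_option linter.all false

namespace Pool.Agent.Lib.MP_6e94a1_ag

abbrev V6 : Type := Fin 6 → ℂ
abbrev M6 : Type := Matrix (Fin 6) (Fin 6) ℂ

lemma bil_symm {A : M6} (hA : A.IsSymm) (v w : V6) : v ⬝ᵥ (A *ᵥ w) = w ⬝ᵥ (A *ᵥ v) := by
  rw [Matrix.dotProduct_mulVec, ← Matrix.mulVec_transpose, hA.eq, dotProduct_comm]

/-- some member of the pencil is nondegenerate -/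
lemma exists_nondeg {A B : M6} (hA : A.IsSymm) (hB : B.IsSymm) (h : SmoothPencil A B) :
    ∃ s : ℂ, (A + s • B).det ≠ 0 := by
  by_contra hcon
  push Not at hcon
  set M : Matrix (Fin 6) (Fin 6) ℂ[X] := Matrix.of fun i j => C (A i j) + X * C (B i j) with hM
  have hdet : M.det = 0 := by
    apply Polynomial.funext
    intro s
    have h1 : (Polynomial.evalRingHom s) M.det = ((Polynomial.evalRingHom s).mapMatrix M).det :=
      RingHom.map_det _ _
    have h2 : (Polynomial.evalRingHom s).mapMatrix M = A + s • B := by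
      ext i j
      simp [hM]
      ring
    rw [h2, hcon s] at h1
    simpa using h1
  obtain ⟨u, hu, hu0⟩ := Matrix.exists_mulVec_eq_zero_iff.2 hdet
  have hrow : ∀ i, ∑ j, (C (A i j) + X * C (B i j)) * u j = 0 := by
    intro i
    have := congrFun hu0 i
    simpa [Matrix.mulVec, dotProduct, hM] using this
  have hrow' : ∀ i, ∑ j, (C (B i j) * u j + (C (A i j) + X * C (B i j)) * derivative (u j)) = 0 := by
    intro i
    have h1 := congrArg derivative (hrow i)
    rw [derivative_sum, derivative_zero] at h1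
    rw [← h1]
    refine Finset.sum_congr rfl fun j _ => ?_
    rw [derivative_mul]
    congr 1
    simp
  have hquad : ∑ i, ∑ j, u i * (C (B i j) * u j) = 0 := by
    have h1 : ∑ i, u i * ∑ j, (C (B i j) * u j + (C (A i j) + X * C (B i j)) * derivative (u j)) =
        0 := Finset.sum_eq_zero fun i _ => by rw [hrow' i, mul_zero]
    have h2 : ∑ i, u i * ∑ j, (C (B i j) * u j + (C (A i j) + X * C (B i j)) * derivative (u j)) =
        (∑ i, ∑ j, u i * (C (B i j) * u j)) +
          ∑ j, (∑ i, (C (A j i) + X * C (B j i)) * u i) * derivative (u j) := by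
      simp only [Finset.mul_sum, Finset.sum_mul]
      rw [Finset.sum_comm (f := fun j i => (C (A j i) + X * C (B j i)) * u i * derivative (u j)),
        ← Finset.sum_add_distrib]
      refine Finset.sum_congr rfl fun i _ => ?_
      rw [← Finset.sum_add_distrib]
      refine Finset.sum_congr rfl fun j _ => ?_
      have e1 : A j i = A i j := hA.apply i j
      have e2 : B j i = B i j := hB.apply i j
      rw [e1, e2]
      ring
    rw [h2] at h1
    have h3 : ∑ j, (∑ i, (C (A j i) + X * C (B j i)) * u i) * derivative (u j) = 0 :=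
      Finset.sum_eq_zero fun j _ => by rw [hrow j, zero_mul]
    rw [h3, add_zero] at h1
    exact h1
  -- evaluate at a good point
  obtain ⟨k, hk⟩ := Function.ne_iff.1 hu
  obtain ⟨s, hs⟩ : ∃ s : ℂ, (u k).eval s ≠ 0 := by
    by_contra hcon'
    push Not at hcon'
    exact hk (Polynomial.funext fun s => by rw [hcon' s]; simp)
  set v : V6 := fun i => (u i).eval s with hv
  have hv0 : v ≠ 0 := fun h0 => hs (congrFun h0 k)
  have e1 : A *ᵥ v = -(s • (B *ᵥ v)) := by
    ext i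
    have h1 := congrArg (fun p => p.eval s) (hrow i)
    simp only [eval_finsetSum, eval_mul, eval_add, eval_C, eval_X, eval_zero] at h1
    simp only [Matrix.mulVec, dotProduct, Pi.neg_apply, Pi.smul_apply, smul_eq_mul, hv,
      Finset.mul_sum]
    rw [eq_neg_iff_add_eq_zero, ← Finset.sum_add_distrib, ← h1]
    exact Finset.sum_congr rfl fun j _ => by ring
  have e2 : v ⬝ᵥ (B *ᵥ v) = 0 := by
    have h1 := congrArg (fun p => p.eval s) hquad
    simp only [eval_finsetSum, eval_mul, eval_C, eval_zero] at h1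
    simp only [Matrix.mulVec, dotProduct, hv, Finset.mul_sum]
    exact h1
  have e3 : v ⬝ᵥ (A *ᵥ v) = 0 := by
    rw [e1, dotProduct_neg, dotProduct_smul, e2, smul_zero, neg_zero]
  have e4 := h v hv0 e3 e2
  rw [LinearIndependent.pair_iff] at e4
  have e5 := (e4 1 s (by rw [e1, one_smul, neg_add_cancel])).1
  exact one_ne_zero e5

/-- replacing `A` by another member of the pencil -/
lemma smoothPencil_shift {A B : M6} (h : SmoothPencil A B) (s : ℂ) :
    SmoothPencil (A + s • B) B := by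
  intro v hv h1 h2
  have e1 : (A + s • B) *ᵥ v = A *ᵥ v + s • (B *ᵥ v) := by
    rw [Matrix.add_mulVec, Matrix.smul_mulVec]
  have h3 : v ⬝ᵥ (A *ᵥ v) = 0 := by
    rw [e1, dotProduct_add, dotProduct_smul, h2, smul_zero, add_zero] at h1
    exact h1
  have h4 := h v hv h3 h2
  rw [LinearIndependent.pair_iff] at h4 ⊢
  intro a b hab
  rw [e1, smul_add, smul_smul, add_assoc, ← add_smul] at hab
  obtain ⟨h5, h6⟩ := h4 _ _ hab
  refine ⟨h5, ?_⟩
  rw [h5, zero_mul, zero_add] at h6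
  exact h6

/-- diagonalisation with a nondegenerate member -/
lemma exists_diag_aux {A B : M6} (hA : A.IsSymm) (hB : B.IsSymm) (h : SmoothPencil A B)
    (hdet : A.det ≠ 0) : ∃ (e : V6 ≃ₗ[ℂ] V6) (l : Fin 6 → ℂ), Function.Injective l ∧
      ∀ x : V6, e x ⬝ᵥ (A *ᵥ e x) = ∑ i, x i ^ 2 ∧ e x ⬝ᵥ (B *ᵥ e x) = ∑ i, l i * x i ^ 2 := by
  classical
  have hunit : IsUnit A.det := isUnit_iff_ne_zero.2 hdet
  set L : Module.End ℂ V6 := Matrix.toLin' (A⁻¹ * B) with hL
  have hLB : ∀ v, A *ᵥ (L v) = B *ᵥ v := by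
    intro v
    rw [hL, Matrix.toLin'_apply, Matrix.mulVec_mulVec, ← mul_assoc, Matrix.mul_nonsing_inv _ hunit,
      one_mul]
  have hAinj : ∀ v w : V6, A *ᵥ v = A *ᵥ w → v = w := by
    intro v w hvw
    have h1 := congrArg (fun z => A⁻¹ *ᵥ z) hvw
    simpa [Matrix.mulVec_mulVec, Matrix.nonsing_inv_mul _ hunit] using h1
  -- eigenvectors are not isotropic
  have hiso : ∀ (μ : ℂ) (v : V6), v ≠ 0 → L v = μ • v → v ⬝ᵥ (A *ᵥ v) ≠ 0 := by
    intro μ v hv hLv h0
    have h1 : B *ᵥ v = μ • (A *ᵥ v) := by rw [← hLB, hLv, Matrix.mulVec_smul]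
    have h2 : v ⬝ᵥ (B *ᵥ v) = 0 := by rw [h1, dotProduct_smul, h0, smul_zero]
    have h3 := h v hv h0 h2
    rw [LinearIndependent.pair_iff] at h3
    have h4 := (h3 μ (-1) (by rw [h1, neg_one_smul, add_neg_cancel])).2
    norm_num at h4
  -- no Jordan blocks
  have hjordan : ∀ (μ : ℂ) (w : V6), (L - μ • (1 : Module.End ℂ V6))
      ((L - μ • (1 : Module.End ℂ V6)) w) = 0 → (L - μ • (1 : Module.End ℂ V6)) w = 0 := by
    intro μ w hw
    by_contra hne
    set v := (L - μ • (1 : Module.End ℂ V6)) w with hvdef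
    have h1 : L v = μ • v := by
      have : L v - μ • v = 0 := hw
      exact sub_eq_zero.1 this
    apply hiso μ v hne h1
    have h2 : A *ᵥ v = B *ᵥ w - μ • (A *ᵥ w) := by
      have h3 : v = L w - μ • w := hvdef
      rw [h3, Matrix.mulVec_sub, hLB, Matrix.mulVec_smul]
    rw [h2, dotProduct_sub, dotProduct_smul, bil_symm hB v w, bil_symm hA v w]
    have h4 : B *ᵥ v = μ • (A *ᵥ v) := by rw [← hLB, h1, Matrix.mulVec_smul]
    rw [h4, dotProduct_smul, sub_self]
  have hpow : ∀ (μ : ℂ) (k : ℕ) (w : V6), ((L - μ • (1 : Module.End ℂ V6)) ^ (k + 1)) w = 0 →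
      (L - μ • (1 : Module.End ℂ V6)) w = 0 := by
    intro μ k
    induction k with
    | zero => intro w hw; simpa using hw
    | succ k ih =>
      intro w hw
      rw [pow_succ] at hw
      exact hjordan μ w (ih _ hw)
  have htop : ⨆ μ : ℂ, L.eigenspace μ = ⊤ := by
    rw [eq_top_iff, ← Module.End.iSup_maxGenEigenspace_eq_top L]
    refine iSup_mono fun μ => ?_
    intro w hw
    rw [Module.End.mem_maxGenEigenspace] at hw
    obtain ⟨k, hk⟩ := hw
    rw [Module.End.mem_eigenspace_iff]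
    have h1 : (L - μ • (1 : Module.End ℂ V6)) w = 0 := by
      apply hpow μ k w
      rw [pow_succ', Module.End.mul_apply, hk, map_zero]
    have h2 : L w - μ • w = 0 := h1
    exact sub_eq_zero.1 h2
  -- eigenspaces are lines
  have hline : ∀ (μ : ℂ) (v w : V6), v ≠ 0 → L v = μ • v → L w = μ • w → ∃ c : ℂ, w = c • v := by
    intro μ v w hv hLv hLw
    have hvv := hiso μ v hv hLv
    set p := v ⬝ᵥ (A *ᵥ v) with hp
    set q := v ⬝ᵥ (A *ᵥ w) with hq
    set r := w ⬝ᵥ (A *ᵥ w) with hr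
    obtain ⟨d, hd⟩ := IsAlgClosed.exists_pow_nat_eq (q ^ 2 - p * r) (n := 2) (by norm_num)
    set α : ℂ := (-q + d) / p with hα
    set z : V6 := α • v + w with hz
    have hzz : z ⬝ᵥ (A *ᵥ z) = 0 := by
      have h1 : z ⬝ᵥ (A *ᵥ z) = α ^ 2 * p + 2 * α * q + r := by
        rw [hz]
        simp only [Matrix.mulVec_add, Matrix.mulVec_smul, dotProduct_add, add_dotProduct,
          dotProduct_smul, smul_dotProduct, smul_eq_mul]
        rw [bil_symm hA w v, ← hp, ← hq, ← hr]
        ring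
      rw [h1, hα]
      field_simp
      linear_combination hd
    have hLz : L z = μ • z := by
      rw [hz, map_add, map_smul, hLv, hLw, smul_add, smul_smul, smul_smul, mul_comm]
    have hz0 : z = 0 := by
      by_contra hne
      exact hiso μ z hne hLz hzz
    refine ⟨-α, ?_⟩
    rw [neg_smul]
    rw [hz] at hz0
    exact eq_neg_of_add_eq_zero_right hz0
  -- the eigenvectors
  let E : Type := {μ : ℂ // L.HasEigenvalue μ}
  have hev : ∀ μ : E, ∃ v : V6, L.HasEigenvector μ.1 v := fun μ => μ.2.exists_hasEigenvector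
  choose v hv using hev
  have hvL : ∀ μ : E, L (v μ) = μ.1 • v μ := fun μ => Module.End.mem_eigenspace_iff.1 (hv μ).1
  have hv0 : ∀ μ : E, v μ ≠ 0 := fun μ => (hv μ).2
  have hli : LinearIndependent ℂ v :=
    Module.End.eigenvectors_linearIndependent' L (fun μ : E => μ.1) Subtype.coe_injective v hv
  have hspan : ⊤ ≤ Submodule.span ℂ (Set.range v) := by
    rw [← htop]
    refine iSup_le fun μ => ?_
    intro w hw
    by_cases hw0 : w = 0
    · rw [hw0]; exact Submodule.zero_mem _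
    have hμ : L.HasEigenvalue μ := Module.End.hasEigenvalue_of_hasEigenvector ⟨hw, hw0⟩
    obtain ⟨c, hc⟩ := hline μ (v ⟨μ, hμ⟩) w (hv0 _) (hvL _) (Module.End.mem_eigenspace_iff.1 hw)
    rw [hc]
    exact Submodule.smul_mem _ _ (Submodule.subset_span ⟨_, rfl⟩)
  let b : Module.Basis E ℂ V6 := Module.Basis.mk hli hspan
  have hb : ∀ μ, b μ = v μ := fun μ => Module.Basis.mk_apply hli hspan μ
  haveI : Finite E := Module.Finite.finite_basis b
  have hcard : Nat.card E = 6 := by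
    rw [← Module.finrank_eq_nat_card_basis b]
    simp
  let ε : E ≃ Fin 6 := Finite.equivFinOfCardEq hcard
  let l : Fin 6 → ℂ := fun i => (ε.symm i).1
  have hlinj : Function.Injective l := Subtype.coe_injective.comp ε.symm.injective
  let w : Fin 6 → V6 := fun i => v (ε.symm i)
  have hwL : ∀ i, L (w i) = l i • w i := fun i => hvL _
  have hw0 : ∀ i, w i ≠ 0 := fun i => hv0 _
  have hwA : ∀ i, w i ⬝ᵥ (A *ᵥ w i) ≠ 0 := fun i => hiso _ _ (hw0 i) (hwL i)
  have hwB : ∀ i, B *ᵥ w i = l i • (A *ᵥ w i) := fun i => by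
    rw [← hLB, hwL, Matrix.mulVec_smul]
  have horth : ∀ i j, i ≠ j → w i ⬝ᵥ (A *ᵥ w j) = 0 := by
    intro i j hij
    have h1 : l j * (w i ⬝ᵥ (A *ᵥ w j)) = l i * (w i ⬝ᵥ (A *ᵥ w j)) := by
      have e1 : w i ⬝ᵥ (B *ᵥ w j) = l j * (w i ⬝ᵥ (A *ᵥ w j)) := by
        rw [hwB, dotProduct_smul, smul_eq_mul]
      have e2 : w j ⬝ᵥ (B *ᵥ w i) = l i * (w j ⬝ᵥ (A *ᵥ w i)) := by
        rw [hwB, dotProduct_smul, smul_eq_mul]
      rw [← e1, bil_symm hB, e2, bil_symm hA]
    have h2 : l j - l i ≠ 0 := sub_ne_zero.2 fun h => hij (hlinj h.symm)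
    have h3 : (l j - l i) * (w i ⬝ᵥ (A *ᵥ w j)) = 0 := by linear_combination h1
    exact (mul_eq_zero.1 h3).resolve_left h2
  -- normalisation
  have hroot : ∀ i, ∃ c : ℂ, c ^ 2 = w i ⬝ᵥ (A *ᵥ w i) := fun i =>
    IsAlgClosed.exists_pow_nat_eq _ (by norm_num)
  choose c hc using hroot
  have hc0 : ∀ i, c i ≠ 0 := by
    intro i h0
    apply hwA i
    rw [← hc i, h0]
    norm_num
  let b' : Module.Basis (Fin 6) ℂ V6 := (b.reindex ε).isUnitSMul (w := fun i => (c i)⁻¹)
    (fun i => isUnit_iff_ne_zero.2 (inv_ne_zero (hc0 i)))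
  have hb' : ∀ i, b' i = (c i)⁻¹ • w i := by
    intro i
    have h1 : b' i = (c i)⁻¹ • (b.reindex ε) i := Module.Basis.isUnitSMul_apply _ i
    rw [h1, Module.Basis.reindex_apply, hb]
  refine ⟨b'.equivFun.symm, l, hlinj, fun x => ?_⟩
  have hex : b'.equivFun.symm x = ∑ i, x i • b' i := Module.Basis.equivFun_symm_apply b' x
  rw [hex]
  have hbA : ∀ i j, b' i ⬝ᵥ (A *ᵥ b' j) = if i = j then 1 else 0 := by
    intro i j
    rw [hb', hb', Matrix.mulVec_smul, dotProduct_smul, smul_dotProduct]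
    split_ifs with hij
    · subst hij
      rw [← hc i, smul_eq_mul, smul_eq_mul]
      have := hc0 i
      field_simp
    · rw [horth i j hij, smul_zero, smul_zero]
  have hbB : ∀ i j, b' i ⬝ᵥ (B *ᵥ b' j) = if i = j then l j else 0 := by
    intro i j
    have : B *ᵥ b' j = l j • (A *ᵥ b' j) := by
      rw [hb', Matrix.mulVec_smul, Matrix.mulVec_smul, hwB, smul_comm]
    rw [this, dotProduct_smul, hbA]
    split_ifs
    · simp
    · simp
  have hgen : ∀ (D : M6), (∑ i, x i • b' i) ⬝ᵥ (D *ᵥ (∑ i, x i • b' i)) =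
      ∑ i, ∑ j, x i * x j * (b' i ⬝ᵥ (D *ᵥ b' j)) := by
    intro D
    have h1 : D *ᵥ (∑ i, x i • b' i) = ∑ j, x j • (D *ᵥ b' j) := by
      have := map_sum (Matrix.mulVecLin D) (fun i => x i • b' i) Finset.univ
      simp only [Matrix.mulVecLin_apply, Matrix.mulVec_smul] at this
      exact this
    rw [h1, sum_dotProduct]
    refine Finset.sum_congr rfl fun i _ => ?_
    rw [dotProduct_sum]
    refine Finset.sum_congr rfl fun j _ => ?_
    rw [smul_dotProduct, dotProduct_smul, smul_eq_mul, smul_eq_mul]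
    ring
  constructor
  · rw [hgen]
    refine Finset.sum_congr rfl fun i _ => ?_
    simp only [hbA, mul_ite, mul_one, mul_zero, Finset.sum_ite_eq, Finset.mem_univ, if_true]
    ring
  · rw [hgen]
    refine Finset.sum_congr rfl fun i _ => ?_
    simp only [hbB, mul_ite, mul_zero, Finset.sum_ite_eq, Finset.mem_univ, if_true]
    ring

/-- **Simultaneous diagonalisation.** -/
theorem exists_diag {A B : M6} (hA : A.IsSymm) (hB : B.IsSymm) (h : SmoothPencil A B) :
    ∃ (e : V6 ≃ₗ[ℂ] V6) (l : Fin 6 → ℂ), Function.Injective l ∧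
      ∀ x : V6, (e x ⬝ᵥ (A *ᵥ e x) = 0 ∧ e x ⬝ᵥ (B *ᵥ e x) = 0) ↔
        (∑ i, x i ^ 2 = 0 ∧ ∑ i, l i * x i ^ 2 = 0) := by
  obtain ⟨s, hs⟩ := exists_nondeg hA hB h
  have hsymm : (A + s • B).IsSymm := by
    rw [Matrix.IsSymm, Matrix.transpose_add, Matrix.transpose_smul, hA.eq, hB.eq]
  obtain ⟨e, l, hl, he⟩ := exists_diag_aux hsymm hB (smoothPencil_shift h s) hs
  refine ⟨e, l, hl, fun x => ?_⟩
  obtain ⟨h1, h2⟩ := he x
  rw [← h1, ← h2]
  have e1 : e x ⬝ᵥ ((A + s • B) *ᵥ e x) = e x ⬝ᵥ (A *ᵥ e x) + s * (e x ⬝ᵥ (B *ᵥ e x)) := by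
    rw [Matrix.add_mulVec, Matrix.smul_mulVec, dotProduct_add, dotProduct_smul, smul_eq_mul]
  rw [e1]
  constructor
  · rintro ⟨h3, h4⟩
    rw [h3, h4]
    simp
  · rintro ⟨h3, h4⟩
    rw [h4, mul_zero, add_zero] at h3
    exact ⟨h3, h4⟩

end Pool.Agent.Lib.MP_6e94a1_ag
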