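import Pool.Agent.Lib.MP_6e94a1_ag.Local4

/-!
# Charts of the quintic del Pezzo threefold, density of the open orbit
-/

open scoped LinearAlgebra.Projectivization Topology Matrix.Norms.L2Operator
open Projectivization Filter Set

set_option linter.all false

namespace Pool.Agent.Lib.MP_6e94a1_ag

/-- discriminant of the cubic with the first four coefficients -/
def disc (a : Fin 7 → ℂ) : ℂ :=
  a 0 ^ 2 * a 3 ^ 2 - 6 * a 0 * a 1 * a 2 * a 3 + 4 * a 0 * a 2 ^ 3 + 4 * a 1 ^ 3 * a 3 -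
    3 * a 1 ^ 2 * a 2 ^ 2

lemma disc_rho_one (g : M2) (c : ℂ) : disc (rho g ![0, c, 0, 0, 0, 0, 0]) = 0 := by
  simp only [disc, rho, LinearMap.coe_mk, AddHom.coe_mk, rhoAux, Matrix.cons_val]
  ring

lemma disc_rho_two (g : M2) (c d : ℂ) : disc (rho g ![0, 0, 0, 0, 0, c, d]) = 0 := by
  simp only [disc, rho, LinearMap.coe_mk, AddHom.coe_mk, rhoAux, Matrix.cons_val]
  ring

lemma rho_inv_rho {g : M2} (hg : g.det ≠ 0) (v : Fin 7 → ℂ) : rho g⁻¹ (rho g v) = v := by
  rw [← rho_mul, Matrix.nonsing_inv_mul _ (isUnit_iff_ne_zero.2 hg), rho_one]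

lemma rho_rho_inv {g : M2} (hg : g.det ≠ 0) (v : Fin 7 → ℂ) : rho g (rho g⁻¹ v) = v := by
  rw [← rho_mul, Matrix.mul_nonsing_inv _ (isUnit_iff_ne_zero.2 hg), rho_one]

lemma det_inv_ne {g : M2} (hg : g.det ≠ 0) : g⁻¹.det ≠ 0 := by
  rw [Matrix.det_nonsing_inv]
  simpa using hg

/-- binary form with vanishing coefficients 0,2,3,4,6 -/
lemma mem_orbit_of_diag {a b : ℂ} (ha : a ≠ 0) (hb : b ≠ 0) :
    ∃ g : M2, g.det ≠ 0 ∧ P g = ![0, a, 0, 0, 0, b, 0] := by
  obtain ⟨r, hr⟩ := IsAlgClosed.exists_pow_nat_eq (-a / b) (n := 4) (by norm_num)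
  have hr0 : r ≠ 0 := by
    rintro rfl
    have : -a / b = 0 := by rw [← hr]; norm_num
    rcases div_eq_zero_iff.1 this with h | h
    · exact ha (neg_eq_zero.1 h)
    · exact hb h
  obtain ⟨δ, hδ⟩ := IsAlgClosed.exists_pow_nat_eq (a / r ^ 5) (n := 6) (by norm_num)
  have hδ0 : δ ≠ 0 := by
    rintro rfl
    have : a / r ^ 5 = 0 := by rw [← hδ]; norm_num
    rcases div_eq_zero_iff.1 this with h | h
    · exact ha h
    · exact pow_ne_zero 5 hr0 h
  refine ⟨!![r * δ, 0; 0, δ], ?_, ?_⟩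
  · rw [Matrix.det_fin_two_of]
    simp [hr0, hδ0]
  · rw [P_apply]
    have e1 : (r * δ) ^ 5 * δ = a := by
      have : (r * δ) ^ 5 * δ = r ^ 5 * δ ^ 6 := by ring
      rw [this, hδ]
      field_simp
    have e2 : -(r * δ * δ ^ 5) = b := by
      have : r * δ * δ ^ 5 = r * δ ^ 6 := by ring
      rw [this, hδ]
      have h4 : r ^ 4 * b = - a := by rw [hr]; field_simp
      have : r * (a / r ^ 5) = a / r ^ 4 := by field_simp
      rw [this, neg_eq_iff_eq_neg, div_eq_iff (pow_ne_zero 4 hr0)]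
      linear_combination h4
    ext i
    fin_cases i <;> simp
    · exact e1
    · exact e2

lemma rho_zero (g : M2) (a : Fin 7 → ℂ) : rho g a 0 = ev a (g 0 0) (g 0 1) := by
  simp only [rho, LinearMap.coe_mk, AddHom.coe_mk, rhoAux, ev, Matrix.cons_val]
  ring

lemma rho_low_zero (c : ℂ) (a : Fin 7 → ℂ) : rho !![1, 0; c, 1] a 0 = a 0 := by
  rw [rho_zero]
  simp [ev]

lemma rho_low_one (c : ℂ) (a : Fin 7 → ℂ) : rho !![1, 0; c, 1] a 1 = c * a 0 + a 1 := by
  simp only [rho, LinearMap.coe_mk, AddHom.coe_mk, rhoAux, Matrix.cons_val, Matrix.of_apply,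
    Matrix.cons_val_zero, Matrix.cons_val_one]
  ring

lemma rho_low_two (c : ℂ) (a : Fin 7 → ℂ) :
    rho !![1, 0; c, 1] a 2 = c ^ 2 * a 0 + 2 * c * a 1 + a 2 := by
  simp only [rho, LinearMap.coe_mk, AddHom.coe_mk, rhoAux, Matrix.cons_val, Matrix.of_apply,
    Matrix.cons_val_zero, Matrix.cons_val_one]
  ring

/-- a form with a simple root at `(1,0)` -/
lemma mem_orbit_one {u : Fin 7 → ℂ} (hcu : Cone u) (hu0 : u 0 = 0) (hu1 : u 1 ≠ 0)
    (hd : ∀ (k : M2) (c : ℂ), u ≠ rho k ![0, c, 0, 0, 0, 0, 0]) :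
    ∃ g : M2, g.det ≠ 0 ∧ P g = u := by
  have hkd : (!![1, 0; -(u 2) / (2 * u 1), 1] : M2).det ≠ 0 := by
    rw [Matrix.det_fin_two_of]
    norm_num
  have hct := hcu.rho !![1, 0; -(u 2) / (2 * u 1), 1]
  have hut := rho_inv_rho hkd u
  have ht0 := rho_low_zero (-(u 2) / (2 * u 1)) u
  have ht1 := rho_low_one (-(u 2) / (2 * u 1)) u
  have ht2 := rho_low_two (-(u 2) / (2 * u 1)) u
  generalize rho !![1, 0; -(u 2) / (2 * u 1), 1] u = t at hct hut ht0 ht1 ht2
  generalize (!![1, 0; -(u 2) / (2 * u 1), 1] : M2) = k at hkd hut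
  rw [hu0] at ht0
  rw [hu0, mul_zero, zero_add] at ht1
  have ht2' : t 2 = 0 := by
    rw [ht2, hu0]
    field_simp
    ring
  obtain ⟨d0, d1, d2, d3, d4⟩ := hct
  simp only [ht0, ht1, ht2'] at d0 d1 d2 d3 d4
  have ht3 : t 3 = 0 := by
    apply mul_left_cancel₀ hu1
    linear_combination (-1 / 4 : ℂ) * d0
  simp only [ht3] at d1 d2 d3 d4
  have ht4 : t 4 = 0 := by
    apply mul_left_cancel₀ hu1
    linear_combination (-1 / 3 : ℂ) * d1
  simp only [ht4] at d3
  have ht6 : t 6 = 0 := by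
    apply mul_left_cancel₀ hu1
    linear_combination d3
  have ht' : t = ![0, u 1, 0, 0, 0, t 5, 0] := by
    ext i
    fin_cases i
    · exact ht0
    · exact ht1
    · exact ht2'
    · exact ht3
    · exact ht4
    · rfl
    · exact ht6
  by_cases ht5 : t 5 = 0
  · exfalso
    rw [ht5] at ht'
    exact hd k⁻¹ (u 1) (by rw [← ht', hut])
  · obtain ⟨m, hm, hPm⟩ := mem_orbit_of_diag hu1 ht5
    refine ⟨k⁻¹ * m, ?_, ?_⟩
    · rw [Matrix.det_mul]
      exact mul_ne_zero (det_inv_ne hkd) hm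
    · rw [P_mul, hPm, ← ht', hut]

/-- a form with a multiple root at `(1,0)` -/
lemma form_two {u : Fin 7 → ℂ} (hcu : Cone u) (hu0 : u 0 = 0) (hu1 : u 1 = 0) :
    u = ![0, 0, 0, 0, 0, u 5, u 6] := by
  obtain ⟨c0, c1, c2, c3, c4⟩ := hcu
  simp only [hu0, hu1] at c0 c1 c2 c3 c4
  have h2 : u 2 = 0 := by
    have : u 2 ^ 2 = 0 := by linear_combination (1 / 3 : ℂ) * c0
    exact pow_eq_zero_iff (two_ne_zero) |>.1 this
  simp only [h2] at c2 c4
  have h3 : u 3 = 0 := by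
    have : u 3 ^ 2 = 0 := by linear_combination (1 / 8 : ℂ) * c2
    exact pow_eq_zero_iff (two_ne_zero) |>.1 this
  simp only [h3] at c4
  have h4 : u 4 = 0 := by
    have : u 4 ^ 2 = 0 := by linear_combination (1 / 3 : ℂ) * c4
    exact pow_eq_zero_iff (two_ne_zero) |>.1 this
  ext i
  fin_cases i
  · exact hu0
  · exact hu1
  · exact h2
  · exact h3
  · exact h4
  · rfl
  · rfl

lemma exists_root_ev {v : Fin 7 → ℂ} (h0 : v 0 ≠ 0) : ∃ r, ev v r 1 = 0 := by
  let f : Polynomial ℂ := Polynomial.C (v 0) * Polynomial.X ^ 6 +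
    Polynomial.C (6 * v 1) * Polynomial.X ^ 5 + Polynomial.C (15 * v 2) * Polynomial.X ^ 4 +
    Polynomial.C (20 * v 3) * Polynomial.X ^ 3 + Polynomial.C (15 * v 4) * Polynomial.X ^ 2 +
    Polynomial.C (6 * v 5) * Polynomial.X ^ 1 + Polynomial.C (v 6) * Polynomial.X ^ 0
  have hcoeff : f.coeff 6 = v 0 := by
    simp only [f, Polynomial.coeff_add, Polynomial.coeff_C_mul_X_pow]
    norm_num
  have hdeg : f.degree ≠ 0 := by
    intro h
    have h1 : f.natDegree = 0 := Polynomial.natDegree_eq_of_degree_eq_some h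
    have h2 : f.coeff 6 = 0 := Polynomial.coeff_eq_zero_of_natDegree_lt (by omega)
    exact h0 (by rw [← hcoeff, h2])
  obtain ⟨r, hr⟩ := IsAlgClosed.exists_root f hdeg
  refine ⟨r, ?_⟩
  have h3 : f.eval r = 0 := hr
  simp only [f, Polynomial.eval_add, Polynomial.eval_mul, Polynomial.eval_C,
    Polynomial.eval_pow, Polynomial.eval_X] at h3
  simp only [ev]
  linear_combination h3

/-- The open orbit. -/
lemma mem_orbit {v : Fin 7 → ℂ} (hv : Cone v) (h0 : v 0 ≠ 0) (hd : disc v ≠ 0) :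
    ∃ g : M2, g.det ≠ 0 ∧ P g = v := by
  obtain ⟨r, hr⟩ := exists_root_ev h0
  have hgd : (!![r, 1; -1, 0] : M2).det ≠ 0 := by
    rw [Matrix.det_fin_two_of]
    norm_num
  have hcu := hv.rho !![r, 1; -1, 0]
  have hvu := rho_inv_rho hgd v
  have hu0 : rho !![r, 1; -1, 0] v 0 = 0 := by
    rw [rho_zero]
    simpa using hr
  generalize rho !![r, 1; -1, 0] v = u at hcu hvu hu0
  generalize (!![r, 1; -1, 0] : M2) = g at hgd hvu
  by_cases hu1 : u 1 = 0
  · exfalso
    apply hd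
    rw [← hvu, form_two hcu hu0 hu1]
    exact disc_rho_two _ _ _
  · obtain ⟨m, hm, hPm⟩ := mem_orbit_one hcu hu0 hu1 (by
      intro k c hk
      apply hd
      rw [← hvu, hk, ← rho_mul]
      exact disc_rho_one _ _)
    refine ⟨g⁻¹ * m, ?_, ?_⟩
    · rw [Matrix.det_mul]
      exact mul_ne_zero (det_inv_ne hgd) hm
    · rw [P_mul, hPm, hvu]

/-- the standard chart -/
noncomputable def chartC (z : Fin 4 → ℂ) : Fin 7 → ℂ :=
  ![z 0, z 1, z 2, z 3, (4 * z 1 * z 3 - 3 * z 2 ^ 2) / z 0,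
    (3 * z 1 * ((4 * z 1 * z 3 - 3 * z 2 ^ 2) / z 0) - 2 * z 2 * z 3) / z 0,
    (9 * z 2 * ((4 * z 1 * z 3 - 3 * z 2 ^ 2) / z 0) - 8 * z 3 ^ 2) / z 0]

lemma cone_chartC {z : Fin 4 → ℂ} (h : z 0 ≠ 0) : Cone (chartC z) := by
  simp only [Cone, chartC, Matrix.cons_val]
  refine ⟨?_, ?_, ?_, ?_, ?_⟩ <;> field_simp <;> ring

lemma kap_chartC (z : Fin 4 → ℂ) : kap (chartC z) = z := by
  ext i
  fin_cases i <;> simp [kap, chartC]

lemma chartC_kap {v : Fin 7 → ℂ} (hv : Cone v) (h : v 0 ≠ 0) : chartC (kap v) = v := by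
  have h0 : kap v 0 ≠ 0 := by simpa [kap] using h
  apply cone_ext (cone_chartC h0) hv
  · simpa [chartC, kap] using h
  · rw [kap_chartC]

lemma analyticAt_chartC {z : Fin 4 → ℂ} (h : z 0 ≠ 0) : AnalyticAt ℂ chartC z := by
  have hp : ∀ i, AnalyticAt ℂ (fun z : Fin 4 → ℂ => z i) z := fun i =>
    (ContinuousLinearMap.proj (R := ℂ) (φ := fun _ : Fin 4 => ℂ) i).analyticAt z
  have h0 := hp 0
  have h1 := hp 1
  have h2 := hp 2
  have h3 := hp 3
  rw [analyticAt_pi_iff]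
  have e4 : AnalyticAt ℂ (fun z : Fin 4 → ℂ => (4 * z 1 * z 3 - 3 * z 2 ^ 2) / z 0) z :=
    (((analyticAt_const.mul h1).mul h3).sub (analyticAt_const.mul (h2.pow 2))).div h0 h
  intro i
  fin_cases i
  · exact h0
  · exact h1
  · exact h2
  · exact h3
  · exact e4
  · exact (((analyticAt_const.mul h1).mul e4).sub ((analyticAt_const.mul h2).mul h3)).div h0 h
  · exact (((analyticAt_const.mul h2).mul e4).sub (analyticAt_const.mul (h3.pow 2))).div h0 h

lemma poly_frequently {f : Polynomial ℂ} (hf : f ≠ 0) (t : ℂ) : ∃ᶠ s in 𝓝 t, f.eval s ≠ 0 := by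
  have hfin : {s | f.eval s = 0}.Finite := by
    have : {s | f.eval s = 0} ⊆ (f.roots.toFinset : Set ℂ) := by
      intro s hs
      simp only [Finset.mem_coe, Multiset.mem_toFinset]
      exact (Polynomial.mem_roots hf).2 hs
    exact (Finset.finite_toSet _).subset this
  have hd : Dense {s | f.eval s = 0}ᶜ := hfin.countable.dense_compl ℂ
  have := mem_closure_iff_frequently.1 (hd t)
  exact this

lemma exists_first_ne {v : Fin 7 → ℂ} (hv : v ≠ 0) :
    ∃ᶠ t in 𝓝 (0 : ℂ), rho !![1, t; 0, 1] v 0 ≠ 0 := by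
  let f : Polynomial ℂ := Polynomial.C (v 0) * Polynomial.X ^ 0 +
      Polynomial.C (6 * v 1) * Polynomial.X ^ 1 + Polynomial.C (15 * v 2) * Polynomial.X ^ 2 +
      Polynomial.C (20 * v 3) * Polynomial.X ^ 3 + Polynomial.C (15 * v 4) * Polynomial.X ^ 4 +
      Polynomial.C (6 * v 5) * Polynomial.X ^ 5 + Polynomial.C (v 6) * Polynomial.X ^ 6
  have hf : f ≠ 0 := by
    intro h
    apply hv
    ext i
    have c := congrArg (fun P => P.coeff i) h
    simp only [f, Polynomial.coeff_add, Polynomial.coeff_C_mul_X_pow, Polynomial.coeff_zero] at c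
    fin_cases i <;> simpa using c
  have := poly_frequently hf 0
  refine this.mono ?_
  intro t ht
  have e : rho !![1, t; 0, 1] v 0 = f.eval t := by
    simp only [f, Polynomial.eval_add, Polynomial.eval_mul, Polynomial.eval_C,
      Polynomial.eval_pow, Polynomial.eval_X]
    simp [rho, rhoAux]
    ring
  rwa [e]

lemma exists_rho_first_ne {v : Fin 7 → ℂ} (hv : v ≠ 0) :
    ∃ g : M2, g.det ≠ 0 ∧ rho g v 0 ≠ 0 := by
  obtain ⟨t, ht⟩ := (exists_first_ne hv).exists
  refine ⟨_, ?_, ht⟩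
  rw [Matrix.det_fin_two_of]
  norm_num

/-- the threefold has analytic cone charts everywhere -/
lemma hasConeChart_V5 {v : Fin 7 → ℂ} (hv : v ≠ 0) (hvV : mk ℂ v hv ∈ V5) :
    HasConeChart V5 v := by
  obtain ⟨g, hg, hg0⟩ := exists_rho_first_ne hv
  have hcv : Cone v := (mem_V5 hv).1 hvV
  have hk0 : kap (rho g v) 0 ≠ 0 := by simpa [kap] using hg0
  have hrc : Continuous (rho g) := (rho g).continuous_of_finiteDimensional
  have hkc : Continuous kap := kap.continuous_of_finiteDimensional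
  refine ⟨4, fun z => rho g⁻¹ (chartC z), fun w => kap (rho g w), ?_, ?_, ?_, ?_, ?_⟩
  · exact AnalyticAt.fun_comp ((rho g⁻¹).toContinuousLinearMap.analyticAt _) (analyticAt_chartC hk0)
  · simp only
    rw [chartC_kap (hcv.rho g) hg0, rho_inv_rho hg]
  · exact (hkc.comp hrc).continuousAt
  · have h1 : ∀ᶠ w in 𝓝 v, rho g w 0 ≠ 0 :=
      (((continuous_apply 0).comp hrc).tendsto v).eventually_ne hg0
    filter_upwards [h1] with w hw hw0 hwV
    rw [chartC_kap (((mem_V5 hw0).1 hwV).rho g) hw, rho_inv_rho hg]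
  · have h1 : ∀ᶠ z : Fin 4 → ℂ in 𝓝 (kap (rho g v)), z 0 ≠ 0 :=
      ((continuous_apply 0).tendsto _).eventually_ne hk0
    filter_upwards [h1] with z hz h
    rw [mem_V5]
    exact (cone_chartC hz).rho _

/-- density of the open orbit -/
lemma frequently_generic {u : Fin 7 → ℂ} (hu : u ≠ 0) (hc : Cone u) :
    ∃ᶠ w in 𝓝 u, Cone w ∧ w 0 ≠ 0 ∧ disc w ≠ 0 := by
  -- first step: nonzero first coordinate
  have h1 : ∃ᶠ w in 𝓝 u, Cone w ∧ w 0 ≠ 0 := by
    have ht : Tendsto (fun t : ℂ => rho !![1, t; 0, 1] u) (𝓝 0) (𝓝 u) := by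
      have hcont : Continuous (fun t : ℂ => rho !![1, t; 0, 1] u) := by
        apply continuous_pi
        intro i
        fin_cases i <;> simp [rho, rhoAux] <;> fun_prop
      have h2 := hcont.tendsto 0
      have h3 : rho !![1, (0 : ℂ); 0, 1] u = u := by
        have : (!![1, (0 : ℂ); 0, 1] : M2) = 1 := by
          ext i j
          fin_cases i <;> fin_cases j <;> simp
        rw [this, rho_one]
      rwa [h3] at h2
    refine ht.frequently ((exists_first_ne hu).mono ?_)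
    intro t ht
    exact ⟨hc.rho _, ht⟩
  -- second step
  have h2 : ∀ w : Fin 7 → ℂ, Cone w ∧ w 0 ≠ 0 → ∃ᶠ w' in 𝓝 w, Cone w' ∧ w' 0 ≠ 0 ∧
      disc w' ≠ 0 := by
    rintro w ⟨hw, hw0⟩
    have ht : Tendsto (fun s : ℂ => chartC ![w 0, w 1, w 2, s]) (𝓝 (w 3)) (𝓝 w) := by
      have hcont : ContinuousAt (fun s : ℂ => chartC ![w 0, w 1, w 2, s]) (w 3) := by
        have e1 : ContinuousAt chartC ![w 0, w 1, w 2, w 3] :=
          (analyticAt_chartC (by simpa using hw0)).continuousAt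
        have e2 : Continuous (fun s : ℂ => (![w 0, w 1, w 2, s] : Fin 4 → ℂ)) := by
          apply continuous_pi
          intro i
          fin_cases i <;> simp <;> fun_prop
        exact ContinuousAt.comp (g := chartC) (f := fun s : ℂ => (![w 0, w 1, w 2, s] : Fin 4 → ℂ))
          e1 e2.continuousAt
      have e3 : chartC ![w 0, w 1, w 2, w 3] = w := by
        have := chartC_kap hw hw0
        simpa [kap] using this
      have := hcont.tendsto
      rwa [e3] at this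
    let f : Polynomial ℂ := Polynomial.C (w 0 ^ 2) * Polynomial.X ^ 2 +
      Polynomial.C (- 6 * w 0 * w 1 * w 2 + 4 * w 1 ^ 3) * Polynomial.X ^ 1 +
      Polynomial.C (4 * w 0 * w 2 ^ 3 - 3 * w 1 ^ 2 * w 2 ^ 2) * Polynomial.X ^ 0
    have hf : f ≠ 0 := by
      intro h
      have c := congrArg (fun P => P.coeff 2) h
      simp only [f, Polynomial.coeff_add, Polynomial.coeff_C_mul_X_pow, Polynomial.coeff_zero] at c
      norm_num at c
      exact hw0 c
    refine ht.frequently ((poly_frequently hf (w 3)).mono ?_)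
    intro s hs
    refine ⟨cone_chartC (by simpa using hw0), by simpa [chartC] using hw0, ?_⟩
    have e : disc (chartC ![w 0, w 1, w 2, s]) = f.eval s := by
      simp only [f, Polynomial.eval_add, Polynomial.eval_mul, Polynomial.eval_C,
        Polynomial.eval_pow, Polynomial.eval_X, disc, chartC, Matrix.cons_val]
      ring
    rwa [e]
  -- combine
  rw [frequently_iff]
  intro O hO
  obtain ⟨O', hO'O, hO'open, huO'⟩ := mem_nhds_iff.1 hO
  obtain ⟨w, hwO', hw⟩ := frequently_iff.1 h1 (hO'open.mem_nhds huO')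
  obtain ⟨w', hw'O', hw'⟩ := frequently_iff.1 (h2 w hw) (hO'open.mem_nhds hwO')
  exact ⟨w', hO'O hw'O', hw'⟩

end Pool.Agent.Lib.MP_6e94a1_ag
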