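import Pool.Agent.Lib.MP_6e94a1_ag.Global1

/-!
# Line preserving maps of the quintic del Pezzo threefold
-/

open scoped LinearAlgebra.Projectivization Topology Matrix.Norms.L2Operator
open Projectivization Filter Set

set_option linter.all false

namespace Pool.Agent.Lib.MP_6e94a1_ag

lemma disc_smul (c : ℂ) (v : Fin 7 → ℂ) : disc (c • v) = c ^ 4 * disc v := by
  simp only [disc, Pi.smul_apply, smul_eq_mul]
  ring

lemma continuous_disc : Continuous disc := by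
  have : disc = fun a : Fin 7 → ℂ => a 0 ^ 2 * a 3 ^ 2 - 6 * a 0 * a 1 * a 2 * a 3 +
    4 * a 0 * a 2 ^ 3 + 4 * a 1 ^ 3 * a 3 - 3 * a 1 ^ 2 * a 2 ^ 2 := rfl
  rw [this]
  fun_prop

/-- the projective transformation attached to an invertible matrix -/
noncomputable def theta (h : M2) (hh : h.det ≠ 0) : ℙ ℂ (Fin 7 → ℂ) → ℙ ℂ (Fin 7 → ℂ) :=
  Projectivization.map (rho h) (rho_injective hh)

lemma theta_mk (h : M2) (hh : h.det ≠ 0) {v : Fin 7 → ℂ} (hv : v ≠ 0)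
    (hv' : rho h v ≠ 0) : theta h hh (mk ℂ v hv) = mk ℂ (rho h v) hv' := by
  rw [theta, Projectivization.map_mk]

lemma theta_holo (h : M2) (hh : h.det ≠ 0) (U : Set (ℙ ℂ (Fin 7 → ℂ))) :
    IsHolomorphicOn (theta h hh) U := by
  intro v hv _
  refine ⟨rho h, (rho h).toContinuousLinearMap.analyticAt v, ?_⟩
  refine Eventually.of_forall ?_
  intro w hw _
  have : rho h w ≠ 0 := fun hz => hw (rho_injective hh (by rw [hz, map_zero]))
  exact ⟨this, theta_mk h hh hw this⟩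

/-- the line through a point of the open orbit -/
def lineAt (g : M2) (i : Fin 3) : Submodule ℂ (Fin 7 → ℂ) :=
  Submodule.span ℂ {P g, rho g (tau (K i))}

lemma lineAt_finrank {g : M2} (hg : g.det ≠ 0) (i : Fin 3) :
    Module.finrank ℂ (lineAt g i) = 2 := by
  have hlin : LinearIndependent ℂ ![P g, rho g (tau (K i))] := by
    rw [LinearIndependent.pair_iff' (P_ne_zero hg)]
    intro c hc
    have h1 : tau (K i) = tau ((c / 6) • 1) := by
      apply rho_injective hg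
      rw [← hc, map_smul, tau_one, smul_smul, map_smul, P]
      congr 1
      ring
    have h2 := tau_injective h1
    have h3 := K_trace i
    have h4 := K_mul_trace i i
    rw [h2] at h3 h4
    simp [Matrix.trace_fin_two] at h3 h4
    subst h3
    simp at h4
  have := finrank_span_eq_card hlin
  rw [Matrix.range_cons, Matrix.range_cons, Matrix.range_empty, Set.union_empty,
    Set.singleton_union] at this
  rw [lineAt]
  exact this.trans (by simp)

lemma lineAt_cone (g : M2) (i : Fin 3) {w : Fin 7 → ℂ} (hw : w ∈ lineAt g i) : Cone w := by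
  rw [lineAt, Submodule.mem_span_pair] at hw
  obtain ⟨a, b, rfl⟩ := hw
  have : a • P g + b • rho g (tau (K i)) = rho g (a • f0 + b • tau (K i)) := by
    rw [map_add, map_smul, map_smul, P]
  rw [this]
  exact (cone_line i a b).rho g

lemma cone_zero : Cone 0 := by simp [Cone]

/-- A holomorphic map `φ` between subsets of `X` pulls back neighbourhoods: the lift. -/
theorem main_V5 {U₁ U₂ : Set (ℙ ℂ (Fin 7 → ℂ))} (h₁ : IsOpenIn V5 U₁) (h₂ : IsOpenIn V5 U₂)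
    (hc₁ : IsConn U₁) {φ ψ : ℙ ℂ (Fin 7 → ℂ) → ℙ ℂ (Fin 7 → ℂ)}
    (hφ : MapsTo φ U₁ U₂) (hψ : MapsTo ψ U₂ U₁) (hψφ : ∀ p ∈ U₁, ψ (φ p) = p)
    (hφψ : ∀ p ∈ U₂, φ (ψ p) = p)
    (hφh : IsHolomorphicOn φ U₁) (hψh : IsHolomorphicOn ψ U₂)
    (hl : ∀ C, IsLine C → C ⊆ V5 → ∃ C', IsLine C' ∧ C' ⊆ V5 ∧ φ '' (C ∩ U₁) = C' ∩ U₂) :
    ∃ (h : M2) (hh : h.det ≠ 0), ∀ p ∈ U₁, φ p = theta h hh p := by
  classical
  -- a generic point of `U₂`
  obtain ⟨p₀, hp₀⟩ := hc₁.1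
  obtain ⟨u₂, hu₂, hu₂c⟩ : ∃ (u : Fin 7 → ℂ) (hu : u ≠ 0), mk ℂ u hu ∈ U₂ ∧ u 0 ≠ 0 ∧
      disc u ≠ 0 := by
    have hφp : φ p₀ ∈ U₂ := hφ hp₀
    have hrep := mk_rep (φ p₀)
    have hmem : mk ℂ (φ p₀).rep (φ p₀).rep_nonzero ∈ U₂ := by rwa [hrep]
    have hcone : Cone (φ p₀).rep := (mem_V5 _).1 (h₂.subset hmem)
    have hev := h₂.eventually _ hmem
    have hne : ∀ᶠ w in 𝓝 (φ p₀).rep, w ≠ 0 :=
      IsOpen.eventually_mem isOpen_compl_singleton (φ p₀).rep_nonzero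
    obtain ⟨w, ⟨hw1, hw2, hw3⟩, hw4, hw5⟩ :=
      ((frequently_generic (φ p₀).rep_nonzero hcone).and_eventually (hev.and hne)).exists
    exact ⟨w, hw5, hw4 hw5 ((mem_V5 hw5).2 hw1), hw2, hw3⟩
  obtain ⟨hu₂U, hu₂0, hu₂d⟩ := hu₂c
  -- its preimage
  set q := ψ (mk ℂ u₂ hu₂) with hq
  have hqU : q ∈ U₁ := hψ hu₂U
  have hqrep : mk ℂ q.rep q.rep_nonzero = q := mk_rep q
  have hqU' : mk ℂ q.rep q.rep_nonzero ∈ U₁ := by rwa [hqrep]
  obtain ⟨F, hFa, hFl⟩ := hφh q.rep q.rep_nonzero hqU'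
  have hφq : φ q = mk ℂ u₂ hu₂ := hφψ _ hu₂U
  have hFq := hFl.self_of_nhds q.rep_nonzero hqU'
  obtain ⟨hFq0, hFq1⟩ := hFq
  rw [hqrep, hφq] at hFq1
  obtain ⟨a, ha⟩ := (mk_eq_mk_iff' ℂ _ _ _ _).1 hFq1
  -- `F` at `q.rep` is generic
  have ha0 : a ≠ 0 := by
    rintro rfl
    rw [zero_smul] at ha
    exact hu₂ ha.symm
  have hF0 : F q.rep 0 ≠ 0 := by
    intro h
    apply hu₂0
    rw [← ha, Pi.smul_apply, h, smul_zero]
  have hFd : disc (F q.rep) ≠ 0 := by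
    intro h
    apply hu₂d
    rw [← ha, disc_smul, h, mul_zero]
  have hFc : ContinuousAt F q.rep := hFa.continuousAt
  have e1 : ∀ᶠ w in 𝓝 q.rep, F w 0 ≠ 0 :=
    (((continuous_apply 0).tendsto _).comp hFc.tendsto).eventually_ne hF0
  have e2 : ∀ᶠ w in 𝓝 q.rep, disc (F w) ≠ 0 :=
    ((continuous_disc.tendsto _).comp hFc.tendsto).eventually_ne hFd
  have hcone : Cone q.rep := (mem_V5 _).1 (h₁.subset hqU')
  have e3 := h₁.eventually _ hqU'
  have e4 : ∀ᶠ w in 𝓝 q.rep, w ≠ 0 :=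
    IsOpen.eventually_mem isOpen_compl_singleton q.rep_nonzero
  have e5 : ∀ᶠ w in 𝓝 q.rep, AnalyticAt ℂ F w := hFa.eventually_analyticAt
  have e6 := eventually_eventually_nhds.2 hFl
  obtain ⟨v₁, ⟨hv₁c, hv₁0, hv₁d⟩, hF10, hF1d, hv₁U, hv₁ne, hF1a, hF1l⟩ :=
    ((frequently_generic q.rep_nonzero hcone).and_eventually
      (e1.and (e2.and (e3.and (e4.and (e5.and e6)))))).exists
  have hv₁U' : mk ℂ v₁ hv₁ne ∈ U₁ := hv₁U hv₁ne ((mem_V5 hv₁ne).2 hv₁c)
  obtain ⟨hF1ne, hF1e⟩ := hF1l.self_of_nhds hv₁ne hv₁U'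
  have hF1U : mk ℂ (F v₁) hF1ne ∈ U₂ := by
    rw [← hF1e]
    exact hφ hv₁U'
  have hF1c : Cone (F v₁) := (mem_V5 hF1ne).1 (h₂.subset hF1U)
  obtain ⟨g₁, hg₁, hPg₁⟩ := mem_orbit hv₁c hv₁0 hv₁d
  obtain ⟨g₂, hg₂, hPg₂⟩ := mem_orbit hF1c hF10 hF1d
  obtain ⟨G, hGa, hGl⟩ := hψh (F v₁) hF1ne hF1U
  -- eventual facts near `v₁`
  have k1 : ∀ᶠ v in 𝓝 v₁, v ≠ 0 := IsOpen.eventually_mem isOpen_compl_singleton hv₁ne
  have k2 := h₁.eventually hv₁ne hv₁U'
  have k3 : ∀ᶠ v in 𝓝 v₁, Cone v → ∃ (hv : v ≠ 0) (hFv : F v ≠ 0), mk ℂ v hv ∈ U₁ ∧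
      φ (mk ℂ v hv) = mk ℂ (F v) hFv := by
    filter_upwards [k1, k2, hF1l] with v a1 a2 a3 a4
    have a5 := a2 a1 ((mem_V5 a1).2 a4)
    obtain ⟨a6, a7⟩ := a3 a1 a5
    exact ⟨a1, a6, a5, a7⟩
  have hFc1 : ContinuousAt F v₁ := hF1a.continuousAt
  have k4 : ∀ᶠ v in 𝓝 v₁, Cone v → ∃ (hv : v ≠ 0) (hFv : F v ≠ 0) (hG : G (F v) ≠ 0),
      mk ℂ v hv = mk ℂ (G (F v)) hG := by
    filter_upwards [k3, hFc1.tendsto.eventually hGl] with v a1 a2 a3
    obtain ⟨b1, b2, b3, b4⟩ := a1 a3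
    have b5 : mk ℂ (F v) b2 ∈ U₂ := by rw [← b4]; exact hφ b3
    obtain ⟨b6, b7⟩ := a2 b2 b5
    refine ⟨b1, b2, b6, ?_⟩
    rw [← b7, ← b4, hψφ _ b3]
  have D : LocalData F G g₁ g₂ := by
    refine ⟨hg₁, hg₂, ?_, ?_, ?_, ?_, ?_, ?_, ?_, ?_, ?_, ?_, ?_⟩
    · rw [hPg₁]; exact hv₁0
    · rw [hPg₂]; exact hF10
    · rw [hPg₁]; exact hF1a
    · rw [hPg₂]; exact hGa
    · rw [hPg₁, hPg₂]
    · rw [hPg₁]
      filter_upwards [k3] with v a1 a2
      obtain ⟨b1, b2, b3, b4⟩ := a1 a2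
      rw [← mem_V5 b2, ← b4]
      exact h₂.subset (hφ b3)
    · rw [hPg₁]
      filter_upwards [k4] with v a1 a2
      obtain ⟨b1, b2, b3, b4⟩ := a1 a2
      obtain ⟨c, hc⟩ := (mk_eq_mk_iff' ℂ _ _ _ _).1 b4.symm
      exact ⟨c, hc.symm⟩
    · rw [hPg₂]
      exact (hGl.self_of_nhds hF1ne hF1U).1
    · rw [hPg₁]
      filter_upwards [eventually_eventually_nhds.2 k3, k3] with v a1 a2 a3
      obtain ⟨b1, b2, b3, b4⟩ := a2 a3
      have ht : Tendsto (fun t : ℂ => t • v) (𝓝 1) (𝓝 v) := by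
        have h1 : Continuous (fun t : ℂ => t • v) := continuous_id.smul continuous_const
        have h2 := h1.tendsto 1
        rwa [one_smul] at h2
      filter_upwards [ht.eventually a1] with t ht'
      obtain ⟨c1, c2, c3, c4⟩ := ht' (a3.smul t)
      rw [mk_smul_eq b1, b4] at c4
      obtain ⟨c, hc⟩ := (mk_eq_mk_iff' ℂ _ _ _ _).1 c4.symm
      exact ⟨c, hc.symm⟩
    · rw [hPg₂]
      have ht : Tendsto (fun t : ℂ => t • F v₁) (𝓝 1) (𝓝 (F v₁)) := by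
        have h1 : Continuous (fun t : ℂ => t • F v₁) := continuous_id.smul continuous_const
        have h2 := h1.tendsto 1
        rwa [one_smul] at h2
      obtain ⟨b1, b2⟩ := hGl.self_of_nhds hF1ne hF1U
      have hne : ∀ᶠ t : ℂ in 𝓝 1, t ≠ 0 := IsOpen.eventually_mem isOpen_compl_singleton
        (one_ne_zero)
      filter_upwards [ht.eventually hGl, hne] with t ht' hne'
      have c0 : t • F v₁ ≠ 0 := smul_ne_zero hne' hF1ne
      obtain ⟨c1, c2⟩ := ht' c0 (by rw [mk_smul_eq hF1ne]; exact hF1U)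
      rw [mk_smul_eq hF1ne, b2] at c2
      obtain ⟨c, hc⟩ := (mk_eq_mk_iff' ℂ _ _ _ _).1 c2.symm
      exact ⟨c, hc.symm⟩
    · have hPc : ContinuousAt P g₁ := contDiff_P.continuous.continuousAt
      have hPt : Tendsto P (𝓝 g₁) (𝓝 v₁) := by
        have := hPc.tendsto
        rwa [hPg₁] at this
      have hgdet : ∀ᶠ g in 𝓝 g₁, g.det ≠ 0 := det_eventually_ne (p := id) continuousAt_id hg₁
      filter_upwards [hPt.eventually k3, hPt.eventually (eventually_eventually_nhds.2 k3), hgdet]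
        with g a1 a2 a3 i
      have hline : IsLine {p : ℙ ℂ (Fin 7 → ℂ) | p.submodule ≤ lineAt g i} :=
        ⟨_, lineAt_finrank a3 i, rfl⟩
      have hsub : {p : ℙ ℂ (Fin 7 → ℂ) | p.submodule ≤ lineAt g i} ⊆ V5 := by
        intro p hp
        induction p using Projectivization.ind with
        | h w hw =>
          rw [mem_V5]
          have hp' : (ℂ ∙ w) ≤ lineAt g i := hp
          exact lineAt_cone g i (hp' (Submodule.mem_span_singleton_self w))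
      obtain ⟨C', ⟨W, hW, rfl⟩, hC'V, hC'e⟩ := hl _ hline hsub
      refine ⟨W, hW, ?_, ?_, ?_⟩
      · intro w hw
        by_cases hw0 : w = 0
        · rw [hw0]; exact cone_zero
        · rw [← mem_V5 hw0]
          apply hC'V
          show (ℂ ∙ w) ≤ W
          rw [Submodule.span_singleton_le_iff_mem]
          exact hw
      · obtain ⟨b1, b2, b3, b4⟩ := a1 (P_cone g)
        have hm : φ (mk ℂ (P g) b1) ∈ {p : ℙ ℂ (Fin 7 → ℂ) | p.submodule ≤ W} ∩ U₂ := by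
          rw [← hC'e]
          refine ⟨_, ⟨?_, b3⟩, rfl⟩
          show (ℂ ∙ (P g)) ≤ lineAt g i
          rw [Submodule.span_singleton_le_iff_mem]
          exact Submodule.subset_span (by simp)
        rw [b4] at hm
        have hm1 : (ℂ ∙ (F (P g))) ≤ W := hm.1
        exact hm1 (Submodule.mem_span_singleton_self _)
      · have ht : Tendsto (fun t : ℂ => P g + t • rho g (tau (K i))) (𝓝 0) (𝓝 (P g)) := by
          have h1 : Continuous (fun t : ℂ => P g + t • rho g (tau (K i))) :=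
            continuous_const.add (continuous_id.smul continuous_const)
          have h2 := h1.tendsto 0
          simpa using h2
        filter_upwards [ht.eventually a2] with t ht'
        have hmem : P g + t • rho g (tau (K i)) ∈ lineAt g i :=
          Submodule.add_mem _ (Submodule.subset_span (by simp))
            (Submodule.smul_mem _ _ (Submodule.subset_span (by simp)))
        obtain ⟨b1, b2, b3, b4⟩ := ht' (lineAt_cone g i hmem)
        have hm : φ (mk ℂ _ b1) ∈ {p : ℙ ℂ (Fin 7 → ℂ) | p.submodule ≤ W} ∩ U₂ := by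
          rw [← hC'e]
          refine ⟨_, ⟨?_, b3⟩, rfl⟩
          show (ℂ ∙ _) ≤ lineAt g i
          rw [Submodule.span_singleton_le_iff_mem]
          exact hmem
        rw [b4] at hm
        have hm1 : (ℂ ∙ _) ≤ W := hm.1
        exact hm1 (Submodule.mem_span_singleton_self _)
  obtain ⟨h, hh, hloc⟩ := local_theorem D
  rw [hPg₁] at hloc
  refine ⟨h, hh, ?_⟩
  refine eqOn_of_agreeNear h₁ hc₁ hφh (theta_holo h hh U₁)
    (fun v hv hvV => hasConeChart_V5 hv hvV) hv₁ne hv₁U' ?_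
  filter_upwards [hloc, k3] with v a1 a2 hv hvU
  have hc : Cone v := (mem_V5 hv).1 (h₁.subset hvU)
  obtain ⟨b1, b2, b3, b4⟩ := a2 hc
  obtain ⟨c, hc'⟩ := a1 hc
  have hne : rho h v ≠ 0 := fun hz => hv (rho_injective hh (by rw [hz, map_zero]))
  rw [b4, theta_mk h hh hv hne, mk_eq_mk_iff']
  exact ⟨c, hc'.symm⟩

end Pool.Agent.Lib.MP_6e94a1_ag
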