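import Pool.Agent.Lib.MP_6e94a1_ag.Octa

/-!
# Lines through points of the open orbit, local inverse of the orbit map
-/

open scoped LinearAlgebra.Projectivization Topology Matrix.Norms.L2Operator
open Projectivization Filter Set

set_option linter.all false

namespace Pool.Agent.Lib.MP_6e94a1_ag

/-- lines on the cone through a point of the open orbit -/
lemma lines_at {g : M2} (hg : g.det ≠ 0) {W : Submodule ℂ (Fin 7 → ℂ)}
    (hW : Module.finrank ℂ W = 2) (hc : ∀ w ∈ W, Cone w) (hP : P g ∈ W) :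
    ∃ i : Fin 3, ∀ w ∈ W, ∃ a b : ℂ, w = a • P g + b • rho g (tau (K i)) := by
  have hPne := P_ne_zero hg
  have hgu : IsUnit g.det := isUnit_iff_ne_zero.2 hg
  -- a second vector
  have h1 : ∃ u ∈ W, u ∉ (ℂ ∙ (P g)) := by
    by_contra hcon
    push Not at hcon
    have hle : W ≤ ℂ ∙ (P g) := fun u hu => hcon u hu
    have := Submodule.finrank_mono hle
    rw [hW, finrank_span_singleton hPne] at this
    omega
  obtain ⟨u, hu, hun⟩ := h1
  -- pull back
  have key : ∀ t : ℂ, Cone (f0 + t • rho g⁻¹ u) := by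
    intro t
    have h2 : f0 + t • rho g⁻¹ u = rho g⁻¹ (P g + t • u) := by
      rw [map_add, map_smul, P, ← rho_mul, Matrix.nonsing_inv_mul _ hgu, rho_one]
    rw [h2]
    exact (hc _ (W.add_mem hP (W.smul_mem t hu))).rho _
  obtain ⟨i, a, b, hab⟩ := lines_at_f0 key
  have hu' : u = a • P g + b • rho g (tau (K i)) := by
    have := congrArg (rho g) hab
    rw [← rho_mul, Matrix.mul_nonsing_inv _ hgu, rho_one, map_add, map_smul, map_smul] at this
    exact this
  refine ⟨i, ?_⟩
  -- W is spanned by P g and u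
  have hlin : LinearIndependent ℂ ![P g, u] := by
    rw [LinearIndependent.pair_iff' hPne]
    intro c hcu
    exact hun (hcu ▸ Submodule.smul_mem _ c (Submodule.mem_span_singleton_self _))
  have hspan : Submodule.span ℂ (Set.range ![P g, u]) = W := by
    apply Submodule.eq_of_le_of_finrank_eq
    · rw [Submodule.span_le]
      rintro _ ⟨j, rfl⟩
      fin_cases j
      · exact hP
      · exact hu
    · rw [finrank_span_eq_card hlin, hW]
      simp
  intro w hw
  rw [← hspan] at hw
  rw [Matrix.range_cons, Matrix.range_cons, Matrix.range_empty, Set.union_empty] at hw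
  rw [Set.singleton_union, Submodule.mem_span_pair] at hw
  obtain ⟨x, y, hxy⟩ := hw
  refine ⟨x + y * a, y * b, ?_⟩
  rw [← hxy, hu']
  module

/-- first four coordinates -/
def kap : (Fin 7 → ℂ) →ₗ[ℂ] (Fin 4 → ℂ) where
  toFun v := ![v 0, v 1, v 2, v 3]
  map_add' a b := by ext i; fin_cases i <;> simp
  map_smul' a b := by ext i; fin_cases i <;> simp

lemma cone_ext {a b : Fin 7 → ℂ} (ha : Cone a) (hb : Cone b) (h0 : a 0 ≠ 0)
    (h : kap a = kap b) : a = b := by
  have e0 : a 0 = b 0 := by simpa [kap] using congrFun h 0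
  have e1 : a 1 = b 1 := by simpa [kap] using congrFun h 1
  have e2 : a 2 = b 2 := by simpa [kap] using congrFun h 2
  have e3 : a 3 = b 3 := by simpa [kap] using congrFun h 3
  obtain ⟨a0, a1, a2, -, -⟩ := ha
  obtain ⟨b0, b1, b2, -, -⟩ := hb
  simp only [← e0, ← e1, ← e2, ← e3] at b0 b1 b2
  have e4 : a 4 = b 4 := by
    apply mul_left_cancel₀ h0
    linear_combination a0 - b0
  simp only [← e4] at b1 b2
  have e5 : a 5 = b 5 := by
    apply mul_left_cancel₀ h0
    linear_combination a1 - b1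
  have e6 : a 6 = b 6 := by
    apply mul_left_cancel₀ h0
    linear_combination a2 - b2
  ext i
  fin_cases i <;> assumption

lemma hasDerivAt_P_line (g ξ : M2) (i : Fin 7) :
    HasDerivAt (fun t : ℂ => P (g * ((1 : M2) + t • ξ)) i) (rho g (tau ξ) i) 0 := by
  have hl := hasDerivAt_one_add ξ
  have hl2 : HasDerivAt (fun t : ℂ => g * ((1 : M2) + t • ξ)) (g * ξ) 0 := hl.const_mul g
  have hd : HasFDerivAt P (fderiv ℂ P g) g :=
    (contDiff_P.differentiable (by simp)).differentiableAt.hasFDerivAt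
  have hd2 : HasFDerivAt P (fderiv ℂ P g) (g * ((1 : M2) + (0 : ℂ) • ξ)) := by simpa using hd
  have c2 := hd2.comp_hasDerivAt (0 : ℂ) hl2
  have c3 : HasDerivAt (P ∘ fun t : ℂ => g * ((1 : M2) + t • ξ)) (rho g (tau ξ)) 0 := by
    rw [← fderiv_P]
    exact c2
  exact (hasDerivAt_pi.1 c3) i

lemma tangent_rel (g ξ : M2) :
    (P g 0 * rho g (tau ξ) 4 + rho g (tau ξ) 0 * P g 4 - 4 * (P g 1 * rho g (tau ξ) 3 +
      rho g (tau ξ) 1 * P g 3) + 6 * P g 2 * rho g (tau ξ) 2 = 0) ∧
    (P g 0 * rho g (tau ξ) 5 + rho g (tau ξ) 0 * P g 5 - 3 * (P g 1 * rho g (tau ξ) 4 +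
      rho g (tau ξ) 1 * P g 4) + 2 * (P g 2 * rho g (tau ξ) 3 + rho g (tau ξ) 2 * P g 3) = 0) ∧
    (P g 0 * rho g (tau ξ) 6 + rho g (tau ξ) 0 * P g 6 - 9 * (P g 2 * rho g (tau ξ) 4 +
      rho g (tau ξ) 2 * P g 4) + 16 * P g 3 * rho g (tau ξ) 3 = 0) := by
  have h := hasDerivAt_P_line g ξ
  have z : ∀ i, P (g * ((1 : M2) + (0 : ℂ) • ξ)) i = P g i := by
    intro i
    simp
  refine ⟨?_, ?_, ?_⟩
  · have h1 := (((h 0).mul (h 4)).sub (((h 1).const_mul 4).mul (h 3))).add
      (((h 2).pow 2).const_mul 3)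
    have h2 : HasDerivAt (fun _ : ℂ => (0 : ℂ)) _ 0 := h1.congr_of_eventuallyEq
      (Filter.Eventually.of_forall fun t => by
        have := (P_cone (g * ((1 : M2) + t • ξ))).1
        simp only [Pi.add_apply, Pi.sub_apply, Pi.mul_apply, Pi.pow_apply]
        linear_combination -this)
    have h3 := h2.unique (hasDerivAt_const 0 0)
    simp only [z] at h3
    linear_combination h3
  · have h1 := (((h 0).mul (h 5)).sub (((h 1).const_mul 3).mul (h 4))).add
      (((h 2).const_mul 2).mul (h 3))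
    have h2 : HasDerivAt (fun _ : ℂ => (0 : ℂ)) _ 0 := h1.congr_of_eventuallyEq
      (Filter.Eventually.of_forall fun t => by
        have := (P_cone (g * ((1 : M2) + t • ξ))).2.1
        simp only [Pi.add_apply, Pi.sub_apply, Pi.mul_apply, Pi.pow_apply]
        linear_combination -this)
    have h3 := h2.unique (hasDerivAt_const 0 0)
    simp only [z] at h3
    linear_combination h3
  · have h1 := (((h 0).mul (h 6)).sub (((h 2).const_mul 9).mul (h 4))).add
      (((h 3).pow 2).const_mul 8)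
    have h2 : HasDerivAt (fun _ : ℂ => (0 : ℂ)) _ 0 := h1.congr_of_eventuallyEq
      (Filter.Eventually.of_forall fun t => by
        have := (P_cone (g * ((1 : M2) + t • ξ))).2.2.1
        simp only [Pi.add_apply, Pi.sub_apply, Pi.mul_apply, Pi.pow_apply]
        linear_combination -this)
    have h3 := h2.unique (hasDerivAt_const 0 0)
    simp only [z] at h3
    linear_combination h3

lemma kap_tangent_injective {g ξ : M2} (hg : g.det ≠ 0) (h0 : P g 0 ≠ 0)
    (h : kap (rho g (tau ξ)) = 0) : ξ = 0 := by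
  have u0 : rho g (tau ξ) 0 = 0 := by simpa [kap] using congrFun h 0
  have u1 : rho g (tau ξ) 1 = 0 := by simpa [kap] using congrFun h 1
  have u2 : rho g (tau ξ) 2 = 0 := by simpa [kap] using congrFun h 2
  have u3 : rho g (tau ξ) 3 = 0 := by simpa [kap] using congrFun h 3
  obtain ⟨r0, r1, r2⟩ := tangent_rel g ξ
  rw [u0, u1, u2, u3] at r0
  have u4 : rho g (tau ξ) 4 = 0 := by
    apply mul_left_cancel₀ h0
    linear_combination r0
  rw [u0, u1, u2, u3, u4] at r1
  have u5 : rho g (tau ξ) 5 = 0 := by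
    apply mul_left_cancel₀ h0
    linear_combination r1
  rw [u0, u2, u3, u4] at r2
  have u6 : rho g (tau ξ) 6 = 0 := by
    apply mul_left_cancel₀ h0
    linear_combination r2
  have hu : rho g (tau ξ) = 0 := by
    ext i
    fin_cases i <;> assumption
  have : tau ξ = 0 := by
    apply rho_injective hg
    rw [hu, map_zero]
  apply tau_injective
  rw [this, map_zero]

/-- the derivative of `kap ∘ P` as an equivalence -/
lemma exists_equiv {g : M2} (hg : g.det ≠ 0) (h0 : P g 0 ≠ 0) :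
    ∃ e : M2 ≃L[ℂ] (Fin 4 → ℂ), HasFDerivAt (fun g => kap (P g)) (e : M2 →L[ℂ] (Fin 4 → ℂ)) g := by
  have hd : HasFDerivAt P (fderiv ℂ P g) g :=
    (contDiff_P.differentiable (by simp)).differentiableAt.hasFDerivAt
  have hk := (kap.toContinuousLinearMap.hasFDerivAt (x := P g)).comp g hd
  set A : M2 →L[ℂ] (Fin 4 → ℂ) := kap.toContinuousLinearMap.comp (fderiv ℂ P g) with hA
  have hinj : Function.Injective (A : M2 →ₗ[ℂ] (Fin 4 → ℂ)) := by
    rw [injective_iff_map_eq_zero]
    intro η hη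
    have e1 : g * (g⁻¹ * η) = η := by
      rw [← mul_assoc, Matrix.mul_nonsing_inv _ (isUnit_iff_ne_zero.2 hg), one_mul]
    have h2 : kap (rho g (tau (g⁻¹ * η))) = 0 := by
      rw [← fderiv_P, e1]
      exact hη
    have h3 := kap_tangent_injective hg h0 h2
    rw [← e1, h3, mul_zero]
  have hdim : Module.finrank ℂ M2 = Module.finrank ℂ (Fin 4 → ℂ) := by
    rw [Module.finrank_matrix]
    simp
  let e := (LinearMap.linearEquivOfInjective (A : M2 →ₗ[ℂ] (Fin 4 → ℂ)) hinj
    hdim).toContinuousLinearEquiv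
  refine ⟨e, ?_⟩
  have : (e : M2 →L[ℂ] (Fin 4 → ℂ)) = A := by
    ext1 x
    rfl
  rw [this]
  exact hk

/-- a local inverse of `kap ∘ P` -/
lemma exists_local_inverse {g : M2} (hg : g.det ≠ 0) (h0 : P g 0 ≠ 0) :
    ∃ S : (Fin 4 → ℂ) → M2, ContDiffAt ℂ 2 S (kap (P g)) ∧ S (kap (P g)) = g ∧
      (∀ᶠ y in 𝓝 (kap (P g)), kap (P (S y)) = y) ∧
      (∀ᶠ x in 𝓝 g, S (kap (P x)) = x) := by
  obtain ⟨e, he⟩ := exists_equiv hg h0
  have hc : ContDiffAt ℂ 2 (fun g => kap (P g)) g := by
    have h1 : ContDiff ℂ 2 P := contDiff_P.of_le le_top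
    exact (kap.toContinuousLinearMap.contDiff.comp h1).contDiffAt
  have hs : HasStrictFDerivAt (fun g => kap (P g)) (e : M2 →L[ℂ] (Fin 4 → ℂ)) g :=
    hc.hasStrictFDerivAt' he (by norm_num)
  refine ⟨hc.localInverse he (by norm_num), hc.to_localInverse he (by norm_num),
    hc.localInverse_apply_image he (by norm_num), ?_, ?_⟩
  · exact hs.eventually_right_inverse
  · exact hs.eventually_left_inverse

end Pool.Agent.Lib.MP_6e94a1_ag
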