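import Pool.Agent.Lib.MP_6e94a1_ag.Local1

/-!
# The local theorem, first half: the lift to the group and its derivative
-/

open scoped LinearAlgebra.Projectivization Topology Matrix.Norms.L2Operator
open Projectivization Filter Set

set_option linter.all false

namespace Pool.Agent.Lib.MP_6e94a1_ag

/-- The local data extracted from a line preserving biholomorphic map. -/
structure LocalData (F G : (Fin 7 → ℂ) → (Fin 7 → ℂ)) (g₁ g₂ : M2) : Prop where
  det1 : g₁.det ≠ 0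
  det2 : g₂.det ≠ 0
  a01 : P g₁ 0 ≠ 0
  a02 : P g₂ 0 ≠ 0
  hF : AnalyticAt ℂ F (P g₁)
  hG : AnalyticAt ℂ G (P g₂)
  hval : F (P g₁) = P g₂
  cone : ∀ᶠ v in 𝓝 (P g₁), Cone v → Cone (F v)
  inv : ∀ᶠ v in 𝓝 (P g₁), Cone v → ∃ c : ℂ, G (F v) = c • v
  ne : G (P g₂) ≠ 0
  radial : ∀ᶠ v in 𝓝 (P g₁), Cone v → ∀ᶠ t in 𝓝 (1 : ℂ), ∃ c : ℂ, F (t • v) = c • F v
  radialG : ∀ᶠ t in 𝓝 (1 : ℂ), ∃ c : ℂ, G (t • P g₂) = c • G (P g₂)
  lines : ∀ᶠ g in 𝓝 g₁, ∀ i, ∃ W : Submodule ℂ (Fin 7 → ℂ), Module.finrank ℂ W = 2 ∧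
    (∀ w ∈ W, Cone w) ∧ F (P g) ∈ W ∧ ∀ᶠ t in 𝓝 (0 : ℂ), F (P g + t • rho g (tau (K i))) ∈ W

/-- the derivative of a curve in a linear subspace lies in the subspace -/
lemma deriv_mem_of_eventually {E : Type*} [NormedAddCommGroup E] [NormedSpace ℂ E]
    [FiniteDimensional ℂ E] {W : Submodule ℂ E} {c : ℂ → E} {t₀ : ℂ} {d : E}
    (hc : HasDerivAt c d t₀) (h : ∀ᶠ t in 𝓝 t₀, c t ∈ W) : d ∈ W := by
  by_contra hd
  obtain ⟨f, hf, hfW⟩ := Submodule.exists_le_ker_of_notMem hd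
  have h1 := (f.toContinuousLinearMap.hasFDerivAt (x := c t₀)).comp_hasDerivAt t₀ hc
  have h2 : HasDerivAt (fun _ : ℂ => (0 : ℂ)) (f d) t₀ := by
    apply h1.congr_of_eventuallyEq
    filter_upwards [h] with t ht
    exact (hfW ht).symm
  exact hf (h2.unique (hasDerivAt_const _ _))

/-- The lift of `F` to the group. -/
lemma exists_lift {F G : (Fin 7 → ℂ) → (Fin 7 → ℂ)} {g₁ g₂ : M2} (D : LocalData F G g₁ g₂) :
    ∃ p : M2 → M2, ContDiffAt ℂ 2 p g₁ ∧ p g₁ = g₂ ∧ ∀ᶠ g in 𝓝 g₁, P (p g) = F (P g) := by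
  obtain ⟨S, hS, hSg, hSr, hSl⟩ := exists_local_inverse D.det2 D.a02
  have hPc : ContinuousAt P g₁ := contDiff_P.continuous.continuousAt
  have hFc : ContinuousAt F (P g₁) := D.hF.continuousAt
  have hkc : Continuous kap := kap.continuous_of_finiteDimensional
  have hcomp : ContDiffAt ℂ 2 (fun g => S (kap (F (P g)))) g₁ := by
    have h1 : ContDiffAt ℂ 2 P g₁ := (contDiff_P.of_le le_top).contDiffAt
    have h2 : ContDiffAt ℂ 2 F (P g₁) := D.hF.contDiffAt.of_le le_top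
    have h3 : ContDiffAt ℂ 2 (fun g => F (P g)) g₁ := h2.comp g₁ h1
    have h4 : ContDiffAt ℂ 2 (fun g => kap (F (P g))) g₁ :=
      (kap.toContinuousLinearMap.contDiff.contDiffAt (x := F (P g₁))).comp g₁ h3
    have h5 : ContDiffAt ℂ 2 S (kap (F (P g₁))) := by rw [D.hval]; exact hS
    exact h5.comp g₁ h4
  refine ⟨fun g => S (kap (F (P g))), hcomp, by simp only [D.hval, hSg], ?_⟩
  have hFP : Tendsto (fun g => F (P g)) (𝓝 g₁) (𝓝 (P g₂)) := by
    have := hFc.tendsto.comp hPc.tendsto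
    rwa [D.hval] at this
  have h1 : Tendsto (fun g => kap (F (P g))) (𝓝 g₁) (𝓝 (kap (P g₂))) :=
    (hkc.tendsto _).comp hFP
  have h2 : ∀ᶠ g in 𝓝 g₁, F (P g) 0 ≠ 0 := by
    have h3 : Tendsto (fun g => F (P g) 0) (𝓝 g₁) (𝓝 (P g₂ 0)) :=
      ((continuous_apply 0).tendsto _).comp hFP
    exact h3.eventually_ne D.a02
  filter_upwards [h1.eventually hSr, hPc.tendsto.eventually D.cone, h2] with g hg hcone hne
  have hc := hcone (P_cone g)
  exact (cone_ext hc (P_cone _) hne hg.symm).symm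

/-- chain rule for the lift -/
lemma lift_deriv {F G : (Fin 7 → ℂ) → (Fin 7 → ℂ)} {g₁ g₂ : M2} (D : LocalData F G g₁ g₂)
    {p : M2 → M2} (hp : ContDiffAt ℂ 2 p g₁) (hpg : p g₁ = g₂)
    (hpe : ∀ᶠ g in 𝓝 g₁, P (p g) = F (P g)) :
    ∀ᶠ g in 𝓝 g₁, DifferentiableAt ℂ F (P g) ∧ DifferentiableAt ℂ p g ∧ ∀ ξ : M2,
      fderiv ℂ P (p g) (fderiv ℂ p g (g * ξ)) = fderiv ℂ F (P g) (rho g (tau ξ)) := by
  have hPc : ContinuousAt P g₁ := contDiff_P.continuous.continuousAt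
  have h1 : ∀ᶠ g in 𝓝 g₁, AnalyticAt ℂ F (P g) :=
    hPc.tendsto.eventually D.hF.eventually_analyticAt
  have h2 : ∀ᶠ g in 𝓝 g₁, ContDiffAt ℂ 2 p g := hp.eventually (by simp)
  have h3 := eventually_eventually_nhds.2 hpe
  filter_upwards [h1, h2, h3] with g hF hpd hpe'
  have dF : DifferentiableAt ℂ F (P g) := hF.differentiableAt
  have dp : DifferentiableAt ℂ p g := hpd.differentiableAt (by norm_num)
  have dP : ∀ g, DifferentiableAt ℂ P g := fun g =>
    (contDiff_P.differentiable (by simp)).differentiableAt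
  refine ⟨dF, dp, fun ξ => ?_⟩
  have e1 : HasFDerivAt (fun g => P (p g)) ((fderiv ℂ P (p g)).comp (fderiv ℂ p g)) g :=
    (dP (p g)).hasFDerivAt.comp g dp.hasFDerivAt
  have e2 : HasFDerivAt (fun g => F (P g)) ((fderiv ℂ F (P g)).comp (fderiv ℂ P g)) g :=
    dF.hasFDerivAt.comp g (dP g).hasFDerivAt
  have e3 := (e1.congr_of_eventuallyEq (f₁ := fun g => F (P g))
    (hpe'.mono fun g h => h.symm)).unique e2
  have e4 := congrArg (fun L => L (g * ξ)) e3
  have e5 : fderiv ℂ P (p g) (fderiv ℂ p g (g * ξ)) = fderiv ℂ F (P g) (fderiv ℂ P g (g * ξ)) := e4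
  rw [e5, fderiv_P]

lemma det_eventually_ne {p : M2 → M2} {g₁ : M2} (hp : ContinuousAt p g₁)
    (h : (p g₁).det ≠ 0) : ∀ᶠ g in 𝓝 g₁, (p g).det ≠ 0 := by
  have h1 : Continuous (fun g : M2 => g.det) := by
    simp only [Matrix.det_fin_two]
    have := fun i j => (contDiff_entry i j).continuous
    exact ((this 0 0).mul (this 1 1)).sub ((this 0 1).mul (this 1 0))
  have h2 : ContinuousAt (fun g => (p g).det) g₁ := h1.continuousAt.comp hp
  exact h2.tendsto.eventually_ne h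

/-- The derivative of the lift in the three left invariant directions. -/
lemma lift_lines {F G : (Fin 7 → ℂ) → (Fin 7 → ℂ)} {g₁ g₂ : M2} (D : LocalData F G g₁ g₂)
    {p : M2 → M2} (hp : ContDiffAt ℂ 2 p g₁) (hpg : p g₁ = g₂)
    (hpe : ∀ᶠ g in 𝓝 g₁, P (p g) = F (P g)) :
    ∀ᶠ g in 𝓝 g₁, ∀ i, ∃ (j : Fin 3) (α β : ℂ),
      fderiv ℂ p g (g * K i) = p g * (α • 1 + β • K j) := by
  have hdet : ∀ᶠ g in 𝓝 g₁, (p g).det ≠ 0 :=
    det_eventually_ne hp.continuousAt (by rw [hpg]; exact D.det2)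
  filter_upwards [lift_deriv D hp hpg hpe, hdet, D.lines, hpe] with g hd hdet hl hpe' i
  obtain ⟨dF, dp, hd⟩ := hd
  obtain ⟨W, hW, hWc, hFW, hFt⟩ := hl i
  rw [← hpe'] at hFW
  obtain ⟨j, hj⟩ := lines_at hdet hW hWc hFW
  have h1 : fderiv ℂ F (P g) (rho g (tau (K i))) ∈ W := by
    have hl : HasDerivAt (fun t : ℂ => P g + t • rho g (tau (K i))) (rho g (tau (K i))) 0 := by
      have h := ((hasDerivAt_id (0:ℂ)).smul_const (rho g (tau (K i)))).const_add (P g)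
      rw [one_smul] at h
      exact h
    have hF' : HasFDerivAt F (fderiv ℂ F (P g)) (P g + (0 : ℂ) • rho g (tau (K i))) := by
      simpa using dF.hasFDerivAt
    exact deriv_mem_of_eventually (hF'.comp_hasDerivAt (0 : ℂ) hl) hFt
  rw [← hd] at h1
  obtain ⟨a, b, hab⟩ := hj _ h1
  have hu : IsUnit (p g).det := isUnit_iff_ne_zero.2 hdet
  have e1 : p g * ((p g)⁻¹ * fderiv ℂ p g (g * K i)) = fderiv ℂ p g (g * K i) := by
    rw [← mul_assoc, Matrix.mul_nonsing_inv _ hu, one_mul]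
  have e2 : rho (p g) (tau ((p g)⁻¹ * fderiv ℂ p g (g * K i))) =
      rho (p g) (tau ((a / 6) • 1 + b • K j)) := by
    rw [← fderiv_P, e1, hab, map_add, map_add, map_smul, map_smul, map_smul, map_smul, tau_one,
      map_smul, smul_smul, P]
    congr 2
    ring
  have e3 := tau_injective (rho_injective hdet e2)
  refine ⟨j, a / 6, b, ?_⟩
  rw [← e3, e1]

/-- the radial derivative -/
lemma lift_radial {F G : (Fin 7 → ℂ) → (Fin 7 → ℂ)} {g₁ g₂ : M2} (D : LocalData F G g₁ g₂)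
    {p : M2 → M2} (hp : ContDiffAt ℂ 2 p g₁) (hpg : p g₁ = g₂)
    (hpe : ∀ᶠ g in 𝓝 g₁, P (p g) = F (P g)) :
    ∀ᶠ g in 𝓝 g₁, ∃ α : ℂ, fderiv ℂ p g g = α • p g := by
  have hdet : ∀ᶠ g in 𝓝 g₁, (p g).det ≠ 0 :=
    det_eventually_ne hp.continuousAt (by rw [hpg]; exact D.det2)
  have hPc : ContinuousAt P g₁ := contDiff_P.continuous.continuousAt
  filter_upwards [lift_deriv D hp hpg hpe, hdet, hPc.tendsto.eventually D.radial, hpe]
    with g hd hdet hr hpe'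
  obtain ⟨dF, dp, hd⟩ := hd
  have h1 : fderiv ℂ F (P g) (P g) ∈ (ℂ ∙ (F (P g))) := by
    have hl : HasDerivAt (fun t : ℂ => t • P g) (P g) 1 := by
      have h := ((hasDerivAt_id (1:ℂ)).smul_const (P g))
      rw [one_smul] at h
      exact h
    have hF' : HasFDerivAt F (fderiv ℂ F (P g)) ((1 : ℂ) • P g) := by
      simpa using dF.hasFDerivAt
    refine deriv_mem_of_eventually (hF'.comp_hasDerivAt (1 : ℂ) hl) ?_
    filter_upwards [hr (P_cone g)] with t ht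
    obtain ⟨c, hc⟩ := ht
    exact Submodule.mem_span_singleton.2 ⟨c, hc.symm⟩
  obtain ⟨c, hc⟩ := Submodule.mem_span_singleton.1 h1
  have hu : IsUnit (p g).det := isUnit_iff_ne_zero.2 hdet
  have e1 : p g * ((p g)⁻¹ * fderiv ℂ p g g) = fderiv ℂ p g g := by
    rw [← mul_assoc, Matrix.mul_nonsing_inv _ hu, one_mul]
  have e0 := hd 1
  rw [mul_one, tau_one, map_smul, map_smul] at e0
  have e2 : rho (p g) (tau ((p g)⁻¹ * fderiv ℂ p g g)) =
      rho (p g) (tau (c • 1)) := by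
    rw [← fderiv_P, e1, e0]
    have : rho g f0 = P g := rfl
    rw [this, ← hc, ← hpe', map_smul, map_smul, tau_one, map_smul, smul_smul, smul_smul, P]
    congr 1
    ring
  have e3 := tau_injective (rho_injective hdet e2)
  refine ⟨c, ?_⟩
  rw [← e1, e3]
  simp

/-- The derivative of the lift is injective modulo scalars. -/
lemma lift_inj {F G : (Fin 7 → ℂ) → (Fin 7 → ℂ)} {g₁ g₂ : M2} (D : LocalData F G g₁ g₂)
    {p : M2 → M2} (hp : ContDiffAt ℂ 2 p g₁) (hpg : p g₁ = g₂)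
    (hpe : ∀ᶠ g in 𝓝 g₁, P (p g) = F (P g)) {ξ : M2} {c : ℂ}
    (h : fderiv ℂ p g₁ (g₁ * ξ) = c • p g₁) : ∃ d : ℂ, ξ = d • 1 := by
  have hPc : ContinuousAt P g₁ := contDiff_P.continuous.continuousAt
  have dP : ∀ g, DifferentiableAt ℂ P g := fun g =>
    (contDiff_P.differentiable (by simp)).differentiableAt
  have dp : DifferentiableAt ℂ p g₁ := hp.differentiableAt (by norm_num)
  have dG : DifferentiableAt ℂ G (P g₂) := D.hG.differentiableAt
  -- derivative of `G ∘ P ∘ p`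
  have hN : HasFDerivAt (fun g => G (P (p g)))
      ((fderiv ℂ G (P g₂)).comp ((fderiv ℂ P g₂).comp (fderiv ℂ p g₁))) g₁ := by
    have h1 : HasFDerivAt (fun g => P (p g)) ((fderiv ℂ P g₂).comp (fderiv ℂ p g₁)) g₁ := by
      have := (dP (p g₁)).hasFDerivAt.comp g₁ dp.hasFDerivAt
      rw [hpg] at this
      exact this
    have h2 : HasFDerivAt G (fderiv ℂ G (P g₂)) (P (p g₁)) := by
      rw [hpg]
      exact dG.hasFDerivAt
    exact h2.comp g₁ h1
  -- radial derivative of `G`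
  have hGr : ∃ m : ℂ, fderiv ℂ G (P g₂) (P g₂) = m • G (P g₂) := by
    have h1 : fderiv ℂ G (P g₂) (P g₂) ∈ (ℂ ∙ (G (P g₂))) := by
      have hl : HasDerivAt (fun t : ℂ => t • P g₂) (P g₂) 1 := by
        have h := ((hasDerivAt_id (1:ℂ)).smul_const (P g₂))
        rw [one_smul] at h
        exact h
      have hF' : HasFDerivAt G (fderiv ℂ G (P g₂)) ((1 : ℂ) • P g₂) := by
        simpa using dG.hasFDerivAt
      refine deriv_mem_of_eventually (hF'.comp_hasDerivAt (1 : ℂ) hl) ?_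
      filter_upwards [D.radialG] with t ht
      obtain ⟨c, hc⟩ := ht
      exact Submodule.mem_span_singleton.2 ⟨c, hc.symm⟩
    obtain ⟨m, hm⟩ := Submodule.mem_span_singleton.1 h1
    exact ⟨m, hm.symm⟩
  obtain ⟨m, hm⟩ := hGr
  obtain ⟨c₁, hc₁⟩ := D.inv.self_of_nhds (P_cone g₁)
  rw [D.hval] at hc₁
  have hc₁0 : c₁ ≠ 0 := by
    rintro rfl
    exact D.ne (by rw [hc₁, zero_smul])
  -- directional derivatives
  have hl := hasDerivAt_one_add ξ
  have hl2 : HasDerivAt (fun t : ℂ => g₁ * ((1 : M2) + t • ξ)) (g₁ * ξ) 0 := hl.const_mul g₁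
  have hN0 : HasFDerivAt (fun g => G (P (p g)))
      ((fderiv ℂ G (P g₂)).comp ((fderiv ℂ P g₂).comp (fderiv ℂ p g₁)))
      (g₁ * ((1 : M2) + (0 : ℂ) • ξ)) := by simpa using hN
  have cN := hN0.comp_hasDerivAt (0 : ℂ) hl2
  have hval : ((fderiv ℂ G (P g₂)).comp ((fderiv ℂ P g₂).comp (fderiv ℂ p g₁))) (g₁ * ξ) =
      (6 * c * m) • G (P g₂) := by
    have h0 : ((fderiv ℂ G (P g₂)).comp ((fderiv ℂ P g₂).comp (fderiv ℂ p g₁))) (g₁ * ξ) =
      fderiv ℂ G (P g₂) (fderiv ℂ P g₂ (fderiv ℂ p g₁ (g₁ * ξ))) := rfl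
    rw [h0, h, hpg, map_smul, map_smul]
    have h3 : fderiv ℂ P g₂ g₂ = (6 : ℂ) • P g₂ := by
      have := fderiv_P g₂ 1
      rw [mul_one] at this
      rw [this, tau_one, map_smul, P]
    rw [h3, map_smul, hm, smul_smul, smul_smul]
    congr 1
    ring
  have cN' : HasDerivAt (fun t : ℂ => G (P (p (g₁ * ((1 : M2) + t • ξ)))))
      ((6 * c * m) • G (P g₂)) 0 := by
    rw [← hval]
    exact cN
  have cP : ∀ i, HasDerivAt (fun t : ℂ => P (g₁ * ((1 : M2) + t • ξ)) i)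
      (rho g₁ (tau ξ) i) 0 := hasDerivAt_P_line g₁ ξ
  have cNi := hasDerivAt_pi.1 cN'
  have hcont : Tendsto (fun t : ℂ => g₁ * ((1 : M2) + t • ξ)) (𝓝 0) (𝓝 g₁) := by
    have h1 : ContinuousAt (fun t : ℂ => g₁ * ((1 : M2) + t • ξ)) 0 := hl2.continuousAt
    have h2 := h1.tendsto
    have z : g₁ * ((1 : M2) + (0 : ℂ) • ξ) = g₁ := by simp
    simp only [z] at h2
    exact h2
  have hev : ∀ᶠ g in 𝓝 g₁, ∃ c : ℂ, G (P (p g)) = c • P g := by
    filter_upwards [hpe, hPc.tendsto.eventually D.inv] with g h1 h2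
    rw [h1]
    exact h2 (P_cone g)
  have hminor : ∀ a b : Fin 7, rho g₁ (tau ξ) a * P g₁ b - rho g₁ (tau ξ) b * P g₁ a = 0 := by
    intro a b
    have h1 := ((cNi a).mul (cP b)).sub ((cNi b).mul (cP a))
    have h2 : HasDerivAt (fun _ : ℂ => (0 : ℂ)) _ 0 := h1.congr_of_eventuallyEq (by
      filter_upwards [hcont.eventually hev] with t ht
      obtain ⟨c', hc'⟩ := ht
      simp only [Pi.sub_apply, Pi.mul_apply]
      rw [hc']
      simp only [Pi.smul_apply, smul_eq_mul]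
      ring)
    have h3 := h2.unique (hasDerivAt_const 0 0)
    have z : g₁ * ((1 : M2) + (0 : ℂ) • ξ) = g₁ := by simp
    simp only [z, hpg, hc₁, Pi.smul_apply, smul_eq_mul] at h3
    apply mul_left_cancel₀ hc₁0
    linear_combination -h3
  have hne := P_ne_zero D.det1
  obtain ⟨b, hb⟩ := Function.ne_iff.1 hne
  simp only [Pi.zero_apply] at hb
  have hpar : rho g₁ (tau ξ) = rho g₁ (tau ((rho g₁ (tau ξ) b / P g₁ b / 6) • 1)) := by
    rw [map_smul, map_smul, tau_one, map_smul, smul_smul]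
    ext a
    have := hminor a b
    have hP : rho g₁ f0 = P g₁ := rfl
    rw [hP]
    simp only [Pi.smul_apply, smul_eq_mul]
    field_simp
    linear_combination this
  exact ⟨_, tau_injective (rho_injective D.det1 hpar)⟩

end Pool.Agent.Lib.MP_6e94a1_ag
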