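import Pool.Agent.Lib.MP_6e94a1_ag.Octa

/-!
# Matrix identities
-/

open scoped LinearAlgebra.Projectivization Topology Matrix.Norms.L2Operator
open Projectivization Filter Set

set_option linter.all false

namespace Pool.Agent.Lib.MP_6e94a1_ag

lemma K_mul_self (i : Fin 3) : K i * K i = 1 := by
  fin_cases i <;> ext a b <;> fin_cases a <;> fin_cases b <;>
    simp [K, Matrix.mul_apply, Fin.sum_univ_two]

lemma K_trace (i : Fin 3) : (K i).trace = 0 := by
  fin_cases i <;> simp [K, Matrix.trace_fin_two]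

lemma K_mul_trace (i j : Fin 3) : (K i * K j).trace = if i = j then 2 else 0 := by
  fin_cases i <;> fin_cases j <;>
    simp [K, Matrix.trace_fin_two, Matrix.mul_apply, Fin.sum_univ_two] <;> norm_num

lemma comm_K01 : K 1 * K 0 - K 0 * K 1 = (2 * Complex.I) • K 2 := by
  ext a b
  fin_cases a <;> fin_cases b <;>
    simp [K, Matrix.mul_apply, Fin.sum_univ_two] <;> ring_nf <;> simp

lemma comm_K12 : K 2 * K 1 - K 1 * K 2 = (2 * Complex.I) • K 0 := by
  ext a b
  fin_cases a <;> fin_cases b <;>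
    simp [K, Matrix.mul_apply, Fin.sum_univ_two] <;> ring_nf <;> simp

lemma comm_K20 : K 0 * K 2 - K 2 * K 0 = (2 * Complex.I) • K 1 := by
  ext a b
  fin_cases a <;> fin_cases b <;>
    simp [K, Matrix.mul_apply, Fin.sum_univ_two] <;> ring_nf <;> simp

lemma comm_abc {a b c : Fin 3} (hab : a ≠ b) (hbc : b ≠ c) (hac : a ≠ c) :
    ∃ s : ℂ, (s = 1 ∨ s = -1) ∧ K b * K a - K a * K b = (2 * Complex.I * s) • K c ∧
      K c * K b - K b * K c = (2 * Complex.I * s) • K a ∧
      K a * K c - K c * K a = (2 * Complex.I * s) • K b ∧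
      K a * K b = (-(Complex.I * s)) • K c := by
  fin_cases a <;> fin_cases b <;> fin_cases c <;> first
    | exact absurd rfl hab
    | exact absurd rfl hbc
    | exact absurd rfl hac
    | (refine ⟨1, Or.inl rfl, ?_, ?_, ?_, ?_⟩ <;> ext i j <;> fin_cases i <;> fin_cases j <;>
        simp [K, Matrix.mul_apply, Fin.sum_univ_two] <;> ring_nf <;> simp <;> done)
    | (refine ⟨-1, Or.inr rfl, ?_, ?_, ?_, ?_⟩ <;> ext i j <;> fin_cases i <;> fin_cases j <;>
        simp [K, Matrix.mul_apply, Fin.sum_univ_two] <;> ring_nf <;> simp <;> done)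

/-- the adjugate, a linear map in size two -/
noncomputable def adjL : M2 →L[ℂ] M2 :=
  LinearMap.toContinuousLinearMap
    { toFun := fun A => A.trace • 1 - A
      map_add' := by
        intro A B
        rw [Matrix.trace_add]
        module
      map_smul' := by
        intro c A
        rw [Matrix.trace_smul]
        simp only [RingHom.id_apply]
        module }

lemma adjL_apply (A : M2) : adjL A = A.trace • 1 - A := rfl

lemma mul_adjL (A : M2) : A * adjL A = A.det • 1 := by
  ext i j
  fin_cases i <;> fin_cases j <;>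
    simp [adjL_apply, Matrix.mul_apply, Matrix.det_fin_two, Matrix.trace_fin_two,
      Fin.sum_univ_two] <;> ring

lemma adjL_mul (A : M2) : adjL A * A = A.det • 1 := by
  ext i j
  fin_cases i <;> fin_cases j <;>
    simp [adjL_apply, Matrix.mul_apply, Matrix.det_fin_two, Matrix.trace_fin_two,
      Fin.sum_univ_two] <;> ring

lemma adjL_mul_rev (A B : M2) : adjL (A * B) = adjL B * adjL A := by
  ext i j
  fin_cases i <;> fin_cases j <;>
    simp [adjL_apply, Matrix.mul_apply, Matrix.det_fin_two, Matrix.trace_fin_two,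
      Fin.sum_univ_two] <;> ring

lemma adjL_K (i : Fin 3) : adjL (K i) = - K i := by
  rw [adjL_apply, K_trace, zero_smul, zero_sub]

lemma K_decomp (ξ : M2) : ∃ x : ℂ, ∃ y : Fin 3 → ℂ, ξ = x • 1 + ∑ i, y i • K i := by
  refine ⟨ξ.trace / 2, ![(ξ 0 0 - ξ 1 1) / 2, (ξ 0 1 + ξ 1 0) / 2,
    (ξ 0 1 - ξ 1 0) / (2 * Complex.I)], ?_⟩
  have hI : Complex.I ≠ 0 := Complex.I_ne_zero
  ext i j
  fin_cases i <;> fin_cases j <;>
    simp [K, Fin.sum_univ_three, Matrix.trace_fin_two, Matrix.add_apply] <;> field_simp <;> ring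

end Pool.Agent.Lib.MP_6e94a1_ag
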