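import Pool.Agent.Lib.MP_6e94a1_ag.Local2
import Pool.Agent.Lib.MP_6e94a1_ag.Pauli

/-!
# The local theorem, second half: the structure equation
-/

open scoped LinearAlgebra.Projectivization Topology Matrix.Norms.L2Operator
open Projectivization Filter Set

set_option linter.all false

namespace Pool.Agent.Lib.MP_6e94a1_ag

/-- trace as a continuous linear map -/
noncomputable def trL : M2 →L[ℂ] ℂ :=
  LinearMap.toContinuousLinearMap (Matrix.traceLinearMap (Fin 2) ℂ ℂ)

lemma trL_apply (A : M2) : trL A = A.trace := rfl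

/-- coefficient functions -/
noncomputable def coefA (p : M2 → M2) (i : Fin 3) (g : M2) : ℂ :=
  trL (adjL (p g) * fderiv ℂ p g (g * K i)) / (2 * (p g).det)

noncomputable def coefB (p : M2 → M2) (X : M2) (i : Fin 3) (g : M2) : ℂ :=
  trL (X * (adjL (p g) * fderiv ℂ p g (g * K i))) / (2 * (p g).det)

lemma contDiff_det : ContDiff ℂ ⊤ (fun g : M2 => g.det) := by
  simp only [Matrix.det_fin_two]
  exact ((contDiff_entry 0 0).mul (contDiff_entry 1 1)).sub
    ((contDiff_entry 0 1).mul (contDiff_entry 1 0))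

lemma coefB_contDiffAt {p : M2 → M2} {g : M2} (hp : ContDiffAt ℂ 2 p g) (hdet : (p g).det ≠ 0)
    (X : M2) (i : Fin 3) : ContDiffAt ℂ 1 (coefB p X i) g := by
  have h1 : ContDiffAt ℂ 1 (fderiv ℂ p) g := hp.fderiv_right (by norm_num)
  have h2 : ContDiffAt ℂ 1 (fun g : M2 => g * K i) g :=
    (contDiff_id.mul contDiff_const).contDiffAt
  have h3 : ContDiffAt ℂ 1 (fun g : M2 => fderiv ℂ p g (g * K i)) g := h1.clm_apply h2
  have hp1 : ContDiffAt ℂ 1 p g := hp.of_le (by norm_num)
  have h4 : ContDiffAt ℂ 1 (fun g : M2 => adjL (p g)) g :=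
    (adjL.contDiff.contDiffAt (x := p g)).comp g hp1
  have h5 : ContDiffAt ℂ 1 (fun g : M2 => X * (adjL (p g) * fderiv ℂ p g (g * K i))) g :=
    contDiffAt_const.mul (h4.mul h3)
  have h6 : ContDiffAt ℂ 1 (fun g : M2 => trL (X * (adjL (p g) * fderiv ℂ p g (g * K i)))) g :=
    (trL.contDiff.contDiffAt).comp g h5
  have h7 : ContDiffAt ℂ 1 (fun g : M2 => 2 * (p g).det) g :=
    contDiffAt_const.mul (((contDiff_det.of_le le_top).contDiffAt (x := p g)).comp g hp1)
  exact h6.div h7 (mul_ne_zero two_ne_zero hdet)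

lemma coefA_eq (p : M2 → M2) (i : Fin 3) : coefA p i = coefB p 1 i := by
  ext g
  simp [coefA, coefB]

lemma coefB_eq {p : M2 → M2} {g : M2} (hdet : (p g).det ≠ 0) {i j k : Fin 3} {α β : ℂ}
    (h : fderiv ℂ p g (g * K i) = p g * (α • 1 + β • K j)) :
    coefB p (K k) i g = if k = j then β else 0 := by
  rw [coefB, h, ← mul_assoc (adjL (p g)), adjL_mul]
  have : K k * ((p g).det • (1 : M2) * (α • 1 + β • K j)) =
      (p g).det • (α • K k + β • (K k * K j)) := by
    rw [smul_mul_assoc, one_mul, mul_smul_comm, mul_add, mul_smul_comm, mul_smul_comm, mul_one]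
  rw [this, map_smul, map_add, map_smul, map_smul, trL_apply, trL_apply, K_trace, K_mul_trace]
  split_ifs with hkj
  · simp
    field_simp
  · simp

lemma coefA_eq' {p : M2 → M2} {g : M2} (hdet : (p g).det ≠ 0) {i j : Fin 3} {α β : ℂ}
    (h : fderiv ℂ p g (g * K i) = p g * (α • 1 + β • K j)) :
    coefA p i g = α := by
  rw [coefA, h, ← mul_assoc (adjL (p g)), adjL_mul]
  have : ((p g).det • (1 : M2) * (α • 1 + β • K j)) =
      (p g).det • (α • 1 + β • (K j)) := by
    rw [smul_mul_assoc, one_mul]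
  rw [this, map_smul, map_add, map_smul, map_smul, trL_apply, trL_apply, K_trace]
  simp
  field_simp

/-- Directional derivative of the structure relation. -/
lemma struct_deriv {p : M2 → M2} {g : M2} (hp : ContDiffAt ℂ 2 p g) (hdet : (p g).det ≠ 0)
    {i j : Fin 3} {X : M2}
    (h : ∀ᶠ g' in 𝓝 g, fderiv ℂ p g' (g' * K i) =
      p g' * (coefA p i g' • 1 + coefB p X i g' • X)) :
    ∃ x y : ℂ, fderiv ℂ (fderiv ℂ p) g (g * K j) (g * K i) + fderiv ℂ p g (g * (K j * K i)) =
      fderiv ℂ p g (g * K j) * (coefA p i g • 1 + coefB p X i g • X) + p g * (x • 1 + y • X) := by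
  have hl := hasDerivAt_one_add (K j)
  have hl2 : HasDerivAt (fun t : ℂ => g * ((1 : M2) + t • K j)) (g * K j) 0 := hl.const_mul g
  have z : g * ((1 : M2) + (0 : ℂ) • K j) = g := by simp
  have hcont : Tendsto (fun t : ℂ => g * ((1 : M2) + t • K j)) (𝓝 0) (𝓝 g) := by
    have h1 : ContinuousAt (fun t : ℂ => g * ((1 : M2) + t • K j)) 0 := hl2.continuousAt
    have h2 := h1.tendsto
    simp only [z] at h2
    exact h2
  have dp : DifferentiableAt ℂ p g := hp.differentiableAt (by norm_num)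
  have ddp : DifferentiableAt ℂ (fderiv ℂ p) g :=
    (hp.fderiv_right (m := 1) (by norm_num)).differentiableAt (by norm_num)
  have dA : DifferentiableAt ℂ (coefA p i) g := by
    rw [coefA_eq]
    exact (coefB_contDiffAt hp hdet 1 i).differentiableAt (by norm_num)
  have dB : DifferentiableAt ℂ (coefB p X i) g :=
    (coefB_contDiffAt hp hdet X i).differentiableAt (by norm_num)
  -- compositions
  have c1 : HasDerivAt (fun t : ℂ => fderiv ℂ p (g * ((1 : M2) + t • K j)))
      (fderiv ℂ (fderiv ℂ p) g (g * K j)) 0 := by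
    have h0 : HasFDerivAt (fderiv ℂ p) (fderiv ℂ (fderiv ℂ p) g)
      (g * ((1 : M2) + (0 : ℂ) • K j)) := by rw [z]; exact ddp.hasFDerivAt
    exact HasFDerivAt.comp_hasDerivAt (l := fderiv ℂ p) (l' := fderiv ℂ (fderiv ℂ p) g)
      (0 : ℂ) h0 hl2
  have c2 : HasDerivAt (fun t : ℂ => (g * ((1 : M2) + t • K j)) * K i) (g * K j * K i) 0 :=
    hl2.mul_const (K i)
  have c3 := c1.clm_apply c2
  have c4 : HasDerivAt (fun t : ℂ => p (g * ((1 : M2) + t • K j)))
      (fderiv ℂ p g (g * K j)) 0 := by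
    have h0 : HasFDerivAt p (fderiv ℂ p g)
      (g * ((1 : M2) + (0 : ℂ) • K j)) := by rw [z]; exact dp.hasFDerivAt
    exact h0.comp_hasDerivAt (0 : ℂ) hl2
  have c5 : HasDerivAt (fun t : ℂ => coefA p i (g * ((1 : M2) + t • K j)))
      (fderiv ℂ (coefA p i) g (g * K j)) 0 := by
    have h0 : HasFDerivAt (coefA p i) (fderiv ℂ (coefA p i) g)
      (g * ((1 : M2) + (0 : ℂ) • K j)) := by rw [z]; exact dA.hasFDerivAt
    exact h0.comp_hasDerivAt (0 : ℂ) hl2
  have c6 : HasDerivAt (fun t : ℂ => coefB p X i (g * ((1 : M2) + t • K j)))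
      (fderiv ℂ (coefB p X i) g (g * K j)) 0 := by
    have h0 : HasFDerivAt (coefB p X i) (fderiv ℂ (coefB p X i) g)
      (g * ((1 : M2) + (0 : ℂ) • K j)) := by rw [z]; exact dB.hasFDerivAt
    exact h0.comp_hasDerivAt (0 : ℂ) hl2
  have c7 := c4.mul ((c5.smul_const (1 : M2)).add (c6.smul_const X))
  have c8 := c7.congr_of_eventuallyEq
    (f₁ := fun t : ℂ => (fderiv ℂ p (g * ((1 : M2) + t • K j))) ((g * ((1 : M2) + t • K j)) * K i))
    (by
      filter_upwards [hcont.eventually h] with t ht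
      exact ht)
  have c9 := c3.unique c8
  refine ⟨fderiv ℂ (coefA p i) g (g * K j), fderiv ℂ (coefB p X i) g (g * K j), ?_⟩
  simp only [Pi.add_apply, z, mul_assoc] at c9
  exact c9

/-- The structure relations for the coefficients. -/
lemma struct_rel {p : M2 → M2} {g : M2} (hp : ContDiffAt ℂ 2 p g) (hdet : (p g).det ≠ 0)
    (hg : g.det ≠ 0) {σ : Fin 3 → Fin 3}
    (h : ∀ i, ∀ᶠ g' in 𝓝 g, fderiv ℂ p g' (g' * K i) =
      p g' * (coefA p i g' • 1 + coefB p (K (σ i)) i g' • K (σ i)))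
    {i j k : Fin 3} {s : ℂ} (hK : K j * K i - K i * K j = (2 * Complex.I) • K k)
    (hσ : K (σ j) * K (σ i) - K (σ i) * K (σ j) = (2 * Complex.I * s) • K (σ k))
    (hki : σ k ≠ σ i) (hkj : σ k ≠ σ j) :
    coefB p (K (σ k)) k g = s * (coefB p (K (σ i)) i g * coefB p (K (σ j)) j g) := by
  obtain ⟨x, y, h1⟩ := struct_deriv hp hdet (j := j) (h i)
  obtain ⟨x', y', h2⟩ := struct_deriv hp hdet (j := i) (h j)
  have hsymm : IsSymmSndFDerivAt ℂ p g := hp.isSymmSndFDerivAt (by simp)
  have h3 := hsymm (g * K j) (g * K i)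
  have hi := (h i).self_of_nhds
  have hj := (h j).self_of_nhds
  have hk := (h k).self_of_nhds
  set αi := coefA p i g
  set αj := coefA p j g
  set αk := coefA p k g
  set βi := coefB p (K (σ i)) i g
  set βj := coefB p (K (σ j)) j g
  set βk := coefB p (K (σ k)) k g
  have h4 : fderiv ℂ p g (g * (K j * K i)) - fderiv ℂ p g (g * (K i * K j)) =
      p g * ((αj • 1 + βj • K (σ j)) * (αi • 1 + βi • K (σ i)) -
        (αi • 1 + βi • K (σ i)) * (αj • 1 + βj • K (σ j)) + ((x - x') • 1 + y • K (σ i) -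
        y' • K (σ j))) := by
    rw [hj] at h1
    rw [hi] at h2
    have e1 := congrArg₂ (fun a b => a - b) h1 h2
    rw [h3] at e1
    have e2 : ∀ a b c : M2, (a + b) - (a + c) = b - c := by intro a b c; abel
    rw [e2] at e1
    rw [e1]
    simp only [mul_add, mul_sub, mul_assoc, sub_smul, add_mul]
    abel
  have h5 : fderiv ℂ p g (g * (K j * K i)) - fderiv ℂ p g (g * (K i * K j)) =
      p g * ((2 * Complex.I) • (αk • 1 + βk • K (σ k))) := by
    rw [← map_sub, ← mul_sub, hK, mul_smul_comm, map_smul, hk, mul_smul_comm]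
  rw [h5] at h4
  have h6 : ((2 * Complex.I) • (αk • 1 + βk • K (σ k))) =
      ((αj • 1 + βj • K (σ j)) * (αi • 1 + βi • K (σ i)) -
        (αi • 1 + βi • K (σ i)) * (αj • 1 + βj • K (σ j)) + ((x - x') • 1 + y • K (σ i) -
        y' • K (σ j))) := by
    have hu : IsUnit (p g).det := isUnit_iff_ne_zero.2 hdet
    have := congrArg (fun X => (p g)⁻¹ * X) h4
    simp only [← mul_assoc, Matrix.nonsing_inv_mul _ hu, one_mul] at this
    exact this
  have h7 : ((αj • (1 : M2) + βj • K (σ j)) * (αi • 1 + βi • K (σ i)) -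
        (αi • 1 + βi • K (σ i)) * (αj • 1 + βj • K (σ j))) =
        (βi * βj * (2 * Complex.I * s)) • K (σ k) := by
    have e1 : ((αj • (1 : M2) + βj • K (σ j)) * (αi • 1 + βi • K (σ i)) -
        (αi • 1 + βi • K (σ i)) * (αj • 1 + βj • K (σ j))) =
        (βi * βj) • (K (σ j) * K (σ i) - K (σ i) * K (σ j)) := by
      simp only [add_mul, mul_add, smul_mul_assoc, mul_smul_comm, one_mul, mul_one, smul_add,
        smul_sub, smul_smul]
      module
    rw [e1, hσ, smul_smul]
  rw [h7] at h6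
  have h8 := congrArg (fun X => trL (K (σ k) * X)) h6
  simp only [mul_add, mul_sub, mul_smul_comm, smul_add, smul_sub, map_add, map_sub, map_smul, mul_one,
    trL_apply, K_trace, K_mul_trace, if_neg hki, if_neg hkj, if_true, smul_eq_mul] at h8
  have hI : Complex.I ≠ 0 := Complex.I_ne_zero
  apply mul_left_cancel₀ (mul_ne_zero (mul_ne_zero two_ne_zero hI) two_ne_zero)
  linear_combination h8

end Pool.Agent.Lib.MP_6e94a1_ag
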