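import Pool.Agent.Lib.MP_6e94a1_ag.Local3

/-!
# The local theorem
-/

open scoped LinearAlgebra.Projectivization Topology Matrix.Norms.L2Operator
open Projectivization Filter Set

set_option linter.all false

namespace Pool.Agent.Lib.MP_6e94a1_ag

/-- signs of the coefficients -/
lemma sq_eq_one_of_rel {a b c s : ℂ} (hs : s = 1 ∨ s = -1) (ha : a ≠ 0) (hb : b ≠ 0)
    (h2 : c = s * (a * b)) (h0 : a = s * (b * c)) (h1 : b = s * (c * a)) :
    a * a = 1 ∧ b * b = 1 ∧ c * c = 1 := by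
  have hss : s * s = 1 := by rcases hs with rfl | rfl <;> norm_num
  have hbb : b * b = 1 := by
    apply mul_left_cancel₀ ha
    rw [h2] at h0
    linear_combination (-1 : ℂ) * h0 - a * b * b * hss
  have haa : a * a = 1 := by
    apply mul_left_cancel₀ hb
    rw [h2] at h1
    linear_combination (-1 : ℂ) * h1 - a * a * b * hss
  refine ⟨haa, hbb, ?_⟩
  rw [h2]
  linear_combination (a * a * b * b) * hss + b * b * haa + hbb

/-- first normal form of the derivative of the lift -/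
lemma normal_form {F G : (Fin 7 → ℂ) → (Fin 7 → ℂ)} {g₁ g₂ : M2} (D : LocalData F G g₁ g₂)
    {p : M2 → M2} (hp : ContDiffAt ℂ 2 p g₁) (hpg : p g₁ = g₂)
    (hpe : ∀ᶠ g in 𝓝 g₁, P (p g) = F (P g)) :
    ∃ (σ : Fin 3 → Fin 3) (ε : Fin 3 → ℂ) (s : ℂ), Function.Injective σ ∧
      (s = 1 ∨ s = -1) ∧ (∀ i, ε i = 1 ∨ ε i = -1) ∧ ε 2 = s * (ε 0 * ε 1) ∧
      K (σ 0) * K (σ 1) = (-(Complex.I * s)) • K (σ 2) ∧
      ∀ᶠ g in 𝓝 g₁, ∀ i, ∃ α : ℂ,
        fderiv ℂ p g (g * K i) = p g * (α • 1 + ε i • K (σ i)) := by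
  have hdet : ∀ᶠ g in 𝓝 g₁, (p g).det ≠ 0 :=
    det_eventually_ne hp.continuousAt (by rw [hpg]; exact D.det2)
  have hgdet : ∀ᶠ g in 𝓝 g₁, g.det ≠ 0 :=
    det_eventually_ne (p := id) continuousAt_id D.det1
  have hL := lift_lines D hp hpg hpe
  -- choice of the permutation at `g₁`
  have hL1 := hL.self_of_nhds
  have hdet1 := hdet.self_of_nhds
  choose σ α β hσ using hL1
  have hβ0 : ∀ i, β i ≠ 0 := by
    intro i hi
    have h1 := hσ i
    rw [hi, zero_smul, add_zero, mul_smul_comm, mul_one] at h1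
    obtain ⟨d, hd⟩ := lift_inj D hp hpg hpe h1
    have h2 := K_mul_trace i i
    rw [hd] at h2
    have h3 := K_trace i
    rw [hd] at h3
    simp [Matrix.trace_fin_two] at h2 h3
    subst h3
    simp at h2
  have hinj : Function.Injective σ := by
    intro i j hij
    by_contra hne
    have h1 : fderiv ℂ p g₁ (g₁ * (β j • K i - β i • K j)) =
        (β j * α i - β i * α j) • p g₁ := by
      rw [mul_sub, mul_smul_comm, mul_smul_comm, map_sub, map_smul, map_smul, hσ i, hσ j, hij]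
      simp only [mul_add, mul_smul_comm, mul_one, smul_add, smul_smul]
      module
    obtain ⟨d, hd⟩ := lift_inj D hp hpg hpe h1
    have h2 := congrArg (fun X => trL (K i * X)) hd
    have h3 := congrArg (fun X => trL X) hd
    simp only [mul_sub, mul_smul_comm, map_sub, map_smul, trL_apply, K_mul_trace, if_neg hne,
      if_true, mul_one, K_trace, smul_eq_mul, mul_zero, sub_zero] at h2
    have := hβ0 j
    rcases mul_eq_zero.1 h2 with h | h
    · exact this h
    · norm_num at h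
  -- near `g₁`
  have hB0 : ∀ i, ∀ᶠ g in 𝓝 g₁, coefB p (K (σ i)) i g ≠ 0 := by
    intro i
    have h1 : ContinuousAt (coefB p (K (σ i)) i) g₁ :=
      (coefB_contDiffAt hp hdet1 _ i).continuousAt
    apply h1.tendsto.eventually_ne
    rw [coefB_eq hdet1 (hσ i), if_pos rfl]
    exact hβ0 i
  have hform : ∀ i, ∀ᶠ g in 𝓝 g₁, fderiv ℂ p g (g * K i) =
      p g * (coefA p i g • 1 + coefB p (K (σ i)) i g • K (σ i)) := by
    intro i
    filter_upwards [hL, hB0 i, hdet] with g hg hB hd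
    obtain ⟨j, a, b, hab⟩ := hg i
    have e1 := coefB_eq (k := σ i) hd hab
    have e2 := coefA_eq' hd hab
    by_cases hj : σ i = j
    · rw [if_pos hj] at e1
      rw [e1, e2, hj]
      exact hab
    · rw [if_neg hj] at e1
      exact absurd e1 hB
  have h01 : σ 0 ≠ σ 1 := fun h => by simpa using hinj h
  have h12 : σ 1 ≠ σ 2 := fun h => by simpa using hinj h
  have h02 : σ 0 ≠ σ 2 := fun h => by simpa using hinj h
  obtain ⟨s, hs, c1, c2, c3, c4⟩ := comm_abc h01 h12 h02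
  have hform' : ∀ᶠ g in 𝓝 g₁, ∀ i, ∀ᶠ g' in 𝓝 g, fderiv ℂ p g' (g' * K i) =
      p g' * (coefA p i g' • 1 + coefB p (K (σ i)) i g' • K (σ i)) := by
    rw [eventually_all]
    intro i
    exact eventually_eventually_nhds.2 (hform i)
  have hpC : ∀ᶠ g in 𝓝 g₁, ContDiffAt ℂ 2 p g := hp.eventually (by simp)
  have hrel : ∀ᶠ g in 𝓝 g₁,
      coefB p (K (σ 2)) 2 g = s * (coefB p (K (σ 0)) 0 g * coefB p (K (σ 1)) 1 g) ∧
      coefB p (K (σ 0)) 0 g = s * (coefB p (K (σ 1)) 1 g * coefB p (K (σ 2)) 2 g) ∧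
      coefB p (K (σ 1)) 1 g = s * (coefB p (K (σ 2)) 2 g * coefB p (K (σ 0)) 0 g) := by
    filter_upwards [hform', hpC, hdet, hgdet] with g h1 h2 h3 h4
    refine ⟨?_, ?_, ?_⟩
    · exact struct_rel h2 h3 h4 h1 comm_K01 c1 h02.symm h12.symm
    · exact struct_rel h2 h3 h4 h1 comm_K12 c2 h01 h02
    · exact struct_rel h2 h3 h4 h1 comm_K20 c3 h12 h01.symm
  have hsq : ∀ᶠ g in 𝓝 g₁, ∀ i, coefB p (K (σ i)) i g * coefB p (K (σ i)) i g = 1 := by
    filter_upwards [hrel, hB0 0, hB0 1] with g h1 h2 h3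
    obtain ⟨r2, r0, r1⟩ := h1
    obtain ⟨q0, q1, q2⟩ := sq_eq_one_of_rel hs h2 h3 r2 r0 r1
    intro i
    fin_cases i
    · exact q0
    · exact q1
    · exact q2
  -- local constancy
  set ε : Fin 3 → ℂ := fun i => coefB p (K (σ i)) i g₁ with hε
  have hε1 : ∀ i, ε i = 1 ∨ ε i = -1 := fun i => mul_self_eq_one_iff.1 (hsq.self_of_nhds i)
  have hconst : ∀ i, ∀ᶠ g in 𝓝 g₁, coefB p (K (σ i)) i g = ε i := by
    intro i
    have h1 : ContinuousAt (coefB p (K (σ i)) i) g₁ :=
      (coefB_contDiffAt hp hdet1 _ i).continuousAt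
    have h2 : ∀ᶠ g in 𝓝 g₁, coefB p (K (σ i)) i g ≠ - ε i := by
      apply h1.tendsto.eventually_ne
      intro h
      have h3 : ε i = - ε i := h
      rcases hε1 i with h4 | h4 <;> rw [h4] at h3 <;> norm_num at h3
    filter_upwards [h2, hsq] with g h3 h4
    rcases mul_self_eq_one_iff.1 (h4 i) with h5 | h5 <;> rcases hε1 i with h6 | h6
    · rw [h5, h6]
    · exact absurd (by rw [h5, h6]; norm_num) h3
    · exact absurd (by rw [h5, h6]) h3
    · rw [h5, h6]
  refine ⟨σ, ε, s, hinj, hs, hε1, (hrel.self_of_nhds).1, c4, ?_⟩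
  filter_upwards [eventually_all.2 hform, eventually_all.2 hconst] with g h1 h2 i
  refine ⟨coefA p i g, ?_⟩
  rw [← h2 i]
  exact h1 i

/-- The lift is, near `g₁`, a left translation followed by a right multiplication, up to scalars. -/
lemma lift_eq {F G : (Fin 7 → ℂ) → (Fin 7 → ℂ)} {g₁ g₂ : M2} (D : LocalData F G g₁ g₂)
    {p : M2 → M2} (hp : ContDiffAt ℂ 2 p g₁) (hpg : p g₁ = g₂)
    (hpe : ∀ᶠ g in 𝓝 g₁, P (p g) = F (P g)) :
    ∃ (w h : M2) (cw : ℂ), w.det ≠ 0 ∧ P w = cw • f0 ∧ h.det ≠ 0 ∧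
      ∀ᶠ g in 𝓝 g₁, ∃ κ : ℂ, p g * w = κ • (h * g) := by
  obtain ⟨σ, ε, s, hinj, hs, hε, hε2, hKK, hform⟩ := normal_form D hp hpg hpe
  have h01 : σ 0 ≠ σ 1 := fun h => by simpa using hinj h
  obtain ⟨w, hw, ⟨cw, hcw⟩, hw0, hw1⟩ := exists_good h01 (hε 0) (hε 1)
  have hss : s * s = 1 := by rcases hs with rfl | rfl <;> norm_num
  have hw2 : w * K 2 = ε 2 • (K (σ 2) * w) := by
    have e1 : K 2 = Complex.I • (K 0 * K 1) := by
      ext a b
      fin_cases a <;> fin_cases b <;> simp [K, Matrix.mul_apply, Fin.sum_univ_two]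
    rw [e1, mul_smul_comm, ← mul_assoc, hw0, smul_mul_assoc, mul_assoc, hw1, mul_smul_comm,
      ← mul_assoc, hKK, smul_mul_assoc, smul_smul, smul_smul, smul_smul, hε2]
    congr 1
    have hI : Complex.I * Complex.I = -1 := Complex.I_mul_I
    linear_combination (-(ε 0 * ε 1 * s)) * hI
  have hwi : ∀ i, w * K i = ε i • (K (σ i) * w) := by
    intro i
    fin_cases i
    · exact hw0
    · exact hw1
    · exact hw2
  have hgdet : ∀ᶠ g in 𝓝 g₁, g.det ≠ 0 :=
    det_eventually_ne (p := id) continuousAt_id D.det1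
  have hpC : ∀ᶠ g in 𝓝 g₁, ContDiffAt ℂ 2 p g := hp.eventually (by simp)
  -- the function `N`
  set N : M2 → M2 := fun g => p g * w * adjL g with hN
  have hNd : ∀ᶠ g in 𝓝 g₁, DifferentiableAt ℂ N g ∧
      ∀ η, ∃ c : ℂ, fderiv ℂ N g η = c • N g := by
    filter_upwards [hform, hgdet, hpC, lift_radial D hp hpg hpe] with g h1 h2 h3 h4
    have dp : DifferentiableAt ℂ p g := h3.differentiableAt (by norm_num)
    have d1 : HasFDerivAt (fun g : M2 => adjL g) adjL g := adjL.hasFDerivAt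
    have d2 : HasFDerivAt (fun g => p g * w) _ g := dp.hasFDerivAt.mul_const' w
    have d3 := d2.mul' d1
    have d4 : DifferentiableAt ℂ N g := d3.differentiableAt
    have hfd : ∀ η, fderiv ℂ N g η = p g * w * adjL η + fderiv ℂ p g η * w * adjL g := by
      intro η
      have h5 : fderiv ℂ N g = _ := d3.fderiv
      rw [h5]
      simp [smul_mul_assoc]
    refine ⟨d4, ?_⟩
    have hKi : ∀ i, ∃ c : ℂ, fderiv ℂ N g (g * K i) = c • N g := by
      intro i
      obtain ⟨α, hα⟩ := h1 i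
      refine ⟨α, ?_⟩
      rw [hfd, hα, adjL_mul_rev, adjL_K]
      have e1 : p g * (α • 1 + ε i • K (σ i)) * w = α • (p g * w) + p g * (w * K i) := by
        rw [hwi i, mul_add, add_mul, mul_smul_comm, mul_one, smul_mul_assoc, mul_smul_comm,
          smul_mul_assoc, mul_smul_comm, mul_assoc (p g)]
      rw [e1, add_mul, smul_mul_assoc, hN]
      simp only [neg_mul, mul_neg, mul_assoc]
      abel
    have hone : ∃ c : ℂ, fderiv ℂ N g g = c • N g := by
      obtain ⟨α, hα⟩ := h4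
      refine ⟨α + 1, ?_⟩
      rw [hfd, hα, hN]
      simp only [smul_mul_assoc, add_smul, one_smul]
      abel
    intro η
    have hu : IsUnit g.det := isUnit_iff_ne_zero.2 h2
    obtain ⟨x, y, hxy⟩ := K_decomp (g⁻¹ * η)
    have e1 : η = g * (x • 1 + ∑ i, y i • K i) := by
      rw [← hxy, ← mul_assoc, Matrix.mul_nonsing_inv _ hu, one_mul]
    choose c hc using hKi
    obtain ⟨c0, hc0⟩ := hone
    refine ⟨x * c0 + ∑ i, y i * c i, ?_⟩
    rw [e1, mul_add, mul_smul_comm, mul_one, Finset.mul_sum, map_add, map_smul, map_sum, hc0,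
      add_smul, Finset.sum_smul, smul_smul]
    congr 1
    apply Finset.sum_congr rfl
    intro i _
    rw [mul_smul_comm, map_smul, hc, smul_smul]
  -- a nonzero entry of `N g₁`
  have hN1det : (N g₁).det ≠ 0 := by
    have e1 : (N g₁).det = (p g₁).det * w.det * (adjL g₁).det := by
      simp only [hN, Matrix.det_mul]
    have e2 : (adjL g₁).det = g₁.det := by
      simp [adjL_apply, Matrix.det_fin_two, Matrix.trace_fin_two]
      ring
    rw [e1, e2, hpg]
    exact mul_ne_zero (mul_ne_zero D.det2 hw) D.det1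
  have hN1 : N g₁ ≠ 0 := by
    intro h
    rw [h] at hN1det
    simp [Matrix.det_fin_two] at hN1det
  obtain ⟨a, b, hab⟩ : ∃ a b, N g₁ a b ≠ 0 := by
    by_contra hcon
    push Not at hcon
    exact hN1 (by ext a b; simp [hcon a b])
  -- entries as continuous linear maps
  let ent : Fin 2 → Fin 2 → (M2 →L[ℂ] ℂ) := fun c d =>
    LinearMap.toContinuousLinearMap (Matrix.entryLinearMap ℂ ℂ c d : M2 →ₗ[ℂ] ℂ)
  have hent : ∀ c d A, ent c d A = A c d := by
    intro c d A
    simp [ent]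
  have hNcont : ContinuousAt N g₁ := (hNd.self_of_nhds).1.continuousAt
  have hne : ∀ᶠ g in 𝓝 g₁, N g a b ≠ 0 := by
    have h1 : ContinuousAt (fun g => ent a b (N g)) g₁ :=
      (ent a b).continuous.continuousAt.comp hNcont
    have h2 := h1.tendsto.eventually_ne (by rw [hent]; exact hab : ent a b (N g₁) ≠ 0)
    filter_upwards [h2] with g hg
    rwa [hent] at hg
  obtain ⟨r, hr, hball⟩ := Metric.eventually_nhds_iff_ball.1 (hNd.and hne)
  have hconst : ∀ c d, ∀ g ∈ Metric.ball g₁ r, N g c d / N g a b = N g₁ c d / N g₁ a b := by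
    intro c d g hg
    set R : M2 → ℂ := fun g => ent c d (N g) * (ent a b (N g))⁻¹ with hR
    have hd : ∀ g ∈ Metric.ball g₁ r, HasFDerivAt R (0 : M2 →L[ℂ] ℂ) g := by
      intro g hg
      obtain ⟨⟨d1, d2⟩, d3⟩ := hball g hg
      have e1 : HasFDerivAt (fun g => ent c d (N g)) ((ent c d).comp (fderiv ℂ N g)) g :=
        (ent c d).hasFDerivAt.comp g d1.hasFDerivAt
      have e2 : HasFDerivAt (fun g => ent a b (N g)) ((ent a b).comp (fderiv ℂ N g)) g :=
        (ent a b).hasFDerivAt.comp g d1.hasFDerivAt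
      have d3' : ent a b (N g) ≠ 0 := by rw [hent]; exact d3
      have e2' := (hasDerivAt_inv d3').comp_hasFDerivAt g e2
      have e3 := e1.mul e2'
      have e4 : (0 : M2 →L[ℂ] ℂ) = ent c d (N g) • (-(ent a b (N g) ^ 2)⁻¹ • (ent a b).comp
        (fderiv ℂ N g)) + (ent a b (N g))⁻¹ • (ent c d).comp (fderiv ℂ N g) := by
        ext η
        obtain ⟨k, hk⟩ := d2 η
        simp only [ContinuousLinearMap.zero_apply, ContinuousLinearMap.smul_apply,
          ContinuousLinearMap.add_apply, ContinuousLinearMap.comp_apply, hk, map_smul,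
          smul_eq_mul]
        field_simp
        ring
      rw [e4]
      exact e3
    have h0 : ∀ g ∈ Metric.ball g₁ r, fderiv ℂ R g = 0 := fun g hg => (hd g hg).fderiv
    have h1 : R g = R g₁ := by
      have hdo : DifferentiableOn ℂ R (Metric.ball g₁ r) := fun g hg =>
        (hd g hg).differentiableAt.differentiableWithinAt
      have := (convex_ball g₁ r).is_const_of_fderivWithin_eq_zero (𝕜 := ℂ) hdo (by
        intro x hx
        rw [fderivWithin_of_isOpen Metric.isOpen_ball hx]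
        exact h0 x hx) hg (Metric.mem_ball_self hr)
      exact this
    simpa [hR, hent, div_eq_mul_inv] using h1
  refine ⟨w, (N g₁ a b)⁻¹ • N g₁, cw, hw, hcw, ?_, ?_⟩
  · rw [Matrix.det_smul]
    exact mul_ne_zero (pow_ne_zero _ (inv_ne_zero hab)) hN1det
  · filter_upwards [Metric.ball_mem_nhds g₁ hr, hgdet, hne] with g hg hgd hne'
    refine ⟨N g a b / g.det, ?_⟩
    have e1 : N g = N g a b • ((N g₁ a b)⁻¹ • N g₁) := by
      ext c d
      have := hconst c d g hg
      simp only [Matrix.smul_apply, smul_eq_mul]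
      field_simp at this ⊢
      linear_combination this
    have e2 : N g * g = g.det • (p g * w) := by
      simp only [hN]
      rw [mul_assoc, adjL_mul, mul_smul_comm, mul_one]
    have e3 : p g * w = g.det⁻¹ • (N g * g) := by
      rw [e2, smul_smul, inv_mul_cancel₀ hgd, one_smul]
    rw [e3]
    conv_lhs => rw [e1]
    rw [smul_mul_assoc, smul_smul]
    congr 1
    field_simp

/-- **Local theorem.** -/
theorem local_theorem {F G : (Fin 7 → ℂ) → (Fin 7 → ℂ)} {g₁ g₂ : M2}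
    (D : LocalData F G g₁ g₂) :
    ∃ h : M2, h.det ≠ 0 ∧ ∀ᶠ v in 𝓝 (P g₁), Cone v → ∃ c : ℂ, F v = c • rho h v := by
  obtain ⟨p, hp, hpg, hpe⟩ := exists_lift D
  obtain ⟨w, h, cw, hw, hcw, hh, hlift⟩ := lift_eq D hp hpg hpe
  have hcw0 : cw ≠ 0 := by
    rintro rfl
    rw [zero_smul] at hcw
    exact P_ne_zero hw hcw
  refine ⟨h, hh, ?_⟩
  obtain ⟨S, hS, hSg, hSr, hSl⟩ := exists_local_inverse D.det1 D.a01
  have hkc : Continuous kap := kap.continuous_of_finiteDimensional
  have hSc : Tendsto (fun v => S (kap v)) (𝓝 (P g₁)) (𝓝 g₁) := by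
    have h1 : ContinuousAt S (kap (P g₁)) := hS.continuousAt
    have h2 := h1.tendsto.comp (hkc.tendsto (P g₁))
    rwa [hSg] at h2
  have hne : ∀ᶠ v : Fin 7 → ℂ in 𝓝 (P g₁), v 0 ≠ 0 :=
    ((continuous_apply 0).tendsto (P g₁)).eventually_ne D.a01
  filter_upwards [hSc.eventually (hlift.and hpe), (hkc.tendsto (P g₁)).eventually hSr, hne]
    with v hv hkv hv0 hcv
  obtain ⟨⟨κ, hκ⟩, hpv⟩ := hv
  have hPv : P (S (kap v)) = v := (cone_ext hcv (P_cone _) hv0 hkv.symm).symm
  rw [hPv] at hpv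
  have e1 : P (p (S (kap v)) * w) = cw • F v := by
    rw [P_mul, hcw, map_smul]
    congr 1
  have e2 : P (p (S (kap v)) * w) = κ ^ 6 • rho h v := by
    rw [hκ, P, rho_smul, rho_mul]
    congr 2
  refine ⟨cw⁻¹ * κ ^ 6, ?_⟩
  rw [e1] at e2
  rw [mul_smul, ← e2, smul_smul, inv_mul_cancel₀ hcw0, one_smul]

end Pool.Agent.Lib.MP_6e94a1_ag
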