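import Pool.Agent.Lib.MP_6e94a1_ag.Orbit

/-!
# The octahedral group acts on the axes
-/

open scoped LinearAlgebra.Projectivization Topology Matrix.Norms.L2Operator
open Projectivization Filter Set

set_option linter.all false

namespace Pool.Agent.Lib.MP_6e94a1_ag

lemma I_pow_five : Complex.I ^ 5 = Complex.I := by
  rw [show (5 : ℕ) = 4 + 1 from rfl, pow_add, Complex.I_pow_four]; ring

lemma I_pow_six : Complex.I ^ 6 = -1 := by
  rw [show (6 : ℕ) = 4 + 2 from rfl, pow_add, Complex.I_pow_four, Complex.I_sq]; ring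

lemma P_apply (g : M2) : P g = ![
    6 * g 0 0 ^ 5 * g 0 1 - 6 * g 0 0 * g 0 1 ^ 5,
    g 0 0 ^ 5 * g 1 1 + 5 * g 0 0 ^ 4 * g 0 1 * g 1 0 - 5 * g 0 0 * g 0 1 ^ 4 * g 1 1 -
      g 0 1 ^ 5 * g 1 0,
    2 * g 0 0 ^ 4 * g 1 0 * g 1 1 + 4 * g 0 0 ^ 3 * g 0 1 * g 1 0 ^ 2 -
      4 * g 0 0 * g 0 1 ^ 3 * g 1 1 ^ 2 - 2 * g 0 1 ^ 4 * g 1 0 * g 1 1,
    3 * g 0 0 ^ 3 * g 1 0 ^ 2 * g 1 1 + 3 * g 0 0 ^ 2 * g 0 1 * g 1 0 ^ 3 -
      3 * g 0 0 * g 0 1 ^ 2 * g 1 1 ^ 3 - 3 * g 0 1 ^ 3 * g 1 0 * g 1 1 ^ 2,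
    4 * g 0 0 ^ 2 * g 1 0 ^ 3 * g 1 1 + 2 * g 0 0 * g 0 1 * g 1 0 ^ 4 -
      2 * g 0 0 * g 0 1 * g 1 1 ^ 4 - 4 * g 0 1 ^ 2 * g 1 0 * g 1 1 ^ 3,
    5 * g 0 0 * g 1 0 ^ 4 * g 1 1 - g 0 0 * g 1 1 ^ 5 + g 0 1 * g 1 0 ^ 5 -
      5 * g 0 1 * g 1 0 * g 1 1 ^ 4,
    6 * g 1 0 ^ 5 * g 1 1 - 6 * g 1 0 * g 1 1 ^ 5] := by
  ext i
  fin_cases i <;> simp only [P, rho, LinearMap.coe_mk, AddHom.coe_mk, rhoAux, f0,
    Matrix.cons_val, Fin.zero_eta, Fin.mk_one, Fin.reduceFinMk] <;> ring

/-- normaliser of the octahedral frame -/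
def Good (w : M2) (a b : Fin 3) (e1 e2 : ℂ) : Prop :=
  w.det ≠ 0 ∧ (∃ c : ℂ, P w = c • f0) ∧ w * K 0 = e1 • (K a * w) ∧ w * K 1 = e2 • (K b * w)

lemma good_0 : Good !![1, 0; 0, 1] 0 1 (1) (1) := by
  refine ⟨?_, ⟨1, ?_⟩, ?_, ?_⟩
  · simp [Matrix.det_fin_two, Complex.ext_iff] <;> norm_num
  · rw [P_apply]
    ext i
    fin_cases i <;> simp [f0] <;> ring_nf <;>
      simp [Complex.I_sq, Complex.I_pow_three, Complex.I_pow_four, I_pow_five, I_pow_six] <;>
      ring_nf <;> simp [Complex.I_sq, Complex.I_pow_three, Complex.I_pow_four, I_pow_five, I_pow_six]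
  · ext i j
    fin_cases i <;> fin_cases j <;> simp [K, Matrix.mul_apply, Fin.sum_univ_two] <;> ring_nf <;>
      simp <;> ring
  · ext i j
    fin_cases i <;> fin_cases j <;> simp [K, Matrix.mul_apply, Fin.sum_univ_two] <;> ring_nf <;>
      simp <;> ring

lemma good_1 : Good !![1, 0; 0, -1] 0 1 (1) (-1) := by
  refine ⟨?_, ⟨-1, ?_⟩, ?_, ?_⟩
  · simp [Matrix.det_fin_two, Complex.ext_iff] <;> norm_num
  · rw [P_apply]
    ext i
    fin_cases i <;> simp [f0] <;> ring_nf <;>
      simp [Complex.I_sq, Complex.I_pow_three, Complex.I_pow_four, I_pow_five, I_pow_six] <;>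
      ring_nf <;> simp [Complex.I_sq, Complex.I_pow_three, Complex.I_pow_four, I_pow_five, I_pow_six]
  · ext i j
    fin_cases i <;> fin_cases j <;> simp [K, Matrix.mul_apply, Fin.sum_univ_two] <;> ring_nf <;>
      simp <;> ring
  · ext i j
    fin_cases i <;> fin_cases j <;> simp [K, Matrix.mul_apply, Fin.sum_univ_two] <;> ring_nf <;>
      simp <;> ring

lemma good_2 : Good !![0, 1; 1, 0] 0 1 (-1) (1) := by
  refine ⟨?_, ⟨-1, ?_⟩, ?_, ?_⟩
  · simp [Matrix.det_fin_two, Complex.ext_iff] <;> norm_num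
  · rw [P_apply]
    ext i
    fin_cases i <;> simp [f0] <;> ring_nf <;>
      simp [Complex.I_sq, Complex.I_pow_three, Complex.I_pow_four, I_pow_five, I_pow_six] <;>
      ring_nf <;> simp [Complex.I_sq, Complex.I_pow_three, Complex.I_pow_four, I_pow_five, I_pow_six]
  · ext i j
    fin_cases i <;> fin_cases j <;> simp [K, Matrix.mul_apply, Fin.sum_univ_two] <;> ring_nf <;>
      simp <;> ring
  · ext i j
    fin_cases i <;> fin_cases j <;> simp [K, Matrix.mul_apply, Fin.sum_univ_two] <;> ring_nf <;>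
      simp <;> ring

lemma good_3 : Good !![0, Complex.I; -Complex.I, 0] 0 1 (-1) (-1) := by
  refine ⟨?_, ⟨-1, ?_⟩, ?_, ?_⟩
  · simp [Matrix.det_fin_two, Complex.ext_iff] <;> norm_num
  · rw [P_apply]
    ext i
    fin_cases i <;> simp [f0] <;> ring_nf <;>
      simp [Complex.I_sq, Complex.I_pow_three, Complex.I_pow_four, I_pow_five, I_pow_six] <;>
      ring_nf <;> simp [Complex.I_sq, Complex.I_pow_three, Complex.I_pow_four, I_pow_five, I_pow_six]
  · ext i j
    fin_cases i <;> fin_cases j <;> simp [K, Matrix.mul_apply, Fin.sum_univ_two] <;> ring_nf <;>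
      simp <;> ring
  · ext i j
    fin_cases i <;> fin_cases j <;> simp [K, Matrix.mul_apply, Fin.sum_univ_two] <;> ring_nf <;>
      simp <;> ring

lemma good_4 : Good !![1 + Complex.I, 0; 0, 1 - Complex.I] 0 2 (1) (1) := by
  refine ⟨?_, ⟨-8, ?_⟩, ?_, ?_⟩
  · simp [Matrix.det_fin_two, Complex.ext_iff] <;> norm_num
  · rw [P_apply]
    ext i
    fin_cases i <;> simp [f0] <;> ring_nf <;>
      simp [Complex.I_sq, Complex.I_pow_three, Complex.I_pow_four, I_pow_five, I_pow_six] <;>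
      ring_nf <;> simp [Complex.I_sq, Complex.I_pow_three, Complex.I_pow_four, I_pow_five, I_pow_six]
  · ext i j
    fin_cases i <;> fin_cases j <;> simp [K, Matrix.mul_apply, Fin.sum_univ_two] <;> ring_nf <;>
      simp <;> ring
  · ext i j
    fin_cases i <;> fin_cases j <;> simp [K, Matrix.mul_apply, Fin.sum_univ_two] <;> ring_nf <;>
      simp <;> ring

lemma good_5 : Good !![1 - Complex.I, 0; 0, 1 + Complex.I] 0 2 (1) (-1) := by
  refine ⟨?_, ⟨-8, ?_⟩, ?_, ?_⟩
  · simp [Matrix.det_fin_two, Complex.ext_iff] <;> norm_num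
  · rw [P_apply]
    ext i
    fin_cases i <;> simp [f0] <;> ring_nf <;>
      simp [Complex.I_sq, Complex.I_pow_three, Complex.I_pow_four, I_pow_five, I_pow_six] <;>
      ring_nf <;> simp [Complex.I_sq, Complex.I_pow_three, Complex.I_pow_four, I_pow_five, I_pow_six]
  · ext i j
    fin_cases i <;> fin_cases j <;> simp [K, Matrix.mul_apply, Fin.sum_univ_two] <;> ring_nf <;>
      simp <;> ring
  · ext i j
    fin_cases i <;> fin_cases j <;> simp [K, Matrix.mul_apply, Fin.sum_univ_two] <;> ring_nf <;>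
      simp <;> ring

lemma good_6 : Good !![0, 1 + Complex.I; 1 - Complex.I, 0] 0 2 (-1) (1) := by
  refine ⟨?_, ⟨8, ?_⟩, ?_, ?_⟩
  · simp [Matrix.det_fin_two, Complex.ext_iff] <;> norm_num
  · rw [P_apply]
    ext i
    fin_cases i <;> simp [f0] <;> ring_nf <;>
      simp [Complex.I_sq, Complex.I_pow_three, Complex.I_pow_four, I_pow_five, I_pow_six] <;>
      ring_nf <;> simp [Complex.I_sq, Complex.I_pow_three, Complex.I_pow_four, I_pow_five, I_pow_six]
  · ext i j
    fin_cases i <;> fin_cases j <;> simp [K, Matrix.mul_apply, Fin.sum_univ_two] <;> ring_nf <;>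
      simp <;> ring
  · ext i j
    fin_cases i <;> fin_cases j <;> simp [K, Matrix.mul_apply, Fin.sum_univ_two] <;> ring_nf <;>
      simp <;> ring

lemma good_7 : Good !![0, 1 - Complex.I; 1 + Complex.I, 0] 0 2 (-1) (-1) := by
  refine ⟨?_, ⟨8, ?_⟩, ?_, ?_⟩
  · simp [Matrix.det_fin_two, Complex.ext_iff] <;> norm_num
  · rw [P_apply]
    ext i
    fin_cases i <;> simp [f0] <;> ring_nf <;>
      simp [Complex.I_sq, Complex.I_pow_three, Complex.I_pow_four, I_pow_five, I_pow_six] <;>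
      ring_nf <;> simp [Complex.I_sq, Complex.I_pow_three, Complex.I_pow_four, I_pow_five, I_pow_six]
  · ext i j
    fin_cases i <;> fin_cases j <;> simp [K, Matrix.mul_apply, Fin.sum_univ_two] <;> ring_nf <;>
      simp <;> ring
  · ext i j
    fin_cases i <;> fin_cases j <;> simp [K, Matrix.mul_apply, Fin.sum_univ_two] <;> ring_nf <;>
      simp <;> ring

lemma good_8 : Good !![1, 1; 1, -1] 1 0 (1) (1) := by
  refine ⟨?_, ⟨8, ?_⟩, ?_, ?_⟩
  · simp [Matrix.det_fin_two, Complex.ext_iff] <;> norm_num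
  · rw [P_apply]
    ext i
    fin_cases i <;> simp [f0] <;> ring_nf <;>
      simp [Complex.I_sq, Complex.I_pow_three, Complex.I_pow_four, I_pow_five, I_pow_six] <;>
      ring_nf <;> simp [Complex.I_sq, Complex.I_pow_three, Complex.I_pow_four, I_pow_five, I_pow_six]
  · ext i j
    fin_cases i <;> fin_cases j <;> simp [K, Matrix.mul_apply, Fin.sum_univ_two] <;> ring_nf <;>
      simp <;> ring
  · ext i j
    fin_cases i <;> fin_cases j <;> simp [K, Matrix.mul_apply, Fin.sum_univ_two] <;> ring_nf <;>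
      simp <;> ring

lemma good_9 : Good !![1, -1; 1, 1] 1 0 (1) (-1) := by
  refine ⟨?_, ⟨-8, ?_⟩, ?_, ?_⟩
  · simp [Matrix.det_fin_two, Complex.ext_iff] <;> norm_num
  · rw [P_apply]
    ext i
    fin_cases i <;> simp [f0] <;> ring_nf <;>
      simp [Complex.I_sq, Complex.I_pow_three, Complex.I_pow_four, I_pow_five, I_pow_six] <;>
      ring_nf <;> simp [Complex.I_sq, Complex.I_pow_three, Complex.I_pow_four, I_pow_five, I_pow_six]
  · ext i j
    fin_cases i <;> fin_cases j <;> simp [K, Matrix.mul_apply, Fin.sum_univ_two] <;> ring_nf <;>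
      simp <;> ring
  · ext i j
    fin_cases i <;> fin_cases j <;> simp [K, Matrix.mul_apply, Fin.sum_univ_two] <;> ring_nf <;>
      simp <;> ring

lemma good_10 : Good !![1, 1; -1, 1] 1 0 (-1) (1) := by
  refine ⟨?_, ⟨-8, ?_⟩, ?_, ?_⟩
  · simp [Matrix.det_fin_two, Complex.ext_iff] <;> norm_num
  · rw [P_apply]
    ext i
    fin_cases i <;> simp [f0] <;> ring_nf <;>
      simp [Complex.I_sq, Complex.I_pow_three, Complex.I_pow_four, I_pow_five, I_pow_six] <;>
      ring_nf <;> simp [Complex.I_sq, Complex.I_pow_three, Complex.I_pow_four, I_pow_five, I_pow_six]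
  · ext i j
    fin_cases i <;> fin_cases j <;> simp [K, Matrix.mul_apply, Fin.sum_univ_two] <;> ring_nf <;>
      simp <;> ring
  · ext i j
    fin_cases i <;> fin_cases j <;> simp [K, Matrix.mul_apply, Fin.sum_univ_two] <;> ring_nf <;>
      simp <;> ring

lemma good_11 : Good !![1, -1; -1, -1] 1 0 (-1) (-1) := by
  refine ⟨?_, ⟨8, ?_⟩, ?_, ?_⟩
  · simp [Matrix.det_fin_two, Complex.ext_iff] <;> norm_num
  · rw [P_apply]
    ext i
    fin_cases i <;> simp [f0] <;> ring_nf <;>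
      simp [Complex.I_sq, Complex.I_pow_three, Complex.I_pow_four, I_pow_five, I_pow_six] <;>
      ring_nf <;> simp [Complex.I_sq, Complex.I_pow_three, Complex.I_pow_four, I_pow_five, I_pow_six]
  · ext i j
    fin_cases i <;> fin_cases j <;> simp [K, Matrix.mul_apply, Fin.sum_univ_two] <;> ring_nf <;>
      simp <;> ring
  · ext i j
    fin_cases i <;> fin_cases j <;> simp [K, Matrix.mul_apply, Fin.sum_univ_two] <;> ring_nf <;>
      simp <;> ring

lemma good_12 : Good !![1 + Complex.I, -1 + Complex.I; 1 + Complex.I, 1 - Complex.I] 1 2 (1) (1) := by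
  refine ⟨?_, ⟨64, ?_⟩, ?_, ?_⟩
  · simp [Matrix.det_fin_two, Complex.ext_iff] <;> norm_num
  · rw [P_apply]
    ext i
    fin_cases i <;> simp [f0] <;> ring_nf <;>
      simp [Complex.I_sq, Complex.I_pow_three, Complex.I_pow_four, I_pow_five, I_pow_six] <;>
      ring_nf <;> simp [Complex.I_sq, Complex.I_pow_three, Complex.I_pow_four, I_pow_five, I_pow_six]
  · ext i j
    fin_cases i <;> fin_cases j <;> simp [K, Matrix.mul_apply, Fin.sum_univ_two] <;> ring_nf <;>
      simp <;> ring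
  · ext i j
    fin_cases i <;> fin_cases j <;> simp [K, Matrix.mul_apply, Fin.sum_univ_two] <;> ring_nf <;>
      simp <;> ring

lemma good_13 : Good !![1 - Complex.I, -1 - Complex.I; 1 - Complex.I, 1 + Complex.I] 1 2 (1) (-1) := by
  refine ⟨?_, ⟨64, ?_⟩, ?_, ?_⟩
  · simp [Matrix.det_fin_two, Complex.ext_iff] <;> norm_num
  · rw [P_apply]
    ext i
    fin_cases i <;> simp [f0] <;> ring_nf <;>
      simp [Complex.I_sq, Complex.I_pow_three, Complex.I_pow_four, I_pow_five, I_pow_six] <;>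
      ring_nf <;> simp [Complex.I_sq, Complex.I_pow_three, Complex.I_pow_four, I_pow_five, I_pow_six]
  · ext i j
    fin_cases i <;> fin_cases j <;> simp [K, Matrix.mul_apply, Fin.sum_univ_two] <;> ring_nf <;>
      simp <;> ring
  · ext i j
    fin_cases i <;> fin_cases j <;> simp [K, Matrix.mul_apply, Fin.sum_univ_two] <;> ring_nf <;>
      simp <;> ring

lemma good_14 : Good !![1 + Complex.I, 1 - Complex.I; -1 - Complex.I, 1 - Complex.I] 1 2 (-1) (1) := by
  refine ⟨?_, ⟨64, ?_⟩, ?_, ?_⟩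
  · simp [Matrix.det_fin_two, Complex.ext_iff] <;> norm_num
  · rw [P_apply]
    ext i
    fin_cases i <;> simp [f0] <;> ring_nf <;>
      simp [Complex.I_sq, Complex.I_pow_three, Complex.I_pow_four, I_pow_five, I_pow_six] <;>
      ring_nf <;> simp [Complex.I_sq, Complex.I_pow_three, Complex.I_pow_four, I_pow_five, I_pow_six]
  · ext i j
    fin_cases i <;> fin_cases j <;> simp [K, Matrix.mul_apply, Fin.sum_univ_two] <;> ring_nf <;>
      simp <;> ring
  · ext i j
    fin_cases i <;> fin_cases j <;> simp [K, Matrix.mul_apply, Fin.sum_univ_two] <;> ring_nf <;>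
      simp <;> ring

lemma good_15 : Good !![1 - Complex.I, 1 + Complex.I; -1 + Complex.I, 1 + Complex.I] 1 2 (-1) (-1) := by
  refine ⟨?_, ⟨64, ?_⟩, ?_, ?_⟩
  · simp [Matrix.det_fin_two, Complex.ext_iff] <;> norm_num
  · rw [P_apply]
    ext i
    fin_cases i <;> simp [f0] <;> ring_nf <;>
      simp [Complex.I_sq, Complex.I_pow_three, Complex.I_pow_four, I_pow_five, I_pow_six] <;>
      ring_nf <;> simp [Complex.I_sq, Complex.I_pow_three, Complex.I_pow_four, I_pow_five, I_pow_six]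
  · ext i j
    fin_cases i <;> fin_cases j <;> simp [K, Matrix.mul_apply, Fin.sum_univ_two] <;> ring_nf <;>
      simp <;> ring
  · ext i j
    fin_cases i <;> fin_cases j <;> simp [K, Matrix.mul_apply, Fin.sum_univ_two] <;> ring_nf <;>
      simp <;> ring

lemma good_16 : Good !![1 - Complex.I, 1 - Complex.I; -1 - Complex.I, 1 + Complex.I] 2 0 (1) (1) := by
  refine ⟨?_, ⟨64, ?_⟩, ?_, ?_⟩
  · simp [Matrix.det_fin_two, Complex.ext_iff] <;> norm_num
  · rw [P_apply]
    ext i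
    fin_cases i <;> simp [f0] <;> ring_nf <;>
      simp [Complex.I_sq, Complex.I_pow_three, Complex.I_pow_four, I_pow_five, I_pow_six] <;>
      ring_nf <;> simp [Complex.I_sq, Complex.I_pow_three, Complex.I_pow_four, I_pow_five, I_pow_six]
  · ext i j
    fin_cases i <;> fin_cases j <;> simp [K, Matrix.mul_apply, Fin.sum_univ_two] <;> ring_nf <;>
      simp <;> ring
  · ext i j
    fin_cases i <;> fin_cases j <;> simp [K, Matrix.mul_apply, Fin.sum_univ_two] <;> ring_nf <;>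
      simp <;> ring

lemma good_17 : Good !![1 + Complex.I, -1 - Complex.I; 1 - Complex.I, 1 - Complex.I] 2 0 (1) (-1) := by
  refine ⟨?_, ⟨64, ?_⟩, ?_, ?_⟩
  · simp [Matrix.det_fin_two, Complex.ext_iff] <;> norm_num
  · rw [P_apply]
    ext i
    fin_cases i <;> simp [f0] <;> ring_nf <;>
      simp [Complex.I_sq, Complex.I_pow_three, Complex.I_pow_four, I_pow_five, I_pow_six] <;>
      ring_nf <;> simp [Complex.I_sq, Complex.I_pow_three, Complex.I_pow_four, I_pow_five, I_pow_six]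
  · ext i j
    fin_cases i <;> fin_cases j <;> simp [K, Matrix.mul_apply, Fin.sum_univ_two] <;> ring_nf <;>
      simp <;> ring
  · ext i j
    fin_cases i <;> fin_cases j <;> simp [K, Matrix.mul_apply, Fin.sum_univ_two] <;> ring_nf <;>
      simp <;> ring

lemma good_18 : Good !![1 + Complex.I, 1 + Complex.I; -1 + Complex.I, 1 - Complex.I] 2 0 (-1) (1) := by
  refine ⟨?_, ⟨64, ?_⟩, ?_, ?_⟩
  · simp [Matrix.det_fin_two, Complex.ext_iff] <;> norm_num
  · rw [P_apply]
    ext i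
    fin_cases i <;> simp [f0] <;> ring_nf <;>
      simp [Complex.I_sq, Complex.I_pow_three, Complex.I_pow_four, I_pow_five, I_pow_six] <;>
      ring_nf <;> simp [Complex.I_sq, Complex.I_pow_three, Complex.I_pow_four, I_pow_five, I_pow_six]
  · ext i j
    fin_cases i <;> fin_cases j <;> simp [K, Matrix.mul_apply, Fin.sum_univ_two] <;> ring_nf <;>
      simp <;> ring
  · ext i j
    fin_cases i <;> fin_cases j <;> simp [K, Matrix.mul_apply, Fin.sum_univ_two] <;> ring_nf <;>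
      simp <;> ring

lemma good_19 : Good !![1 - Complex.I, -1 + Complex.I; 1 + Complex.I, 1 + Complex.I] 2 0 (-1) (-1) := by
  refine ⟨?_, ⟨64, ?_⟩, ?_, ?_⟩
  · simp [Matrix.det_fin_two, Complex.ext_iff] <;> norm_num
  · rw [P_apply]
    ext i
    fin_cases i <;> simp [f0] <;> ring_nf <;>
      simp [Complex.I_sq, Complex.I_pow_three, Complex.I_pow_four, I_pow_five, I_pow_six] <;>
      ring_nf <;> simp [Complex.I_sq, Complex.I_pow_three, Complex.I_pow_four, I_pow_five, I_pow_six]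
  · ext i j
    fin_cases i <;> fin_cases j <;> simp [K, Matrix.mul_apply, Fin.sum_univ_two] <;> ring_nf <;>
      simp <;> ring
  · ext i j
    fin_cases i <;> fin_cases j <;> simp [K, Matrix.mul_apply, Fin.sum_univ_two] <;> ring_nf <;>
      simp <;> ring

lemma good_20 : Good !![1, -Complex.I; -Complex.I, 1] 2 1 (1) (1) := by
  refine ⟨?_, ⟨-8, ?_⟩, ?_, ?_⟩
  · simp [Matrix.det_fin_two, Complex.ext_iff] <;> norm_num
  · rw [P_apply]
    ext i
    fin_cases i <;> simp [f0] <;> ring_nf <;>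
      simp [Complex.I_sq, Complex.I_pow_three, Complex.I_pow_four, I_pow_five, I_pow_six] <;>
      ring_nf <;> simp [Complex.I_sq, Complex.I_pow_three, Complex.I_pow_four, I_pow_five, I_pow_six]
  · ext i j
    fin_cases i <;> fin_cases j <;> simp [K, Matrix.mul_apply, Fin.sum_univ_two] <;> ring_nf <;>
      simp <;> ring
  · ext i j
    fin_cases i <;> fin_cases j <;> simp [K, Matrix.mul_apply, Fin.sum_univ_two] <;> ring_nf <;>
      simp <;> ring

lemma good_21 : Good !![1, Complex.I; -Complex.I, -1] 2 1 (1) (-1) := by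
  refine ⟨?_, ⟨8, ?_⟩, ?_, ?_⟩
  · simp [Matrix.det_fin_two, Complex.ext_iff] <;> norm_num
  · rw [P_apply]
    ext i
    fin_cases i <;> simp [f0] <;> ring_nf <;>
      simp [Complex.I_sq, Complex.I_pow_three, Complex.I_pow_four, I_pow_five, I_pow_six] <;>
      ring_nf <;> simp [Complex.I_sq, Complex.I_pow_three, Complex.I_pow_four, I_pow_five, I_pow_six]
  · ext i j
    fin_cases i <;> fin_cases j <;> simp [K, Matrix.mul_apply, Fin.sum_univ_two] <;> ring_nf <;>
      simp <;> ring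
  · ext i j
    fin_cases i <;> fin_cases j <;> simp [K, Matrix.mul_apply, Fin.sum_univ_two] <;> ring_nf <;>
      simp <;> ring

lemma good_22 : Good !![1, Complex.I; Complex.I, 1] 2 1 (-1) (1) := by
  refine ⟨?_, ⟨-8, ?_⟩, ?_, ?_⟩
  · simp [Matrix.det_fin_two, Complex.ext_iff] <;> norm_num
  · rw [P_apply]
    ext i
    fin_cases i <;> simp [f0] <;> ring_nf <;>
      simp [Complex.I_sq, Complex.I_pow_three, Complex.I_pow_four, I_pow_five, I_pow_six] <;>
      ring_nf <;> simp [Complex.I_sq, Complex.I_pow_three, Complex.I_pow_four, I_pow_five, I_pow_six]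
  · ext i j
    fin_cases i <;> fin_cases j <;> simp [K, Matrix.mul_apply, Fin.sum_univ_two] <;> ring_nf <;>
      simp <;> ring
  · ext i j
    fin_cases i <;> fin_cases j <;> simp [K, Matrix.mul_apply, Fin.sum_univ_two] <;> ring_nf <;>
      simp <;> ring

lemma good_23 : Good !![1, -Complex.I; Complex.I, -1] 2 1 (-1) (-1) := by
  refine ⟨?_, ⟨8, ?_⟩, ?_, ?_⟩
  · simp [Matrix.det_fin_two, Complex.ext_iff] <;> norm_num
  · rw [P_apply]
    ext i
    fin_cases i <;> simp [f0] <;> ring_nf <;>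
      simp [Complex.I_sq, Complex.I_pow_three, Complex.I_pow_four, I_pow_five, I_pow_six] <;>
      ring_nf <;> simp [Complex.I_sq, Complex.I_pow_three, Complex.I_pow_four, I_pow_five, I_pow_six]
  · ext i j
    fin_cases i <;> fin_cases j <;> simp [K, Matrix.mul_apply, Fin.sum_univ_two] <;> ring_nf <;>
      simp <;> ring
  · ext i j
    fin_cases i <;> fin_cases j <;> simp [K, Matrix.mul_apply, Fin.sum_univ_two] <;> ring_nf <;>
      simp <;> ring

lemma exists_good {a b : Fin 3} (hab : a ≠ b) {e1 e2 : ℂ} (h1 : e1 = 1 ∨ e1 = -1)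
    (h2 : e2 = 1 ∨ e2 = -1) : ∃ w, Good w a b e1 e2 := by
  fin_cases a <;> fin_cases b
  · exact absurd rfl hab
  · rcases h1 with rfl | rfl <;> rcases h2 with rfl | rfl
    · exact ⟨_, good_0⟩
    · exact ⟨_, good_1⟩
    · exact ⟨_, good_2⟩
    · exact ⟨_, good_3⟩
  · rcases h1 with rfl | rfl <;> rcases h2 with rfl | rfl
    · exact ⟨_, good_4⟩
    · exact ⟨_, good_5⟩
    · exact ⟨_, good_6⟩
    · exact ⟨_, good_7⟩
  · rcases h1 with rfl | rfl <;> rcases h2 with rfl | rfl
    · exact ⟨_, good_8⟩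
    · exact ⟨_, good_9⟩
    · exact ⟨_, good_10⟩
    · exact ⟨_, good_11⟩
  · exact absurd rfl hab
  · rcases h1 with rfl | rfl <;> rcases h2 with rfl | rfl
    · exact ⟨_, good_12⟩
    · exact ⟨_, good_13⟩
    · exact ⟨_, good_14⟩
    · exact ⟨_, good_15⟩
  · rcases h1 with rfl | rfl <;> rcases h2 with rfl | rfl
    · exact ⟨_, good_16⟩
    · exact ⟨_, good_17⟩
    · exact ⟨_, good_18⟩
    · exact ⟨_, good_19⟩
  · rcases h1 with rfl | rfl <;> rcases h2 with rfl | rfl
    · exact ⟨_, good_20⟩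
    · exact ⟨_, good_21⟩
    · exact ⟨_, good_22⟩
    · exact ⟨_, good_23⟩
  · exact absurd rfl hab

end Pool.Agent.Lib.MP_6e94a1_ag
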