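import Pool.Agent.Lib.MP_6e94a1_ag.Sextic

/-!
# The octahedral sextic and its orbit
-/

open scoped LinearAlgebra.Projectivization Topology Matrix.Norms.L2Operator
open Projectivization Filter Set

namespace Pool.Agent.Lib.MP_6e94a1_ag

abbrev M2 := Matrix (Fin 2) (Fin 2) ℂ

/-- the sextic `6xy(x^4-y^4)` -/
def f0 : Fin 7 → ℂ := ![0, 1, 0, 0, 0, -1, 0]

/-- derivative at the identity of `g ↦ g·f0` -/
def tau : M2 →ₗ[ℂ] (Fin 7 → ℂ) where
  toFun ξ := ![6 * ξ 0 1, 5 * ξ 0 0 + ξ 1 1, 2 * ξ 1 0, 0, -2 * ξ 0 1, -ξ 0 0 - 5 * ξ 1 1,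
    -6 * ξ 1 0]
  map_add' a b := by
    ext i
    fin_cases i <;> simp [Matrix.add_apply] <;> ring
  map_smul' a b := by
    ext i
    fin_cases i <;> simp [Matrix.smul_apply] <;> ring

/-- the three Pauli-type matrices -/
def K : Fin 3 → M2 := ![!![1, 0; 0, -1], !![0, 1; 1, 0], !![0, Complex.I; -Complex.I, 0]]

lemma cone_f0 : Cone f0 := by
  simp [Cone, f0]

lemma tau_one : tau 1 = (6 : ℂ) • f0 := by
  ext i
  fin_cases i <;> simp [tau, f0] <;> norm_num

lemma tau_injective : Function.Injective tau := by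
  rw [injective_iff_map_eq_zero]
  intro ξ h
  have h0 := congrFun h 0
  have h1 := congrFun h 1
  have h2 := congrFun h 2
  have h5 := congrFun h 5
  simp [tau] at h0 h1 h2 h5
  ext i j
  fin_cases i <;> fin_cases j
  · simp
    linear_combination (5 / 24) * h1 + (1 / 24) * h5
  · simpa using h0
  · simpa using h2
  · simp
    linear_combination (-1 / 24) * h1 - (5 / 24) * h5

/-- The lines through `[f0]` on the cone. -/
lemma lines_at_f0 {w : Fin 7 → ℂ} (h : ∀ t : ℂ, Cone (f0 + t • w)) :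
    ∃ i : Fin 3, ∃ a b : ℂ, w = a • f0 + b • tau (K i) := by
  obtain ⟨p0, p1, p2, p3, p4⟩ := h 1
  obtain ⟨m0, m1, m2, m3, m4⟩ := h (-1)
  simp [f0] at p0 p1 p2 p3 p4 m0 m1 m2 m3 m4
  have e3 : w 3 = 0 := by linear_combination (-1 / 8 : ℂ) * p0 + (1 / 8 : ℂ) * m0
  have e0 : w 0 = -3 * w 4 := by linear_combination (-1 / 2 : ℂ) * p1 + (1 / 2 : ℂ) * m1
  have e6 : w 6 = -3 * w 2 := by linear_combination (1 / 2 : ℂ) * p3 - (1 / 2 : ℂ) * m3
  rw [e3, e0] at p0 p1
  have q0 : (w 2 - w 4) * (w 2 + w 4) = 0 := by linear_combination (1 / 3 : ℂ) * p0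
  have q1 : w 4 * (w 1 + w 5) = 0 := by linear_combination (-1 / 3 : ℂ) * p1
  by_cases h4 : w 4 = 0
  · have h2 : w 2 = 0 := by
      rw [h4] at q0
      have : w 2 ^ 2 = 0 := by linear_combination q0
      exact pow_eq_zero_iff (two_ne_zero) |>.1 this
    refine ⟨0, (w 1 - w 5) / 2, (w 1 + w 5) / 8, ?_⟩
    ext i
    fin_cases i
    · simp [f0, tau, K, e0, h4]
    · simp [f0, tau, K]; ring
    · simp [f0, tau, K, h2]
    · simp [f0, tau, K, e3]
    · simp [f0, tau, K, h4]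
    · simp [f0, tau, K]; ring
    · simp [f0, tau, K, e6, h2]
  · have h15 : w 5 = - w 1 := by
      rcases mul_eq_zero.1 q1 with h | h
      · exact absurd h h4
      · linear_combination h
    rcases mul_eq_zero.1 q0 with h | h
    · have h2 : w 2 = w 4 := by linear_combination h
      refine ⟨2, w 1, Complex.I * w 4 / 2, ?_⟩
      ext i
      fin_cases i
      · simp [f0, tau, K, e0]; ring_nf; simp
      · simp [f0, tau, K]
      · simp [f0, tau, K, h2]; ring_nf; simp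
      · simp [f0, tau, K, e3]
      · simp [f0, tau, K]; ring_nf; simp
      · simp [f0, tau, K, h15]
      · simp [f0, tau, K, e6, h2]; ring_nf; simp
    · have h2 : w 2 = - w 4 := by linear_combination h
      refine ⟨1, w 1, - w 4 / 2, ?_⟩
      ext i
      fin_cases i
      · simp [f0, tau, K, e0]; ring
      · simp [f0, tau, K]
      · simp [f0, tau, K, h2]
      · simp [f0, tau, K, e3]
      · simp [f0, tau, K]
      · simp [f0, tau, K, h15]
      · simp [f0, tau, K, e6, h2]; ring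

/-- the three lines are contained in the cone -/
lemma cone_line (i : Fin 3) (a b : ℂ) : Cone (a • f0 + b • tau (K i)) := by
  fin_cases i <;> simp [Cone, f0, tau, K] <;> ring_nf <;> simp

/-- the orbit map -/
def P (g : M2) : Fin 7 → ℂ := rho g f0

lemma P_cone (g : M2) : Cone (P g) := cone_f0.rho g

lemma P_mul (g h : M2) : P (g * h) = rho g (P h) := rho_mul _ _ _

lemma P_one : P 1 = f0 := rho_one _

lemma P_ne_zero {g : M2} (hg : g.det ≠ 0) : P g ≠ 0 := by
  intro h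
  have : f0 = 0 := by
    apply rho_injective hg
    rw [map_zero]
    exact h
  have := congrFun this 1
  simp [f0] at this

lemma contDiff_entry (i j : Fin 2) : ContDiff ℂ ⊤ (fun g : M2 => g i j) := by
  have : (fun g : M2 => g i j) = (LinearMap.toContinuousLinearMap
    (Matrix.entryLinearMap ℂ ℂ i j : M2 →ₗ[ℂ] ℂ)) := by
    ext g
    simp
  rw [this]
  exact ContinuousLinearMap.contDiff _

lemma contDiff_P : ContDiff ℂ ⊤ P := by
  have key : ∀ a b c d : M2 → ℂ, ContDiff ℂ ⊤ a → ContDiff ℂ ⊤ b → ContDiff ℂ ⊤ c →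
      ContDiff ℂ ⊤ d → ContDiff ℂ ⊤ (fun g => rhoAux (a g) (b g) (c g) (d g) f0) := by
    intro a b c d ha hb hc hd
    rw [contDiff_pi]
    intro i
    fin_cases i <;> simp only [rhoAux, f0, Matrix.cons_val, Fin.zero_eta, Fin.mk_one,
      Fin.reduceFinMk] <;> fun_prop
  exact key _ _ _ _ (contDiff_entry 0 0) (contDiff_entry 0 1) (contDiff_entry 1 0)
    (contDiff_entry 1 1)

lemma hasDerivAt_one_add (ξ : M2) : HasDerivAt (fun t : ℂ => (1 : M2) + t • ξ) ξ 0 := by
  have h := ((hasDerivAt_id (0:ℂ)).smul_const ξ).const_add (1:M2)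
  rw [one_smul] at h
  exact h

/-- derivative of the orbit map at the identity -/
lemma fderiv_P_one (ξ : M2) : fderiv ℂ P 1 ξ = tau ξ := by
  have hd : HasFDerivAt P (fderiv ℂ P 1) 1 :=
    (contDiff_P.differentiable (by simp)).differentiableAt.hasFDerivAt
  have hl := hasDerivAt_one_add ξ
  have hd' : HasFDerivAt P (fderiv ℂ P 1) ((1 : M2) + (0 : ℂ) • ξ) := by simpa using hd
  have hc := hd'.comp_hasDerivAt (0 : ℂ) hl
  apply ev_injective
  intro x y
  -- evaluation is linear and continuous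
  let L : (Fin 7 → ℂ) →ₗ[ℂ] ℂ :=
    { toFun := fun a => ev a x y
      map_add' := by intro a b; simp only [ev, Pi.add_apply]; ring
      map_smul' := by
        intro c a
        simp only [ev, Pi.smul_apply, smul_eq_mul, RingHom.id_apply]
        ring }
  have hc2 := (L.toContinuousLinearMap.hasFDerivAt (x := P ((1 : M2) + (0 : ℂ) • ξ))).comp_hasDerivAt
    (0 : ℂ) hc
  have h3 : (fun t : ℂ => ev (P ((1 : M2) + t • ξ)) x y) = fun t : ℂ =>
      6 * (x + t * (ξ 0 0 * x + ξ 1 0 * y)) * (y + t * (ξ 0 1 * x + ξ 1 1 * y)) *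
        ((x + t * (ξ 0 0 * x + ξ 1 0 * y)) ^ 4 - (y + t * (ξ 0 1 * x + ξ 1 1 * y)) ^ 4) := by
    ext t
    rw [P, ev_rho]
    simp only [ev, f0, Matrix.cons_val, Matrix.add_apply, Matrix.smul_apply, Matrix.one_apply,
      smul_eq_mul]
    norm_num
    ring
  have h1 : HasDerivAt (fun t : ℂ => (x + t * (ξ 0 0 * x + ξ 1 0 * y)))
      (ξ 0 0 * x + ξ 1 0 * y) 0 := by
    simpa using ((hasDerivAt_id (0 : ℂ)).mul_const (ξ 0 0 * x + ξ 1 0 * y)).const_add x
  have h2 : HasDerivAt (fun t : ℂ => (y + t * (ξ 0 1 * x + ξ 1 1 * y)))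
      (ξ 0 1 * x + ξ 1 1 * y) 0 := by
    simpa using ((hasDerivAt_id (0 : ℂ)).mul_const (ξ 0 1 * x + ξ 1 1 * y)).const_add y
  have h4 := ((h1.const_mul 6).mul h2).mul ((h1.pow 4).sub (h2.pow 4))
  have h4' := h4.congr_of_eventuallyEq (f₁ := fun t : ℂ => ev (P ((1 : M2) + t • ξ)) x y)
    (Filter.Eventually.of_forall (fun t => by
      have := congrFun h3 t
      simpa using this))
  have h5 := hc2.unique h4'
  have h6 : ev (fderiv ℂ P 1 ξ) x y = _ := h5
  rw [h6]
  simp [ev, tau]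
  ring

lemma fderiv_P (g ξ : M2) : fderiv ℂ P g (g * ξ) = rho g (tau ξ) := by
  have hd : ∀ g, HasFDerivAt P (fderiv ℂ P g) g := fun g =>
    (contDiff_P.differentiable (by simp)).differentiableAt.hasFDerivAt
  have hl := hasDerivAt_one_add ξ
  have hl2 : HasDerivAt (fun t : ℂ => g * ((1 : M2) + t • ξ)) (g * ξ) 0 := hl.const_mul g
  have hd1 : HasFDerivAt P (fderiv ℂ P 1) ((1 : M2) + (0 : ℂ) • ξ) := by simpa using hd 1
  have hd2 : HasFDerivAt P (fderiv ℂ P g) (g * ((1 : M2) + (0 : ℂ) • ξ)) := by simpa using hd g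
  have c1 := hd1.comp_hasDerivAt (0 : ℂ) hl
  have c2 := hd2.comp_hasDerivAt (0 : ℂ) hl2
  have c3 := ((rho g).toContinuousLinearMap.hasFDerivAt
    (x := P ((1 : M2) + (0 : ℂ) • ξ))).comp_hasDerivAt (0 : ℂ) c1
  have e : (P ∘ fun t : ℂ => g * ((1 : M2) + t • ξ)) =
      ((rho g).toContinuousLinearMap : (Fin 7 → ℂ) → (Fin 7 → ℂ)) ∘ (P ∘ fun t : ℂ => (1 : M2) + t • ξ) := by
    ext t
    simp only [Function.comp_apply, P_mul]
    rfl
  rw [e] at c2
  have h := c2.unique c3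
  have h' : fderiv ℂ P g (g * ξ) = rho g (fderiv ℂ P 1 ξ) := h
  rw [h', fderiv_P_one]

end Pool.Agent.Lib.MP_6e94a1_ag
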