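import Pool.Agent.Lib.MP_6e94a1_ag.Defs

/-!
# Complex projective space: topology, holomorphic maps, lines
-/

open scoped LinearAlgebra.Projectivization Topology
open Projectivization Filter Set

namespace Pool.Agent.Lib.MP_6e94a1_ag

variable {n : ℕ}

lemma isOpen_proj_iff {O : Set (ℙ ℂ (Fin n → ℂ))} :
    IsOpen[projTopology n] O ↔
      ∀ (v : Fin n → ℂ) (hv : v ≠ 0), mk ℂ v hv ∈ O →
        ∀ᶠ w in 𝓝 v, ∀ hw : w ≠ 0, mk ℂ w hw ∈ O := by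
  rw [projTopology, isOpen_coinduced]
  constructor
  · intro h v hv hvO
    rw [isOpen_iff_mem_nhds] at h
    have h1 := h ⟨v, hv⟩ hvO
    rw [nhds_subtype_eq_comap, Filter.mem_comap] at h1
    obtain ⟨t, ht, hts⟩ := h1
    filter_upwards [ht] with w hw hw0
    exact hts (show ((⟨w, hw0⟩ : {v : Fin n → ℂ // v ≠ 0}) : Fin n → ℂ) ∈ t from hw)
  · intro h
    rw [isOpen_iff_mem_nhds]
    rintro ⟨v, hv⟩ hvO
    rw [nhds_subtype_eq_comap, Filter.mem_comap]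
    refine ⟨_, h v hv hvO, ?_⟩
    rintro ⟨w, hw⟩ hwt
    exact hwt hw

/-- local description of open subsets of a subspace -/
lemma IsOpenIn.eventually {X U : Set (ℙ ℂ (Fin n → ℂ))} (h : IsOpenIn X U)
    {v : Fin n → ℂ} (hv : v ≠ 0) (hU : mk ℂ v hv ∈ U) :
    ∀ᶠ w in 𝓝 v, ∀ hw : w ≠ 0, mk ℂ w hw ∈ X → mk ℂ w hw ∈ U := by
  obtain ⟨O, hO, rfl⟩ := h
  have := isOpen_proj_iff.1 hO v hv hU.1
  filter_upwards [this] with w hw hw0 hX
  exact ⟨hw hw0, hX⟩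

lemma IsOpenIn.subset {X U : Set (ℙ ℂ (Fin n → ℂ))} (h : IsOpenIn X U) : U ⊆ X := by
  obtain ⟨O, hO, rfl⟩ := h
  exact inter_subset_right

lemma eventually_smul {v : Fin n → ℂ} {c : ℂ} (hc : c ≠ 0) {p : (Fin n → ℂ) → Prop}
    (h : ∀ᶠ w in 𝓝 v, p w) : ∀ᶠ w in 𝓝 (c • v), p (c⁻¹ • w) := by
  have : Tendsto (fun w : Fin n → ℂ => c⁻¹ • w) (𝓝 (c • v)) (𝓝 v) := by
    have h1 : Continuous (fun w : Fin n → ℂ => c⁻¹ • w) := continuous_const_smul _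
    have h2 := h1.tendsto (c • v)
    rwa [inv_smul_smul₀ hc] at h2
  exact this.eventually h

/-- A property of points of projective space which holds near all representatives near `v`
defines an open set. -/
lemma isOpen_of_prop (Q : ℙ ℂ (Fin n → ℂ) → Prop) :
    IsOpen[projTopology n] {p | ∃ (v : Fin n → ℂ) (hv : v ≠ 0), mk ℂ v hv = p ∧
      ∀ᶠ w in 𝓝 v, ∀ hw : w ≠ 0, Q (mk ℂ w hw)} := by
  rw [isOpen_proj_iff]
  rintro v hv ⟨v', hv', hvv, hev⟩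
  rw [mk_eq_mk_iff'] at hvv
  obtain ⟨a, rfl⟩ := hvv
  have ha : a ≠ 0 := by
    rintro rfl
    simp at hv'
  -- the property near `v`
  have hev' : ∀ᶠ w in 𝓝 v, ∀ hw : w ≠ 0, Q (mk ℂ w hw) := by
    have := eventually_smul (inv_ne_zero ha) hev
    rw [inv_smul_smul₀ ha] at this
    filter_upwards [this] with w hw hw0
    have h2 := hw (by simpa [ha] using hw0)
    have h3 : mk ℂ (a⁻¹⁻¹ • w) (by simpa [ha] using hw0) = mk ℂ w hw0 := by
      rw [mk_eq_mk_iff']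
      exact ⟨a⁻¹⁻¹, rfl⟩
    rwa [h3] at h2
  have := eventually_eventually_nhds.2 hev'
  filter_upwards [this] with w hw hw0
  exact ⟨w, hw0, rfl, hw⟩

/-- `X` has an analytic chart (on the level of cones) at the vector `v`. -/
def HasConeChart (X : Set (ℙ ℂ (Fin n → ℂ))) (v : Fin n → ℂ) : Prop :=
  ∃ (m : ℕ) (c : (Fin m → ℂ) → (Fin n → ℂ)) (s : (Fin n → ℂ) → (Fin m → ℂ)),
    AnalyticAt ℂ c (s v) ∧ c (s v) = v ∧ ContinuousAt s v ∧
    (∀ᶠ w in 𝓝 v, ∀ hw : w ≠ 0, mk ℂ w hw ∈ X → c (s w) = w) ∧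
    (∀ᶠ z in 𝓝 (s v), ∀ h : c z ≠ 0, mk ℂ (c z) h ∈ X)

/-- `φ` and `θ` agree on `U` near the vector `w`. -/
def AgreeNear {m : ℕ} (U : Set (ℙ ℂ (Fin n → ℂ)))
    (φ θ : ℙ ℂ (Fin n → ℂ) → ℙ ℂ (Fin m → ℂ)) (w : Fin n → ℂ) : Prop :=
  ∀ᶠ w' in 𝓝 w, ∀ hw : w' ≠ 0, mk ℂ w' hw ∈ U → φ (mk ℂ w' hw) = θ (mk ℂ w' hw)

lemma mk_eq_mk_of_minors {m : ℕ} {a b : Fin m → ℂ} (ha : a ≠ 0) (hb : b ≠ 0)
    (h : ∀ i j, a i * b j - a j * b i = 0) : mk ℂ a ha = mk ℂ b hb := by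
  rw [mk_eq_mk_iff']
  obtain ⟨j, hj⟩ := Function.ne_iff.1 hb
  refine ⟨a j / b j, ?_⟩
  ext i
  simp only [Pi.smul_apply, smul_eq_mul, Pi.zero_apply] at hj ⊢
  have := h i j
  field_simp
  linear_combination -this

lemma minors_of_mk_eq_mk {m : ℕ} {a b : Fin m → ℂ} (ha : a ≠ 0) (hb : b ≠ 0)
    (h : mk ℂ a ha = mk ℂ b hb) (i j) : a i * b j - a j * b i = 0 := by
  rw [mk_eq_mk_iff'] at h
  obtain ⟨c, rfl⟩ := h
  simp only [Pi.smul_apply, smul_eq_mul]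
  ring

/-- local identity theorem -/
lemma agreeNear_of_frequently {m : ℕ} {X U : Set (ℙ ℂ (Fin n → ℂ))} (hU : IsOpenIn X U)
    {φ θ : ℙ ℂ (Fin n → ℂ) → ℙ ℂ (Fin m → ℂ)} (hφ : IsHolomorphicOn φ U)
    (hθ : IsHolomorphicOn θ U) {v : Fin n → ℂ} (hv : v ≠ 0) (hvU : mk ℂ v hv ∈ U)
    (hX : HasConeChart X v)
    (hf : ∃ᶠ w in 𝓝 v, ∃ hw : w ≠ 0, mk ℂ w hw ∈ U ∧ AgreeNear U φ θ w) :
    AgreeNear U φ θ v := by
  obtain ⟨k, c, s, hc, hcv, hs, hcs, hcX⟩ := hX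
  obtain ⟨F, hF, hFe⟩ := hφ v hv hvU
  obtain ⟨G, hG, hGe⟩ := hθ v hv hvU
  have hUe := hU.eventually hv hvU
  -- everything good near `s v`
  have hcc : ContinuousAt c (s v) := hc.continuousAt
  have hcc' : Tendsto c (𝓝 (s v)) (𝓝 v) := by
    have := hcc.tendsto
    rwa [hcv] at this
  have hF' : AnalyticAt ℂ (fun z => F (c z)) (s v) := by
    apply AnalyticAt.fun_comp _ hc
    rwa [hcv]
  have hG' : AnalyticAt ℂ (fun z => G (c z)) (s v) := by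
    apply AnalyticAt.fun_comp _ hc
    rwa [hcv]
  -- the minors vanish near `s v`
  have key : ∀ i j, ∀ᶠ z in 𝓝 (s v),
      F (c z) i * G (c z) j - F (c z) j * G (c z) i = 0 := by
    intro i j
    set H : (Fin k → ℂ) → ℂ := fun z => F (c z) i * G (c z) j - F (c z) j * G (c z) i with hH
    have hFi : ∀ i, AnalyticAt ℂ (fun z => F (c z) i) (s v) := by
      intro i
      exact (ContinuousLinearMap.proj (R := ℂ) (φ := fun _ : Fin m => ℂ) i).analyticAt _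
        |>.fun_comp hF'
    have hGi : ∀ i, AnalyticAt ℂ (fun z => G (c z) i) (s v) := by
      intro i
      exact (ContinuousLinearMap.proj (R := ℂ) (φ := fun _ : Fin m => ℂ) i).analyticAt _
        |>.fun_comp hG'
    have hHa : AnalyticAt ℂ H (s v) := ((hFi i).mul (hGi j)).sub ((hFi j).mul (hGi i))
    have hev : ∀ᶠ z in 𝓝 (s v), AnalyticAt ℂ H z := hHa.eventually_analyticAt
    obtain ⟨r, hr, hball⟩ := Metric.eventually_nhds_iff_ball.1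
      ((hev.and hc.eventually_analyticAt).and ((hcc'.eventually (hFe.and (hGe.and hUe))).and
        (hcX.and (hcc'.eventually (IsOpen.eventually_mem isOpen_compl_singleton hv)))))
    -- find an agreement point
    have hsr : ∀ᶠ w in 𝓝 v, s w ∈ Metric.ball (s v) r :=
      hs.tendsto.eventually (Metric.ball_mem_nhds _ hr)
    obtain ⟨w, ⟨hw, hwU, hwA⟩, hwr, hwc⟩ := (hf.and_eventually (hsr.and hcs)).exists
    have hcw := hwc hw (hU.subset hwU)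
    have hanal : AnalyticOnNhd ℂ H (Metric.ball (s v) r) := fun z hz => (hball z hz).1.1
    have hzero : H =ᶠ[𝓝 (s w)] 0 := by
      have h1 : Tendsto c (𝓝 (s w)) (𝓝 w) := by
        have h2 : ContinuousAt c (s w) := (hball _ hwr).1.2.continuousAt
        have := h2.tendsto
        rwa [hcw] at this
      filter_upwards [h1.eventually hwA, Metric.isOpen_ball.mem_nhds hwr] with z hz hzr
      obtain ⟨_, ⟨h3, h4, h5⟩, h6, h7⟩ := hball z hzr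
      have h7 : c z ≠ 0 := h7
      have hzU := h5 h7 (h6 h7)
      obtain ⟨hF0, hFz⟩ := h3 h7 hzU
      obtain ⟨hG0, hGz⟩ := h4 h7 hzU
      have := hz h7 hzU
      rw [hFz, hGz] at this
      exact minors_of_mk_eq_mk _ _ this i j
    have := hanal.eqOn_zero_of_preconnected_of_eventuallyEq_zero
      (Metric.isPreconnected_ball) hwr hzero
    filter_upwards [Metric.ball_mem_nhds (s v) hr] with z hz
    exact this hz
  have key' : ∀ᶠ w in 𝓝 v, ∀ i j,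
      F (c (s w)) i * G (c (s w)) j - F (c (s w)) j * G (c (s w)) i = 0 :=
    hs.tendsto.eventually (eventually_all.2 fun i => eventually_all.2 fun j => key i j)
  filter_upwards [key', hFe, hGe, hcs] with w h1 h2 h3 h4 hw hwU
  obtain ⟨hF0, hFz⟩ := h2 hw hwU
  obtain ⟨hG0, hGz⟩ := h3 hw hwU
  rw [hFz, hGz]
  apply mk_eq_mk_of_minors
  rw [h4 hw (hU.subset hwU)] at h1
  exact h1

lemma mk_smul_eq {a : ℂ} {v : Fin n → ℂ} (hv : v ≠ 0) (h : a • v ≠ 0) :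
    mk ℂ (a • v) h = mk ℂ v hv := by
  rw [mk_eq_mk_iff']
  exact ⟨a, rfl⟩

lemma AgreeNear.smul {m : ℕ} {U : Set (ℙ ℂ (Fin n → ℂ))}
    {φ θ : ℙ ℂ (Fin n → ℂ) → ℙ ℂ (Fin m → ℂ)} {v : Fin n → ℂ} (h : AgreeNear U φ θ v)
    {a : ℂ} (ha : a ≠ 0) : AgreeNear U φ θ (a • v) := by
  have := eventually_smul ha h
  refine this.mono ?_
  intro w hw hw0 hwU
  have h1 : a⁻¹ • w ≠ 0 := by simpa [ha] using hw0
  have h2 := mk_smul_eq hw0 h1
  have := hw h1 (by rwa [h2])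
  rwa [h2] at this

lemma AgreeNear.eq {m : ℕ} {U : Set (ℙ ℂ (Fin n → ℂ))}
    {φ θ : ℙ ℂ (Fin n → ℂ) → ℙ ℂ (Fin m → ℂ)} {v : Fin n → ℂ} (h : AgreeNear U φ θ v)
    (hv : v ≠ 0) (hU : mk ℂ v hv ∈ U) : φ (mk ℂ v hv) = θ (mk ℂ v hv) :=
  h.self_of_nhds hv hU

/-- identity theorem for holomorphic maps on a connected open subset of `X` -/
theorem eqOn_of_agreeNear {m : ℕ} {X U : Set (ℙ ℂ (Fin n → ℂ))} (hU : IsOpenIn X U)
    (hconn : IsConn U)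
    {φ θ : ℙ ℂ (Fin n → ℂ) → ℙ ℂ (Fin m → ℂ)} (hφ : IsHolomorphicOn φ U)
    (hθ : IsHolomorphicOn θ U)
    (hX : ∀ (v : Fin n → ℂ) (hv : v ≠ 0), mk ℂ v hv ∈ X → HasConeChart X v)
    {v₀ : Fin n → ℂ} (hv₀ : v₀ ≠ 0) (hv₀U : mk ℂ v₀ hv₀ ∈ U) (h₀ : AgreeNear U φ θ v₀) :
    ∀ p ∈ U, φ p = θ p := by
  -- the two open sets
  set Q₁ : ℙ ℂ (Fin n → ℂ) → Prop := fun p => p ∈ U → φ p = θ p with hQ₁
  set A : Set (ℙ ℂ (Fin n → ℂ)) := {p | ∃ (v : Fin n → ℂ) (hv : v ≠ 0), mk ℂ v hv = p ∧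
      ∀ᶠ w in 𝓝 v, ∀ hw : w ≠ 0, Q₁ (mk ℂ w hw)} with hA
  set Q₂ : ℙ ℂ (Fin n → ℂ) → Prop := fun p => p ∈ U → p ∉ A with hQ₂
  set B : Set (ℙ ℂ (Fin n → ℂ)) := {p | ∃ (v : Fin n → ℂ) (hv : v ≠ 0), mk ℂ v hv = p ∧
      ∀ᶠ w in 𝓝 v, ∀ hw : w ≠ 0, Q₂ (mk ℂ w hw)} with hB
  have hAo : IsOpen[projTopology n] A := isOpen_of_prop Q₁
  have hBo : IsOpen[projTopology n] B := isOpen_of_prop Q₂
  have hAmem : ∀ (v : Fin n → ℂ) (hv : v ≠ 0), mk ℂ v hv ∈ A → AgreeNear U φ θ v := by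
    rintro v hv ⟨v', hv', hvv, hev⟩
    rw [mk_eq_mk_iff'] at hvv
    obtain ⟨a, rfl⟩ := hvv
    have ha : a ≠ 0 := by
      rintro rfl
      simp at hv'
    have h1 : AgreeNear U φ θ (a • v) := hev
    have h2 := h1.smul (inv_ne_zero ha)
    rwa [inv_smul_smul₀ ha] at h2
  have hcover : U ⊆ A ∪ B := by
    intro p
    induction p using Projectivization.ind with
    | h v hv =>
      intro hp
      by_cases hag : AgreeNear U φ θ v
      · left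
        exact ⟨v, hv, rfl, hag⟩
      · right
        refine ⟨v, hv, rfl, ?_⟩
        have hnf : ¬ ∃ᶠ w in 𝓝 v, ∃ hw : w ≠ 0, mk ℂ w hw ∈ U ∧ AgreeNear U φ θ w := by
          intro hf
          exact hag (agreeNear_of_frequently hU hφ hθ hv hp (hX v hv (hU.subset hp)) hf)
        rw [not_frequently] at hnf
        filter_upwards [hnf] with w hw hw0 hwU hwA
        exact hw ⟨hw0, hwU, hAmem w hw0 hwA⟩
  have hdisj : ¬ (U ∩ (A ∩ B)).Nonempty := by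
    rintro ⟨p, hpU, hpA, hpB⟩
    obtain ⟨v, hv, rfl, hev⟩ := hpB
    exact (hev.self_of_nhds hv hpU) hpA
  have hAne : (U ∩ A).Nonempty := ⟨_, hv₀U, v₀, hv₀, rfl, h₀⟩
  have hBe : ¬ (U ∩ B).Nonempty := by
    intro hBne
    have := hconn.2 A B hAo hBo hcover hAne hBne
    exact hdisj this
  intro p hp
  have hpA : p ∈ A := by
    rcases hcover hp with h | h
    · exact h
    · exact absurd ⟨p, hp, h⟩ hBe
  obtain ⟨v, hv, rfl, hev⟩ := hpA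
  exact hev.self_of_nhds hv hp

end Pool.Agent.Lib.MP_6e94a1_ag
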