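import Mathlib

/-!
# Intersections of two diagonal quadrics in five-space: elliptic coordinates
-/

open Polynomial Finset

set_option linter.all false

namespace Pool.Agent.Lib.MP_6e94a1_ag

/-- cone over the intersection of two diagonal quadrics -/
def ConeD (l : Fin 6 → ℂ) (x : Fin 6 → ℂ) : Prop :=
  ∑ i, x i ^ 2 = 0 ∧ ∑ i, l i * x i ^ 2 = 0

/-- the Lagrange denominators -/
noncomputable def DD (l : Fin 6 → ℂ) (i : Fin 6) : ℂ := ∏ j ∈ Finset.univ.erase i, (l i - l j)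

lemma DD_ne {l : Fin 6 → ℂ} (hl : Function.Injective l) (i : Fin 6) : DD l i ≠ 0 := by
  rw [DD, Finset.prod_ne_zero_iff]
  intro j hj h
  exact (Finset.ne_of_mem_erase hj) (hl (sub_eq_zero.1 h)).symm

lemma sum_coeff {l : Fin 6 → ℂ} (hl : Function.Injective l) {P : ℂ[X]} (hP : P.degree < 6) :
    ∑ i, P.eval (l i) / DD l i = P.coeff 5 := by
  have h := Lagrange.coeff_eq_sum (s := (Finset.univ : Finset (Fin 6))) (v := l) hl.injOn
    (P := P) (by simpa using hP)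
  simp only [Finset.card_univ, Fintype.card_fin] at h
  exact h.symm

lemma sum_poly4 {l : Fin 6 → ℂ} (hl : Function.Injective l) (a b c d e : ℂ) :
    ∑ i, (a * l i ^ 4 + b * l i ^ 3 + c * l i ^ 2 + d * l i + e) / DD l i = 0 := by
  have h1 := sum_coeff hl (P := C a * X ^ 4 + C b * X ^ 3 + C c * X ^ 2 + C d * X + C e) (by
    refine lt_of_le_of_lt (b := (4 : WithBot ℕ)) (by compute_degree) (by norm_num))
  simp only [eval_add, eval_mul, eval_C, eval_pow, eval_X] at h1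
  rw [h1]
  simp [coeff_X, coeff_C]

lemma sum_bary {l : Fin 6 → ℂ} (hl : Function.Injective l) (c d e t : ℂ) (ht : ∀ i, l i ≠ t) :
    ∑ i, (c * l i ^ 2 + d * l i + e) / ((l i - t) * DD l i) =
      - (c * t ^ 2 + d * t + e) / ∏ i, (t - l i) := by
  have hP : (C c * X ^ 2 + C d * X + C e : ℂ[X]).degree < 6 :=
    lt_of_le_of_lt (b := (2 : WithBot ℕ)) (by compute_degree) (by norm_num)
  have h1 := Lagrange.eq_interpolate (s := (Finset.univ : Finset (Fin 6))) (v := l) hl.injOn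
    (f := C c * X ^ 2 + C d * X + C e) (by simpa using hP)
  have h2 := Lagrange.eval_interpolate_not_at_node (s := (Finset.univ : Finset (Fin 6))) (v := l)
    (x := t) (fun i => (C c * X ^ 2 + C d * X + C e).eval (l i)) (fun i _ => (ht i).symm)
  rw [← h1, Lagrange.eval_nodal] at h2
  simp only [eval_add, eval_mul, eval_C, eval_pow, eval_X] at h2
  have hne : ∏ i, (t - l i) ≠ 0 := by
    rw [Finset.prod_ne_zero_iff]
    intro i _ h
    exact ht i (sub_eq_zero.1 h).symm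
  rw [eq_div_iff hne, h2, Finset.sum_mul, Finset.mul_sum, ← Finset.sum_neg_distrib]
  refine Finset.sum_congr rfl fun i _ => ?_
  have hw : Lagrange.nodalWeight (Finset.univ : Finset (Fin 6)) l i = (DD l i)⁻¹ := by
    rw [Lagrange.nodalWeight, DD, Finset.prod_inv_distrib]
  rw [hw]
  have h3 : l i - t ≠ 0 := sub_ne_zero.2 (ht i)
  have h4 : t - l i ≠ 0 := sub_ne_zero.2 (ht i).symm
  have h5 := DD_ne hl i
  have h6 : (t - l i)⁻¹ = - (l i - t)⁻¹ := by
    rw [← neg_sub, inv_neg]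
  rw [h6]
  field_simp

/-- `x` is a point of the cone with elliptic coordinates `t` and scale `κ` -/
structure Gen (l x : Fin 6 → ℂ) (κ : ℂ) (t : Fin 3 → ℂ) : Prop where
  hl : Function.Injective l
  ht : Function.Injective t
  hκ : κ ≠ 0
  hne : ∀ i k, l i ≠ t k
  hx : ∀ i, x i ^ 2 * DD l i = κ * ((l i - t 0) * (l i - t 1) * (l i - t 2))

variable {l x : Fin 6 → ℂ} {κ : ℂ} {t : Fin 3 → ℂ}

lemma Gen.sub_ne (h : Gen l x κ t) (i : Fin 6) (k : Fin 3) : l i - t k ≠ 0 :=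
  sub_ne_zero.2 (h.hne i k)

lemma Gen.x_ne (h : Gen l x κ t) (i : Fin 6) : x i ≠ 0 := by
  intro h0
  have h1 := h.hx i
  rw [h0] at h1
  have : κ * ((l i - t 0) * (l i - t 1) * (l i - t 2)) ≠ 0 :=
    mul_ne_zero h.hκ (mul_ne_zero (mul_ne_zero (h.sub_ne i 0) (h.sub_ne i 1)) (h.sub_ne i 2))
  apply this
  rw [← h1]
  ring

lemma Gen.sq (h : Gen l x κ t) (i : Fin 6) :
    x i ^ 2 = κ * ((l i - t 0) * (l i - t 1) * (l i - t 2)) / DD l i := by
  rw [eq_div_iff (DD_ne h.hl i), h.hx i]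

lemma Gen.r1 (h : Gen l x κ t) : ∑ i, x i ^ 2 = 0 := by
  rw [← sum_poly4 h.hl 0 κ (-κ * (t 0 + t 1 + t 2)) (κ * (t 0 * t 1 + t 0 * t 2 + t 1 * t 2))
    (-κ * (t 0 * t 1 * t 2))]
  refine Finset.sum_congr rfl fun i _ => ?_
  rw [h.sq i]
  ring

lemma Gen.r2 (h : Gen l x κ t) : ∑ i, l i * x i ^ 2 = 0 := by
  rw [← sum_poly4 h.hl κ (-κ * (t 0 + t 1 + t 2)) (κ * (t 0 * t 1 + t 0 * t 2 + t 1 * t 2))
    (-κ * (t 0 * t 1 * t 2)) 0]
  refine Finset.sum_congr rfl fun i _ => ?_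
  rw [h.sq i]
  ring

lemma Gen.cone (h : Gen l x κ t) : ConeD l x := ⟨h.r1, h.r2⟩

lemma Gen.sq' (h : Gen l x κ t) (k : Fin 3) (i : Fin 6) :
    x i ^ 2 = κ * ((l i - t k) * (l i - t (k + 1)) * (l i - t (k + 2))) / DD l i := by
  rw [h.sq i]
  fin_cases k
  · rfl
  · show _ = κ * ((l i - t 1) * (l i - t 2) * (l i - t 0)) / DD l i
    ring
  · show _ = κ * ((l i - t 2) * (l i - t 0) * (l i - t 1)) / DD l i
    ring

/-- the coordinate vectors -/
noncomputable def wv (l x : Fin 6 → ℂ) (t : Fin 3 → ℂ) (k : Fin 3) (i : Fin 6) : ℂ :=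
  x i / (l i - t k)

/-- the common norm of the coordinate vectors -/
noncomputable def sv (l : Fin 6 → ℂ) (κ : ℂ) (t : Fin 3 → ℂ) (k : Fin 3) : ℂ :=
  - (κ * ((t k - t (k + 1)) * (t k - t (k + 2)))) / ∏ i, (t k - l i)

lemma Gen.r3 (h : Gen l x κ t) (k : Fin 3) : ∑ i, x i * wv l x t k i = 0 := by
  rw [← sum_poly4 h.hl 0 0 κ (-κ * (t (k + 1) + t (k + 2))) (κ * (t (k + 1) * t (k + 2)))]
  refine Finset.sum_congr rfl fun i _ => ?_
  have e : x i * wv l x t k i = x i ^ 2 / (l i - t k) := by rw [wv]; ring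
  rw [e, h.sq' k i]
  have h1 := h.sub_ne i k
  have h2 := DD_ne h.hl i
  field_simp
  ring

lemma Gen.r4 (h : Gen l x κ t) (k : Fin 3) : ∑ i, l i * (x i * wv l x t k i) = 0 := by
  rw [← sum_poly4 h.hl 0 κ (-κ * (t (k + 1) + t (k + 2))) (κ * (t (k + 1) * t (k + 2))) 0]
  refine Finset.sum_congr rfl fun i _ => ?_
  have e : x i * wv l x t k i = x i ^ 2 / (l i - t k) := by rw [wv]; ring
  rw [e, h.sq' k i]
  have h1 := h.sub_ne i k
  have h2 := DD_ne h.hl i
  field_simp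
  ring

lemma Gen.r5' (h : Gen l x κ t) (k : Fin 3) :
    ∑ i, wv l x t k i * wv l x t (k + 1) i = 0 := by
  rw [← sum_poly4 h.hl 0 0 0 κ (-κ * t (k + 2))]
  refine Finset.sum_congr rfl fun i _ => ?_
  have e : wv l x t k i * wv l x t (k + 1) i = x i ^ 2 / ((l i - t k) * (l i - t (k + 1))) := by
    rw [wv, wv, div_mul_div_comm, pow_two]
  rw [e, h.sq' k i]
  have h1 := h.sub_ne i k
  have h1' := h.sub_ne i (k + 1)
  have h2 := DD_ne h.hl i
  field_simp
  ring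

lemma Gen.r6' (h : Gen l x κ t) (k : Fin 3) :
    ∑ i, l i * (wv l x t k i * wv l x t (k + 1) i) = 0 := by
  rw [← sum_poly4 h.hl 0 0 κ (-κ * t (k + 2)) 0]
  refine Finset.sum_congr rfl fun i _ => ?_
  have e : wv l x t k i * wv l x t (k + 1) i = x i ^ 2 / ((l i - t k) * (l i - t (k + 1))) := by
    rw [wv, wv, div_mul_div_comm, pow_two]
  rw [e, h.sq' k i]
  have h1 := h.sub_ne i k
  have h1' := h.sub_ne i (k + 1)
  have h2 := DD_ne h.hl i
  field_simp
  ring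

lemma Gen.r5 (h : Gen l x κ t) {k m : Fin 3} (hkm : k ≠ m) :
    ∑ i, wv l x t k i * wv l x t m i = 0 := by
  have h1 : m = k + 1 ∨ k = m + 1 := by
    revert hkm; revert k m; decide
  rcases h1 with rfl | rfl
  · exact h.r5' k
  · rw [← h.r5' m]
    exact Finset.sum_congr rfl fun i _ => by ring

lemma Gen.r6 (h : Gen l x κ t) {k m : Fin 3} (hkm : k ≠ m) :
    ∑ i, l i * (wv l x t k i * wv l x t m i) = 0 := by
  have h1 : m = k + 1 ∨ k = m + 1 := by
    revert hkm; revert k m; decide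
  rcases h1 with rfl | rfl
  · exact h.r6' k
  · rw [← h.r6' m]
    exact Finset.sum_congr rfl fun i _ => by ring

lemma Gen.r7 (h : Gen l x κ t) (k : Fin 3) :
    ∑ i, wv l x t k i * wv l x t k i = sv l κ t k := by
  have h0 := sum_bary h.hl κ (-κ * (t (k + 1) + t (k + 2))) (κ * (t (k + 1) * t (k + 2))) (t k)
    (fun i => h.hne i k)
  have h3 : sv l κ t k = - (κ * t k ^ 2 + -κ * (t (k + 1) + t (k + 2)) * t k +
      κ * (t (k + 1) * t (k + 2))) / ∏ i, (t k - l i) := by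
    rw [sv]
    congr 1
    ring
  rw [h3, ← h0]
  refine Finset.sum_congr rfl fun i _ => ?_
  have e : wv l x t k i * wv l x t k i = x i ^ 2 / ((l i - t k) * (l i - t k)) := by
    rw [wv, div_mul_div_comm, pow_two]
  rw [e, h.sq' k i]
  have h1 := h.sub_ne i k
  have h2 := DD_ne h.hl i
  field_simp
  ring

lemma Gen.r8 (h : Gen l x κ t) (k : Fin 3) :
    ∑ i, l i * (wv l x t k i * wv l x t k i) = t k * sv l κ t k := by
  rw [← h.r7 k, Finset.mul_sum]
  have h3 := h.r3 k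
  rw [← sub_eq_zero, ← Finset.sum_sub_distrib, ← h3]
  refine Finset.sum_congr rfl fun i _ => ?_
  have h1 := h.sub_ne i k
  rw [wv]
  field_simp

lemma Gen.prod_ne (h : Gen l x κ t) (k : Fin 3) : ∏ i, (t k - l i) ≠ 0 := by
  rw [Finset.prod_ne_zero_iff]
  intro i _ h'
  exact h.hne i k (sub_eq_zero.1 h').symm

lemma Gen.t_sub_ne (h : Gen l x κ t) {k m : Fin 3} (hkm : k ≠ m) : t k - t m ≠ 0 :=
  sub_ne_zero.2 fun h' => hkm (h.ht h')

lemma Gen.sv_ne (h : Gen l x κ t) (k : Fin 3) : sv l κ t k ≠ 0 := by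
  rw [sv]
  refine div_ne_zero (neg_ne_zero.2 (mul_ne_zero h.hκ (mul_ne_zero (h.t_sub_ne ?_)
    (h.t_sub_ne ?_)))) (h.prod_ne k)
  · revert k; decide
  · revert k; decide

end Pool.Agent.Lib.MP_6e94a1_ag
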