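import Pool.Agent.Lib.MP_6e94a1_ag.Quad9
import Pool.Agent.Lib.MP_6e94a1_ag.Proj

/-!
# Density of generic points, charts
-/

open Polynomial Finset Filter Topology
open scoped LinearAlgebra.Projectivization

set_option linter.all false

namespace Pool.Agent.Lib.MP_6e94a1_ag

/-- continuous square roots along a path -/
lemma exists_sqrt_path (u q : ℂ) : ∃ w : ℂ → ℂ, Tendsto w (𝓝 0) (𝓝 u) ∧
    ∀ᶠ s in 𝓝 (0 : ℂ), w s ^ 2 = u ^ 2 + s * q := by
  by_cases hu : u = 0
  · subst hu
    have h1 : ∀ s : ℂ, ∃ z : ℂ, z ^ 2 = s * q := fun s =>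
      IsAlgClosed.exists_pow_nat_eq _ (by norm_num)
    choose w hw using h1
    refine ⟨w, ?_, Eventually.of_forall fun s => by rw [hw]; ring⟩
    rw [tendsto_zero_iff_norm_tendsto_zero]
    have h2 : ∀ s, ‖w s‖ = Real.sqrt ‖s * q‖ := by
      intro s
      rw [← hw, norm_pow, Real.sqrt_sq (norm_nonneg _)]
    simp only [h2]
    have h3 : Continuous (fun s : ℂ => Real.sqrt ‖s * q‖) := by fun_prop
    have h4 := h3.tendsto 0
    simpa using h4
  · refine ⟨fun s => u * sqr (1 + s * q / u ^ 2), ?_, ?_⟩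
    · have h1 : ContinuousAt (fun s : ℂ => u * sqr (1 + s * q / u ^ 2)) 0 := by
        have e1 : ContinuousAt (fun s : ℂ => 1 + s * q / u ^ 2) 0 := by fun_prop
        have e2 : ContinuousAt sqr (1 + 0 * q / u ^ 2) := by
          have : (1 : ℂ) + 0 * q / u ^ 2 = 1 := by ring
          rw [this]
          exact (analyticAt_sqr Complex.one_mem_slitPlane).continuousAt
        exact continuousAt_const.mul
          (ContinuousAt.comp (g := sqr) (f := fun s : ℂ => 1 + s * q / u ^ 2) e2 e1)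
      have h2 := h1.tendsto
      have h3 : u * sqr (1 + 0 * q / u ^ 2) = u := by
        have : (1 : ℂ) + 0 * q / u ^ 2 = 1 := by ring
        rw [this, sqr_one, mul_one]
      rwa [h3] at h2
    · have h1 : Continuous (fun s : ℂ => 1 + s * q / u ^ 2) := by fun_prop
      have h2 : ∀ᶠ s in 𝓝 (0 : ℂ), 1 + s * q / u ^ 2 ≠ 0 := by
        refine (h1.tendsto 0).eventually_ne ?_
        have : (1 : ℂ) + 0 * q / u ^ 2 = 1 := by ring
        rw [this]
        exact one_ne_zero
      filter_upwards [h2] with s hs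
      rw [mul_pow, sqr_sq hs]
      field_simp

/-- low degree -/
lemma eval_of_coeff {p : ℂ[X]} (hnat : p.natDegree < 6) (h5 : p.coeff 5 = 0) (h4 : p.coeff 4 = 0)
    (s : ℂ) : p.eval s = p.coeff 3 * s ^ 3 + p.coeff 2 * s ^ 2 + p.coeff 1 * s + p.coeff 0 := by
  rw [Polynomial.eval_eq_sum_range' hnat]
  simp only [Finset.sum_range_succ, Finset.sum_range_zero, h4, h5]
  ring

lemma exists_interp {l : Fin 6 → ℂ} (hl : Function.Injective l) (v : Fin 6 → ℂ) :
    ∃ p : ℂ[X], p.degree < 6 ∧ ∀ i, p.eval (l i) = v i := by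
  refine ⟨Lagrange.interpolate Finset.univ l v, ?_, fun i =>
    Lagrange.eval_interpolate_at_node _ hl.injOn (Finset.mem_univ i)⟩
  have := Lagrange.degree_interpolate_lt (s := (Finset.univ : Finset (Fin 6)))
      (r := v) hl.injOn
  simpa using this

/-- the cubic attached to a point of the cone -/
lemma exists_cubic {l u : Fin 6 → ℂ} (hl : Function.Injective l) (hu : ConeD l u) :
    ∃ a b c d : ℂ, ∀ i, u i ^ 2 * DD l i = a * l i ^ 3 + b * l i ^ 2 + c * l i + d := by
  obtain ⟨h1, h2⟩ := hu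
  obtain ⟨p, hdeg, hev⟩ := exists_interp hl (fun i => u i ^ 2 * DD l i)
  have hc5 : p.coeff 5 = 0 := by
    rw [← sum_coeff hl hdeg, ← h1]
    refine Finset.sum_congr rfl fun i _ => ?_
    rw [hev, mul_div_cancel_right₀ _ (DD_ne hl i)]
  have hnat : p.natDegree < 6 := by
    by_cases h0 : p = 0
    · rw [h0]; simp
    · exact (Polynomial.natDegree_lt_iff_degree_lt h0).2 hdeg
  have hdegX : (p * X).degree < 6 := by
    by_cases h0 : p = 0
    · rw [h0, zero_mul, degree_zero]
      exact WithBot.bot_lt_coe 6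
    have h3 : p.natDegree < 5 := by
      by_contra hcon
      have h4 : p.natDegree = 5 := by omega
      have h5 : p.leadingCoeff = 0 := by rw [Polynomial.leadingCoeff, h4, hc5]
      exact h0 (Polynomial.leadingCoeff_eq_zero.1 h5)
    have h4 : (p * X).natDegree < 6 := by
      rw [Polynomial.natDegree_mul_X h0]
      omega
    exact (Polynomial.natDegree_lt_iff_degree_lt (mul_ne_zero h0 X_ne_zero)).1 h4
  have hc4 : p.coeff 4 = 0 := by
    have h3 := sum_coeff hl hdegX
    have h4 : (p * X).coeff 5 = p.coeff 4 := Polynomial.coeff_mul_X p 4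
    rw [← h4, ← h3, ← h2]
    refine Finset.sum_congr rfl fun i _ => ?_
    rw [Polynomial.eval_mul, Polynomial.eval_X, hev]
    have := DD_ne hl i
    field_simp
  refine ⟨p.coeff 3, p.coeff 2, p.coeff 1, p.coeff 0, fun i => ?_⟩
  have h3 := eval_of_coeff hnat hc5 hc4 (l i)
  rw [hev i] at h3
  exact h3

/-- a nonzero polynomial does not vanish frequently near a point -/
lemma frequently_eval_ne {g : ℂ[X]} (hg0 : g ≠ 0) (z : ℂ) : ∃ᶠ s in 𝓝 z, g.eval s ≠ 0 := by
  have hfin : {s | g.eval s = 0}.Finite := by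
    have : {s | g.eval s = 0} ⊆ (g.roots.toFinset : Set ℂ) := by
      intro s hs
      simp only [Finset.mem_coe, Multiset.mem_toFinset]
      exact (Polynomial.mem_roots hg0).2 hs
    exact (Finset.finite_toSet _).subset this
  have hd : Dense {s | g.eval s = 0}ᶜ := hfin.countable.dense_compl ℂ
  exact mem_closure_iff_frequently.1 (hd z)

lemma quartic_ne {A4 A3 A2 A1 A0 : ℂ} (h : A4 ≠ 0) :
    (C A4 * X ^ 4 + C A3 * X ^ 3 + C A2 * X ^ 2 + C A1 * X + C A0 : ℂ[X]) ≠ 0 := by
  intro h0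
  have h2 := congrArg (fun p => p.coeff 4) h0
  simp [coeff_X, coeff_C] at h2
  exact h h2

lemma linear_ne {A1 A0 : ℂ} (h : A1 ≠ 0) : (C A1 * X + C A0 : ℂ[X]) ≠ 0 := by
  intro h0
  have h2 := congrArg (fun p => p.coeff 1) h0
  simp [coeff_X, coeff_C] at h2
  exact h h2

/-- points with three distinct elliptic coordinates -/
lemma gen_of_cubic {l w : Fin 6 → ℂ} (hl : Function.Injective l) {a b c d : ℂ} (ha : a ≠ 0)
    (hd : b ^ 2 * c ^ 2 - 4 * a * c ^ 3 - 4 * b ^ 3 * d - 27 * a ^ 2 * d ^ 2 +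
      18 * a * b * c * d ≠ 0)
    (hw : ∀ i, w i ^ 2 * DD l i = a * l i ^ 3 + b * l i ^ 2 + c * l i + d)
    (hw0 : ∀ i, a * l i ^ 3 + b * l i ^ 2 + c * l i + d ≠ 0) :
    ∃ (κ : ℂ) (t : Fin 3 → ℂ), Gen l w κ t := by
  set P : Cubic ℂ := ⟨a, b, c, d⟩ with hP
  have hs : (P.toPoly.map (RingHom.id ℂ)).Splits := IsAlgClosed.splits _
  obtain ⟨x, y, z, h3⟩ := (Cubic.splits_iff_roots_eq_three (φ := RingHom.id ℂ) (P := P) ha).1 hs
  have hne := (Cubic.discr_ne_zero_iff_roots_ne (φ := RingHom.id ℂ) (P := P) ha h3).1 hd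
  have hprod := Cubic.eq_prod_three_roots (φ := RingHom.id ℂ) (P := P) ha h3
  have hev : ∀ s, a * s ^ 3 + b * s ^ 2 + c * s + d = a * ((s - x) * (s - y) * (s - z)) := by
    intro s
    have := congrArg (fun p : ℂ[X] => p.eval s) hprod
    simp [Cubic.toPoly, Cubic.map, hP] at this
    linear_combination this
  refine ⟨a, ![x, y, z], hl, ?_, ha, ?_, ?_⟩
  · obtain ⟨n1, n2, n3⟩ := hne
    intro i j hij
    fin_cases i <;> fin_cases j
    · rfl
    · exact absurd hij n1
    · exact absurd hij n2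
    · exact absurd hij.symm n1
    · rfl
    · exact absurd hij n3
    · exact absurd hij.symm n2
    · exact absurd hij.symm n3
    · rfl
  · intro i k h0
    apply hw0 i
    rw [hev]
    fin_cases k
    · have : l i = x := h0
      rw [this]; ring
    · have : l i = y := h0
      rw [this]; ring
    · have : l i = z := h0
      rw [this]; ring
  · intro i
    rw [hw, hev]
    rfl

/-- density of the generic points -/
lemma frequently_gen {l u : Fin 6 → ℂ} (hl : Function.Injective l) (hu : ConeD l u) :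
    ∃ᶠ w in 𝓝 u, ConeD l w ∧ ∃ (κ : ℂ) (t : Fin 3 → ℂ), Gen l w κ t := by
  obtain ⟨a, b, c, d, h⟩ := exists_cubic hl hu
  -- a good constant
  obtain ⟨e, he⟩ : ∃ e : ℂ, e ∉ insert 0 (Finset.univ.image fun i => - l i ^ 3) :=
    Infinite.exists_notMem_finset _
  simp only [Finset.mem_insert, Finset.mem_image, Finset.mem_univ, true_and, not_or,
    not_exists] at he
  obtain ⟨he0, he1⟩ := he
  have hq : ∀ i, l i ^ 3 + e ≠ 0 := fun i h0 => he1 i (by linear_combination -h0)
  -- the paths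
  have hpath := fun i => exists_sqrt_path (u i) ((l i ^ 3 + e) / DD l i)
  choose w hw1 hw2 using hpath
  have hwt : Tendsto (fun s i => w i s) (𝓝 0) (𝓝 u) := tendsto_pi_nhds.2 hw1
  have hw2' := eventually_all.2 hw2
  have hws : ∀ᶠ s in 𝓝 (0 : ℂ), ∀ i, w i s ^ 2 * DD l i =
      (a + s) * l i ^ 3 + b * l i ^ 2 + c * l i + (d + s * e) := by
    filter_upwards [hw2'] with s hs i
    rw [hs i]
    have h1 := h i
    have h2 := DD_ne hl i
    field_simp
    linear_combination h1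
  -- the polynomial conditions
  have hf0 := quartic_ne (A4 := -27 * e ^ 2) (A3 := -27 * (2 * a * e ^ 2 + 2 * d * e))
    (A2 := -27 * (a ^ 2 * e ^ 2 + 4 * a * d * e + d ^ 2) + 18 * b * c * e)
    (A1 := -4 * c ^ 3 - 4 * b ^ 3 * e - 27 * (2 * a ^ 2 * d * e + 2 * a * d ^ 2) +
          18 * b * c * (a * e + d))
    (A0 := b ^ 2 * c ^ 2 - 4 * a * c ^ 3 - 4 * b ^ 3 * d - 27 * a ^ 2 * d ^ 2 +
          18 * a * b * c * d) (mul_ne_zero (by norm_num) (pow_ne_zero 2 he0))
  have hg1 : (C (1 : ℂ) * X + C a : ℂ[X]) ≠ 0 := linear_ne one_ne_zero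
  have hg2 : (∏ i, (C (l i ^ 3 + e) * X + C (a * l i ^ 3 + b * l i ^ 2 + c * l i + d)) : ℂ[X]) ≠ 0 :=
    Finset.prod_ne_zero_iff.2 fun i _ => linear_ne (hq i)
  have hfreq := frequently_eval_ne (mul_ne_zero (mul_ne_zero hf0 hg1) hg2) 0
  refine hwt.frequently ((hfreq.and_eventually hws).mono ?_)
  rintro s ⟨hs, hs'⟩
  simp only [eval_mul, eval_add, eval_C, eval_pow, eval_X, eval_prod] at hs
  have hs1 := left_ne_zero_of_mul (left_ne_zero_of_mul hs)
  have hs2 := right_ne_zero_of_mul (left_ne_zero_of_mul hs)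
  have hs3 := Finset.prod_ne_zero_iff.1 (right_ne_zero_of_mul hs)
  have k1 : b ^ 2 * c ^ 2 - 4 * (a + s) * c ^ 3 - 4 * b ^ 3 * (d + s * e) -
      27 * (a + s) ^ 2 * (d + s * e) ^ 2 + 18 * (a + s) * b * c * (d + s * e) ≠ 0 := by
    intro h0
    apply hs1
    rw [← h0]
    ring
  have k2 : a + s ≠ 0 := by
    intro h0
    apply hs2
    rw [← h0]
    ring
  have k3 : ∀ i, (a + s) * l i ^ 3 + b * l i ^ 2 + c * l i + (d + s * e) ≠ 0 := by
    intro i h0
    apply hs3 i (Finset.mem_univ i)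
    rw [← h0]
    ring
  obtain ⟨κ, t, hG⟩ := gen_of_cubic hl k2 k1 hs' k3
  exact ⟨hG.cone, κ, t, hG⟩

end Pool.Agent.Lib.MP_6e94a1_ag
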