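import Pool.Agent.Lib.MP_6e94a1_ag.Quad10

/-!
# Charts of intersections of two diagonal quadrics, the global theorem
-/

open Finset Filter Topology
open scoped LinearAlgebra.Projectivization

set_option linter.all false

namespace Pool.Agent.Lib.MP_6e94a1_ag

/-- intersection of two diagonal quadrics -/
def XD (l : Fin 6 → ℂ) : Set (ℙ ℂ (Fin 6 → ℂ)) :=
  {p | ConeD l p.rep}

lemma ConeD.smul {l x : Fin 6 → ℂ} (h : ConeD l x) (c : ℂ) : ConeD l (c • x) := by
  obtain ⟨h1, h2⟩ := h
  constructor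
  · simp only [Pi.smul_apply, smul_eq_mul, mul_pow, ← Finset.mul_sum, h1, mul_zero]
  · have e : ∀ i, l i * (c • x) i ^ 2 = c ^ 2 * (l i * x i ^ 2) := fun i => by
      simp only [Pi.smul_apply, smul_eq_mul]
      ring
    simp only [e, ← Finset.mul_sum, h2, mul_zero]

lemma mem_XD {l x : Fin 6 → ℂ} (hx : x ≠ 0) :
    Projectivization.mk ℂ x hx ∈ XD l ↔ ConeD l x := by
  rw [XD, Set.mem_setOf_eq]
  obtain ⟨a, ha⟩ := (Projectivization.mk_eq_mk_iff' ℂ _ _
    (Projectivization.rep_nonzero (Projectivization.mk ℂ x hx)) hx).1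
    (Projectivization.mk_rep _)
  have ha0 : a ≠ 0 := by
    rintro rfl
    rw [zero_smul] at ha
    exact Projectivization.rep_nonzero _ ha.symm
  constructor
  · intro h
    rw [← ha] at h
    have := h.smul a⁻¹
    rwa [inv_smul_smul₀ ha0] at this
  · intro h
    rw [← ha]
    exact h.smul a

/-- two nonzero coordinates -/
lemma exists_two {l x : Fin 6 → ℂ} (hx : x ≠ 0) (h : ConeD l x) :
    ∃ a b : Fin 6, a ≠ b ∧ x a ≠ 0 ∧ x b ≠ 0 := by
  obtain ⟨a, ha⟩ := Function.ne_iff.1 hx
  simp only [Pi.zero_apply] at ha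
  by_contra hcon
  push Not at hcon
  have hz : ∀ b, b ≠ a → x b = 0 := fun b hb => hcon a b hb.symm ha
  have h1 := h.1
  rw [Finset.sum_eq_single a (fun b _ hb => by rw [hz b hb]; norm_num)
    (fun h => absurd (Finset.mem_univ _) h)] at h1
  exact ha ((pow_eq_zero_iff two_ne_zero).1 h1)

/-- sums of squares outside two indices -/
lemma sum_split {a b : Fin 6} (hab : a ≠ b) (f : Fin 6 → ℂ) :
    ∑ i, f i = ∑ i, (if i = a ∨ i = b then 0 else f i) + f a + f b := by
  have h1 : ∀ i, f i = (if i = a ∨ i = b then 0 else f i) + ((if i = a then f a else 0) +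
      (if i = b then f b else 0)) := by
    intro i
    by_cases h1 : i = a
    · subst h1
      simp [hab]
    · by_cases h2 : i = b
      · subst h2
        simp [hab.symm]
      · simp [h1, h2]
  conv_lhs => rw [Finset.sum_congr rfl fun i _ => h1 i]
  rw [Finset.sum_add_distrib, Finset.sum_add_distrib]
  simp
  ring

/-- the remaining sums -/
noncomputable def S0 (a b : Fin 6) (z : Fin 6 → ℂ) : ℂ :=
  ∑ i, (if i = a ∨ i = b then 0 else z i ^ 2)

noncomputable def S1 (l : Fin 6 → ℂ) (a b : Fin 6) (z : Fin 6 → ℂ) : ℂ :=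
  ∑ i, (if i = a ∨ i = b then 0 else l i * z i ^ 2)

noncomputable def sqA (l : Fin 6 → ℂ) (a b : Fin 6) (z : Fin 6 → ℂ) : ℂ :=
  (l b * S0 a b z - S1 l a b z) / (l a - l b)

noncomputable def sqB (l : Fin 6 → ℂ) (a b : Fin 6) (z : Fin 6 → ℂ) : ℂ :=
  (l a * S0 a b z - S1 l a b z) / (l b - l a)

/-- the local retraction onto the cone -/
noncomputable def retr (l : Fin 6 → ℂ) (v : Fin 6 → ℂ) (a b : Fin 6) (z : Fin 6 → ℂ) :
    Fin 6 → ℂ :=
  fun i => if i = a then v a * sqr (sqA l a b z / v a ^ 2) else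
    if i = b then v b * sqr (sqB l a b z / v b ^ 2) else z i

lemma sqA_cone {l z : Fin 6 → ℂ} {a b : Fin 6} (hl : Function.Injective l) (hab : a ≠ b)
    (h : ConeD l z) : sqA l a b z = z a ^ 2 ∧ sqB l a b z = z b ^ 2 := by
  obtain ⟨h1, h2⟩ := h
  have hne : l a - l b ≠ 0 := sub_ne_zero.2 fun h => hab (hl h)
  have hne' : l b - l a ≠ 0 := sub_ne_zero.2 fun h => hab (hl h).symm
  rw [sum_split hab] at h1 h2
  have e0 : S0 a b z + z a ^ 2 + z b ^ 2 = 0 := h1
  have e1 : S1 l a b z + l a * z a ^ 2 + l b * z b ^ 2 = 0 := h2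
  constructor
  · rw [sqA, div_eq_iff hne]
    linear_combination l b * e0 - e1
  · rw [sqB, div_eq_iff hne']
    linear_combination l a * e0 - e1

lemma retr_cone {l v z : Fin 6 → ℂ} {a b : Fin 6} (hl : Function.Injective l) (hab : a ≠ b)
    (hva : v a ≠ 0) (hvb : v b ≠ 0) (hA : sqA l a b z ≠ 0) (hB : sqB l a b z ≠ 0) :
    ConeD l (retr l v a b z) := by
  have hne : l a - l b ≠ 0 := sub_ne_zero.2 fun h => hab (hl h)
  have hne' : l b - l a ≠ 0 := sub_ne_zero.2 fun h => hab (hl h).symm
  have ea : retr l v a b z a ^ 2 = sqA l a b z := by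
    simp only [retr, if_true]
    rw [mul_pow, sqr_sq (div_ne_zero hA (pow_ne_zero 2 hva))]
    field_simp
  have eb : retr l v a b z b ^ 2 = sqB l a b z := by
    simp only [retr, if_true, hab.symm, if_false]
    rw [mul_pow, sqr_sq (div_ne_zero hB (pow_ne_zero 2 hvb))]
    field_simp
  have e0 : ∑ i, (if i = a ∨ i = b then 0 else retr l v a b z i ^ 2) = S0 a b z := by
    refine Finset.sum_congr rfl fun i _ => ?_
    by_cases h : i = a ∨ i = b
    · simp [h]
    · simp only [h, if_false]
      push Not at h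
      simp [retr, h.1, h.2]
  have e1 : ∑ i, (if i = a ∨ i = b then 0 else l i * retr l v a b z i ^ 2) = S1 l a b z := by
    refine Finset.sum_congr rfl fun i _ => ?_
    by_cases h : i = a ∨ i = b
    · simp [h]
    · simp only [h, if_false]
      push Not at h
      simp [retr, h.1, h.2]
  constructor
  · rw [sum_split hab, e0, ea, eb, sqA, sqB]
    field_simp
    ring
  · rw [sum_split hab, e1, ea, eb, sqA, sqB]
    field_simp
    ring

lemma analyticAt_S0 (a b : Fin 6) (v : Fin 6 → ℂ) : AnalyticAt ℂ (S0 a b) v := by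
  have hp : ∀ i, AnalyticAt ℂ (fun z : Fin 6 → ℂ => z i) v := fun i =>
    (ContinuousLinearMap.proj (R := ℂ) (φ := fun _ : Fin 6 => ℂ) i).analyticAt v
  have h : AnalyticAt ℂ (fun z : Fin 6 → ℂ => ∑ i, (if i = a ∨ i = b then 0 else z i ^ 2)) v := by
    refine Finset.analyticAt_fun_sum _ fun i _ => ?_
    by_cases h : i = a ∨ i = b
    · simp only [h, if_true]; exact analyticAt_const
    · simp only [h, if_false]; exact (hp i).pow 2
  exact h

lemma analyticAt_S1 (l : Fin 6 → ℂ) (a b : Fin 6) (v : Fin 6 → ℂ) :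
    AnalyticAt ℂ (S1 l a b) v := by
  have hp : ∀ i, AnalyticAt ℂ (fun z : Fin 6 → ℂ => z i) v := fun i =>
    (ContinuousLinearMap.proj (R := ℂ) (φ := fun _ : Fin 6 => ℂ) i).analyticAt v
  have h : AnalyticAt ℂ (fun z : Fin 6 → ℂ => ∑ i, (if i = a ∨ i = b then 0 else
      l i * z i ^ 2)) v := by
    refine Finset.analyticAt_fun_sum _ fun i _ => ?_
    by_cases h : i = a ∨ i = b
    · simp only [h, if_true]; exact analyticAt_const
    · simp only [h, if_false]; exact analyticAt_const.mul ((hp i).pow 2)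
  exact h

/-- charts of the cone -/
lemma hasConeChart_XD {l v : Fin 6 → ℂ} (hl : Function.Injective l) (hv : v ≠ 0)
    (hvX : Projectivization.mk ℂ v hv ∈ XD l) : HasConeChart (XD l) v := by
  have hc : ConeD l v := (mem_XD hv).1 hvX
  obtain ⟨a, b, hab, hva, hvb⟩ := exists_two hv hc
  have hne : l a - l b ≠ 0 := sub_ne_zero.2 fun h => hab (hl h)
  have hne' : l b - l a ≠ 0 := sub_ne_zero.2 fun h => hab (hl h).symm
  obtain ⟨eA, eB⟩ := sqA_cone hl hab hc
  have aA : AnalyticAt ℂ (sqA l a b) v :=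
    ((analyticAt_const.mul (analyticAt_S0 a b v)).sub (analyticAt_S1 l a b v)).div
      analyticAt_const hne
  have aB : AnalyticAt ℂ (sqB l a b) v :=
    ((analyticAt_const.mul (analyticAt_S0 a b v)).sub (analyticAt_S1 l a b v)).div
      analyticAt_const hne'
  have aA' : AnalyticAt ℂ (fun z => v a * sqr (sqA l a b z / v a ^ 2)) v := by
    have h1 : AnalyticAt ℂ (fun z => sqA l a b z / v a ^ 2) v :=
      aA.div analyticAt_const (pow_ne_zero 2 hva)
    have h2 : AnalyticAt ℂ sqr (sqA l a b v / v a ^ 2) := by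
      rw [eA, div_self (pow_ne_zero 2 hva)]
      exact analyticAt_sqr Complex.one_mem_slitPlane
    exact analyticAt_const.mul
      (AnalyticAt.fun_comp (g := sqr) (f := fun z => sqA l a b z / v a ^ 2) h2 h1)
  have aB' : AnalyticAt ℂ (fun z => v b * sqr (sqB l a b z / v b ^ 2)) v := by
    have h1 : AnalyticAt ℂ (fun z => sqB l a b z / v b ^ 2) v :=
      aB.div analyticAt_const (pow_ne_zero 2 hvb)
    have h2 : AnalyticAt ℂ sqr (sqB l a b v / v b ^ 2) := by
      rw [eB, div_self (pow_ne_zero 2 hvb)]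
      exact analyticAt_sqr Complex.one_mem_slitPlane
    exact analyticAt_const.mul
      (AnalyticAt.fun_comp (g := sqr) (f := fun z => sqB l a b z / v b ^ 2) h2 h1)
  have cA : v a * sqr (sqA l a b v / v a ^ 2) = v a := by
    rw [eA, div_self (pow_ne_zero 2 hva), sqr_one, mul_one]
  have cB : v b * sqr (sqB l a b v / v b ^ 2) = v b := by
    rw [eB, div_self (pow_ne_zero 2 hvb), sqr_one, mul_one]
  have nA : ∀ᶠ z in 𝓝 v, sqA l a b z ≠ 0 :=
    aA.continuousAt.tendsto.eventually_ne (by rw [eA]; exact pow_ne_zero 2 hva)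
  have nB : ∀ᶠ z in 𝓝 v, sqB l a b z ≠ 0 :=
    aB.continuousAt.tendsto.eventually_ne (by rw [eB]; exact pow_ne_zero 2 hvb)
  refine ⟨6, retr l v a b, id, ?_, ?_, continuousAt_id, ?_, ?_⟩
  · rw [id, analyticAt_pi_iff]
    intro i
    by_cases h1 : i = a
    · subst h1
      simpa only [retr, if_true] using aA'
    · by_cases h2 : i = b
      · subst h2
        simpa only [retr, if_true, h1, if_false] using aB'
      · simp only [retr, h1, h2, if_false]
        exact (ContinuousLinearMap.proj (R := ℂ) (φ := fun _ : Fin 6 => ℂ) i).analyticAt v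
  · ext i
    by_cases h1 : i = a
    · subst h1
      simpa only [retr, if_true, id] using cA
    · by_cases h2 : i = b
      · subst h2
        simpa only [retr, if_true, h1, if_false, id] using cB
      · simp only [retr, h1, h2, if_false, id]
  · -- signs
    have sA : ∀ᶠ z in 𝓝 v, v a * sqr (sqA l a b z / v a ^ 2) + z a ≠ 0 := by
      have h1 : ContinuousAt (fun z => v a * sqr (sqA l a b z / v a ^ 2) + z a) v :=
        aA'.continuousAt.add (continuous_apply a).continuousAt
      refine h1.tendsto.eventually_ne ?_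
      rw [cA, ← two_mul]
      exact mul_ne_zero two_ne_zero hva
    have sB : ∀ᶠ z in 𝓝 v, v b * sqr (sqB l a b z / v b ^ 2) + z b ≠ 0 := by
      have h1 : ContinuousAt (fun z => v b * sqr (sqB l a b z / v b ^ 2) + z b) v :=
        aB'.continuousAt.add (continuous_apply b).continuousAt
      refine h1.tendsto.eventually_ne ?_
      rw [cB, ← two_mul]
      exact mul_ne_zero two_ne_zero hvb
    filter_upwards [nA, nB, sA, sB] with w w1 w2 w3 w4 hw hwX
    have hcw := (mem_XD hw).1 hwX
    obtain ⟨fA, fB⟩ := sqA_cone hl hab hcw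
    ext i
    by_cases h1 : i = a
    · subst h1
      simp only [retr, if_true, id]
      have h2 : (v i * sqr (sqA l i b w / v i ^ 2)) ^ 2 = w i ^ 2 := by
        rw [mul_pow, sqr_sq (div_ne_zero w1 (pow_ne_zero 2 hva)), fA]
        field_simp
      have h3 : (v i * sqr (sqA l i b w / v i ^ 2) + w i) *
          (v i * sqr (sqA l i b w / v i ^ 2) - w i) = 0 := by linear_combination h2
      exact sub_eq_zero.1 ((mul_eq_zero.1 h3).resolve_left w3)
    · by_cases h2 : i = b
      · subst h2
        simp only [retr, if_true, h1, if_false, id]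
        have h2 : (v i * sqr (sqB l a i w / v i ^ 2)) ^ 2 = w i ^ 2 := by
          rw [mul_pow, sqr_sq (div_ne_zero w2 (pow_ne_zero 2 hvb)), fB]
          field_simp
        have h3 : (v i * sqr (sqB l a i w / v i ^ 2) + w i) *
            (v i * sqr (sqB l a i w / v i ^ 2) - w i) = 0 := by linear_combination h2
        exact sub_eq_zero.1 ((mul_eq_zero.1 h3).resolve_left w4)
      · simp only [retr, h1, h2, if_false, id]
  · filter_upwards [nA, nB] with z z1 z2 hz
    rw [mem_XD hz]
    exact retr_cone hl hab hva hvb z1 z2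

end Pool.Agent.Lib.MP_6e94a1_ag
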