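import Pool.Agent.Lib.MP_6e94a1_ag.Quad11

/-!
# The global theorem for intersections of two diagonal quadrics
-/

open Filter Topology Set Projectivization
open scoped LinearAlgebra.Projectivization

set_option linter.all false

namespace Pool.Agent.Lib.MP_6e94a1_ag

lemma Gen.smul {l x : Fin 6 → ℂ} {κ : ℂ} {t : Fin 3 → ℂ} (h : Gen l x κ t) {c : ℂ} (hc : c ≠ 0) :
    Gen l (c • x) (c ^ 2 * κ) t := by
  refine ⟨h.hl, h.ht, mul_ne_zero (pow_ne_zero 2 hc) h.hκ, h.hne, fun i => ?_⟩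
  have := h.hx i
  simp only [Pi.smul_apply, smul_eq_mul]
  linear_combination c ^ 2 * this

lemma gen_open {m y0 : Fin 6 → ℂ} {κ : ℂ} {T0 : Fin 3 → ℂ} (h : Gen m y0 κ T0) :
    ∀ᶠ w in 𝓝 y0, ConeD m w → ∃ (κ : ℂ) (T : Fin 3 → ℂ), Gen m w κ T := by
  obtain ⟨σ, hσ, hσ0, hσ1, -⟩ := exists_chartD h
  have hσt : Tendsto σ (𝓝 y0) (𝓝 ((1 : ℂ), T0)) := by
    have := hσ.continuousAt.tendsto
    rwa [hσ0] at this
  filter_upwards [hσ1, hσt.eventually (goodP_eventually h (goodP_self h))] with w h1 h2 h3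
  have h4 := gen_cpar h h2
  rw [h1 h3] at h4
  exact ⟨_, _, h4⟩

/-- the linear isomorphism permuting and scaling coordinates -/
noncomputable def gequiv (π : Equiv.Perm (Fin 6)) (e : Fin 6 → ℂ) (he : ∀ i, e i ≠ 0) :
    (Fin 6 → ℂ) ≃ₗ[ℂ] (Fin 6 → ℂ) :=
  LinearEquiv.ofBijective (gmap π e) (by
    have hinj : Function.Injective (gmap π e) := by
      rw [injective_iff_map_eq_zero]
      intro x hx
      ext i
      have := congrFun hx (π i)
      rw [gmap_apply] at this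
      exact (mul_eq_zero.1 this).resolve_left (he i)
    exact ⟨hinj, LinearMap.injective_iff_surjective.1 hinj⟩)

lemma gequiv_apply (π : Equiv.Perm (Fin 6)) (e : Fin 6 → ℂ) (he : ∀ i, e i ≠ 0)
    (x : Fin 6 → ℂ) : gequiv π e he x = gmap π e x := rfl

lemma gmap_cone {l m : Fin 6 → ℂ} {π : Equiv.Perm (Fin 6)} {e : Fin 6 → ℂ} {N a b c d : ℂ}
    (hN : N ≠ 0) (hδ : b * c - a * d ≠ 0)
    (h : ∀ i, a * l i + b ≠ 0 ∧ m (π i) * (a * l i + b) = c * l i + d ∧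
        e i ^ 2 = N * (a * l i + b)) (x : Fin 6 → ℂ) :
    ConeD m (gmap π e x) ↔ ConeD l x := by
  have e1 : ∑ j, gmap π e x j ^ 2 = N * (a * ∑ i, l i * x i ^ 2 + b * ∑ i, x i ^ 2) := by
    rw [← Equiv.sum_comp π, Finset.mul_sum, Finset.mul_sum, ← Finset.sum_add_distrib,
      Finset.mul_sum]
    refine Finset.sum_congr rfl fun i _ => ?_
    rw [gmap_apply, mul_pow, (h i).2.2]
    ring
  have e2 : ∑ j, m j * gmap π e x j ^ 2 = N * (c * ∑ i, l i * x i ^ 2 + d * ∑ i, x i ^ 2) := by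
    rw [← Equiv.sum_comp π, Finset.mul_sum, Finset.mul_sum, ← Finset.sum_add_distrib,
      Finset.mul_sum]
    refine Finset.sum_congr rfl fun i _ => ?_
    rw [gmap_apply, mul_pow, (h i).2.2]
    linear_combination N * x i ^ 2 * (h i).2.1
  rw [ConeD, e1, e2]
  constructor
  · rintro ⟨h1, h2⟩
    have h1' := (mul_eq_zero.1 h1).resolve_left hN
    have h2' := (mul_eq_zero.1 h2).resolve_left hN
    constructor
    · apply mul_left_cancel₀ hδ
      linear_combination c * h1' - a * h2'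
    · apply mul_left_cancel₀ hδ
      linear_combination b * h2' - d * h1'
  · rintro ⟨h1, h2⟩
    rw [h1, h2]
    simp

/-- the global theorem in the diagonal case -/
theorem main_quad {l m : Fin 6 → ℂ} (hl : Function.Injective l) (hm : Function.Injective m)
    {U₁ U₂ : Set (ℙ ℂ (Fin 6 → ℂ))} (h₁ : IsOpenIn (XD l) U₁) (h₂ : IsOpenIn (XD m) U₂)
    (hc₁ : IsConn U₁) {φ ψ : ℙ ℂ (Fin 6 → ℂ) → ℙ ℂ (Fin 6 → ℂ)}
    (hφ : MapsTo φ U₁ U₂) (hψ : MapsTo ψ U₂ U₁) (hψφ : ∀ p ∈ U₁, ψ (φ p) = p)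
    (hφψ : ∀ p ∈ U₂, φ (ψ p) = p)
    (hφh : IsHolomorphicOn φ U₁) (hψh : IsHolomorphicOn ψ U₂)
    (hln : ∀ C, IsLine C → C ⊆ XD l → ∃ C', IsLine C' ∧ C' ⊆ XD m ∧ φ '' (C ∩ U₁) = C' ∩ U₂) :
    ∃ g : (Fin 6 → ℂ) ≃ₗ[ℂ] (Fin 6 → ℂ), (∀ x, ConeD m (g x) ↔ ConeD l x) ∧
      ∀ p ∈ U₁, φ p = Projectivization.map (g : (Fin 6 → ℂ) →ₗ[ℂ] (Fin 6 → ℂ)) g.injective p := by
  classical
  -- a generic point of `U₂`
  obtain ⟨p₀, hp₀⟩ := hc₁.1
  obtain ⟨u₂, hu₂, hu₂U, κ₂, T₂, hu₂G⟩ : ∃ (u : Fin 6 → ℂ) (hu : u ≠ 0), mk ℂ u hu ∈ U₂ ∧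
      ∃ κ T, Gen m u κ T := by
    have hφp : φ p₀ ∈ U₂ := hφ hp₀
    have hrep := mk_rep (φ p₀)
    have hmem : mk ℂ (φ p₀).rep (φ p₀).rep_nonzero ∈ U₂ := by rwa [hrep]
    have hcone : ConeD m (φ p₀).rep := (mem_XD _).1 (h₂.subset hmem)
    have hev := h₂.eventually _ hmem
    have hne : ∀ᶠ w in 𝓝 (φ p₀).rep, w ≠ 0 :=
      IsOpen.eventually_mem isOpen_compl_singleton (φ p₀).rep_nonzero
    obtain ⟨w, ⟨hw1, hw2⟩, hw4, hw5⟩ :=
      ((frequently_gen hm hcone).and_eventually (hev.and hne)).exists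
    exact ⟨w, hw5, hw4 hw5 ((mem_XD hw5).2 hw1), hw2⟩
  -- its preimage
  set q := ψ (mk ℂ u₂ hu₂) with hq
  have hqU : q ∈ U₁ := hψ hu₂U
  have hqrep : mk ℂ q.rep q.rep_nonzero = q := mk_rep q
  have hqU' : mk ℂ q.rep q.rep_nonzero ∈ U₁ := by rwa [hqrep]
  obtain ⟨F, hFa, hFl⟩ := hφh q.rep q.rep_nonzero hqU'
  have hφq : φ q = mk ℂ u₂ hu₂ := hφψ _ hu₂U
  have hFq := hFl.self_of_nhds q.rep_nonzero hqU'
  obtain ⟨hFq0, hFq1⟩ := hFq
  rw [hqrep, hφq] at hFq1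
  obtain ⟨a, ha⟩ := (mk_eq_mk_iff' ℂ _ _ _ _).1 hFq1
  -- `F` at `q.rep` is generic
  have ha0 : a ≠ 0 := by
    rintro rfl
    rw [zero_smul] at ha
    exact hu₂ ha.symm
  obtain ⟨κF, TF, hFG⟩ : ∃ κ T, Gen m (F q.rep) κ T := by
    have := hu₂G.smul (inv_ne_zero ha0)
    rw [← ha, inv_smul_smul₀ ha0] at this
    exact ⟨_, _, this⟩
  have hFc : ContinuousAt F q.rep := hFa.continuousAt
  have e1 : ∀ᶠ w in 𝓝 q.rep, ConeD m (F w) → ∃ κ T, Gen m (F w) κ T :=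
    hFc.tendsto.eventually (gen_open hFG)
  have hcone : ConeD l q.rep := (mem_XD _).1 (h₁.subset hqU')
  have e3 := h₁.eventually _ hqU'
  have e4 : ∀ᶠ w in 𝓝 q.rep, w ≠ 0 :=
    IsOpen.eventually_mem isOpen_compl_singleton q.rep_nonzero
  have e5 : ∀ᶠ w in 𝓝 q.rep, AnalyticAt ℂ F w := hFa.eventually_analyticAt
  have e6 := eventually_eventually_nhds.2 hFl
  obtain ⟨v₁, ⟨hv₁c, κ₁, t₁, hv₁G⟩, hF1g, hv₁U, hv₁ne, hF1a, hF1l⟩ :=
    ((frequently_gen hl hcone).and_eventually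
      (e1.and (e3.and (e4.and (e5.and e6))))).exists
  have hv₁U' : mk ℂ v₁ hv₁ne ∈ U₁ := hv₁U hv₁ne ((mem_XD hv₁ne).2 hv₁c)
  obtain ⟨hF1ne, hF1e⟩ := hF1l.self_of_nhds hv₁ne hv₁U'
  have hF1U : mk ℂ (F v₁) hF1ne ∈ U₂ := by
    rw [← hF1e]
    exact hφ hv₁U'
  have hF1c : ConeD m (F v₁) := (mem_XD hF1ne).1 (h₂.subset hF1U)
  obtain ⟨κ', T', hF1G⟩ := hF1g hF1c
  obtain ⟨G, hGa, hGl⟩ := hψh (F v₁) hF1ne hF1U
  -- eventual facts near `v₁`
  have k1 : ∀ᶠ v in 𝓝 v₁, v ≠ 0 := IsOpen.eventually_mem isOpen_compl_singleton hv₁ne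
  have k2 := h₁.eventually hv₁ne hv₁U'
  have k3 : ∀ᶠ v in 𝓝 v₁, ConeD l v → ∃ (hv : v ≠ 0) (hFv : F v ≠ 0), mk ℂ v hv ∈ U₁ ∧
      φ (mk ℂ v hv) = mk ℂ (F v) hFv := by
    filter_upwards [k1, k2, hF1l] with v a1 a2 a3 a4
    have a5 := a2 a1 ((mem_XD a1).2 a4)
    obtain ⟨a6, a7⟩ := a3 a1 a5
    exact ⟨a1, a6, a5, a7⟩
  have hFc1 : ContinuousAt F v₁ := hF1a.continuousAt
  have k4 : ∀ᶠ v in 𝓝 v₁, ConeD l v → ∃ (hv : v ≠ 0) (hFv : F v ≠ 0) (hG : G (F v) ≠ 0),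
      mk ℂ v hv = mk ℂ (G (F v)) hG := by
    filter_upwards [k3, hFc1.tendsto.eventually hGl] with v a1 a2 a3
    obtain ⟨b1, b2, b3, b4⟩ := a1 a3
    have b5 : mk ℂ (F v) b2 ∈ U₂ := by rw [← b4]; exact hφ b3
    obtain ⟨b6, b7⟩ := a2 b2 b5
    refine ⟨b1, b2, b6, ?_⟩
    rw [← b7, ← b4, hψφ _ b3]
  have D : LocD l m F G v₁ (F v₁) κ₁ κ' t₁ T' := by
    refine ⟨hv₁G, hF1G, hF1a, hGa, rfl, ?_, ?_, ?_, ?_, ?_, ?_⟩
    · filter_upwards [k3] with v a1 a2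
      obtain ⟨b1, b2, b3, b4⟩ := a1 a2
      rw [← mem_XD b2, ← b4]
      exact h₂.subset (hφ b3)
    · filter_upwards [k4] with v a1 a2
      obtain ⟨b1, b2, b3, b4⟩ := a1 a2
      obtain ⟨c, hc⟩ := (mk_eq_mk_iff' ℂ _ _ _ _).1 b4.symm
      exact ⟨c, hc.symm⟩
    · exact (hGl.self_of_nhds hF1ne hF1U).1
    · have ht : Tendsto (fun t : ℂ => t • F v₁) (𝓝 1) (𝓝 (F v₁)) := by
        have h1 : Continuous (fun t : ℂ => t • F v₁) := continuous_id.smul continuous_const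
        have h2 := h1.tendsto 1
        rwa [one_smul] at h2
      obtain ⟨b1, b2⟩ := hGl.self_of_nhds hF1ne hF1U
      have hne : ∀ᶠ t : ℂ in 𝓝 1, t ≠ 0 := IsOpen.eventually_mem isOpen_compl_singleton
        (one_ne_zero)
      filter_upwards [ht.eventually hGl, hne] with t ht' hne'
      have c0 : t • F v₁ ≠ 0 := smul_ne_zero hne' hF1ne
      obtain ⟨c1, c2⟩ := ht' c0 (by rw [mk_smul_eq hF1ne]; exact hF1U)
      rw [mk_smul_eq hF1ne, b2] at c2
      obtain ⟨c, hc⟩ := (mk_eq_mk_iff' ℂ _ _ _ _).1 c2.symm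
      exact ⟨c, hc.symm⟩
    · -- radial
      have h1 : Tendsto (fun q : ℂ × (Fin 6 → ℂ) => q.1 • q.2) (𝓝 ((1 : ℂ), v₁)) (𝓝 v₁) := by
        have h1 : Continuous (fun q : ℂ × (Fin 6 → ℂ) => q.1 • q.2) :=
          continuous_fst.smul continuous_snd
        have h2 := h1.tendsto ((1 : ℂ), v₁)
        simpa using h2
      have h2 : Tendsto (fun q : ℂ × (Fin 6 → ℂ) => q.2) (𝓝 ((1 : ℂ), v₁)) (𝓝 v₁) :=
        continuous_snd.tendsto _
      filter_upwards [h1.eventually k3, h2.eventually k3] with q a1 a2 a3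
      obtain ⟨b1, b2, b3, b4⟩ := a1 (a3.smul q.1)
      obtain ⟨c1, c2, c3, c4⟩ := a2 a3
      rw [mk_smul_eq c1, c4] at b4
      obtain ⟨c, hc⟩ := (mk_eq_mk_iff' ℂ _ _ _ _).1 b4.symm
      exact ⟨c, hc.symm⟩
    · filter_upwards [k3, eventually_eventually_nhds.2 k3] with x a1 a2 hx v hlin hv
      have hline : IsLine {p : ℙ ℂ (Fin 6 → ℂ) | p.submodule ≤ Submodule.span ℂ {x, v}} := by
        refine ⟨_, ?_, rfl⟩
        have := finrank_span_eq_card hlin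
        rw [Matrix.range_cons, Matrix.range_cons, Matrix.range_empty, Set.union_empty,
          Set.singleton_union] at this
        exact this.trans (by simp)
      have hcmb : ∀ w ∈ Submodule.span ℂ {x, v}, ConeD l w := by
        intro w hw
        rw [Submodule.mem_span_pair] at hw
        obtain ⟨a, b, rfl⟩ := hw
        exact hv a b
      have hsub : {p : ℙ ℂ (Fin 6 → ℂ) | p.submodule ≤ Submodule.span ℂ {x, v}} ⊆ XD l := by
        intro p hp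
        induction p using Projectivization.ind with
        | h w hw =>
          rw [mem_XD]
          have hp' : (ℂ ∙ w) ≤ Submodule.span ℂ {x, v} := hp
          exact hcmb w (hp' (Submodule.mem_span_singleton_self w))
      obtain ⟨C', ⟨W, hW, rfl⟩, hC'V, hC'e⟩ := hln _ hline hsub
      refine ⟨W, ?_, ?_, ?_⟩
      · intro w hw
        by_cases hw0 : w = 0
        · rw [hw0]
          constructor <;> simp
        · rw [← mem_XD hw0]
          apply hC'V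
          show (ℂ ∙ w) ≤ W
          rw [Submodule.span_singleton_le_iff_mem]
          exact hw
      · obtain ⟨b1, b2, b3, b4⟩ := a1 hx
        have hm' : φ (mk ℂ x b1) ∈ {p : ℙ ℂ (Fin 6 → ℂ) | p.submodule ≤ W} ∩ U₂ := by
          rw [← hC'e]
          refine ⟨_, ⟨?_, b3⟩, rfl⟩
          show (ℂ ∙ x) ≤ Submodule.span ℂ {x, v}
          rw [Submodule.span_singleton_le_iff_mem]
          exact Submodule.subset_span (by simp)
        rw [b4] at hm'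
        have hm1 : (ℂ ∙ (F x)) ≤ W := hm'.1
        exact hm1 (Submodule.mem_span_singleton_self _)
      · have ht : Tendsto (fun t : ℂ => x + t • v) (𝓝 0) (𝓝 x) := by
          have h1 : Continuous (fun t : ℂ => x + t • v) :=
            continuous_const.add (continuous_id.smul continuous_const)
          have h2 := h1.tendsto 0
          simpa using h2
        filter_upwards [ht.eventually a2] with t ht'
        have hmem : x + t • v ∈ Submodule.span ℂ {x, v} :=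
          Submodule.add_mem _ (Submodule.subset_span (by simp))
            (Submodule.smul_mem _ _ (Submodule.subset_span (by simp)))
        obtain ⟨b1, b2, b3, b4⟩ := ht' (hcmb _ hmem)
        have hm' : φ (mk ℂ _ b1) ∈ {p : ℙ ℂ (Fin 6 → ℂ) | p.submodule ≤ W} ∩ U₂ := by
          rw [← hC'e]
          refine ⟨_, ⟨?_, b3⟩, rfl⟩
          show (ℂ ∙ _) ≤ Submodule.span ℂ {x, v}
          rw [Submodule.span_singleton_le_iff_mem]
          exact hmem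
        rw [b4] at hm'
        have hm1 : (ℂ ∙ _) ≤ W := hm'.1
        exact hm1 (Submodule.mem_span_singleton_self _)
  obtain ⟨π, e, N, a', b', c', d', hN, hδ, hπ, hloc⟩ := local_quad D
  have he : ∀ i, e i ≠ 0 := by
    intro i h0
    have h1 := (hπ i).2.2
    rw [h0] at h1
    exact mul_ne_zero hN (hπ i).1 (by rw [← h1]; norm_num)
  refine ⟨gequiv π e he, fun x => gmap_cone hN hδ hπ x, ?_⟩
  have hgne : ∀ {w : Fin 6 → ℂ}, w ≠ 0 → gequiv π e he w ≠ 0 := fun hw h0 =>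
    hw ((gequiv π e he).injective (by rw [h0, map_zero]))
  refine eqOn_of_agreeNear h₁ hc₁ hφh ?_
    (fun v hv hvV => hasConeChart_XD hl hv hvV) hv₁ne hv₁U' ?_
  · intro v hv _
    refine ⟨gmap π e, (gmap π e).toContinuousLinearMap.analyticAt v, ?_⟩
    refine Eventually.of_forall ?_
    intro w hw _
    exact ⟨hgne hw, by rw [Projectivization.map_mk]; rfl⟩
  · filter_upwards [hloc, k3] with v a1 a2 hv hvU
    have hc : ConeD l v := (mem_XD hv).1 (h₁.subset hvU)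
    obtain ⟨b1, b2, b3, b4⟩ := a2 hc
    obtain ⟨c, hc'⟩ := a1 hc
    rw [b4, Projectivization.map_mk, mk_eq_mk_iff']
    exact ⟨c, hc'.symm⟩

end Pool.Agent.Lib.MP_6e94a1_ag
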