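import Pool.Agent.Lib.MP_6e94a1_ag.Proj

/-!
# Linear changes of coordinates
-/

open Filter Topology Set Projectivization
open scoped LinearAlgebra.Projectivization

set_option linter.all false

namespace Pool.Agent.Lib.MP_6e94a1_ag

variable {n : ℕ}

/-- the projective transformation given by a linear isomorphism -/
noncomputable def pm (e : (Fin n → ℂ) ≃ₗ[ℂ] (Fin n → ℂ)) : ℙ ℂ (Fin n → ℂ) → ℙ ℂ (Fin n → ℂ) :=
  Projectivization.map (e : (Fin n → ℂ) →ₗ[ℂ] (Fin n → ℂ)) e.injective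

lemma equiv_ne (e : (Fin n → ℂ) ≃ₗ[ℂ] (Fin n → ℂ)) {v : Fin n → ℂ} (hv : v ≠ 0) : e v ≠ 0 :=
  fun h => hv (e.injective (by rw [h, map_zero]))

lemma pm_mk (e : (Fin n → ℂ) ≃ₗ[ℂ] (Fin n → ℂ)) {v : Fin n → ℂ} (hv : v ≠ 0) :
    pm e (mk ℂ v hv) = mk ℂ (e v) (equiv_ne e hv) := by
  rw [pm, Projectivization.map_mk]
  rfl

lemma pm_symm_pm (e : (Fin n → ℂ) ≃ₗ[ℂ] (Fin n → ℂ)) (p : ℙ ℂ (Fin n → ℂ)) :
    pm e.symm (pm e p) = p := by
  induction p using Projectivization.ind with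
  | h v hv =>
    rw [pm_mk, pm_mk]
    congr 1
    exact e.symm_apply_apply v

lemma pm_pm_symm (e : (Fin n → ℂ) ≃ₗ[ℂ] (Fin n → ℂ)) (p : ℙ ℂ (Fin n → ℂ)) :
    pm e (pm e.symm p) = p := by
  induction p using Projectivization.ind with
  | h v hv =>
    rw [pm_mk, pm_mk]
    congr 1
    exact e.apply_symm_apply v

lemma pm_trans (e f : (Fin n → ℂ) ≃ₗ[ℂ] (Fin n → ℂ)) (p : ℙ ℂ (Fin n → ℂ)) :
    pm (e.trans f) p = pm f (pm e p) := by
  induction p using Projectivization.ind with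
  | h v hv =>
    rw [pm_mk, pm_mk, pm_mk]
    rfl

lemma continuous_equiv (e : (Fin n → ℂ) ≃ₗ[ℂ] (Fin n → ℂ)) : Continuous e :=
  (e : (Fin n → ℂ) →ₗ[ℂ] (Fin n → ℂ)).continuous_of_finiteDimensional

lemma isOpen_preimage_pm (e : (Fin n → ℂ) ≃ₗ[ℂ] (Fin n → ℂ)) {O : Set (ℙ ℂ (Fin n → ℂ))}
    (hO : IsOpen[projTopology n] O) : IsOpen[projTopology n] (pm e ⁻¹' O) := by
  rw [isOpen_proj_iff] at hO ⊢
  intro v hv hvO
  rw [mem_preimage, pm_mk] at hvO
  have h1 := hO (e v) (equiv_ne e hv) hvO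
  have h2 : Tendsto e (𝓝 v) (𝓝 (e v)) := (continuous_equiv e).tendsto v
  filter_upwards [h2.eventually h1] with w hw hw0
  rw [mem_preimage, pm_mk]
  exact hw (equiv_ne e hw0)

lemma continuous_pm (e : (Fin n → ℂ) ≃ₗ[ℂ] (Fin n → ℂ)) :
    @Continuous _ _ (projTopology n) (projTopology n) (pm e) :=
  @Continuous.mk _ _ (projTopology n) (projTopology n) _ fun O hO => isOpen_preimage_pm e hO

lemma IsOpenIn.preimage {X U : Set (ℙ ℂ (Fin n → ℂ))} (h : IsOpenIn X U)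
    (e : (Fin n → ℂ) ≃ₗ[ℂ] (Fin n → ℂ)) : IsOpenIn (pm e ⁻¹' X) (pm e ⁻¹' U) := by
  obtain ⟨O, hO, rfl⟩ := h
  exact ⟨pm e ⁻¹' O, isOpen_preimage_pm e hO, rfl⟩

lemma preimage_eq_image (e : (Fin n → ℂ) ≃ₗ[ℂ] (Fin n → ℂ)) (U : Set (ℙ ℂ (Fin n → ℂ))) :
    pm e ⁻¹' U = pm e.symm '' U := by
  ext p
  constructor
  · intro hp
    exact ⟨pm e p, hp, pm_symm_pm e p⟩
  · rintro ⟨q, hq, rfl⟩
    rw [mem_preimage, pm_pm_symm]
    exact hq

lemma IsConn.preimage {U : Set (ℙ ℂ (Fin n → ℂ))} (h : IsConn U)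
    (e : (Fin n → ℂ) ≃ₗ[ℂ] (Fin n → ℂ)) : IsConn (pm e ⁻¹' U) := by
  rw [preimage_eq_image]
  exact @IsConnected.image _ _ (projTopology n) (projTopology n) _ h _
    (@Continuous.continuousOn _ _ (projTopology n) (projTopology n) _ _ (continuous_pm e.symm))

lemma IsHolomorphicOn.transport {φ : ℙ ℂ (Fin n → ℂ) → ℙ ℂ (Fin n → ℂ)}
    {U : Set (ℙ ℂ (Fin n → ℂ))} (h : IsHolomorphicOn φ U)
    (e f : (Fin n → ℂ) ≃ₗ[ℂ] (Fin n → ℂ)) :
    IsHolomorphicOn (fun p => pm f (φ (pm e p))) (pm e ⁻¹' U) := by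
  intro v hv hvU
  rw [mem_preimage, pm_mk] at hvU
  obtain ⟨F, hF, hFe⟩ := h (e v) (equiv_ne e hv) hvU
  have he : AnalyticAt ℂ e v :=
    (e : (Fin n → ℂ) →ₗ[ℂ] (Fin n → ℂ)).toContinuousLinearMap.analyticAt v
  have hf : ∀ w, AnalyticAt ℂ f w := fun w =>
    (f : (Fin n → ℂ) →ₗ[ℂ] (Fin n → ℂ)).toContinuousLinearMap.analyticAt w
  refine ⟨fun w => f (F (e w)), ?_, ?_⟩
  · have h1 : AnalyticAt ℂ (fun w => F (e w)) v := AnalyticAt.fun_comp (g := F) (f := e) hF he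
    exact AnalyticAt.fun_comp (g := f) (f := fun w => F (e w)) (hf _) h1
  · have h2 : Tendsto e (𝓝 v) (𝓝 (e v)) := (continuous_equiv e).tendsto v
    filter_upwards [h2.eventually hFe] with w hw hw0 hwU
    rw [mem_preimage, pm_mk] at hwU
    obtain ⟨h3, h4⟩ := hw (equiv_ne e hw0) hwU
    refine ⟨equiv_ne f h3, ?_⟩
    rw [pm_mk, h4, pm_mk]

lemma IsLine.image {C : Set (ℙ ℂ (Fin n → ℂ))} (h : IsLine C)
    (e : (Fin n → ℂ) ≃ₗ[ℂ] (Fin n → ℂ)) : IsLine (pm e '' C) := by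
  obtain ⟨W, hW, rfl⟩ := h
  refine ⟨W.map (e : (Fin n → ℂ) →ₗ[ℂ] (Fin n → ℂ)), ?_, ?_⟩
  · rw [← hW]
    exact LinearEquiv.finrank_map_eq e W
  · ext p
    induction p using Projectivization.ind with
    | h v hv =>
      constructor
      · rintro ⟨q, hq, hqp⟩
        rw [← hqp]
        induction q using Projectivization.ind with
        | h w hw =>
          rw [mem_setOf_eq, submodule_mk, Submodule.span_singleton_le_iff_mem] at hq
          rw [pm_mk, mem_setOf_eq, submodule_mk, Submodule.span_singleton_le_iff_mem]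
          exact Submodule.mem_map_of_mem hq
      · intro hp
        rw [mem_setOf_eq, submodule_mk, Submodule.span_singleton_le_iff_mem] at hp
        obtain ⟨w, hw, hwv⟩ := Submodule.mem_map.1 hp
        have hwv' : e w = v := hwv
        have hw0 : w ≠ 0 := by
          rintro rfl
          exact hv (by rw [← hwv', map_zero])
        refine ⟨mk ℂ w hw0, ?_, ?_⟩
        · rw [mem_setOf_eq, submodule_mk, Submodule.span_singleton_le_iff_mem]
          exact hw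
        · rw [pm_mk]
          congr 1

end Pool.Agent.Lib.MP_6e94a1_ag
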