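import Pool.Agent.Lib.MP_6e94a1_ag.Quad12
import Pool.Agent.Lib.MP_6e94a1_ag.Diag
import Pool.Agent.Lib.MP_6e94a1_ag.Transport

/-!
# The global theorem for smooth intersections of two quadrics
-/

open Filter Topology Set Projectivization Matrix
open scoped LinearAlgebra.Projectivization

set_option linter.all false

namespace Pool.Agent.Lib.MP_6e94a1_ag

lemma quad_smul (A : Matrix (Fin 6) (Fin 6) ℂ) (v : Fin 6 → ℂ) (c : ℂ) :
    (c • v) ⬝ᵥ (A *ᵥ (c • v)) = c ^ 2 * (v ⬝ᵥ (A *ᵥ v)) := by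
  rw [Matrix.mulVec_smul, dotProduct_smul, smul_dotProduct, smul_eq_mul, smul_eq_mul]
  ring

lemma mem_TwoQuadrics {A B : Matrix (Fin 6) (Fin 6) ℂ} {x : Fin 6 → ℂ} (hx : x ≠ 0) :
    mk ℂ x hx ∈ TwoQuadrics A B ↔ x ⬝ᵥ (A *ᵥ x) = 0 ∧ x ⬝ᵥ (B *ᵥ x) = 0 := by
  rw [TwoQuadrics, mem_setOf_eq]
  obtain ⟨a, ha⟩ := (mk_eq_mk_iff' ℂ _ _ (rep_nonzero (mk ℂ x hx)) hx).1 (mk_rep _)
  have ha0 : a ≠ 0 := by
    rintro rfl
    rw [zero_smul] at ha
    exact rep_nonzero _ ha.symm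
  rw [← ha, quad_smul, quad_smul]
  constructor
  · rintro ⟨h1, h2⟩
    exact ⟨(mul_eq_zero.1 h1).resolve_left (pow_ne_zero 2 ha0),
      (mul_eq_zero.1 h2).resolve_left (pow_ne_zero 2 ha0)⟩
  · rintro ⟨h1, h2⟩
    rw [h1, h2]
    simp

lemma pre_TwoQuadrics {A B : Matrix (Fin 6) (Fin 6) ℂ} {e : (Fin 6 → ℂ) ≃ₗ[ℂ] (Fin 6 → ℂ)}
    {l : Fin 6 → ℂ} (h : ∀ x : Fin 6 → ℂ, (e x ⬝ᵥ (A *ᵥ e x) = 0 ∧ e x ⬝ᵥ (B *ᵥ e x) = 0) ↔
        (∑ i, x i ^ 2 = 0 ∧ ∑ i, l i * x i ^ 2 = 0)) :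
    pm e ⁻¹' (TwoQuadrics A B) = XD l := by
  ext p
  induction p using Projectivization.ind with
  | h v hv =>
    rw [mem_preimage, pm_mk, mem_TwoQuadrics, mem_XD]
    exact h v

theorem main_two_quadrics {A B A' B' : Matrix (Fin 6) (Fin 6) ℂ} (hA : A.IsSymm)
    (hB : B.IsSymm) (hA' : A'.IsSymm) (hB' : B'.IsSymm) (hs : SmoothPencil A B)
    (hs' : SmoothPencil A' B') {U₁ U₂ : Set (ℙ ℂ (Fin 6 → ℂ))}
    (h₁ : IsOpenIn (TwoQuadrics A B) U₁) (h₂ : IsOpenIn (TwoQuadrics A' B') U₂)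
    (hc₁ : IsConn U₁) {φ : ℙ ℂ (Fin 6 → ℂ) → ℙ ℂ (Fin 6 → ℂ)}
    (hφ : IsBiholomorphic φ U₁ U₂)
    (hln : ∀ C, IsLine C → C ⊆ TwoQuadrics A B → ∃ C', IsLine C' ∧ C' ⊆ TwoQuadrics A' B' ∧
      φ '' (C ∩ U₁) = C' ∩ U₂) :
    ∃ g : (Fin 6 → ℂ) ≃ₗ[ℂ] (Fin 6 → ℂ), pm g '' TwoQuadrics A B = TwoQuadrics A' B' ∧
      ∀ p ∈ U₁, φ p = pm g p := by
  obtain ⟨e, l, hl, he⟩ := exists_diag hA hB hs
  obtain ⟨f, m, hm, hf⟩ := exists_diag hA' hB' hs'
  obtain ⟨hφ1, hφ2, ψ, hψ1, hψ2, hψφ, hφψ⟩ := hφ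
  have pe := pre_TwoQuadrics he
  have pf := pre_TwoQuadrics hf
  have k₁ : IsOpenIn (XD l) (pm e ⁻¹' U₁) := by rw [← pe]; exact h₁.preimage e
  have k₂ : IsOpenIn (XD m) (pm f ⁻¹' U₂) := by rw [← pf]; exact h₂.preimage f
  have main := main_quad hl hm k₁ k₂ (hc₁.preimage e)
    (φ := fun p => pm f.symm (φ (pm e p))) (ψ := fun p => pm e.symm (ψ (pm f p)))
    (by
      intro p hp
      rw [mem_preimage, pm_pm_symm]
      exact hφ1 hp)
    (by
      intro p hp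
      rw [mem_preimage, pm_pm_symm]
      exact hψ1 hp)
    (by
      intro p hp
      rw [pm_pm_symm, hψφ _ hp, pm_symm_pm])
    (by
      intro p hp
      rw [pm_pm_symm, hφψ _ hp, pm_symm_pm])
    (hφ2.transport e f.symm) (hψ2.transport f e.symm)
    (by
      intro C hC hCX
      have hCi := hC.image e
      have hCX' : pm e '' C ⊆ TwoQuadrics A B := by
        rintro _ ⟨p, hp, rfl⟩
        have := hCX hp
        rw [← pe] at this
        exact this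
      obtain ⟨C', hC', hC'X, hC'e⟩ := hln _ hCi hCX'
      refine ⟨pm f.symm '' C', hC'.image f.symm, ?_, ?_⟩
      · rintro _ ⟨p, hp, rfl⟩
        rw [← pf, mem_preimage, pm_pm_symm]
        exact hC'X hp
      · ext p
        constructor
        · rintro ⟨q, ⟨hq1, hq2⟩, rfl⟩
          have h1 : φ (pm e q) ∈ C' ∩ U₂ := by
            rw [← hC'e]
            exact ⟨pm e q, ⟨⟨q, hq1, rfl⟩, hq2⟩, rfl⟩
          refine ⟨⟨_, h1.1, rfl⟩, ?_⟩
          rw [mem_preimage]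
          simp only
          rw [pm_pm_symm]
          exact h1.2
        · rintro ⟨⟨q, hq, rfl⟩, hq2⟩
          rw [mem_preimage, pm_pm_symm] at hq2
          have h1 : q ∈ φ '' (pm e '' C ∩ U₁) := by
            rw [hC'e]
            exact ⟨hq, hq2⟩
          obtain ⟨_, ⟨⟨r, hr, rfl⟩, hr2⟩, rfl⟩ := h1
          exact ⟨r, ⟨hr, hr2⟩, rfl⟩)
  obtain ⟨g, hg1, hg2⟩ := main
  refine ⟨(e.symm.trans g).trans f, ?_, ?_⟩
  · have hpg : ∀ p, pm g p ∈ XD m ↔ p ∈ XD l := by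
      intro p
      induction p using Projectivization.ind with
      | h v hv =>
        rw [pm_mk, mem_XD, mem_XD]
        exact hg1 v
    ext p
    constructor
    · rintro ⟨q, hq, rfl⟩
      rw [pm_trans, pm_trans]
      have h1 : pm e.symm q ∈ XD l := by
        rw [← pe, mem_preimage, pm_pm_symm]
        exact hq
      have h2 := (hpg _).2 h1
      rw [← pf] at h2
      exact h2
    · intro hp
      refine ⟨pm e (pm g.symm (pm f.symm p)), ?_, ?_⟩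
      · have h1 : pm f.symm p ∈ XD m := by
          rw [← pf, mem_preimage, pm_pm_symm]
          exact hp
        have h2 : pm g.symm (pm f.symm p) ∈ XD l := by
          rw [← hpg, pm_pm_symm]
          exact h1
        rw [← pe] at h2
        exact h2
      · rw [pm_trans, pm_trans, pm_symm_pm, pm_pm_symm, pm_pm_symm]
  · intro p hp
    rw [pm_trans, pm_trans]
    have h1 : pm e.symm p ∈ pm e ⁻¹' U₁ := by
      rw [mem_preimage, pm_pm_symm]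
      exact hp
    have h2 := hg2 _ h1
    rw [pm_pm_symm] at h2
    have h3 : pm f.symm (φ p) = pm g (pm e.symm p) := h2
    rw [← h3, pm_pm_symm]

end Pool.Agent.Lib.MP_6e94a1_ag
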