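import Pool.Agent.Lib.MP_6e94a1_ag.Quad1

/-!
# Elliptic coordinates as a local chart
-/

open Polynomial Finset Filter Topology

set_option linter.all false

namespace Pool.Agent.Lib.MP_6e94a1_ag

/-- the square root -/
noncomputable def sqr (z : ℂ) : ℂ := Complex.exp (Complex.log z / 2)

lemma sqr_sq {z : ℂ} (hz : z ≠ 0) : sqr z ^ 2 = z := by
  rw [sqr, ← Complex.exp_nat_mul]
  push_cast
  rw [mul_div_cancel₀ _ (two_ne_zero), Complex.exp_log hz]

lemma sqr_one : sqr 1 = 1 := by simp [sqr]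

lemma sqr_ne (z : ℂ) : sqr z ≠ 0 := Complex.exp_ne_zero _

lemma hasDerivAt_sqr {z : ℂ} (hz : z ∈ Complex.slitPlane) :
    HasDerivAt sqr (sqr z * (z⁻¹ / 2)) z :=
  ((Complex.hasDerivAt_log hz).div_const 2).cexp

lemma analyticAt_sqr {z : ℂ} (hz : z ∈ Complex.slitPlane) : AnalyticAt ℂ sqr z :=
  ((analyticAt_clog hz).div analyticAt_const two_ne_zero).cexp

/-- the parameter space -/
abbrev PE : Type := ℂ × (Fin 3 → ℂ)

/-- one factor of the parametrisation -/
noncomputable def gf (l a s : ℂ) : ℂ := sqr ((l - s) / (l - a))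

lemma gf_self {l a : ℂ} (h : l ≠ a) : gf l a a = 1 := by
  rw [gf, div_self (sub_ne_zero.2 h), sqr_one]

lemma hasDerivAt_gf {l a s : ℂ} (h : (l - s) / (l - a) ∈ Complex.slitPlane) :
    HasDerivAt (gf l a) (- gf l a s / (2 * (l - s))) s := by
  have h1 : HasDerivAt (fun s => (l - s) / (l - a)) ((-1) / (l - a)) s := by
    simpa using ((hasDerivAt_id s).const_sub l).div_const (l - a)
  have h2 := (hasDerivAt_sqr h).comp s h1
  have hne : (l - s) / (l - a) ≠ 0 := Complex.slitPlane_ne_zero h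
  have hls : l - s ≠ 0 := fun h0 => hne (by rw [h0, zero_div])
  have hla : l - a ≠ 0 := fun h0 => hne (by rw [h0, div_zero])
  have e : - gf l a s / (2 * (l - s)) =
      sqr ((l - s) / (l - a)) * (((l - s) / (l - a))⁻¹ / 2) * ((-1) / (l - a)) := by
    rw [gf]
    field_simp
  rw [e]
  exact h2

lemma analyticAt_gf {l a s : ℂ} (h : (l - s) / (l - a) ∈ Complex.slitPlane) :
    AnalyticAt ℂ (gf l a) s := by
  have h1 : AnalyticAt ℂ (fun s => (l - s) / (l - a)) s := by
    have hne : (l - s) / (l - a) ≠ 0 := Complex.slitPlane_ne_zero h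
    have hla : l - a ≠ 0 := fun h0 => hne (by rw [h0, div_zero])
    exact (analyticAt_const.sub analyticAt_id).div analyticAt_const hla
  exact AnalyticAt.fun_comp (f := fun s => (l - s) / (l - a)) (g := sqr) (analyticAt_sqr h) h1

/-- the parametrisation of the cone by elliptic coordinates -/
noncomputable def cpar (l x0 : Fin 6 → ℂ) (t0 : Fin 3 → ℂ) (p : PE) (i : Fin 6) : ℂ :=
  p.1 * x0 i * (gf (l i) (t0 0) (p.2 0) * gf (l i) (t0 1) (p.2 1) * gf (l i) (t0 2) (p.2 2))

/-- good parameters -/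
structure GoodP (l : Fin 6 → ℂ) (t0 : Fin 3 → ℂ) (p : PE) : Prop where
  slit : ∀ i k, (l i - p.2 k) / (l i - t0 k) ∈ Complex.slitPlane
  ne : p.1 ≠ 0
  inj : Function.Injective p.2

variable {l x0 : Fin 6 → ℂ} {κ : ℂ} {t0 : Fin 3 → ℂ}

lemma goodP_self (h : Gen l x0 κ t0) : GoodP l t0 ((1 : ℂ), t0) := by
  refine ⟨fun i k => ?_, one_ne_zero, h.ht⟩
  simp only
  rw [div_self (h.sub_ne i k)]
  exact Complex.one_mem_slitPlane

lemma goodP_eventually {p : PE} (h : Gen l x0 κ t0) (hp : GoodP l t0 p) :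
    ∀ᶠ q in 𝓝 p, GoodP l t0 q := by
  have h1 : ∀ i k, ∀ᶠ q : PE in 𝓝 p, (l i - q.2 k) / (l i - t0 k) ∈ Complex.slitPlane := by
    intro i k
    have hc : ContinuousAt (fun q : PE => (l i - q.2 k) / (l i - t0 k)) p := by
      have : Continuous (fun q : PE => (l i - q.2 k) / (l i - t0 k)) := by
        have h2 : Continuous (fun q : PE => q.2 k) := (continuous_apply k).comp continuous_snd
        exact (continuous_const.sub h2).div_const _
      exact this.continuousAt
    exact hc.eventually (Complex.isOpen_slitPlane.mem_nhds (hp.slit i k))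
  have h2 : ∀ᶠ q : PE in 𝓝 p, q.1 ≠ 0 := (continuous_fst.tendsto p).eventually_ne hp.ne
  have h3 : ∀ i j : Fin 3, i ≠ j → ∀ᶠ q : PE in 𝓝 p, q.2 i - q.2 j ≠ 0 := by
    intro i j hij
    have hc : Continuous (fun q : PE => q.2 i - q.2 j) :=
      ((continuous_apply i).comp continuous_snd).sub ((continuous_apply j).comp continuous_snd)
    refine (hc.tendsto p).eventually_ne ?_
    exact sub_ne_zero.2 fun h' => hij (hp.inj h')
  have h1' := eventually_all.2 fun i => eventually_all.2 fun k => h1 i k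
  have h3' := eventually_all.2 fun i => eventually_all.2 fun j => eventually_all.2 fun hij => h3 i j hij
  filter_upwards [h1', h2, h3'] with q a1 a2 a3
  refine ⟨a1, a2, fun i j hij => ?_⟩
  by_contra hne
  exact a3 i j hne (sub_eq_zero.2 hij)

lemma cpar_self (h : Gen l x0 κ t0) : cpar l x0 t0 ((1 : ℂ), t0) = x0 := by
  ext i
  simp only [cpar]
  rw [gf_self (h.hne i 0), gf_self (h.hne i 1), gf_self (h.hne i 2)]
  ring

lemma gen_cpar (h : Gen l x0 κ t0) {p : PE} (hp : GoodP l t0 p) :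
    Gen l (cpar l x0 t0 p) (κ * p.1 ^ 2) p.2 := by
  refine ⟨h.hl, hp.inj, mul_ne_zero h.hκ (pow_ne_zero 2 hp.ne), ?_, ?_⟩
  · intro i k h0
    have := Complex.slitPlane_ne_zero (hp.slit i k)
    apply this
    rw [h0, sub_self, zero_div]
  · intro i
    have e : cpar l x0 t0 p i ^ 2 = p.1 ^ 2 * x0 i ^ 2 * (((l i - p.2 0) / (l i - t0 0)) *
        ((l i - p.2 1) / (l i - t0 1)) * ((l i - p.2 2) / (l i - t0 2))) := by
      rw [← sqr_sq (Complex.slitPlane_ne_zero (hp.slit i 0)),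
        ← sqr_sq (Complex.slitPlane_ne_zero (hp.slit i 1)),
        ← sqr_sq (Complex.slitPlane_ne_zero (hp.slit i 2))]
      simp only [cpar, gf]
      ring
    rw [e]
    have h0 := h.sub_ne i 0
    have h1 := h.sub_ne i 1
    have h2 := h.sub_ne i 2
    have hx := h.hx i
    have : p.1 ^ 2 * x0 i ^ 2 * (((l i - p.2 0) / (l i - t0 0)) *
        ((l i - p.2 1) / (l i - t0 1)) * ((l i - p.2 2) / (l i - t0 2))) * DD l i =
        p.1 ^ 2 * (x0 i ^ 2 * DD l i) * (((l i - p.2 0) / (l i - t0 0)) *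
        ((l i - p.2 1) / (l i - t0 1)) * ((l i - p.2 2) / (l i - t0 2))) := by ring
    rw [this, hx]
    field_simp

lemma analyticAt_cpar {p : PE} (hp : GoodP l t0 p) : AnalyticAt ℂ (cpar l x0 t0) p := by
  rw [analyticAt_pi_iff]
  intro i
  have hk : ∀ k, AnalyticAt ℂ (fun q : PE => q.2 k) p := fun k =>
    ((ContinuousLinearMap.proj (R := ℂ) (φ := fun _ : Fin 3 => ℂ) k).comp
      (ContinuousLinearMap.snd ℂ ℂ (Fin 3 → ℂ))).analyticAt p
  have hg : ∀ k, AnalyticAt ℂ (fun q : PE => gf (l i) (t0 k) (q.2 k)) p := fun k =>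
    AnalyticAt.fun_comp (f := fun q : PE => q.2 k) (g := gf (l i) (t0 k))
      (analyticAt_gf (hp.slit i k)) (hk k)
  exact (analyticAt_fst.mul analyticAt_const).mul (((hg 0).mul (hg 1)).mul (hg 2))

/-- the derivative of the parametrisation -/
lemma fderiv_cpar {p : PE} (hp : GoodP l t0 p) (q : PE) :
    fderiv ℂ (cpar l x0 t0) p q = (q.1 / p.1) • cpar l x0 t0 p -
      (1 / 2 : ℂ) • ∑ k, q.2 k • wv l (cpar l x0 t0 p) p.2 k := by
  have hd : HasFDerivAt (cpar l x0 t0) (fderiv ℂ (cpar l x0 t0) p) (p + (0 : ℂ) • q) := by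
    rw [zero_smul, add_zero]
    exact (analyticAt_cpar hp).differentiableAt.hasFDerivAt
  have hl : HasDerivAt (fun s : ℂ => p + s • q) q 0 := by
    have h := ((hasDerivAt_id (0:ℂ)).smul_const q).const_add p
    rw [one_smul] at h
    exact h
  have h1 := hd.comp_hasDerivAt (0 : ℂ) hl
  refine h1.unique ?_
  rw [hasDerivAt_pi]
  intro i
  have hk : ∀ k, HasDerivAt (fun s : ℂ => p.2 k + s * q.2 k) (q.2 k) 0 := by
    intro k
    simpa using ((hasDerivAt_id (0:ℂ)).mul_const (q.2 k)).const_add (p.2 k)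
  have h0 : HasDerivAt (fun s : ℂ => p.1 + s * q.1) (q.1) 0 := by
    simpa using ((hasDerivAt_id (0:ℂ)).mul_const (q.1)).const_add (p.1)
  have hg : ∀ k, HasDerivAt (fun s : ℂ => gf (l i) (t0 k) (p.2 k + s * q.2 k))
      (- gf (l i) (t0 k) (p.2 k) / (2 * (l i - p.2 k)) * q.2 k) 0 := by
    intro k
    have h2 := hasDerivAt_gf (hp.slit i k)
    have h3 : HasDerivAt (gf (l i) (t0 k)) (- gf (l i) (t0 k) (p.2 k) / (2 * (l i - p.2 k)))
        (p.2 k + 0 * q.2 k) := by simpa using h2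
    exact HasDerivAt.comp (h₂ := gf (l i) (t0 k)) (h := fun s : ℂ => p.2 k + s * q.2 k) (0 : ℂ)
      h3 (hk k)
  have h5 := (h0.mul_const (x0 i)).mul (((hg 0).mul (hg 1)).mul (hg 2))
  refine h5.congr_deriv ?_
  simp only [zero_mul, add_zero, Pi.mul_apply, Pi.sub_apply, Pi.smul_apply, smul_eq_mul,
    Fin.sum_univ_three, Pi.add_apply, wv, cpar]
  have h00 : p.1 ≠ 0 := hp.ne
  have hs : ∀ k, l i - p.2 k ≠ 0 := by
    intro k h0
    have := Complex.slitPlane_ne_zero (hp.slit i k)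
    apply this
    rw [h0, zero_div]
  have s0 := hs 0
  have s1 := hs 1
  have s2 := hs 2
  field_simp
  ring

end Pool.Agent.Lib.MP_6e94a1_ag
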