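import Pool.Agent.Lib.MP_6e94a1_ag.Quad2

/-!
# Elliptic coordinates as a local chart, the local inverse
-/

open Polynomial Finset Filter Topology

set_option linter.all false

namespace Pool.Agent.Lib.MP_6e94a1_ag

variable {l x0 : Fin 6 → ℂ} {κ : ℂ} {t0 : Fin 3 → ℂ}

/-- bilinear expression -/
lemma sum_comb (x : Fin 6 → ℂ) (m : Fin 6 → ℂ) (a : ℂ) (b : Fin 3 → ℂ) (w : Fin 3 → Fin 6 → ℂ)
    (y : Fin 6 → ℂ) :
    ∑ i, m i * (y i * (a • x - (1 / 2 : ℂ) • ∑ k, b k • w k) i) =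
      a * ∑ i, m i * (y i * x i) - (1 / 2) * ∑ k, b k * ∑ i, m i * (y i * w k i) := by
  simp only [Pi.sub_apply, Pi.smul_apply, smul_eq_mul, Finset.sum_apply, Fin.sum_univ_three,
    Pi.add_apply]
  simp only [Finset.mul_sum, ← Finset.sum_add_distrib, ← Finset.sum_sub_distrib]
  refine Finset.sum_congr rfl fun i _ => ?_
  ring

lemma fderiv_cpar_inj (h : Gen l x0 κ t0) {p : PE} (hp : GoodP l t0 p) {q : PE}
    (hq : fderiv ℂ (cpar l x0 t0) p q = 0) : q = 0 := by
  have G := gen_cpar h hp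
  rw [fderiv_cpar hp] at hq
  have h1 : ∀ k, q.2 k = 0 := by
    intro k
    have e := sum_comb (cpar l x0 t0 p) (fun _ => 1) (q.1 / p.1) q.2
      (wv l (cpar l x0 t0 p) p.2) (wv l (cpar l x0 t0 p) p.2 k)
    rw [hq] at e
    simp only [Pi.zero_apply, mul_zero, Finset.sum_const_zero, one_mul] at e
    have e1 : ∑ i, wv l (cpar l x0 t0 p) p.2 k i * cpar l x0 t0 p i = 0 := by
      rw [← G.r3 k]
      exact Finset.sum_congr rfl fun i _ => mul_comm _ _
    rw [e1] at e
    have e2 : ∀ j, q.2 j * ∑ i, wv l (cpar l x0 t0 p) p.2 k i * wv l (cpar l x0 t0 p) p.2 j i =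
        if j = k then q.2 k * sv l (κ * p.1 ^ 2) p.2 k else 0 := by
      intro j
      split_ifs with hj
      · rw [hj, G.r7 k]
      · rw [G.r5 (fun h => hj h.symm), mul_zero]
    simp only [e2, Finset.sum_ite_eq', Finset.mem_univ, if_true, mul_zero, zero_sub] at e
    have e3 := G.sv_ne k
    have e4 : q.2 k * sv l (κ * p.1 ^ 2) p.2 k = 0 := by linear_combination 2 * e
    exact (mul_eq_zero.1 e4).resolve_right e3
  have h2 : q.1 = 0 := by
    have e0 := congrFun hq 0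
    simp only [h1, zero_smul, Finset.sum_const_zero, smul_zero, sub_zero, Pi.smul_apply,
      smul_eq_mul, Pi.zero_apply] at e0
    have := (mul_eq_zero.1 e0).resolve_right (G.x_ne 0)
    exact (div_eq_zero_iff.1 this).resolve_right hp.ne
  exact Prod.ext h2 (funext h1)

/-- tangent relations -/
lemma fderiv_cpar_tangent (h : Gen l x0 κ t0) {p : PE} (hp : GoodP l t0 p) (q : PE) :
    (∑ i, cpar l x0 t0 p i * fderiv ℂ (cpar l x0 t0) p q i = 0) ∧
    (∑ i, l i * (cpar l x0 t0 p i * fderiv ℂ (cpar l x0 t0) p q i) = 0) := by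
  have G := gen_cpar h hp
  rw [fderiv_cpar hp]
  constructor
  · have e := sum_comb (cpar l x0 t0 p) (fun _ => 1) (q.1 / p.1) q.2
      (wv l (cpar l x0 t0 p) p.2) (cpar l x0 t0 p)
    simp only [one_mul] at e
    rw [e]
    have e1 : ∑ i, cpar l x0 t0 p i * cpar l x0 t0 p i = 0 := by
      rw [← G.r1]
      exact Finset.sum_congr rfl fun i _ => (pow_two _).symm
    rw [e1]
    simp only [G.r3, mul_zero, Finset.sum_const_zero, sub_zero]
  · rw [sum_comb]
    have e1 : ∑ i, l i * (cpar l x0 t0 p i * cpar l x0 t0 p i) = 0 := by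
      rw [← G.r2]
      exact Finset.sum_congr rfl fun i _ => by ring
    rw [e1]
    simp only [G.r4, mul_zero, Finset.sum_const_zero, sub_zero]

/-- four of the six coordinates -/
def kapD : (Fin 6 → ℂ) →ₗ[ℂ] PE where
  toFun x := (x 3, ![x 0, x 1, x 2])
  map_add' x y := by
    ext i
    · rfl
    · fin_cases i <;> rfl
  map_smul' c x := by
    ext i
    · rfl
    · fin_cases i <;> rfl

lemma kapD_eq {a b : Fin 6 → ℂ} (h : kapD a = kapD b) :
    a 0 = b 0 ∧ a 1 = b 1 ∧ a 2 = b 2 ∧ a 3 = b 3 := by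
  have h1 := congrArg Prod.fst h
  have h2 := congrArg Prod.snd h
  refine ⟨?_, ?_, ?_, h1⟩
  · exact congrFun h2 0
  · exact congrFun h2 1
  · exact congrFun h2 2

lemma tangent_zero {l x v : Fin 6 → ℂ} (hl : Function.Injective l) (h4 : x 4 ≠ 0) (h5 : x 5 ≠ 0)
    (h1 : ∑ i, x i * v i = 0) (h2 : ∑ i, l i * (x i * v i) = 0) (hk : kapD v = 0) : v = 0 := by
  obtain ⟨a0, a1, a2, a3⟩ := kapD_eq (a := v) (b := 0) (by rw [hk, map_zero])
  simp only [Pi.zero_apply] at a0 a1 a2 a3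
  simp only [Fin.sum_univ_six, a0, a1, a2, a3, mul_zero, zero_add] at h1 h2
  have h45 : l 5 - l 4 ≠ 0 := sub_ne_zero.2 fun h => by simpa using hl h
  have b5 : v 5 = 0 := by
    have : (l 5 - l 4) * (x 5 * v 5) = 0 := by linear_combination h2 - l 4 * h1
    exact (mul_eq_zero.1 ((mul_eq_zero.1 this).resolve_left h45)).resolve_left h5
  rw [b5, mul_zero, add_zero] at h1
  have b4 : v 4 = 0 := (mul_eq_zero.1 h1).resolve_left h4
  ext i
  fin_cases i
  · exact a0
  · exact a1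
  · exact a2
  · exact a3
  · exact b4
  · exact b5

lemma coneD_ext {l a b : Fin 6 → ℂ} (hl : Function.Injective l) (ha : ConeD l a)
    (hb : ConeD l b) (h4 : a 4 + b 4 ≠ 0) (h5 : a 5 + b 5 ≠ 0) (hk : kapD a = kapD b) :
    a = b := by
  obtain ⟨a0, a1, a2, a3⟩ := kapD_eq hk
  obtain ⟨p1, p2⟩ := ha
  obtain ⟨q1, q2⟩ := hb
  simp only [Fin.sum_univ_six, a0, a1, a2, a3] at p1 p2
  simp only [Fin.sum_univ_six] at q1 q2
  have h45 : l 5 - l 4 ≠ 0 := sub_ne_zero.2 fun h => by simpa using hl h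
  have b5 : a 5 - b 5 = 0 := by
    have : (l 5 - l 4) * ((a 5 + b 5) * (a 5 - b 5)) = 0 := by
      linear_combination (p2 - q2) - l 4 * (p1 - q1)
    exact (mul_eq_zero.1 ((mul_eq_zero.1 this).resolve_left h45)).resolve_left h5
  have b5' : a 5 = b 5 := sub_eq_zero.1 b5
  have b4 : a 4 - b 4 = 0 := by
    have : (a 4 + b 4) * (a 4 - b 4) = 0 := by
      rw [b5'] at p1
      linear_combination (p1 - q1)
    exact (mul_eq_zero.1 this).resolve_left h4
  ext i
  fin_cases i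
  · exact a0
  · exact a1
  · exact a2
  · exact a3
  · exact sub_eq_zero.1 b4
  · exact b5'

lemma exists_equivD (h : Gen l x0 κ t0) {p : PE} (hp : GoodP l t0 p) :
    ∃ e : PE ≃L[ℂ] PE, HasFDerivAt (fun p => kapD (cpar l x0 t0 p)) (e : PE →L[ℂ] PE) p := by
  have hd : HasFDerivAt (cpar l x0 t0) (fderiv ℂ (cpar l x0 t0) p) p :=
    (analyticAt_cpar hp).differentiableAt.hasFDerivAt
  have hk := (kapD.toContinuousLinearMap.hasFDerivAt (x := cpar l x0 t0 p)).comp p hd
  set A : PE →L[ℂ] PE := kapD.toContinuousLinearMap.comp (fderiv ℂ (cpar l x0 t0) p) with hA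
  have hinj : Function.Injective (A : PE →ₗ[ℂ] PE) := by
    rw [injective_iff_map_eq_zero]
    intro q hq
    have G := gen_cpar h hp
    obtain ⟨t1, t2⟩ := fderiv_cpar_tangent h hp q
    exact fderiv_cpar_inj h hp (tangent_zero h.hl (G.x_ne 4) (G.x_ne 5) t1 t2 hq)
  let e := (LinearMap.linearEquivOfInjective (A : PE →ₗ[ℂ] PE) hinj
    rfl).toContinuousLinearEquiv
  refine ⟨e, ?_⟩
  have : (e : PE →L[ℂ] PE) = A := by
    apply ContinuousLinearMap.ext
    intro x
    rfl
  rw [this]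
  exact hk

lemma exists_chartD (h : Gen l x0 κ t0) :
    ∃ σ : (Fin 6 → ℂ) → PE, ContDiffAt ℂ 2 σ x0 ∧ σ x0 = ((1 : ℂ), t0) ∧
      (∀ᶠ x in 𝓝 x0, ConeD l x → cpar l x0 t0 (σ x) = x) ∧
      (∀ᶠ p in 𝓝 ((1 : ℂ), t0), σ (cpar l x0 t0 p) = p) := by
  have hg := goodP_self h
  obtain ⟨e, he⟩ := exists_equivD h hg
  have hc : ContDiffAt ℂ 2 (fun p => kapD (cpar l x0 t0 p)) ((1 : ℂ), t0) := by
    have h1 : ContDiffAt ℂ 2 (cpar l x0 t0) ((1 : ℂ), t0) :=
      (analyticAt_cpar hg).contDiffAt.of_le le_top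
    exact (kapD.toContinuousLinearMap.contDiff.contDiffAt (x := cpar l x0 t0 _)).comp _ h1
  have hs : HasStrictFDerivAt (fun p => kapD (cpar l x0 t0 p)) (e : PE →L[ℂ] PE) ((1 : ℂ), t0) :=
    hc.hasStrictFDerivAt' he (by norm_num)
  have hx0 := cpar_self h
  have S1 : ContDiffAt ℂ 2 (hc.localInverse he (by norm_num)) (kapD x0) := by
    have := hc.to_localInverse he (by norm_num)
    simpa only [hx0] using this
  have S2 : hc.localInverse he (by norm_num) (kapD x0) = ((1 : ℂ), t0) := by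
    have := hc.localInverse_apply_image he (by norm_num)
    simpa only [hx0] using this
  have S3 : ∀ᶠ y in 𝓝 (kapD x0), kapD (cpar l x0 t0 (hc.localInverse he (by norm_num) y)) = y := by
    have := hs.eventually_right_inverse
    simp only [hx0] at this
    exact this
  have S4 : ∀ᶠ p in 𝓝 ((1 : ℂ), t0),
      hc.localInverse he (by norm_num) (kapD (cpar l x0 t0 p)) = p :=
    hs.eventually_left_inverse
  generalize hc.localInverse he (by norm_num) = S at S1 S2 S3 S4
  have hkc : Continuous kapD := kapD.continuous_of_finiteDimensional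
  have hcomp : ContDiffAt ℂ 2 (fun x => S (kapD x)) x0 :=
    ContDiffAt.comp (g := S) (f := kapD) x0 S1
      (kapD.toContinuousLinearMap.contDiff.contDiffAt (x := x0))
  refine ⟨fun x => S (kapD x), hcomp, S2, ?_, S4⟩
  have T1 : Tendsto (fun x => S (kapD x)) (𝓝 x0) (𝓝 ((1 : ℂ), t0)) := by
    have := hcomp.continuousAt.tendsto
    rwa [S2] at this
  have T2 : Tendsto (fun x => cpar l x0 t0 (S (kapD x))) (𝓝 x0) (𝓝 x0) := by
    have h1 : ContinuousAt (cpar l x0 t0) ((1 : ℂ), t0) := (analyticAt_cpar hg).continuousAt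
    have h2 := h1.tendsto.comp T1
    rwa [hx0] at h2
  have T3 : ∀ i, ∀ᶠ x in 𝓝 x0, cpar l x0 t0 (S (kapD x)) i + x i ≠ 0 := by
    intro i
    have h1 : Tendsto (fun x => cpar l x0 t0 (S (kapD x)) i + x i) (𝓝 x0) (𝓝 (x0 i + x0 i)) :=
      (((continuous_apply i).tendsto _).comp T2).add ((continuous_apply i).tendsto _)
    refine h1.eventually_ne ?_
    have := h.x_ne i
    rw [← two_mul]
    exact mul_ne_zero two_ne_zero this
  filter_upwards [(hkc.tendsto x0).eventually S3, T1.eventually (goodP_eventually h hg), T3 4, T3 5]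
    with x b1 b2 b3 b4 b5
  exact coneD_ext h.hl (gen_cpar h b2).cone b5 b3 b4 b1

end Pool.Agent.Lib.MP_6e94a1_ag
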