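import Pool.Agent.Lib.MP_6e94a1_ag.Quad3

/-!
# The local data and the lift
-/

open Polynomial Finset Filter Topology

set_option linter.all false

namespace Pool.Agent.Lib.MP_6e94a1_ag

/-- The local data extracted from a line preserving biholomorphic map. -/
structure LocD (l m : Fin 6 → ℂ) (F G : (Fin 6 → ℂ) → (Fin 6 → ℂ)) (x0 y0 : Fin 6 → ℂ)
    (κ κ' : ℂ) (t0 T0 : Fin 3 → ℂ) : Prop where
  gx : Gen l x0 κ t0
  gy : Gen m y0 κ' T0
  hF : AnalyticAt ℂ F x0
  hG : AnalyticAt ℂ G y0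
  hval : F x0 = y0
  cone : ∀ᶠ x in 𝓝 x0, ConeD l x → ConeD m (F x)
  inv : ∀ᶠ x in 𝓝 x0, ConeD l x → ∃ c : ℂ, G (F x) = c • x
  ne : G y0 ≠ 0
  radialG : ∀ᶠ s in 𝓝 (1 : ℂ), ∃ c : ℂ, G (s • y0) = c • G y0
  radial : ∀ᶠ q : ℂ × (Fin 6 → ℂ) in 𝓝 ((1 : ℂ), x0), ConeD l q.2 →
    ∃ c : ℂ, F (q.1 • q.2) = c • F q.2
  lines : ∀ᶠ x in 𝓝 x0, ConeD l x → ∀ v, LinearIndependent ℂ ![x, v] →
    (∀ a b : ℂ, ConeD l (a • x + b • v)) →
    ∃ W : Submodule ℂ (Fin 6 → ℂ), (∀ w ∈ W, ConeD m w) ∧ F x ∈ W ∧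
      ∀ᶠ s in 𝓝 (0 : ℂ), F (x + s • v) ∈ W

/-- the derivative of a curve in a linear subspace lies in the subspace -/
lemma deriv_mem_of_eventually' {E : Type*} [NormedAddCommGroup E] [NormedSpace ℂ E]
    [FiniteDimensional ℂ E] {W : Submodule ℂ E} {c : ℂ → E} {t₀ : ℂ} {d : E}
    (hc : HasDerivAt c d t₀) (h : ∀ᶠ t in 𝓝 t₀, c t ∈ W) : d ∈ W := by
  by_contra hd
  obtain ⟨f, hf, hfW⟩ := Submodule.exists_le_ker_of_notMem hd
  have h1 := (f.toContinuousLinearMap.hasFDerivAt (x := c t₀)).comp_hasDerivAt t₀ hc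
  have h2 : HasDerivAt (fun _ : ℂ => (0 : ℂ)) (f d) t₀ := by
    apply h1.congr_of_eventuallyEq
    filter_upwards [h] with t ht
    exact (hfW ht).symm
  exact hf (h2.unique (hasDerivAt_const _ _))

/-- combination of the coordinate vectors -/
noncomputable def cmb (l x : Fin 6 → ℂ) (t : Fin 3 → ℂ) (a : Fin 3 → ℂ) (α : ℂ) : Fin 6 → ℂ :=
  (∑ k, a k • wv l x t k) + α • x

lemma cmb_apply (l x : Fin 6 → ℂ) (t : Fin 3 → ℂ) (a : Fin 3 → ℂ) (α : ℂ) (i : Fin 6) :
    cmb l x t a α i = a 0 * wv l x t 0 i + a 1 * wv l x t 1 i + a 2 * wv l x t 2 i + α * x i := by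
  simp [cmb, Fin.sum_univ_three]

variable {l x : Fin 6 → ℂ} {κ : ℂ} {t : Fin 3 → ℂ}

lemma bil_expand (m : Fin 6 → ℂ) (a b : Fin 3 → ℂ) (α β : ℂ) (w : Fin 3 → Fin 6 → ℂ)
    (x : Fin 6 → ℂ) :
    ∑ i, m i * ((a 0 * w 0 i + a 1 * w 1 i + a 2 * w 2 i + α * x i) *
      (b 0 * w 0 i + b 1 * w 1 i + b 2 * w 2 i + β * x i)) =
    a 0 * b 0 * ∑ i, m i * (w 0 i * w 0 i) + a 1 * b 1 * ∑ i, m i * (w 1 i * w 1 i) +
    a 2 * b 2 * ∑ i, m i * (w 2 i * w 2 i) + (a 0 * b 1 + a 1 * b 0) * ∑ i, m i * (w 0 i * w 1 i) +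
    (a 0 * b 2 + a 2 * b 0) * ∑ i, m i * (w 0 i * w 2 i) +
    (a 1 * b 2 + a 2 * b 1) * ∑ i, m i * (w 1 i * w 2 i) +
    (a 0 * β + b 0 * α) * ∑ i, m i * (x i * w 0 i) +
    (a 1 * β + b 1 * α) * ∑ i, m i * (x i * w 1 i) +
    (a 2 * β + b 2 * α) * ∑ i, m i * (x i * w 2 i) + α * β * ∑ i, m i * (x i ^ 2) := by
  simp only [Finset.mul_sum, ← Finset.sum_add_distrib]
  refine Finset.sum_congr rfl fun i _ => ?_
  ring

lemma Gen.bil1 (h : Gen l x κ t) (a b : Fin 3 → ℂ) (α β : ℂ) :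
    ∑ i, cmb l x t a α i * cmb l x t b β i = ∑ k, a k * b k * sv l κ t k := by
  have e := bil_expand (fun _ => 1) a b α β (wv l x t) x
  simp only [one_mul] at e
  simp only [cmb_apply]
  rw [e, h.r7, h.r7, h.r7, h.r5 (by decide), h.r5 (by decide), h.r5 (by decide), h.r3, h.r3, h.r3,
    h.r1, Fin.sum_univ_three]
  ring

lemma Gen.bil2 (h : Gen l x κ t) (a b : Fin 3 → ℂ) (α β : ℂ) :
    ∑ i, l i * (cmb l x t a α i * cmb l x t b β i) = ∑ k, a k * b k * (t k * sv l κ t k) := by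
  have e := bil_expand l a b α β (wv l x t) x
  simp only [cmb_apply]
  rw [e, h.r8, h.r8, h.r8, h.r6 (by decide), h.r6 (by decide), h.r6 (by decide), h.r4, h.r4, h.r4,
    h.r2, Fin.sum_univ_three]
  ring

lemma Gen.perm (h : Gen l x κ t) (τ : Equiv.Perm (Fin 3)) : Gen l x κ (t ∘ τ) := by
  refine ⟨h.hl, h.ht.comp τ.injective, h.hκ, fun i k => h.hne i (τ k), fun i => ?_⟩
  rw [h.hx i]
  have := Equiv.prod_comp τ (fun k => l i - t k)
  simp only [Fin.prod_univ_three] at this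
  simp only [Function.comp]
  rw [this]

lemma Gen.sv_perm (h : Gen l x κ t) (τ : Equiv.Perm (Fin 3)) (k : Fin 3) :
    sv l κ (t ∘ τ) k = sv l κ t (τ k) := by
  rw [← (h.perm τ).r7 k, ← h.r7 (τ k)]
  rfl

/-- the cone vectors giving the lines through a point -/
lemma Gen.line (h : Gen l x κ t) {α : Fin 3 → ℂ}
    (hα : ∀ k, α k ^ 2 * sv l κ t k = t (k + 1) - t (k + 2)) (a b : ℂ) :
    ConeD l (a • x + b • cmb l x t α 0) := by
  have e : a • x + b • cmb l x t α 0 = cmb l x t (fun k => b * α k) a := by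
    ext i
    simp only [cmb_apply, Pi.add_apply, Pi.smul_apply, smul_eq_mul]
    ring
  rw [e]
  have h0 := hα 0
  have h1 := hα 1
  have h2 := hα 2
  have e1 : t (0 + 1) - t (0 + 2) = t 1 - t 2 := rfl
  have e2 : t (1 + 1) - t (1 + 2) = t 2 - t 0 := rfl
  have e3 : t (2 + 1) - t (2 + 2) = t 0 - t 1 := rfl
  rw [e1] at h0
  rw [e2] at h1
  rw [e3] at h2
  constructor
  · have := h.bil1 (fun k => b * α k) (fun k => b * α k) a a
    simp only [← pow_two] at this
    rw [this, Fin.sum_univ_three]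
    linear_combination b ^ 2 * h0 + b ^ 2 * h1 + b ^ 2 * h2
  · have := h.bil2 (fun k => b * α k) (fun k => b * α k) a a
    simp only [← pow_two] at this
    rw [this, Fin.sum_univ_three]
    linear_combination b ^ 2 * t 0 * h0 + b ^ 2 * t 1 * h1 + b ^ 2 * t 2 * h2

lemma Gen.linInd (h : Gen l x κ t) {α : Fin 3 → ℂ} (hα : α 0 ≠ 0) :
    LinearIndependent ℂ ![x, cmb l x t α 0] := by
  have hx : x ≠ 0 := fun h0 => h.x_ne 0 (congrFun h0 0)
  rw [LinearIndependent.pair_iff' hx]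
  intro c hc
  -- pair with the first coordinate vector
  have e1 := h.bil1 α ![1, 0, 0] 0 0
  have e2 := h.r3 0
  have e3 : ∑ i, cmb l x t α 0 i * cmb l x t ![1, 0, 0] 0 i = 0 := by
    rw [← hc]
    have : ∀ i, (c • x) i * cmb l x t ![1, 0, 0] 0 i = c * (x i * wv l x t 0 i) := by
      intro i
      simp [cmb_apply]
      ring
    simp only [this, ← Finset.mul_sum, e2, mul_zero]
  rw [e3, Fin.sum_univ_three] at e1
  simp at e1
  exact e1.elim hα (h.sv_ne 0)

/-- algebra of three by three matrices with orthogonality relations -/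
lemma monomial_rel {J : Fin 3 → Fin 3 → ℂ} {s T : Fin 3 → ℂ}
    (hs : ∀ j, s j ≠ 0) (hT : Function.Injective T)
    (hinj : ∀ a : Fin 3 → ℂ, (∀ j, ∑ k, a k * J j k = 0) → a = 0)
    (h1 : ∀ k k', k ≠ k' → ∑ j, J j k * J j k' * s j = 0)
    (h2 : ∀ k k', k ≠ k' → ∑ j, J j k * J j k' * (T j * s j) = 0) :
    ∀ k k', k ≠ k' → ∀ j, J j k * J j k' = 0 := by
  -- the direction vector
  have T01 : T 0 - T 1 ≠ 0 := sub_ne_zero.2 fun h => by simpa using hT h
  have T12 : T 1 - T 2 ≠ 0 := sub_ne_zero.2 fun h => by simpa using hT h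
  have T20 : T 2 - T 0 ≠ 0 := sub_ne_zero.2 fun h => by simpa using hT h
  set n : Fin 3 → ℂ := ![(T 1 - T 2) / s 0, (T 2 - T 0) / s 1, (T 0 - T 1) / s 2] with hn
  have hs0 := hs 0
  have hs1 := hs 1
  have hs2 := hs 2
  have n0 : ∀ j, n j ≠ 0 := by
    intro j
    fin_cases j
    · exact div_ne_zero T12 hs0
    · exact div_ne_zero T20 hs1
    · exact div_ne_zero T01 hs2
  have hν : ∀ k k', k ≠ k' → ∃ ν : ℂ, ∀ j, J j k * J j k' = ν * n j := by
    intro k k' hk
    have a1 := h1 k k' hk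
    have a2 := h2 k k' hk
    simp only [Fin.sum_univ_three] at a1 a2
    refine ⟨J 0 k * J 0 k' * s 0 / (T 1 - T 2), ?_⟩
    intro j
    fin_cases j
    · show J 0 k * J 0 k' = _ * ((T 1 - T 2) / s 0)
      field_simp
    · show J 1 k * J 1 k' = _ * ((T 2 - T 0) / s 1)
      field_simp
      linear_combination a2 - T 2 * a1
    · show J 2 k * J 2 k' = _ * ((T 0 - T 1) / s 2)
      field_simp
      linear_combination -a2 + T 1 * a1
  obtain ⟨ν01, h01⟩ := hν 0 1 (by decide)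
  obtain ⟨ν02, h02⟩ := hν 0 2 (by decide)
  obtain ⟨ν12, h12⟩ := hν 1 2 (by decide)
  -- a column is not zero
  have hcol : ∀ k, ∃ j, J j k ≠ 0 := by
    intro k
    by_contra hcon
    push Not at hcon
    have := hinj (Pi.single k 1) (by
      intro j
      rw [Finset.sum_eq_single k]
      · rw [hcon j, mul_zero]
      · intro b _ hb
        rw [Pi.single_eq_of_ne hb, zero_mul]
      · intro h; exact absurd (Finset.mem_univ _) h)
    have h3 := congrFun this k
    simp at h3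
  -- proportional columns are impossible
  have hprop : ∀ (k k' : Fin 3), k ≠ k' → ∀ c d : ℂ, (c ≠ 0 ∨ d ≠ 0) →
      (∀ j, c * J j k + d * J j k' = 0) → False := by
    intro k k' hk c d hcd hrel
    have := hinj (fun i => if i = k then c else if i = k' then d else 0) (by
      intro j
      refine Eq.trans ?_ (hrel j)
      rw [← Finset.sum_subset (Finset.subset_univ {k, k'})]
      · rw [Finset.sum_pair hk]
        simp [hk.symm]
      · intro i _ hi
        simp only [Finset.mem_insert, Finset.mem_singleton, not_or] at hi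
        simp [hi.1, hi.2])
    have h3 := congrFun this k
    have h4 := congrFun this k'
    simp only [if_true, Pi.zero_apply, hk.symm, if_false] at h3 h4
    rcases hcd with h | h
    · exact h h3
    · exact h h4
  -- main dichotomy
  have main : ∀ (a b c : Fin 3) (μ ν ω : ℂ), a ≠ b → a ≠ c → b ≠ c →
      (∀ j, J j a * J j b = μ * n j) → (∀ j, J j a * J j c = ν * n j) →
      (∀ j, J j b * J j c = ω * n j) → μ = 0 := by
    intro a b c μ ν ω hab hac hbc e1 e2 e3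
    by_contra hμ
    have ha : ∀ j, J j a ≠ 0 := fun j h0 => by
      have := e1 j
      rw [h0, zero_mul] at this
      exact (mul_ne_zero hμ (n0 j)) this.symm
    refine hprop b c hbc ν (-μ) (Or.inr (neg_ne_zero.2 hμ)) ?_
    intro j
    apply mul_left_cancel₀ (ha j)
    linear_combination ν * e1 j - μ * e2 j
  have z01 := main 0 1 2 ν01 ν02 ν12 (by decide) (by decide) (by decide) h01 h02 h12
  have z02 := main 0 2 1 ν02 ν01 ν12 (by decide) (by decide) (by decide) h02 h01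
    (fun j => by rw [← h12 j]; ring)
  have z12 := main 1 2 0 ν12 ν01 ν02 (by decide) (by decide) (by decide) h12
    (fun j => by rw [← h01 j]; ring) (fun j => by rw [← h02 j]; ring)
  intro k k' hk j
  have b01 : J j 0 * J j 1 = 0 := by rw [h01 j, z01, zero_mul]
  have b02 : J j 0 * J j 2 = 0 := by rw [h02 j, z02, zero_mul]
  have b12 : J j 1 * J j 2 = 0 := by rw [h12 j, z12, zero_mul]
  fin_cases k <;> fin_cases k'
  · exact absurd rfl hk
  · exact b01
  · exact b02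
  · show J j 1 * J j 0 = 0
    rw [mul_comm]; exact b01
  · exact absurd rfl hk
  · exact b12
  · show J j 2 * J j 0 = 0
    rw [mul_comm]; exact b02
  · show J j 2 * J j 1 = 0
    rw [mul_comm]; exact b12
  · exact absurd rfl hk

end Pool.Agent.Lib.MP_6e94a1_ag
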