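import Pool.Agent.Lib.MP_6e94a1_ag.Quad4

/-!
# The lift and its derivative
-/

open Polynomial Finset Filter Topology

set_option linter.all false

namespace Pool.Agent.Lib.MP_6e94a1_ag

variable {l m : Fin 6 → ℂ} {F G : (Fin 6 → ℂ) → (Fin 6 → ℂ)} {x0 y0 : Fin 6 → ℂ}
  {κ κ' : ℂ} {t0 T0 : Fin 3 → ℂ}

/-- the slice of the parametrisation -/
noncomputable def cs (l x0 : Fin 6 → ℂ) (t0 : Fin 3 → ℂ) (t : Fin 3 → ℂ) : Fin 6 → ℂ :=
  cpar l x0 t0 ((1 : ℂ), t)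

lemma cs_self (h : Gen l x0 κ t0) : cs l x0 t0 t0 = x0 := cpar_self h

lemma goodP_slice (h : Gen l x0 κ t0) : ∀ᶠ t in 𝓝 t0, GoodP l t0 ((1 : ℂ), t) := by
  have hc : Continuous (fun t : Fin 3 → ℂ => (((1 : ℂ), t) : PE)) := by fun_prop
  exact (hc.tendsto t0).eventually (goodP_eventually h (goodP_self h))

lemma analyticAt_cs {t : Fin 3 → ℂ} (hp : GoodP l t0 ((1 : ℂ), t)) :
    AnalyticAt ℂ (cs l x0 t0) t := by
  have h1 : AnalyticAt ℂ (fun t : Fin 3 → ℂ => (((1 : ℂ), t) : PE)) t :=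
    analyticAt_const.prod analyticAt_id
  exact AnalyticAt.fun_comp (f := fun t : Fin 3 → ℂ => (((1 : ℂ), t) : PE))
    (g := cpar l x0 t0) (analyticAt_cpar hp) h1

lemma gen_cs (h : Gen l x0 κ t0) {t : Fin 3 → ℂ} (hp : GoodP l t0 ((1 : ℂ), t)) :
    Gen l (cs l x0 t0 t) κ t := by
  have := gen_cpar h hp
  simpa [cs] using this

lemma fderiv_cs {t : Fin 3 → ℂ} (hp : GoodP l t0 ((1 : ℂ), t)) (q : Fin 3 → ℂ) :
    fderiv ℂ (cs l x0 t0) t q = - (1 / 2 : ℂ) • ∑ k, q k • wv l (cs l x0 t0 t) t k := by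
  have h1 : HasFDerivAt (fun t : Fin 3 → ℂ => (((1 : ℂ), t) : PE))
      (ContinuousLinearMap.inr ℂ ℂ (Fin 3 → ℂ)) t := by
    have := (ContinuousLinearMap.inr ℂ ℂ (Fin 3 → ℂ)).hasFDerivAt (x := t)
    have h2 := this.add_const (((1 : ℂ), 0) : PE)
    refine h2.congr_of_eventuallyEq (Eventually.of_forall fun s => ?_)
    simp
  have h3 : HasFDerivAt (cpar l x0 t0) (fderiv ℂ (cpar l x0 t0) ((1 : ℂ), t)) ((1 : ℂ), t) :=
    (analyticAt_cpar hp).differentiableAt.hasFDerivAt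
  have h4 := HasFDerivAt.comp (g := cpar l x0 t0)
    (f := fun t : Fin 3 → ℂ => (((1 : ℂ), t) : PE)) t h3 h1
  have h5 : HasFDerivAt (cs l x0 t0) _ t := h4
  rw [h5.fderiv]
  show fderiv ℂ (cpar l x0 t0) ((1 : ℂ), t) ((0 : ℂ), q) = _
  rw [fderiv_cpar hp]
  simp [cs]

/-- the lift of `F` to elliptic coordinates -/
lemma exists_liftD (D : LocD l m F G x0 y0 κ κ' t0 T0) :
    ∃ L : (Fin 3 → ℂ) → PE, ContDiffAt ℂ 2 L t0 ∧ L t0 = ((1 : ℂ), T0) ∧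
      ∀ᶠ t in 𝓝 t0, cpar m y0 T0 (L t) = F (cs l x0 t0 t) := by
  obtain ⟨σ, hσ, hσ0, hσ1, hσ2⟩ := exists_chartD D.gy
  have hx0 := cs_self D.gx
  have hcs : AnalyticAt ℂ (cs l x0 t0) t0 := analyticAt_cs (goodP_self D.gx)
  have hF : AnalyticAt ℂ F (cs l x0 t0 t0) := by rw [hx0]; exact D.hF
  have hc1 : AnalyticAt ℂ (fun t => F (cs l x0 t0 t)) t0 := hF.fun_comp hcs
  have hσ' : ContDiffAt ℂ 2 σ (F (cs l x0 t0 t0)) := by rw [hx0, D.hval]; exact hσ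
  refine ⟨fun t => σ (F (cs l x0 t0 t)), ?_, ?_, ?_⟩
  · exact ContDiffAt.comp (g := σ) (f := fun t => F (cs l x0 t0 t)) t0 hσ'
      (hc1.contDiffAt.of_le le_top)
  · simp only [hx0, D.hval, hσ0]
  · have h1 : Tendsto (cs l x0 t0) (𝓝 t0) (𝓝 x0) := by
      have := hcs.continuousAt.tendsto
      rwa [hx0] at this
    have h2 : Tendsto (fun t => F (cs l x0 t0 t)) (𝓝 t0) (𝓝 y0) := by
      have := hc1.continuousAt.tendsto
      rwa [hx0, D.hval] at this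
    filter_upwards [h1.eventually D.cone, h2.eventually hσ1, goodP_slice D.gx] with t a1 a2 a3
    exact a2 (a1 (gen_cs D.gx a3).cone)

/-- the matrix of the lift -/
noncomputable def Jm (L : (Fin 3 → ℂ) → PE) (t : Fin 3 → ℂ) (j k : Fin 3) : ℂ :=
  (fderiv ℂ L t (Pi.single k 1)).2 j

lemma lift_derivD (D : LocD l m F G x0 y0 κ κ' t0 T0) {L : (Fin 3 → ℂ) → PE}
    (hL : ContDiffAt ℂ 2 L t0) (hL0 : L t0 = ((1 : ℂ), T0))
    (hLe : ∀ᶠ t in 𝓝 t0, cpar m y0 T0 (L t) = F (cs l x0 t0 t)) :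
    ∀ᶠ t in 𝓝 t0, DifferentiableAt ℂ F (cs l x0 t0 t) ∧ ∀ k, ∃ γ : ℂ,
      fderiv ℂ F (cs l x0 t0 t) (wv l (cs l x0 t0 t) t k) =
        cmb m (F (cs l x0 t0 t)) (L t).2 (fun j => Jm L t j k) γ := by
  have hx0 := cs_self D.gx
  have hcs : AnalyticAt ℂ (cs l x0 t0) t0 := analyticAt_cs (goodP_self D.gx)
  have h1 : Tendsto (cs l x0 t0) (𝓝 t0) (𝓝 x0) := by
    have := hcs.continuousAt.tendsto
    rwa [hx0] at this
  have h2 : ∀ᶠ t in 𝓝 t0, AnalyticAt ℂ F (cs l x0 t0 t) :=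
    h1.eventually D.hF.eventually_analyticAt
  have h3 : ∀ᶠ t in 𝓝 t0, ContDiffAt ℂ 2 L t := hL.eventually (by simp)
  have h4 : ∀ᶠ t in 𝓝 t0, GoodP m T0 (L t) := by
    have := hL.continuousAt.tendsto
    rw [hL0] at this
    exact this.eventually (goodP_eventually D.gy (goodP_self D.gy))
  filter_upwards [h2, h3, h4, goodP_slice D.gx, eventually_eventually_nhds.2 hLe, hLe]
    with t b2 b3 b4 b5 b6 b7
  refine ⟨b2.differentiableAt, fun k => ?_⟩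
  have e1 : HasFDerivAt (fun t => F (cs l x0 t0 t))
      ((fderiv ℂ F (cs l x0 t0 t)).comp (fderiv ℂ (cs l x0 t0) t)) t :=
    b2.differentiableAt.hasFDerivAt.comp t (analyticAt_cs b5).differentiableAt.hasFDerivAt
  have e2 : HasFDerivAt (fun t => cpar m y0 T0 (L t))
      ((fderiv ℂ (cpar m y0 T0) (L t)).comp (fderiv ℂ L t)) t :=
    (analyticAt_cpar b4).differentiableAt.hasFDerivAt.comp t
      (b3.differentiableAt (by norm_num)).hasFDerivAt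
  have e3 := (e1.congr_of_eventuallyEq (f₁ := fun t => cpar m y0 T0 (L t)) b6).unique e2
  have e4 := congrArg (fun A => A (Pi.single k 1)) e3
  have e5 : fderiv ℂ F (cs l x0 t0 t) (fderiv ℂ (cs l x0 t0) t (Pi.single k 1)) =
      fderiv ℂ (cpar m y0 T0) (L t) (fderiv ℂ L t (Pi.single k 1)) := e4
  rw [fderiv_cs b5, fderiv_cpar b4, b7] at e5
  have e6 : ∑ j, (Pi.single k (1 : ℂ) : Fin 3 → ℂ) j • wv l (cs l x0 t0 t) t j =
      wv l (cs l x0 t0 t) t k := by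
    rw [Finset.sum_eq_single k]
    · simp
    · intro j _ hj
      rw [Pi.single_eq_of_ne hj, zero_smul]
    · intro h; exact absurd (Finset.mem_univ _) h
  rw [e6, map_smul] at e5
  refine ⟨-2 * ((fderiv ℂ L t (Pi.single k 1)).1 / (L t).1), ?_⟩
  have e7 : fderiv ℂ F (cs l x0 t0 t) (wv l (cs l x0 t0 t) t k) =
      (-2 : ℂ) • (-(1 / 2 : ℂ) • fderiv ℂ F (cs l x0 t0 t) (wv l (cs l x0 t0 t) t k)) := by
    rw [smul_smul]
    norm_num
  rw [e7, e5]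
  ext i
  simp only [cmb_apply, Jm, Pi.smul_apply, Pi.sub_apply, smul_eq_mul, Finset.sum_apply,
    Fin.sum_univ_three, Pi.add_apply]
  ring

lemma cmb_sum (m y : Fin 6 → ℂ) (T : Fin 3 → ℂ) (α γ : Fin 3 → ℂ) (J : Fin 3 → Fin 3 → ℂ) :
    ∑ k, α k • cmb m y T (fun j => J j k) (γ k) =
      cmb m y T (fun j => ∑ k, α k * J j k) (∑ k, α k * γ k) := by
  ext i
  simp only [cmb_apply, Finset.sum_apply, Pi.smul_apply, smul_eq_mul, Fin.sum_univ_three,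
    Pi.add_apply]
  ring

lemma extract {a0 a1 a2 A00 A11 A22 A01 A02 A12 : ℂ} (h0 : a0 ≠ 0) (h1 : a1 ≠ 0) (h2 : a2 ≠ 0)
    (e1 : a0 ^ 2 * A00 + a1 ^ 2 * A11 + a2 ^ 2 * A22 +
      2 * (a0 * a1 * A01 + a0 * a2 * A02 + a1 * a2 * A12) = 0)
    (e2 : a0 ^ 2 * A00 + a1 ^ 2 * A11 + a2 ^ 2 * A22 +
      2 * (- a0 * a1 * A01 + a0 * a2 * A02 - a1 * a2 * A12) = 0)
    (e3 : a0 ^ 2 * A00 + a1 ^ 2 * A11 + a2 ^ 2 * A22 +
      2 * (a0 * a1 * A01 - a0 * a2 * A02 - a1 * a2 * A12) = 0)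
    (e4 : a0 ^ 2 * A00 + a1 ^ 2 * A11 + a2 ^ 2 * A22 +
      2 * (- a0 * a1 * A01 - a0 * a2 * A02 + a1 * a2 * A12) = 0) :
    A01 = 0 ∧ A02 = 0 ∧ A12 = 0 ∧ a0 ^ 2 * A00 + a1 ^ 2 * A11 + a2 ^ 2 * A22 = 0 := by
  refine ⟨?_, ?_, ?_, ?_⟩
  · apply mul_left_cancel₀ (mul_ne_zero h0 h1)
    linear_combination (1 / 8 : ℂ) * e1 - (1 / 8 : ℂ) * e2 + (1 / 8 : ℂ) * e3 - (1 / 8 : ℂ) * e4
  · apply mul_left_cancel₀ (mul_ne_zero h0 h2)
    linear_combination (1 / 8 : ℂ) * e1 + (1 / 8 : ℂ) * e2 - (1 / 8 : ℂ) * e3 - (1 / 8 : ℂ) * e4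
  · apply mul_left_cancel₀ (mul_ne_zero h1 h2)
    linear_combination (1 / 8 : ℂ) * e1 - (1 / 8 : ℂ) * e2 - (1 / 8 : ℂ) * e3 + (1 / 8 : ℂ) * e4
  · linear_combination (1 / 4 : ℂ) * e1 + (1 / 4 : ℂ) * e2 + (1 / 4 : ℂ) * e3 + (1 / 4 : ℂ) * e4

lemma quad_expand (a : Fin 3 → ℂ) (J : Fin 3 → Fin 3 → ℂ) (s : Fin 3 → ℂ) :
    ∑ j, (∑ k, a k * J j k) * (∑ k, a k * J j k) * s j =
      a 0 ^ 2 * (∑ j, J j 0 * J j 0 * s j) + a 1 ^ 2 * (∑ j, J j 1 * J j 1 * s j) +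
      a 2 ^ 2 * (∑ j, J j 2 * J j 2 * s j) +
      2 * (a 0 * a 1 * (∑ j, J j 0 * J j 1 * s j) + a 0 * a 2 * (∑ j, J j 0 * J j 2 * s j) +
        a 1 * a 2 * (∑ j, J j 1 * J j 2 * s j)) := by
  simp only [Fin.sum_univ_three]
  ring

/-- extraction of the orthogonality relations -/
lemma extract_rel {a : Fin 3 → ℂ} {J : Fin 3 → Fin 3 → ℂ} {s : Fin 3 → ℂ} (ha : ∀ k, a k ≠ 0)
    (h : ∀ b : Fin 3 → ℂ, (∀ k, b k ^ 2 = a k ^ 2) →
      ∑ j, (∑ k, b k * J j k) * (∑ k, b k * J j k) * s j = 0) :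
    (∀ k k', k ≠ k' → ∑ j, J j k * J j k' * s j = 0) ∧
      ∑ k, a k ^ 2 * (∑ j, J j k * J j k * s j) = 0 := by
  have e1 := h a (fun k => rfl)
  have e2 := h ![a 0, - a 1, a 2] (fun k => by fin_cases k <;> simp)
  have e3 := h ![a 0, a 1, - a 2] (fun k => by fin_cases k <;> simp)
  have e4 := h ![a 0, - a 1, - a 2] (fun k => by fin_cases k <;> simp)
  rw [quad_expand] at e1 e2 e3 e4
  have v0 : ∀ b c d : ℂ, (![b, c, d] : Fin 3 → ℂ) 0 = b := fun _ _ _ => rfl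
  have v1 : ∀ b c d : ℂ, (![b, c, d] : Fin 3 → ℂ) 1 = c := fun _ _ _ => rfl
  have v2 : ∀ b c d : ℂ, (![b, c, d] : Fin 3 → ℂ) 2 = d := fun _ _ _ => rfl
  rw [v0, v1, v2] at e2 e3 e4
  obtain ⟨r1, r2, r3, r4⟩ := extract (ha 0) (ha 1) (ha 2) e1
    (by linear_combination e2) (by linear_combination e3) (by linear_combination e4)
  refine ⟨?_, ?_⟩
  · have sym : ∀ k k', ∑ j, J j k * J j k' * s j = ∑ j, J j k' * J j k * s j :=
      fun k k' => Finset.sum_congr rfl fun j _ => by ring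
    intro k k' hk
    fin_cases k <;> fin_cases k'
    · exact absurd rfl hk
    · exact r1
    · exact r2
    · exact (sym 1 0).trans r1
    · exact absurd rfl hk
    · exact r3
    · exact (sym 2 0).trans r2
    · exact (sym 2 1).trans r3
    · exact absurd rfl hk
  · rw [Fin.sum_univ_three]
    exact r4

/-- the relations given by the lines -/
lemma lift_linesD (D : LocD l m F G x0 y0 κ κ' t0 T0) {L : (Fin 3 → ℂ) → PE}
    (hL : ContDiffAt ℂ 2 L t0) (hL0 : L t0 = ((1 : ℂ), T0))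
    (hLe : ∀ᶠ t in 𝓝 t0, cpar m y0 T0 (L t) = F (cs l x0 t0 t)) :
    ∀ᶠ t in 𝓝 t0, ∃ K : ℂ, Gen m (F (cs l x0 t0 t)) K (L t).2 ∧
      (∀ k k', k ≠ k' → ∑ j, Jm L t j k * Jm L t j k' * sv m K (L t).2 j = 0) ∧
      (∀ k k', k ≠ k' → ∑ j, Jm L t j k * Jm L t j k' * ((L t).2 j * sv m K (L t).2 j) = 0) ∧
      (∑ k, (t (k + 1) - t (k + 2)) / sv l κ t k *
        (∑ j, Jm L t j k * Jm L t j k * sv m K (L t).2 j) = 0) ∧
      (∑ k, (t (k + 1) - t (k + 2)) / sv l κ t k *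
        (∑ j, Jm L t j k * Jm L t j k * ((L t).2 j * sv m K (L t).2 j)) = 0) := by
  have hx0 := cs_self D.gx
  have hcs : AnalyticAt ℂ (cs l x0 t0) t0 := analyticAt_cs (goodP_self D.gx)
  have h1 : Tendsto (cs l x0 t0) (𝓝 t0) (𝓝 x0) := by
    have := hcs.continuousAt.tendsto
    rwa [hx0] at this
  have h4 : ∀ᶠ t in 𝓝 t0, GoodP m T0 (L t) := by
    have := hL.continuousAt.tendsto
    rw [hL0] at this
    exact this.eventually (goodP_eventually D.gy (goodP_self D.gy))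
  filter_upwards [lift_derivD D hL hL0 hLe, h4, goodP_slice D.gx, hLe, h1.eventually D.lines]
    with t b1 b2 b3 b4 b5
  obtain ⟨dF, hd⟩ := b1
  have gx := gen_cs D.gx b3
  have gy : Gen m (F (cs l x0 t0 t)) (κ' * (L t).1 ^ 2) (L t).2 := by
    rw [← b4]
    exact gen_cpar D.gy b2
  choose γ hγ using hd
  -- square roots
  have hroot : ∀ k, ∃ z : ℂ, z ^ 2 = (t (k + 1) - t (k + 2)) / sv l κ t k := fun k =>
    IsAlgClosed.exists_pow_nat_eq _ (by norm_num)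
  choose a ha using hroot
  have hne : ∀ k : Fin 3, t (k + 1) - t (k + 2) ≠ 0 := fun k =>
    gx.t_sub_ne (by revert k; decide)
  have ha0 : ∀ k, a k ≠ 0 := by
    intro k h0
    have h3 := ha k
    rw [h0] at h3
    have := div_ne_zero (hne k) (gx.sv_ne k)
    apply this
    rw [← h3]
    norm_num
  -- each line
  have key : ∀ b : Fin 3 → ℂ, (∀ k, b k ^ 2 = a k ^ 2) →
      (∑ j, (∑ k, b k * Jm L t j k) * (∑ k, b k * Jm L t j k) *
        sv m (κ' * (L t).1 ^ 2) (L t).2 j = 0) ∧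
      (∑ j, (∑ k, b k * Jm L t j k) * (∑ k, b k * Jm L t j k) *
        ((L t).2 j * sv m (κ' * (L t).1 ^ 2) (L t).2 j) = 0) := by
    intro b hb
    have hb' : ∀ k, b k ^ 2 * sv l κ t k = t (k + 1) - t (k + 2) := by
      intro k
      rw [hb, ha, div_mul_cancel₀ _ (gx.sv_ne k)]
    have hb0 : b 0 ≠ 0 := by
      intro h0
      have h3 := hb 0
      rw [h0] at h3
      exact ha0 0 (by
        have : a 0 ^ 2 = 0 := by rw [← h3]; norm_num
        exact (pow_eq_zero_iff two_ne_zero).1 this)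
    obtain ⟨W, hW, hFW, hFs⟩ := b5 gx.cone (cmb l (cs l x0 t0 t) t b 0) (gx.linInd hb0)
      (gx.line hb')
    have h6 : fderiv ℂ F (cs l x0 t0 t) (cmb l (cs l x0 t0 t) t b 0) ∈ W := by
      have hl : HasDerivAt (fun s : ℂ => cs l x0 t0 t + s • cmb l (cs l x0 t0 t) t b 0)
          (cmb l (cs l x0 t0 t) t b 0) 0 := by
        have h := ((hasDerivAt_id (0:ℂ)).smul_const (cmb l (cs l x0 t0 t) t b 0)).const_add
          (cs l x0 t0 t)
        rw [one_smul] at h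
        exact h
      have hF' : HasFDerivAt F (fderiv ℂ F (cs l x0 t0 t))
          (cs l x0 t0 t + (0 : ℂ) • cmb l (cs l x0 t0 t) t b 0) := by
        simpa using dF.hasFDerivAt
      exact deriv_mem_of_eventually' (hF'.comp_hasDerivAt (0 : ℂ) hl) hFs
    have h7 : cmb l (cs l x0 t0 t) t b 0 = ∑ k, b k • wv l (cs l x0 t0 t) t k := by
      simp [cmb]
    rw [h7, map_sum] at h6
    simp only [map_smul, hγ] at h6
    rw [cmb_sum] at h6
    have h8 := hW _ h6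
    obtain ⟨c1, c2⟩ := h8
    constructor
    · rw [← gy.bil1 _ _ (∑ k, b k * γ k) (∑ k, b k * γ k)]
      simp only [← pow_two]
      exact c1
    · rw [← gy.bil2 _ _ (∑ k, b k * γ k) (∑ k, b k * γ k)]
      simp only [← pow_two]
      exact c2
  obtain ⟨k1, k2⟩ := extract_rel ha0 (fun b hb => (key b hb).1)
  obtain ⟨k3, k4⟩ := extract_rel ha0 (fun b hb => (key b hb).2)
  refine ⟨κ' * (L t).1 ^ 2, gy, k1, k3, ?_, ?_⟩
  · rw [← k2]
    exact Finset.sum_congr rfl fun k _ => by rw [ha]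
  · rw [← k4]
    exact Finset.sum_congr rfl fun k _ => by rw [ha]

end Pool.Agent.Lib.MP_6e94a1_ag
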