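import Pool.Agent.Lib.MP_6e94a1_ag.Quad5

/-!
# The lift has separated variables
-/

open Polynomial Finset Filter Topology

set_option linter.all false

namespace Pool.Agent.Lib.MP_6e94a1_ag

variable {l m : Fin 6 → ℂ} {F G : (Fin 6 → ℂ) → (Fin 6 → ℂ)} {x0 y0 : Fin 6 → ℂ}
  {κ κ' : ℂ} {t0 T0 : Fin 3 → ℂ}

/-- the derivative of the lift is injective -/
lemma lift_injD (D : LocD l m F G x0 y0 κ κ' t0 T0) {L : (Fin 3 → ℂ) → PE}
    (hL : ContDiffAt ℂ 2 L t0) (hL0 : L t0 = ((1 : ℂ), T0))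
    (hLe : ∀ᶠ t in 𝓝 t0, cpar m y0 T0 (L t) = F (cs l x0 t0 t)) (a : Fin 3 → ℂ)
    (ha : ∀ j, ∑ k, a k * Jm L t0 j k = 0) : a = 0 := by
  have hx0 := cs_self D.gx
  have hcs : AnalyticAt ℂ (cs l x0 t0) t0 := analyticAt_cs (goodP_self D.gx)
  obtain ⟨dF, hd⟩ := (lift_derivD D hL hL0 hLe).self_of_nhds
  rw [hx0] at dF
  simp only [hx0, hL0, D.hval] at hd
  choose γ hγ using hd
  have dG : DifferentiableAt ℂ G y0 := D.hG.differentiableAt
  set w : Fin 6 → ℂ := ∑ k, a k • wv l x0 t0 k with hw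
  -- derivative of F along w
  obtain ⟨g, hg⟩ : ∃ g : ℂ, fderiv ℂ F x0 w = g • y0 := by
    refine ⟨∑ k, a k * γ k, ?_⟩
    rw [hw, map_sum]
    simp only [map_smul, hγ]
    rw [cmb_sum]
    simp only [ha]
    ext i
    simp [cmb_apply]
  -- radial derivative of `G`
  have hGr : ∃ c : ℂ, fderiv ℂ G y0 y0 = c • G y0 := by
    have h1 : fderiv ℂ G y0 y0 ∈ Submodule.span ℂ {G y0} := by
      have hl : HasDerivAt (fun s : ℂ => s • y0) y0 1 := by
        have h := ((hasDerivAt_id (1:ℂ)).smul_const y0)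
        rw [one_smul] at h
        exact h
      have hF' : HasFDerivAt G (fderiv ℂ G y0) ((1 : ℂ) • y0) := by
        simpa using dG.hasFDerivAt
      refine deriv_mem_of_eventually' (hF'.comp_hasDerivAt (1 : ℂ) hl) ?_
      filter_upwards [D.radialG] with t ht
      obtain ⟨c, hc⟩ := ht
      exact Submodule.mem_span_singleton.2 ⟨c, hc.symm⟩
    obtain ⟨c, hc⟩ := Submodule.mem_span_singleton.1 h1
    exact ⟨c, hc.symm⟩
  obtain ⟨c, hc⟩ := hGr
  obtain ⟨c₁, hc₁⟩ := D.inv.self_of_nhds D.gx.cone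
  rw [D.hval] at hc₁
  have hc₁0 : c₁ ≠ 0 := by
    rintro rfl
    exact D.ne (by rw [hc₁, zero_smul])
  -- the curve
  have hcurve : HasDerivAt (fun s : ℂ => t0 + s • ((-2 : ℂ) • a)) ((-2 : ℂ) • a) 0 := by
    have h := ((hasDerivAt_id (0:ℂ)).smul_const ((-2 : ℂ) • a)).const_add t0
    rw [one_smul] at h
    exact h
  have hp : HasDerivAt (fun s : ℂ => cs l x0 t0 (t0 + s • ((-2 : ℂ) • a))) w 0 := by
    have h1 : HasFDerivAt (cs l x0 t0) (fderiv ℂ (cs l x0 t0) t0)
        (t0 + (0 : ℂ) • ((-2 : ℂ) • a)) := by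
      simpa using hcs.differentiableAt.hasFDerivAt
    have h2 := h1.comp_hasDerivAt (0 : ℂ) hcurve
    rw [fderiv_cs (goodP_self D.gx), hx0] at h2
    have h3 : -(1 / 2 : ℂ) • ∑ k, ((-2 : ℂ) • a) k • wv l x0 t0 k = w := by
      rw [hw, Finset.smul_sum]
      refine Finset.sum_congr rfl fun k _ => ?_
      rw [smul_smul, Pi.smul_apply, smul_eq_mul]
      congr 1
      ring
    rw [h3] at h2
    exact h2
  have hN : HasDerivAt (fun s : ℂ => G (F (cs l x0 t0 (t0 + s • ((-2 : ℂ) • a)))))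
      ((g * c) • G y0) 0 := by
    have h0 : cs l x0 t0 (t0 + (0 : ℂ) • ((-2 : ℂ) • a)) = x0 := by simpa using hx0
    have h1 : HasFDerivAt F (fderiv ℂ F x0) (cs l x0 t0 (t0 + (0 : ℂ) • ((-2 : ℂ) • a))) := by
      rw [h0]
      exact dF.hasFDerivAt
    have h2 := h1.comp_hasDerivAt (0 : ℂ) hp
    have h3 : HasFDerivAt G (fderiv ℂ G y0)
        (F (cs l x0 t0 (t0 + (0 : ℂ) • ((-2 : ℂ) • a)))) := by
      rw [h0, D.hval]
      exact dG.hasFDerivAt
    have h4 := h3.comp_hasDerivAt (0 : ℂ) h2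
    rw [hg, map_smul, hc, smul_smul] at h4
    exact h4
  have hpi := hasDerivAt_pi.1 hp
  have hNi := hasDerivAt_pi.1 hN
  have hcont : Tendsto (fun s : ℂ => t0 + s • ((-2 : ℂ) • a)) (𝓝 0) (𝓝 t0) := by
    have h1 := hcurve.continuousAt.tendsto
    simpa using h1
  have hev : ∀ᶠ t in 𝓝 t0, ∃ c : ℂ, G (F (cs l x0 t0 t)) = c • cs l x0 t0 t := by
    have h1 : Tendsto (cs l x0 t0) (𝓝 t0) (𝓝 x0) := by
      have := hcs.continuousAt.tendsto
      rwa [hx0] at this
    filter_upwards [h1.eventually D.inv, goodP_slice D.gx] with t h2 h3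
    exact h2 (gen_cs D.gx h3).cone
  have hminor : ∀ i j : Fin 6, w i * x0 j - w j * x0 i = 0 := by
    intro i j
    have h1 := ((hNi i).mul (hpi j)).sub ((hNi j).mul (hpi i))
    have h2 : HasDerivAt (fun _ : ℂ => (0 : ℂ)) _ 0 := h1.congr_of_eventuallyEq (by
      filter_upwards [hcont.eventually hev] with t ht
      obtain ⟨c', hc'⟩ := ht
      simp only [Pi.sub_apply, Pi.mul_apply]
      rw [hc']
      simp only [Pi.smul_apply, smul_eq_mul]
      ring)
    have h3 := h2.unique (hasDerivAt_const 0 0)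
    simp only [zero_smul, add_zero, hx0, D.hval, hc₁, Pi.smul_apply, smul_eq_mul] at h3
    apply mul_left_cancel₀ hc₁0
    linear_combination -h3
  have hpar : ∀ i, w i = w 0 / x0 0 * x0 i := by
    intro i
    have h1 := hminor i 0
    have h2 := D.gx.x_ne 0
    field_simp
    linear_combination h1
  funext k
  have e1 : ∑ i, w i * wv l x0 t0 k i = a k * sv l κ t0 k := by
    have e2 := D.gx.bil1 a (Pi.single k 1) 0 0
    have e3 : cmb l x0 t0 a 0 = w := by simp [cmb, hw]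
    have e4 : cmb l x0 t0 (Pi.single k 1) 0 = wv l x0 t0 k := by
      rw [cmb, zero_smul, add_zero, Finset.sum_eq_single k]
      · simp
      · intro j _ hj
        rw [Pi.single_eq_of_ne hj, zero_smul]
      · intro h; exact absurd (Finset.mem_univ _) h
    rw [e3, e4] at e2
    rw [e2, Finset.sum_eq_single k]
    · simp
    · intro j _ hj
      rw [Pi.single_eq_of_ne hj]
      ring
    · intro h; exact absurd (Finset.mem_univ _) h
  have e5 : ∑ i, w i * wv l x0 t0 k i = 0 := by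
    have e6 : ∀ i, w i * wv l x0 t0 k i = w 0 / x0 0 * (x0 i * wv l x0 t0 k i) := by
      intro i
      rw [hpar i]
      ring
    simp only [e6, ← Finset.mul_sum, D.gx.r3 k, mul_zero]
  rw [e5] at e1
  exact (mul_eq_zero.1 e1.symm).resolve_right (D.gx.sv_ne k)

/-- The lift with separated variables. -/
theorem exists_sep (D : LocD l m F G x0 y0 κ κ' t0 T0) :
    ∃ (T : (Fin 3 → ℂ) → (Fin 3 → ℂ)), ContDiffAt ℂ 2 T t0 ∧
      ∀ᶠ t in 𝓝 t0, ∃ K : ℂ, Gen m (F (cs l x0 t0 t)) K (T t) ∧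
        (∀ k j, k ≠ j → fderiv ℂ T t (Pi.single k 1) j = 0) ∧
        (∀ k, fderiv ℂ T t (Pi.single k 1) k ≠ 0) ∧
        (∑ k, (t (k + 1) - t (k + 2)) / sv l κ t k *
          (fderiv ℂ T t (Pi.single k 1) k ^ 2 * sv m K (T t) k) = 0) ∧
        (∑ k, (t (k + 1) - t (k + 2)) / sv l κ t k *
          (fderiv ℂ T t (Pi.single k 1) k ^ 2 * (T t k * sv m K (T t) k)) = 0) := by
  classical
  obtain ⟨L, hL, hL0, hLe⟩ := exists_liftD D
  have hinj := lift_injD D hL hL0 hLe
  have hlines := lift_linesD D hL hL0 hLe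
  -- continuity of the matrix
  have hcont : ∀ j k, ContinuousAt (fun t => Jm L t j k) t0 := by
    intro j k
    have h1 : ContinuousAt (fun t => fderiv ℂ L t) t0 :=
      (hL.fderiv_right (m := 1) (by norm_num)).continuousAt
    have h2 : Continuous (fun A : (Fin 3 → ℂ) →L[ℂ] PE => (A (Pi.single k 1)).2 j) := by
      fun_prop
    exact h2.continuousAt.comp h1
  -- invertibility near `t0`
  have hdet0 : (Matrix.of (Jm L t0)).det ≠ 0 := by
    intro h0
    obtain ⟨v, hv, hv0⟩ := Matrix.exists_mulVec_eq_zero_iff.2 h0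
    apply hv
    apply hinj
    intro j
    have := congrFun hv0 j
    simp only [Matrix.mulVec, dotProduct, Matrix.of_apply, Pi.zero_apply] at this
    rw [← this]
    exact Finset.sum_congr rfl fun k _ => mul_comm _ _
  have hdetc : ContinuousAt (fun t => (Matrix.of (Jm L t)).det) t0 := by
    simp only [Matrix.det_fin_three, Matrix.of_apply]
    exact ((((((hcont 0 0).mul (hcont 1 1)).mul (hcont 2 2)).sub
      (((hcont 0 0).mul (hcont 1 2)).mul (hcont 2 1))).sub
      (((hcont 0 1).mul (hcont 1 0)).mul (hcont 2 2))).add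
      (((hcont 0 1).mul (hcont 1 2)).mul (hcont 2 0))).add
      (((hcont 0 2).mul (hcont 1 0)).mul (hcont 2 1)) |>.sub
      (((hcont 0 2).mul (hcont 1 1)).mul (hcont 2 0))
  have hinj' : ∀ᶠ t in 𝓝 t0, ∀ a : Fin 3 → ℂ, (∀ j, ∑ k, a k * Jm L t j k = 0) → a = 0 := by
    filter_upwards [hdetc.tendsto.eventually_ne hdet0] with t ht a ha
    by_contra hne
    apply ht
    apply Matrix.exists_mulVec_eq_zero_iff.1
    refine ⟨a, hne, ?_⟩
    ext j
    simp only [Matrix.mulVec, dotProduct, Matrix.of_apply, Pi.zero_apply]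
    rw [← ha j]
    exact Finset.sum_congr rfl fun k _ => mul_comm _ _
  -- monomial structure
  have hmono : ∀ᶠ t in 𝓝 t0, ∀ k k', k ≠ k' → ∀ j, Jm L t j k * Jm L t j k' = 0 := by
    filter_upwards [hlines, hinj'] with t h1 h2
    obtain ⟨K, gy, r1, r2, -, -⟩ := h1
    exact monomial_rel (fun j => gy.sv_ne j) gy.ht h2 r1 r2
  -- the permutation
  have hcol : ∀ k, ∃ j, Jm L t0 j k ≠ 0 := by
    intro k
    by_contra hcon
    push Not at hcon
    have := hinj (Pi.single k 1) (by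
      intro j
      rw [Finset.sum_eq_single k]
      · rw [hcon j, mul_zero]
      · intro b _ hb
        rw [Pi.single_eq_of_ne hb, zero_mul]
      · intro h; exact absurd (Finset.mem_univ _) h)
    have h3 := congrFun this k
    simp at h3
  choose τ' hτ' using hcol
  have hτinj : Function.Injective τ' := by
    intro k k' hk
    by_contra hne
    have h1 := hmono.self_of_nhds k k' hne (τ' k)
    have h2 := hτ' k'
    rw [← hk] at h2
    exact mul_ne_zero (hτ' k) h2 h1
  let τ : Equiv.Perm (Fin 3) := Equiv.ofBijective τ' (Finite.injective_iff_bijective.1 hτinj)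
  have hτ : ∀ k, Jm L t0 (τ k) k ≠ 0 := hτ'
  have hτe : ∀ k, ∀ᶠ t in 𝓝 t0, Jm L t (τ k) k ≠ 0 := fun k =>
    (hcont (τ k) k).tendsto.eventually_ne (hτ k)
  -- the permuted second component
  set P : PE →L[ℂ] (Fin 3 → ℂ) :=
    (ContinuousLinearMap.pi fun k => (ContinuousLinearMap.proj (R := ℂ) (φ := fun _ : Fin 3 => ℂ)
      (τ k)).comp (ContinuousLinearMap.snd ℂ ℂ (Fin 3 → ℂ))) with hP
  have hPa : ∀ p : PE, P p = p.2 ∘ τ := fun p => rfl
  refine ⟨fun t => P (L t), ?_, ?_⟩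
  · exact ContDiffAt.comp (g := P) t0 (P.contDiff.contDiffAt) hL
  · have h3 : ∀ᶠ t in 𝓝 t0, ContDiffAt ℂ 2 L t := hL.eventually (by simp)
    filter_upwards [hlines, hmono, eventually_all.2 hτe, h3] with t c1 c2 c3 c4
    obtain ⟨K, gy, r1, r2, r3, r4⟩ := c1
    have hfd : fderiv ℂ (fun t => P (L t)) t = P.comp (fderiv ℂ L t) :=
      (P.hasFDerivAt.comp t (c4.differentiableAt (by norm_num)).hasFDerivAt).fderiv
    have hJ : ∀ k j, fderiv ℂ (fun t => P (L t)) t (Pi.single k 1) j = Jm L t (τ j) k := by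
      intro k j
      rw [hfd]
      rfl
    have hzero : ∀ k j, k ≠ j → Jm L t (τ j) k = 0 := by
      intro k j hkj
      have := c2 j k hkj.symm (τ j)
      exact (mul_eq_zero.1 this).resolve_left (c3 j)
    have hsum : ∀ (k : Fin 3) (s : Fin 3 → ℂ), ∑ j, Jm L t j k * Jm L t j k * s j =
        Jm L t (τ k) k ^ 2 * s (τ k) := by
      intro k s
      rw [← Equiv.sum_comp τ, Finset.sum_eq_single k]
      · ring
      · intro j _ hj
        rw [hzero k j hj.symm]
        ring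
      · intro h; exact absurd (Finset.mem_univ _) h
    refine ⟨K, ?_, ?_, ?_, ?_, ?_⟩
    · rw [hPa]
      exact gy.perm τ
    · intro k j hkj
      rw [hJ, hzero k j hkj]
    · intro k
      rw [hJ]
      exact c3 k
    · rw [← r3]
      refine Finset.sum_congr rfl fun k _ => ?_
      rw [hsum k (fun j => sv m K (L t).2 j), hJ, hPa, gy.sv_perm]
    · rw [← r4]
      refine Finset.sum_congr rfl fun k _ => ?_
      rw [hsum k (fun j => (L t).2 j * sv m K (L t).2 j), hJ, hPa, gy.sv_perm]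
      rfl

end Pool.Agent.Lib.MP_6e94a1_ag
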