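import Pool.Agent.Lib.MP_6e94a1_ag.Quad6

/-!
# The functional equation
-/

open Polynomial Finset Filter Topology

set_option linter.all false

namespace Pool.Agent.Lib.MP_6e94a1_ag

/-- two continuous functions with equal squares -/
lemma eventually_eq_of_sq {X : Type*} [TopologicalSpace X] {f g : X → ℂ} {x : X}
    (hf : ContinuousAt f x) (hg : ContinuousAt g x) (h0 : f x = g x) (hne : f x ≠ 0)
    (h : ∀ᶠ y in 𝓝 x, f y ^ 2 = g y ^ 2) : ∀ᶠ y in 𝓝 x, f y = g y := by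
  have h1 : ∀ᶠ y in 𝓝 x, f y + g y ≠ 0 := by
    refine (hf.add hg).tendsto.eventually_ne ?_
    rw [Pi.add_apply, ← h0, ← two_mul]
    exact mul_ne_zero two_ne_zero hne
  filter_upwards [h, h1] with y h2 h3
  have h4 : (f y + g y) * (f y - g y) = 0 := by linear_combination h2
  exact sub_eq_zero.1 ((mul_eq_zero.1 h4).resolve_left h3)

/-- three functions with collinear graphs -/
lemma collinear {g : Fin 3 → ℂ → ℂ} {t0 : Fin 3 → ℂ} (ht : Function.Injective t0)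
    (h : ∀ᶠ t in 𝓝 t0, ∑ k, g k (t k) * (t (k + 1) - t (k + 2)) = 0) :
    ∃ a b : ℂ, ∀ k, ∀ᶠ s in 𝓝 (t0 k), g k s = a * s + b := by
  have t01 : t0 0 - t0 1 ≠ 0 := sub_ne_zero.2 fun h => by simpa using ht h
  have t12 : t0 1 - t0 2 ≠ 0 := sub_ne_zero.2 fun h => by simpa using ht h
  have t20 : t0 2 - t0 0 ≠ 0 := sub_ne_zero.2 fun h => by simpa using ht h
  set a : ℂ := (g 0 (t0 0) - g 1 (t0 1)) / (t0 0 - t0 1) with ha
  set b : ℂ := g 0 (t0 0) - a * t0 0 with hb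
  have e0 : g 0 (t0 0) = a * t0 0 + b := by rw [hb]; ring
  have e1 : g 1 (t0 1) = a * t0 1 + b := by
    have : a * (t0 0 - t0 1) = g 0 (t0 0) - g 1 (t0 1) := by
      rw [ha]; field_simp
    rw [hb]
    linear_combination this
  have v1 : ∀ t : Fin 3 → ℂ, t (0 + 1) - t (0 + 2) = t 1 - t 2 := fun _ => rfl
  have v2 : ∀ t : Fin 3 → ℂ, t (1 + 1) - t (1 + 2) = t 2 - t 0 := fun _ => rfl
  have v3 : ∀ t : Fin 3 → ℂ, t (2 + 1) - t (2 + 2) = t 0 - t 1 := fun _ => rfl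
  have e2 : g 2 (t0 2) = a * t0 2 + b := by
    have h0 := h.self_of_nhds
    rw [Fin.sum_univ_three, v1, v2, v3, e0, e1] at h0
    apply mul_left_cancel₀ t01
    linear_combination h0
  have hu : ∀ k, Tendsto (fun s : ℂ => Function.update t0 k s) (𝓝 (t0 k)) (𝓝 t0) := by
    intro k
    have h1 : Continuous (fun s : ℂ => Function.update t0 k s) :=
      continuous_const.update k continuous_id
    have h2 := h1.tendsto (t0 k)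
    rwa [Function.update_eq_self] at h2
  refine ⟨a, b, fun k => ?_⟩
  filter_upwards [(hu k).eventually h] with s hs
  rw [Fin.sum_univ_three, v1, v2, v3] at hs
  fin_cases k
  · simp [Function.update] at hs
    show g 0 s = a * s + b
    rw [e1, e2] at hs
    apply mul_left_cancel₀ t12
    linear_combination hs
  · simp [Function.update] at hs
    show g 1 s = a * s + b
    rw [e0, e2] at hs
    apply mul_left_cancel₀ t20
    linear_combination hs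
  · simp [Function.update] at hs
    show g 2 s = a * s + b
    rw [e0, e1] at hs
    apply mul_left_cancel₀ t01
    linear_combination hs

/-- algebra of the two sum relations -/
lemma ratio_rel {l m : Fin 6 → ℂ} {κ K : ℂ} {t T J : Fin 3 → ℂ} (ht : Function.Injective t)
    (hT : Function.Injective T) (hκ : κ ≠ 0) (hK : K ≠ 0) (hp : ∀ k, ∏ i, (t k - l i) ≠ 0)
    (hP : ∀ k, ∏ i, (T k - m i) ≠ 0)
    (h1 : ∑ k, (t (k + 1) - t (k + 2)) / sv l κ t k * (J k ^ 2 * sv m K T k) = 0)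
    (h2 : ∑ k, (t (k + 1) - t (k + 2)) / sv l κ t k * (J k ^ 2 * (T k * sv m K T k)) = 0)
    (k : Fin 3) :
    J k ^ 2 * (∏ i, (t k - l i)) / (∏ i, (T k - m i)) * (t (k + 1) - t (k + 2)) ^ 2 =
      J 0 ^ 2 * (∏ i, (t 0 - l i)) / (∏ i, (T 0 - m i)) * (t 1 - t 2) ^ 2 / (T 1 - T 2) ^ 2 *
        (T (k + 1) - T (k + 2)) ^ 2 := by
  have t01 : t 0 - t 1 ≠ 0 := sub_ne_zero.2 fun h => by simpa using ht h
  have t12 : t 1 - t 2 ≠ 0 := sub_ne_zero.2 fun h => by simpa using ht h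
  have t20 : t 2 - t 0 ≠ 0 := sub_ne_zero.2 fun h => by simpa using ht h
  have T01 : T 0 - T 1 ≠ 0 := sub_ne_zero.2 fun h => by simpa using hT h
  have T12 : T 1 - T 2 ≠ 0 := sub_ne_zero.2 fun h => by simpa using hT h
  have T20 : T 2 - T 0 ≠ 0 := sub_ne_zero.2 fun h => by simpa using hT h
  have v1 : ∀ t : Fin 3 → ℂ, t (0 + 1) - t (0 + 2) = t 1 - t 2 := fun _ => rfl
  have v2 : ∀ t : Fin 3 → ℂ, t (1 + 1) - t (1 + 2) = t 2 - t 0 := fun _ => rfl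
  have v3 : ∀ t : Fin 3 → ℂ, t (2 + 1) - t (2 + 2) = t 0 - t 1 := fun _ => rfl
  have s0 : ∀ (l : Fin 6 → ℂ) κ (t : Fin 3 → ℂ), sv l κ t 0 =
      - (κ * ((t 0 - t 1) * (t 0 - t 2))) / ∏ i, (t 0 - l i) := fun _ _ _ => rfl
  have s1 : ∀ (l : Fin 6 → ℂ) κ (t : Fin 3 → ℂ), sv l κ t 1 =
      - (κ * ((t 1 - t 2) * (t 1 - t 0))) / ∏ i, (t 1 - l i) := fun _ _ _ => rfl
  have s2 : ∀ (l : Fin 6 → ℂ) κ (t : Fin 3 → ℂ), sv l κ t 2 =
      - (κ * ((t 2 - t 0) * (t 2 - t 1))) / ∏ i, (t 2 - l i) := fun _ _ _ => rfl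
  rw [Fin.sum_univ_three, v1, v2, v3, s0, s1, s2, s0, s1, s2] at h1 h2
  have p0 := hp 0
  have p1 := hp 1
  have p2 := hp 2
  have P0 := hP 0
  have P1 := hP 1
  have P2 := hP 2
  have g0 : J 0 ^ 2 * (∏ i, (t 0 - l i)) / (∏ i, (T 0 - m i)) = J 0 ^ 2 * (∏ i, (t 0 - l i)) /
    (∏ i, (T 0 - m i)) := rfl
  -- abbreviations for the ratios
  obtain ⟨H0, hH0⟩ : ∃ H0, H0 = J 0 ^ 2 * (∏ i, (t 0 - l i)) / (∏ i, (T 0 - m i)) := ⟨_, rfl⟩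
  obtain ⟨H1, hH1⟩ : ∃ H1, H1 = J 1 ^ 2 * (∏ i, (t 1 - l i)) / (∏ i, (T 1 - m i)) := ⟨_, rfl⟩
  obtain ⟨H2, hH2⟩ : ∃ H2, H2 = J 2 ^ 2 * (∏ i, (t 2 - l i)) / (∏ i, (T 2 - m i)) := ⟨_, rfl⟩
  have t10 : t 1 - t 0 ≠ 0 := by rw [← neg_sub]; exact neg_ne_zero.2 t01
  have t21 : t 2 - t 1 ≠ 0 := by rw [← neg_sub]; exact neg_ne_zero.2 t12
  have t02 : t 0 - t 2 ≠ 0 := by rw [← neg_sub]; exact neg_ne_zero.2 t20
  have f1 : H0 * (t 1 - t 2) ^ 2 * (T 2 - T 0) * (T 0 - T 1) +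
      H1 * (t 2 - t 0) ^ 2 * (T 0 - T 1) * (T 1 - T 2) +
      H2 * (t 0 - t 1) ^ 2 * (T 1 - T 2) * (T 2 - T 0) = 0 := by
    have e : H0 * (t 1 - t 2) ^ 2 * (T 2 - T 0) * (T 0 - T 1) +
      H1 * (t 2 - t 0) ^ 2 * (T 0 - T 1) * (T 1 - T 2) +
      H2 * (t 0 - t 1) ^ 2 * (T 1 - T 2) * (T 2 - T 0) =
      (κ / K * ((t 0 - t 1) * (t 1 - t 2) * (t 2 - t 0))) *
      ((t 1 - t 2) / (- (κ * ((t 0 - t 1) * (t 0 - t 2))) / ∏ i, (t 0 - l i)) *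
        (J 0 ^ 2 * (- (K * ((T 0 - T 1) * (T 0 - T 2))) / ∏ i, (T 0 - m i))) +
      (t 2 - t 0) / (- (κ * ((t 1 - t 2) * (t 1 - t 0))) / ∏ i, (t 1 - l i)) *
        (J 1 ^ 2 * (- (K * ((T 1 - T 2) * (T 1 - T 0))) / ∏ i, (T 1 - m i))) +
      (t 0 - t 1) / (- (κ * ((t 2 - t 0) * (t 2 - t 1))) / ∏ i, (t 2 - l i)) *
        (J 2 ^ 2 * (- (K * ((T 2 - T 0) * (T 2 - T 1))) / ∏ i, (T 2 - m i)))) := by
      rw [hH0, hH1, hH2]
      field_simp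
      ring
    rw [e, h1, mul_zero]
  have f2 : H0 * (t 1 - t 2) ^ 2 * (T 2 - T 0) * (T 0 - T 1) * T 0 +
      H1 * (t 2 - t 0) ^ 2 * (T 0 - T 1) * (T 1 - T 2) * T 1 +
      H2 * (t 0 - t 1) ^ 2 * (T 1 - T 2) * (T 2 - T 0) * T 2 = 0 := by
    have e : H0 * (t 1 - t 2) ^ 2 * (T 2 - T 0) * (T 0 - T 1) * T 0 +
      H1 * (t 2 - t 0) ^ 2 * (T 0 - T 1) * (T 1 - T 2) * T 1 +
      H2 * (t 0 - t 1) ^ 2 * (T 1 - T 2) * (T 2 - T 0) * T 2 =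
      (κ / K * ((t 0 - t 1) * (t 1 - t 2) * (t 2 - t 0))) *
      ((t 1 - t 2) / (- (κ * ((t 0 - t 1) * (t 0 - t 2))) / ∏ i, (t 0 - l i)) *
        (J 0 ^ 2 * (T 0 * (- (K * ((T 0 - T 1) * (T 0 - T 2))) / ∏ i, (T 0 - m i)))) +
      (t 2 - t 0) / (- (κ * ((t 1 - t 2) * (t 1 - t 0))) / ∏ i, (t 1 - l i)) *
        (J 1 ^ 2 * (T 1 * (- (K * ((T 1 - T 2) * (T 1 - T 0))) / ∏ i, (T 1 - m i)))) +
      (t 0 - t 1) / (- (κ * ((t 2 - t 0) * (t 2 - t 1))) / ∏ i, (t 2 - l i)) *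
        (J 2 ^ 2 * (T 2 * (- (K * ((T 2 - T 0) * (T 2 - T 1))) / ∏ i, (T 2 - m i))))) := by
      rw [hH0, hH1, hH2]
      field_simp
      ring
    rw [e, h2, mul_zero]
  have g1 : H1 * (t 2 - t 0) ^ 2 * (T 1 - T 2) ^ 2 = H0 * (t 1 - t 2) ^ 2 * (T 2 - T 0) ^ 2 := by
    apply mul_left_cancel₀ T01
    linear_combination f2 - T 2 * f1
  have g2 : H2 * (t 0 - t 1) ^ 2 * (T 1 - T 2) ^ 2 = H0 * (t 1 - t 2) ^ 2 * (T 0 - T 1) ^ 2 := by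
    apply mul_left_cancel₀ T20
    linear_combination - f2 + T 1 * f1
  fin_cases k
  · show J 0 ^ 2 * (∏ i, (t 0 - l i)) / (∏ i, (T 0 - m i)) * (t 1 - t 2) ^ 2 =
      J 0 ^ 2 * (∏ i, (t 0 - l i)) / (∏ i, (T 0 - m i)) * (t 1 - t 2) ^ 2 / (T 1 - T 2) ^ 2 *
        (T 1 - T 2) ^ 2
    field_simp
  · show J 1 ^ 2 * (∏ i, (t 1 - l i)) / (∏ i, (T 1 - m i)) * (t 2 - t 0) ^ 2 =
      J 0 ^ 2 * (∏ i, (t 0 - l i)) / (∏ i, (T 0 - m i)) * (t 1 - t 2) ^ 2 / (T 1 - T 2) ^ 2 *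
        (T 2 - T 0) ^ 2
    rw [← hH0, ← hH1]
    field_simp
    linear_combination g1
  · show J 2 ^ 2 * (∏ i, (t 2 - l i)) / (∏ i, (T 2 - m i)) * (t 0 - t 1) ^ 2 =
      J 0 ^ 2 * (∏ i, (t 0 - l i)) / (∏ i, (T 0 - m i)) * (t 1 - t 2) ^ 2 / (T 1 - T 2) ^ 2 *
        (T 0 - T 1) ^ 2
    rw [← hH0, ← hH2]
    field_simp
    linear_combination g2

end Pool.Agent.Lib.MP_6e94a1_ag
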