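import Pool.Agent.Lib.MP_6e94a1_ag.Quad7

/-!
# The lift is a Moebius transformation in each variable
-/

open Polynomial Finset Filter Topology

set_option linter.all false

namespace Pool.Agent.Lib.MP_6e94a1_ag

variable {l m : Fin 6 → ℂ} {F G : (Fin 6 → ℂ) → (Fin 6 → ℂ)} {x0 y0 : Fin 6 → ℂ}
  {κ κ' : ℂ} {t0 T0 : Fin 3 → ℂ}

/-- one coordinate function does not depend on another variable -/
lemma indep_step {T : (Fin 3 → ℂ) → (Fin 3 → ℂ)} {r : ℝ} (hr : 0 < r)
    (hd : ∀ t ∈ Metric.ball t0 r, DifferentiableAt ℂ T t) {j k : Fin 3}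
    (hz : ∀ t ∈ Metric.ball t0 r, fderiv ℂ T t (Pi.single j 1) k = 0)
    {t : Fin 3 → ℂ} (ht : t ∈ Metric.ball t0 r) :
    T t k = T (Function.update t j (t0 j)) k := by
  have hball : ∀ s ∈ Metric.ball (t0 j) r, Function.update t j s ∈ Metric.ball t0 r := by
    intro s hs
    rw [Metric.mem_ball, dist_pi_lt_iff hr] at ht ⊢
    intro i
    by_cases hi : i = j
    · subst hi
      rw [Function.update_self]
      exact hs
    · rw [Function.update_of_ne hi]
      exact ht i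
  have hder : ∀ s ∈ Metric.ball (t0 j) r,
      HasDerivAt (fun s => T (Function.update t j s) k) 0 s := by
    intro s hs
    have h1 := (hd _ (hball s hs)).hasFDerivAt.comp_hasDerivAt s (hasDerivAt_update t j s)
    have h2 := (hasDerivAt_pi.1 h1) k
    rw [hz _ (hball s hs)] at h2
    exact h2
  have htj : t j ∈ Metric.ball (t0 j) r := by
    rw [Metric.mem_ball, dist_pi_lt_iff hr] at ht
    exact ht j
  have := Metric.isOpen_ball.is_const_of_deriv_eq_zero (s := Metric.ball (t0 j) r)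
    (convex_ball _ _).isPreconnected
    (f := fun s => T (Function.update t j s) k)
    (fun s hs => (hder s hs).differentiableAt.differentiableWithinAt)
    (fun s hs => (hder s hs).deriv) htj (Metric.mem_ball_self hr)
  simpa using this

/-- the separated form -/
lemma sep_form {T : (Fin 3 → ℂ) → (Fin 3 → ℂ)} {r : ℝ} (hr : 0 < r)
    (hd : ∀ t ∈ Metric.ball t0 r, DifferentiableAt ℂ T t)
    (hz : ∀ t ∈ Metric.ball t0 r, ∀ j k, j ≠ k → fderiv ℂ T t (Pi.single j 1) k = 0)
    (t : Fin 3 → ℂ) (ht : t ∈ Metric.ball t0 r) (k : Fin 3) :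
    T t k = T (Function.update t0 k (t k)) k := by
  have hmem : ∀ j, ∀ t ∈ Metric.ball t0 r, Function.update t j (t0 j) ∈ Metric.ball t0 r := by
    intro j t ht
    rw [Metric.mem_ball, dist_pi_lt_iff hr] at ht ⊢
    intro i
    by_cases hi : i = j
    · subst hi
      rw [Function.update_self, dist_self]
      exact hr
    · rw [Function.update_of_ne hi]
      exact ht i
  have n1 : k + 1 ≠ k := by revert k; decide
  have n2 : k + 2 ≠ k := by revert k; decide
  have n12 : k + 1 ≠ k + 2 := by revert k; decide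
  rw [indep_step hr hd (fun t ht => hz t ht (k + 1) k n1) ht,
    indep_step hr hd (fun t ht => hz t ht (k + 2) k n2) (hmem (k + 1) t ht)]
  have hn : ∀ i k : Fin 3, i = k ∨ i = k + 1 ∨ i = k + 2 := by decide
  have e : Function.update (Function.update t (k + 1) (t0 (k + 1))) (k + 2) (t0 (k + 2)) =
      Function.update t0 k (t k) := by
    funext i
    rcases hn i k with rfl | rfl | rfl
    · rw [Function.update_of_ne n2.symm, Function.update_of_ne n1.symm, Function.update_self]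
    · rw [Function.update_of_ne n12, Function.update_self, Function.update_of_ne n1]
    · rw [Function.update_self, Function.update_of_ne n2]
  rw [e]

/-- derivative of the separated functions -/
lemma sep_deriv {T : (Fin 3 → ℂ) → (Fin 3 → ℂ)} {r : ℝ} (hr : 0 < r)
    (hd : ∀ t ∈ Metric.ball t0 r, DifferentiableAt ℂ T t)
    (hz : ∀ t ∈ Metric.ball t0 r, ∀ j k, j ≠ k → fderiv ℂ T t (Pi.single j 1) k = 0)
    (t : Fin 3 → ℂ) (ht : t ∈ Metric.ball t0 r) (k : Fin 3) :
    HasDerivAt (fun s => T (Function.update t0 k s) k) (fderiv ℂ T t (Pi.single k 1) k) (t k) := by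
  have htk : t k ∈ Metric.ball (t0 k) r := by
    rw [Metric.mem_ball, dist_pi_lt_iff hr] at ht
    exact ht k
  have hball : ∀ s ∈ Metric.ball (t0 k) r, Function.update t k s ∈ Metric.ball t0 r := by
    intro s hs
    rw [Metric.mem_ball, dist_pi_lt_iff hr] at ht ⊢
    intro i
    by_cases hi : i = k
    · subst hi
      rw [Function.update_self]
      exact hs
    · rw [Function.update_of_ne hi]
      exact ht i
  have h0 : HasFDerivAt T (fderiv ℂ T t) (Function.update t k (t k)) := by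
    rw [Function.update_eq_self]
    exact (hd t ht).hasFDerivAt
  have h1 := h0.comp_hasDerivAt (t k) (hasDerivAt_update t k (t k))
  have h2 := (hasDerivAt_pi.1 h1) k
  refine h2.congr_of_eventuallyEq ?_
  filter_upwards [Metric.isOpen_ball.mem_nhds htk] with s hs
  have := sep_form hr hd hz (Function.update t k s) (hball s hs) k
  rw [Function.update_self] at this
  exact this.symm

/-- The functional equation solved. -/
theorem exists_affine (D : LocD l m F G x0 y0 κ κ' t0 T0) :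
    ∃ (a b c d : ℂ) (h : Fin 3 → ℂ → ℂ), 
      (∀ᶠ t in 𝓝 t0, ∃ K : ℂ, Gen m (F (cs l x0 t0 t)) K (fun k => h k (t k))) ∧
      ∀ k, ∀ᶠ s in 𝓝 (t0 k), a * s + b ≠ 0 ∧ (a * s + b) * h k s = c * s + d ∧
        deriv (h k) s ≠ 0 ∧
        deriv (h k) s ^ 2 * (∏ i, (s - l i)) = (a * s + b) ^ 2 * (∏ i, (h k s - m i)) := by
  obtain ⟨T, hT, hTe⟩ := exists_sep D
  have hdiff : ∀ᶠ t in 𝓝 t0, DifferentiableAt ℂ T t :=
    (hT.eventually (by simp)).mono fun t ht => ht.differentiableAt (by norm_num)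
  obtain ⟨r, hr, hball⟩ := Metric.eventually_nhds_iff_ball.1
    (hTe.and (hdiff.and (goodP_slice D.gx)))
  choose! K hK using fun t ht => (hball t ht).1
  have hd : ∀ t ∈ Metric.ball t0 r, DifferentiableAt ℂ T t := fun t ht => (hball t ht).2.1
  have hz : ∀ t ∈ Metric.ball t0 r, ∀ j k, j ≠ k → fderiv ℂ T t (Pi.single j 1) k = 0 :=
    fun t ht => (hK t ht).2.1
  have hsf := sep_form hr hd hz
  have hsd := sep_deriv hr hd hz
  obtain ⟨h, hh⟩ : ∃ h : Fin 3 → ℂ → ℂ, h = fun k s => T (Function.update t0 k s) k := ⟨_, rfl⟩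
  have hTh : ∀ t ∈ Metric.ball t0 r, T t = fun k => h k (t k) := by
    intro t ht
    ext k
    rw [hh]
    exact hsf t ht k
  have hdh : ∀ t ∈ Metric.ball t0 r, ∀ k, HasDerivAt (h k) (fderiv ℂ T t (Pi.single k 1) k) (t k) := by
    intro t ht k
    rw [hh]
    exact hsd t ht k
  have ht0 : t0 ∈ Metric.ball t0 r := Metric.mem_ball_self hr
  -- analyticity of `h k`
  have hupd : ∀ k, ∀ s ∈ Metric.ball (t0 k) r, Function.update t0 k s ∈ Metric.ball t0 r := by
    intro k s hs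
    rw [Metric.mem_ball, dist_pi_lt_iff hr]
    intro i
    by_cases hi : i = k
    · subst hi
      rw [Function.update_self]
      exact hs
    · rw [Function.update_of_ne hi, dist_self]
      exact hr
  have hdk : ∀ k, DifferentiableOn ℂ (h k) (Metric.ball (t0 k) r) := by
    intro k s hs
    have := hdh _ (hupd k s hs) k
    rw [Function.update_self] at this
    exact this.differentiableAt.differentiableWithinAt
  have hak : ∀ k, AnalyticAt ℂ (h k) (t0 k) := fun k =>
    (hdk k).analyticAt (Metric.isOpen_ball.mem_nhds (Metric.mem_ball_self hr))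
  -- the ratios
  obtain ⟨H, hH⟩ : ∃ H : Fin 3 → ℂ → ℂ, H = fun k s =>
    deriv (h k) s ^ 2 * (∏ i, (s - l i)) / (∏ i, (h k s - m i)) := ⟨_, rfl⟩
  have hGm0 := (hK t0 ht0).1
  rw [hTh t0 ht0] at hGm0
  have hPk0 : ∀ k, ∏ i, (h k (t0 k) - m i) ≠ 0 := fun k => hGm0.prod_ne k
  have hpk0 : ∀ k, ∏ i, (t0 k - l i) ≠ 0 := fun k => D.gx.prod_ne k
  have hder0 : ∀ k, deriv (h k) (t0 k) ≠ 0 := by
    intro k
    rw [(hdh t0 ht0 k).deriv]
    exact (hK t0 ht0).2.2.1 k
  have hH0 : ∀ k, H k (t0 k) ≠ 0 := by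
    intro k
    rw [hH]
    exact div_ne_zero (mul_ne_zero (pow_ne_zero 2 (hder0 k)) (hpk0 k)) (hPk0 k)
  have hhc : ∀ k, ContinuousAt (h k) (t0 k) := fun k => (hak k).continuousAt
  have hdc : ∀ k, ContinuousAt (deriv (h k)) (t0 k) := fun k => (hak k).deriv.continuousAt
  have hprc : ∀ k, ContinuousAt (fun s => ∏ i, (h k s - m i)) (t0 k) := by
    intro k
    exact tendsto_finsetProd _ fun i _ => ((hhc k).sub continuousAt_const)
  have hHc : ∀ k, ContinuousAt (H k) (t0 k) := by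
    intro k
    rw [hH]
    have h1 : Continuous (fun s : ℂ => ∏ i, (s - l i)) := by fun_prop
    exact (((hdc k).pow 2).mul h1.continuousAt).div (hprc k) (hPk0 k)
  have hproj : ∀ k, Tendsto (fun t : Fin 3 → ℂ => t k) (𝓝 t0) (𝓝 (t0 k)) := fun k =>
    (continuous_apply k).tendsto t0
  -- the ratio relation
  have hrat : ∀ t ∈ Metric.ball t0 r, ∀ k,
      H k (t k) * (t (k + 1) - t (k + 2)) ^ 2 =
        H 0 (t 0) * (t 1 - t 2) ^ 2 / (h 1 (t 1) - h 2 (t 2)) ^ 2 *
          (h (k + 1) (t (k + 1)) - h (k + 2) (t (k + 2))) ^ 2 := by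
    intro t ht k
    have gx := gen_cs D.gx (hball t ht).2.2
    obtain ⟨gy, c1, c2, c3, c4⟩ := hK t ht
    rw [hTh t ht] at gy
    have hTt := hTh t ht
    have hJ : ∀ k, fderiv ℂ T t (Pi.single k 1) k = deriv (h k) (t k) := fun k =>
      (hdh t ht k).deriv.symm
    simp only [hJ] at c3 c4
    rw [hTt] at c3 c4
    have := ratio_rel (J := fun k => deriv (h k) (t k)) gx.ht gy.ht gx.hκ gy.hκ
      gx.prod_ne gy.prod_ne c3 c4 k
    rw [hH]
    exact this
  -- names for the values at the base point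
  obtain ⟨Y, hY⟩ : ∃ Y : Fin 3 → ℂ, Y = fun k => h k (t0 k) := ⟨_, rfl⟩
  have hYi : Function.Injective Y := by rw [hY]; exact hGm0.ht
  have hn12 : ∀ k : Fin 3, k + 1 ≠ k + 2 := by decide
  have hYne : ∀ k : Fin 3, Y (k + 1) - Y (k + 2) ≠ 0 := by
    intro k h0
    exact hn12 k (hYi (sub_eq_zero.1 h0))
  have htne : ∀ k : Fin 3, t0 (k + 1) - t0 (k + 2) ≠ 0 := by
    intro k h0
    exact hn12 k (D.gx.ht (sub_eq_zero.1 h0))
  obtain ⟨R, hR⟩ : ∃ R : (Fin 3 → ℂ) → ℂ, R = fun t =>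
    H 0 (t 0) * (t 1 - t 2) ^ 2 / (h 1 (t 1) - h 2 (t 2)) ^ 2 := ⟨_, rfl⟩
  have hrel : ∀ t ∈ Metric.ball t0 r, ∀ k, H k (t k) * (t (k + 1) - t (k + 2)) ^ 2 =
      R t * (h (k + 1) (t (k + 1)) - h (k + 2) (t (k + 2))) ^ 2 := by
    intro t ht k
    rw [hR]
    exact hrat t ht k
  have hY12 : h 1 (t0 1) - h 2 (t0 2) ≠ 0 := by
    have := hYne 0
    rw [hY] at this
    exact this
  have hRc : ContinuousAt R t0 := by
    rw [hR]
    have e1 : ContinuousAt (fun t : Fin 3 → ℂ => H 0 (t 0)) t0 :=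
      ContinuousAt.comp (g := H 0) (f := fun t : Fin 3 → ℂ => t 0) (hHc 0) (hproj 0)
    have e2 : ContinuousAt (fun t : Fin 3 → ℂ => h 1 (t 1)) t0 :=
      ContinuousAt.comp (g := h 1) (f := fun t : Fin 3 → ℂ => t 1) (hhc 1) (hproj 1)
    have e3 : ContinuousAt (fun t : Fin 3 → ℂ => h 2 (t 2)) t0 :=
      ContinuousAt.comp (g := h 2) (f := fun t : Fin 3 → ℂ => t 2) (hhc 2) (hproj 2)
    have e4 : ContinuousAt (fun t : Fin 3 → ℂ => t 1 - t 2) t0 :=
      ((continuous_apply 1).sub (continuous_apply 2)).continuousAt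
    exact (e1.mul (e4.pow 2)).div ((e2.sub e3).pow 2) (pow_ne_zero 2 hY12)
  have hR0 : R t0 ≠ 0 := by
    have h12 : t0 1 - t0 2 ≠ 0 := htne 0
    rw [hR]
    exact div_ne_zero (mul_ne_zero (hH0 0) (pow_ne_zero 2 h12)) (pow_ne_zero 2 hY12)
  obtain ⟨ρ, hρ⟩ := IsAlgClosed.exists_pow_nat_eq (R t0) (n := 2) (by norm_num)
  have hρ0 : ρ ≠ 0 := by
    rintro rfl
    exact hR0 (by rw [← hρ]; norm_num)
  -- square roots of the ratios
  obtain ⟨g, hg⟩ : ∃ g : Fin 3 → ℂ → ℂ, g = fun k s =>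
    ρ * (Y (k + 1) - Y (k + 2)) / (t0 (k + 1) - t0 (k + 2)) * sqr (H k s / H k (t0 k)) := ⟨_, rfl⟩
  obtain ⟨q, hq⟩ : ∃ q : (Fin 3 → ℂ) → ℂ, q = fun t => ρ * sqr (R t / R t0) := ⟨_, rfl⟩
  have hrel0 := hrel t0 ht0
  have hYk : ∀ k, h k (t0 k) = Y k := fun k => by rw [hY]
  simp only [hYk] at hrel0
  have hgsq : ∀ k, ∀ᶠ s in 𝓝 (t0 k), g k s ^ 2 = H k s := by
    intro k
    filter_upwards [(hHc k).tendsto.eventually_ne (hH0 k)] with s hs
    rw [hg]
    simp only
    rw [mul_pow, sqr_sq (div_ne_zero hs (hH0 k)), div_pow, mul_pow, hρ]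
    have h1 := hrel0 k
    have h2 := hH0 k
    have h3 := htne k
    have h4 := hYne k
    have h5 : R t0 * (Y (k + 1) - Y (k + 2)) ^ 2 / (t0 (k + 1) - t0 (k + 2)) ^ 2 = H k (t0 k) := by
      rw [div_eq_iff (pow_ne_zero 2 h3)]
      exact h1.symm
    rw [h5]
    field_simp
  have hqsq : ∀ᶠ t in 𝓝 t0, q t ^ 2 = R t := by
    filter_upwards [hRc.tendsto.eventually_ne hR0] with t ht
    rw [hq]
    simp only
    rw [mul_pow, sqr_sq (div_ne_zero ht hR0), hρ]
    field_simp
  have hsqc1 : ContinuousAt sqr 1 := (analyticAt_sqr Complex.one_mem_slitPlane).continuousAt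
  have hgc : ∀ k, ContinuousAt (g k) (t0 k) := by
    intro k
    rw [hg]
    have e1 : ContinuousAt (fun s => H k s / H k (t0 k)) (t0 k) := (hHc k).div_const _
    have e2 : ContinuousAt sqr (H k (t0 k) / H k (t0 k)) := by
      rw [div_self (hH0 k)]
      exact hsqc1
    exact continuousAt_const.mul
      (ContinuousAt.comp (g := sqr) (f := fun s => H k s / H k (t0 k)) e2 e1)
  have hqc : ContinuousAt q t0 := by
    rw [hq]
    have e1 : ContinuousAt (fun s => R s / R t0) t0 := hRc.div_const _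
    have e2 : ContinuousAt sqr (R t0 / R t0) := by
      rw [div_self hR0]
      exact hsqc1
    exact continuousAt_const.mul
      (ContinuousAt.comp (g := sqr) (f := fun s => R s / R t0) e2 e1)
  have hg0 : ∀ k, g k (t0 k) = ρ * (Y (k + 1) - Y (k + 2)) / (t0 (k + 1) - t0 (k + 2)) := by
    intro k
    rw [hg]
    simp only
    rw [div_self (hH0 k), sqr_one, mul_one]
  have hq0 : q t0 = ρ := by
    rw [hq]
    simp only
    rw [div_self hR0, sqr_one, mul_one]
  have hgne : ∀ k, g k (t0 k) ≠ 0 := by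
    intro k
    rw [hg0]
    exact div_ne_zero (mul_ne_zero hρ0 (hYne k)) (htne k)
  -- the linear relation
  have hlin : ∀ k, ∀ᶠ t in 𝓝 t0, g k (t k) * (t (k + 1) - t (k + 2)) =
      q t * (h (k + 1) (t (k + 1)) - h (k + 2) (t (k + 2))) := by
    intro k
    have c1 : ContinuousAt (fun t : Fin 3 → ℂ => g k (t k) * (t (k + 1) - t (k + 2))) t0 := by
      have e1 : ContinuousAt (fun t : Fin 3 → ℂ => g k (t k)) t0 :=
        ContinuousAt.comp (g := g k) (f := fun t : Fin 3 → ℂ => t k) (hgc k) (hproj k)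
      exact e1.mul ((continuous_apply (k + 1)).sub (continuous_apply (k + 2))).continuousAt
    have c2 : ContinuousAt (fun t : Fin 3 → ℂ => q t *
        (h (k + 1) (t (k + 1)) - h (k + 2) (t (k + 2)))) t0 := by
      have e1 : ∀ j, ContinuousAt (fun t : Fin 3 → ℂ => h j (t j)) t0 := fun j =>
        ContinuousAt.comp (g := h j) (f := fun t : Fin 3 → ℂ => t j) (hhc j) (hproj j)
      exact hqc.mul ((e1 _).sub (e1 _))
    refine eventually_eq_of_sq c1 c2 ?_ ?_ ?_
    · simp only [hYk]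
      rw [hg0, hq0, div_mul_cancel₀ _ (htne k)]
    · exact mul_ne_zero (hgne k) (htne k)
    · filter_upwards [(hproj k).eventually (hgsq k), hqsq, Metric.ball_mem_nhds t0 hr]
        with t a1 a2 a3
      rw [mul_pow, mul_pow, a1, a2]
      exact hrel t a3 k
  have v1 : ∀ t : Fin 3 → ℂ, t (0 + 1) - t (0 + 2) = t 1 - t 2 := fun _ => rfl
  have v2 : ∀ t : Fin 3 → ℂ, t (1 + 1) - t (1 + 2) = t 2 - t 0 := fun _ => rfl
  have v3 : ∀ t : Fin 3 → ℂ, t (2 + 1) - t (2 + 2) = t 0 - t 1 := fun _ => rfl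
  have hsum1 : ∀ᶠ t in 𝓝 t0, ∑ k, g k (t k) * (t (k + 1) - t (k + 2)) = 0 := by
    filter_upwards [eventually_all.2 hlin] with t ht
    simp only [ht]
    rw [Fin.sum_univ_three]
    show q t * (h 1 (t 1) - h 2 (t 2)) + q t * (h 2 (t 2) - h 0 (t 0)) +
      q t * (h 0 (t 0) - h 1 (t 1)) = 0
    ring
  have hsum2 : ∀ᶠ t in 𝓝 t0, ∑ k, (g k (t k) * h k (t k)) * (t (k + 1) - t (k + 2)) = 0 := by
    filter_upwards [eventually_all.2 hlin] with t ht
    have e : ∀ k, (g k (t k) * h k (t k)) * (t (k + 1) - t (k + 2)) =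
        h k (t k) * (q t * (h (k + 1) (t (k + 1)) - h (k + 2) (t (k + 2)))) := by
      intro k
      rw [← ht k]
      ring
    simp only [e]
    rw [Fin.sum_univ_three]
    show h 0 (t 0) * (q t * (h 1 (t 1) - h 2 (t 2))) + h 1 (t 1) * (q t * (h 2 (t 2) - h 0 (t 0))) +
      h 2 (t 2) * (q t * (h 0 (t 0) - h 1 (t 1))) = 0
    ring
  obtain ⟨a, b, hab⟩ := collinear D.gx.ht hsum1
  obtain ⟨c, d, hcd⟩ := collinear (g := fun k s => g k s * h k s) D.gx.ht hsum2
  refine ⟨a, b, c, d, h, ?_, fun k => ?_⟩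
  · filter_upwards [Metric.ball_mem_nhds t0 hr] with t ht
    have := (hK t ht).1
    rw [hTh t ht] at this
    exact ⟨K t, this⟩
  · filter_upwards [hab k, hcd k, (hgc k).tendsto.eventually_ne (hgne k),
      (hdc k).tendsto.eventually_ne (hder0 k), hgsq k, (hprc k).tendsto.eventually_ne (hPk0 k)]
      with s b1 b2 b3 b4 b5 b6
    refine ⟨?_, ?_, b4, ?_⟩
    · rw [← b1]; exact b3
    · rw [← b1]; exact b2
    · rw [← b1, b5, hH]
      simp only
      field_simp

end Pool.Agent.Lib.MP_6e94a1_ag
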