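import Pool.Agent.Lib.MP_6e94a1_ag.Quad8

/-!
# The local theorem for intersections of two diagonal quadrics
-/

open Polynomial Finset Filter Topology

set_option linter.all false

namespace Pool.Agent.Lib.MP_6e94a1_ag

variable {l m : Fin 6 → ℂ} {F G : (Fin 6 → ℂ) → (Fin 6 → ℂ)} {x0 y0 : Fin 6 → ℂ}
  {κ κ' : ℂ} {t0 T0 : Fin 3 → ℂ}

/-- The linear map permuting and scaling the coordinates. -/
noncomputable def gmap (π : Equiv.Perm (Fin 6)) (e : Fin 6 → ℂ) :
    (Fin 6 → ℂ) →ₗ[ℂ] (Fin 6 → ℂ) where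
  toFun x j := e (π.symm j) * x (π.symm j)
  map_add' x y := by
    ext j
    simp [mul_add]
  map_smul' c x := by
    ext j
    simp only [Pi.smul_apply, smul_eq_mul, RingHom.id_apply]
    ring

lemma gmap_apply (π : Equiv.Perm (Fin 6)) (e x : Fin 6 → ℂ) (i : Fin 6) :
    gmap π e x (π i) = e i * x i := by
  simp [gmap]

/-- the six points are permuted -/
lemma exists_perm (hl : Function.Injective l) {a b c d : ℂ} (hδ : b * c - a * d ≠ 0)
    (hpoly : ∀ s, (b * c - a * d) ^ 2 * ∏ i, (s - l i) = ∏ i, ((c * s + d) - m i * (a * s + b))) :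
    ∃ π : Equiv.Perm (Fin 6), ∀ i, a * l i + b ≠ 0 ∧ m (π i) * (a * l i + b) = c * l i + d := by
  have h1 : ∀ i, ∃ j, m j * (a * l i + b) = c * l i + d := by
    intro i
    have h := hpoly (l i)
    have h0 : ∏ j, (l i - l j) = 0 := Finset.prod_eq_zero (Finset.mem_univ i) (sub_self _)
    rw [h0, mul_zero] at h
    obtain ⟨j, _, hj⟩ := Finset.prod_eq_zero_iff.1 h.symm
    exact ⟨j, (sub_eq_zero.1 hj).symm⟩
  choose π' hπ using h1
  have hinj : Function.Injective π' := by
    intro i j hij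
    by_contra hne
    have e1 := hπ i
    have e2 := hπ j
    rw [← hij] at e2
    have hlij : l i - l j ≠ 0 := sub_ne_zero.2 fun h => hne (hl h)
    have e3 : m (π' i) * a = c := by
      apply mul_left_cancel₀ hlij
      linear_combination e1 - e2
    have e4 : m (π' i) * b = d := by
      linear_combination e1 - l i * e3
    apply hδ
    rw [← e3, ← e4]
    ring
  refine ⟨Equiv.ofBijective π' (Finite.injective_iff_bijective.1 hinj), fun i => ⟨?_, hπ i⟩⟩
  intro h0
  have e1 := hπ i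
  rw [h0, mul_zero] at e1
  apply hδ
  linear_combination c * h0 + a * e1

/-- comparison of squares of coordinates -/
lemma sq_compare {x y : Fin 6 → ℂ} {K : ℂ} {t T : Fin 3 → ℂ} (gx : Gen l x κ t)
    (gy : Gen m y K T) {a b c d : ℂ} (hδ : b * c - a * d ≠ 0) {π : Equiv.Perm (Fin 6)}
    (hπ : ∀ i, a * l i + b ≠ 0 ∧ m (π i) * (a * l i + b) = c * l i + d)
    (hT : ∀ k, a * t k + b ≠ 0 ∧ (a * t k + b) * T k = c * t k + d) :
    ∃ N : ℂ, N ≠ 0 ∧ ∀ i, y (π i) ^ 2 = N * (a * l i + b) * x i ^ 2 := by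
  set δ : ℂ := b * c - a * d with hδd
  have hE : ∏ i, (a * l i + b) ≠ 0 := Finset.prod_ne_zero_iff.2 fun i _ => (hπ i).1
  have hT0 := (hT 0).1
  have hT1 := (hT 1).1
  have hT2 := (hT 2).1
  refine ⟨K * (∏ i, (a * l i + b)) / (δ ^ 2 * ((a * t 0 + b) * (a * t 1 + b) * (a * t 2 + b)) * κ),
    ?_, ?_⟩
  · refine div_ne_zero (mul_ne_zero gy.hκ hE) (mul_ne_zero (mul_ne_zero (pow_ne_zero 2 hδ) ?_) gx.hκ)
    exact mul_ne_zero (mul_ne_zero hT0 hT1) hT2
  · intro i
    have hli := (hπ i).1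
    have f1 : ∀ k, (a * l i + b) * (a * t k + b) * (m (π i) - T k) = δ * (l i - t k) := by
      intro k
      have e1 := (hπ i).2
      have e2 := (hT k).2
      rw [hδd]
      linear_combination (a * t k + b) * e1 - (a * l i + b) * e2
    have f2 : ∀ j, (a * l i + b) * (a * l j + b) * (m (π i) - m (π j)) = δ * (l i - l j) := by
      intro j
      have e1 := (hπ i).2
      have e2 := (hπ j).2
      rw [hδd]
      linear_combination (a * l j + b) * e1 - (a * l i + b) * e2
    -- the Lagrange denominators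
    have f3 : DD m (π i) * ((a * l i + b) ^ 4 * ∏ j, (a * l j + b)) = δ ^ 5 * DD l i := by
      have e1 : DD m (π i) = ∏ j ∈ Finset.univ.erase i, (m (π i) - m (π j)) := by
        rw [DD]
        have : (Finset.univ.erase (π i) : Finset (Fin 6)) =
            (Finset.univ.erase i).map π.toEmbedding := by
          ext j
          simp only [Finset.mem_erase, Finset.mem_univ, and_true, Finset.mem_map,
            Equiv.toEmbedding_apply]
          constructor
          · intro hj
            exact ⟨π.symm j, fun h => hj (by rw [← h, Equiv.apply_symm_apply]), by simp⟩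
          · rintro ⟨k, hk, rfl⟩ h
            exact hk (π.injective h)
        rw [this, Finset.prod_map]
        rfl
      have hcard : (Finset.univ.erase i : Finset (Fin 6)).card = 5 := by
        rw [Finset.card_erase_of_mem (Finset.mem_univ i)]
        simp
      have e2 : (∏ j ∈ Finset.univ.erase i, (a * l i + b)) = (a * l i + b) ^ 5 := by
        rw [Finset.prod_const, hcard]
      have e3 : (∏ j ∈ (Finset.univ.erase i : Finset (Fin 6)), δ) = δ ^ 5 := by
        rw [Finset.prod_const, hcard]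
      have e4 : (∏ j ∈ Finset.univ.erase i, (a * l j + b)) * (a * l i + b) =
          ∏ j, (a * l j + b) := Finset.prod_erase_mul _ _ (Finset.mem_univ i)
      have e5 : (∏ j ∈ Finset.univ.erase i, ((a * l i + b) * (a * l j + b) *
          (m (π i) - m (π j)))) = ∏ j ∈ Finset.univ.erase i, (δ * (l i - l j)) :=
        Finset.prod_congr rfl fun j _ => f2 j
      rw [Finset.prod_mul_distrib, Finset.prod_mul_distrib, Finset.prod_mul_distrib, e2, e3,
        ← e1] at e5
      have e6 : (∏ j ∈ Finset.univ.erase i, (l i - l j)) = DD l i := rfl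
      rw [e6] at e5
      apply mul_left_cancel₀ hli
      rw [← e4]
      linear_combination (a * l i + b) * e5
    have g1 := gy.hx (π i)
    have g2 := gx.hx i
    have d1 := DD_ne gx.hl i
    have d2 := DD_ne gy.hl (π i)
    have k0 := f1 0
    have k1 := f1 1
    have k2 := f1 2
    have kprod : (a * l i + b) ^ 3 * ((a * t 0 + b) * (a * t 1 + b) * (a * t 2 + b)) *
        ((m (π i) - T 0) * (m (π i) - T 1) * (m (π i) - T 2)) =
        δ ^ 3 * ((l i - t 0) * (l i - t 1) * (l i - t 2)) := by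
      have : (a * l i + b) ^ 3 * ((a * t 0 + b) * (a * t 1 + b) * (a * t 2 + b)) *
        ((m (π i) - T 0) * (m (π i) - T 1) * (m (π i) - T 2)) =
        ((a * l i + b) * (a * t 0 + b) * (m (π i) - T 0)) *
        ((a * l i + b) * (a * t 1 + b) * (m (π i) - T 1)) *
        ((a * l i + b) * (a * t 2 + b) * (m (π i) - T 2)) := by ring
      rw [this, k0, k1, k2]
      ring
    have hκ := gx.hκ
    -- combine
    generalize hE' : ∏ j, (a * l j + b) = E at *
    generalize hA : (a * t 0 + b) * (a * t 1 + b) * (a * t 2 + b) = A at *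
    have hA0 : A ≠ 0 := by rw [← hA]; exact mul_ne_zero (mul_ne_zero hT0 hT1) hT2
    generalize (m (π i) - T 0) * (m (π i) - T 1) * (m (π i) - T 2) = Q at *
    generalize (l i - t 0) * (l i - t 1) * (l i - t 2) = R at *
    generalize hli' : a * l i + b = L at *
    have g3 : y (π i) ^ 2 * (δ ^ 5 * DD l i) * A = K * δ ^ 3 * R * (L * E) := by
      rw [← f3]
      calc y (π i) ^ 2 * (DD m (π i) * (L ^ 4 * E)) * A
          = (y (π i) ^ 2 * DD m (π i)) * (L ^ 4 * E) * A := by ring
        _ = K * Q * (L ^ 4 * E) * A := by rw [g1]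
        _ = K * (L ^ 3 * A * Q) * (L * E) := by ring
        _ = K * δ ^ 3 * R * (L * E) := by rw [kprod]; ring
    have g4 : R = x i ^ 2 * DD l i / κ := by
      rw [g2]; field_simp
    rw [g4] at g3
    have g5 : y (π i) ^ 2 * (δ ^ 5 * DD l i * A) =
        (K * E / (δ ^ 2 * A * κ) * L * x i ^ 2) * (δ ^ 5 * DD l i * A) := by
      have : K * E / (δ ^ 2 * A * κ) * L * x i ^ 2 * (δ ^ 5 * DD l i * A) =
          K * δ ^ 3 * (x i ^ 2 * DD l i / κ) * (L * E) := by
        field_simp
      rw [this, ← g3]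
      ring
    exact mul_right_cancel₀ (mul_ne_zero (mul_ne_zero (pow_ne_zero 5 hδ) d1) hA0) g5

lemma cpar_smul (l x0 : Fin 6 → ℂ) (t0 : Fin 3 → ℂ) (p : PE) :
    cpar l x0 t0 p = p.1 • cs l x0 t0 p.2 := by
  ext i
  simp only [cs, cpar, Pi.smul_apply, smul_eq_mul]
  ring

/-- **Local theorem** for intersections of two diagonal quadrics. -/
theorem local_quad (D : LocD l m F G x0 y0 κ κ' t0 T0) :
    ∃ (π : Equiv.Perm (Fin 6)) (e : Fin 6 → ℂ) (N a b c d : ℂ), N ≠ 0 ∧ b * c - a * d ≠ 0 ∧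
      (∀ i, a * l i + b ≠ 0 ∧ m (π i) * (a * l i + b) = c * l i + d ∧
        e i ^ 2 = N * (a * l i + b)) ∧
      ∀ᶠ x in 𝓝 x0, ConeD l x → ∃ r : ℂ, F x = r • gmap π e x := by
  obtain ⟨a, b, c, d, h, hG, hk⟩ := exists_affine D
  have hx0 := cs_self D.gx
  -- the derivative of `h`
  have hderiv : ∀ k, ∀ᶠ s in 𝓝 (t0 k), (a * s + b) ^ 2 * deriv (h k) s = b * c - a * d := by
    intro k
    filter_upwards [eventually_eventually_nhds.2 (hk k), hk k] with s h1 h2
    obtain ⟨h3, h4, h5, h6⟩ := h2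
    have h7 : HasDerivAt (fun s => (c * s + d) / (a * s + b))
        ((c * (a * s + b) - (c * s + d) * a) / (a * s + b) ^ 2) s := by
      have e1 : HasDerivAt (fun s : ℂ => c * s + d) c s := by
        simpa using ((hasDerivAt_id s).const_mul c).add_const d
      have e2 : HasDerivAt (fun s : ℂ => a * s + b) a s := by
        simpa using ((hasDerivAt_id s).const_mul a).add_const b
      exact e1.div e2 h3
    have h8 : HasDerivAt (h k) ((c * (a * s + b) - (c * s + d) * a) / (a * s + b) ^ 2) s := by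
      refine h7.congr_of_eventuallyEq ?_
      filter_upwards [h1] with u hu
      obtain ⟨u1, u2, -, -⟩ := hu
      rw [eq_div_iff u1, ← u2]
      ring
    rw [h8.deriv]
    field_simp
    ring
  have hδ : b * c - a * d ≠ 0 := by
    have h1 := (hderiv 0).self_of_nhds
    obtain ⟨h3, h4, h5, h6⟩ := (hk 0).self_of_nhds
    rw [← h1]
    exact mul_ne_zero (pow_ne_zero 2 h3) h5
  -- the polynomial identity
  have hpoly : ∀ s, (b * c - a * d) ^ 2 * ∏ i, (s - l i) =
      ∏ i, ((c * s + d) - m i * (a * s + b)) := by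
    have hpe : C ((b * c - a * d) ^ 2) * ∏ i, (X - C (l i)) =
        ∏ i, ((C c * X + C d) - C (m i) * (C a * X + C b)) := by
      apply Polynomial.eq_of_infinite_eval_eq
      apply infinite_of_mem_nhds (t0 0)
      filter_upwards [hk 0, hderiv 0] with s h1 h2
      obtain ⟨h3, h4, h5, h6⟩ := h1
      simp only [Set.mem_setOf_eq, eval_mul, eval_C, eval_prod, eval_sub, eval_X, eval_add]
      rw [← h2, ← h4]
      have e1 : ∏ i, ((a * s + b) * h 0 s - m i * (a * s + b)) =
          (a * s + b) ^ 6 * ∏ i, (h 0 s - m i) := by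
        have : ∀ i, (a * s + b) * h 0 s - m i * (a * s + b) = (a * s + b) * (h 0 s - m i) :=
          fun i => by ring
        simp only [this, Finset.prod_mul_distrib, Finset.prod_const, Finset.card_univ,
          Fintype.card_fin]
      rw [e1]
      linear_combination (a * s + b) ^ 4 * h6
    intro s
    have := congrArg (fun P => P.eval s) hpe
    simp only [eval_mul, eval_C, eval_prod, eval_sub, eval_X, eval_add] at this
    exact this
  obtain ⟨π, hπ⟩ := exists_perm (m := m) D.gx.hl hδ hpoly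
  -- comparison of squares near `t0`
  have hproj : ∀ k, Tendsto (fun t : Fin 3 → ℂ => t k) (𝓝 t0) (𝓝 (t0 k)) := fun k =>
    (continuous_apply k).tendsto t0
  have hcmp : ∀ᶠ t in 𝓝 t0, ∃ N : ℂ, N ≠ 0 ∧
      ∀ i, F (cs l x0 t0 t) (π i) ^ 2 = N * (a * l i + b) * cs l x0 t0 t i ^ 2 := by
    have h1 := eventually_all.2 fun k => (hproj k).eventually (hk k)
    filter_upwards [hG, h1, goodP_slice D.gx] with t h2 h3 h4
    obtain ⟨K, gy⟩ := h2
    exact sq_compare (gen_cs D.gx h4) gy hδ hπ (fun k => ⟨(h3 k).1, (h3 k).2.1⟩)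
  obtain ⟨N, hN, hN0⟩ := hcmp.self_of_nhds
  rw [hx0, D.hval] at hN0
  refine ⟨π, fun i => y0 (π i) / x0 i, N, a, b, c, d, hN, hδ, ?_, ?_⟩
  · intro i
    refine ⟨(hπ i).1, (hπ i).2, ?_⟩
    rw [div_pow, hN0 i]
    have := D.gx.x_ne i
    field_simp
  -- continuity
  have hcs : AnalyticAt ℂ (cs l x0 t0) t0 := analyticAt_cs (goodP_self D.gx)
  have hF' : AnalyticAt ℂ (fun t => F (cs l x0 t0 t)) t0 := by
    have : AnalyticAt ℂ F (cs l x0 t0 t0) := by rw [hx0]; exact D.hF
    exact this.fun_comp hcs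
  have hyc : ∀ j, ContinuousAt (fun t => F (cs l x0 t0 t) j) t0 := fun j =>
    (continuous_apply j).continuousAt.comp hF'.continuousAt
  have hxc : ∀ j, ContinuousAt (fun t => cs l x0 t0 t j) t0 := fun j =>
    (continuous_apply j).continuousAt.comp hcs.continuousAt
  have hx0i := D.gx.x_ne
  have hy0i := D.gy.x_ne
  have hsign : ∀ i, ∀ᶠ t in 𝓝 t0, F (cs l x0 t0 t) (π i) * (y0 (π 0) / x0 0 * cs l x0 t0 t 0) =
      y0 (π i) / x0 i * cs l x0 t0 t i * F (cs l x0 t0 t) (π 0) := by
    intro i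
    refine eventually_eq_of_sq ((hyc _).mul (continuousAt_const.mul (hxc _)))
      ((continuousAt_const.mul (hxc _)).mul (hyc _)) ?_ ?_ ?_
    · simp only [hx0, D.hval]
      have h1 := hx0i i
      have h2 := hx0i 0
      field_simp
    · simp only [hx0, D.hval]
      have h1 := hx0i 0
      have h2 := hy0i (π i)
      have h3 := hy0i (π 0)
      exact mul_ne_zero h2 (mul_ne_zero (div_ne_zero h3 h1) h1)
    · filter_upwards [hcmp] with t ht
      obtain ⟨N', hN', hN'0⟩ := ht
      have e1 := hN'0 i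
      have e2 := hN'0 0
      have e3 := hN0 i
      have e4 := hN0 0
      have h1 := hx0i i
      have h2 := hx0i 0
      rw [mul_pow, mul_pow, mul_pow, mul_pow, div_pow, div_pow, e1, e2, e3, e4]
      field_simp
  have hcsx : ∀ᶠ t in 𝓝 t0, ∃ r : ℂ, F (cs l x0 t0 t) =
      r • gmap π (fun i => y0 (π i) / x0 i) (cs l x0 t0 t) := by
    filter_upwards [eventually_all.2 hsign, goodP_slice D.gx] with t h1 h2
    have gx := gen_cs D.gx h2
    have hx00 := gx.x_ne 0
    have h2 := hx0i 0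
    have h3 := hy0i (π 0)
    refine ⟨F (cs l x0 t0 t) (π 0) / (y0 (π 0) / x0 0 * cs l x0 t0 t 0), ?_⟩
    ext j
    obtain ⟨i, rfl⟩ := π.surjective j
    rw [Pi.smul_apply, gmap_apply, smul_eq_mul]
    have h4 := h1 i
    have h5 : y0 (π 0) / x0 0 * cs l x0 t0 t 0 ≠ 0 := mul_ne_zero (div_ne_zero h3 h2) hx00
    rw [div_mul_eq_mul_div, eq_div_iff h5, h4]
    ring
  -- conclusion
  obtain ⟨σ, hσ, hσ0, hσ1, hσ2⟩ := exists_chartD D.gx
  have hσt : Tendsto σ (𝓝 x0) (𝓝 ((1 : ℂ), t0)) := by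
    have := hσ.continuousAt.tendsto
    rwa [hσ0] at this
  have hσ2t : Tendsto (fun x => (σ x).2) (𝓝 x0) (𝓝 t0) := (continuous_snd.tendsto _).comp hσt
  have hσ1t : Tendsto (fun x => (σ x).1) (𝓝 x0) (𝓝 1) := (continuous_fst.tendsto _).comp hσt
  have hpair : Tendsto (fun x => ((σ x).1, cs l x0 t0 (σ x).2)) (𝓝 x0) (𝓝 ((1 : ℂ), x0)) := by
    refine hσ1t.prodMk_nhds ?_
    have := hcs.continuousAt.tendsto.comp hσ2t
    rwa [hx0] at this
  filter_upwards [hσ1, hσ2t.eventually hcsx, hpair.eventually D.radial,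
    hσ2t.eventually (goodP_slice D.gx), hσ1t.eventually_ne one_ne_zero] with x h1 h2 h3 h4 h5 hx
  have h6 := h1 hx
  rw [cpar_smul] at h6
  obtain ⟨r, hr⟩ := h2
  obtain ⟨r', hr'⟩ := h3 (gen_cs D.gx h4).cone
  rw [h6, hr] at hr'
  refine ⟨r' * r / (σ x).1, ?_⟩
  have e : gmap π (fun i => y0 (π i) / x0 i) x =
      (σ x).1 • gmap π (fun i => y0 (π i) / x0 i) (cs l x0 t0 (σ x).2) := by
    rw [← map_smul, h6]
  rw [hr', e, smul_smul, smul_smul]
  congr 1
  field_simp

end Pool.Agent.Lib.MP_6e94a1_ag
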