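import Pool.Agent.Lib.MP_6e94a1_ag.Proj
import Pool.Agent.Lib.MP_6e94a1_ag.DefsV5

/-!
# Binary sextics and the quintic del Pezzo threefold
-/

open scoped LinearAlgebra.Projectivization Topology
open Projectivization Filter Set

namespace Pool.Agent.Lib.MP_6e94a1_ag

lemma Cone.smul {a : Fin 7 → ℂ} (h : Cone a) (c : ℂ) : Cone (c • a) := by
  obtain ⟨h0, h1, h2, h3, h4⟩ := h
  simp only [Cone, Pi.smul_apply, smul_eq_mul]
  refine ⟨?_, ?_, ?_, ?_, ?_⟩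
  · linear_combination c ^ 2 * h0
  · linear_combination c ^ 2 * h1
  · linear_combination c ^ 2 * h2
  · linear_combination c ^ 2 * h3
  · linear_combination c ^ 2 * h4

lemma mem_V5 {v : Fin 7 → ℂ} (hv : v ≠ 0) : mk ℂ v hv ∈ V5 ↔ Cone v := by
  obtain ⟨a, ha⟩ := exists_smul_eq_mk_rep ℂ v hv
  simp only [V5, mem_setOf_eq, ← ha]
  constructor
  · intro h
    have := h.smul (a⁻¹ : ℂˣ)
    rw [Units.smul_def, smul_smul, ← Units.val_mul] at this
    simpa using this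
  · intro h
    exact h.smul a

/-- auxiliary: action of a 2x2 matrix with entries `p q r s` -/
def rhoAux (p q r s : ℂ) (a : Fin 7 → ℂ) : Fin 7 → ℂ :=
  ![p ^ 6 * a 0 +
      6 * p ^ 5 * q * a 1 +
      15 * p ^ 4 * q ^ 2 * a 2 +
      20 * p ^ 3 * q ^ 3 * a 3 +
      15 * p ^ 2 * q ^ 4 * a 4 +
      6 * p * q ^ 5 * a 5 +
      q ^ 6 * a 6,
    p ^ 5 * r * a 0 +
      p ^ 5 * s * a 1 +
      5 * p ^ 4 * q * r * a 1 +
      5 * p ^ 4 * q * s * a 2 +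
      10 * p ^ 3 * q ^ 2 * r * a 2 +
      10 * p ^ 3 * q ^ 2 * s * a 3 +
      10 * p ^ 2 * q ^ 3 * r * a 3 +
      10 * p ^ 2 * q ^ 3 * s * a 4 +
      5 * p * q ^ 4 * r * a 4 +
      5 * p * q ^ 4 * s * a 5 +
      q ^ 5 * r * a 5 +
      q ^ 5 * s * a 6,
    p ^ 4 * r ^ 2 * a 0 +
      2 * p ^ 4 * r * s * a 1 +
      p ^ 4 * s ^ 2 * a 2 +
      4 * p ^ 3 * q * r ^ 2 * a 1 +
      8 * p ^ 3 * q * r * s * a 2 +
      4 * p ^ 3 * q * s ^ 2 * a 3 +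
      6 * p ^ 2 * q ^ 2 * r ^ 2 * a 2 +
      12 * p ^ 2 * q ^ 2 * r * s * a 3 +
      6 * p ^ 2 * q ^ 2 * s ^ 2 * a 4 +
      4 * p * q ^ 3 * r ^ 2 * a 3 +
      8 * p * q ^ 3 * r * s * a 4 +
      4 * p * q ^ 3 * s ^ 2 * a 5 +
      q ^ 4 * r ^ 2 * a 4 +
      2 * q ^ 4 * r * s * a 5 +
      q ^ 4 * s ^ 2 * a 6,
    p ^ 3 * r ^ 3 * a 0 +
      3 * p ^ 3 * r ^ 2 * s * a 1 +
      3 * p ^ 3 * r * s ^ 2 * a 2 +
      p ^ 3 * s ^ 3 * a 3 +
      3 * p ^ 2 * q * r ^ 3 * a 1 +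
      9 * p ^ 2 * q * r ^ 2 * s * a 2 +
      9 * p ^ 2 * q * r * s ^ 2 * a 3 +
      3 * p ^ 2 * q * s ^ 3 * a 4 +
      3 * p * q ^ 2 * r ^ 3 * a 2 +
      9 * p * q ^ 2 * r ^ 2 * s * a 3 +
      9 * p * q ^ 2 * r * s ^ 2 * a 4 +
      3 * p * q ^ 2 * s ^ 3 * a 5 +
      q ^ 3 * r ^ 3 * a 3 +
      3 * q ^ 3 * r ^ 2 * s * a 4 +
      3 * q ^ 3 * r * s ^ 2 * a 5 +
      q ^ 3 * s ^ 3 * a 6,
    p ^ 2 * r ^ 4 * a 0 +
      4 * p ^ 2 * r ^ 3 * s * a 1 +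
      6 * p ^ 2 * r ^ 2 * s ^ 2 * a 2 +
      4 * p ^ 2 * r * s ^ 3 * a 3 +
      p ^ 2 * s ^ 4 * a 4 +
      2 * p * q * r ^ 4 * a 1 +
      8 * p * q * r ^ 3 * s * a 2 +
      12 * p * q * r ^ 2 * s ^ 2 * a 3 +
      8 * p * q * r * s ^ 3 * a 4 +
      2 * p * q * s ^ 4 * a 5 +
      q ^ 2 * r ^ 4 * a 2 +
      4 * q ^ 2 * r ^ 3 * s * a 3 +
      6 * q ^ 2 * r ^ 2 * s ^ 2 * a 4 +
      4 * q ^ 2 * r * s ^ 3 * a 5 +
      q ^ 2 * s ^ 4 * a 6,
    p * r ^ 5 * a 0 +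
      5 * p * r ^ 4 * s * a 1 +
      10 * p * r ^ 3 * s ^ 2 * a 2 +
      10 * p * r ^ 2 * s ^ 3 * a 3 +
      5 * p * r * s ^ 4 * a 4 +
      p * s ^ 5 * a 5 +
      q * r ^ 5 * a 1 +
      5 * q * r ^ 4 * s * a 2 +
      10 * q * r ^ 3 * s ^ 2 * a 3 +
      10 * q * r ^ 2 * s ^ 3 * a 4 +
      5 * q * r * s ^ 4 * a 5 +
      q * s ^ 5 * a 6,
    r ^ 6 * a 0 +
      6 * r ^ 5 * s * a 1 +
      15 * r ^ 4 * s ^ 2 * a 2 +
      20 * r ^ 3 * s ^ 3 * a 3 +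
      15 * r ^ 2 * s ^ 4 * a 4 +
      6 * r * s ^ 5 * a 5 +
      s ^ 6 * a 6]

/-- the form attached to a coefficient vector -/
def ev (a : Fin 7 → ℂ) (x y : ℂ) : ℂ :=
  a 0 * x ^ 6 + 6 * a 1 * x ^ 5 * y + 15 * a 2 * x ^ 4 * y ^ 2 + 20 * a 3 * x ^ 3 * y ^ 3 +
    15 * a 4 * x ^ 2 * y ^ 4 + 6 * a 5 * x * y ^ 5 + a 6 * y ^ 6

lemma ev_rhoAux (p q r s : ℂ) (a : Fin 7 → ℂ) (x y : ℂ) :
    ev (rhoAux p q r s a) x y = ev a (p * x + r * y) (q * x + s * y) := by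
  simp only [ev, rhoAux, Matrix.cons_val]
  ring

lemma ev_injective {a b : Fin 7 → ℂ} (h : ∀ x y, ev a x y = ev b x y) : a = b := by
  have k : (Polynomial.C (a 0) * Polynomial.X ^ 6 +
      Polynomial.C (6 * a 1) * Polynomial.X ^ 5 + Polynomial.C (15 * a 2) * Polynomial.X ^ 4 +
      Polynomial.C (20 * a 3) * Polynomial.X ^ 3 + Polynomial.C (15 * a 4) * Polynomial.X ^ 2 +
      Polynomial.C (6 * a 5) * Polynomial.X ^ 1 + Polynomial.C (a 6) * Polynomial.X ^ 0) =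
      (Polynomial.C (b 0) * Polynomial.X ^ 6 +
      Polynomial.C (6 * b 1) * Polynomial.X ^ 5 + Polynomial.C (15 * b 2) * Polynomial.X ^ 4 +
      Polynomial.C (20 * b 3) * Polynomial.X ^ 3 + Polynomial.C (15 * b 4) * Polynomial.X ^ 2 +
      Polynomial.C (6 * b 5) * Polynomial.X ^ 1 + Polynomial.C (b 6) * Polynomial.X ^ 0) := by
    apply Polynomial.funext
    intro x
    have := h x 1
    simp only [ev] at this
    simp only [Polynomial.eval_add, Polynomial.eval_mul, Polynomial.eval_C, Polynomial.eval_pow,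
      Polynomial.eval_X]
    linear_combination this
  ext i
  have c := congrArg (fun P => P.coeff (6 - i)) k
  simp only [Polynomial.coeff_add, Polynomial.coeff_C_mul_X_pow] at c
  fin_cases i <;> simpa using c

lemma rhoAux_add (p q r s : ℂ) (a b : Fin 7 → ℂ) :
    rhoAux p q r s (a + b) = rhoAux p q r s a + rhoAux p q r s b := by
  apply ev_injective
  intro x y
  have : ∀ a b : Fin 7 → ℂ, ∀ x y, ev (a + b) x y = ev a x y + ev b x y := by
    intro a b x y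
    simp only [ev, Pi.add_apply]
    ring
  rw [this, ev_rhoAux, ev_rhoAux, ev_rhoAux, this]

lemma rhoAux_smul (p q r s : ℂ) (c : ℂ) (a : Fin 7 → ℂ) :
    rhoAux p q r s (c • a) = c • rhoAux p q r s a := by
  apply ev_injective
  intro x y
  have : ∀ (c : ℂ) (a : Fin 7 → ℂ), ∀ x y, ev (c • a) x y = c * ev a x y := by
    intro c a x y
    simp only [ev, Pi.smul_apply, smul_eq_mul]
    ring
  rw [this, ev_rhoAux, ev_rhoAux, this]

/-- The action of 2x2 matrices on sextics: `(g·F)(x,y) = F((x,y)g)`. -/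
def rho (g : Matrix (Fin 2) (Fin 2) ℂ) : (Fin 7 → ℂ) →ₗ[ℂ] (Fin 7 → ℂ) where
  toFun := rhoAux (g 0 0) (g 0 1) (g 1 0) (g 1 1)
  map_add' := rhoAux_add _ _ _ _
  map_smul' := rhoAux_smul _ _ _ _

lemma ev_rho (g : Matrix (Fin 2) (Fin 2) ℂ) (a : Fin 7 → ℂ) (x y : ℂ) :
    ev (rho g a) x y = ev a (g 0 0 * x + g 1 0 * y) (g 0 1 * x + g 1 1 * y) :=
  ev_rhoAux _ _ _ _ _ _ _

lemma rho_mul (g h : Matrix (Fin 2) (Fin 2) ℂ) (a : Fin 7 → ℂ) :
    rho (g * h) a = rho g (rho h a) := by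
  apply ev_injective
  intro x y
  rw [ev_rho, ev_rho, ev_rho]
  congr 1 <;> simp only [Matrix.mul_apply, Fin.sum_univ_two] <;> ring

lemma rho_one (a : Fin 7 → ℂ) : rho 1 a = a := by
  apply ev_injective
  intro x y
  rw [ev_rho]
  simp

lemma rho_smul (c : ℂ) (g : Matrix (Fin 2) (Fin 2) ℂ) (a : Fin 7 → ℂ) :
    rho (c • g) a = c ^ 6 • rho g a := by
  apply ev_injective
  intro x y
  have : ∀ (c : ℂ) (a : Fin 7 → ℂ), ∀ x y, ev (c • a) x y = c * ev a x y := by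
    intro c a x y
    simp only [ev, Pi.smul_apply, smul_eq_mul]
    ring
  rw [this, ev_rho, ev_rho]
  simp only [ev, Matrix.smul_apply, smul_eq_mul]
  ring

lemma rho_injective {g : Matrix (Fin 2) (Fin 2) ℂ} (hg : g.det ≠ 0) :
    Function.Injective (rho g) := by
  intro a b h
  have h1 : rho g⁻¹ (rho g a) = rho g⁻¹ (rho g b) := by rw [h]
  rw [← rho_mul, ← rho_mul, Matrix.nonsing_inv_mul _ (isUnit_iff_ne_zero.2 hg), rho_one,
    rho_one] at h1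
  exact h1

/-- invariance of the cone -/
lemma Cone.rho {a : Fin 7 → ℂ} (h : Cone a) (g : Matrix (Fin 2) (Fin 2) ℂ) :
    Cone (rho g a) := by
  revert a
  apply Matrix.diagonal_transvection_induction
    (P := fun g => ∀ {a : Fin 7 → ℂ}, Cone a → Cone (MP_6e94a1_ag.rho g a)) g
  · intro D _ a h
    obtain ⟨h0, h1, h2, h3, h4⟩ := h
    simp only [Cone, MP_6e94a1_ag.rho, LinearMap.coe_mk, AddHom.coe_mk, rhoAux, Matrix.cons_val,
      Matrix.diagonal_apply_eq, Matrix.diagonal_apply_ne _ (zero_ne_one' (Fin 2)),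
      Matrix.diagonal_apply_ne _ (one_ne_zero' (Fin 2))]
    refine ⟨?_, ?_, ?_, ?_, ?_⟩
    · linear_combination (D 0) ^ 8 * (D 1) ^ 4 * h0
    · linear_combination (D 0) ^ 7 * (D 1) ^ 5 * h1
    · linear_combination (D 0) ^ 6 * (D 1) ^ 6 * h2
    · linear_combination (D 0) ^ 5 * (D 1) ^ 7 * h3
    · linear_combination (D 0) ^ 4 * (D 1) ^ 8 * h4
  · rintro ⟨i, j, hij, c⟩ a h
    obtain ⟨h0, h1, h2, h3, h4⟩ := h
    fin_cases i <;> fin_cases j
    · exact absurd rfl hij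
    · simp only [Cone, MP_6e94a1_ag.rho, LinearMap.coe_mk, AddHom.coe_mk, rhoAux,
        Matrix.cons_val, Matrix.TransvectionStruct.toMatrix, Matrix.transvection,
        Matrix.add_apply, Matrix.one_apply, Matrix.single_apply]
      norm_num
      refine ⟨?_, ?_, ?_, ?_, ?_⟩
      · linear_combination h0 + 2 * c * h1 + c ^ 2 * h2 + 2 * c ^ 3 * h3 + c ^ 4 * h4
      · linear_combination h1 + c * h2 + 3 * c ^ 2 * h3 + 2 * c ^ 3 * h4
      · linear_combination h2 + 6 * c * h3 + 6 * c ^ 2 * h4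
      · linear_combination h3 + 2 * c * h4
      · linear_combination h4
    · simp only [Cone, MP_6e94a1_ag.rho, LinearMap.coe_mk, AddHom.coe_mk, rhoAux,
        Matrix.cons_val, Matrix.TransvectionStruct.toMatrix, Matrix.transvection,
        Matrix.add_apply, Matrix.one_apply, Matrix.single_apply]
      norm_num
      refine ⟨?_, ?_, ?_, ?_, ?_⟩
      · linear_combination h0
      · linear_combination h1 + 2 * c * h0
      · linear_combination h2 + 6 * c * h1 + 6 * c ^ 2 * h0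
      · linear_combination h3 + c * h2 + 3 * c ^ 2 * h1 + 2 * c ^ 3 * h0
      · linear_combination h4 + 2 * c * h3 + c ^ 2 * h2 + 2 * c ^ 3 * h1 + c ^ 4 * h0
    · exact absurd rfl hij
  · intro A B hA hB a h
    rw [rho_mul]
    exact hA (hB h)

end Pool.Agent.Lib.MP_6e94a1_ag
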